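import Mathlib

set_option autoImplicit false

namespace Pool.Agent.H14.AntimagicP3

open Finset SimpleGraph

variable {V W : Type}

/-- `G` has a bijective edge labelling by `1, …, m` with pairwise distinct vertex sums. -/
def Antimagic (G : SimpleGraph V) : Prop :=
  ∃ f : Sym2 V → ℤ, Set.BijOn f G.edgeSet (Set.Icc 1 G.edgeSet.ncard) ∧
    Function.Injective fun v => ∑ᶠ w ∈ G.neighborSet v, f s(v, w)

/-- `tP₃`: the disjoint union of `t` paths on three vertices. -/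
def P3s (t : ℕ) : SimpleGraph (Fin t × Fin 3) := (⊥ : SimpleGraph (Fin t)) □ pathGraph 3

/-- The star with `m` edges. -/
def star (m : ℕ) : SimpleGraph (Fin 1 ⊕ Fin m) := completeBipartiteGraph (Fin 1) (Fin m)

def Pend (G : SimpleGraph V) (L : V → Bool) (p : V → V) : Prop :=
  (∀ u v, G.Adj u v ↔ (L u ∧ p u = v) ∨ (L v ∧ p v = u)) ∧ ∀ u, L u → ¬ L (p u)

theorem Pend.sum {G : SimpleGraph V} {H : SimpleGraph W} {L : V → Bool} {p : V → V}
    {L' : W → Bool} {p' : W → W} (h : Pend G L p) (h' : Pend H L' p') :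
    Pend (G ⊕g H) (Sum.elim L L') (Sum.map p p') := by
  refine ⟨?_, ?_⟩
  · rintro (u | u) (v | v) <;> simp [h.1, h'.1]
  · rintro (u | u)
    exacts [h.2 u, h'.2 u]

theorem pend_star (m : ℕ) : Pend (star m) Sum.isRight fun _ => .inl 0 := by
  refine ⟨?_, by simp⟩
  rintro (u | u) (v | v) <;> simp [star] <;> exact Subsingleton.elim _ _

theorem pend_P3s (t : ℕ) : Pend (P3s t) (fun x => x.2 != 1) fun x => (x.1, 1) := by
  refine ⟨?_, by simp⟩
  rintro ⟨i, a⟩ ⟨j, b⟩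
  simp only [P3s, boxProd_adj, bot_adj, false_and, false_or, pathGraph_adj]
  fin_cases a <;> fin_cases b <;> simp [eq_comm]

variable [Fintype V] [DecidableEq V] {G : SimpleGraph V} {L : V → Bool} {p : V → V}

omit [Fintype V] [DecidableEq V] in
theorem Pend.bij (h : Pend G L p) : Set.BijOn (fun u => s(u, p u)) {u | L u} G.edgeSet := by
  refine ⟨fun u hu => (h.1 _ _).2 (.inl ⟨hu, rfl⟩), fun u hu v hv e => ?_, ?_⟩
  · rcases Sym2.eq_iff.1 e with e | e
    · exact e.1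
    · exact absurd (e.2 ▸ hv : L (p u) = true) (h.2 u hu)
  · rintro ⟨u, v⟩ e
    rcases (h.1 u v).1 e with ⟨k, rfl⟩ | ⟨k, rfl⟩
    exacts [⟨u, k, rfl⟩, ⟨v, k, Sym2.eq_swap⟩]

omit [DecidableEq V] in
theorem Pend.card (h : Pend G L p) : G.edgeSet.ncard = #{u | L u} := by
  rw [← h.bij.image_eq, h.bij.injOn.ncard_image, ← Set.ncard_coe_finset]
  simp

theorem Pend.nbr (h : Pend G L p) (v : V) :
    G.neighborSet v = ((if L v then {p v} else univ.filter fun u => L u ∧ p u = v : Finset V) : Set V) := by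
  ext w
  rw [mem_neighborSet, h.1]
  split_ifs with k
  · simp only [k, true_and, coe_singleton, Set.mem_singleton_iff]
    exact ⟨fun e => e.elim Eq.symm fun e => absurd (e.2 ▸ k) (h.2 w e.1), fun e => .inl e.symm⟩
  · simp [k]

theorem Pend.anti (h : Pend G L p) (ψ : V → ℤ) (h1 : Function.Injective ψ)
    (h2 : ∀ v, L v → 1 ≤ ψ v ∧ ψ v ≤ #{u | L u})
    (h3 : ∀ v, ¬ L v → ψ v = ∑ u with L u ∧ p u = v, ψ u) : Antimagic G := by
  let f : Sym2 V → ℤ := fun e => ∑ u with L u ∧ u ∈ e, ψ u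
  have hf : ∀ u, L u → f s(u, p u) = ψ u := fun u hu => by
    refine sum_eq_single_of_mem u (by simp [hu]) fun w hw n => ?_
    simp only [mem_filter, mem_univ, true_and, Sym2.mem_iff, n, false_or] at hw
    exact absurd (hw.2 ▸ hw.1) (h.2 u hu)
  have b : Set.BijOn ψ {u | L u} (Set.Icc 1 (#{u | L u} : ℕ)) := by
    refine ⟨h2, h1.injOn, ?_⟩
    have := surjOn_of_injOn_of_card_le (s := {u | L u}) (t := Icc (1 : ℤ) (#{u | L u} : ℕ)) ψ
      (fun v hv => by simpa using h2 v (by simpa using hv)) h1.injOn (by simp)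
    simpa using this
  refine ⟨f, ?_, ?_⟩
  · rw [h.card]
    refine ⟨fun e he => ?_, fun e he e' he' k => ?_, fun x hx => ?_⟩
    · obtain ⟨u, k, rfl⟩ := h.bij.2.2 he
      exact hf u k ▸ b.1 k
    · obtain ⟨u, k1, rfl⟩ := h.bij.2.2 he
      obtain ⟨v, k2, rfl⟩ := h.bij.2.2 he'
      rw [h1 ((hf u k1).symm.trans (k.trans (hf v k2)))]
    · obtain ⟨u, k, rfl⟩ := b.2.2 hx
      exact ⟨_, h.bij.1 k, hf u k⟩
  · convert h1 using 2 with v
    rw [h.nbr, finsum_mem_coe_finset]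
    split_ifs with k
    · rw [sum_singleton, hf v k]
    · rw [h3 v k]
      refine sum_congr rfl fun u hu => ?_
      obtain ⟨k1, rfl⟩ := (mem_filter.1 hu).2
      rw [Sym2.eq_swap, hf u k1]

theorem Pend.not_anti (h : Pend G L p) (Q : V → Bool) (hc : ∀ v, ¬ L v → ∃ u, L u ∧ p u = v)
    (hs : ∑ n ∈ range #{u | L u ∧ Q (p u)}, ((#{u | L u} : ℤ) - n) <
      ∑ n ∈ range #{v | ¬ L v ∧ Q v}, ((#{u | L u} : ℤ) + 1 + n)) : ¬ Antimagic G := by
  rintro ⟨f, h1, h2⟩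
  rw [h.card] at h1
  set ψ := fun v => ∑ᶠ w ∈ G.neighborSet v, f s(v, w) with hψ
  have e1 : ∀ v, L v → ψ v = f s(v, p v) := fun v k => by
    simp only [hψ, h.nbr, finsum_mem_coe_finset, k, if_true, sum_singleton]
  have b : Set.BijOn ψ {u | L u} (Set.Icc 1 (#{u | L u} : ℕ)) :=
    (h1.comp h.bij).congr fun u hu => (e1 u hu).symm
  have e2 : ∀ v, ¬ L v → ψ v = ∑ u with L u ∧ p u = v, ψ u := fun v k => by
    rw [sum_congr rfl fun u hu => e1 u (mem_filter.1 hu).2.1]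
    simp only [hψ, h.nbr, finsum_mem_coe_finset, if_neg k]
    exact sum_congr rfl fun u hu => by rw [(mem_filter.1 hu).2.2, Sym2.eq_swap]
  have e3 : ∀ v, ¬ L v → (#{u | L u} : ℤ) + 1 ≤ ψ v := fun v k => by
    obtain ⟨u, k1, k2⟩ := hc v k
    have t := single_le_sum (f := ψ) (s := {u | L u ∧ p u = v})
      (fun w hw => zero_le_one.trans (b.1 (mem_filter.1 hw).2.1).1) (a := u) (by simp [k1, k2])
    by_contra c
    obtain ⟨w, w1, w2⟩ := b.2.2 (⟨(b.1 k1).1.trans (e2 v k ▸ t), by omega⟩ : ψ v ∈ Set.Icc _ _)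
    exact k (h2 w2 ▸ w1)
  have e4 : ∑ v with ¬ L v ∧ Q v, ψ v = ∑ u with L u ∧ Q (p u), ψ u := by
    rw [← sum_fiberwise_of_maps_to (s := {u | L u ∧ Q (p u)}) (t := {v | ¬ L v ∧ Q v}) (g := p)
      fun u hu => mem_filter.2 ⟨mem_univ _, h.2 u (mem_filter.1 hu).2.1, (mem_filter.1 hu).2.2⟩]
    refine sum_congr rfl fun v hv => ?_
    rw [e2 v (mem_filter.1 hv).2.1, filter_filter]
    refine sum_congr (filter_congr fun u _ => ⟨fun k => ⟨⟨k.1, ?_⟩, k.2⟩, fun k => ⟨k.1.1, k.2⟩⟩)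
      fun _ _ => rfl
    exact k.2 ▸ (mem_filter.1 hv).2.2
  have t1 := sum_range_le_sum (s := image ψ {v | ¬ L v ∧ Q v}) (c := (#{u | L u} : ℤ) + 1)
    (forall_mem_image.2 fun v hv => e3 v (mem_filter.1 hv).2.1)
  have t2 := sum_le_sum_range (s := image ψ {u | L u ∧ Q (p u)}) (c := (#{u | L u} : ℤ))
    (forall_mem_image.2 fun v hv => (b.1 (mem_filter.1 hv).2.1).2)
  rw [card_image_of_injective _ h2, sum_image h2.injOn] at t1 t2
  omega

end Pool.Agent.H14.AntimagicP3
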