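import Mathlib

set_option autoImplicit false

namespace Pool.Agent.H14.ApnDefs

open Finset

abbrev V (n : ℕ) := Fin n → ZMod 2

/-- `F` is APN. -/
def APN {n : ℕ} (F : V n → V n) : Prop :=
  ∀ a, a ≠ 0 → ∀ b, (univ.filter fun x => F x + F (x + a) = b).card ≤ 2

/-- The Walsh transform. -/
def walsh {n : ℕ} (F : V n → V n) (u v : V n) : ℤ := ∑ x, (-1) ^ (v ⬝ᵥ F x + u ⬝ᵥ x).val

/-- `F` is plateaued. -/
def Plateaued {n : ℕ} (F : V n → V n) : Prop :=
  ∀ v, v ≠ 0 → ∃ l : ℝ, 0 ≤ l ∧ ∀ u, (walsh F u v : ℝ) = 0 ∨ (walsh F u v : ℝ) = l ∨ (walsh F u v : ℝ) = -l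

/-- The graph of `F`. -/
def graph {n : ℕ} (F : V n → V n) : Finset (V n × V n) := univ.image fun x => (x, F x)

/-- The exclude multiplicity: the number of 3-element subsets of the graph with sum `p`. -/
def mult {n : ℕ} (F : V n → V n) (p : V n × V n) : ℕ :=
  (((graph F).powersetCard 3).filter fun T => ∑ q ∈ T, q = p).card

end Pool.Agent.H14.ApnDefs
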