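import Pool.Agent.H14.BalDefs

set_option autoImplicit false

namespace Pool.Agent.H14.Bal

open Matrix Finset

variable {n : ℕ} (A : Fin n → Fin n → Prop) [DecidableRel A]

def w (i j : Fin n) : ℝ := (if A i j then 1 else 0) + (if A j i then 1 else 0)

def sym : Matrix (Fin n) (Fin n) ℝ :=
  Matrix.of fun i j => (if i = j then 2 * (outdeg A i : ℝ) else 0) - w A i j

theorem w_symm (i j : Fin n) : w A i j = w A j i := by unfold w; ring

theorem w_cases (i j : Fin n) : w A i j = 0 ∨ w A i j = 1 ∨ w A i j = 2 := by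
  unfold w; split_ifs <;> norm_num

theorem sym_eq : sym A = lap A + (lap A)ᵀ := by
  ext i j
  simp only [sym, lap, w, of_apply, Matrix.add_apply, transpose_apply]
  by_cases h : i = j
  · subst h; simp; ring
  · simp [h, Ne.symm h]; ring

theorem sym_symm : (sym A)ᵀ = sym A := by rw [sym_eq]; simp [add_comm]

theorem quad_sym (x : Fin n → ℝ) : x ⬝ᵥ sym A *ᵥ x = 2 * (x ⬝ᵥ lap A *ᵥ x) := by
  rw [sym_eq, add_mulVec, dotProduct_add, mulVec_transpose, dotProduct_comm x (x ᵥ* _),
    ← dotProduct_mulVec]; ring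

theorem sum_w (hb : ∀ i, indeg A i = outdeg A i) (i : Fin n) :
    ∑ j, w A i j = 2 * (outdeg A i : ℝ) := by
  have h1 : ∑ j, (if A i j then (1 : ℝ) else 0) = outdeg A i := by simp [outdeg]
  have h2 : ∑ j, (if A j i then (1 : ℝ) else 0) = indeg A i := by simp [indeg]
  simp only [w, sum_add_distrib, h1, h2, hb]; ring

theorem hom {α β : ℝ} (hα : IsLeast (vals A) α) (hβ : IsGreatest (vals A) β) (x : Fin n → ℝ)
    (hx : ∑ i, x i = 0) :
    2 * α * (x ⬝ᵥ x) ≤ x ⬝ᵥ sym A *ᵥ x ∧ x ⬝ᵥ sym A *ᵥ x ≤ 2 * β * (x ⬝ᵥ x) := by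
  rw [quad_sym]
  by_cases h0 : x = 0
  · subst h0; simp
  have hp : 0 < x ⬝ᵥ x := lt_of_le_of_ne (Finset.sum_nonneg fun i _ => mul_self_nonneg (x i))
    (fun h => h0 (dotProduct_self_eq_zero.mp h.symm))
  set s := Real.sqrt (x ⬝ᵥ x) with hs
  have hs0 : 0 < s := Real.sqrt_pos.mpr hp
  have hss : s * s = x ⬝ᵥ x := Real.mul_self_sqrt hp.le
  have hm : s⁻¹ * s⁻¹ * (x ⬝ᵥ lap A *ᵥ x) ∈ vals A := by
    refine ⟨s⁻¹ • x, ?_, ?_, ?_⟩
    · simp [← Finset.mul_sum, hx]
    · rw [smul_dotProduct, dotProduct_smul, smul_eq_mul, smul_eq_mul, ← hss]; field_simp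
    · rw [mulVec_smul, smul_dotProduct, dotProduct_smul, smul_eq_mul, smul_eq_mul]; ring
  have h1 := hα.2 hm
  have h2 := hβ.2 hm
  have e : x ⬝ᵥ lap A *ᵥ x = (s * s) * (s⁻¹ * s⁻¹ * (x ⬝ᵥ lap A *ᵥ x)) := by field_simp
  rw [← hss]
  constructor
  · rw [e]; nlinarith [mul_pos hs0 hs0]
  · rw [e]; nlinarith [mul_pos hs0 hs0]

theorem col_bound (N : Matrix (Fin n) (Fin n) ℝ) (hs : Nᵀ = N) (hr : ∀ i, ∑ j, N i j = 0)
    (h : ∀ x : Fin n → ℝ, ∑ i, x i = 0 → |x ⬝ᵥ N *ᵥ x| ≤ x ⬝ᵥ x) (i : Fin n) :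
    ∑ j, N i j ^ 2 < 1 := by
  have hn : (0 : ℝ) < n := by exact_mod_cast i.pos
  set x : Fin n → ℝ := fun k => (if k = i then 1 else 0) - 1 / n with hx
  set y : Fin n → ℝ := fun k => N i k with hy
  have sx : ∑ k, x k = 0 := by simp [hx]; field_simp; ring
  have sy : ∑ k, y k = 0 := hr i
  have hsy : ∀ a b, N a b = N b a := fun a b => by
    have := congrFun (congrFun hs b) a
    simpa using this
  have nx : N *ᵥ x = y := by
    funext k
    simp only [mulVec, dotProduct, hx, hy, mul_sub, sum_sub_distrib, ← Finset.sum_mul, hr]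
    simp [hsy k i]
  have xx : x ⬝ᵥ x = 1 - 1 / n := by
    have : ∀ k, x k * x k = (if k = i then (1 - 2 / n : ℝ) else 0) + 1 / n ^ 2 := by
      intro k; simp only [hx]; split_ifs <;> ring
    simp only [dotProduct, this, sum_add_distrib]; simp; field_simp; ring
  have yy : y ⬝ᵥ y = ∑ j, N i j ^ 2 := by simp [dotProduct, hy, sq]
  have xy : x ⬝ᵥ N *ᵥ y = y ⬝ᵥ y := by
    rw [dotProduct_mulVec, ← mulVec_transpose, hs, nx]
  have yx : y ⬝ᵥ N *ᵥ x = y ⬝ᵥ y := by rw [nx]
  have h1 := (abs_le.mp (h (x + y) (by simp [sum_add_distrib, sx, sy]))).2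
  have h2 := (abs_le.mp (h (x - y) (by simp [sum_sub_distrib, sx, sy]))).1
  simp only [mulVec_add, mulVec_sub, add_dotProduct, dotProduct_add, sub_dotProduct,
    dotProduct_sub, xy, yx, xx] at h1 h2
  have : 0 < 1 / (n : ℝ) := by positivity
  rw [← yy]; linarith

theorem key (hl : ∀ i, ¬ A i i) (hb : ∀ i, indeg A i = outdeg A i) {α β : ℝ}
    (hα : IsLeast (vals A) α) (hβ : IsGreatest (vals A) β) (h1 : β - α ≤ 1) :
    ∃ t : ℝ, ∀ i, ∃ f : Fin n → ℝ, ∑ j, f j ^ 2 < 1 ∧ f i = 2 * (outdeg A i : ℝ) - (n - 1) * t ∧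
      ∀ j, j ≠ i → f j = t - w A i j := by
  refine ⟨(α + β) / n, fun i => ?_⟩
  have hn : (0 : ℝ) < n := by exact_mod_cast i.pos
  set N : Matrix (Fin n) (Fin n) ℝ :=
    sym A - (α + β) • (1 : Matrix (Fin n) (Fin n) ℝ) + Matrix.of fun _ _ => (α + β) / n with hN
  refine ⟨N i, col_bound N ?_ ?_ ?_ i, ?_, ?_⟩
  · rw [hN, transpose_add, transpose_sub, sym_symm]; simp; rfl
  · intro k
    simp only [hN, Matrix.add_apply, Matrix.sub_apply, sym, of_apply, Matrix.smul_apply, one_apply, sum_add_distrib,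
      sum_sub_distrib, sum_w A hb]
    simp; field_simp; ring
  · intro x hx
    have e : x ⬝ᵥ N *ᵥ x = x ⬝ᵥ sym A *ᵥ x - (α + β) * (x ⬝ᵥ x) := by
      have : (Matrix.of fun _ _ => (α + β) / n : Matrix (Fin n) (Fin n) ℝ) *ᵥ x = 0 := by
        funext k; simp [mulVec, dotProduct, ← Finset.mul_sum, hx]
      rw [hN, add_mulVec, this, add_zero, sub_mulVec, dotProduct_sub, smul_mulVec, one_mulVec,
        dotProduct_smul, smul_eq_mul]
    obtain ⟨h2, h3⟩ := hom A hα hβ x hx
    have hp : 0 ≤ x ⬝ᵥ x := Finset.sum_nonneg fun i _ => mul_self_nonneg (x i)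
    rw [e, abs_le]; constructor <;> nlinarith
  · simp [hN, sym, w, hl]; field_simp; ring
  · intro j hj
    simp [hN, sym, hj.symm, one_apply]; ring

theorem second (hl : ∀ i, ¬ A i i) (hb : ∀ i, indeg A i = outdeg A i) (i j : Fin n)
    (h : w A i j = 1) : ∃ k, k ≠ i ∧ k ≠ j ∧ w A i k = 1 := by
  by_contra hc
  push Not at hc
  have hk : ∀ k, k ≠ j → (A i k ↔ A k i) := by
    intro k hk
    by_cases hi : k = i
    · rw [hi]
    have := hc k hi hk
    unfold w at this
    by_cases a : A i k <;> by_cases b : A k i <;> simp_all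
  have hd := hb i
  unfold indeg outdeg at hd
  unfold w at h
  by_cases a : A i j <;> by_cases b : A j i
  · simp [a, b] at h
  · have : (univ.filter fun k => A i k) = insert j (univ.filter fun k => A k i) := by
      ext k; by_cases e : k = j
      · simp [e, a]
      · simp [e, hk k e]
    rw [this, card_insert_of_notMem (by simp [b])] at hd; omega
  · have : (univ.filter fun k => A k i) = insert j (univ.filter fun k => A i k) := by
      ext k; by_cases e : k = j
      · simp [e, b]
      · simp [e, hk k e]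
    rw [this, card_insert_of_notMem (by simp [a])] at hd; omega
  · simp [a, b] at h

theorem row (hl : ∀ i, ¬ A i i) (hb : ∀ i, indeg A i = outdeg A i) (t : ℝ) (i : Fin n)
    (f : Fin n → ℝ) (hf : ∑ j, f j ^ 2 < 1) (hw : ∀ j, j ≠ i → f j = t - w A i j)
    (j : Fin n) (hj : j ≠ i) (h1 : w A i j ≠ 1) :
    (∀ k, k ≠ i → w A i k = w A i j) ∨ (4 ≤ n ∧ ∀ k, k ≠ i → k ≠ j → w A i k = 1) := by
  have sub : ∀ T : Finset (Fin n), ∑ k ∈ T, f k ^ 2 < 1 := fun T =>
    lt_of_le_of_lt (sum_le_sum_of_subset_of_nonneg (subset_univ T) fun k _ _ => sq_nonneg _) hf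
  have two : ∀ k, k ≠ i → w A i k ≠ 1 → w A i k = w A i j := by
    intro k hk h2
    by_contra hne
    have hkj : k ≠ j := fun e => hne (by rw [e])
    have := sub {k, j}
    rw [sum_pair hkj, hw k hk, hw j hj] at this
    rcases w_cases A i k with a | a | a <;> rcases w_cases A i j with b | b | b <;>
      first | exact absurd a h2 | exact absurd b h1 | exact hne (a.trans b.symm) |
        (rw [a, b] at this; nlinarith [sq_nonneg (t - 1)])
  by_cases hz : ∃ k, k ≠ i ∧ w A i k = 1
  · right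
    obtain ⟨k, hk, hk1⟩ := hz
    obtain ⟨l, hl1, hl2, hl3⟩ := second A hl hb i k hk1
    have kj : k ≠ j := fun e => h1 (e ▸ hk1)
    have lj : l ≠ j := fun e => h1 (e ▸ hl3)
    constructor
    · have : ({i, j, k, l} : Finset (Fin n)).card ≤ n := by simpa using card_le_univ ({i, j, k, l} : Finset (Fin n))
      rw [card_insert_of_notMem (by simp [hj.symm, hk.symm, hl1.symm]),
        card_insert_of_notMem (by simp [kj.symm, lj.symm]), card_pair hl2.symm] at this
      exact this
    · intro m hm hmj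
      by_contra h2
      have e := two m hm h2
      have mk : m ≠ k := fun e => h2 (e ▸ hk1)
      have ml : m ≠ l := fun e => h2 (e ▸ hl3)
      have := sub {m, j, k, l}
      rw [sum_insert (by simp [hmj, mk, ml]), sum_insert (by simp [kj.symm, lj.symm]),
        sum_pair hl2.symm, hw m hm, hw j hj, hw k hk, hw l hl1, e, hk1, hl3] at this
      rcases w_cases A i j with b | b | b
      · rw [b] at this; nlinarith [sq_nonneg (2 * t - 1)]
      · exact h1 b
      · rw [b] at this; nlinarith [sq_nonneg (2 * t - 3)]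
  · left
    push Not at hz
    exact fun k hk => two k hk (hz k hk)

theorem sum_const (hl : ∀ i, ¬ A i i) (i : Fin n) (a : ℝ) (h : ∀ k, k ≠ i → w A i k = a) :
    ∑ k, w A i k = (n - 1) * a := by
  have : ∀ k, w A i k = a - if k = i then a else 0 := by
    intro k; by_cases e : k = i
    · simp [e, w, hl]
    · simp [e, h k e]
  simp only [this, sum_sub_distrib]; simp; ring

theorem sum_one (hl : ∀ i, ¬ A i i) (i j : Fin n) (hj : j ≠ i)
    (h : ∀ k, k ≠ i → k ≠ j → w A i k = 1) : ∑ k, w A i k = n - 2 + w A i j := by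
  have : ∀ k, w A i k = 1 - (if k = i then 1 else 0) + if k = j then w A i j - 1 else 0 := by
    intro k; by_cases e : k = i
    · simp [e, w, hl, hj.symm]
    · by_cases e2 : k = j
      · simp [e2, hj]
      · simp [e, e2, h k e e2]
  rw [sum_congr rfl fun k _ => this k]
  simp only [sum_add_distrib, sum_sub_distrib]; simp; ring

theorem const_case (hl : ∀ i, ¬ A i i) (hb : ∀ i, indeg A i = outdeg A i) (a : ℝ)
    (h : ∀ i k, k ≠ i → w A i k = a) (r : ℝ) (hr : r ∈ vals A) : r = a * n / 2 := by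
  obtain ⟨x, h1, h2, rfl⟩ := hr
  have e : sym A = (a * n) • (1 : Matrix (Fin n) (Fin n) ℝ) - Matrix.of fun _ _ => a := by
    ext i j
    by_cases hij : i = j
    · subst hij
      have := sum_const A hl i a (h i)
      rw [sum_w A hb] at this
      simp [sym, w, hl, this]; ring
    · simp [sym, hij, h i j (Ne.symm hij)]
  have e2 := quad_sym A x
  have : (Matrix.of fun _ _ => a : Matrix (Fin n) (Fin n) ℝ) *ᵥ x = 0 := by
    funext k; simp [mulVec, dotProduct, ← Finset.mul_sum, h1]
  rw [e, sub_mulVec, this, sub_zero, smul_mulVec, one_mulVec, dotProduct_smul, h2] at e2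
  simp at e2; linarith

theorem single_form (M : Matrix (Fin n) (Fin n) ℝ) (i j : Fin n) :
    (Pi.single i 1 : Fin n → ℝ) ⬝ᵥ M *ᵥ (Pi.single j 1 : Fin n → ℝ) = M i j := by
  simp [single_dotProduct]

theorem single_dot (i j : Fin n) :
    (Pi.single i 1 : Fin n → ℝ) ⬝ᵥ (Pi.single j 1 : Fin n → ℝ) = if i = j then 1 else 0 := by
  simp [single_dotProduct, Pi.single_apply, eq_comm]

theorem main (hl : ∀ i, ¬ A i i) (hb : ∀ i, indeg A i = outdeg A i) {α β : ℝ}
    (hα : IsLeast (vals A) α) (hβ : IsGreatest (vals A) β) (h1 : β - α ≤ 1) :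
    β - α = 0 ∨ (β - α = 1 ∧ 4 ≤ n ∧ ∃ d : ℕ, (∀ i, outdeg A i = d) ∧ (n = 2 * d + 2 ∨ n = 2 * d)) := by
  obtain ⟨t, ht⟩ := key A hl hb hα hβ h1
  have cst : ∀ a : ℝ, (∀ i k, k ≠ i → w A i k = a) → β - α = 0 := fun a h => by
    rw [const_case A hl hb a h α hα.1, const_case A hl hb a h β hβ.1, sub_self]
  have near : ∀ i, |2 * (outdeg A i : ℝ) - (n - 1) * t| < 1 := by
    intro i
    obtain ⟨f, h2, h3, -⟩ := ht i
    rw [← h3, ← sq_lt_one_iff_abs_lt_one]
    exact lt_of_le_of_lt (single_le_sum (f := fun j => f j ^ 2) (fun k _ => sq_nonneg _) (mem_univ i)) h2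
  have reg : ∀ i k, outdeg A i = outdeg A k := by
    intro i k
    have a := abs_lt.mp (near i)
    have b := abs_lt.mp (near k)
    have c1 : (outdeg A i : ℝ) < outdeg A k + 1 := by linarith [a.2, b.1]
    have c2 : (outdeg A k : ℝ) < outdeg A i + 1 := by linarith [a.1, b.2]
    have d1 : outdeg A i < outdeg A k + 1 := by exact_mod_cast c1
    have d2 : outdeg A k < outdeg A i + 1 := by exact_mod_cast c2
    omega
  have rw' : ∀ i j, j ≠ i → w A i j ≠ 1 →
      (∀ k, k ≠ i → w A i k = w A i j) ∨ (4 ≤ n ∧ ∀ k, k ≠ i → k ≠ j → w A i k = 1) := by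
    intro i j hj h
    obtain ⟨f, h2, -, h4⟩ := ht i
    exact row A hl hb t i f h2 h4 j hj h
  have sreg : ∀ i k, ∑ j, w A i j = ∑ j, w A k j := fun i k => by
    rw [sum_w A hb, sum_w A hb, reg i k]
  by_cases hall : ∀ i k, k ≠ i → w A i k = 1
  · exact Or.inl (cst 1 hall)
  push Not at hall
  obtain ⟨i, j, hj, hij⟩ := hall
  have n2 : (2 : ℝ) ≤ n := by
    have : 2 ≤ n := by have := i.2; have := j.2; have : j.1 ≠ i.1 := fun e => hj (Fin.ext e); omega
    exact_mod_cast this
  have hav : w A i j = 0 ∨ w A i j = 2 := by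
    rcases w_cases A i j with h | h | h
    · exact Or.inl h
    · exact absurd h hij
    · exact Or.inr h
  rcases rw' i j hj hij with hc | ⟨h4, hD⟩
  · left
    refine cst (w A i j) fun r k hk => ?_
    have s1 := sum_const A hl i _ hc
    rw [sreg i r] at s1
    by_cases hr : r = i
    · subst hr; exact hc k hk
    have e1 : w A r i = w A i j := by rw [w_symm, hc r hr]
    rcases rw' r i (Ne.symm hr) (by rw [e1]; exact hij) with h5 | ⟨h5, h6⟩
    · rw [h5 k hk, e1]
    · exfalso
      have s2 := sum_one A hl r i (Ne.symm hr) h6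
      have n4 : (4 : ℝ) ≤ n := by exact_mod_cast h5
      rw [s1, e1] at s2
      rcases hav with h | h <;> rw [h] at s2 <;> linarith
  · right
    have n4 : (4 : ℝ) ≤ n := by exact_mod_cast h4
    have s1 := sum_one A hl i j hj hD
    have allD : ∀ r, ∃ p, p ≠ r ∧ w A r p = w A i j ∧ ∀ k, k ≠ r → k ≠ p → w A r k = 1 := by
      intro r
      have s2 := s1
      rw [sreg i r] at s2
      by_cases hone : ∀ k, k ≠ r → w A r k = 1
      · exfalso
        rw [sum_const A hl r 1 hone] at s2
        exact hij (by linarith)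
      push Not at hone
      obtain ⟨p, hp, hp1⟩ := hone
      rcases rw' r p hp hp1 with h5 | ⟨-, h6⟩
      · exfalso
        rw [sum_const A hl r _ h5] at s2
        rcases w_cases A r p with b | b | b <;> rcases hav with h | h <;>
          first | exact hp1 b | (rw [b, h] at s2; linarith)
      · refine ⟨p, hp, ?_, h6⟩
        rw [sum_one A hl r p hp h6] at s2; linarith
    obtain ⟨k, hk⟩ : ∃ k, k ∉ ({i, j} : Finset (Fin n)) := by
      by_contra hc
      push Not at hc
      have : (univ : Finset (Fin n)).card ≤ ({i, j} : Finset (Fin n)).card :=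
        card_le_card fun x _ => hc x
      rw [card_pair hj.symm] at this
      simp at this; omega
    have ki : k ≠ i := fun e => hk (by simp [e])
    have kj : k ≠ j := fun e => hk (by simp [e])
    obtain ⟨l, lk, wl, -⟩ := allD k
    have jD : ∀ m, m ≠ j → m ≠ i → w A j m = 1 := by
      obtain ⟨p, -, -, hp⟩ := allD j
      have : p = i := by
        by_contra hne
        have := hp i hj.symm (Ne.symm hne)
        rw [w_symm] at this; exact hij this
      subst this; exact hp
    have li : l ≠ i := by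
      rintro rfl
      rw [w_symm, hD k ki kj] at wl; exact hij wl.symm
    have lj : l ≠ j := by
      rintro rfl
      rw [w_symm, jD k kj ki] at wl; exact hij wl.symm
    have dg : ∀ r, sym A r r = 2 * (outdeg A i : ℝ) := fun r => by simp [sym, w, hl, reg r i]
    have off : ∀ r s, r ≠ s → sym A r s = - w A r s := fun r s h => by simp [sym, h]
    have hx := hom A hα hβ (Pi.single i 1 - Pi.single j 1) (by simp [sum_sub_distrib])
    have hy := hom A hα hβ (Pi.single i 1 + Pi.single j 1 - Pi.single k 1 - Pi.single l 1)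
      (by simp [sum_sub_distrib, sum_add_distrib])
    simp only [mulVec_add, mulVec_sub, add_dotProduct, dotProduct_add, sub_dotProduct,
      dotProduct_sub, single_form, single_dot, dg, if_true, hj, hj.symm, ki, ki.symm, kj, kj.symm,
      li, li.symm, lj, lj.symm, lk, lk.symm, if_false, off _ _ hj, off _ _ hj.symm, off _ _ ki,
      off _ _ ki.symm, off _ _ kj, off _ _ kj.symm, off _ _ li, off _ _ li.symm, off _ _ lj,
      off _ _ lj.symm, off _ _ lk, off _ _ lk.symm, w_symm A j i, w_symm A k i, w_symm A l i,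
      w_symm A k j, w_symm A l j, w_symm A l k, wl, hD k ki kj, hD l li lj, jD k kj ki,
      jD l lj li] at hx hy
    refine ⟨?_, h4, outdeg A i, fun r => reg r i, ?_⟩
    · rcases hav with h | h <;> rw [h] at hx hy <;> linarith [hx.1, hx.2, hy.1, hy.2]
    · rw [sum_w A hb] at s1
      rcases hav with h | h <;> rw [h] at s1
      · left
        have : (n : ℝ) = 2 * (outdeg A i : ℝ) + 2 := by linarith
        exact_mod_cast this
      · right
        have : (n : ℝ) = 2 * (outdeg A i : ℝ) := by linarith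
        exact_mod_cast this

theorem compl_deg (hl : ∀ i, ¬ A i i) (i : Fin n) :
    outdeg (cpl A) i + outdeg A i + 1 = n ∧ indeg (cpl A) i + indeg A i + 1 = n := by
  have g : ∀ (P : Fin n → Prop) [DecidablePred P], ¬ P i →
      (univ.filter fun j => j ≠ i ∧ ¬ P j).card + (univ.filter P).card + 1 = n := by
    intro P _ h
    have h1 := card_filter_add_card_filter_not (s := univ) P
    have : (univ.filter fun j => ¬ P j) = insert i (univ.filter fun j => j ≠ i ∧ ¬ P j) := by
      ext k; by_cases e : k = i <;> simp [e, h]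
    rw [this, card_insert_of_notMem (by simp)] at h1
    simp only [card_univ, Fintype.card_fin] at h1
    omega
  constructor
  · have := g (fun j => A i j) (hl i)
    have e : outdeg (cpl A) i = (univ.filter fun j => j ≠ i ∧ ¬ A i j).card := by
      unfold outdeg cpl; congr 1; ext k; simp [ne_comm]
    rw [e]; exact this
  · exact g (fun j => A j i) (hl i)

end Pool.Agent.H14.Bal
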