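import Pool.Agent.H14.Bal

set_option autoImplicit false

namespace Pool.Agent.H14.Bal

open Matrix Finset

variable {n : ℕ} (A : Fin n → Fin n → Prop) [DecidableRel A]

theorem quad_lap (x : Fin n → ℝ) :
    x ⬝ᵥ lap A *ᵥ x = ∑ i, ∑ j, if A i j then x i ^ 2 - x i * x j else 0 := by
  simp only [dotProduct, mulVec, lap, of_apply, sub_mul, sum_sub_distrib, mul_sub]
  rw [← sum_sub_distrib]
  refine sum_congr rfl fun i _ => ?_
  have h1 : (outdeg A i : ℝ) = ∑ j, if A i j then (1 : ℝ) else 0 := by simp [outdeg]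
  simp only [ite_mul, zero_mul, sum_ite_eq, mem_univ, if_true, one_mul]
  rw [h1, sum_mul, mul_sum, mul_sum, ← sum_sub_distrib]
  refine sum_congr rfl fun j _ => ?_
  split_ifs <;> ring

theorem vals_compact : IsCompact (vals A) := by
  have hc : IsCompact {x : Fin n → ℝ | ∑ i, x i = 0 ∧ x ⬝ᵥ x = 1} := by
    refine Metric.isCompact_of_isClosed_isBounded ?_ ?_
    · exact (isClosed_eq (by fun_prop) continuous_const).inter
        (isClosed_eq (by unfold dotProduct; fun_prop) continuous_const)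
    · refine (Metric.isBounded_closedBall (x := (0 : Fin n → ℝ)) (r := 1)).subset fun x hx => ?_
      rw [mem_closedBall_zero_iff, pi_norm_le_iff_of_nonneg zero_le_one]
      intro i
      rw [Real.norm_eq_abs, ← sq_le_one_iff_abs_le_one, ← hx.2, sq]
      exact single_le_sum (f := fun j => x j * x j) (fun k _ => mul_self_nonneg _) (mem_univ i)
  have := hc.image (f := fun x => x ⬝ᵥ lap A *ᵥ x) (by unfold dotProduct mulVec dotProduct; fun_prop)
  have e : vals A = (fun x => x ⬝ᵥ lap A *ᵥ x) '' {x : Fin n → ℝ | ∑ i, x i = 0 ∧ x ⬝ᵥ x = 1} := by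
    ext r; constructor
    · rintro ⟨x, h1, h2, h3⟩; exact ⟨x, ⟨h1, h2⟩, h3.symm⟩
    · rintro ⟨x, ⟨h1, h2⟩, h3⟩; exact ⟨x, h1, h2, h3.symm⟩
  rw [e]; exact this

theorem vals_nonempty (x : Fin n → ℝ) (hx : ∑ i, x i = 0) (hp : 0 < x ⬝ᵥ x) : (vals A).Nonempty := by
  have hs0 : 0 < Real.sqrt (x ⬝ᵥ x) := Real.sqrt_pos.mpr hp
  have hss := Real.mul_self_sqrt hp.le
  refine ⟨_, (Real.sqrt (x ⬝ᵥ x))⁻¹ • x, ?_, ?_, rfl⟩
  · simp [← Finset.mul_sum, hx]
  · rw [smul_dotProduct, dotProduct_smul, smul_eq_mul, smul_eq_mul]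
    field_simp; nlinarith

theorem sum_blow {k m : ℕ} (f : Fin m → ℝ) :
    ∑ i : Fin (k * m), f (finProdFinEquiv.symm i).2 = k * ∑ a, f a := by
  rw [← Equiv.sum_comp finProdFinEquiv]
  simp [Fintype.sum_prod_type]

end Pool.Agent.H14.Bal
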