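import Mathlib

set_option autoImplicit false

namespace Pool.Agent.H14.Bal

open Matrix Finset

variable {n : ℕ}

/-- Out-degree of `i` in the digraph with arc relation `A`. -/
def outdeg (A : Fin n → Fin n → Prop) [DecidableRel A] (i : Fin n) : ℕ :=
  (univ.filter fun j => A i j).card

/-- In-degree of `i`. -/
def indeg (A : Fin n → Fin n → Prop) [DecidableRel A] (i : Fin n) : ℕ :=
  (univ.filter fun j => A j i).card

/-- Laplacian `D - A` with `D` the diagonal matrix of out-degrees. -/
def lap (A : Fin n → Fin n → Prop) [DecidableRel A] : Matrix (Fin n) (Fin n) ℝ :=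
  Matrix.of fun i j => (if i = j then (outdeg A i : ℝ) else 0) - (if A i j then 1 else 0)

/-- The values `x^T L x` over real unit vectors orthogonal to the all-ones vector. -/
def vals (A : Fin n → Fin n → Prop) [DecidableRel A] : Set ℝ :=
  {r | ∃ x : Fin n → ℝ, ∑ i, x i = 0 ∧ x ⬝ᵥ x = 1 ∧ r = x ⬝ᵥ lap A *ᵥ x}

/-- Complementary digraph. -/
def cpl (A : Fin n → Fin n → Prop) : Fin n → Fin n → Prop := fun i j => i ≠ j ∧ ¬ A i j

instance (A : Fin n → Fin n → Prop) [DecidableRel A] : DecidableRel (cpl A) :=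
  fun i j => inferInstanceAs (Decidable (i ≠ j ∧ ¬ A i j))

/-- Every vertex has in-degree and out-degree `k`. -/
def Regular (A : Fin n → Fin n → Prop) [DecidableRel A] (k : ℕ) : Prop :=
  ∀ i, outdeg A i = k ∧ indeg A i = k

end Pool.Agent.H14.Bal
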