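import Mathlib

set_option autoImplicit false

namespace Pool.Agent.H14.Block

variable {V W : Type}

/-- `S` induces a connected subgraph that stays connected after deleting any one vertex. -/
def NoCut (G : SimpleGraph V) (S : Set V) : Prop :=
  (G.induce S).Connected ∧ ∀ v ∈ S, (G.induce (S \ {v})).Preconnected

/-- A connected graph all of whose blocks are complete. -/
def IsBlockGraph (G : SimpleGraph V) : Prop :=
  G.Connected ∧ ∀ S : Set V, Maximal (NoCut G) S → G.IsClique S

/-- Disjoint union of two graphs with one extra edge. -/
def bridge (G : SimpleGraph V) (H : SimpleGraph W) (v : V) (w : W) : SimpleGraph (V ⊕ W) :=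
  G.sum H ⊔ SimpleGraph.edge (Sum.inl v) (Sum.inr w)

end Pool.Agent.H14.Block
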