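import Mathlib

set_option autoImplicit false

namespace Pool.Agent.H14.Coset

open Finset Equiv

variable {n : ℕ}

theorem cnt (s : Finset (Fin n)) (τ : Perm (Fin n)) :
    (univ.filter fun σ : Perm (Fin n) => ∀ x ∈ s, σ x = τ x).card = (n - s.card).factorial := by
  have e : (univ.filter fun σ : Perm (Fin n) => ∀ x ∈ s, σ x = τ x).card =
      (univ.filter fun σ : Perm (Fin n) => ∀ x, ¬ x ∉ s → σ x = x).card := by
    refine card_bij (fun σ _ => τ⁻¹ * σ) (fun σ h => ?_) (fun _ _ _ _ h => mul_left_cancel h)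
      fun σ h => ⟨τ * σ, ?_, by simp⟩
    · simp only [mem_filter, mem_univ, true_and, not_not] at h ⊢
      intro x hx; simp [h x hx]
    · simp only [mem_filter, mem_univ, true_and, not_not] at h ⊢
      intro x hx; simp [h x hx]
  rw [e, ← Fintype.card_subtype, ← Fintype.card_congr (Perm.subtypeEquivSubtypePerm fun x => x ∉ s),
    Fintype.card_perm]
  simp

theorem c1 (a b : Fin n) : (univ.filter fun σ : Perm (Fin n) => σ a = b).card = (n - 1).factorial := by
  simpa using cnt {a} (swap a b)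

theorem c2 {a b c d : Fin n} (h : a ≠ c) (h' : b ≠ d) :
    (univ.filter fun σ : Perm (Fin n) => σ a = b ∧ σ c = d).card = (n - 2).factorial := by
  have := cnt {a, c} (swap (swap a b c) d * swap a b)
  have e : b ≠ swap a b c := fun e => h ((swap a b).injective (by rw [← e]; simp))
  simpa [card_pair h, swap_apply_of_ne_of_ne e h'] using this

theorem c3 {a b c d e f : Fin n} (h : a ≠ c) (h' : a ≠ e) (h'' : (c, d) ≠ (e, f)) :
    (univ.filter fun σ : Perm (Fin n) => σ a = b ∧ σ c = d ∧ σ e = f).card ≤ (n - 3).factorial := by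
  rcases (univ.filter fun σ : Perm (Fin n) => σ a = b ∧ σ c = d ∧ σ e = f).eq_empty_or_nonempty with
    z | ⟨τ, z⟩
  · simp [z]
  obtain ⟨rfl, rfl, rfl⟩ := (mem_filter.1 z).2
  have ce : c ≠ e := fun x => h'' (by rw [x])
  have := cnt {a, c, e} τ
  rw [card_eq_three.2 ⟨a, c, e, h, h', ce, rfl⟩] at this
  simpa using this.le

theorem low (u : Fin n) (P : Finset (Fin n × Fin n)) (hP : ∀ p ∈ P, u ≠ p.1 ∧ u ≠ p.2) :
    (P.card * (n - 2).factorial - P.card * (P.card * (n - 3).factorial) : ℤ) ≤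
      (univ.filter fun σ : Perm (Fin n) => σ u = u ∧ ∃ p ∈ P, σ p.1 = p.2).card := by
  let I : Perm (Fin n) → Fin n × Fin n → ℤ := fun σ p => if σ u = u ∧ σ p.1 = p.2 then 1 else 0
  have pt : ∀ σ : Perm (Fin n), 2 * ∑ p ∈ P, I σ p - ∑ p ∈ P, ∑ q ∈ P, I σ p * I σ q ≤
      if σ u = u ∧ ∃ p ∈ P, σ p.1 = p.2 then 1 else 0 := by
    intro σ
    rw [← sum_mul_sum]
    split_ifs with h
    · nlinarith [sq_nonneg (∑ p ∈ P, I σ p - 1)]
    · rw [sum_eq_zero fun p hp => if_neg fun e => h ⟨e.1, p, hp, e.2⟩]; simp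
  have s1 : ∀ p ∈ P, ∑ σ, I σ p = (n - 2).factorial := fun p hp => by
    rw [← c2 (hP p hp).1 (hP p hp).2, card_filter]; simp [I]
  have s2 : ∀ p ∈ P, ∀ q ∈ P, ∑ σ, I σ p * I σ q ≤
      (n - 3).factorial + if p = q then ((n - 2).factorial : ℤ) else 0 := fun p hp q hq => by
    split_ifs with e
    · subst e
      have : ∀ σ, I σ p * I σ p = I σ p := fun σ => by simp only [I]; split_ifs <;> simp
      simp only [this, s1 p hp]; simp
    · have := c3 (b := u) (hP p hp).1 (hP q hq).1 e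
      rw [card_filter] at this
      have h2 : ∀ σ, I σ p * I σ q = if σ u = u ∧ σ p.1 = p.2 ∧ σ q.1 = q.2 then 1 else 0 := fun σ => by
        simp only [I]; split_ifs <;> simp_all
      simp only [h2, add_zero]
      exact_mod_cast this
  have := sum_le_sum fun σ (_ : σ ∈ univ) => pt σ
  rw [sum_sub_distrib, ← mul_sum, sum_comm, sum_congr rfl s1, sum_comm] at this
  have h3 : ∑ p ∈ P, ∑ σ, ∑ q ∈ P, I σ p * I σ q ≤
      ∑ p ∈ P, (P.card * (n - 3).factorial + (n - 2).factorial : ℤ) := by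
    refine sum_le_sum fun p hp => ?_
    rw [sum_comm]
    refine (sum_le_sum fun q hq => s2 p hp q hq).trans_eq ?_
    simp [sum_add_distrib, hp]
  rw [card_filter]
  push_cast
  simp only [sum_const, nsmul_eq_mul] at this h3
  linarith

theorem one {u v : Fin n} (h : u ≠ v) :
    ((univ.filter fun p : Fin n × Fin n => p.1 < p.2).filter fun p => swap p.1 p.2 u = v).card ≤ 1 := by
  refine card_le_one.2 ?_
  rintro ⟨i, j⟩ hp ⟨i', j'⟩ hq
  simp only [mem_filter, mem_univ, true_and, swap_apply_def] at hp hq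
  simp only [Prod.mk.injEq]
  obtain ⟨h1, h2⟩ := hp
  obtain ⟨h3, h4⟩ := hq
  split_ifs at h2 h4 <;> omega

def bad {k : ℕ} (σ : Perm (Fin (k + 3))) : Prop := σ 0 = 0 ∨ σ 1 = 1 ∨ (σ 0 = 1 ∧ σ 1 = 0)

instance {k : ℕ} : DecidablePred (bad (k := k)) := fun σ => by unfold bad; infer_instance

theorem n01 {k : ℕ} : (0 : Fin (k + 3)) ≠ 1 := by simp

theorem cardA (k : ℕ) :
    (univ.filter fun σ : Perm (Fin (k + 3)) => ¬ bad σ).card = (k + 1) * (k + 2).factorial := by
  have h := card_filter_add_card_filter_not (s := (univ : Finset (Perm (Fin (k + 3))))) bad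
  have pt : ∀ σ : Perm (Fin (k + 3)), (if bad σ then 1 else 0) + (if σ 0 = 0 ∧ σ 1 = 1 then 1 else 0) =
      (if σ 0 = 0 then 1 else 0) + (if σ 1 = 1 then 1 else 0) + if σ 0 = 1 ∧ σ 1 = 0 then 1 else 0 := by
    intro σ
    have := n01 (k := k)
    unfold bad
    by_cases a : σ 0 = 0 <;> by_cases b : σ 1 = 1 <;> simp [a, b, this.symm]
  have := sum_congr rfl fun σ (_ : σ ∈ univ) => pt σ
  simp only [sum_add_distrib, ← card_filter, c1, c2 n01 n01, c2 n01 n01.symm] at this
  rw [card_univ, Fintype.card_perm, Fintype.card_fin, Nat.factorial_succ] at h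
  simp only [show k + 3 - 1 = k + 2 from rfl] at this
  nlinarith

theorem bdry (k : ℕ) : (((univ.filter fun σ : Perm (Fin (k + 3)) => ¬ bad σ) ×ˢ
      (univ.filter fun p : Fin (k + 3) × Fin (k + 3) => p.1 < p.2)).filter
      fun x => x.1 * swap x.2.1 x.2.2 ∉ univ.filter fun σ : Perm (Fin (k + 3)) => ¬ bad σ).card ≤
      2 * ((k + 1) * (k + 2).factorial) + 2 * (k + 2).factorial := by
  rw [card_filter, sum_product]
  have pt : ∀ σ ∈ univ.filter fun σ : Perm (Fin (k + 3)) => ¬ bad σ,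
      ∑ p ∈ univ.filter fun p : Fin (k + 3) × Fin (k + 3) => p.1 < p.2,
        (if σ * swap p.1 p.2 ∉ univ.filter fun σ : Perm (Fin (k + 3)) => ¬ bad σ then 1 else 0) ≤
      2 + ((if σ 0 = 1 then 1 else 0) + if σ 1 = 0 then 1 else 0) := by
    intro σ hσ
    have hb := (mem_filter.1 hσ).2
    simp only [bad, not_or, not_and] at hb
    obtain ⟨b0, b1, b2⟩ := hb
    have ne : ∀ u v : Fin (k + 3), σ u ≠ v → u ≠ σ⁻¹ v := fun u v h e => h (by simp [e])
    have o1 := one (ne _ _ b0)
    have o2 := one (ne _ _ b1)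
    have o3 : ∑ p ∈ univ.filter fun p : Fin (k + 3) × Fin (k + 3) => p.1 < p.2,
        (if σ (swap p.1 p.2 0) = 1 ∧ σ (swap p.1 p.2 1) = 0 then 1 else 0) ≤
        (if σ 0 = 1 then 1 else 0) + if σ 1 = 0 then 1 else 0 := by
      rw [← card_filter]
      by_cases a : σ 0 = 1
      · refine (card_le_card fun p hp => ?_).trans ((one (ne _ _ (b2 a))).trans (by simp [a]))
        rw [mem_filter] at hp ⊢
        exact ⟨hp.1, by rw [← hp.2.2]; simp⟩
      by_cases b : σ 1 = 0
      · refine (card_le_card fun p hp => ?_).trans ((one (ne _ _ a)).trans (by simp [b]))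
        rw [mem_filter] at hp ⊢
        exact ⟨hp.1, by rw [← hp.2.1]; simp⟩
      rw [filter_eq_empty_iff.2, card_empty]
      · simp
      rintro ⟨i, j⟩ hp ⟨e1, e2⟩
      have := (mem_filter.1 hp).2
      simp only [swap_apply_def] at e1 e2 this
      split_ifs at e1 e2 <;> first | exact n01 (‹0 = i›.trans ‹1 = i›.symm) |
        exact n01 (‹0 = j›.trans ‹1 = j›.symm) | simp_all
    rw [card_filter] at o1 o2
    refine le_trans ?_ (add_le_add (add_le_add o1 o2) o3)
    rw [← sum_add_distrib, ← sum_add_distrib]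
    refine sum_le_sum fun p _ => ?_
    simp only [mem_filter, mem_univ, true_and, not_not, bad, Perm.mul_apply, Perm.eq_inv_iff_eq]
    split_ifs <;> simp_all
  refine (sum_le_sum pt).trans ?_
  rw [sum_add_distrib, sum_const, cardA, smul_eq_mul, mul_comm _ 2]
  refine add_le_add le_rfl ((sum_le_sum_of_subset (filter_subset _ _)).trans ?_)
  simp only [sum_add_distrib, ← card_filter, c1, show k + 3 - 1 = k + 2 from rfl]
  omega

end Pool.Agent.H14.Coset
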