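import Mathlib

set_option autoImplicit false

namespace Pool.Agent.H14.Cospec

open Matrix Polynomial

/-- Integer intertwiner with an inverse up to a scalar gives equal characteristic polynomials. -/
theorem charpoly_eq {m n : Type} [Fintype m] [Fintype n] [DecidableEq m] [DecidableEq n]
    (A : Matrix m m ℝ) (B : Matrix n n ℝ) (A' : Matrix m m ℤ) (B' : Matrix n n ℤ)
    (hA : A = A'.map (Int.castRingHom ℝ)) (hB : B = B'.map (Int.castRingHom ℝ))
    (P : Matrix m n ℤ) (Q : Matrix n m ℤ) (c : ℤ) (hc : c ≠ 0)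
    (h1 : A' * P = P * B') (h2 : P * Q = Matrix.diagonal (fun _ => c))
    (h3 : Q * P = Matrix.diagonal (fun _ => c)) (hcard : Fintype.card m = Fintype.card n) :
    A.charpoly = B.charpoly := by
  have hc' : (c : ℝ) ≠ 0 := by exact_mod_cast hc
  set P' : Matrix m n ℝ := P.map (Int.castRingHom ℝ) with hP'
  set Q' : Matrix n m ℝ := (c : ℝ)⁻¹ • Q.map (Int.castRingHom ℝ) with hQ'
  have e1 : A * P' = P' * B := by
    rw [hA, hB, hP', ← Matrix.map_mul, ← Matrix.map_mul, h1]
  have e2 : P' * Q' = 1 := by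
    rw [hP', hQ', Matrix.mul_smul, ← Matrix.map_mul, h2]
    ext i j
    by_cases h : i = j
    · subst h; simp [hc']
    · simp [h]
  have e3 : Q' * P' = 1 := by
    rw [hP', hQ', Matrix.smul_mul, ← Matrix.map_mul, h3]
    ext i j
    by_cases h : i = j
    · subst h; simp [hc']
    · simp [h]
  have e4 : A = P' * (B * Q') := by
    rw [← Matrix.mul_assoc, ← e1, Matrix.mul_assoc, e2, Matrix.mul_one]
  have e5 : B = (B * Q') * P' := by
    rw [Matrix.mul_assoc, e3, Matrix.mul_one]
  have e6 := Matrix.charpoly_mul_comm' P' (B * Q')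
  rw [← e4, ← e5, hcard] at e6
  exact mul_left_cancel₀ (pow_ne_zero _ X_ne_zero) e6

end Pool.Agent.H14.Cospec
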