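import Mathlib

set_option autoImplicit false

namespace Pool.Agent.H14.Spider31

open Finset

def leg (v : Fin 31) : ℕ := if v.1 ≤ 15 then 0 else if v.1 ≤ 27 then 1 else if v.1 ≤ 29 then 2 else 3

def pos (v : Fin 31) : ℕ :=
  if v.1 ≤ 15 then v.1 else if v.1 ≤ 27 then v.1 - 15 else if v.1 ≤ 29 then v.1 - 27 else 1

def up (u v : Fin 31) : Bool := pos u + 1 == pos v && (pos u == 0 || leg u == leg v)

/-- the spider `S(15, 12, 2, 1)` with centre `0` -/
def G : SimpleGraph (Fin 31) where
  Adj u v := (up u v || up v u) = true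
  symm := ⟨fun u v h => by rwa [Bool.or_comm]⟩
  loopless := ⟨by decide⟩

instance : DecidableRel G.Adj := fun u v => inferInstanceAs (Decidable ((up u v || up v u) = true))

theorem parent : ∀ v : Fin 31, 1 ≤ pos v → ∃ u, G.Adj u v ∧ pos u + 1 = pos v ∧
    (pos u = 0 ∨ leg u = leg v) := by decide +kernel

theorem inj : ∀ u v : Fin 31, pos u = pos v → (pos u = 0 ∨ leg u = leg v) → u = v := by
  decide +kernel

theorem conn (S : Set (Fin 31)) (r : Fin 31) (hr : r ∈ S)
    (h : ∀ v ∈ S, v ≠ r → ∃ u ∈ S, G.Adj u v ∧ pos u < pos v) : (G.induce S).Connected := by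
  have key : ∀ k, ∀ v, ∀ hv : v ∈ S, pos v = k → (G.induce S).Reachable ⟨r, hr⟩ ⟨v, hv⟩ := by
    intro k
    induction k using Nat.strong_induction_on with
    | _ k ih =>
      intro v hv hk
      by_cases e : v = r
      · subst e; rfl
      · obtain ⟨u, hu, h1, h2⟩ := h v hv e
        exact (ih _ (hk ▸ h2) u hu rfl).trans (SimpleGraph.Adj.reachable h1)
  have : Nonempty S := ⟨⟨r, hr⟩⟩
  exact ⟨fun a b => (key _ a.1 a.2 rfl).symm.trans (key _ b.1 b.2 rfl)⟩

def len (i : ℕ) : ℕ := if i = 0 then 15 else if i = 1 then 12 else if i = 2 then 2 else 1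

def R (c : ℕ → ℕ) : Finset (Fin 31) := univ.filter fun v => pos v ≤ c (leg v)

def Seg (i lo hi : ℕ) : Finset (Fin 31) := univ.filter fun v => leg v = i ∧ lo < pos v ∧ pos v ≤ hi

theorem seg_card : ∀ i < 4, ∀ hi ≤ len i, ∀ lo ≤ hi, (Seg i lo hi).card = hi - lo := by
  have : ∀ i < 4, ∀ hi < 17, hi ≤ len i → ∀ lo ≤ hi, (Seg i lo hi).card = hi - lo := by
    decide +kernel
  intro i h1 hi h2
  refine this i h1 hi ?_ h2
  unfold len at h2
  split_ifs at h2 <;> omega

theorem seg_root : ∀ i < 4, ∀ lo < len i, ∃ r, leg r = i ∧ pos r = lo + 1 := by decide +kernel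

theorem zero_mem (c : ℕ → ℕ) : 0 ∈ R c := Finset.mem_filter.2 ⟨mem_univ _, Nat.zero_le _⟩

theorem R_conn (c : ℕ → ℕ) : (G.induce (R c : Set (Fin 31))).Connected := by
  refine conn _ 0 (zero_mem c) fun v hv h => ?_
  have h1 : 1 ≤ pos v := Nat.pos_of_ne_zero fun e => h (inj v 0 e (Or.inl e))
  obtain ⟨u, k1, k2, k3⟩ := parent v h1
  simp only [R, coe_filter, mem_univ, true_and, Set.mem_ofPred_eq] at hv ⊢
  refine ⟨u, ?_, k1, by omega⟩
  rcases k3 with k3 | k3
  · omega
  · rw [k3]; omega

theorem seg_conn (i lo hi : ℕ) (h1 : i < 4) (h2 : hi ≤ len i) (h3 : lo < hi) :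
    (G.induce (Seg i lo hi : Set (Fin 31))).Connected := by
  obtain ⟨r, r1, r2⟩ := seg_root i h1 lo (by omega)
  refine conn _ r (by simp [Seg, r1, r2]; omega) fun v hv h => ?_
  simp only [Seg, coe_filter, mem_univ, true_and, Set.mem_ofPred_eq] at hv ⊢
  obtain ⟨u, k1, k2, k3⟩ := parent v (by omega)
  have : pos v ≠ pos r := fun e => h (inj v r e (Or.inr (by omega)))
  exact ⟨u, by omega, k1, by omega⟩

def Good (c : ℕ → ℕ) (s : Multiset ℕ) : Prop :=
  ∃ P : Finpartition (R c), (∀ B ∈ P.parts, (G.induce (B : Set (Fin 31))).Connected) ∧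
    ∃ z, P.parts.val.map card = z ::ₘ s

theorem good_zero (c : ℕ → ℕ) : Good c 0 := by
  have h : R c ≠ ⊥ := Finset.ne_empty_of_mem (zero_mem c)
  refine ⟨Finpartition.indiscrete h, fun B hB => ?_, (R c).card, by simp⟩
  rw [Finpartition.indiscrete_parts, Finset.mem_singleton] at hB
  rw [hB]
  exact R_conn c

theorem good_step (c : ℕ → ℕ) (s : Multiset ℕ) (i k : ℕ) (h1 : i < 4) (h2 : c i ≤ len i)
    (h3 : 0 < k) (h4 : k ≤ c i) (h : Good (Function.update c i (c i - k)) s) : Good c (k ::ₘ s) := by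
  obtain ⟨P, p1, z, p2⟩ := h
  have hc := seg_card i h1 (c i) h2 (c i - k) (by omega)
  have hb : Seg i (c i - k) (c i) ≠ ⊥ := by
    intro e
    rw [e] at hc
    simp at hc
    omega
  have hd : Disjoint (R (Function.update c i (c i - k))) (Seg i (c i - k) (c i)) := by
    rw [Finset.disjoint_left]
    intro v h h'
    simp only [R, Seg, mem_filter, mem_univ, true_and] at h h'
    rw [h'.1, Function.update_self] at h
    omega
  have hs : R (Function.update c i (c i - k)) ⊔ Seg i (c i - k) (c i) = R c := by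
    ext v
    simp only [R, Seg, sup_eq_union, mem_union, mem_filter, mem_univ, true_and]
    by_cases e : leg v = i
    · rw [e, Function.update_self]; omega
    · rw [Function.update_of_ne e]; omega
  refine ⟨P.extend hb hd hs, fun B hB => ?_, z, ?_⟩
  · rw [Finpartition.extend_parts, Finset.mem_insert] at hB
    rcases hB with rfl | hB
    · exact seg_conn _ _ _ h1 h2 (by omega)
    · exact p1 B hB
  · have hn : Seg i (c i - k) (c i) ∉ P.parts := fun h => hb (hd.symm.eq_bot_of_le (P.le h))
    rw [Finpartition.extend_parts, Finset.insert_val_of_notMem hn, Multiset.map_cons, p2, hc,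
      Multiset.cons_swap]
    congr 2
    omega

def vec (a b c d : ℕ) : ℕ → ℕ := fun i => if i = 0 then a else if i = 1 then b else
  if i = 2 then c else d

def find : List ℕ → ℕ → ℕ → ℕ → ℕ → Bool → Bool
  | [], _, _, _, _, u => u
  | k :: l, a, b, c, d, u =>
    (Nat.ble k d && find l a b c (d - k) u) || (Nat.ble k c && find l a b (c - k) d u) ||
    (Nat.ble k b && find l a (b - k) c d u) || (Nat.ble k a && find l (a - k) b c d u) ||
    (!u && find l a b c d true)

theorem good_congr {c c' : ℕ → ℕ} {s : Multiset ℕ} (h : ∀ i < 4, c i = c' i) (g : Good c s) :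
    Good c' s := by
  have : R c = R c' := by
    ext v
    have : leg v < 4 := by unfold leg; split_ifs <;> omega
    simp only [R, mem_filter, h _ this]
  unfold Good at *
  rwa [← this]

theorem find_good (l : List ℕ) : ∀ a b c d u, (∀ k ∈ l, 0 < k) → a ≤ 15 → b ≤ 12 → c ≤ 2 → d ≤ 1 →
    find l a b c d u = true → ∃ s, Good (vec a b c d) s ∧
      ((u = true ∧ (l : Multiset ℕ) = s) ∨ ∃ y, (l : Multiset ℕ) = y ::ₘ s ∧ u = false) := by
  induction l with
  | nil =>
    intro a b c d u _ _ _ _ _ h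
    exact ⟨0, good_zero _, Or.inl ⟨h, rfl⟩⟩
  | cons k l ih =>
    intro a b c d u hp ha hb hc hd h
    have hk := hp k (by simp)
    have hl : ∀ k ∈ l, 0 < k := fun j hj => hp j (by simp [hj])
    have fin : ∀ (i : ℕ) (a' b' c' d' : ℕ), i < 4 → k ≤ vec a b c d i →
        (∀ j < 4, vec a' b' c' d' j = Function.update (vec a b c d) i (vec a b c d i - k) j) →
        a' ≤ 15 → b' ≤ 12 → c' ≤ 2 → d' ≤ 1 → find l a' b' c' d' u = true →
        ∃ s, Good (vec a b c d) s ∧ ((u = true ∧ ((k :: l : List ℕ) : Multiset ℕ) = s) ∨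
          ∃ y, ((k :: l : List ℕ) : Multiset ℕ) = y ::ₘ s ∧ u = false) := by
      intro i a' b' c' d' h1 h2 h3 h4 h5 h6 h7 h8
      obtain ⟨s, g, e⟩ := ih a' b' c' d' u hl h4 h5 h6 h7 h8
      refine ⟨k ::ₘ s, good_step _ s i k h1 ?_ hk h2 (good_congr h3 g), ?_⟩
      · unfold vec len; split_ifs <;> omega
      · rcases e with ⟨e1, e2⟩ | ⟨y, e1, e2⟩
        · exact Or.inl ⟨e1, by rw [← e2]; rfl⟩
        · exact Or.inr ⟨y, by rw [Multiset.cons_swap, ← e1]; rfl, e2⟩
    simp only [find, Bool.or_eq_true, Bool.and_eq_true, Nat.ble_eq, Bool.not_eq_true'] at h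
    rcases h with (((⟨h1, h2⟩ | ⟨h1, h2⟩) | ⟨h1, h2⟩) | ⟨h1, h2⟩) | ⟨h1, h2⟩
    · exact fin 3 _ _ _ _ (by omega) h1 (fun j hj => by interval_cases j <;> simp [vec])
        ha hb hc (by omega) h2
    · exact fin 2 _ _ _ _ (by omega) h1 (fun j hj => by interval_cases j <;> simp [vec])
        ha hb (by omega) hd h2
    · exact fin 1 _ _ _ _ (by omega) h1 (fun j hj => by interval_cases j <;> simp [vec])
        ha (by omega) hc hd h2
    · exact fin 0 _ _ _ _ (by omega) h1 (fun j hj => by interval_cases j <;> simp [vec])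
        (by omega) hb hc hd h2
    · obtain ⟨s, g, e⟩ := ih a b c d true hl ha hb hc hd h2
      rcases e with ⟨-, e2⟩ | ⟨y, -, e2⟩
      · exact ⟨s, g, Or.inr ⟨k, by rw [← e2]; rfl, h1⟩⟩
      · exact absurd e2 (by simp)

/-- all nondecreasing continuations -/
def allP : ℕ → ℕ → ℕ → List ℕ → Bool
  | 0, _, _, _ => false
  | f + 1, n, m, acc =>
    if n = 0 then find acc 15 12 2 1 false
    else if n < m then true else allP f (n - m) m (m :: acc) && allP f n (m + 1) acc

theorem allP_ok (f : ℕ) : ∀ n m acc, allP f n m acc = true → ∀ s : Multiset ℕ, (∀ k ∈ s, m ≤ k) →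
    0 < m → s.sum = n → ∃ l : List ℕ, (l : Multiset ℕ) = s + acc ∧
      find l 15 12 2 1 false = true := by
  induction f with
  | zero => intro n m acc h; simp [allP] at h
  | succ f ih =>
    intro n m acc h s hs hm hn
    unfold allP at h
    split_ifs at h with h1 h2
    · have : s = 0 := by
        by_contra e
        obtain ⟨k, hk⟩ := Multiset.exists_mem_of_ne_zero e
        have := Multiset.single_le_sum (fun x _ => Nat.zero_le x) k hk
        have := hs k hk
        omega
      exact ⟨acc, by simp [this], h⟩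
    · exfalso
      have : s ≠ 0 := fun e => h1 (by rw [← hn, e]; rfl)
      obtain ⟨k, hk⟩ := Multiset.exists_mem_of_ne_zero this
      have := Multiset.single_le_sum (fun x _ => Nat.zero_le x) k hk
      have := hs k hk
      omega
    · rw [Bool.and_eq_true] at h
      by_cases e : m ∈ s
      · obtain ⟨t, rfl⟩ := Multiset.exists_cons_of_mem e
        obtain ⟨l, l1, l2⟩ := ih _ _ _ h.1 t (fun k hk => hs k (Multiset.mem_cons_of_mem hk)) hm
          (by rw [Multiset.sum_cons] at hn; omega)
        exact ⟨l, by rw [l1, ← Multiset.cons_coe, Multiset.add_cons, Multiset.cons_add], l2⟩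
      · exact ih _ _ _ h.2 s (fun k hk => lt_of_le_of_ne (hs k hk) fun h => e (h ▸ hk))
          (by omega) hn

theorem allP_true : allP 70 31 1 [] = true := by decide +kernel

theorem every_type (p : Nat.Partition 31) : ∃ P : Finpartition (univ : Finset (Fin 31)),
    (∀ B ∈ P.parts, (G.induce (B : Set (Fin 31))).Connected) ∧ P.parts.val.map card = p.parts := by
  obtain ⟨l, l1, l2⟩ := allP_ok _ _ _ _ allP_true p.parts (fun k hk => p.parts_pos hk) one_pos
    p.parts_sum
  rw [Multiset.coe_nil, add_zero] at l1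
  obtain ⟨s, g, e⟩ := find_good l _ _ _ _ _ (fun k hk => p.parts_pos (by
    rw [← l1]; exact hk)) le_rfl le_rfl le_rfl le_rfl l2
  have hR : R (vec 15 12 2 1) = univ := by decide +kernel
  unfold Good at g
  rw [hR] at g
  obtain ⟨P, p1, z, p2⟩ := g
  rcases e with ⟨e, -⟩ | ⟨y, e, -⟩
  · exact absurd e (by simp)
  refine ⟨P, p1, ?_⟩
  have h1 := P.sum_card_parts
  have h2 := p.parts_sum
  rw [← l1, e, Multiset.sum_cons] at h2
  rw [Finset.sum, p2, Multiset.sum_cons, Finset.card_univ, Fintype.card_fin] at h1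
  rw [p2, ← l1, e]
  congr 1
  omega

theorem deg : ∀ v, G.degree v = if v = 0 then 4 else if v = 15 ∨ v = 27 ∨ v = 29 ∨ v = 30 then 1
    else 2 := by decide +kernel

theorem tree : G.IsTree := by
  rw [SimpleGraph.isTree_iff_connected_and_card]
  constructor
  · have := R_conn (vec 15 12 2 1)
    have hR : R (vec 15 12 2 1) = univ := by decide +kernel
    rw [hR, Finset.coe_univ] at this
    exact (SimpleGraph.induceUnivIso G).connected_iff.1 this
  · have h := G.sum_degrees_eq_twice_card_edges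
    simp only [deg] at h
    have e : (∑ v : Fin 31, if v = 0 then 4 else if v = 15 ∨ v = 27 ∨ v = 29 ∨ v = 30 then 1
      else 2) = 60 := by decide +kernel
    rw [e] at h
    rw [Nat.card_eq_fintype_card, Nat.card_eq_fintype_card, ← SimpleGraph.edgeFinset_card,
      Fintype.card_fin]
    omega

theorem maxdeg : G.maxDegree = 4 := by
  apply le_antisymm
  · refine G.maxDegree_le_of_forall_degree_le 4 fun v => ?_
    rw [deg]; split_ifs <;> omega
  · have := G.degree_le_maxDegree 0
    rwa [deg] at this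

end Pool.Agent.H14.Spider31
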