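import Mathlib
import Pool.Agent.H14.Spider31

set_option autoImplicit false

namespace Pool.Agent.H14.Csf

open Finset MvPolynomial

theorem esymm_hom (n k : ℕ) : (esymm (Fin n) ℚ k).IsHomogeneous k := by
  unfold esymm
  refine IsHomogeneous.sum _ _ _ fun s hs => ?_
  have := IsHomogeneous.prod s (fun i : Fin n => (X i : MvPolynomial (Fin n) ℚ)) (fun _ => 1)
    fun i _ => isHomogeneous_X _ i
  rwa [Finset.sum_const, smul_eq_mul, mul_one, (Finset.mem_powersetCard.1 hs).2] at this

theorem exists_expansion (n : ℕ) (p : MvPolynomial (Fin n) ℚ) (hs : p.IsSymmetric)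
    (hh : p.IsHomogeneous n) :
    ∃ c : n.Partition → ℚ, p = ∑ μ, c μ • esymmPart (Fin n) ℚ μ := by
  have : p ∈ Submodule.span ℚ (Set.range (esymmPart (Fin n) ℚ (n := n))) := by
    obtain ⟨P, hP⟩ := esymmAlgHom_surjective (σ := Fin n) ℚ (n := n) (by simp) ⟨p, hs⟩
    have e : p = aeval (fun i : Fin n => esymm (Fin n) ℚ (i + 1)) P := by
      rw [← esymmAlgHom_apply, hP]
    have e2 : homogeneousComponent n p = p := by
      rw [homogeneousComponent_of_mem hh, if_pos rfl]
    rw [← e2, e, P.as_sum, map_sum, map_sum]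
    refine Submodule.sum_mem _ fun d _ => ?_
    rw [aeval_monomial, Finsupp.prod_fintype _ _ (by simp), ← Algebra.smul_def, map_smul]
    refine Submodule.smul_mem _ _ ?_
    have hd := IsHomogeneous.prod univ (fun i : Fin n => esymm (Fin n) ℚ (i + 1) ^ d i)
      (fun i => (i + 1) * d i) fun i _ => (esymm_hom n (i + 1)).pow _
    rw [homogeneousComponent_of_mem hd]
    split_ifs with h
    · refine Submodule.subset_span ⟨⟨∑ i : Fin n, Multiset.replicate (d i) (i + 1), ?_, ?_⟩, ?_⟩
      · intro k hk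
        obtain ⟨i, -, hi⟩ := Multiset.mem_sum.1 hk
        rw [Multiset.eq_of_mem_replicate hi]
        omega
      · rw [Multiset.sum_sum]
        simp only [Multiset.sum_replicate, smul_eq_mul]
        exact (Finset.sum_congr rfl fun i _ => mul_comm _ _).trans h.symm
      · simp only [esymmPart]
        induction (univ : Finset (Fin n)) using Finset.induction_on with
        | empty => simp
        | insert a s ha ih => simp [Finset.sum_insert ha, Finset.prod_insert ha, ih]
    · exact Submodule.zero_mem _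
  obtain ⟨c, hc⟩ := (Submodule.mem_span_range_iff_exists_fun ℚ).1 this
  exact ⟨c, hc.symm⟩

section DP

variable {R C : Type} [CommRing R] [Fintype C] [DecidableEq C] [Inhabited C]

def ex {m : ℕ} (κ : Fin m → C) (i : ℕ) : C := if h : i < m then κ ⟨i, h⟩ else default

def F (par : ℕ → ℕ) (m : ℕ) (w : ℕ → C → R) : R :=
  ∑ κ : Fin m → C, ∏ v ∈ range m,
    w v (ex κ v) * if v ≠ 0 ∧ ex κ v = ex κ (par v) then 0 else 1

theorem F_congr (par : ℕ → ℕ) (m : ℕ) (w w' : ℕ → C → R) (h : ∀ v < m, w v = w' v) :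
    F par m w = F par m w' :=
  Finset.sum_congr rfl fun _ _ => Finset.prod_congr rfl fun v hv => by
    rw [h v (Finset.mem_range.1 hv)]

theorem F_step (par : ℕ → ℕ) (hp : ∀ v, v ≠ 0 → par v < v) (m : ℕ) (hm : m ≠ 0)
    (w : ℕ → C → R) : F par (m + 1) w = F par m (Function.update w (par m)
      fun c => w (par m) c * ∑ c', if c' = c then 0 else w m c') := by
  unfold F
  rw [← (Fin.snocEquiv fun _ => C).sum_comp, Fintype.sum_prod_type, Finset.sum_comm]
  refine Finset.sum_congr rfl fun κ _ => ?_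
  have e1 : ∀ c : C, ∀ v < m, ex (Fin.snocEquiv (fun _ => C) (c, κ)) v = ex κ v := by
    intro c v hv
    unfold ex
    rw [dif_pos (by omega), dif_pos hv]
    exact Fin.snoc_castSucc (α := fun _ => C) c κ ⟨v, hv⟩
  have e2 : ∀ c : C, ex (Fin.snocEquiv (fun _ => C) (c, κ)) m = c := by
    intro c
    unfold ex
    rw [dif_pos (by omega)]
    exact Fin.snoc_last (α := fun _ => C) c κ
  have hm' := hp m hm
  have e3 : ∀ c : C, (∏ v ∈ range (m + 1), w v (ex (Fin.snocEquiv (fun _ => C) (c, κ)) v) *
      if v ≠ 0 ∧ ex (Fin.snocEquiv (fun _ => C) (c, κ)) v =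
        ex (Fin.snocEquiv (fun _ => C) (c, κ)) (par v) then 0 else 1) =
      (∏ v ∈ range m, w v (ex κ v) * if v ≠ 0 ∧ ex κ v = ex κ (par v) then 0 else 1) *
        if c = ex κ (par m) then 0 else w m c := by
    intro c
    rw [Finset.prod_range_succ, e2, e1 c _ hm']
    congr 1
    · refine Finset.prod_congr rfl fun v hv => ?_
      have hv := Finset.mem_range.1 hv
      by_cases h0 : v = 0
      · simp [h0, e1 c 0 (by omega)]
      · rw [e1 c v hv, e1 c (par v) ((hp v h0).trans hv)]
    · simp [hm]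
  simp only [e3]
  rw [← Finset.mul_sum, ← Finset.mul_prod_erase _ _ (Finset.mem_range.2 hm'),
    ← Finset.mul_prod_erase _ _ (Finset.mem_range.2 hm'), Function.update_self,
    Finset.prod_congr (s₁ := (range m).erase (par m)) (f := fun v => Function.update w (par m)
      (fun c => w (par m) c * ∑ c', if c' = c then 0 else w m c') v (ex κ v) *
        if v ≠ 0 ∧ ex κ v = ex κ (par v) then 0 else 1)
      rfl fun v hv => by rw [Function.update_of_ne (Finset.ne_of_mem_erase hv)]]
  ring

def M (x : C → R) : ℕ → C → R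
  | 0 => fun _ => 1
  | L + 1 => fun c => ∑ c', if c' = c then 0 else x c' * M x L c'

theorem F_path (par : ℕ → ℕ) (hp : ∀ v, v ≠ 0 → par v < v) (x : C → R) (m : ℕ) (hm : m ≠ 0)
    (L : ℕ) : ∀ (j : ℕ) (w : ℕ → C → R), (∀ i < L, w (m + i) = x) →
      (w (m + L) = fun c => x c * M x j c) → (∀ i < L, par (m + i + 1) = m + i) →
      F par (m + L + 1) w = F par m (Function.update w (par m)
        fun c => w (par m) c * M x (j + L + 1) c) := by
  induction L with
  | zero =>
    intro j w _ h2 _
    rw [add_zero] at h2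
    rw [add_zero, F_step par hp m hm, h2]
    rfl
  | succ L ih =>
    intro j w h1 h2 h3
    have hm' := hp m hm
    rw [F_step par hp _ (by omega), h2, ← add_assoc, h3 L (by omega), ih (j + 1) _
      (fun i hi => by rw [Function.update_of_ne (by omega), h1 i (by omega)])
      (by rw [Function.update_self, h1 L (by omega)]; rfl) (fun i hi => h3 i (by omega))]
    refine F_congr _ _ _ _ fun v hv => ?_
    by_cases e : v = par m
    · rw [e, Function.update_self, Function.update_self, Function.update_of_ne (by omega),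
        show j + 1 + L + 1 = j + (L + 1) + 1 by omega]
    · rw [Function.update_of_ne e, Function.update_of_ne e, Function.update_of_ne (by omega)]

def par (v : ℕ) : ℕ := if v = 16 ∨ v = 28 ∨ v = 30 then 0 else v - 1

theorem F_spider (x : C → R) : F par 31 (fun _ => x) =
    ∑ c, x c * M x 1 c * M x 2 c * M x 12 c * M x 15 c := by
  have hp : ∀ v, v ≠ 0 → par v < v := fun v hv => by unfold par; split_ifs <;> omega
  have h0 : x = fun c => x c * M x 0 c := by simp [M]
  rw [F_path par hp x 30 (by omega) 0 0 _ (by simp) h0 (by simp),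
    F_path par hp x 28 (by omega) 1 0 _ (by simp [par]) (by simpa [par] using h0) (by decide),
    F_path par hp x 16 (by omega) 11 0 _ (by simp [par]) (by simpa [par] using h0) (by decide),
    F_path par hp x 1 (by omega) 14 0 _ (by simp [par]) (by simpa [par] using h0) (by decide)]
  unfold F
  rw [← (Equiv.funUnique (Fin 1) C).symm.sum_comp]
  simp [par, ex]

end DP

def d (p q : ℚ) : DualNumber ℚ := ⟨p, q⟩

theorem d_mul (p q r s : ℚ) : d p q * d r s = d (p * r) (p * s + q * r) := by
  ext
  · rfl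
  · rw [TrivSqZeroExt.snd_mul]
    change p * s + q * r = p * s + q * r
    rfl

theorem d_add (p q r s : ℚ) : d p q + d r s = d (p + r) (q + s) := rfl

theorem d_one : (1 : DualNumber ℚ) = d 1 0 := rfl

theorem d_zero : (0 : DualNumber ℚ) = d 0 0 := rfl

def x0 : Fin 31 → DualNumber ℚ := fun c =>
  if c = 0 then d 0 (-2) else if c = 1 then d 1 1 else if c = 2 then d (-1) 1 else 0

theorem sum3 (g : Fin 31 → DualNumber ℚ) :
    ∑ c, x0 c * g c = d 0 (-2) * g 0 + d 1 1 * g 1 + d (-1) 1 * g 2 := by
  rw [Fin.sum_univ_succ, Fin.sum_univ_succ, Fin.sum_univ_succ, Finset.sum_eq_zero, add_zero,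
    add_assoc]
  · rfl
  · intro i _
    have : x0 i.succ.succ.succ = 0 := by
      unfold x0
      rw [if_neg, if_neg, if_neg] <;> (rw [Fin.ext_iff]; simp)
    rw [this, zero_mul]

theorem M_step (L : ℕ) (a b c e f g : ℚ)
    (h : M x0 L 0 = d a b ∧ M x0 L 1 = d c e ∧ M x0 L 2 = d f g) :
    M x0 (L + 1) 0 = d (c - f) (e + c - g + f) ∧ M x0 (L + 1) 1 = d (-f) (-2 * a - g + f) ∧
      M x0 (L + 1) 2 = d c (-2 * a + e + c) := by
  have : ∀ t, M x0 (L + 1) t = ∑ c', x0 c' * if c' = t then 0 else M x0 L c' := fun t => by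
    simp [M]
  simp only [this, sum3]
  refine ⟨?_, ?_, ?_⟩ <;> simp [h.1, h.2.1, h.2.2, d_mul, d_add] <;> congr 1 <;> ring

theorem F_val : F par 31 (fun _ => x0) = d 0 14 := by
  have h0 : M x0 0 0 = d 1 0 ∧ M x0 0 1 = d 1 0 ∧ M x0 0 2 = d 1 0 := ⟨rfl, rfl, rfl⟩
  have h1 := M_step _ _ _ _ _ _ _ h0
  norm_num at h1
  have h2 := M_step _ _ _ _ _ _ _ h1
  norm_num at h2
  have h := M_step _ _ _ _ _ _ _ h2
  norm_num at h
  iterate 8
    replace h := M_step _ _ _ _ _ _ _ h
    norm_num at h
  have h12 := M_step _ _ _ _ _ _ _ h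
  norm_num at h12
  replace h := M_step _ _ _ _ _ _ _ h12
  norm_num at h
  iterate 2
    replace h := M_step _ _ _ _ _ _ _ h
    norm_num at h
  rw [F_spider]
  simp only [mul_assoc, sum3, h1, h2, h12, h, d_mul, d_add]
  norm_num

theorem esymm_x0 (k : ℕ) (hk : 0 < k) : aeval x0 (esymm (Fin 31) ℚ k) =
    if k = 2 then d (-1) 0 else if k = 3 then d 0 2 else 0 := by
  have cons : ∀ (a : DualNumber ℚ) (s : Multiset (DualNumber ℚ)) (k : ℕ),
      (a ::ₘ s).esymm (k + 1) = s.esymm (k + 1) + a * s.esymm k := fun a s k => by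
    simp [Multiset.esymm, Multiset.powersetCard_cons, Multiset.sum_map_mul_left]
  have zero : ∀ s : Multiset (DualNumber ℚ), s.esymm 0 = 1 := fun s => by simp [Multiset.esymm]
  have rep : ∀ n k, (Multiset.replicate n (0 : DualNumber ℚ)).esymm (k + 1) = 0 := fun n k => by
    induction n with
    | zero => simp [Multiset.esymm, Multiset.powersetCard_zero_right]
    | succ n ih => rw [Multiset.replicate_succ, cons, ih]; simp
  have e : (univ : Finset (Fin 31)).val.map x0 =
      d 0 (-2) ::ₘ d 1 1 ::ₘ d (-1) 1 ::ₘ Multiset.replicate 28 0 := by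
    rw [Fin.univ_val_map]
    rfl
  rw [aeval_esymm_eq_multiset_esymm, e]
  have r := rep 28
  generalize Multiset.replicate 28 (0 : DualNumber ℚ) = Z at r
  match k, hk with
  | 1, _ => simp only [cons, r, zero, d_one, d_zero, d_mul, d_add]; norm_num
  | 2, _ => simp only [cons, r, zero, d_one, d_zero, d_mul, d_add]; norm_num
  | 3, _ => simp only [cons, r, zero, d_one, d_zero, d_mul, d_add]; norm_num
  | k + 4, _ => simp [cons, r]

theorem part_x0 (μ : Nat.Partition 31) : (aeval x0 (esymmPart (Fin 31) ℚ μ)).snd =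
    if μ.parts = 3 ::ₘ Multiset.replicate 14 2 then 2 else 0 := by
  rw [esymmPart, map_multiset_prod, Multiset.map_map]
  by_cases h : ∀ k ∈ μ.parts, k = 2 ∨ k = 3
  · have e : μ.parts = Multiset.replicate (μ.parts.count 2) 2 +
        Multiset.replicate (μ.parts.count 3) 3 := by
      ext k
      rw [Multiset.count_add, Multiset.count_replicate, Multiset.count_replicate]
      by_cases h2 : 2 = k
      · subst h2; simp
      by_cases h3 : 3 = k
      · subst h3; simp
      rw [if_neg h2, if_neg h3, Multiset.count_eq_zero]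
      intro hk
      rcases h k hk with h | h <;> omega
    have hs := μ.parts_sum
    generalize μ.parts.count 2 = a at e
    generalize μ.parts.count 3 = b at e
    rw [e] at hs ⊢
    simp only [Multiset.sum_add, Multiset.sum_replicate, smul_eq_mul] at hs
    simp only [Multiset.map_add, Multiset.map_replicate, Multiset.prod_add, Multiset.prod_replicate,
      Function.comp, esymm_x0 2 (by omega), esymm_x0 3 (by omega)]
    by_cases hb : b = 1
    · obtain rfl : a = 14 := by omega
      subst hb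
      rw [if_pos (by decide)]
      norm_num [pow_succ, d_mul]
      rfl
    · obtain ⟨b, rfl⟩ : ∃ t, b = t + 2 := ⟨b - 2, by omega⟩
      have hne : ¬ (Multiset.replicate a 2 + Multiset.replicate (b + 2) 3 =
          3 ::ₘ Multiset.replicate 14 2) := fun h => by
        have := congrArg (Multiset.count 3) h
        simp [Multiset.count_replicate] at this
      rw [if_neg hne]
      norm_num [pow_succ, mul_assoc, d_mul, ← d_zero]
  · push Not at h
    obtain ⟨k, hk, h2, h3⟩ := h
    rw [if_neg, Multiset.prod_eq_zero, TrivSqZeroExt.snd_zero]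
    · refine Multiset.mem_map.2 ⟨k, hk, ?_⟩
      simp [esymm_x0 k (μ.parts_pos hk), h2, h3]
    · intro e
      rw [e, Multiset.mem_cons, Multiset.mem_replicate] at hk
      omega

theorem adj_iff : ∀ u v : Fin 31, Spider31.G.Adj u v ↔
    ((v : ℕ) ≠ 0 ∧ (u : ℕ) = par v) ∨ ((u : ℕ) ≠ 0 ∧ (v : ℕ) = par u) := by decide +kernel

theorem eval_csf : (∑ κ ∈ univ.filter fun κ : Fin 31 → Fin 31 =>
    ∀ u v, Spider31.G.Adj u v → κ u ≠ κ v, ∏ v, x0 (κ v)) = d 0 14 := by
  rw [← F_val, F, Finset.sum_filter]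
  refine Finset.sum_congr rfl fun κ _ => ?_
  have hp : ∀ v : Fin 31, par v < 31 := by decide
  have e1 : ∀ v : Fin 31, ex κ v = κ v := fun v => by simp [ex]
  have e2 : ∀ v : Fin 31, ex κ (par v) = κ ⟨par v, hp v⟩ := fun v => by simp [ex, hp v]
  rw [Finset.prod_range, Finset.prod_mul_distrib]
  simp only [e1, e2]
  split_ifs with h
  · rw [Finset.prod_eq_one (f := fun v : Fin 31 => if (v : ℕ) ≠ 0 ∧ κ v = κ ⟨par v, hp v⟩ then
      (0 : DualNumber ℚ) else 1), mul_one]
    intro v _
    exact if_neg fun k => h v ⟨par v, hp v⟩ ((adj_iff _ _).2 (Or.inr ⟨k.1, rfl⟩)) k.2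
  · push Not at h
    obtain ⟨u, v, h1, h2⟩ := h
    refine (mul_eq_zero_of_right _ ?_).symm
    rcases (adj_iff _ _).1 h1 with ⟨k1, k2⟩ | ⟨k1, k2⟩
    · exact Finset.prod_eq_zero (mem_univ v)
        (if_pos ⟨k1, h2.symm.trans (congrArg κ (Fin.ext k2))⟩)
    · exact Finset.prod_eq_zero (mem_univ u)
        (if_pos ⟨k1, h2.trans (congrArg κ (Fin.ext k2))⟩)

end Pool.Agent.H14.Csf
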