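import Mathlib

set_option autoImplicit false

namespace Pool.Agent.H14.CycWalk

open Matrix Finset

variable {V : Type} [Fintype V] [DecidableEq V]

def wt (A : Matrix V V ℝ) : (n : ℕ) → V → (Fin n → V) → V → ℝ
  | 0, u, _, v => A u v
  | n + 1, u, x, v => A u (x 0) * wt A n (x 0) (Fin.tail x) v

omit [DecidableEq V] in
theorem sum_cons {n : ℕ} (f : (Fin (n + 1) → V) → ℝ) :
    ∑ x, f x = ∑ w : V, ∑ x : Fin n → V, f (Fin.cons w x) := by
  rw [← (Fin.consEquiv fun _ => V).sum_comp, Fintype.sum_prod_type]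
  rfl

theorem sum_wt (A : Matrix V V ℝ) : ∀ (n : ℕ) (u v : V),
    ∑ x : Fin n → V, wt A n u x v = (A ^ (n + 1)) u v
  | 0, u, v => by simp [wt]
  | n + 1, u, v => by
    rw [sum_cons, pow_succ', mul_apply]
    refine sum_congr rfl fun w _ => ?_
    simp only [wt, Fin.cons_zero, Fin.tail_cons]
    rw [← mul_sum, sum_wt A n]

theorem sum_wt_ind (A : Matrix V V ℝ) (z : V) : ∀ (n : ℕ) (j : Fin n) (u v : V),
    ∑ x : Fin n → V, (if x j = z then wt A n u x v else 0) =
      (A ^ (j.val + 1)) u z * (A ^ (n - j.val)) z v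
  | 0, j, _, _ => j.elim0
  | n + 1, j, u, v => by
    rw [sum_cons]
    refine Fin.cases ?_ (fun j => ?_) j
    · simp only [wt, Fin.cons_zero, Fin.tail_cons]
      rw [sum_eq_single z]
      · simp only [if_true]
        rw [← mul_sum, sum_wt]
        simp
      · intro w _ hw
        simp [hw]
      · simp
    · simp only [wt, Fin.cons_zero, Fin.tail_cons, Fin.cons_succ, Fin.val_succ]
      rw [pow_succ' A (j.val + 1), mul_apply, sum_mul]
      refine sum_congr rfl fun w _ => ?_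
      rw [Nat.add_sub_add_right, mul_assoc, ← sum_wt_ind A z n j w v, mul_sum]
      refine sum_congr rfl fun x _ => ?_
      split_ifs <;> simp

omit [Fintype V] [DecidableEq V] in
theorem path_wt (A : Matrix V V ℝ) (v : V) : ∀ (n : ℕ) (x : Fin (n + 1) → V),
    (∏ k : Fin n, A (x k.castSucc) (x k.succ)) * A (x (Fin.last n)) v =
      wt A n (x 0) (Fin.tail x) v
  | 0, x => by simp [wt]
  | n + 1, x => by
    rw [wt, ← path_wt A v n (Fin.tail x), Fin.prod_univ_succ, mul_assoc]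
    rfl

omit [Fintype V] [DecidableEq V] in
theorem cyc_wt (A : Matrix V V ℝ) (n : ℕ) (x : Fin (n + 1) → V) :
    ∏ k, A (x k) (x (k + 1)) = wt A n (x 0) (Fin.tail x) (x 0) := by
  rw [← path_wt, Fin.prod_univ_castSucc]
  simp

theorem sum_cyc (A : Matrix V V ℝ) (n : ℕ) :
    ∑ x : Fin (n + 1) → V, ∏ k, A (x k) (x (k + 1)) = ∑ z, (A ^ (n + 1)) z z := by
  rw [sum_cons]
  refine sum_congr rfl fun w _ => ?_
  simp only [cyc_wt, Fin.cons_zero, Fin.tail_cons, sum_wt]

theorem sum_cyc_ind (A : Matrix V V ℝ) (n : ℕ) (i j : Fin (n + 1)) (h : i ≠ j) :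
    ∃ a b : ℕ, a + b + 1 = n ∧
      ∑ x : Fin (n + 1) → V, (if x i = x j then ∏ k, A (x k) (x (k + 1)) else 0) =
        ∑ z, (A ^ (a + 1)) z z * (A ^ (b + 1)) z z := by
  obtain ⟨t, ht⟩ := Fin.exists_succ_eq.2 (sub_ne_zero.2 h.symm)
  refine ⟨t.val, n - t.val - 1, by omega, ?_⟩
  have e : ∑ x : Fin (n + 1) → V, (if x i = x j then ∏ k, A (x k) (x (k + 1)) else 0) =
      ∑ x : Fin (n + 1) → V, (if x t.succ = x 0 then ∏ k, A (x k) (x (k + 1)) else 0) := by
    refine Fintype.sum_equiv (Equiv.arrowCongr (Equiv.subRight i) (Equiv.refl V)) _ _ fun x => ?_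
    simp only [Equiv.arrowCongr_apply, Equiv.coe_refl, Function.comp, id, Equiv.subRight_symm_apply,
      ht, sub_add_cancel, zero_add]
    rw [← Equiv.prod_comp (Equiv.addRight i) fun k => A (x k) (x (k + 1))]
    simp only [Equiv.coe_addRight, add_right_comm, eq_comm]
  rw [e, sum_cons]
  refine sum_congr rfl fun w _ => ?_
  simp only [cyc_wt, Fin.cons_zero, Fin.tail_cons, Fin.cons_succ, sum_wt_ind]
  have := t.2
  rw [show n - t.val - 1 + 1 = n - t.val by omega]

theorem exists_root (M : Matrix V V ℝ) : ∀ k : ℕ, ∃ R : Matrix V V ℝ, (M * Mᵀ) ^ k = R * Rᵀ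
  | 0 => ⟨1, by simp⟩
  | 1 => ⟨M, by simp⟩
  | k + 2 => by
    obtain ⟨R, hR⟩ := exists_root M k
    refine ⟨M * Mᵀ * R, ?_⟩
    rw [pow_succ, pow_succ', hR]
    simp [transpose_mul, Matrix.mul_assoc]

theorem logconv (M : Matrix V V ℝ) (z : V) (k : ℕ) :
    0 ≤ ((M * Mᵀ) ^ k) z z ∧
      ((M * Mᵀ) ^ (k + 1)) z z ^ 2 ≤ ((M * Mᵀ) ^ k) z z * ((M * Mᵀ) ^ (k + 2)) z z := by
  obtain ⟨R, hR⟩ := exists_root M k
  have h0 : ((M * Mᵀ) ^ k) z z = ∑ t, R z t ^ 2 := by
    rw [hR, mul_apply]; simp [sq]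
  have h1 : ((M * Mᵀ) ^ (k + 1)) z z = ∑ t, R z t * (M * Mᵀ * R) z t := by
    have : (M * Mᵀ) ^ (k + 1) = R * (M * Mᵀ * R)ᵀ := by
      rw [pow_succ, hR]; simp [transpose_mul, Matrix.mul_assoc]
    rw [this, mul_apply]; simp
  have h2 : ((M * Mᵀ) ^ (k + 2)) z z = ∑ t, (M * Mᵀ * R) z t ^ 2 := by
    have : (M * Mᵀ) ^ (k + 2) = (M * Mᵀ * R) * (M * Mᵀ * R)ᵀ := by
      rw [pow_succ, pow_succ', hR]; simp [transpose_mul, Matrix.mul_assoc]
    rw [this, mul_apply]; simp [sq]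
  rw [h0, h1, h2]
  exact ⟨sum_nonneg fun _ _ => sq_nonneg _, sum_mul_sq_le_sq_mul_sq _ _ _⟩

theorem seq_bound (p : ℕ → ℝ) (N K : ℝ) (hN : 0 < N) (hK : 0 < K) (h0 : p 0 = 1) (h1 : p 1 = N)
    (hp : ∀ k, 0 ≤ p k) (hc : ∀ k, p (k + 1) ^ 2 ≤ p k * p (k + 2)) (a b : ℕ) :
    p (a + 1) * p (b + 1) ≤ p (a + b + 2) / K + K ^ (a + b + 1) * N ^ (a + b + 2) := by
  have pos : ∀ k, 0 < p k ∧ 0 < p (k + 1) := by
    intro k
    induction k with
    | zero => rw [h0, zero_add, h1]; exact ⟨one_pos, hN⟩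
    | succ k ih =>
      refine ⟨ih.2, ?_⟩
      have := hc k
      have h2 := sq_pos_of_pos ih.2
      exact (mul_pos_iff_of_pos_left ih.1).1 (h2.trans_le this)
  have hr : Monotone fun k => p (k + 1) / p k := by
    apply monotone_nat_of_le_succ
    intro k
    rw [div_le_div_iff₀ (pos k).1 (pos k).2]
    have := hc k
    nlinarith
  have e : ∀ k, p (k + 1) = p k * (p (k + 1) / p k) := fun k => by
    field_simp [(pos k).1.ne']
  have s1 : ∀ b, p (a + 1) * p (b + 1) ≤ N * p (a + b + 1) := by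
    intro b
    induction b with
    | zero => simp [h1, mul_comm]
    | succ b ih =>
      rw [e (b + 1), show a + (b + 1) + 1 = a + b + 1 + 1 by ring, e (a + b + 1), ← mul_assoc,
        ← mul_assoc]
      have := hr (show b + 1 ≤ a + b + 1 by omega)
      exact mul_le_mul ih this (div_pos (pos _).2 (pos _).1).le (mul_pos hN (pos _).1).le
  refine (s1 b).trans ?_
  set n := a + b + 1 with hn
  by_cases hc : K * N ≤ p (n + 1) / p n
  · have h2 : N * p n ≤ p (n + 1) / K := by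
      rw [le_div_iff₀ (pos n).1] at hc
      rw [le_div_iff₀ hK]
      linarith
    have : 0 ≤ K ^ n * N ^ (n + 1) := by positivity
    linarith
  · have s2 : ∀ k, k ≤ n → p k ≤ (K * N) ^ k := by
      intro k
      induction k with
      | zero => simp [h0]
      | succ k ih =>
        intro hk
        rw [e k, pow_succ]
        have := hr (show k ≤ n by omega)
        exact mul_le_mul (ih (by omega)) (this.trans (not_le.1 hc).le)
          (div_pos (pos _).2 (pos _).1).le (by positivity)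
    have h2 := mul_le_mul_of_nonneg_left (s2 n le_rfl) hN.le
    have h3 : 0 ≤ p (n + 1) / K := div_nonneg (hp _) hK.le
    have h4 : N * (K * N) ^ n = K ^ n * N ^ (n + 1) := by ring
    linarith

/-- degenerate closed walks are few -/
theorem deg_bound (M : Matrix V V ℝ) (hM : ∀ u v, M u v ^ 2 = 1) [Nonempty V] (K : ℝ) (hK : 0 < K)
    (n : ℕ) (i j : Fin (n + 1)) (h : i ≠ j) :
    ∑ x : Fin (n + 1) → V, (if x i = x j then ∏ k, (M * Mᵀ) (x k) (x (k + 1)) else 0) ≤
      (∑ x : Fin (n + 1) → V, ∏ k, (M * Mᵀ) (x k) (x (k + 1))) / K +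
        K ^ n * (Fintype.card V : ℝ) ^ (n + 2) := by
  obtain ⟨a, b, hab, e⟩ := sum_cyc_ind (M * Mᵀ) n i j h
  rw [e, sum_cyc, sum_div]
  have hN : (0 : ℝ) < Fintype.card V := by exact_mod_cast Fintype.card_pos
  have : K ^ n * (Fintype.card V : ℝ) ^ (n + 2) =
      ∑ _z : V, K ^ n * (Fintype.card V : ℝ) ^ (n + 1) := by
    simp; ring
  rw [this, ← sum_add_distrib]
  refine sum_le_sum fun z _ => ?_
  have key := seq_bound (fun k => ((M * Mᵀ) ^ k) z z) _ K hN hK (by simp)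
    (by simp [mul_apply, ← sq, hM]) (fun k => (logconv M z k).1) (fun k => (logconv M z k).2) a b
  subst hab
  exact key

end Pool.Agent.H14.CycWalk
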