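import Mathlib

set_option autoImplicit false

namespace Pool.Agent.H14.Energy

open Real Finset

theorem ratio (t τ : ℝ) (hτ : 0 < τ) (ht : -1 < t) (htτ : t ≤ τ) :
    t ^ 2 * (τ - log (1 + τ)) ≤ τ ^ 2 * (t - log (1 + t)) := by
  set θ := t / τ with hθ
  have hθ1 : θ ≤ 1 := (div_le_one hτ).2 htτ
  have hθτ : θ * τ = t := div_mul_cancel₀ _ hτ.ne'
  have hpos : ∀ s ∈ Set.Icc (0 : ℝ) τ, 0 < 1 + θ * s := by
    intro s hs
    rcases le_total 0 θ with h | h
    · have := mul_nonneg h hs.1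
      linarith
    · have := mul_le_mul_of_nonpos_left hs.2 h
      linarith
  have hd : ∀ s ∈ Set.Icc (0 : ℝ) τ, HasDerivAt
      (fun s => (θ * s - log (1 + θ * s)) - θ ^ 2 * (s - log (1 + s)))
      ((θ - θ / (1 + θ * s)) - θ ^ 2 * (1 - 1 / (1 + s))) s := by
    intro s hs
    have h1 : HasDerivAt (fun s => θ * s) θ s := by simpa using (hasDerivAt_id s).const_mul θ
    have h2 : HasDerivAt (fun s => log (1 + θ * s)) (θ / (1 + θ * s)) s :=
      (h1.const_add 1).log (hpos s hs).ne'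
    have h3 : HasDerivAt (fun s => log (1 + s)) (1 / (1 + s)) s :=
      ((hasDerivAt_id s).const_add 1).log (by have := hs.1; simp only [id]; linarith)
    exact (h1.sub h2).sub (((hasDerivAt_id s).sub h3).const_mul _)
  have hm : MonotoneOn (fun s => (θ * s - log (1 + θ * s)) - θ ^ 2 * (s - log (1 + s)))
      (Set.Icc 0 τ) := by
    refine monotoneOn_of_deriv_nonneg (convex_Icc _ _)
      (fun s hs => (hd s hs).continuousAt.continuousWithinAt)
      (fun s hs => (hd s (interior_subset hs)).differentiableAt.differentiableWithinAt) ?_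
    intro s hs
    have hs' := interior_subset hs
    rw [(hd s hs').deriv]
    have h1 := hpos s hs'
    have h2 : 0 < 1 + s := by have := hs'.1; linarith
    have e : (θ - θ / (1 + θ * s)) - θ ^ 2 * (1 - 1 / (1 + s)) =
        θ ^ 2 * s * s * (1 - θ) / ((1 + θ * s) * (1 + s)) := by
      field_simp; ring
    rw [e]
    have := hs'.1
    have h3 : 0 ≤ 1 - θ := by linarith
    positivity
  have := hm ⟨le_rfl, hτ.le⟩ ⟨hτ.le, le_rfl⟩ hτ.le
  simp only [mul_zero, add_zero, log_one, sub_zero, hθτ] at this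
  have e : t ^ 2 = τ ^ 2 * θ ^ 2 := by rw [← hθτ]; ring
  rw [e, mul_assoc]
  exact mul_le_mul_of_nonneg_left (by linarith) (sq_nonneg τ)

theorem gl {ι : Type*} (s : Finset ι) (x : ι → ℝ) (hx : ∀ i ∈ s, 0 < x i) (τ : ℝ) (hτ : 0 < τ)
    (h : τ ^ 2 ≤ ∑ i ∈ s, (x i - 1) ^ 2) :
    τ - log (1 + τ) ≤ ∑ i ∈ s, (x i - 1 - log (x i)) := by
  have h0 : ∀ i ∈ s, 0 ≤ x i - 1 - log (x i) := fun i hi => by
    have := log_le_sub_one_of_pos (hx i hi); linarith
  by_cases hc : ∃ i ∈ s, τ ≤ x i - 1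
  · obtain ⟨i, hi, hle⟩ := hc
    refine le_trans ?_ (single_le_sum h0 hi)
    have h1 := log_le_sub_one_of_pos (div_pos (hx i hi) (by linarith : 0 < 1 + τ))
    rw [log_div (hx i hi).ne' (by linarith)] at h1
    have h2 : x i / (1 + τ) - 1 ≤ x i - (1 + τ) := by
      rw [div_sub_one (by linarith), div_le_iff₀ (by linarith)]
      nlinarith
    linarith
  · push Not at hc
    have h1 : ∑ i ∈ s, (x i - 1) ^ 2 * (τ - log (1 + τ)) ≤
        ∑ i ∈ s, τ ^ 2 * (x i - 1 - log (x i)) := sum_le_sum fun i hi => by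
      have := ratio (x i - 1) τ hτ (by linarith [hx i hi]) (hc i hi).le
      rwa [add_sub_cancel] at this
    rw [← sum_mul, ← mul_sum] at h1
    have h2 : 0 ≤ τ - log (1 + τ) := by
      have := log_le_sub_one_of_pos (by linarith : 0 < 1 + τ); linarith
    exact le_of_mul_le_mul_left ((mul_le_mul_of_nonneg_right h h2).trans h1) (by positivity)

theorem exp4 (u : ℝ) (hu : 0 ≤ u) : 1 + u + u ^ 2 / 2 + u ^ 3 / 6 + u ^ 4 / 24 ≤ exp u := by
  have := Real.sum_le_exp_of_nonneg hu 5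
  simp [sum_range_succ, Nat.factorial] at this
  linarith

theorem exp_ge (a b : ℝ) (ha : 0 ≤ a)
    (h : b ≤ ∑ i ∈ range 12, a ^ i / (Nat.factorial i : ℝ)) : b ≤ exp a :=
  h.trans (Real.sum_le_exp_of_nonneg ha 12)

theorem shift (s s0 E : ℝ) (hs : s0 ≤ s) (hE : E ≤ exp s0) (hE0 : 0 ≤ E) :
    E * (1 + (s - s0) + (s - s0) ^ 2 / 2 + (s - s0) ^ 3 / 6 + (s - s0) ^ 4 / 24) ≤ exp s := by
  have h1 := exp4 (s - s0) (by linarith)
  have h2 : exp s = exp s0 * exp (s - s0) := by rw [← exp_add]; ring_nf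
  have h3 : 0 ≤ s - s0 := by linarith
  rw [h2]
  exact mul_le_mul hE h1 (by positivity) (exp_pos _).le

theorem lev3 (s : ℝ) (hs : 0 ≤ s) : (1 + s ^ 2 / 3) * (1 + s) ≤ exp s := by
  have := exp4 s hs
  nlinarith [sq_nonneg (s * (s - 2))]

theorem levA (s : ℝ) (hs : 1.5 ≤ s) : (0.702 + 0.428 * s ^ 2) * (1 + s) ≤ exp s := by
  have h := shift s 1.5 4.48 hs (exp_ge _ _ (by norm_num)
    (by simp [sum_range_succ, Nat.factorial]; norm_num)) (by norm_num)
  obtain ⟨u, rfl⟩ : ∃ u, s = u + 1.5 := ⟨s - 1.5, by ring⟩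
  have hu : 0 ≤ u := by linarith
  simp only [add_sub_cancel_right] at h
  nlinarith [sq_nonneg (u - 0.7), mul_nonneg hu (sq_nonneg (u - 0.7)), sq_nonneg (u ^ 2 - 0.5)]

theorem levB (s : ℝ) (hs : 2.69 ≤ s) : (0.766 + 0.4425 * s ^ 2) * (1 + s) ≤ exp s := by
  have h := shift s 2.69 14.7 hs (exp_ge _ _ (by norm_num)
    (by simp [sum_range_succ, Nat.factorial]; norm_num)) (by norm_num)
  obtain ⟨u, rfl⟩ : ∃ u, s = u + 2.69 := ⟨s - 2.69, by ring⟩
  have hu : 0 ≤ u := by linarith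
  simp only [add_sub_cancel_right] at h
  nlinarith [pow_nonneg hu 2, pow_nonneg hu 3, pow_nonneg hu 4]

theorem levC (s : ℝ) (hs : 3.2 ≤ s) : (0.82 + 0.456 * s ^ 2) * (1 + s) ≤ exp s := by
  have h := shift s 3.2 24 hs (exp_ge _ _ (by norm_num)
    (by simp [sum_range_succ, Nat.factorial]; norm_num)) (by norm_num)
  obtain ⟨u, rfl⟩ : ∃ u, s = u + 3.2 := ⟨s - 3.2, by ring⟩
  have hu : 0 ≤ u := by linarith
  simp only [add_sub_cancel_right] at h
  nlinarith [pow_nonneg hu 2, pow_nonneg hu 3, pow_nonneg hu 4]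

theorem levD (s : ℝ) (hs : 3.5 ≤ s) : (1 + 0.5 * s ^ 2) * (1 + s) ≤ exp s := by
  have h := shift s 3.5 33 hs (exp_ge _ _ (by norm_num)
    (by simp [sum_range_succ, Nat.factorial]; norm_num)) (by norm_num)
  obtain ⟨u, rfl⟩ : ∃ u, s = u + 3.5 := ⟨s - 3.5, by ring⟩
  have hu : 0 ≤ u := by linarith
  simp only [add_sub_cancel_right] at h
  nlinarith [pow_nonneg hu 2, pow_nonneg hu 3, pow_nonneg hu 4]

theorem comb (l z s a b : ℝ) (hz : 0 ≤ z) (hz1 : z ≤ 1) (hs : 0 ≤ s) (ha0 : 0 ≤ a) (hb0 : 0 ≤ b)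
    (hl : (2 - z) * (l - 1) ≤ s ^ 2) (ha : 1 ≤ a * (1 + z + z ^ 2 / 2))
    (hb : 1 ≤ b * (2 + z - z ^ 3 / 2)) (h : (a + b * s ^ 2) * (1 + s) ≤ exp s) :
    l * (1 + s) ≤ exp (s + z) := by
  have h1 : 1 + z + z ^ 2 / 2 ≤ exp z := Real.quadratic_le_exp_of_nonneg hz
  have h2 : l - 1 ≤ b * s ^ 2 * (1 + z + z ^ 2 / 2) := by
    refine le_of_mul_le_mul_left (hl.trans ?_) (by linarith : 0 < 2 - z)
    have := mul_le_mul_of_nonneg_left hb (sq_nonneg s)
    nlinarith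
  have h3 : l ≤ (a + b * s ^ 2) * exp z := by
    have : 0 ≤ a + b * s ^ 2 := by positivity
    nlinarith
  rw [exp_add]
  calc l * (1 + s) ≤ (a + b * s ^ 2) * exp z * (1 + s) :=
        mul_le_mul_of_nonneg_right h3 (by linarith)
    _ = (a + b * s ^ 2) * (1 + s) * exp z := by ring
    _ ≤ _ := mul_le_mul_of_nonneg_right h (exp_pos _).le

/-- the final numerical inequality -/
theorem fin (d k j : ℕ) (z s : ℝ) (hd : 1 ≤ d) (hk : 2 ≤ k) (hz : 0 ≤ z) (hzk : 2 * z ≤ k - j)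
    (hs : 0 ≤ s) (hs2 : s ^ 2 = (d - 1) * (k - z) + 2 * z + 2 * j)
    (hc : j = 0 → (d : ℝ) + k ≤ (d + z) * (1 + z)) :
    (d + z) * (1 + s) ≤ exp (s + z + j) := by
  have hd' : (1 : ℝ) ≤ d := by exact_mod_cast hd
  have hk' : (2 : ℝ) ≤ k := by exact_mod_cast hk
  have hj' : (0 : ℝ) ≤ j := Nat.cast_nonneg j
  have hkz : 0 < k - z := by linarith
  have e1 : ((d : ℝ) - 1) * k ≤ s ^ 2 * (1 + z) := by
    have h1 : (k : ℝ) ≤ (k - z) * (1 + z) := by nlinarith
    have h2 := mul_le_mul_of_nonneg_left h1 (by linarith : (0 : ℝ) ≤ d - 1)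
    nlinarith
  have hez : 1 + z ≤ exp z := by linarith [add_one_le_exp z]
  have h3 := lev3 s hs
  have gen : ∀ c : ℝ, 1 ≤ c → c ≤ exp j → 3 ≤ c * k → (d + z) * (1 + s) ≤ exp (s + z + j) := by
    intro c hc1 hc2 hck
    have h4 : (d : ℝ) + z ≤ (1 + s ^ 2 / 3) * (1 + z) * c := by
      have h5 : ((d : ℝ) - 1) * 3 ≤ s ^ 2 * (1 + z) * c := by
        have := mul_le_mul_of_nonneg_left hck (by linarith : (0 : ℝ) ≤ d - 1)
        have := mul_le_mul_of_nonneg_right e1 (by linarith : 0 ≤ c)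
        nlinarith
      nlinarith
    rw [exp_add, exp_add]
    calc (d + z) * (1 + s) ≤ (1 + s ^ 2 / 3) * (1 + z) * c * (1 + s) :=
          mul_le_mul_of_nonneg_right h4 (by linarith)
      _ = (1 + s ^ 2 / 3) * (1 + s) * (1 + z) * c := by ring
      _ ≤ _ := by gcongr
  by_cases hk3 : 3 ≤ k
  · have : (3 : ℝ) ≤ k := by exact_mod_cast hk3
    exact gen 1 le_rfl (one_le_exp hj') (by linarith)
  obtain rfl : k = 2 := by omega
  rcases Nat.eq_zero_or_pos j with rfl | hj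
  swap
  · have : (1 : ℝ) ≤ j := by exact_mod_cast hj
    exact gen 2 (by norm_num) (by linarith [add_one_le_exp (j : ℝ)]) (by norm_num)
  have hc := hc rfl
  simp only [Nat.cast_zero, add_zero, mul_zero, sub_zero, Nat.cast_ofNat] at hzk hs2 hc ⊢
  have hz1 : z ≤ 1 := by linarith
  have hl : (2 - z) * (d + z - 1) ≤ s ^ 2 := by nlinarith
  have hz3 : z ^ 3 ≤ z ^ 2 := by nlinarith [sq_nonneg z]
  by_cases hA : 0.36 ≤ z
  · rcases Nat.eq_or_lt_of_le hd with rfl | hd2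
    · rw [exp_add]
      have := add_one_le_exp s
      push_cast
      nlinarith [exp_pos s]
    have : (2 : ℝ) ≤ d := by exact_mod_cast hd2
    have q1 : 0 ≤ 2 - (z ^ 2 + 0.36 * z + 0.1296) := by nlinarith
    have q2 := mul_nonneg (sub_nonneg.2 hA) q1
    refine comb _ z s _ _ hz hz1 hs (by norm_num) (by norm_num) hl (by nlinarith) (by nlinarith)
      (levA s (by nlinarith))
  have hA := not_le.1 hA
  have hd5 : 5 ≤ d := by
    by_contra h
    have : (d : ℝ) ≤ 4 := by exact_mod_cast (by omega : d ≤ 4)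
    nlinarith
  have hd5' : (5 : ℝ) ≤ d := by exact_mod_cast hd5
  by_cases h6 : d ≤ 6
  · have : (d : ℝ) ≤ 6 := by exact_mod_cast h6
    have hz0 : 0.27 ≤ z := by nlinarith
    exact comb _ z s _ _ hz hz1 hs (by norm_num) (by norm_num) hl (by nlinarith) (by nlinarith)
      (levB s (by nlinarith))
  have hd7 : (7 : ℝ) ≤ d := by exact_mod_cast (by omega : 7 ≤ d)
  by_cases h8 : d ≤ 8
  · have : (d : ℝ) ≤ 8 := by exact_mod_cast h8
    have hz0 : 0.2 ≤ z := by nlinarith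
    exact comb _ z s _ _ hz hz1 hs (by norm_num) (by norm_num) hl (by nlinarith) (by nlinarith)
      (levC s (by nlinarith))
  have hd9 : (9 : ℝ) ≤ d := by exact_mod_cast (by omega : 9 ≤ d)
  exact comb _ z s _ _ hz hz1 hs (by norm_num) (by norm_num) hl (by nlinarith) (by nlinarith)
    (levD s (by nlinarith))

end Pool.Agent.H14.Energy
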