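import Mathlib

set_option autoImplicit false

namespace Pool.Agent.H14.Spec

open Matrix

variable {n : Type*} [Fintype n] [DecidableEq n] {A : Matrix n n ℝ}

lemma exists_coords (hA : A.IsHermitian) : ∃ U : Matrix n n ℝ,
    (∀ x : n → ℝ, x ⬝ᵥ x = ∑ i, (U *ᵥ x) i ^ 2) ∧
    (∀ x : n → ℝ, x ⬝ᵥ (A *ᵥ x) = ∑ i, hA.eigenvalues i * (U *ᵥ x) i ^ 2) := by
  let V : Matrix n n ℝ := hA.eigenvectorUnitary
  have hV : V * Vᵀ = 1 := by
    have := (hA.eigenvectorUnitary).2.2
    simpa [star_eq_conjTranspose, conjTranspose_eq_transpose_of_trivial] using this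
  have hS : A = V * diagonal hA.eigenvalues * Vᵀ := by
    have := hA.spectral_theorem
    simpa [Unitary.conjStarAlgAut_apply, star_eq_conjTranspose,
      conjTranspose_eq_transpose_of_trivial, Function.comp_def] using this
  refine ⟨Vᵀ, fun x => ?_, fun x => ?_⟩
  · have : x ⬝ᵥ x = (Vᵀ *ᵥ x) ⬝ᵥ (Vᵀ *ᵥ x) := by
      rw [dotProduct_mulVec, vecMul_transpose, mulVec_mulVec, hV, one_mulVec]
    rw [this]
    simp [dotProduct, sq]
  · conv_lhs => rw [hS]
    rw [← mulVec_mulVec, ← mulVec_mulVec, dotProduct_mulVec, ← mulVec_transpose]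
    simp only [dotProduct, mulVec_diagonal]
    apply Finset.sum_congr rfl
    intro i _
    ring

lemma rayleigh_le (hA : A.IsHermitian) (M : ℝ) (h : ∀ i, hA.eigenvalues i ≤ M) (x : n → ℝ) :
    x ⬝ᵥ (A *ᵥ x) ≤ M * (x ⬝ᵥ x) := by
  obtain ⟨U, h1, h2⟩ := exists_coords hA
  rw [h1, h2, Finset.mul_sum]
  exact Finset.sum_le_sum fun i _ => mul_le_mul_of_nonneg_right (h i) (sq_nonneg _)

lemma le_rayleigh (hA : A.IsHermitian) (M : ℝ) (h : ∀ i, M ≤ hA.eigenvalues i) (x : n → ℝ) :
    M * (x ⬝ᵥ x) ≤ x ⬝ᵥ (A *ᵥ x) := by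
  obtain ⟨U, h1, h2⟩ := exists_coords hA
  rw [h1, h2, Finset.mul_sum]
  exact Finset.sum_le_sum fun i _ => mul_le_mul_of_nonneg_right (h i) (sq_nonneg _)

lemma card_le_aux {k : Type*} [Fintype k] (p : n → Prop) [DecidablePred p] (T : Matrix n k ℝ)
    (h : ∀ y : k → ℝ, (∀ i, p i → (T *ᵥ y) i = 0) → y = 0) :
    Fintype.card k ≤ (Finset.univ.filter p).card := by
  classical
  let L : (k → ℝ) →ₗ[ℝ] ({i // p i} → ℝ) :=
    (LinearMap.funLeft ℝ ℝ (Subtype.val : {i // p i} → n)).comp (Matrix.mulVecLin T)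
  have hL : Function.Injective L := by
    rw [← LinearMap.ker_eq_bot, LinearMap.ker_eq_bot']
    intro y hy
    apply h y
    intro i hi
    exact congrFun hy ⟨i, hi⟩
  have := LinearMap.finrank_le_finrank_of_injective hL
  simpa [Fintype.card_subtype] using this

/-- If the form of A exceeds t on the column space of S, at least card k eigenvalues exceed t. -/
lemma card_gt (hA : A.IsHermitian) {k : Type*} [Fintype k] (S : Matrix n k ℝ) (t : ℝ)
    (h : ∀ y : k → ℝ, y ≠ 0 → t * ((S *ᵥ y) ⬝ᵥ (S *ᵥ y)) < (S *ᵥ y) ⬝ᵥ (A *ᵥ (S *ᵥ y))) :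
    Fintype.card k ≤ (Finset.univ.filter (fun i => t < hA.eigenvalues i)).card := by
  obtain ⟨U, h1, h2⟩ := exists_coords hA
  apply card_le_aux _ (U * S)
  intro y hy
  by_contra hne
  have := h y hne
  rw [h1, h2, Finset.mul_sum] at this
  apply absurd this
  apply not_lt.mpr
  apply Finset.sum_le_sum
  intro i _
  by_cases hi : t < hA.eigenvalues i
  · have := hy i hi
    rw [← mulVec_mulVec] at this
    simp [this]
  · exact mul_le_mul_of_nonneg_right (not_lt.mp hi) (sq_nonneg _)

/-- If the form of A is below t on the column space of S, at least card k eigenvalues are below t. -/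
lemma card_lt (hA : A.IsHermitian) {k : Type*} [Fintype k] (S : Matrix n k ℝ) (t : ℝ)
    (h : ∀ y : k → ℝ, y ≠ 0 → (S *ᵥ y) ⬝ᵥ (A *ᵥ (S *ᵥ y)) < t * ((S *ᵥ y) ⬝ᵥ (S *ᵥ y))) :
    Fintype.card k ≤ (Finset.univ.filter (fun i => hA.eigenvalues i < t)).card := by
  obtain ⟨U, h1, h2⟩ := exists_coords hA
  apply card_le_aux _ (U * S)
  intro y hy
  by_contra hne
  have := h y hne
  rw [h1, h2, Finset.mul_sum] at this
  apply absurd this
  apply not_lt.mpr
  apply Finset.sum_le_sum
  intro i _
  by_cases hi : hA.eigenvalues i < t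
  · have := hy i hi
    rw [← mulVec_mulVec] at this
    simp [this]
  · exact mul_le_mul_of_nonneg_right (not_lt.mp hi) (sq_nonneg _)

/-- If at least k eigenvalues are below t, the eigenvalue in sorted position j is below t
whenever card n ≤ j + k. -/
lemma sorted_lt (hA : A.IsHermitian) (t : ℝ) (k : ℕ)
    (h : k ≤ (Finset.univ.filter (fun i => hA.eigenvalues i < t)).card)
    (j : Fin (Fintype.card n)) (hj : Fintype.card n ≤ j.val + k) : hA.eigenvalues₀ j < t := by
  by_contra hc
  have hc := not_lt.mp hc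
  let e : n ≃ Fin (Fintype.card n) := (Fintype.equivOfCardEq (Fintype.card_fin _)).symm
  have h1 : (Finset.univ.filter (fun i => hA.eigenvalues i < t)).card ≤ (Finset.Ioi j).card := by
    apply Finset.card_le_card_of_injOn e
    · intro i hi
      have hi : hA.eigenvalues₀ (e i) < t := (Finset.mem_filter.mp hi).2
      simp only [Finset.coe_Ioi, Set.mem_Ioi]
      by_contra hh
      have := hA.eigenvalues₀_antitone (not_lt.mp hh)
      linarith
    · exact e.injective.injOn
  rw [Fin.card_Ioi] at h1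
  have := j.2
  omega

/-- If at least k eigenvalues exceed t, the eigenvalue in sorted position j < k exceeds t. -/
lemma lt_sorted (hA : A.IsHermitian) (t : ℝ) (k : ℕ)
    (h : k ≤ (Finset.univ.filter (fun i => t < hA.eigenvalues i)).card)
    (j : Fin (Fintype.card n)) (hj : j.val < k) : t < hA.eigenvalues₀ j := by
  by_contra hc
  have hc := not_lt.mp hc
  let e : n ≃ Fin (Fintype.card n) := (Fintype.equivOfCardEq (Fintype.card_fin _)).symm
  have h1 : (Finset.univ.filter (fun i => t < hA.eigenvalues i)).card ≤ (Finset.Iio j).card := by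
    apply Finset.card_le_card_of_injOn e
    · intro i hi
      have hi : t < hA.eigenvalues₀ (e i) := (Finset.mem_filter.mp hi).2
      simp only [Finset.coe_Iio, Set.mem_Iio]
      by_contra hh
      have := hA.eigenvalues₀_antitone (not_lt.mp hh)
      linarith
    · exact e.injective.injOn
  rw [Fin.card_Iio] at h1
  omega

lemma card_roots_filter (hA : A.IsHermitian) (p : ℝ → Prop) [DecidablePred p] :
    (A.charpoly.roots.filter p).card = (Finset.univ.filter (fun i => p (hA.eigenvalues i))).card := by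
  rw [hA.roots_charpoly_eq_eigenvalues, Multiset.filter_map, Multiset.card_map]
  rfl

end Pool.Agent.H14.Spec
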