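import Mathlib
import Pool.Agent.H14.Spec
import Pool.Agent.H14.EnergyA

set_option autoImplicit false

namespace Pool.Agent.H14.Energy

open Real Finset Matrix

variable {V : Type} [Fintype V] [DecidableEq V]

theorem sum_sq_eig {A : Matrix V V ℝ} (hA : A.IsHermitian) :
    ∑ i, hA.eigenvalues i ^ 2 = (A * A).trace := by
  let U : Matrix V V ℝ := hA.eigenvectorUnitary
  have hV : star U * U = 1 := (hA.eigenvectorUnitary).2.1
  have hS : A = U * diagonal hA.eigenvalues * star U := by
    have := hA.spectral_theorem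
    simpa [Unitary.conjStarAlgAut_apply] using this
  have : A * A = U * (diagonal hA.eigenvalues * diagonal hA.eigenvalues) * star U := by
    conv_lhs => rw [hS]
    simp only [Matrix.mul_assoc]
    rw [← Matrix.mul_assoc (star U) U, hV, Matrix.one_mul]
  rw [this, trace_mul_cycle, hV, Matrix.one_mul, diagonal_mul_diagonal, trace_diagonal]
  simp [sq]

theorem perron {A : Matrix V V ℝ} (hA : A.IsHermitian) (h0 : ∀ i j, 0 ≤ A i j) (i0 : V)
    (hm : ∀ i, hA.eigenvalues i ≤ hA.eigenvalues i0) :
    ∃ y : V → ℝ, (∀ i, 0 ≤ y i) ∧ 0 < ∑ i, y i ∧ A *ᵥ y = hA.eigenvalues i0 • y := by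
  set l := hA.eigenvalues i0
  let x : V → ℝ := hA.eigenvectorBasis i0
  have hx : A *ᵥ x = l • x := hA.mulVec_eigenvectorBasis i0
  have hx0 : x ≠ 0 := by
    intro h
    apply hA.eigenvectorBasis.orthonormal.ne_zero i0
    ext j
    exact congrFun h j
  have hP : (l • (1 : Matrix V V ℝ) - A).PosSemidef := by
    refine PosSemidef.of_dotProduct_mulVec_nonneg ?_ fun z => ?_
    · refine IsHermitian.sub ?_ hA
      simp [IsHermitian]
    · have := Spec.rayleigh_le hA l hm z
      simp only [star_trivial, sub_mulVec, smul_mulVec, one_mulVec, dotProduct_sub,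
        dotProduct_smul, smul_eq_mul]
      linarith
  refine ⟨fun i => |x i|, fun i => abs_nonneg _, ?_, ?_⟩
  · obtain ⟨i, hi⟩ := Function.ne_iff.1 hx0
    exact sum_pos' (fun i _ => abs_nonneg _) ⟨i, mem_univ i, abs_pos.2 hi⟩
  · have h1 : (fun i => |x i|) ⬝ᵥ (fun i => |x i|) = x ⬝ᵥ x := by
      simp [dotProduct]
    have h2 : x ⬝ᵥ (A *ᵥ x) ≤ (fun i => |x i|) ⬝ᵥ (A *ᵥ fun i => |x i|) := by
      simp only [dotProduct, mulVec, mul_sum]
      refine sum_le_sum fun i _ => sum_le_sum fun j _ => ?_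
      have : x i * x j ≤ |x i| * |x j| := by rw [← abs_mul]; exact le_abs_self _
      nlinarith [h0 i j]
    rw [hx, dotProduct_smul, smul_eq_mul] at h2
    have h3 := Spec.rayleigh_le hA l hm fun i => |x i|
    have h4 := (hP.dotProduct_mulVec_zero_iff (x := fun i => |x i|)).1 (by
      simp only [star_trivial, sub_mulVec, smul_mulVec, one_mulVec, dotProduct_sub,
        dotProduct_smul, smul_eq_mul]
      rw [h1] at h3 ⊢
      linarith)
    simp only [sub_mulVec, smul_mulVec, one_mulVec] at h4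
    exact (sub_eq_zero.1 h4).symm

/-- pairing a nonnegative eigenvector with a test vector -/
theorem pair {A : Matrix V V ℝ} (hs : ∀ i j, A i j = A j i) (y : V → ℝ) (l : ℝ)
    (h : A *ᵥ y = l • y) (w : V → ℝ) : ∑ i, (∑ j, A i j * w j) * y i = l * ∑ i, w i * y i := by
  have h1 : ∀ j, ∑ i, A j i * y i = l * y j := fun j => congrFun h j
  simp only [sum_mul]
  rw [sum_comm, mul_sum]
  refine sum_congr rfl fun j _ => ?_
  rw [mul_left_comm, ← h1, mul_sum]
  exact sum_congr rfl fun i _ => by rw [hs i j]; ring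

end Pool.Agent.H14.Energy
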