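import Mathlib
import Pool.Agent.H14.EnergyB

set_option autoImplicit false

namespace Pool.Agent.H14.Energy

open Real Finset Matrix

theorem gl0 {ι : Type*} (s : Finset ι) (x : ι → ℝ) (hx : ∀ i ∈ s, 0 < x i) (τ : ℝ) (hτ : 0 ≤ τ)
    (h : τ ^ 2 ≤ ∑ i ∈ s, (x i - 1) ^ 2) :
    τ - log (1 + τ) ≤ ∑ i ∈ s, (x i - 1 - log (x i)) := by
  rcases hτ.eq_or_lt with rfl | h0
  · simp only [add_zero, log_one, sub_zero]
    exact sum_nonneg fun i hi => by have := log_le_sub_one_of_pos (hx i hi); linarith
  · exact gl s x hx τ h0 h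

variable {V : Type} [Fintype V] [DecidableEq V] (G : SimpleGraph V) [DecidableRel G.Adj]

theorem twins (hdet : (G.adjMatrix ℝ).det ≠ 0) [Nonempty V] :
    G.minDegree + 2 ≠ Fintype.card V := by
  intro h
  obtain ⟨u, hu⟩ := G.exists_minimal_degree_vertex
  have hc : ∀ w, Gᶜ.degree w ≤ 1 := fun w => by
    rw [SimpleGraph.degree_compl]
    have := G.minDegree_le_degree w
    omega
  have h1 : 0 < Gᶜ.degree u := by
    rw [SimpleGraph.degree_compl]
    omega
  obtain ⟨v, hv⟩ := (Gᶜ.degree_pos_iff_exists_adj u).1 h1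
  have key : ∀ a b w, Gᶜ.Adj a b → G.Adj b w → G.Adj a w := by
    intro a b w hab hbw
    by_contra hn
    have haw : a ≠ w := by
      rintro rfl
      exact ((G.compl_adj _ _).1 hab).2 hbw.symm
    have := card_le_one.1 (hc a) b (by simpa using hab) w (by simp [haw, hn])
    exact hbw.ne this
  refine hdet (det_zero_of_row_eq hv.ne ?_)
  funext w
  simp only [SimpleGraph.adjMatrix_apply]
  exact if_congr ⟨key v u w hv.symm, key u v w hv⟩ rfl rfl

theorem main (hA : (G.adjMatrix ℝ).IsHermitian) (hdet : (G.adjMatrix ℝ).det ≠ 0) :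
    ((G.maxDegree + G.minDegree : ℕ) : ℝ) ≤ ∑ i, |hA.eigenvalues i| := by
  rcases isEmpty_or_nonempty V with hV | hV
  · simp
  set A := G.adjMatrix ℝ with hAdef
  have hA0 : ∀ i j, 0 ≤ A i j := fun i j => by
    simp only [hAdef, SimpleGraph.adjMatrix_apply]; split_ifs <;> norm_num
  have hs : ∀ i j, A i j = A j i := fun i j => by
    simp only [hAdef, SimpleGraph.adjMatrix_apply, G.adj_comm]
  obtain ⟨i0, -, hm⟩ := exists_max_image univ hA.eigenvalues univ_nonempty
  obtain ⟨y, hy, hY, hAy⟩ := perron hA hA0 i0 fun i => hm i (mem_univ i)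
  set l := hA.eigenvalues i0 with hl
  obtain ⟨N, hN⟩ : ∃ N, Fintype.card V = N + 1 := ⟨Fintype.card V - 1, by
    have := Fintype.card_pos (α := V); omega⟩
  have hrow : ∀ i, ∑ j, A i j = G.degree i := fun i => by
    simp [hAdef, SimpleGraph.adjMatrix_apply, ← SimpleGraph.card_neighborFinset_eq_degree,
      SimpleGraph.neighborFinset_eq_filter]
  have hδ : ∀ i, (G.minDegree : ℝ) ≤ G.degree i := fun i => by
    exact_mod_cast G.minDegree_le_degree i
  have p1 : ∑ i, (G.degree i : ℝ) * y i = l * ∑ i, y i := by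
    simpa [hrow] using pair hs y l hAy fun _ => 1
  have p2 := pair hs y l hAy fun i => G.degree i
  rw [p1] at p2
  set Y := ∑ i, y i with hYdef
  set δ := G.minDegree with hδdef
  set Δ := G.maxDegree with hΔdef
  set M : ℝ := ∑ i, (G.degree i : ℝ) with hM
  have a1 : (δ : ℝ) ≤ l := by
    refine le_of_mul_le_mul_right ?_ hY
    rw [← p1, hYdef, mul_sum]
    exact sum_le_sum fun i _ => mul_le_mul_of_nonneg_right (hδ i) (hy i)
  have a2 : l * l ≤ M - δ * N + (δ - 1) * l := by
    refine le_of_mul_le_mul_right ?_ hY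
    have h1 : ∀ i, ∑ j, A i j * G.degree j ≤ M - δ * N + (δ - 1) * G.degree i := by
      intro i
      have : ∑ j, A i j * G.degree j ≤ ∑ j, ((G.degree j : ℝ) - (if j = i then (G.degree j : ℝ)
          else 0) - δ * (1 - (if j = i then 1 else 0) - A i j)) := sum_le_sum fun j _ => by
        have := hδ j
        by_cases h : j = i
        · simp [h, hAdef]
        · by_cases h' : G.Adj i j <;> simp [h, h', hAdef, this]
      simp only [sum_sub_distrib, ← mul_sum, hrow, sum_ite_eq', mem_univ, if_true, sum_const,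
        card_univ, hN, nsmul_eq_mul] at this
      push_cast at this
      linarith
    calc l * l * Y = ∑ i, (∑ j, A i j * G.degree j) * y i := by rw [p2]; ring
      _ ≤ ∑ i, (M - δ * N + (δ - 1) * G.degree i) * y i :=
          sum_le_sum fun i _ => mul_le_mul_of_nonneg_right (h1 i) (hy i)
      _ = (M - δ * N) * Y + (δ - 1) * ∑ i, (G.degree i : ℝ) * y i := by
          rw [hYdef, mul_sum, mul_sum, ← sum_add_distrib]
          exact sum_congr rfl fun i _ => by ring
      _ = _ := by rw [p1]; ring
  have a3 : Δ = N → N + (δ - 1) * l ≤ l * l := by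
    intro hΔ
    obtain ⟨v, hv⟩ := G.exists_maximal_degree_vertex
    have hvN : G.degree v = N := hv.symm.trans hΔ
    have hadj : ∀ i, i ≠ v → G.Adj i v := by
      intro i hi
      by_contra hn
      have h1 : 0 < Gᶜ.degree v := (Gᶜ.degree_pos_iff_exists_adj v).2
        ⟨i, (G.compl_adj _ _).2 ⟨hi.symm, fun h => hn h.symm⟩⟩
      rw [SimpleGraph.degree_compl] at h1
      omega
    refine le_of_mul_le_mul_right ?_ hY
    have h1 : ∀ i, N + (δ - 1) * (G.degree i : ℝ) ≤ ∑ j, A i j * G.degree j := by
      intro i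
      have : ∑ j, (δ * A i j + if j = v then A i j * (N - δ) else 0) ≤
          ∑ j, A i j * G.degree j := sum_le_sum fun j _ => by
        by_cases h : j = v
        · subst h
          simp only [if_true, hvN]; linarith
        · simp only [h, if_false]
          nlinarith [hδ j, hA0 i j]
      simp only [sum_add_distrib, ← mul_sum, hrow, sum_ite_eq', mem_univ, if_true] at this
      by_cases h : i = v
      · subst h
        simp only [hAdef, SimpleGraph.adjMatrix_apply, G.irrefl, if_false, hvN] at this ⊢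
        linarith
      · simp only [hAdef, SimpleGraph.adjMatrix_apply, hadj i h, if_true] at this ⊢
        linarith [hδ i]
    calc (N + (δ - 1) * l) * Y = N * Y + (δ - 1) * ∑ i, (G.degree i : ℝ) * y i := by
          rw [p1]; ring
      _ = ∑ i, (N + (δ - 1) * (G.degree i : ℝ)) * y i := by
          rw [hYdef, mul_sum, mul_sum, ← sum_add_distrib]
          exact sum_congr rfl fun i _ => by ring
      _ ≤ ∑ i, (∑ j, A i j * G.degree j) * y i :=
          sum_le_sum fun i _ => mul_le_mul_of_nonneg_right (h1 i) (hy i)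
      _ = _ := by rw [p2]; ring
  have hδ1 : 1 ≤ δ := by
    by_contra h
    obtain ⟨u, hu⟩ := G.exists_minimal_degree_vertex
    have h0 : G.degree u = 0 := by omega
    refine hdet (det_eq_zero_of_row_eq_zero u fun j => ?_)
    have := (sum_eq_zero_iff_of_nonneg fun j _ => hA0 u j).1 (by rw [hrow, h0]; simp) j
      (mem_univ j)
    exact this
  have hδ1' : (1 : ℝ) ≤ δ := by exact_mod_cast hδ1
  have hΔN : Δ ≤ N := by
    have := G.maxDegree_lt_card_verts
    omega
  have hδΔ : δ ≤ Δ := G.minDegree_le_maxDegree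
  have htw := twins G hdet
  have tr1 : ∑ i ∈ univ.erase i0, hA.eigenvalues i = -l := by
    have h1 := hA.trace_eq_sum_eigenvalues
    have h2 : A.trace = 0 := by simp [hAdef]
    have h3 := add_sum_erase univ hA.eigenvalues (mem_univ i0)
    simp only [RCLike.ofReal_real_eq_id, id] at h1
    linarith
  have tr2 : ∑ i ∈ univ.erase i0, |hA.eigenvalues i| ^ 2 = M - l * l := by
    have h1 := sum_sq_eig hA
    have h2 : (A * A).trace = M := by
      simp only [hAdef, hM, trace, diag_apply, SimpleGraph.adjMatrix_mul_self_apply_self]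
    have h3 := add_sum_erase univ (fun i => hA.eigenvalues i ^ 2) (mem_univ i0)
    simp only [sq_abs]
    linarith
  have hE : ∑ i, |hA.eigenvalues i| = l + ∑ i ∈ univ.erase i0, |hA.eigenvalues i| := by
    rw [← add_sum_erase univ (fun i => |hA.eigenvalues i|) (mem_univ i0), abs_of_nonneg]
    linarith
  have fA : l ≤ ∑ i ∈ univ.erase i0, |hA.eigenvalues i| := by
    have := abs_sum_le_sum_abs hA.eigenvalues (univ.erase i0)
    rw [tr1, abs_neg] at this
    exact (le_abs_self l).trans this
  have hprod : A.det = ∏ i, hA.eigenvalues i := by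
    simpa using hA.det_eq_prod_eigenvalues
  have hne : ∀ i, hA.eigenvalues i ≠ 0 := fun i h =>
    hdet (by rw [hprod]; exact prod_eq_zero (mem_univ i) h)
  have hlog : 0 ≤ log l + ∑ i ∈ univ.erase i0, log |hA.eigenvalues i| := by
    have h1 : A.det = ((G.adjMatrix ℤ).det : ℝ) := by
      rw [Int.cast_det]
      congr 1
      ext i j
      simp [hAdef, SimpleGraph.adjMatrix_apply]
    have h2 : 1 ≤ |A.det| := by
      rw [h1] at hdet ⊢
      exact_mod_cast Int.one_le_abs (by exact_mod_cast hdet)
    have h3 := log_nonneg h2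
    rw [log_abs, hprod, log_prod fun i _ => hne i,
      ← add_sum_erase univ (fun i => log (hA.eigenvalues i)) (mem_univ i0)] at h3
    simpa only [log_abs] using h3
  rw [hE]
  by_contra hc
  have hc := not_le.1 hc
  push_cast at hc
  obtain ⟨j, hj⟩ := Nat.exists_eq_add_of_le hΔN
  obtain ⟨k, hk⟩ := Nat.exists_eq_add_of_le (hδΔ.trans hΔN)
  have hj' : (N : ℝ) = Δ + j := by exact_mod_cast hj
  have hk' : (N : ℝ) = δ + k := by exact_mod_cast hk
  have hj0 : (0 : ℝ) ≤ j := Nat.cast_nonneg j
  have hk2 : 2 ≤ k := by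
    by_contra h
    have h0 : k = 0 := by omega
    rw [h0] at hk'
    push_cast at hk'
    linarith
  have hk2' : (2 : ℝ) ≤ k := by exact_mod_cast hk2
  have hR : 0 ≤ ((δ : ℝ) - 1) * (k - (l - δ)) + 2 * (l - δ) + 2 * j := by
    have : 0 ≤ ((δ : ℝ) - 1) * (k - (l - δ)) := mul_nonneg (by linarith) (by linarith)
    linarith
  have f1 := fin δ k j (l - δ) _ hδ1 hk2 (by linarith) (by linarith) (sqrt_nonneg _) (sq_sqrt hR)
    (fun h => by
      have := a3 (by omega)
      nlinarith)
  have f2 := gl0 (univ.erase i0) (fun i => |hA.eigenvalues i|) (fun i _ => abs_pos.2 (hne i)) _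
    (sqrt_nonneg _) (by
      rw [sq_sqrt hR]
      simp only [sub_sq, sum_add_distrib, sum_sub_distrib, tr2, mul_one, ← mul_sum, one_pow,
        sum_const, card_erase_of_mem (mem_univ i0), card_univ, hN, Nat.add_sub_cancel,
        nsmul_eq_mul]
      nlinarith)
  simp only [sum_sub_distrib, sum_const, card_erase_of_mem (mem_univ i0), card_univ, hN,
    Nat.add_sub_cancel, nsmul_eq_mul, mul_one] at f2
  set s := √((δ - 1) * (k - (l - δ)) + 2 * (l - δ) + 2 * j : ℝ) with hsdef
  have hs0 : 0 ≤ s := sqrt_nonneg _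
  rw [add_sub_cancel, ← log_le_iff_le_exp (mul_pos (by linarith) (by linarith)),
    log_mul (by linarith) (by linarith)] at f1
  linarith

end Pool.Agent.H14.Energy
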