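import Mathlib

set_option autoImplicit false

namespace Pool.Agent.H14.Euler

open Finset

def sh (a : ℕ → ℝ) : ℕ → ℝ
  | 0 => 0
  | k + 1 => a k

def A : ℕ → ℕ → ℝ
  | 0 => fun k => if k = 0 then 1 else 0
  | n + 1 => fun k => (k + 1) * A n k + (n + 1 - k) * sh (A n) k

theorem A_succ (n k : ℕ) : A (n + 1) k = (k + 1) * A n k + (n + 1 - k) * sh (A n) k := rfl

theorem van : ∀ n k, n < k → A n k = 0
  | 0, k, h => by simp [A]; omega
  | n + 1, k + 1, h => by
    rw [A_succ, van n _ (by omega), sh, van n _ (by omega)]; simp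

theorem van' (n k : ℕ) (h : n < k) : A (n + 1) k = 0 := by
  obtain ⟨k, rfl⟩ : ∃ j, k = j + 1 := ⟨k - 1, by omega⟩
  rw [A_succ, van n _ h, sh]
  rcases (show n = k ∨ n < k by omega) with rfl | h
  · simp
  · simp [van n k h]

theorem nn : ∀ n k, 0 ≤ A n k
  | 0, k => by simp only [A]; split_ifs <;> norm_num
  | n + 1, 0 => by have := nn n 0; simp [A_succ, sh, this]
  | n + 1, k + 1 => by
    by_cases h : n < k + 1
    · rw [van' n _ h]
    · rw [A_succ, sh]
      have h1 := nn n k
      have h2 := nn n (k + 1)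
      have : ((k + 1 : ℕ) : ℝ) ≤ n := by exact_mod_cast not_lt.1 h
      have : (0 : ℝ) ≤ n + 1 - (k + 1 : ℕ) := by linarith
      positivity

theorem snn (n : ℕ) : ∀ k, 0 ≤ sh (A n) k
  | 0 => le_rfl
  | k + 1 => nn n k

theorem pos : ∀ n k, k < n ∨ k = 0 → 0 < A n k
  | 0, k, h => by simp [A, show k = 0 by omega]
  | n + 1, 0, _ => by have := pos n 0 (Or.inr rfl); simpa [A_succ, sh] using this
  | n + 1, k + 1, h => by
    rw [A_succ, sh]
    have h1 := pos n k (by omega)
    have h2 := nn n (k + 1)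
    have : ((k + 1 : ℕ) : ℝ) ≤ n := by exact_mod_cast (show k + 1 ≤ n by omega)
    have : (0 : ℝ) < n + 1 - (k + 1 : ℕ) := by linarith
    positivity

def LR (p q : ℕ → ℝ) : Prop := ∀ i j, j ≤ i → p i * q j ≤ p j * q i

theorem tp0 {p q α β : ℕ → ℝ} (h : LR p q) (ha : ∀ k, 0 ≤ α k) (hb : ∀ k, 0 ≤ β k) :
    LR (fun k => α k * p k + β k * sh p k) (fun k => α k * q k + β k * sh q k) := by
  intro i j hij
  rcases hij.eq_or_lt with rfl | hij
  · exact le_rfl
  obtain ⟨i, rfl⟩ : ∃ k, i = k + 1 := ⟨i - 1, by omega⟩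
  have e1 := mul_le_mul_of_nonneg_left (h (i + 1) j (by omega)) (mul_nonneg (ha (i + 1)) (ha j))
  have e2 := mul_le_mul_of_nonneg_left (h i j (by omega)) (mul_nonneg (hb (i + 1)) (ha j))
  rcases j with _ | j
  · simp only [sh]; linarith
  have e3 := mul_le_mul_of_nonneg_left (h (i + 1) j (by omega)) (mul_nonneg (ha (i + 1)) (hb (j + 1)))
  have e4 := mul_le_mul_of_nonneg_left (h i j (by omega)) (mul_nonneg (hb (i + 1)) (hb (j + 1)))
  simp only [sh]; linarith

theorem tp {p q α : ℕ → ℝ} (s : ℕ) (h : LR p q) (ha : ∀ k, 0 ≤ α k) (hp : ∀ k, s ≤ k → p k = 0)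
    (hq : ∀ k, s ≤ k → q k = 0) :
    LR (fun k => α k * p k + (s - k) * sh p k) (fun k => α k * q k + (s - k) * sh q k) := by
  have e : ∀ r : ℕ → ℝ, (∀ k, s ≤ k → r k = 0) → (fun k : ℕ => α k * r k + (s - k) * sh r k) =
      fun k : ℕ => α k * r k + ((s - k : ℕ) : ℝ) * sh r k := by
    intro r hr
    funext k
    by_cases hk : k ≤ s
    · rw [Nat.cast_sub hk]
    · obtain ⟨k, rfl⟩ : ∃ j, k = j + 1 := ⟨k - 1, by omega⟩
      simp [sh, hr k (by omega)]
  rw [e p hp, e q hq]
  exact tp0 h ha fun k => by positivity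

theorem lc {m : ℕ} (h1 : LR (A m) (A (m + 1))) (h2 : LR (A (m + 1)) (sh (A m))) :
    LR (A (m + 1)) (sh (A (m + 1))) := by
  intro i j hij
  rcases j with _ | j
  · simpa [sh] using mul_nonneg (nn _ _) (snn _ _)
  by_cases hi : m < i
  · rw [van' m i hi, zero_mul]; exact mul_nonneg (nn _ _) (snn _ _)
  obtain ⟨i, rfl⟩ : ∃ k, i = k + 1 := ⟨i - 1, by omega⟩
  have e1 := h1 i j (by omega)
  have e2 := h2 (i + 1) (j + 1) hij
  simp only [sh] at e2 ⊢
  have p1 := pos m i (by omega)
  have p2 := pos m j (by omega)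
  have := mul_le_mul e1 e2 (mul_nonneg (nn _ _) (nn _ _)) (mul_nonneg (nn _ _) (nn _ _))
  refine le_of_mul_le_mul_left ?_ (mul_pos p1 p2)
  linarith

def P (m k : ℕ) : ℝ := (m + 1 - k) * A (m + 1) k

theorem all (m : ℕ) : LR (A m) (A (m + 1)) ∧ LR (A (m + 1)) (sh (A m)) ∧ LR (A m) (P m) := by
  induction m with
  | zero =>
    have e : A 1 = A 0 := by
      funext k
      rcases k with _ | k
      · simp [A, sh]
      · rw [van' 0 _ (by omega), van 0 _ (by omega)]
    refine ⟨fun i j _ => by rw [zero_add, e, mul_comm], fun i j h => ?_, fun i j h => ?_⟩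
    · rcases i with _ | i
      · rw [Nat.le_zero.1 h]
      · rw [van' 0 _ (by omega), zero_mul]; exact mul_nonneg (nn _ _) (snn _ _)
    · rcases i with _ | i
      · rw [Nat.le_zero.1 h]
      · simp [P, van' 0 (i + 1), van 0 (i + 1)]
  | succ m ih =>
    obtain ⟨h1, h2, h3⟩ := ih
    have hc := lc h1 h2
    have a1 : ∀ k : ℕ, (0 : ℝ) ≤ k + 1 := fun k => by positivity
    have g1 : LR (A (m + 1)) (A (m + 1 + 1)) := by
      intro i j h
      have e1 := tp (m + 1) h1 a1 (van m) (van' m) i j h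
      have e2 := hc i j h
      push_cast at e1
      rw [← A_succ, ← A_succ] at e1
      rw [A_succ (m + 1), A_succ (m + 1)]
      push_cast
      linarith
    refine ⟨g1, fun i j h => ?_, fun i j h => ?_⟩
    · have e1 := tp (α := fun k => k) (m + 2) h2 (fun k => by positivity)
        (fun k hk => van' m k (by omega)) (fun k hk => by
          obtain ⟨k, rfl⟩ : ∃ j, k = j + 1 := ⟨k - 1, by omega⟩
          exact van m k (by omega)) i j h
      have e2 := hc i j h
      have e : ∀ k : ℕ, k * sh (A m) k + ((m + 2 : ℕ) - k) * sh (sh (A m)) k = sh (A (m + 1)) k := by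
        intro k
        rcases k with _ | k
        · simp [sh]
        · simp only [sh, A_succ]; push_cast; ring
      simp only [e] at e1
      rw [A_succ (m + 1), A_succ (m + 1)]
      push_cast at e1 ⊢
      linarith
    · have e1 := tp (m + 1) h3 a1 (van m) (fun k hk => by simp [P, van' m k hk]) i j h
      have e2 := g1 i j h
      have e : ∀ k : ℕ, (k + 1) * P m k + ((m + 1 : ℕ) - k) * sh (P m) k =
          P (m + 1) k - A (m + 1 + 1) k := by
        intro k
        rcases k with _ | k <;> simp only [sh, P, A_succ (m + 1)] <;> push_cast <;> ring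
      simp only [e] at e1
      push_cast at e1
      rw [← A_succ, ← A_succ] at e1
      linarith

theorem shift (a f : ℕ → ℝ) (N : ℕ) (h : a N = 0) :
    ∑ j ∈ range (N + 1), sh a j * f j = ∑ j ∈ range (N + 1), a j * f (j + 1) := by
  rw [sum_range_succ', sum_range_succ]; simp [sh, h]

theorem step (n N : ℕ) (h : n < N) (x : ℕ → ℝ) : ∑ k ∈ range (N + 1), A (n + 1) k * x k =
    ∑ k ∈ range (N + 1), A n k * ((k + 1) * x k + (n - k) * x (k + 1)) := by
  have := shift (A n) (fun k => (n + 1 - k) * x k) N (van n N h)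
  simp only [mul_add, sum_add_distrib, A_succ, add_mul _ (_ * sh _ _)]
  congr 1
  · exact sum_congr rfl fun k _ => by ring
  · refine Eq.trans (sum_congr rfl fun k _ => by ring) (this.trans (sum_congr rfl fun k _ => ?_))
    push_cast; ring

theorem ext (n N : ℕ) (h : n ≤ N) (x : ℕ → ℝ) :
    ∑ k ∈ range (n + 1), A n k * x k = ∑ k ∈ range (N + 1), A n k * x k :=
  sum_subset (by simpa using h) fun k _ hk => by rw [van n k (by simpa using hk), zero_mul]

theorem symm (S : Finset ℕ) (t : ℕ → ℕ → ℝ) (h : ∀ i j, j ≤ i → 0 ≤ t i j + t j i) :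
    0 ≤ ∑ i ∈ S, ∑ j ∈ S, t i j := by
  have : 0 ≤ ∑ i ∈ S, ∑ j ∈ S, (t i j + t j i) :=
    sum_nonneg fun i _ => sum_nonneg fun j _ => by
      rcases le_total j i with e | e
      · exact h i j e
      · rw [add_comm]; exact h j i e
  simp only [sum_add_distrib] at this
  rw [sum_comm (f := fun i j => t j i)] at this
  linarith

theorem main (x : ℕ → ℝ) (h0 : ∀ n, 0 ≤ x n) (hx : ∀ k, x (k + 1) ^ 2 ≤ x k * x (k + 2)) (m : ℕ) :
    (∑ k ∈ range (m + 2 + 1), A (m + 1) k * x k) ^ 2 ≤
      (∑ k ∈ range (m + 2 + 1), A m k * x k) * ∑ k ∈ range (m + 2 + 1), A (m + 2) k * x k := by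
  have Y : ∀ i j, j ≤ i → x i * x (j + 1) ≤ x (i + 1) * x j := by
    intro i j h
    induction i, h using Nat.le_induction with
    | base => rw [mul_comm]
    | succ i _ ih =>
      rcases (h0 (i + 1)).eq_or_lt with e | e
      · rw [← e, zero_mul]; exact mul_nonneg (h0 _) (h0 _)
      · refine le_of_mul_le_mul_left ?_ e
        have e1 := mul_le_mul_of_nonneg_right (hx i) (h0 (j + 1))
        have e2 := mul_le_mul_of_nonneg_right ih (h0 (i + 2))
        linarith
  obtain ⟨h1, h2, h3⟩ := all m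
  have s1 := symm (range (m + 2 + 1)) (fun i j => P m i * A m j * (x (i + 1) * x j - x i * x (j + 1)))
    fun i j h => by
      have := mul_nonneg (sub_nonneg.2 (h3 i j h)) (sub_nonneg.2 (Y i j h))
      linarith
  have s2 := symm (range (m + 2 + 1))
    (fun i j => (i - j) * A (m + 1) i * (A m j - sh (A m) j) * (x i * x j)) fun i j h => by
      have e : (0 : ℝ) ≤ i - j := sub_nonneg.2 (by exact_mod_cast h)
      have := mul_nonneg (mul_nonneg e (mul_nonneg (h0 i) (h0 j)))
        (add_nonneg (sub_nonneg.2 (h1 i j h)) (sub_nonneg.2 (h2 i j h)))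
      linarith
  rw [step (m + 1) _ (by omega), sq, mul_comm (∑ k ∈ _, A m k * x k)]
  nth_rewrite 2 [step m _ (by omega)]
  rw [sum_mul_sum, sum_mul_sum, ← sub_nonneg, ← sum_sub_distrib]
  refine (add_nonneg s1 s2).trans_eq ?_
  rw [← sum_add_distrib]
  refine sum_congr rfl fun i _ => ?_
  have := shift (A m) (fun j => (i - j) * A (m + 1) i * (x i * x j)) (m + 2) (van m _ (by omega))
  have e : ∑ j ∈ range (m + 2 + 1), (i - j) * A (m + 1) i * (A m j - sh (A m) j) * (x i * x j) =
      ∑ j ∈ range (m + 2 + 1), (i - j) * A (m + 1) i * A m j * (x i * x j) -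
      ∑ j ∈ range (m + 2 + 1), sh (A m) j * ((i - j) * A (m + 1) i * (x i * x j)) := by
    rw [← sum_sub_distrib]; exact sum_congr rfl fun j _ => by ring
  rw [e, this, ← sum_sub_distrib, ← sum_sub_distrib, ← sum_add_distrib]
  refine sum_congr rfl fun j _ => ?_
  simp only [P]; push_cast; ring

end Pool.Agent.H14.Euler
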