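import Mathlib
import Pool.Agent.H14.Euler

set_option autoImplicit false

namespace Pool.Agent.H14.Euler

open Finset

def des (n : ℕ) (f : ℕ → ℕ) : ℕ := ∑ i ∈ range n, if i + 1 < n ∧ f (i + 1) < f i then 1 else 0

theorem des_ins (p r : ℕ) (f g : ℕ → ℕ) (hf : ∀ i < p + r, f i < g p) (h1 : ∀ i < p, g i = f i)
    (h2 : ∀ i < p + r, p ≤ i → g (i + 1) = f i) :
    des (p + r + 1) g + (if 0 < p ∧ 0 < r ∧ f p < f (p - 1) then 1 else 0) =
      des (p + r) f + if 0 < r then 1 else 0 := by
  unfold des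
  rw [show range (p + r + 1) = range (p + (r + 1)) from rfl, sum_range_add, sum_range_succ' _ r,
    sum_range_add _ p r]
  have e1 : ∑ j ∈ range r, (if p + (j + 1) + 1 < p + r + 1 ∧ g (p + (j + 1) + 1) < g (p + (j + 1))
      then 1 else 0) = ∑ j ∈ range r, if p + j + 1 < p + r ∧ f (p + j + 1) < f (p + j) then 1 else 0 := by
    refine sum_congr rfl fun j hj => if_congr ?_ rfl rfl
    have := mem_range.1 hj
    refine and_congr_right_iff.2 (fun h => ?_) |>.trans (and_congr_left fun _ => by omega)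
    rw [h2 _ (by omega) (by omega), ← add_assoc, h2 _ (by omega) (by omega)]
  have e2 : (if p + 0 + 1 < p + r + 1 ∧ g (p + 0 + 1) < g (p + 0) then 1 else 0) =
      if 0 < r then 1 else 0 := by
    refine if_congr ⟨fun h => by omega, fun h => ⟨by omega, ?_⟩⟩ rfl rfl
    rw [add_zero, h2 _ (by omega) le_rfl]; exact hf _ (by omega)
  rw [e1, e2]
  rcases p with _ | p
  · simp
  have e3 : ∑ i ∈ range p, (if i + 1 < p + 1 + r + 1 ∧ g (i + 1) < g i then 1 else 0) =
      ∑ i ∈ range p, if i + 1 < p + 1 + r ∧ f (i + 1) < f i then 1 else 0 := by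
    refine sum_congr rfl fun j hj => if_congr ?_ rfl rfl
    have := mem_range.1 hj
    rw [h1 _ (by omega), h1 _ (by omega)]
    exact and_congr_left fun _ => by omega
  have e4 : ¬ (p + 1 < p + 1 + r + 1 ∧ g (p + 1) < g p) := by
    rw [h1 p (by omega)]; have := hf p (by omega); omega
  rw [sum_range_succ, sum_range_succ _ p, e3, if_neg e4]
  have e5 : (0 < p + 1 ∧ 0 < r ∧ f (p + 1) < f (p + 1 - 1)) ↔ (p + 1 < p + 1 + r ∧ f (p + 1) < f p) := by
    simp
  simp only [e5]
  omega

def ex {n : ℕ} (σ : Equiv.Perm (Fin n)) (i : ℕ) : ℕ := if h : i < n then σ ⟨i, h⟩ else 0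

def ins {n : ℕ} (q : Fin (n + 1) × Equiv.Perm (Fin n)) : Equiv.Perm (Fin (n + 1)) :=
  (finSuccEquiv' q.1).trans (q.2.optionCongr.trans (finSuccEquiv' (Fin.last n)).symm)

theorem ins_at {n : ℕ} (p : Fin (n + 1)) (τ : Equiv.Perm (Fin n)) : ins (p, τ) p = Fin.last n := by
  simp [ins]

theorem ins_ne {n : ℕ} (p : Fin (n + 1)) (τ : Equiv.Perm (Fin n)) (i : Fin n) :
    ins (p, τ) (p.succAbove i) = (τ i).castSucc := by
  simp [ins]

theorem ins_bij {n : ℕ} : Function.Bijective (ins (n := n)) := by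
  rw [Fintype.bijective_iff_injective_and_card]
  refine ⟨?_, by simp [Fintype.card_perm, Nat.factorial_succ]⟩
  rintro ⟨p, τ⟩ ⟨p', τ'⟩ h
  obtain rfl : p = p' := (ins (p, τ)).injective (by rw [ins_at, h, ins_at])
  refine Prod.ext rfl (Equiv.ext fun i => Fin.castSucc_injective _ ?_)
  rw [← ins_ne p, ← ins_ne p, h]

theorem sum_ins {n : ℕ} (τ : Equiv.Perm (Fin n)) (x : ℕ → ℝ) :
    ∑ p : Fin (n + 1), x (des (n + 1) (ex (ins (p, τ)))) =
      (des n (ex τ) + 1) * x (des n (ex τ)) + (n - des n (ex τ)) * x (des n (ex τ) + 1) := by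
  set d := des n (ex τ) with hd
  let c : ℕ → Prop := fun p => p = n ∨ (0 < p ∧ p < n ∧ ex τ p < ex τ (p - 1))
  have key : ∀ p : Fin (n + 1), x (des (n + 1) (ex (ins (p, τ)))) =
      x (d + 1) + (if c p then 1 else 0 : ℕ) * (x d - x (d + 1)) := by
    intro p
    obtain ⟨r, hr⟩ : ∃ r, n = p + r := ⟨n - p, by omega⟩
    have := des_ins p r (ex τ) (ex (ins (p, τ))) (fun i hi => ?_) (fun i hi => ?_) (fun i hi hp => ?_)
    · rw [← hr, ← hd] at this
      by_cases hc : c p
      · have : des (n + 1) (ex (ins (p, τ))) = d := by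
          simp only [c] at hc; split_ifs at this <;> omega
        simp [this, hc]
      · have : des (n + 1) (ex (ins (p, τ))) = d + 1 := by
          simp only [c] at hc; split_ifs at this <;> omega
        simp [this, hc]
    · simp [ex, p.2, ins_at, show i < n by omega]
    · have := ins_ne p τ ⟨i, by omega⟩
      rw [Fin.succAbove_of_castSucc_lt _ _ hi] at this
      simp only [ex, show i < n by omega, show i < n + 1 by omega, dif_pos]
      exact congrArg Fin.val this
    · have := ins_ne p τ ⟨i, by omega⟩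
      rw [Fin.succAbove_of_le_castSucc _ _ hp] at this
      simp only [ex, show i < n by omega, show i + 1 < n + 1 by omega, dif_pos]
      exact congrArg Fin.val this
  have cnt : ∑ p : Fin (n + 1), (if c p then 1 else 0 : ℕ) = d + 1 := by
    rw [Fin.sum_univ_eq_sum_range (fun p => if c p then 1 else 0), hd, des]
    rcases n with _ | n
    · simp [c]
    rw [sum_range_succ, sum_range_succ', sum_range_succ]
    simp only [c]
    congr 1
    · congr 1
      · refine sum_congr rfl fun i hi => if_congr ?_ rfl rfl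
        have := mem_range.1 hi
        simp; omega
      · simp
  simp only [key, sum_add_distrib, ← sum_mul, ← Nat.cast_sum, cnt]
  simp; ring

theorem sum_perm : ∀ (n : ℕ) (x : ℕ → ℝ),
    ∑ σ : Equiv.Perm (Fin n), x (des n (ex σ)) = ∑ k ∈ range (n + 1), A n k * x k
  | 0, x => by simp [des, A]
  | n + 1, x => by
    rw [← ins_bij.sum_comp, Fintype.sum_prod_type_right]
    simp only [sum_ins]
    rw [sum_perm n fun k => (k + 1) * x k + (n - k) * x (k + 1), step n _ (by omega),
      ext n (n + 1) (by omega)]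

theorem des_eq {n : ℕ} (σ : Equiv.Perm (Fin n)) : ((univ : Finset (Fin n × Fin n)).filter
    (fun p => p.2.val = p.1.val + 1 ∧ σ p.2 < σ p.1)).card = des n (ex σ) := by
  rw [des, ← card_filter]
  refine card_bij (fun p _ => p.1.val) ?_ ?_ ?_
  · rintro ⟨a, b⟩ h
    obtain ⟨h1, h2⟩ := (mem_filter.1 h).2
    have := b.2
    simp only at h1 h2
    simp only [mem_filter, mem_range, a.2, ex, ← h1, b.2, dif_pos, true_and]
    exact h2
  · rintro ⟨a, b⟩ h ⟨a', b'⟩ h' e
    have h1 := (mem_filter.1 h).2.1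
    have h2 := (mem_filter.1 h').2.1
    simp only at h1 h2 e
    exact Prod.ext (Fin.ext e) (Fin.ext (by simp only; omega))
  · intro i hi
    obtain ⟨h1, h2, h3⟩ := mem_filter.1 hi
    have h1 := mem_range.1 h1
    simp only [ex, h1, h2, dif_pos] at h3
    exact ⟨(⟨i, h1⟩, ⟨i + 1, h2⟩), mem_filter.2 ⟨mem_univ _, rfl, h3⟩, rfl⟩

theorem des_le (n : ℕ) (f : ℕ → ℕ) : des n f ≤ n := by
  rw [des, ← card_filter]; exact (card_filter_le _ _).trans (card_range n).le

end Pool.Agent.H14.Euler
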