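import Mathlib

set_option autoImplicit false

namespace Pool.Agent.H14.EulerBDefs

open Finset

/-- The signed permutation with `w (i+1) = ± (σ i + 1)` (minus iff `ε i`), and `w 0 = 0`. -/
def w {n : ℕ} (σ : Equiv.Perm (Fin n)) (ε : Fin n → Bool) : Fin (n + 1) → ℤ :=
  Fin.cons 0 fun i => if ε i then -((σ i : ℤ) + 1) else (σ i : ℤ) + 1

/-- The number of type B descents. -/
def desB {n : ℕ} (σ : Equiv.Perm (Fin n)) (ε : Fin n → Bool) : ℕ :=
  (univ.filter fun i : Fin n => w σ ε i.succ < w σ ε i.castSucc).card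

/-- The type B Eulerian numbers. -/
def B (n k : ℕ) : ℕ :=
  (univ.filter fun q : Equiv.Perm (Fin n) × (Fin n → Bool) => desB q.1 q.2 = k).card

end Pool.Agent.H14.EulerBDefs
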