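import Mathlib
import Pool.Agent.H14.Euler2
import Pool.Agent.H14.EulerBDefs

set_option autoImplicit false

namespace Pool.Agent.H14.EulerB

open Finset Pool.Agent.H14.Euler Pool.Agent.H14.EulerBDefs

def C : ℕ → ℕ → ℝ
  | 0 => fun k => if k = 0 then 1 else 0
  | n + 1 => fun k => (2 * k + 1) * C n k + (2 * n + 3 - 2 * k) * sh (C n) k

theorem C_succ (n k : ℕ) : C (n + 1) k = (2 * k + 1) * C n k + (2 * n + 3 - 2 * k) * sh (C n) k := rfl

theorem van : ∀ n k, n < k → C n k = 0
  | 0, k, h => by simp [C]; omega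
  | n + 1, k + 1, h => by
    rw [C_succ, van n _ (by omega), sh, van n _ (by omega)]; simp

theorem pos : ∀ n k, k ≤ n → 0 < C n k
  | 0, k, h => by simp [C, show k = 0 by omega]
  | n + 1, 0, _ => by have := pos n 0 (by omega); simpa [C_succ, sh] using this
  | n + 1, k + 1, h => by
    rw [C_succ, sh]
    have h1 := pos n k (by omega)
    have h2 : 0 ≤ C n (k + 1) := by
      rcases (show k + 1 ≤ n ∨ n < k + 1 by omega) with e | e
      · exact (pos n _ e).le
      · rw [van n _ e]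
    have : ((k + 1 : ℕ) : ℝ) ≤ n + 1 := by exact_mod_cast h
    have : (0 : ℝ) < 2 * n + 3 - 2 * (k + 1 : ℕ) := by linarith
    positivity

theorem nn (n k : ℕ) : 0 ≤ C n k := by
  rcases le_or_gt k n with e | e
  · exact (pos n _ e).le
  · rw [van n _ e]

theorem snn (n : ℕ) : ∀ k, 0 ≤ sh (C n) k
  | 0 => le_rfl
  | k + 1 => nn n k

theorem tp {p q : ℕ → ℝ} (h : LR p q) (α β : ℕ → ℝ) (i j : ℕ) (hij : j ≤ i) (h1 : 0 ≤ α i)
    (h2 : 0 ≤ α j) (h3 : 0 ≤ β i) (h4 : 0 ≤ β j) :
    (α i * p i + β i * sh p i) * (α j * q j + β j * sh q j) ≤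
      (α j * p j + β j * sh p j) * (α i * q i + β i * sh q i) := by
  have := tp0 (α := fun k => max (α k) 0) (β := fun k => max (β k) 0) h (fun _ => le_max_right _ _)
    (fun _ => le_max_right _ _) i j hij
  simpa only [max_eq_left, h1, h2, h3, h4] using this

theorem lc {m : ℕ} (h1 : LR (C m) (C (m + 1))) (h2 : LR (C (m + 1)) (sh (C m))) :
    LR (C (m + 1)) (sh (C (m + 1))) := by
  intro i j hij
  rcases j with _ | j
  · simpa [sh] using mul_nonneg (nn _ _) (snn _ _)
  by_cases hi : m + 1 < i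
  · rw [van _ i hi, zero_mul]; exact mul_nonneg (nn _ _) (snn _ _)
  obtain ⟨i, rfl⟩ : ∃ k, i = k + 1 := ⟨i - 1, by omega⟩
  have e1 := h1 i j (by omega)
  have e2 := h2 (i + 1) (j + 1) hij
  simp only [sh] at e2 ⊢
  have p1 := pos m i (by omega)
  have p2 := pos m j (by omega)
  have := mul_le_mul e1 e2 (mul_nonneg (nn _ _) (nn _ _)) (mul_nonneg (nn _ _) (nn _ _))
  refine le_of_mul_le_mul_left ?_ (mul_pos p1 p2)
  linarith

def P (m k : ℕ) : ℝ := (2 * m + 3 - 2 * k) * C (m + 1) k

theorem bn {m k : ℕ} (h : k ≤ m + 1) : (0 : ℝ) ≤ 2 * m + 3 - 2 * k := by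
  have : (k : ℝ) ≤ m + 1 := by exact_mod_cast h
  linarith

theorem Pnn (m k : ℕ) : 0 ≤ P m k := by
  rcases le_or_gt k (m + 1) with e | e
  · exact mul_nonneg (bn e) (nn _ _)
  · simp [P, van _ _ e]

theorem all (m : ℕ) : LR (C m) (C (m + 1)) ∧ LR (C (m + 1)) (sh (C m)) ∧ LR (C m) (P m) := by
  induction m with
  | zero =>
    refine ⟨fun i j h => ?_, fun i j h => ?_, fun i j h => ?_⟩
    · rcases i with _ | i
      · rw [Nat.le_zero.1 h]
      · rw [van 0 _ (by omega), zero_mul]; exact mul_nonneg (nn _ _) (nn _ _)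
    · rcases j with _ | j
      · simpa [sh] using mul_nonneg (nn _ _) (snn _ _)
      rcases h.eq_or_lt with rfl | h
      · exact le_rfl
      · rw [van 1 i (by omega), zero_mul]; exact mul_nonneg (nn _ _) (snn _ _)
    · rcases i with _ | i
      · rw [Nat.le_zero.1 h]
      · rw [van 0 _ (by omega), zero_mul]; exact mul_nonneg (nn _ _) (Pnn _ _)
  | succ m ih =>
    obtain ⟨h1, h2, h3⟩ := ih
    have hc := lc h1 h2
    have g1 : LR (C (m + 1)) (C (m + 1 + 1)) := by
      intro i j h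
      by_cases hi : m + 1 < i
      · rw [van _ i hi, zero_mul]; exact mul_nonneg (nn _ _) (nn _ _)
      have e1 := tp h1 (fun k => 2 * k + 1) (fun k => 2 * m + 3 - 2 * k) i j h (by positivity)
        (by positivity) (bn (by omega)) (bn (by omega))
      have e2 := hc i j h
      rw [← C_succ, ← C_succ] at e1
      rw [C_succ (m + 1), C_succ (m + 1)]
      push_cast
      linarith
    refine ⟨g1, fun i j h => ?_, fun i j h => ?_⟩
    · rcases j with _ | j
      · simpa [sh] using mul_nonneg (nn _ _) (snn _ _)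
      by_cases hi : m + 1 + 1 < i
      · rw [van _ i hi, zero_mul]; exact mul_nonneg (nn _ _) (snn _ _)
      obtain ⟨i, rfl⟩ : ∃ k, i = k + 1 := ⟨i - 1, by omega⟩
      have e1 := tp h2 (fun k => 2 * k - 1) (fun k => 2 * (m + 1 : ℕ) + 3 - 2 * k) (i + 1) (j + 1) h
        (by push_cast; linarith [(Nat.cast_nonneg i : (0 : ℝ) ≤ i)])
        (by push_cast; linarith [(Nat.cast_nonneg j : (0 : ℝ) ≤ j)]) (bn (by omega)) (bn (by omega))
      have e2 := hc (i + 1) (j + 1) h
      have e : ∀ k : ℕ, (2 * (k + 1 : ℕ) - 1) * sh (C m) (k + 1) +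
          (2 * (m + 1 : ℕ) + 3 - 2 * (k + 1 : ℕ)) * sh (sh (C m)) (k + 1) = sh (C (m + 1)) (k + 1) := by
        intro k
        simp only [sh, C_succ]; push_cast; ring
      simp only [e] at e1
      rw [C_succ (m + 1), C_succ (m + 1)]
      linarith
    · by_cases hi : m + 1 < i
      · rw [van _ i hi, zero_mul]; exact mul_nonneg (nn _ _) (Pnn _ _)
      have e1 := tp h3 (fun k => 2 * k + 1) (fun k => 2 * m + 3 - 2 * k) i j h (by positivity)
        (by positivity) (bn (by omega)) (bn (by omega))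
      have e2 := g1 i j h
      have e : ∀ k : ℕ, (2 * k + 1) * P m k + (2 * m + 3 - 2 * k) * sh (P m) k =
          P (m + 1) k - 2 * C (m + 1 + 1) k := by
        intro k
        rcases k with _ | k <;> simp only [sh, P, C_succ (m + 1)] <;> push_cast <;> ring
      simp only [e] at e1
      rw [← C_succ, ← C_succ] at e1
      linarith

theorem step (n N : ℕ) (h : n < N) (x : ℕ → ℝ) : ∑ k ∈ range (N + 1), C (n + 1) k * x k =
    ∑ k ∈ range (N + 1), C n k * ((2 * k + 1) * x k + (2 * n + 1 - 2 * k) * x (k + 1)) := by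
  have := shift (C n) (fun k => (2 * n + 3 - 2 * k) * x k) N (van n N h)
  simp only [mul_add, sum_add_distrib, C_succ, add_mul _ (_ * sh _ _)]
  congr 1
  · exact sum_congr rfl fun k _ => by ring
  · refine Eq.trans (sum_congr rfl fun k _ => by ring) (this.trans (sum_congr rfl fun k _ => ?_))
    push_cast; ring

theorem ext (n N : ℕ) (h : n ≤ N) (x : ℕ → ℝ) :
    ∑ k ∈ range (n + 1), C n k * x k = ∑ k ∈ range (N + 1), C n k * x k :=
  sum_subset (by simpa using h) fun k _ hk => by rw [van n k (by simpa using hk), zero_mul]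

theorem main (x : ℕ → ℝ) (h0 : ∀ n, 0 ≤ x n) (hx : ∀ k, x (k + 1) ^ 2 ≤ x k * x (k + 2)) (m : ℕ) :
    (∑ k ∈ range (m + 2 + 1), C (m + 1) k * x k) ^ 2 ≤
      (∑ k ∈ range (m + 2 + 1), C m k * x k) * ∑ k ∈ range (m + 2 + 1), C (m + 2) k * x k := by
  have Y : ∀ i j, j ≤ i → x i * x (j + 1) ≤ x (i + 1) * x j := by
    intro i j h
    induction i, h using Nat.le_induction with
    | base => rw [mul_comm]
    | succ i _ ih =>
      rcases (h0 (i + 1)).eq_or_lt with e | e
      · rw [← e, zero_mul]; exact mul_nonneg (h0 _) (h0 _)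
      · refine le_of_mul_le_mul_left ?_ e
        have e1 := mul_le_mul_of_nonneg_right (hx i) (h0 (j + 1))
        have e2 := mul_le_mul_of_nonneg_right ih (h0 (i + 2))
        linarith
  obtain ⟨h1, h2, h3⟩ := all m
  have s1 := symm (range (m + 2 + 1)) (fun i j => P m i * C m j * (x (i + 1) * x j - x i * x (j + 1)))
    fun i j h => by
      have := mul_nonneg (sub_nonneg.2 (h3 i j h)) (sub_nonneg.2 (Y i j h))
      linarith
  have s2 := symm (range (m + 2 + 1))
    (fun i j => 2 * (i - j) * C (m + 1) i * (C m j - sh (C m) j) * (x i * x j)) fun i j h => by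
      have e : (0 : ℝ) ≤ i - j := sub_nonneg.2 (by exact_mod_cast h)
      have := mul_nonneg (mul_nonneg e (mul_nonneg (h0 i) (h0 j)))
        (add_nonneg (sub_nonneg.2 (h1 i j h)) (sub_nonneg.2 (h2 i j h)))
      linarith
  rw [step (m + 1) _ (by omega), sq, mul_comm (∑ k ∈ _, C m k * x k)]
  nth_rewrite 2 [step m _ (by omega)]
  rw [sum_mul_sum, sum_mul_sum, ← sub_nonneg, ← sum_sub_distrib]
  refine (add_nonneg s1 s2).trans_eq ?_
  rw [← sum_add_distrib]
  refine sum_congr rfl fun i _ => ?_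
  have := shift (C m) (fun j => 2 * (i - j) * C (m + 1) i * (x i * x j)) (m + 2) (van m _ (by omega))
  have e : ∑ j ∈ range (m + 2 + 1), 2 * (i - j) * C (m + 1) i * (C m j - sh (C m) j) * (x i * x j) =
      ∑ j ∈ range (m + 2 + 1), 2 * (i - j) * C (m + 1) i * C m j * (x i * x j) -
      ∑ j ∈ range (m + 2 + 1), sh (C m) j * (2 * (i - j) * C (m + 1) i * (x i * x j)) := by
    rw [← sum_sub_distrib]; exact sum_congr rfl fun j _ => by ring
  rw [e, this, ← sum_sub_distrib, ← sum_sub_distrib, ← sum_add_distrib]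
  refine sum_congr rfl fun j _ => ?_
  simp only [P]; push_cast; ring

end Pool.Agent.H14.EulerB
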