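import Mathlib
import Pool.Agent.H14.EulerB

set_option autoImplicit false

namespace Pool.Agent.H14.EulerB

open Finset Pool.Agent.H14.Euler Pool.Agent.H14.EulerBDefs

def dz (n : ℕ) (f : ℕ → ℤ) : ℕ := ∑ i ∈ range n, if f (i + 1) < f i then 1 else 0

theorem dz_ins (p r : ℕ) (f g : ℕ → ℤ) (h1 : ∀ i ≤ p, g i = f i)
    (h2 : ∀ i ≤ p + r, p < i → g (i + 1) = f i) :
    dz (p + r + 1) g + (if 0 < r ∧ f (p + 1) < f p then 1 else 0) =
      dz (p + r) f + (if g (p + 1) < f p then 1 else 0) + if 0 < r ∧ f (p + 1) < g (p + 1) then 1 else 0 := by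
  unfold dz
  rw [show range (p + r + 1) = range (p + (r + 1)) from rfl, sum_range_add, sum_range_succ' _ r,
    sum_range_add _ p r, add_zero, h1 p le_rfl]
  have e3 : ∑ i ∈ range p, (if g (i + 1) < g i then 1 else 0) =
      ∑ i ∈ range p, if f (i + 1) < f i then 1 else 0 := by
    refine sum_congr rfl fun j hj => ?_
    have := mem_range.1 hj
    rw [h1 _ (by omega), h1 _ (by omega)]
  rw [e3]
  rcases r with _ | r
  · simp
  have e1 : ∑ j ∈ range r, (if g (p + (j + 1 + 1) + 1) < g (p + (j + 1 + 1)) then 1 else 0) =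
      ∑ j ∈ range r, if f (p + (j + 1) + 1) < f (p + (j + 1)) then 1 else 0 := by
    refine sum_congr rfl fun j hj => ?_
    have := mem_range.1 hj
    rw [h2 _ (by omega) (by omega), ← add_assoc p (j + 1), h2 _ (by omega) (by omega)]
  rw [sum_range_succ' _ r, sum_range_succ' _ r, e1, zero_add, add_zero, h2 _ (by omega) (by omega)]
  simp only [Nat.succ_pos, true_and]
  omega

def ez {n : ℕ} (σ : Equiv.Perm (Fin n)) (ε : Fin n → Bool) : ℕ → ℤ
  | 0 => 0
  | i + 1 => if h : i < n then (if ε ⟨i, h⟩ then -((σ ⟨i, h⟩ : ℤ) + 1) else (σ ⟨i, h⟩ : ℤ) + 1) else 0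

theorem ez_bd {n : ℕ} (σ : Equiv.Perm (Fin n)) (ε : Fin n → Bool) :
    ∀ i, -((n : ℤ) + 1) < ez σ ε i ∧ ez σ ε i < n + 1
  | 0 => by simp only [ez]; omega
  | i + 1 => by
    simp only [ez]
    split_ifs with h <;> first | omega | (have := (σ ⟨i, h⟩).2; omega)

theorem des_eq {n : ℕ} (σ : Equiv.Perm (Fin n)) (ε : Fin n → Bool) : desB σ ε = dz n (ez σ ε) := by
  have e : ∀ i : Fin (n + 1), w σ ε i = ez σ ε i := fun i => by
    refine Fin.cases rfl (fun i => ?_) i
    simp [w, ez]
  rw [desB, card_filter, dz, ← Fin.sum_univ_eq_sum_range fun i => if ez σ ε (i + 1) < ez σ ε i then 1 else 0]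
  simp [e]

theorem sum_ins {n : ℕ} (τ : Equiv.Perm (Fin n)) (ε : Fin n → Bool) (x : ℕ → ℝ) :
    ∑ p : Fin (n + 1), ∑ s : Bool, x (dz (n + 1) (ez (ins (p, τ)) (p.insertNth s ε))) =
      (2 * dz n (ez τ ε) + 1) * x (dz n (ez τ ε)) +
        (2 * n + 1 - 2 * dz n (ez τ ε)) * x (dz n (ez τ ε) + 1) := by
  set d := dz n (ez τ ε) with hd
  let c : ℕ → Prop := fun p => p < n ∧ ez τ ε (p + 1) < ez τ ε p
  have key : ∀ p : Fin (n + 1), ∑ s : Bool, x (dz (n + 1) (ez (ins (p, τ)) (p.insertNth s ε))) =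
      2 * x (d + 1) + ((if c p then 2 else 0) + if (p : ℕ) = n then 1 else 0 : ℕ) * (x d - x (d + 1)) := by
    intro p
    obtain ⟨r, hr⟩ : ∃ r, n = p + r := ⟨n - p, by omega⟩
    have k : ∀ s : Bool, _ := fun s => dz_ins p r (ez τ ε) (ez (ins (p, τ)) (p.insertNth s ε))
      (fun i hi => by
        rcases i with _ | i
        · rfl
        have e := Fin.succAbove_of_castSucc_lt p ⟨i, by omega⟩ hi
        have e1 := ins_ne p τ ⟨i, by omega⟩
        have e2 := Fin.insertNth_apply_succAbove (α := fun _ => Bool) p s ε ⟨i, by omega⟩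
        rw [e] at e1 e2
        simp only [ez, show i < n by omega, show i < n + 1 by omega, dif_pos]
        simp only [Fin.castSucc_mk] at e1 e2
        rw [e1, e2]; rfl)
      (fun i hi hp => by
        obtain ⟨i, rfl⟩ : ∃ k, i = k + 1 := ⟨i - 1, by omega⟩
        have e := Fin.succAbove_of_le_castSucc p ⟨i, by omega⟩ (Nat.le_of_lt_succ hp)
        have e1 := ins_ne p τ ⟨i, by omega⟩
        have e2 := Fin.insertNth_apply_succAbove (α := fun _ => Bool) p s ε ⟨i, by omega⟩
        rw [e] at e1 e2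
        simp only [ez, show i < n by omega, show i + 1 < n + 1 by omega, dif_pos]
        simp only [Fin.succ_mk] at e1 e2
        rw [e1, e2]; rfl)
    have kt := k true
    have kf := k false
    have b1 := ez_bd τ ε p
    have b2 := ez_bd τ ε (p + 1)
    have vt : ez (ins (p, τ)) (p.insertNth true ε) (p + 1) = -((n : ℤ) + 1) := by simp [ez, p.2, ins_at]
    have vf : ez (ins (p, τ)) (p.insertNth false ε) (p + 1) = (n : ℤ) + 1 := by simp [ez, p.2, ins_at]
    rw [← hr, ← hd] at kt kf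
    rw [vt, if_pos b1.1, if_neg (c := 0 < r ∧ _ < -((n : ℤ) + 1)) (by omega)] at kt
    rw [vf, if_neg (c := (n : ℤ) + 1 < _) (by omega)] at kf
    rw [Fintype.sum_bool]
    by_cases hc : c p
    · have h' : 0 < r ∧ ez τ ε (p + 1) < ez τ ε p := ⟨by have := hc.1; omega, hc.2⟩
      rw [if_pos h'] at kt kf
      rw [if_pos ⟨h'.1, b2.2⟩] at kf
      rw [if_pos hc, if_neg (by omega), show dz _ (ez _ (p.insertNth true ε)) = d by omega,
        show dz _ (ez _ (p.insertNth false ε)) = d by omega]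
      push_cast; ring
    · have h' : ¬ (0 < r ∧ ez τ ε (p + 1) < ez τ ε p) := fun h => hc ⟨by omega, h.2⟩
      rw [if_neg h'] at kt kf
      rw [if_neg hc, show dz _ (ez _ (p.insertNth true ε)) = d + 1 by omega]
      by_cases h0 : 0 < r
      · rw [if_pos ⟨h0, b2.2⟩] at kf
        rw [if_neg (by omega), show dz _ (ez _ (p.insertNth false ε)) = d + 1 by omega]
        push_cast; ring
      · rw [if_neg fun h => h0 h.1] at kf
        rw [if_pos (by omega), show dz _ (ez _ (p.insertNth false ε)) = d by omega]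
        push_cast; ring
  have cnt : ∑ p : Fin (n + 1), ((if c p then 2 else 0) + if (p : ℕ) = n then 1 else 0 : ℕ) = 2 * d + 1 := by
    rw [Fin.sum_univ_eq_sum_range (fun p => (if c p then 2 else 0) + if p = n then 1 else 0), hd, dz,
      sum_range_succ, mul_sum]
    congr 1
    · refine sum_congr rfl fun i hi => ?_
      have := mem_range.1 hi
      simp [c, this, this.ne]
    · simp [c]
  simp only [key, sum_add_distrib (f := fun _ => 2 * x (d + 1)), ← sum_mul, ← Nat.cast_sum, cnt]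
  simp; ring

theorem sum_perm : ∀ (n : ℕ) (x : ℕ → ℝ),
    ∑ σ : Equiv.Perm (Fin n), ∑ ε : Fin n → Bool, x (dz n (ez σ ε)) = ∑ k ∈ range (n + 1), C n k * x k
  | 0, x => by simp [dz, C]
  | n + 1, x => by
    rw [← ins_bij.sum_comp, Fintype.sum_prod_type_right]
    have e : ∀ (τ : Equiv.Perm (Fin n)) (p : Fin (n + 1)),
        ∑ ε : Fin (n + 1) → Bool, x (dz (n + 1) (ez (ins (p, τ)) ε)) =
        ∑ ε : Fin n → Bool, ∑ s : Bool, x (dz (n + 1) (ez (ins (p, τ)) (p.insertNth s ε))) := by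
      intro τ p
      rw [← (Fin.insertNthEquiv (fun _ => Bool) p).sum_comp, Fintype.sum_prod_type_right]
      rfl
    simp only [e]
    simp only [sum_comm (s := (univ : Finset (Fin (n + 1)))) (t := (univ : Finset (Fin n → Bool))),
      sum_ins]
    rw [sum_perm n fun k => (2 * k + 1) * x k + (2 * n + 1 - 2 * k) * x (k + 1), step n _ (by omega),
      ext n (n + 1) (by omega)]

theorem dz_le (n : ℕ) (f : ℕ → ℤ) : dz n f ≤ n := by
  rw [dz, ← card_filter]; exact (card_filter_le _ _).trans (card_range n).le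

theorem link (n N : ℕ) (h : n ≤ N) (x : ℕ → ℝ) :
    ∑ k ∈ range (n + 1), (B n k : ℝ) * x k = ∑ k ∈ range (N + 1), C n k * x k := by
  rw [← ext n N h, ← sum_perm, ← Fintype.sum_prod_type', ← sum_fiberwise_of_maps_to
    (g := fun q : Equiv.Perm (Fin n) × (Fin n → Bool) => dz n (ez q.1 q.2)) (t := range (n + 1))
    fun σ _ => mem_range.2 (Nat.lt_succ_of_le (dz_le _ _))]
  refine sum_congr rfl fun k _ => ?_
  simp only [B, des_eq]
  rw [sum_congr rfl fun σ hσ => by rw [(mem_filter.1 hσ).2]]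
  simp

end Pool.Agent.H14.EulerB
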