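import Mathlib

set_option autoImplicit false

namespace Pool.Agent.H14.Fpp

open Finset

variable {n : ℕ}

/-- an order relation on `Fin n`, as a set of pairs -/
def IsOrd (r : Finset (Fin n × Fin n)) : Prop :=
  (∀ x, (x, x) ∈ r) ∧ (∀ x y, (x, y) ∈ r → (y, x) ∈ r → x = y) ∧
    ∀ x y z, (x, y) ∈ r → (y, z) ∈ r → (x, z) ∈ r

/-- the fixed point property -/
def FPP (r : Finset (Fin n × Fin n)) : Prop :=
  ∀ f : Fin n → Fin n, (∀ x y, (x, y) ∈ r → (f x, f y) ∈ r) → ∃ x, f x = x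

/-- `c 0, …, c (n choose 2)` is a maximal chain of order relations -/
def MaxChain (c : ℕ → Finset (Fin n × Fin n)) : Prop :=
  (∀ i ≤ n.choose 2, IsOrd (c i)) ∧ (∀ x y, (x, y) ∈ c 0 ↔ x = y) ∧
    (∀ x y, (x, y) ∈ c (n.choose 2) ∨ (y, x) ∈ c (n.choose 2)) ∧
    ∀ i < n.choose 2, ∃ p ∉ c i, c (i + 1) = insert p (c i)

open Classical in
/-- the number of members with the fixed point property -/
noncomputable def num (c : ℕ → Finset (Fin n × Fin n)) : ℕ :=
  ((range (n.choose 2 + 1)).filter fun i => FPP (c i)).card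

open Classical in
/-- the number of adjacencies going from no fixed point property to fixed point property -/
noncomputable def adj (c : ℕ → Finset (Fin n × Fin n)) : ℕ :=
  ((range (n.choose 2)).filter fun i => ¬ FPP (c i) ∧ FPP (c (i + 1))).card

lemma fix0 (R : Fin n → Fin n → Prop) (h0 : ∀ x, R x x) (h1 : ∀ x y, R x y → R y x → x = y)
    (h2 : ∀ x y z, R x y → R y z → R x z) (f : Fin n → Fin n) (hf : ∀ x y, R x y → R (f x) (f y))
    (x : Fin n) (hx : R x (f x)) : ∃ y, f y = y := by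
  classical
  obtain ⟨y, hy, hm⟩ := exists_min_image (univ.filter fun y => R y (f y))
    (fun y => (univ.filter fun z => R y z).card) ⟨x, by simpa⟩
  have hy' : R y (f y) := by simpa using hy
  refine ⟨y, h1 _ _ ?_ hy'⟩
  have := eq_of_subset_of_card_le (s := univ.filter fun z => R (f y) z)
    (t := univ.filter fun z => R y z) (fun z hz => by simpa using h2 _ _ _ hy' (by simpa using hz))
    (hm (f y) (by simpa using hf _ _ hy'))
  have h : y ∈ univ.filter fun z => R (f y) z := by rw [this]; simpa using h0 y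
  simpa using h

lemma nfp {r : Finset (Fin n × Fin n)} (h : IsOrd r) (hn : ¬ FPP r) : ∃ f : Fin n → Fin n,
    (∀ x y, (x, y) ∈ r → (f x, f y) ∈ r) ∧ ∀ x, (x, f x) ∉ r ∧ (f x, x) ∉ r := by
  unfold FPP at hn
  push Not at hn
  obtain ⟨f, h1, h2⟩ := hn
  refine ⟨f, h1, fun x => ⟨fun e => ?_, fun e => ?_⟩⟩
  · obtain ⟨y, hy⟩ := fix0 (fun a b => (a, b) ∈ r) h.1 h.2.1 h.2.2 f h1 x e
    exact h2 y hy
  · obtain ⟨y, hy⟩ := fix0 (fun a b => (b, a) ∈ r) h.1 (fun a b u v => h.2.1 a b v u)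
      (fun a b c u v => h.2.2 c b a v u) f (fun a b => h1 b a) x e
    exact h2 y hy

lemma two_choose (n : ℕ) : 2 * n.choose 2 + n = n * n := by
  induction n with
  | zero => rfl
  | succ n ih => rw [Nat.choose_succ_succ', Nat.choose_one_right]; nlinarith

def Inc (r : Finset (Fin n × Fin n)) : Finset (Fin n × Fin n) :=
  univ.filter fun p => p ∉ r ∧ p.swap ∉ r

lemma card_inc {r : Finset (Fin n × Fin n)} (h : IsOrd r) :
    (Inc r).card + 2 * r.card = n * n + n := by
  have h1 := card_union_add_card_inter r (r.image Prod.swap)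
  have h2 : r ∩ r.image Prod.swap = univ.image fun x => (x, x) := by
    ext ⟨x, y⟩
    simp only [mem_inter, mem_image, mem_univ, true_and, Prod.exists, Prod.swap_prod_mk,
      Prod.mk.injEq]
    constructor
    · rintro ⟨h1, a, b, h2, rfl, rfl⟩
      exact ⟨b, rfl, h.2.1 _ _ h1 h2⟩
    · rintro ⟨a, rfl, rfl⟩
      exact ⟨h.1 _, a, a, h.1 _, rfl, rfl⟩
  have h3 : Inc r = (r ∪ r.image Prod.swap)ᶜ := by
    ext ⟨x, y⟩
    simp only [Inc, mem_filter, mem_univ, true_and, mem_compl, mem_union, mem_image, Prod.exists,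
      Prod.swap_prod_mk, Prod.mk.injEq, not_or]
    refine and_congr Iff.rfl (not_congr ⟨fun e => ⟨y, x, e, rfl, rfl⟩, ?_⟩)
    rintro ⟨a, b, e, rfl, rfl⟩
    exact e
  have h4 := card_add_card_compl (r ∪ r.image Prod.swap)
  rw [h2, card_image_of_injective _ Prod.swap_injective,
    card_image_of_injective _ (fun a b e => congrArg Prod.fst e)] at h1
  simp only [card_univ, Fintype.card_fin, Fintype.card_prod] at h1 h4
  rw [h3]
  omega

variable {c : ℕ → Finset (Fin n × Fin n)}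

lemma MaxChain.card (h : MaxChain c) : ∀ i ≤ n.choose 2, (c i).card = n + i := by
  intro i
  induction i with
  | zero =>
    intro _
    have : c 0 = univ.image fun x => (x, x) := by
      ext ⟨x, y⟩
      simp [h.2.1]
    rw [this, card_image_of_injective _ (fun a b e => congrArg Prod.fst e)]
    simp
  | succ i ih =>
    intro hi
    obtain ⟨p, hp, e⟩ := h.2.2.2 i hi
    rw [e, card_insert_of_notMem hp, ih (by omega), add_assoc]

lemma sub_inc {r : Finset (Fin n × Fin n)} {f : Fin n → Fin n}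
    (hf : ∀ x, (x, f x) ∉ r ∧ (f x, x) ∉ r) :
    (univ.image fun x => (x, f x)) ⊆ Inc r ∧ (univ.image fun x => (x, f x)).card = n := by
  refine ⟨fun p hp => ?_, ?_⟩
  · obtain ⟨x, -, rfl⟩ := mem_image.1 hp
    simpa [Inc] using hf x
  · rw [card_image_of_injective _ (fun a b e => congrArg Prod.fst e)]
    simp

lemma MaxChain.late (h : MaxChain c) (i : ℕ) (hi : i ≤ n.choose 2) (hn : ¬ FPP (c i)) :
    2 * i + n ≤ 2 * n.choose 2 := by
  obtain ⟨f, -, hf⟩ := nfp (h.1 i hi) hn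
  have h1 := card_le_card (sub_inc hf).1
  have h2 := (sub_inc hf).2
  have h3 := card_inc (h.1 i hi)
  have h4 := h.card i hi
  have h5 := two_choose n
  omega

lemma MaxChain.even (h : MaxChain c) (i : ℕ) (hi : 2 * (i + 1) + n = 2 * n.choose 2)
    (h1 : ¬ FPP (c (i + 1))) : FPP (c i) := by
  by_contra h2
  have o1 := h.1 (i + 1) (by omega)
  have o2 := h.1 i (by omega)
  obtain ⟨f, -, hf⟩ := nfp o1 h1
  obtain ⟨g, g1, hg⟩ := nfp o2 h2
  obtain ⟨⟨b, c'⟩, hp, e⟩ := h.2.2.2 i (by omega)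
  have e1 := eq_of_subset_of_card_le (sub_inc hf).1 (by
    have h2 := (sub_inc hf).2
    have h3 := card_inc o1
    have h4 := h.card (i + 1) (by omega)
    have h5 := two_choose n
    omega)
  have key : ∀ x y, (x, y) ∉ c (i + 1) → (y, x) ∉ c (i + 1) → f x = y := by
    intro x y a1 a2
    have : (x, y) ∈ Inc (c (i + 1)) := by simp [Inc, a1, a2]
    rw [← e1] at this
    simpa using this
  have hbc : (b, c') ∈ c (i + 1) := by rw [e]; simp
  have ff : ∀ x, f (f x) = x := fun x => key _ _ (hf x).2 (hf x).1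
  have n1 : ∀ x, f x ≠ x := fun x e => (hf x).1 (by rw [e]; exact o1.1 x)
  have n2 : f b ≠ c' := fun e => (hf b).1 (by rw [e]; exact hbc)
  have n3 : f c' ≠ b := fun e => (hf c').2 (by rw [e]; exact hbc)
  have gk : ∀ x, x ≠ b → x ≠ c' → g x = f x := by
    intro x a1 a2
    refine (key _ _ ?_ ?_).symm <;> rw [e] <;> simp [a1, a2, hg x]
  have ga : g (f b) = b := by rw [gk _ (n1 b) n2, ff]
  have gd : g (f c') = c' := by rw [gk _ n3 (n1 c'), ff]
  by_cases a1 : (f b, f c') ∈ c (i + 1)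
  · rw [e, mem_insert] at a1
    rcases a1 with a1 | a1
    · exact n1 b (congrArg Prod.fst a1)
    · have := g1 _ _ a1
      rw [ga, gd] at this
      exact hp this
  by_cases a2 : (f c', f b) ∈ c (i + 1)
  · rw [e, mem_insert] at a2
    rcases a2 with a2 | a2
    · exact n3 (congrArg Prod.fst a2)
    · have := g1 _ _ a2
      rw [ga, gd] at this
      have e2 := o1.2.1 _ _ hbc (by rw [e]; exact mem_insert_of_mem this)
      subst e2
      exact hp this
  exact n3 ((key _ _ a1 a2).symm.trans (ff b))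

lemma MaxChain.comp (h : MaxChain c) : ∀ i ≤ n.choose 2, ∃ k : Fin n → Fin n,
    n ≤ (univ.image k).card + i ∧ ∀ x y, (x, y) ∈ c i → k x = k y := by
  intro i
  induction i with
  | zero => exact fun _ => ⟨id, by simp, fun x y e => (h.2.1 x y).1 e⟩
  | succ i ih =>
    intro hi
    obtain ⟨k, k1, k2⟩ := ih (by omega)
    obtain ⟨p, -, e⟩ := h.2.2.2 i hi
    refine ⟨fun z => if k z = k p.1 then k p.2 else k z, ?_, fun x y hxy => ?_⟩
    · have := card_le_card (show (univ.image k).erase (k p.1) ⊆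
          univ.image fun z => if k z = k p.1 then k p.2 else k z from fun y hy => by
        obtain ⟨h1, h2⟩ := mem_erase.1 hy
        obtain ⟨z, -, rfl⟩ := mem_image.1 h2
        exact mem_image.2 ⟨z, mem_univ _, if_neg h1⟩)
      have := pred_card_le_card_erase (s := univ.image k) (a := k p.1)
      omega
    · rw [e, mem_insert] at hxy
      rcases hxy with rfl | hxy
      · simp
      · simp only [k2 _ _ hxy]

lemma MaxChain.early (h : MaxChain c) (i : ℕ) (hi : i ≤ n.choose 2) (h2 : i + 2 ≤ n) :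
    ¬ FPP (c i) := by
  obtain ⟨k, k1, k2⟩ := h.comp i hi
  obtain ⟨_, hu, _, hv, huv⟩ := one_lt_card.1 (show 1 < (univ.image k).card by omega)
  obtain ⟨u, -, rfl⟩ := mem_image.1 hu
  obtain ⟨v, -, rfl⟩ := mem_image.1 hv
  intro hf
  obtain ⟨x, hx⟩ := hf (fun z => if k z = k u then v else u) fun x y e => by
    simp only [k2 _ _ e]
    exact (h.1 i hi).1 _
  split_ifs at hx with e
  · subst hx; exact huv e.symm
  · subst hx; exact e rfl

lemma MaxChain.num_ge (h : MaxChain c) (hn : 3 ≤ n) : n / 2 + 1 ≤ num c := by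
  classical
  have h5 := two_choose n
  have h6 : 3 * n ≤ n * n := Nat.mul_le_mul_right n hn
  have key : ∃ k, k ≤ n.choose 2 - n / 2 ∧ FPP (c k) := by
    by_contra hc
    push Not at hc
    have a := hc _ le_rfl
    have b := h.late _ (by omega) a
    refine hc (n.choose 2 - n / 2 - 1) (by omega) (h.even _ (by omega) ?_)
    rwa [show n.choose 2 - n / 2 - 1 + 1 = n.choose 2 - n / 2 by omega]
  obtain ⟨k, k1, k2⟩ := key
  refine le_trans (le_of_eq ?_) (card_le_card (s := insert k (Ioc (n.choose 2 - n / 2)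
    (n.choose 2))) fun i hi => ?_)
  · rw [card_insert_of_notMem (by simp; omega), Nat.card_Ioc]
    omega
  · simp only [mem_insert, mem_Ioc] at hi
    simp only [mem_filter, mem_range]
    rcases hi with rfl | hi
    · exact ⟨by omega, k2⟩
    · refine ⟨by omega, by_contra fun e => ?_⟩
      have := h.late i hi.2 e
      omega

lemma MaxChain.adj_le (h : MaxChain c) (hn : 2 ≤ n) : adj c ≤ (n - 2) ^ 2 / 4 + 1 := by
  classical
  refine (card_le_card_of_injOn (t := range ((n - 2) ^ 2 / 4 + 1)) (fun i => (i - (n - 2)) / 2)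
    (fun i hi => ?_) fun i hi j hj e => ?_).trans (by simp)
  · simp only [coe_filter, mem_range, Set.mem_ofPred_eq, coe_range, Set.mem_Iio] at hi ⊢
    have a := h.late i hi.1.le hi.2.1
    have h5 := two_choose n
    obtain ⟨m, rfl⟩ := Nat.exists_eq_add_of_le' hn
    simp only [Nat.add_sub_cancel]
    have : (m + 2) * (m + 2) = m ^ 2 + 4 * m + 4 := by ring
    have : m ^ 2 % 4 = m % 2 := by
      rcases Nat.even_or_odd' m with ⟨r, rfl | rfl⟩
      · rw [show (2 * r) ^ 2 = 4 * r ^ 2 by ring]; omega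
      · rw [show (2 * r + 1) ^ 2 = 4 * (r ^ 2 + r) + 1 by ring]; omega
    omega
  · simp only [coe_filter, mem_range, Set.mem_ofPred_eq] at hi hj e
    have a1 : n ≤ i + 2 := by
      by_contra a
      exact h.early (i + 1) hi.1 (by omega) hi.2.2
    have a2 : n ≤ j + 2 := by
      by_contra a
      exact h.early (j + 1) hj.1 (by omega) hj.2.2
    have a3 : i + 1 ≠ j := fun a => hj.2.1 (a ▸ hi.2.2)
    have a4 : j + 1 ≠ i := fun a => hi.2.1 (a ▸ hj.2.2)
    omega

/-! chains from weights -/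

section
variable (w1 w2 : ℕ → ℕ → ℕ)

def lx (p q : Fin n × Fin n) : Prop :=
  w1 p.1 p.2 < w1 q.1 q.2 ∨ w1 p.1 p.2 = w1 q.1 q.2 ∧ w2 p.1 p.2 < w2 q.1 q.2

instance (p q : Fin n × Fin n) : Decidable (lx w1 w2 p q) := by unfold lx; infer_instance

def rk (p : Fin n × Fin n) : ℕ := (univ.filter fun q => q.1 < q.2 ∧ lx w1 w2 q p).card

def ch (i : ℕ) : Finset (Fin n × Fin n) :=
  univ.filter fun q => q.1 = q.2 ∨ q.1 < q.2 ∧ rk w1 w2 q < i

structure Wt (n : ℕ) : Prop where
  inj : ∀ i j k l, i < j → j < n → k < l → l < n → w1 i j = w1 k l → w2 i j = w2 k l →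
    i = k ∧ j = l
  tr : ∀ i j k, i < j → j < k → k < n → (w1 i k < w1 i j ∨ w1 i k = w1 i j ∧ w2 i k < w2 i j) ∨
    (w1 i k < w1 j k ∨ w1 i k = w1 j k ∧ w2 i k < w2 j k)

variable {w1 w2}

lemma rk_lt {p q : Fin n × Fin n} (hp : p.1 < p.2) (h : lx w1 w2 p q) :
    rk w1 w2 p < rk w1 w2 q := by
  refine card_lt_card ⟨fun z hz => ?_, fun e => ?_⟩
  · simp only [mem_filter, mem_univ, true_and, lx] at hz h ⊢
    exact ⟨hz.1, by omega⟩
  · have := @e p (by simpa using ⟨hp, h⟩)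
    simp [lx] at this

lemma Wt.tri (h : Wt w1 w2 n) {p q : Fin n × Fin n} (hp : p.1 < p.2) (hq : q.1 < q.2) :
    lx w1 w2 p q ∨ p = q ∨ lx w1 w2 q p := by
  by_cases e : w1 p.1 p.2 = w1 q.1 q.2 ∧ w2 p.1 p.2 = w2 q.1 q.2
  · have := h.inj _ _ _ _ hp p.2.2 hq q.2.2 e.1 e.2
    exact Or.inr (Or.inl (Prod.ext (Fin.ext this.1) (Fin.ext this.2)))
  · rcases (by unfold lx; omega : lx w1 w2 p q ∨ lx w1 w2 q p) with a | a
    · exact Or.inl a
    · exact Or.inr (Or.inr a)

lemma Wt.rk_iff (h : Wt w1 w2 n) {p q : Fin n × Fin n} (hp : p.1 < p.2) (hq : q.1 < q.2) :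
    (rk w1 w2 p < rk w1 w2 q ↔ lx w1 w2 p q) ∧ (rk w1 w2 p = rk w1 w2 q ↔ p = q) := by
  rcases h.tri hp hq with a | rfl | a
  · have := rk_lt hp a
    refine ⟨iff_of_true this a, iff_of_false this.ne ?_⟩
    rintro rfl
    omega
  · simp [lx]
  · have := rk_lt hq a
    refine ⟨iff_of_false (by omega) (by unfold lx at *; omega), iff_of_false this.ne' ?_⟩
    rintro rfl
    omega

lemma card_S : (univ.filter fun q : Fin n × Fin n => q.1 < q.2).card = n.choose 2 := by
  have := Finset.card_product_filter_lt (s := (univ : Finset (Fin n)))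
  simpa using this

lemma rk_lt_M {p : Fin n × Fin n} (hp : p.1 < p.2) : rk w1 w2 p < n.choose 2 := by
  rw [← card_S]
  refine card_lt_card ⟨fun z hz => ?_, fun e => ?_⟩
  · simp only [mem_filter, mem_univ, true_and] at hz ⊢
    exact hz.1
  · have := @e p (by simpa using hp)
    simp [lx] at this

lemma Wt.surj (h : Wt w1 w2 n) (i : ℕ) (hi : i < n.choose 2) :
    ∃ p : Fin n × Fin n, p.1 < p.2 ∧ rk w1 w2 p = i := by
  have := surj_on_of_inj_on_of_card_le (s := univ.filter fun q : Fin n × Fin n => q.1 < q.2)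
    (t := range (n.choose 2)) (fun p _ => rk w1 w2 p)
    (fun p hp => mem_range.2 (rk_lt_M (by simpa using hp)))
    (fun p q hp hq e => (h.rk_iff (by simpa using hp) (by simpa using hq)).2.1 e)
    (by rw [card_S, card_range]) i (mem_range.2 hi)
  obtain ⟨p, hp, e⟩ := this
  exact ⟨p, by simpa using hp, e.symm⟩

lemma Wt.chain (h : Wt w1 w2 n) : MaxChain (ch (n := n) w1 w2) := by
  refine ⟨fun i _ => ⟨by simp [ch], fun x y a b => ?_, fun x y z a b => ?_⟩, by simp [ch],
    fun x y => ?_, fun i hi => ?_⟩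
  · simp only [ch, mem_filter, mem_univ, true_and] at a b
    omega
  · simp only [ch, mem_filter, mem_univ, true_and] at a b ⊢
    rcases a with rfl | a
    · exact b
    rcases b with rfl | b
    · exact Or.inr a
    refine Or.inr ⟨a.1.trans b.1, ?_⟩
    rcases h.tr x y z a.1 b.1 z.2 with e | e
    · exact (rk_lt (p := (x, z)) (q := (x, y)) (a.1.trans b.1) e).trans a.2
    · exact (rk_lt (p := (x, z)) (q := (y, z)) (a.1.trans b.1) e).trans b.2
  · simp only [ch, mem_filter, mem_univ, true_and]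
    rcases lt_trichotomy x y with e | e | e
    · exact Or.inl (Or.inr ⟨e, rk_lt_M (p := (x, y)) e⟩)
    · exact Or.inl (Or.inl e)
    · exact Or.inr (Or.inr ⟨e, rk_lt_M (p := (y, x)) e⟩)
  · obtain ⟨p, hp, rfl⟩ := h.surj i hi
    refine ⟨p, by simp [ch, hp.ne], ?_⟩
    ext q
    simp only [ch, mem_filter, mem_univ, true_and, mem_insert]
    constructor
    · rintro (a | ⟨a, b⟩)
      · exact Or.inr (Or.inl a)
      · rcases Nat.lt_succ_iff_lt_or_eq.1 b with b | b
        · exact Or.inr (Or.inr ⟨a, b⟩)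
        · exact Or.inl ((h.rk_iff a hp).2.1 b)
    · rintro (rfl | a | ⟨a, b⟩)
      · exact Or.inr ⟨hp, by omega⟩
      · exact Or.inl a
      · exact Or.inr ⟨a, by omega⟩

lemma Wt.mem (h : Wt w1 w2 n) {p : Fin n × Fin n} (hp : p.1 < p.2) (x y : Fin n) :
    ((x, y) ∈ ch w1 w2 (rk w1 w2 p) ↔ x.1 = y.1 ∨ x.1 < y.1 ∧
      (w1 x y < w1 p.1 p.2 ∨ w1 x y = w1 p.1 p.2 ∧ w2 x y < w2 p.1 p.2)) ∧
    ((x, y) ∈ ch w1 w2 (rk w1 w2 p + 1) ↔ x.1 = y.1 ∨ x.1 < y.1 ∧
      (w1 x y < w1 p.1 p.2 ∨ w1 x y = w1 p.1 p.2 ∧ w2 x y ≤ w2 p.1 p.2)) := by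
  simp only [ch, mem_filter, mem_univ, true_and, Fin.ext_iff]
  refine ⟨or_congr Iff.rfl (and_congr_right fun a => (h.rk_iff (p := (x, y)) a hp).1),
    or_congr Iff.rfl (and_congr_right fun a => ?_)⟩
  have := (h.rk_iff (q := (x, y)) hp a).1
  simp only [lx] at this
  omega

lemma Wt.nf (h : Wt w1 w2 n) {p : Fin n × Fin n} (hp : p.1 < p.2) (f : ℕ → ℕ)
    (h1 : ∀ x < n, f x < n ∧ f x ≠ x)
    (h2 : ∀ x y, x < y → y < n → (w1 x y < w1 p.1 p.2 ∨ w1 x y = w1 p.1 p.2 ∧ w2 x y < w2 p.1 p.2) →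
      f x = f y ∨ f x < f y ∧ (w1 (f x) (f y) < w1 p.1 p.2 ∨
        w1 (f x) (f y) = w1 p.1 p.2 ∧ w2 (f x) (f y) < w2 p.1 p.2)) :
    ¬ FPP (ch w1 w2 (rk w1 w2 p) : Finset (Fin n × Fin n)) := by
  intro hf
  obtain ⟨x, hx⟩ := hf (fun x => ⟨f x, (h1 x x.2).1⟩) fun x y e => by
    rw [(h.mem hp _ _).1] at e ⊢
    rcases e with e | e
    · exact Or.inl (congrArg f e)
    · exact h2 _ _ e.1 y.2 e.2
  exact (h1 x x.2).2 (congrArg Fin.val hx)

end

end Pool.Agent.H14.Fpp
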