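import Mathlib

set_option autoImplicit false

namespace Pool.Agent.H14.FunDefs

open Classical in
/-- The vertex `y` is a function of the vertices `x 0, …, x (k-1)`. -/
def IsFunctionOf {V : Type} (G : SimpleGraph V) (y : V) {k : ℕ} (x : Fin k → V) : Prop :=
  ∃ f : (Fin k → Bool) → Bool, ∀ z : V, z ≠ y → (∀ i, z ≠ x i) →
    decide (G.Adj y z) = f fun i => decide (G.Adj (x i) z)

/-- `fun(y)` in `G`: the least `k` such that `y` is a function of `k` distinct other vertices. -/
noncomputable def vfun {V : Type} (G : SimpleGraph V) (y : V) : ℕ :=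
  sInf {k | ∃ x : Fin k → V, Function.Injective x ∧ (∀ i, x i ≠ y) ∧ IsFunctionOf G y x}

/-- `fun(G)`: the maximum over nonempty induced subgraphs `H` of the minimum of `fun_H(y)`. -/
noncomputable def gfun {V : Type} (G : SimpleGraph V) : ℕ :=
  sSup {m | ∃ S : Set V, S.Nonempty ∧ m = sInf (Set.range (vfun (G.induce S)))}

/-- `M` is a module of `G`. -/
def IsModule {V : Type} (G : SimpleGraph V) (M : Set V) : Prop :=
  ∀ z, z ∉ M → (∀ a ∈ M, G.Adj z a) ∨ (∀ a ∈ M, ¬ G.Adj z a)

/-- `G` is prime: every module is empty, a singleton or everything. -/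
def Prime {V : Type} (G : SimpleGraph V) : Prop :=
  ∀ M : Set V, IsModule G M → M = ∅ ∨ M = Set.univ ∨ ∃ a, M = {a}

end Pool.Agent.H14.FunDefs
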