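import Pool.Agent.H14.GmrfDefs

set_option autoImplicit false

namespace Pool.Agent.H14.Gmrf

open Matrix

variable {V : Type} [Fintype V] [DecidableEq V]

theorem det_le_exp (N : Matrix V V ℝ) (hN : N.PosSemidef) :
    N.det ≤ Real.exp (N.trace - Fintype.card V) := by
  have h1 := hN.1.det_eq_prod_eigenvalues
  have h2 := hN.1.trace_eq_sum_eigenvalues
  simp only [RCLike.ofReal_real_eq_id, id] at h1 h2
  rw [h1, h2]
  have : ∑ i, hN.1.eigenvalues i - (Fintype.card V : ℝ) = ∑ i, (hN.1.eigenvalues i - 1) := by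
    simp [Finset.sum_sub_distrib]
  rw [this, Real.exp_sum]
  refine Finset.prod_le_prod (fun i _ => hN.eigenvalues_nonneg i) fun i _ => ?_
  have := Real.add_one_le_exp (hN.1.eigenvalues i - 1)
  linarith

theorem exists_max (G : SimpleGraph V) (x : ℝ) (M0 : Matrix V V ℝ) (h0 : M0 ∈ feas G x) :
    ∃ M ∈ feas G x, ∀ M' ∈ feas G x, M'.det ≤ M.det := by
  let S : Set (Matrix V V ℝ) :=
    {M | M.PosSemidef ∧ (∀ v, M v v = 1) ∧ ∀ u v, G.Adj u v → M u v = x}
  have hsub : feas G x ⊆ S := fun M h => ⟨h.1.posSemidef, h.2⟩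
  have hS : S = (⋂ u, ⋂ v, {M : Matrix V V ℝ | M v u = M u v}) ∩
      ((⋂ y : V → ℝ, {M : Matrix V V ℝ | 0 ≤ y ⬝ᵥ (M *ᵥ y)}) ∩
      ((⋂ v, {M : Matrix V V ℝ | M v v = 1}) ∩
        ⋂ u, ⋂ v, ⋂ (_ : G.Adj u v), {M : Matrix V V ℝ | M u v = x})) := by
    ext M
    simp only [S, Set.mem_setOf_eq, Set.mem_inter_iff, Set.mem_iInter,
      posSemidef_iff_dotProduct_mulVec, star_trivial, and_assoc]
    refine and_congr ?_ Iff.rfl
    constructor
    · intro h u v
      have := congrFun (congrFun h u) v
      simpa using this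
    · intro h
      ext u v
      simpa using h u v
  have hcl : IsClosed S := by
    rw [hS]
    refine IsClosed.inter ?_ (IsClosed.inter ?_ (IsClosed.inter ?_ ?_))
    · exact isClosed_iInter fun u => isClosed_iInter fun v =>
        isClosed_eq (by fun_prop) (by fun_prop)
    · refine isClosed_iInter fun y => isClosed_le continuous_const ?_
      simp only [dotProduct, mulVec]
      fun_prop
    · exact isClosed_iInter fun v => isClosed_eq (by fun_prop) continuous_const
    · exact isClosed_iInter fun u => isClosed_iInter fun v => isClosed_iInter fun _ =>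
        isClosed_eq (by fun_prop) continuous_const
  have hcomp : IsCompact S := by
    have hc : IsCompact (Set.pi Set.univ (fun _ : V => Set.pi Set.univ
        (fun _ : V => Set.Icc (-1 : ℝ) 1))) :=
      isCompact_univ_pi fun _ => isCompact_univ_pi fun _ => isCompact_Icc
    refine IsCompact.of_isClosed_subset hc hcl ?_
    intro M hM u _ v _
    have hs : M v u = M u v := by
      have := congrFun (congrFun hM.1.1 u) v
      simpa using this
    have h1 := hM.1.dotProduct_mulVec_nonneg (Pi.single u 1 + Pi.single v 1)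
    have h2 := hM.1.dotProduct_mulVec_nonneg (Pi.single u 1 - Pi.single v 1)
    simp only [star_trivial, mulVec_add, mulVec_sub, add_dotProduct, sub_dotProduct,
      dotProduct_add, dotProduct_sub, mulVec_single_one, single_dotProduct, one_mul,
      col_apply, hM.2.1, hs] at h1 h2
    constructor <;> linarith
  obtain ⟨M, hM, hmax⟩ := hcomp.exists_isMaxOn ⟨M0, hsub h0⟩
    (f := fun M : Matrix V V ℝ => M.det) (Continuous.matrix_det continuous_id).continuousOn
  refine ⟨M, ⟨?_, hM.2⟩, fun M' h => hmax (hsub h)⟩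
  rw [hM.1.posDef_iff_det_ne_zero]
  have h1 : M0.det ≤ M.det := hmax (hsub h0)
  have := h0.1.det_pos
  linarith [ne_of_gt (lt_of_lt_of_le this h1)]

/-- dual certificate -/
theorem det_lt (F M M0 : Matrix V V ℝ) (hM : M.PosSemidef)
    (h1 : ((Fᵀ * F) * M).trace ≤ Fintype.card V) (h2 : 1 < (F * M0 * Fᵀ).det) :
    M.det < M0.det := by
  have h3 := det_le_exp (F * M * Fᵀ) (by simpa using hM.mul_mul_conjTranspose_same F)
  have h4 : (F * M * Fᵀ).trace = ((Fᵀ * F) * M).trace := by
    rw [trace_mul_comm, Matrix.mul_assoc]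
  have h5 : Real.exp ((F * M * Fᵀ).trace - Fintype.card V) ≤ 1 := by
    rw [Real.exp_le_one_iff]; linarith
  rw [det_mul, det_mul, det_transpose] at h2 h3
  by_contra hc
  have hc := not_lt.mp hc
  nlinarith [mul_self_nonneg F.det]

end Pool.Agent.H14.Gmrf
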