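import Mathlib

set_option autoImplicit false

namespace Pool.Agent.H14.Gmrf

/-- Positive definite matrices with unit diagonal and entry `x` on every edge. -/
def feas {V : Type} [Fintype V] (G : SimpleGraph V) (x : ℝ) : Set (Matrix V V ℝ) :=
  {M | M.PosDef ∧ (∀ v, M v v = 1) ∧ ∀ u v, G.Adj u v → M u v = x}

end Pool.Agent.H14.Gmrf
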