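import Mathlib

set_option autoImplicit false

namespace Pool.Agent.H14.Ham

/-- A is the arc relation of a tournament on Fin n -/
def IsTournament {n : ℕ} (A : Fin n → Fin n → Prop) : Prop :=
  (∀ v, ¬ A v v) ∧ ∀ u v, u ≠ v → (A u v ↔ ¬ A v u)

/-- the arc sets of the Hamiltonian circuits of A (none when n ≤ 2) -/
def circuits {n : ℕ} (A : Fin n → Fin n → Prop) : Set (Set (Fin n × Fin n)) :=
  {C | 3 ≤ n ∧ ∃ v : Fin n → Fin n, Function.Bijective v ∧
    (∀ i, A (v i) (v (finRotate n i))) ∧ C = Set.range fun i => (v i, v (finRotate n i))}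

/-- the largest number of Hamiltonian circuits of an n-tournament -/
noncomputable def hmax (n : ℕ) : ℕ :=
  sSup {h | ∃ A : Fin n → Fin n → Prop, IsTournament A ∧ (circuits A).ncard = h}

end Pool.Agent.H14.Ham
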