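import Mathlib
import Pool.Agent.H14.HamDefs
import Pool.Agent.H14.HamRun

set_option autoImplicit false

namespace Pool.Agent.H14.Ham

theorem land_step (a b : ℕ) (x y : Bool) :
    (1024 * a + x.toNat) &&& (1024 * b + y.toNat) = 1024 * (a &&& b) + (x && y).toNat := by
  have h1 : ∀ (a : ℕ) (x : Bool), (1024 * a + x.toNat) / 2 ^ 10 = a := by
    intro a x; cases x <;> simp <;> omega
  have h2 : ∀ (a : ℕ) (x : Bool), (1024 * a + x.toNat) % 2 ^ 10 = x.toNat := by
    intro a x; cases x <;> simp <;> omega
  have e := Nat.div_add_mod ((1024 * a + x.toNat) &&& (1024 * b + y.toNat)) (2 ^ 10)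
  rw [Nat.and_div_two_pow, Nat.and_mod_two_pow, h1, h1, h2, h2] at e
  rw [← e]
  cases x <;> cases y <;> simp

theorem enc_and {α : Type} (P Q : α → Bool) :
    ∀ l : List α, enc P l &&& enc Q l = enc (fun c => P c && Q c) l
  | [] => by simp [enc]
  | c :: t => by simp only [enc]; rw [land_step, enc_and P Q t]

theorem enc_mod {α : Type} (P : α → Bool) :
    ∀ l : List α, enc P l % 1023 = l.countP P % 1023
  | [] => by simp [enc]
  | c :: t => by
    have := enc_mod P t
    simp only [enc, List.countP_cons]
    cases P c <;> simp <;> omega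

theorem force_eq (x : ℕ) (f : ℕ → Bool) : force x f = f x := by
  cases x <;> rfl

theorem go_sound {α β : Type} (L : List α) (hL : L.length < 1023) (F G : β → α → Bool)
    (a : β → Bool) : ∀ (E : List β) (ms : List (ℕ × ℕ)) (P : α → Bool) (S : ℕ),
      ms.map (fun p => (p.1 >>> 64, p.2 >>> 64)) = E.map (fun e => (enc (F e) L, enc (G e) L)) →
      S >>> 64 = enc P L → go ms S = true →
      L.countP (fun c => P c && E.all fun e => if a e then F e c else G e c) ≠ 23
  | [], [], P, S, _, hS, h => by
    have h1 := enc_mod P L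
    have h2 : L.countP P ≤ L.length := List.countP_le_length
    simp only [go, hS] at h
    have : enc P L % 1023 ≠ 23 := by
      intro e; rw [e] at h; simp at h
    simp only [List.all_nil, Bool.and_true]
    rw [Nat.mod_eq_of_lt (by omega : L.countP P < 1023)] at h1
    show L.countP P ≠ 23
    omega
  | [], _ :: _, _, _, h, _, _ => by simp at h
  | _ :: _, [], _, _, h, _, _ => by simp at h
  | e :: E, p :: ms, P, S, hm, hS, h => by
    simp only [List.map_cons, List.cons.injEq, Prod.mk.injEq] at hm
    obtain ⟨⟨hp1, hp2⟩, hm⟩ := hm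
    simp only [go, Bool.or_eq_true, Nat.ble_eq, force_eq, Bool.and_eq_true, hS] at h
    rcases h with h | ⟨h1, h2⟩
    · have h1 := enc_mod P L
      have h2 : L.countP P ≤ L.length := List.countP_le_length
      rw [Nat.mod_eq_of_lt (by omega : L.countP P < 1023)] at h1
      have h3 : L.countP (fun c => P c && (e :: E).all fun e => if a e then F e c else G e c)
          ≤ L.countP P := List.countP_mono_left (by intro x _ hx; simp at hx; exact hx.1)
      omega
    · by_cases ha : a e = true
      · have := go_sound L hL F G a E ms (fun c => P c && F e c) _ hm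
          (by rw [Nat.shiftRight_and_distrib, hS, hp1, enc_and]) h1
        simpa [ha, Bool.and_assoc] using this
      · have := go_sound L hL F G a E ms (fun c => P c && G e c) _ hm
          (by rw [Nat.shiftRight_and_distrib, hS, hp2, enc_and]) h2
        simpa [ha, Bool.and_assoc] using this

theorem LL_len : LL.length = 720 := by decide +kernel

theorem LL_nodup : LL.Nodup := by
  rw [LL_eq]
  refine List.Nodup.map (fun a b h => by simpa using h) ?_
  exact (List.permutations_perm_permutations' _).nodup_iff.1 (List.nodup_permutations _ (by decide))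

theorem mem_LL (c : List (Fin 7)) :
    c ∈ LL ↔ ∃ w : Fin 7 → Fin 7, Function.Bijective w ∧ w 0 = 0 ∧ c = List.ofFn w := by
  rw [LL_eq]
  simp only [List.mem_map, List.mem_permutations']
  have h7 : (0 :: [1, 2, 3, 4, 5, 6] : List (Fin 7)) = List.finRange 7 := by decide
  constructor
  · rintro ⟨t, ht, rfl⟩
    have hp : (0 :: t).Perm (List.finRange 7) := h7 ▸ ht.cons 0
    have hl : (0 :: t).length = 7 := by simpa using hp.length_eq
    have hn : (0 :: t).Nodup := hp.nodup_iff.2 (List.nodup_finRange 7)
    refine ⟨fun i => (0 :: t).get (i.cast hl.symm), ?_, rfl, ?_⟩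
    · refine Finite.injective_iff_bijective.1 fun i j hij => ?_
      have := (List.Nodup.get_inj_iff hn).1 hij
      exact Fin.cast_injective _ this
    · apply List.ext_get (by simp [hl])
      intro n h1 h2
      rw [List.get_ofFn]; rfl
  · rintro ⟨w, hw, h0, rfl⟩
    have hp : (List.ofFn w).Perm (List.finRange 7) := by
      rw [List.ofFn_eq_map]
      exact Equiv.Perm.map_finRange_perm (Equiv.ofBijective w hw)
    refine ⟨(List.ofFn w).tail, ?_, ?_⟩
    · have e : List.ofFn w = 0 :: (List.ofFn w).tail := by
        rw [List.ofFn_succ, h0]; rfl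
      rw [e, ← h7] at hp
      exact (List.perm_cons 0).1 hp
    · rw [List.ofFn_succ, h0]; rfl

theorem avoid_ofFn (u v : Fin 7) (w : Fin 7 → Fin 7) :
    avoid u v (List.ofFn w) = true ↔ ∀ i, ¬ (w i = u ∧ w (i + 1) = v) := by
  have e : List.ofFn w = [w 0, w 1, w 2, w 3, w 4, w 5, w 6] := by
    simp [List.ofFn_succ]
  rw [e]
  simp only [avoid, Bool.not_eq_true', Bool.or_eq_false_iff, Bool.and_eq_false_iff,
    beq_eq_false_iff_ne, Fin.forall_fin_succ, not_and_or]
  simp [and_assoc]

theorem mem_EE (i j : Fin 7) : (i, j) ∈ EE ↔ i < j := by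
  revert i j; decide

theorem ok_iff (A : Fin 7 → Fin 7 → Prop) [DecidableRel A] (hA : IsTournament A)
    (w : Fin 7 → Fin 7) (hw : Function.Bijective w) :
    (EE.all fun e => if decide (A e.1 e.2) then avoid e.2 e.1 (List.ofFn w)
      else avoid e.1 e.2 (List.ofFn w)) = true ↔ ∀ i, A (w i) (w (i + 1)) := by
  rw [List.all_eq_true]
  constructor
  · intro h i
    have hne : w i ≠ w (i + 1) := fun e => by
      have key : ∀ i : Fin 7, i ≠ i + 1 := by decide
      exact key i (hw.1 e)
    rcases lt_or_gt_of_ne hne with hl | hl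
    · have := h _ ((mem_EE _ _).2 hl)
      by_contra hc
      simp only [hc, decide_false, Bool.false_eq_true, if_false, avoid_ofFn] at this
      exact this i ⟨rfl, rfl⟩
    · have := h _ ((mem_EE _ _).2 hl)
      rw [hA.2 _ _ hne]
      intro hc
      simp only [hc, decide_true, if_true, avoid_ofFn] at this
      exact this i ⟨rfl, rfl⟩
  · rintro h ⟨u, v⟩ he
    have hl := (mem_EE _ _).1 he
    by_cases hc : A u v
    · simp only [hc, decide_true, if_true, avoid_ofFn]
      rintro i ⟨h1, h2⟩
      have := h i
      rw [h1, h2] at this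
      exact (hA.2 _ _ hl.ne).1 hc this
    · simp only [hc, decide_false, Bool.false_eq_true, if_false, avoid_ofFn]
      rintro i ⟨h1, h2⟩
      have := h i
      rw [h1, h2] at this
      exact hc this

/-- arcs of a vertex list -/
def arcsL (c : List (Fin 7)) : Set (Fin 7 × Fin 7) :=
  Set.range fun i : Fin 7 => (c.getD i 0, c.getD (i + 1 : Fin 7) 0)

theorem arcsL_ofFn (w : Fin 7 → Fin 7) :
    arcsL (List.ofFn w) = Set.range fun i => (w i, w (i + 1)) := by
  unfold arcsL
  congr 1
  funext i
  simp only [List.getD_eq_getElem?_getD, List.getElem?_ofFn, Fin.is_lt, dite_true, Fin.eta,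
    Option.getD_some]

theorem ncard_eq (A : Fin 7 → Fin 7 → Prop) [DecidableRel A] (hA : IsTournament A) :
    (circuits A).ncard = LL.countP fun c => true && EE.all fun e =>
      if decide (A e.1 e.2) then avoid e.2 e.1 c else avoid e.1 e.2 c := by
  set Q : List (Fin 7) → Bool := fun c => true && EE.all fun e =>
      if decide (A e.1 e.2) then avoid e.2 e.1 c else avoid e.1 e.2 c with hQ
  have hQ' : ∀ w : Fin 7 → Fin 7, Function.Bijective w →
      (Q (List.ofFn w) = true ↔ ∀ i, A (w i) (w (i + 1))) := by
    intro w hw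
    rw [hQ]
    simp only [Bool.true_and]
    exact ok_iff A hA w hw
  have him : circuits A = arcsL '' ((LL.filter Q).toFinset : Set (List (Fin 7))) := by
    ext C
    simp only [circuits, Set.mem_ofPred_eq, finRotate_apply, Set.mem_image, Finset.mem_coe,
      List.mem_toFinset, List.mem_filter]
    constructor
    · rintro ⟨-, v, hv, hA', rfl⟩
      obtain ⟨k, hk⟩ := hv.2 0
      have hb : Function.Bijective fun i : Fin 7 => v (i + k) :=
        hv.comp (Equiv.addRight k).bijective
      refine ⟨List.ofFn fun i => v (i + k), ⟨(mem_LL _).2 ⟨_, hb, by simpa using hk, rfl⟩, ?_⟩, ?_⟩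
      · rw [hQ' _ hb]
        intro i
        have := hA' (i + k)
        rwa [add_right_comm] at this
      · rw [arcsL_ofFn]
        ext p
        constructor
        · rintro ⟨i, rfl⟩
          exact ⟨i + k, by simp only [add_right_comm]⟩
        · rintro ⟨i, rfl⟩
          exact ⟨i - k, by simp only [add_right_comm, sub_add_cancel]⟩
    · rintro ⟨c, ⟨hc, hq⟩, rfl⟩
      obtain ⟨w, hw, -, rfl⟩ := (mem_LL c).1 hc
      exact ⟨by norm_num, w, hw, (hQ' w hw).1 hq, arcsL_ofFn w⟩
  rw [him, Set.InjOn.ncard_image, Set.ncard_coe_finset,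
    List.toFinset_card_of_nodup (LL_nodup.filter _), List.countP_eq_length_filter]
  intro c hc d hd e
  simp only [Finset.mem_coe, List.mem_toFinset, List.mem_filter] at hc hd
  obtain ⟨w, hw, h0, rfl⟩ := (mem_LL c).1 hc.1
  obtain ⟨z, hz, g0, rfl⟩ := (mem_LL d).1 hd.1
  rw [arcsL_ofFn, arcsL_ofFn] at e
  have step : ∀ i, w i = z i → w (i + 1) = z (i + 1) := by
    intro i hi
    have : (w i, w (i + 1)) ∈ Set.range fun i => (z i, z (i + 1)) := e ▸ ⟨i, rfl⟩
    obtain ⟨j, hj⟩ := this
    simp only [Prod.mk.injEq] at hj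
    have : j = i := hz.1 (hj.1.trans hi)
    rw [← hj.2, this]
  have h1 := step 0 (h0.trans g0.symm)
  have h2 := step _ h1
  have h3 := step _ h2
  have h4 := step _ h3
  have h5 := step _ h4
  have h6 := step _ h5
  congr 1
  funext i
  fin_cases i
  exacts [h0.trans g0.symm, h1, h2, h3, h4, h5, h6]

theorem ne23 (A : Fin 7 → Fin 7 → Prop) (hA : IsTournament A) : (circuits A).ncard ≠ 23 := by
  letI : DecidableRel A := Classical.decRel A
  have := go_sound LL (by rw [LL_len]; norm_num) (fun e : Fin 7 × Fin 7 => avoid e.2 e.1)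
    (fun e => avoid e.1 e.2) (fun e => decide (A e.1 e.2)) EE ms (fun _ => true) S0 ms_eq S0_eq run
  rw [ncard_eq A hA]
  exact this

/-- the quadratic residue tournament on 7 vertices -/
def QR (u v : Fin 7) : Prop := v = u + 1 ∨ v = u + 2 ∨ v = u + 4

instance : DecidableRel QR := fun u v => by unfold QR; infer_instance

theorem QR_tour : IsTournament QR := by
  constructor
  · decide
  · decide

theorem QR_24 : (circuits QR).ncard = 24 := by
  rw [ncard_eq QR QR_tour]
  decide +kernel

theorem le_hmax : 24 ≤ hmax 7 := by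
  refine le_csSup ?_ ⟨QR, QR_tour, QR_24⟩
  refine Set.Finite.bddAbove ?_
  refine (Set.finite_range fun A : Fin 7 → Fin 7 → Prop => (circuits A).ncard).subset ?_
  rintro h ⟨A, -, rfl⟩
  exact ⟨A, rfl⟩

end Pool.Agent.H14.Ham
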