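import Mathlib

set_option autoImplicit false

namespace Pool.Agent.H14.IdDefs

/-- `H` is a minor of `G`: there are pairwise disjoint connected branch sets, one for each vertex
of `H`, with an edge of `G` between the branch sets of any two adjacent vertices of `H`. -/
def IsMinor {W V : Type} (H : SimpleGraph W) (G : SimpleGraph V) : Prop :=
  ∃ B : W → Set V, (∀ x, (G.induce (B x)).Connected) ∧ (∀ x y, x ≠ y → Disjoint (B x) (B y)) ∧
    ∀ x y, H.Adj x y → ∃ u ∈ B x, ∃ v ∈ B y, G.Adj u v

/-- A class of finite graphs containing every minor of each member (so closed under isomorphism). -/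
def MinorClosed (C : ∀ V : Type, SimpleGraph V → Prop) : Prop :=
  ∀ (W V : Type) [Finite W] [Finite V] (H : SimpleGraph W) (G : SimpleGraph V),
    IsMinor H G → C V G → C W H

/-- Identify each class of `s` to one vertex. -/
def quot {V : Type} (G : SimpleGraph V) (s : Setoid V) : SimpleGraph (Quotient s) where
  Adj a b := a ≠ b ∧ ∃ u v, Quotient.mk s u = a ∧ Quotient.mk s v = b ∧ G.Adj u v
  symm := ⟨fun _ _ ⟨h, u, v, h1, h2, h3⟩ => ⟨h.symm, v, u, h2, h1, h3.symm⟩⟩
  loopless := ⟨fun _ h => h.1 rfl⟩

/-- `G` admits a `k`-identification to `C`: a partition of a set `X` of at most `k` vertices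
(extended by singletons) whose identification gives a graph in `C`. -/
def Ident (C : ∀ V : Type, SimpleGraph V → Prop) {V : Type} (G : SimpleGraph V) (k : ℕ) : Prop :=
  ∃ (X : Finset V) (s : Setoid V), X.card ≤ k ∧ (∀ u v, s u v → u = v ∨ (u ∈ X ∧ v ∈ X)) ∧
    C _ (quot G s)

/-- The partition whose only non-singleton class is `{a, b}`. -/
def pairSetoid {V : Type} (a b : V) : Setoid V where
  r u v := u = v ∨ ((u = a ∨ u = b) ∧ (v = a ∨ v = b))
  iseqv := ⟨fun _ => Or.inl rfl, fun h => h.elim (fun e => Or.inl e.symm) fun e => Or.inr e.symm, by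
    rintro x y z (rfl | h1) (rfl | h2)
    · exact Or.inl rfl
    · exact Or.inr h2
    · exact Or.inr h1
    · exact Or.inr ⟨h1.1, h2.2⟩⟩

/-- Some sequence of exactly `k` successive edge contractions turns `G` into a graph in `C`. -/
def Contr (C : ∀ V : Type, SimpleGraph V → Prop) : ℕ → ∀ V : Type, SimpleGraph V → Prop
  | 0, V, G => C V G
  | k + 1, _, G => ∃ a b, G.Adj a b ∧ Contr C k _ (quot G (pairSetoid a b))

end Pool.Agent.H14.IdDefs
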