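import Mathlib

set_option autoImplicit false

namespace Pool.Agent.H14.Kneser

open Finset Pointwise

variable {G : Type*} [AddCommGroup G] [Fintype G] [DecidableEq G]

def stab (S : Finset G) : Finset G := univ.filter fun g => ∀ x ∈ S, x + g ∈ S

def IsSub (H : Finset G) : Prop := (0 : G) ∈ H ∧ (∀ x ∈ H, ∀ y ∈ H, x + y ∈ H) ∧ ∀ x ∈ H, -x ∈ H

def Per (X H : Finset G) : Prop := ∀ x ∈ X, ∀ h ∈ H, x + h ∈ X

theorem mem_stab {S : Finset G} {g : G} : g ∈ stab S ↔ ∀ x ∈ S, x + g ∈ S := by simp [stab]

theorem stab_sub (S : Finset G) : IsSub (stab S) := by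
  refine ⟨mem_stab.2 fun x hx => by simpa using hx, fun a ha b hb => mem_stab.2 fun x hx => ?_,
    fun a ha => mem_stab.2 fun x hx => ?_⟩
  · rw [← add_assoc]; exact mem_stab.1 hb _ (mem_stab.1 ha _ hx)
  · have h1 : S.image (· + a) = S := by
      apply eq_of_subset_of_card_le
      · intro y hy
        obtain ⟨z, hz, rfl⟩ := mem_image.1 hy
        exact mem_stab.1 ha _ hz
      · rw [card_image_of_injective _ (add_left_injective a)]
    rw [← h1] at hx
    obtain ⟨z, hz, rfl⟩ := mem_image.1 hx
    simpa using hz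

theorem per_stab (S : Finset G) : Per S (stab S) := fun x hx _ hh => mem_stab.1 hh x hx

omit [Fintype G] in
theorem per_add (X : Finset G) {H : Finset G} (hH : IsSub H) : Per (X + H) H := by
  intro y hy h hh
  obtain ⟨x, hx, k, hk, rfl⟩ := mem_add.1 hy
  rw [add_assoc]
  exact add_mem_add hx (hH.2.1 _ hk _ hh)

omit [Fintype G] in
theorem sub_add (X : Finset G) {H : Finset G} (hH : IsSub H) : X ⊆ X + H := fun x hx =>
  mem_add.2 ⟨x, hx, 0, hH.1, add_zero x⟩

omit [Fintype G] in
theorem Per.add_eq {X H : Finset G} (h : Per X H) (hH : IsSub H) : X + H = X := by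
  refine Subset.antisymm (fun y hy => ?_) (sub_add X hH)
  obtain ⟨x, hx, k, hk, rfl⟩ := mem_add.1 hy
  exact h x hx k hk

omit [Fintype G] in
theorem Per.add_right {X H : Finset G} (h : Per X H) (Y : Finset G) : Per (X + Y) H := by
  intro z hz k hk
  obtain ⟨x, hx, y, hy, rfl⟩ := mem_add.1 hz
  rw [add_right_comm]
  exact add_mem_add (h x hx k hk) hy

theorem Per.sub_stab {X H : Finset G} (h : Per X H) : H ⊆ stab X := fun g hg =>
  mem_stab.2 fun x hx => h x hx g hg

/-- the coset `a + H`. -/
def cos (a : G) (H : Finset G) : Finset G := H.image (a + ·)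

omit [Fintype G] in
theorem mem_cos {a x : G} {H : Finset G} : x ∈ cos a H ↔ x - a ∈ H := by
  simp only [cos, mem_image]
  constructor
  · rintro ⟨h, hh, rfl⟩; simpa using hh
  · intro h; exact ⟨_, h, by simp⟩

omit [Fintype G] in
theorem card_cos (a : G) (H : Finset G) : (cos a H).card = H.card :=
  card_image_of_injective _ (add_right_injective a)

omit [Fintype G] [DecidableEq G] in
theorem IsSub.sub {H : Finset G} (hH : IsSub H) {x y : G} (hx : x ∈ H) (hy : y ∈ H) : x - y ∈ H := by
  rw [sub_eq_add_neg]; exact hH.2.1 _ hx _ (hH.2.2 _ hy)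

omit [Fintype G] in
theorem Per.dvd {H : Finset G} (hH : IsSub H) (X : Finset G) (h : Per X H) : H.card ∣ X.card := by
  induction X using Finset.strongInduction with
  | H X ih =>
    rcases X.eq_empty_or_nonempty with rfl | ⟨a, ha⟩
    · simp
    have h1 : cos a H ⊆ X := fun x hx => by simpa using h a ha _ (mem_cos.1 hx)
    have h2 := ih (X \ cos a H) (sdiff_ssubset h1 ⟨a, mem_cos.2 (by simpa using hH.1)⟩) (by
      intro x hx k hk
      obtain ⟨h3, h4⟩ := mem_sdiff.1 hx
      refine mem_sdiff.2 ⟨h x h3 k hk, fun h5 => h4 (mem_cos.2 ?_)⟩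
      have := hH.sub (mem_cos.1 h5) hk
      rwa [show x + k - a - k = x - a by abel] at this)
    rw [← card_sdiff_add_card_eq_card h1, card_cos]
    exact dvd_add h2 dvd_rfl

omit [Fintype G] in
theorem card_diff {U H L : Finset G} (hH : IsSub H) (hLH : L ⊆ H) {a : G} (ha : a ∈ U) :
    (U + L).card + H.card ≤ (U + H).card + ((U ∩ cos a H) + L).card := by
  have h1 : cos a H ⊆ U + H := fun x hx => mem_add.2 ⟨a, ha, _, mem_cos.1 hx, by simp⟩
  have h2 : U + L ⊆ ((U + H) \ cos a H) ∪ ((U ∩ cos a H) + L) := by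
    intro y hy
    obtain ⟨u, hu, l, hl, rfl⟩ := mem_add.1 hy
    by_cases hc : u + l ∈ cos a H
    · refine mem_union_right _ (add_mem_add (mem_inter.2 ⟨hu, mem_cos.2 ?_⟩) hl)
      have := hH.sub (mem_cos.1 hc) (hLH hl)
      rwa [show u + l - a - l = u - a by abel] at this
    · exact mem_union_left _ (mem_sdiff.2 ⟨add_mem_add hu (hLH hl), hc⟩)
  have h3 := (card_le_card h2).trans (card_union_le _ _)
  have h4 := card_sdiff_add_card_eq_card h1
  rw [card_cos] at h4
  omega

theorem stab_union {C D : Finset G} {c : G} (hD : D.Nonempty) (hDc : D ⊆ cos c (stab C))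
    (hne : ¬ cos c (stab C) ⊆ C ∪ D) :
    stab (C ∪ D) = stab D ∧ stab D ⊆ stab C ∧ stab D ≠ stab C ∧ Disjoint C D := by
  have hH := stab_sub C
  obtain ⟨d, hd⟩ := hD
  have hdis : ∀ x ∈ C, x ∉ cos c (stab C) := by
    intro x hx hx2
    refine hne fun y hy => mem_union_left _ ?_
    have := per_stab C x hx _ (hH.sub (mem_cos.1 hy) (mem_cos.1 hx2))
    rwa [show x + (y - c - (x - c)) = y by abel] at this
  have h1 : stab D ⊆ stab C := by
    intro g hg
    have := hH.sub (mem_cos.1 (hDc (mem_stab.1 hg d hd))) (mem_cos.1 (hDc hd))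
    rwa [show d + g - c - (d - c) = g by abel] at this
  refine ⟨?_, h1, ?_, disjoint_left.2 fun x hx hx2 => hdis x hx (hDc hx2)⟩
  · apply Subset.antisymm
    · intro g hg
      refine mem_stab.2 fun x hx => ?_
      rcases mem_union.1 (mem_stab.1 hg x (mem_union_right _ hx)) with h | h
      · exfalso
        refine hne fun y hy => ?_
        have h2 := per_stab C _ h _ (hH.sub (mem_cos.1 hy) (mem_cos.1 (hDc hx)))
        have h3 := mem_stab.1 ((stab_sub (C ∪ D)).2.2 g hg) _ (mem_union_left _ h2)
        rwa [show x + g + (y - c - (x - c)) + -g = y by abel] at h3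
      · exact h
    · intro g hg
      refine mem_stab.2 fun x hx => ?_
      rcases mem_union.1 hx with h | h
      · exact mem_union_left _ (mem_stab.1 (h1 hg) x h)
      · exact mem_union_right _ (mem_stab.1 hg x h)
  · intro e
    refine hne fun y hy => mem_union_right _ ?_
    have := per_stab D d hd _ (e ▸ hH.sub (mem_cos.1 hy) (mem_cos.1 (hDc hd)))
    rwa [show d + (y - c - (d - c)) = y by abel] at this

def KN (A B : Finset G) : Prop :=
  (A + stab (A + B)).card + (B + stab (A + B)).card ≤ (A + B).card + (stab (A + B)).card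

theorem core (A B : Finset G) (hA : Per A (stab (A + B))) (hB : Per B (stab (A + B)))
    (hI : (A ∩ B).Nonempty) (h0 : KN (A ∩ B) (A ∪ B))
    (ih : ∀ A' B' : Finset G, A'.Nonempty → B'.Nonempty → (A' + B').card < (A + B).card →
      KN A' B') : A.card + B.card ≤ (A + B).card + (stab (A + B)).card := by
  by_contra hcon
  set K := stab (A + B) with hK
  have hKs : IsSub K := stab_sub _
  let conv : Finset (Finset G) := univ.filter fun C => C.Nonempty ∧ C ⊆ A + B ∧ K ⊆ stab C ∧
    (A ∩ B).card + ((A ∪ B) + stab C).card ≤ C.card + (stab C).card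
  have hc0 : (A ∩ B) + (A ∪ B) ∈ conv := by
    refine mem_filter.2 ⟨mem_univ _, hI.add (hI.mono inter_subset_union), inter_add_union_subset,
      Per.sub_stab (Per.add_right (fun x hx k hk => mem_inter.2
        ⟨hA x (mem_inter.1 hx).1 k hk, hB x (mem_inter.1 hx).2 k hk⟩) _), ?_⟩
    have := card_le_card (sub_add (A ∩ B) (stab_sub ((A ∩ B) + (A ∪ B))))
    unfold KN at h0
    omega
  obtain ⟨C, hC, hmin⟩ := exists_min_image conv (fun C => (stab C).card) ⟨_, hc0⟩
  obtain ⟨-, hCne, hCsub, hKH, hCc⟩ := mem_filter.1 hC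
  set H := stab C with hH
  have hHs : IsSub H := stab_sub _
  have hIU := card_union_add_card_inter A B
  have hex : ∃ a ∈ A, ∃ b ∈ B, ¬ cos (a + b) H ⊆ A + B := by
    by_contra hc
    push Not at hc
    have h1 : H ⊆ K := by
      intro g hg
      refine mem_stab.2 fun x hx => ?_
      obtain ⟨a, ha, b, hb, rfl⟩ := mem_add.1 hx
      exact hc a ha b hb (mem_cos.2 (by simpa using hg))
    have h2 := card_le_card h1
    have h3 := card_le_card (sub_add (A ∪ B) hHs)
    have h4 := card_le_card hCsub
    omega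
  obtain ⟨a, ha, b, hb, hab⟩ := hex
  have step : ∀ A' B' : Finset G, A'.Nonempty → B'.Nonempty → A' ⊆ A → B' ⊆ B → Per A' K →
      A' + B' ⊆ cos (a + b) H → ∃ L, IsSub L ∧ L ⊆ H ∧
        ((A ∪ B) + H).card + (A' + L).card + (B' + L).card < ((A ∪ B) + L).card + H.card ∧
        A'.card + B'.card + L.card ≤ H.card ∧
        C.card + A'.card + B'.card ≤ (A + B).card + L.card := by
    intro A' B' n1 n2 s1 s2 p1 hc
    have hsub : A' + B' ⊆ A + B := add_subset_add s1 s2
    obtain ⟨e1, e2, e3, e4⟩ := stab_union (C := C) (n1.add n2) hc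
      (fun h => hab (h.trans (union_subset hCsub hsub)))
    rw [← hH] at e2 e3
    have hLs := stab_sub (A' + B')
    have c1 := card_le_card (union_subset hCsub hsub)
    have c2 := card_union_of_disjoint e4
    have c3 := card_pos.2 hCne
    have k1 : KN A' B' := ih A' B' n1 n2 (by omega)
    unfold KN at k1
    have k2 : ¬ ((A ∩ B).card + ((A ∪ B) + stab (A' + B')).card ≤
        (C ∪ (A' + B')).card + (stab (A' + B')).card) := by
      intro h
      have := hmin (C ∪ (A' + B')) (mem_filter.2 ⟨mem_univ _, hCne.mono subset_union_left,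
        union_subset hCsub hsub, e1 ▸ (p1.add_right B').sub_stab, by rw [e1]; exact h⟩)
      rw [e1] at this
      exact e3 (eq_of_subset_of_card_le e2 this)
    have c4 := card_le_card (add_subset_add_left (s := A ∪ B) e2)
    have c5 := card_le_card (sub_add A' hLs)
    have c6 := card_le_card (sub_add B' hLs)
    refine ⟨_, hLs, e2, by omega, ?_, by omega⟩
    obtain ⟨x, hx⟩ := Per.dvd hLs _ (per_add A' hLs)
    obtain ⟨y, hy⟩ := Per.dvd hLs _ (per_add B' hLs)
    obtain ⟨z, hz⟩ := Per.dvd hLs H (fun u hu v hv => hHs.2.1 u hu v (e2 hv))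
    have c7 : (stab (A' + B')).card * (x + y) < (stab (A' + B')).card * z := by
      rw [mul_add, ← hx, ← hy, ← hz]; omega
    have c8 := Nat.mul_le_mul_left (stab (A' + B')).card
      (Nat.succ_le_of_lt (lt_of_mul_lt_mul_left c7 (Nat.zero_le _)))
    rw [Nat.succ_eq_add_one, mul_add, mul_add, ← hx, ← hy, ← hz, mul_one] at c8
    omega
  have perc : ∀ c, Per (A ∩ cos c H) K := by
    intro c x hx k hk
    obtain ⟨h1, h2⟩ := mem_inter.1 hx
    refine mem_inter.2 ⟨hA x h1 k hk, mem_cos.2 ?_⟩
    have := hHs.2.1 _ (mem_cos.1 h2) _ (hKH hk)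
    rwa [show x - c + k = x + k - c by abel] at this
  have addc : ∀ c d, c + d = a + b → (A ∩ cos c H) + (B ∩ cos d H) ⊆ cos (a + b) H := by
    intro c d e z hz
    obtain ⟨x, hx, y, hy, rfl⟩ := mem_add.1 hz
    have := hHs.2.1 _ (mem_cos.1 (mem_inter.1 hx).2) _ (mem_cos.1 (mem_inter.1 hy).2)
    rw [mem_cos, ← e]
    rwa [show x - c + (y - d) = x + y - (c + d) by abel] at this
  have selfc : ∀ c, c ∈ cos c H := fun c => mem_cos.2 (by simpa using hHs.1)
  obtain ⟨L1, l1, l2, l3, l4, l5⟩ := step (A ∩ cos a H) (B ∩ cos b H)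
    ⟨a, mem_inter.2 ⟨ha, selfc a⟩⟩ ⟨b, mem_inter.2 ⟨hb, selfc b⟩⟩ inter_subset_left
    inter_subset_left (perc a) (addc a b rfl)
  have d1 := card_diff (U := A ∪ B) hHs l2 (mem_union_left B ha)
  have d2 := card_diff (U := A ∪ B) hHs l2 (mem_union_right A hb)
  rw [union_inter_distrib_right] at d1 d2
  have n1 : (B ∩ cos a H).Nonempty := by
    by_contra h
    rw [not_nonempty_iff_eq_empty.1 h, union_empty] at d1
    omega
  have n2 : (A ∩ cos b H).Nonempty := by
    by_contra h
    rw [not_nonempty_iff_eq_empty.1 h, empty_union] at d2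
    omega
  have n3 : Disjoint (cos a H) (cos b H) := by
    rw [disjoint_left]
    intro x h1 h2
    have e : cos a H = cos b H := by
      ext y
      rw [mem_cos, mem_cos]
      have h3 := hHs.sub (mem_cos.1 h1) (mem_cos.1 h2)
      constructor
      · intro h
        have := hHs.sub h h3
        rwa [show y - a - (x - a - (x - b)) = y - b by abel] at this
      · intro h
        have := hHs.2.1 _ h _ h3
        rwa [show y - b + (x - a - (x - b)) = y - a by abel] at this
    have := card_union_le (A ∩ cos b H + L1) (B ∩ cos b H + L1)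
    rw [e] at l3
    rw [union_add (s₁ := A ∩ cos b H)] at d2
    omega
  obtain ⟨L2, -, -, -, m4, m5⟩ := step (A ∩ cos b H) (B ∩ cos a H) n2 n1 inter_subset_left
    inter_subset_left (perc b) (addc b a (add_comm _ _))
  have f1 : (A ∪ B) ∪ (cos a H \ (A ∪ B) ∪ cos b H \ (A ∪ B)) ⊆ (A ∪ B) + H := by
    refine union_subset (sub_add _ hHs) (union_subset ?_ ?_)
    · intro x hx
      exact mem_add.2 ⟨a, mem_union_left _ ha, _, mem_cos.1 (mem_sdiff.1 hx).1, by simp⟩
    · intro x hx
      exact mem_add.2 ⟨b, mem_union_right _ hb, _, mem_cos.1 (mem_sdiff.1 hx).1, by simp⟩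
  have f2 := card_le_card f1
  rw [card_union_of_disjoint (disjoint_union_right.2 ⟨disjoint_sdiff, disjoint_sdiff⟩),
    card_union_of_disjoint (n3.mono sdiff_subset sdiff_subset)] at f2
  have f3 : ∀ c, H.card ≤ (cos c H \ (A ∪ B)).card + (A ∩ cos c H).card + (B ∩ cos c H).card := by
    intro c
    have g1 := card_sdiff_add_card_inter (cos c H) (A ∪ B)
    rw [card_cos, inter_comm, union_inter_distrib_right] at g1
    have := card_union_le (A ∩ cos c H) (B ∩ cos c H)
    omega
  have f4 := f3 a
  have f5 := f3 b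
  omega

theorem kneser_aux (n : ℕ) : ∀ (m : ℕ) (A B : Finset G), A.Nonempty → B.Nonempty →
    (A + B).card = n → (A + stab (A + B)).card = m → KN A B := by
  induction n using Nat.strong_induction_on with
  | _ n ihn =>
  intro m
  induction m using Nat.strong_induction_on with
  | _ m ihm =>
  intro A B hA hB hn hm
  set K := stab (A + B) with hK
  have hKs : IsSub K := stab_sub _
  obtain ⟨a, ha⟩ := hA
  by_cases hc : ∀ a' ∈ A, a' - a ∈ K
  · have h1 : A + K ⊆ cos a K := by
      intro x hx
      obtain ⟨y, hy, k, hk, rfl⟩ := mem_add.1 hx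
      have := hKs.2.1 _ (hc y hy) _ hk
      rw [mem_cos]
      rwa [show y - a + k = y + k - a by abel] at this
    have h2 : cos a (B + K) ⊆ A + B := by
      intro x hx
      obtain ⟨y, hy, k, hk, e⟩ := mem_add.1 (mem_cos.1 hx)
      have := per_stab (A + B) _ (add_mem_add ha hy) k hk
      rwa [add_assoc, e, add_sub_cancel] at this
    have h3 := card_le_card h1
    have h4 := card_le_card h2
    rw [card_cos] at h3 h4
    unfold KN
    rw [← hK]
    omega
  push Not at hc
  obtain ⟨a', ha', hk⟩ := hc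
  have hb : ∃ b ∈ B + K, b + (a' - a) ∉ B + K := by
    by_contra h
    push Not at h
    refine hk (mem_stab.2 fun x hx => ?_)
    obtain ⟨u, hu, v, hv, rfl⟩ := mem_add.1 hx
    obtain ⟨y, hy, k, hk', e⟩ := mem_add.1 (h v (sub_add B hKs hv))
    have := per_stab (A + B) _ (add_mem_add hu hy) k hk'
    rwa [add_assoc, e, ← add_assoc] at this
  obtain ⟨b, hb1, hb2⟩ := hb
  have hsum : (A + K) + cos (a - b) (B + K) = cos (a - b) (A + B) := by
    ext x
    rw [mem_cos]
    constructor
    · intro hx
      obtain ⟨_, h1, y, h2, rfl⟩ := mem_add.1 hx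
      obtain ⟨u, hu, k, hk, rfl⟩ := mem_add.1 h1
      obtain ⟨v, hv, l, hl, e⟩ := mem_add.1 (mem_cos.1 h2)
      have := per_stab (A + B) _ (add_mem_add hu hv) _ (hKs.2.1 _ hk _ hl)
      rwa [show u + v + (k + l) = u + k + (v + l) by abel, e, ← add_sub_assoc] at this
    · intro hx
      obtain ⟨u, hu, v, hv, e⟩ := mem_add.1 hx
      refine mem_add.2 ⟨u, sub_add A hKs hu, v + (a - b), mem_cos.2 ?_, ?_⟩
      · simpa using sub_add B hKs hv
      · rw [← add_assoc, e]; abel
  have hst : stab (cos (a - b) (A + B)) = K := by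
    ext g
    rw [hK, mem_stab, mem_stab]
    constructor
    · intro h x hx
      have := mem_cos.1 (h (x + (a - b)) (mem_cos.2 (by simpa using hx)))
      rwa [show x + (a - b) + g - (a - b) = x + g by abel] at this
    · intro h x hx
      have := h _ (mem_cos.1 hx)
      rw [mem_cos]
      rwa [show x - (a - b) + g = x + g - (a - b) by abel] at this
  have pA : Per (A + K) K := per_add A hKs
  have pB : Per (cos (a - b) (B + K)) K := by
    intro x hx k hk
    have := per_add B hKs _ (mem_cos.1 hx) k hk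
    rw [mem_cos]
    rwa [show x - (a - b) + k = x + k - (a - b) by abel] at this
  have hI : ((A + K) ∩ cos (a - b) (B + K)).Nonempty :=
    ⟨a, mem_inter.2 ⟨sub_add A hKs ha, mem_cos.2 (by simpa using hb1)⟩⟩
  have hcore := core (A + K) (cos (a - b) (B + K)) (by rw [hsum, hst]; exact pA)
    (by rw [hsum, hst]; exact pB) hI ?_ ?_
  · rw [hsum, hst, card_cos, card_cos] at hcore
    exact hcore
  · have hsub : ((A + K) ∩ cos (a - b) (B + K)) + ((A + K) ∪ cos (a - b) (B + K))
        ⊆ cos (a - b) (A + B) := hsum ▸ inter_add_union_subset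
    have hle := card_le_card hsub
    rw [card_cos, hn] at hle
    rcases hle.lt_or_eq with h | h
    · exact ihn _ h _ _ _ hI (hI.mono inter_subset_union) rfl rfl
    · refine ihm _ ?_ _ _ hI (hI.mono inter_subset_union) h rfl
      rw [eq_of_subset_of_card_le hsub (by rw [card_cos, hn, h]), hst, Per.add_eq _ hKs, ← hm]
      · refine card_lt_card (Finset.ssubset_iff_subset_ne.2 ⟨inter_subset_left, fun e => hb2 ?_⟩)
        have := mem_cos.1 (mem_inter.1 (e.symm ▸ sub_add A hKs ha')).2
        rwa [show a' - (a - b) = b + (a' - a) by abel] at this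
      · intro x hx k hk
        exact mem_inter.2 ⟨pA x (mem_inter.1 hx).1 k hk, pB x (mem_inter.1 hx).2 k hk⟩
  · intro A' B' h1 h2 h3
    rw [hsum, card_cos, hn] at h3
    exact ihn _ h3 _ _ _ h1 h2 rfl rfl

/-- Kneser's addition theorem. -/
theorem kneser (A B : Finset G) (hA : A.Nonempty) (hB : B.Nonempty) :
    (A + stab (A + B)).card + (B + stab (A + B)).card ≤ (A + B).card + (stab (A + B)).card :=
  kneser_aux _ _ A B hA hB rfl rfl

theorem kneser_nsmul (A : Finset G) (hA : A.Nonempty) (s : ℕ) :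
    (s + 1) * (A + stab ((s + 1) • A)).card ≤
      ((s + 1) • A).card + s * (stab ((s + 1) • A)).card := by
  set H := stab ((s + 1) • A) with hH
  have hHs : IsSub H := stab_sub _
  have key : ∀ j ≤ s, (j + 1) * (A + H).card ≤ ((j + 1) • A + H).card + j * H.card := by
    intro j hj
    induction j with
    | zero => simp
    | succ j ih =>
      have ih := ih (by omega)
      have hne : ((j + 1) • A + H).Nonempty := (hA.nsmul).add ⟨0, hHs.1⟩
      have e : ((j + 1) • A + H) + A = (j + 1 + 1) • A + H := by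
        rw [succ_nsmul A (j + 1), add_right_comm]
      have hst : stab ((j + 1 + 1) • A + H) = H := by
        refine Subset.antisymm ?_ (per_add _ hHs).sub_stab
        have e2 : ((j + 1 + 1) • A + H) + (s - (j + 1)) • A = (s + 1) • A := by
          rw [add_right_comm, ← add_nsmul, show j + 1 + 1 + (s - (j + 1)) = s + 1 by omega]
          exact (per_stab _).add_eq hHs
        have e3 := ((per_stab ((j + 1 + 1) • A + H)).add_right ((s - (j + 1)) • A)).sub_stab
        rw [e2] at e3
        exact e3
      have := kneser _ A hne hA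
      rw [e, hst, (per_add _ hHs).add_eq hHs] at this
      simp only [add_mul, one_mul] at ih ⊢
      omega
  have := key s le_rfl
  rwa [(per_stab _).add_eq hHs] at this

end Pool.Agent.H14.Kneser
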