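import Mathlib
import Pool.Agent.H14.Kneser

set_option autoImplicit false

namespace Pool.Agent.H14.KnApp

open Finset Pointwise Pool.Agent.H14.Kneser

/-- `[0,s]_± A = G`: every element is a signed sum of at most `s` terms from `A`. -/
def Spanning {G : Type} [AddCommGroup G] (s : ℕ) (A : Finset G) : Prop :=
  ∀ g : G, ∃ l : G → ℤ, ∑ a ∈ A, |l a| ≤ s ∧ g = ∑ a ∈ A, l a • a

theorem prime_fac (m : ℕ) (hm : m = 3 ∨ m = 4) (d : ℕ) (hd : d % m = m - 1) :
    ∃ p, p.Prime ∧ p ∣ d ∧ p % m = m - 1 := by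
  induction d using Nat.strong_induction_on with
  | _ d ih =>
    have h1 : d ≠ 1 := by rintro rfl; rcases hm with rfl | rfl <;> simp at hd
    have h0 : d ≠ 0 := by rintro rfl; rcases hm with rfl | rfl <;> simp at hd
    obtain ⟨q, hq, e, rfl⟩ := Nat.exists_prime_and_dvd h1
    by_cases h : q % m = m - 1
    · exact ⟨q, hq, dvd_mul_right _ _, h⟩
    · have he : e % m = m - 1 := by
        rw [Nat.mul_mod] at hd
        have a1 : q % m < m := Nat.mod_lt _ (by omega)
        have a2 : e % m < m := Nat.mod_lt _ (by omega)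
        generalize q % m = x at *
        generalize e % m = y at *
        rcases hm with rfl | rfl <;> interval_cases x <;> interval_cases y <;> simp_all
      have := hq.two_le
      obtain ⟨p, a1, a2, a3⟩ := ih e (by
        have : e ≠ 0 := by rintro rfl; simp at h0
        nlinarith [Nat.pos_of_ne_zero this]) he
      exact ⟨p, a1, a2.mul_left _, a3⟩

theorem even_symm {n : ℕ} [NeZero n] (hn : Odd n) (B : Finset (ZMod n)) (h0 : (0 : ZMod n) ∉ B)
    (hs : ∀ x ∈ B, -x ∈ B) : Even B.card := by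
  have := Finset.sum_involution (s := B) (f := fun _ => (1 : ZMod 2)) (fun x _ => -x)
    (fun _ _ => by decide) (fun x hx _ e => h0 (by
      have h2 : (2 : ZMod n) * x = 0 := by linear_combination -e
      have hu : IsUnit ((2 : ℕ) : ZMod n) := (ZMod.isUnit_iff_coprime 2 n).2 hn.coprime_two_left
      have h3 : x = 0 := (hu.mul_right_eq_zero).1 (by exact_mod_cast h2)
      rwa [h3] at hx)) hs (fun _ _ => neg_neg _)
  rw [sum_const, nsmul_eq_mul, mul_one] at this
  exact (ZMod.natCast_eq_zero_iff_even).1 this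

theorem card_pre {n d : ℕ} [NeZero n] (h : d ∣ n) (S : Finset (ZMod d)) :
    (univ.filter fun x : ZMod n => ZMod.castHom h (ZMod d) x ∈ S).card = S.card * (n / d) := by
  have hd : NeZero d := ⟨fun e => NeZero.ne n (by subst e; simpa using h)⟩
  have hs := ZMod.castHom_surjective h
  have key : ∀ T : Finset (ZMod d), (univ.filter fun x : ZMod n => ZMod.castHom h (ZMod d) x ∈ T).card
      = T.card * (univ.filter fun x : ZMod n => ZMod.castHom h (ZMod d) x = 0).card := by
    intro T
    rw [card_eq_sum_card_fiberwise (f := ZMod.castHom h (ZMod d)) (t := T)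
      (s := univ.filter fun x : ZMod n => ZMod.castHom h (ZMod d) x ∈ T)
      (fun x hx => (mem_filter.1 (mem_coe.1 hx)).2), ← smul_eq_mul, ← sum_const]
    apply sum_congr rfl
    intro y hy
    rw [filter_filter]
    refine Eq.trans ?_ (AddMonoidHom.card_fiber_eq_of_mem_range
      (ZMod.castHom h (ZMod d)).toAddMonoidHom (hs y) (hs 0))
    congr 1
    apply filter_congr
    intro x _
    exact ⟨fun h => h.2, fun h => ⟨(show ZMod.castHom _ (ZMod d) x = y from h) ▸ hy, h⟩⟩
  have h1 := key univ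
  simp only [mem_univ, filter_true, card_univ, ZMod.card] at h1
  rw [key S]
  congr 1
  exact (Nat.div_eq_of_eq_mul_right (NeZero.pos d) h1).symm

theorem card_Ico_cast {d : ℕ} [NeZero d] (a b : ℕ) (hb : b ≤ d) :
    (univ.filter fun x : ZMod d => a ≤ x.val ∧ x.val < b).card = b - a := by
  rw [← Nat.card_Ico]
  apply card_bij (fun x _ => x.val)
  · intro x hx; simpa using hx
  · intro x _ y _ e; exact ZMod.val_injective d e
  · intro y hy
    have := mem_Ico.1 hy
    exact ⟨y, by simpa [ZMod.val_cast_of_lt (show y < d by omega)] using this,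
      ZMod.val_cast_of_lt (by omega)⟩

section
variable {G : Type} [AddCommGroup G] [Fintype G] [DecidableEq G]

theorem sub_dvd {H : Finset G} (hH : IsSub H) : H.card ∣ Fintype.card G :=
  Per.dvd hH univ fun _ _ _ _ => mem_univ _

omit [Fintype G] in
theorem nsmul_span (A : Finset G) (s : ℕ) : ∀ g ∈ s • (insert 0 (A ∪ -A)),
    ∃ l : G → ℤ, ∑ a ∈ A, |l a| ≤ s ∧ g = ∑ a ∈ A, l a • a := by
  induction s with
  | zero =>
    intro g hg
    rw [zero_nsmul, mem_zero] at hg
    exact ⟨0, by simp, by simp [hg]⟩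
  | succ s ih =>
    intro g hg
    rw [succ_nsmul] at hg
    obtain ⟨x, hx, b, hb, rfl⟩ := mem_add.1 hg
    obtain ⟨l, h1, rfl⟩ := ih x hx
    have key : ∀ a ∈ A, ∀ e : ℤ, |e| = 1 → ∃ l' : G → ℤ, ∑ a ∈ A, |l' a| ≤ (s + 1 : ℕ) ∧
        ∑ a ∈ A, l a • a + e • a = ∑ a ∈ A, l' a • a := by
      intro a ha e he
      refine ⟨fun x => l x + if x = a then e else 0, ?_, ?_⟩
      · calc _ ≤ ∑ x ∈ A, (|l x| + if x = a then 1 else 0) := by
              apply sum_le_sum
              intro x _
              refine (abs_add_le _ _).trans ?_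
              split_ifs <;> simp [he]
          _ ≤ _ := by
              rw [sum_add_distrib, sum_ite_eq', if_pos ha]
              push_cast
              linarith
      · simp only [add_smul, sum_add_distrib, ite_smul, zero_smul, sum_ite_eq', if_pos ha]
    rcases mem_insert.1 hb with rfl | hb
    · exact ⟨l, by push_cast; linarith, by simp⟩
    · rcases mem_union.1 hb with hb | hb
      · simpa using key b hb 1 (by simp)
      · simpa using key (-b) (by simpa using hb) (-1) (by simp)

end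

theorem nonspan {n : ℕ} [NeZero n] (s : ℕ) (hs : 1 ≤ s) (A : Finset (ZMod n))
    (h : ¬ Spanning s A) : ∃ d k m : ℕ, n = d * m ∧ 2 ≤ d ∧ 1 ≤ k ∧ A.card ≤ k * m ∧
      s * k + 2 ≤ d + s ∧ (Odd n → Odd k) := by
  obtain ⟨s, rfl⟩ : ∃ t, s = t + 1 := ⟨s - 1, by omega⟩
  set B := insert 0 (A ∪ -A) with hB
  have hne : B.Nonempty := insert_nonempty _ _
  have hk := kneser_nsmul B hne s
  have hHs := stab_sub ((s + 1) • B)
  have hper := per_stab ((s + 1) • B)
  have hlt : ((s + 1) • B).card < n := by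
    have : (s + 1) • B ≠ univ := fun e => h fun g => nsmul_span A _ g (by rw [← hB, e]; simp)
    simpa using card_lt_card (Finset.ssubset_univ_iff.2 this)
  have hpos : 0 < ((s + 1) • B).card := card_pos.2 hne.nsmul
  generalize stab ((s + 1) • B) = H at *
  obtain ⟨d, hd⟩ := sub_dvd hHs
  obtain ⟨k, hk2⟩ := Per.dvd hHs _ (per_add B hHs)
  obtain ⟨e, he⟩ := Per.dvd hHs _ hper
  rw [ZMod.card] at hd
  have hm : 0 < H.card := card_pos.2 ⟨0, hHs.1⟩
  have hBH := card_le_card (sub_add B hHs)
  have hAB : A.card ≤ B.card := card_le_card (subset_union_left.trans (subset_insert _ _))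
  have h1 : e < d := lt_of_mul_lt_mul_left (a := H.card) (by omega) (Nat.zero_le _)
  have h2 : 0 < e := Nat.pos_of_ne_zero (by rintro rfl; omega)
  have h3 : 0 < k := Nat.pos_of_ne_zero (by rintro rfl; have := card_pos.2 hne; omega)
  have h4 : (s + 1) * k ≤ e + s := by
    apply Nat.le_of_mul_le_mul_left _ hm
    rw [hk2, he] at hk
    nlinarith
  refine ⟨d, k, H.card, hd.trans (mul_comm _ _), by omega, h3, by rw [mul_comm]; omega, by omega, ?_⟩
  intro hn
  have h0 : (0 : ZMod n) ∈ B + H := sub_add B hHs (mem_insert_self _ _)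
  have := even_symm hn ((B + H).erase 0) (by simp) (by
    intro x hx
    obtain ⟨a1, a2⟩ := mem_erase.1 hx
    obtain ⟨b, hb, y, hy, rfl⟩ := mem_add.1 a2
    refine mem_erase.2 ⟨neg_ne_zero.2 a1, ?_⟩
    rw [neg_add]
    refine add_mem_add ?_ (hHs.2.2 _ hy)
    simp only [hB, mem_insert, mem_union, mem_neg', neg_neg, neg_eq_zero] at hb ⊢
    tauto)
  rw [card_erase_of_mem h0, hk2] at this
  have h5 : Odd (H.card * k) := by
    have : 0 < H.card * k := Nat.mul_pos hm h3
    rw [Nat.odd_iff]
    rw [Nat.even_iff] at *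
    omega
  exact (Nat.odd_mul.1 h5).2

theorem exists_nonspan {n : ℕ} [NeZero n] (s d c : ℕ) (h : d ∣ n) (hs : 1 ≤ s)
    (hc : 2 * s * c + 2 ≤ d) :
    ∃ A : Finset (ZMod n), A.card = (2 * c + 1) * (n / d) ∧ ∀ B ⊆ A, ¬ Spanning s B := by
  have inj : ∀ x y : ℤ, (x : ZMod d) = y → |x - y| < d → x = y := by
    intro x y e hl
    have := Int.eq_zero_of_abs_lt_dvd ((ZMod.intCast_eq_intCast_iff_dvd_sub y x d).1 e.symm) hl
    omega
  have hc' : 2 * c + 2 ≤ d := by nlinarith
  refine ⟨_, (card_pre h ((Icc (-c : ℤ) c).image Int.cast)).trans ?_, ?_⟩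
  · rw [card_image_of_injOn]
    · simp only [Int.card_Icc]
      congr 1
      omega
    · intro x hx y hy e
      simp only [coe_Icc, Set.mem_Icc] at hx hy
      exact inj x y e (by rw [abs_lt]; omega)
  · intro B hB hsp
    obtain ⟨g, hg⟩ := ZMod.castHom_surjective h ((s * c + 1 : ℤ) : ZMod d)
    obtain ⟨l, h1, rfl⟩ := hsp g
    have : ∀ a, ∃ t : ℤ, a ∈ B → |t| ≤ c ∧ ZMod.castHom h (ZMod d) a = t := by
      intro a
      by_cases ha : a ∈ B
      · obtain ⟨t, ht, e⟩ := mem_image.1 (mem_filter.1 (hB ha)).2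
        exact ⟨t, fun _ => ⟨abs_le.2 (mem_Icc.1 ht), e.symm⟩⟩
      · exact ⟨0, fun h => absurd h ha⟩
    choose t ht using this
    have e1 : ZMod.castHom h (ZMod d) (∑ a ∈ B, l a • a) = ((∑ a ∈ B, l a * t a : ℤ) : ZMod d) := by
      rw [map_sum, Int.cast_sum]
      apply sum_congr rfl
      intro a ha
      rw [map_zsmul, (ht a ha).2]
      simp
    have e2 : |∑ a ∈ B, l a * t a| ≤ s * c := by
      calc _ ≤ ∑ a ∈ B, |l a * t a| := abs_sum_le_sum_abs _ _
        _ ≤ ∑ a ∈ B, |l a| * c := sum_le_sum fun a ha => by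
            rw [abs_mul]; exact mul_le_mul_of_nonneg_left (ht a ha).1 (abs_nonneg _)
        _ ≤ _ := by
            rw [← sum_mul]; exact mul_le_mul_of_nonneg_right h1 (by positivity)
    rw [e1] at hg
    have e3 : 2 * ((s : ℤ) * c) + 2 ≤ d := by
      have : ((2 * s * c + 2 : ℕ) : ℤ) ≤ d := by exact_mod_cast hc
      push_cast at this
      linarith
    have e4 := abs_le.1 e2
    have := inj _ _ hg (by rw [abs_lt]; omega)
    omega

end Pool.Agent.H14.KnApp
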