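import Mathlib

set_option autoImplicit false

namespace Pool.Agent.H14.KnillDefs

open Matrix

variable {n : ℕ} {V : Type} [DecidableEq V]

/-- `x` lists without repetition the simplices of a finite abstract simplicial complex. -/
def IsComplex (x : Fin n → Finset V) : Prop :=
  Function.Injective x ∧ (∀ i, (x i).Nonempty) ∧ ∀ i s, s ⊆ x i → s.Nonempty → ∃ j, x j = s

/-- The intersection graph on the simplices. -/
def interGraph (x : Fin n → Finset V) : SimpleGraph (Fin n) :=
  SimpleGraph.fromRel fun i j => (x i ∩ x j).Nonempty

/-- The connection matrix. -/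
def conn (x : Fin n → Finset V) : Matrix (Fin n) (Fin n) ℝ :=
  of fun i j => if (x i ∩ x j).Nonempty then 1 else 0

end Pool.Agent.H14.KnillDefs
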