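import Mathlib

set_option autoImplicit false

namespace Pool.Agent.H14.Tope

open Finset

section defs
variable {d : ℕ}

/-- every member is a linear hyperplane of `ℝ^d` -/
def IsArrangement (A : Finset (Submodule ℝ (Fin d → ℝ))) : Prop :=
  ∀ H ∈ A, Module.finrank ℝ H + 1 = d

/-- codimension of the intersection -/
noncomputable def rank (A : Finset (Submodule ℝ (Fin d → ℝ))) : ℕ :=
  d - Module.finrank ℝ (⨅ H ∈ A, H : Submodule ℝ (Fin d → ℝ))

/-- complement of the union of the hyperplanes -/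
def compl (A : Finset (Submodule ℝ (Fin d → ℝ))) : Set (Fin d → ℝ) := {x | ∀ H ∈ A, x ∉ H}

/-- chambers: connected components of the complement -/
def Chamber (A : Finset (Submodule ℝ (Fin d → ℝ))) : Type :=
  {C : Set (Fin d → ℝ) // ∃ x ∈ compl A, C = connectedComponentIn (compl A) x}

/-- `C` and `D` lie on opposite sides of `H` -/
def Sep (H : Submodule ℝ (Fin d → ℝ)) (C D : Set (Fin d → ℝ)) : Prop :=
  ∃ f : (Fin d → ℝ) →ₗ[ℝ] ℝ, LinearMap.ker f = H ∧ (∀ x ∈ C, 0 < f x) ∧ ∀ y ∈ D, f y < 0

open Classical in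
/-- number of hyperplanes separating two chambers -/
noncomputable def dist (A : Finset (Submodule ℝ (Fin d → ℝ))) (C D : Chamber A) : ℕ :=
  (A.filter fun H => Sep H C.1 D.1).card

/-- the tope graph -/
def tope (A : Finset (Submodule ℝ (Fin d → ℝ))) : SimpleGraph (Chamber A) :=
  SimpleGraph.fromRel fun C D => dist A C D = 1

def VertexTransitive {V : Type*} (G : SimpleGraph V) : Prop := ∀ u v, ∃ φ : G ≃g G, φ u = v

/-- the matrix `[q^{d(C,D)}]` over `ℚ(q)` -/
noncomputable def varchenko (A : Finset (Submodule ℝ (Fin d → ℝ))) :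
    Matrix (Chamber A) (Chamber A) (RatFunc ℚ) := Matrix.of fun C D => RatFunc.X ^ dist A C D

open Classical in
/-- the sum of all entries of the inverse matrix -/
noncomputable def mag (A : Finset (Submodule ℝ (Fin d → ℝ))) [Fintype (Chamber A)] : RatFunc ℚ :=
  ∑ C, ∑ D, (varchenko A)⁻¹ C D

open Classical in
/-- not a direct sum of two nonempty arrangements -/
def Indecomposable (A : Finset (Submodule ℝ (Fin d → ℝ))) : Prop :=
  ∀ B ⊆ A, B.Nonempty → (A \ B).Nonempty →
    (⨅ H ∈ B, H : Submodule ℝ (Fin d → ℝ)) ⊔ (⨅ H ∈ A \ B, H) ≠ ⊤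

end defs

/-! polynomials as integer lists -/
def ev {K : Type*} [CommRing K] (x : K) : List ℤ → K
  | [] => 0
  | a :: l => a + x * ev x l

def padd : List ℤ → List ℤ → List ℤ
  | [], m => m
  | l, [] => l
  | a :: l, b :: m => (a + b) :: padd l m

def shift : ℕ → List ℤ → List ℤ
  | 0, l => l
  | k + 1, l => 0 :: shift k l

lemma ev_padd {K : Type*} [CommRing K] (x : K) : ∀ l m, ev x (padd l m) = ev x l + ev x m
  | [], m => by simp [padd, ev]
  | a :: l, [] => by simp [padd, ev]
  | a :: l, b :: m => by simp [padd, ev, ev_padd x l m]; ring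

lemma ev_shift {K : Type*} [CommRing K] (x : K) (l : List ℤ) : ∀ k, ev x (shift k l) = x ^ k * ev x l
  | 0 => by simp [shift]
  | k + 1 => by simp [shift, ev, ev_shift x l k]; ring

def psum (L : List (List ℤ)) : List ℤ := L.foldr padd []

lemma ev_psum {K : Type*} [CommRing K] (x : K) : ∀ L, ev x (psum L) = (L.map (ev x)).sum
  | [] => by simp [psum, ev]
  | l :: L => by
    have := ev_psum x L
    simp only [psum] at this
    simp [psum, ev_padd, this]

lemma map_ev {K L : Type*} [CommRing K] [CommRing L] (f : K →+* L) (x : K) :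
    ∀ l, f (ev x l) = ev (f x) l
  | [] => by simp [ev]
  | a :: l => by simp [ev, map_ev f x l]

section data
variable {d n N : ℕ} (a : Fin n → Fin d → ℤ)

/-- the linear form with integer coefficients `c` -/
noncomputable def lf (c : Fin d → ℤ) : (Fin d → ℝ) →ₗ[ℝ] ℝ :=
  ∑ j, (c j : ℝ) • LinearMap.proj j

lemma lf_apply (c : Fin d → ℤ) (x : Fin d → ℝ) : lf c x = ∑ j, (c j : ℝ) * x j := by
  simp [lf, LinearMap.sum_apply]

open Classical in
/-- the arrangement of the kernels -/
noncomputable def arr : Finset (Submodule ℝ (Fin d → ℝ)) :=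
  univ.image fun k => LinearMap.ker (lf (a k))

lemma mem_arr (k : Fin n) : LinearMap.ker (lf (a k)) ∈ arr a := by
  simp only [arr, mem_image, mem_univ, true_and]; exact ⟨k, rfl⟩

lemma mem_compl (x : Fin d → ℝ) : x ∈ compl (arr a) ↔ ∀ k, lf (a k) x ≠ 0 := by
  simp [compl, arr]

def region (s : Fin n → Bool) : Set (Fin d → ℝ) :=
  {x | ∀ k, if s k then 0 < lf (a k) x else lf (a k) x < 0}

lemma region_sub (s : Fin n → Bool) : region a s ⊆ compl (arr a) := by
  intro x hx
  rw [mem_compl]; intro k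
  have := hx k
  split_ifs at this
  · exact this.ne'
  · exact this.ne

lemma comp_eq (s : Fin n → Bool) (x : Fin d → ℝ) (hx : x ∈ region a s) :
    connectedComponentIn (compl (arr a)) x = region a s := by
  apply Set.Subset.antisymm
  · intro y hy k
    have hp := isPreconnected_connectedComponentIn (x := x) (F := compl (arr a))
    have hxm := mem_connectedComponentIn (region_sub a s hx)
    have hc : ContinuousOn (lf (a k)) (connectedComponentIn (compl (arr a)) x) :=
      (LinearMap.continuous_of_finiteDimensional _).continuousOn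
    have hne : ∀ z ∈ connectedComponentIn (compl (arr a)) x, lf (a k) z ≠ 0 := fun z hz =>
      (mem_compl a z).1 (connectedComponentIn_subset _ _ hz) k
    have h1 := hx k
    split_ifs at h1 ⊢
    · by_contra h
      obtain ⟨z, hz, e⟩ := hp.intermediate_value hy hxm hc ⟨not_lt.1 h, h1.le⟩
      exact hne z hz e
    · by_contra h
      obtain ⟨z, hz, e⟩ := hp.intermediate_value hxm hy hc ⟨h1.le, not_lt.1 h⟩
      exact hne z hz e
  · apply IsPreconnected.subset_connectedComponentIn _ hx (region_sub a s)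
    apply Convex.isPreconnected
    have : region a s = ⋂ k, {x | if s k then 0 < lf (a k) x else lf (a k) x < 0} := by
      ext x; simp [region]
    rw [this]
    refine convex_iInter fun k => ?_
    cases s k
    · simpa using convex_halfSpace_lt (lf (a k)).isLinear 0
    · simpa using convex_halfSpace_gt (lf (a k)).isLinear 0

lemma sep_iff (s t : Fin n → Bool) (x y : Fin d → ℝ) (hx : x ∈ region a s) (hy : y ∈ region a t)
    (k : Fin n) : Sep (LinearMap.ker (lf (a k))) (region a s) (region a t) ↔ s k ≠ t k := by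
  constructor
  · rintro ⟨f, hf, h1, h2⟩ e
    have p1 := h1 x hx
    have p2 := h2 y hy
    have : lf (a k) y • x - lf (a k) x • y ∈ LinearMap.ker f := by
      rw [hf]; simp [mul_comm]
    simp only [LinearMap.mem_ker, map_sub, map_smul, smul_eq_mul] at this
    have q1 := hx k
    have q2 := hy k
    rw [← e] at q2
    split_ifs at q1 q2 <;> nlinarith
  · intro h
    cases hs : s k
    · have ht : t k = true := by simpa [hs] using h
      refine ⟨-lf (a k), by simp, fun z hz => ?_, fun z hz => ?_⟩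
      · have := hz k; simpa [hs] using this
      · have := hz k; simpa [ht] using this
    · have ht : t k = false := by simpa [hs] using h
      refine ⟨lf (a k), rfl, fun z hz => ?_, fun z hz => ?_⟩
      · have := hz k; simpa [hs] using this
      · have := hz k; simpa [ht] using this

variable (s : Fin N → Fin n → Bool) (pt : Fin N → Fin d → ℤ) (circ : List (Fin n → ℤ))

def ham (i j : Fin N) : ℕ := ((List.finRange n).filter fun k => s i k != s j k).length

lemma ham_eq (i j : Fin N) : ham s i j = (univ.filter fun k => s i k ≠ s j k).card := by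
  rw [ham, ← List.toFinset_card_of_nodup ((List.nodup_finRange n).filter _)]
  congr 1; ext k; simp

/-- the certificate -/
structure Cert : Prop where
  hpt : ∀ i k, if s i k then 0 < ∑ j, a k j * pt i j else ∑ j, a k j * pt i j < 0
  hcirc : ∀ c ∈ circ, (∀ j, ∑ k, c k * a k j = 0) ∧ ∃ k, c k ≠ 0
  hall : ∀ b : Fin n → Bool, (∃ i, ∀ k, s i k = b k) ∨
    ∃ c ∈ circ, ∀ k, if b k then 0 ≤ c k else c k ≤ 0
  hinj : ∀ i j, ham s i j = 0 → i = j
  hdist : ∀ k l, k ≠ l → ∃ i j, s i k = s j k ∧ s i l ≠ s j l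
  hN : 0 < N

variable {a s pt circ}

lemma Cert.mem (h : Cert a s pt circ) (i : Fin N) : (fun j => (pt i j : ℝ)) ∈ region a (s i) := by
  intro k
  have := h.hpt i k
  rw [lf_apply]
  split_ifs at this ⊢ <;> exact_mod_cast this

lemma circ_sum (c : Fin n → ℤ) (x : Fin d → ℝ) (B : Finset (Fin n)) :
    ∑ k ∈ B, (c k : ℝ) * lf (a k) x = ∑ j, ((∑ k ∈ B, c k * a k j : ℤ) : ℝ) * x j := by
  simp only [lf_apply, mul_sum]
  rw [sum_comm]
  refine sum_congr rfl fun j _ => ?_
  push_cast; rw [sum_mul]; exact sum_congr rfl fun k _ => by ring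

lemma Cert.cover (h : Cert a s pt circ) (x : Fin d → ℝ) (hx : x ∈ compl (arr a)) :
    ∃ i, x ∈ region a (s i) := by
  rw [mem_compl] at hx
  rcases h.hall (fun k => decide (0 < lf (a k) x)) with ⟨i, hi⟩ | ⟨c, hc, h2⟩
  · refine ⟨i, fun k => ?_⟩
    rw [hi k]
    split_ifs with e
    · simpa using e
    · exact lt_of_le_of_ne (by simpa using e) (hx k)
  · exfalso
    obtain ⟨h3, k0, hk0⟩ := h.hcirc c hc
    have hz : ∑ k, (c k : ℝ) * lf (a k) x = 0 := by
      rw [circ_sum]; simp [h3]
    have hnn : ∀ k ∈ (univ : Finset (Fin n)), 0 ≤ (c k : ℝ) * lf (a k) x := by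
      intro k _
      have := h2 k
      split_ifs at this with e
      · exact mul_nonneg (by exact_mod_cast this) (le_of_lt (by simpa using e))
      · exact mul_nonneg_of_nonpos_of_nonpos (by exact_mod_cast this) (by simpa using e)
    have := (sum_eq_zero_iff_of_nonneg hnn).1 hz k0 (mem_univ _)
    rcases mul_eq_zero.1 this with e | e
    · exact hk0 (by exact_mod_cast e)
    · exact hx k0 e

def Cert.ch (h : Cert a s pt circ) (i : Fin N) : Chamber (arr a) :=
  ⟨region a (s i), _, region_sub a _ (h.mem i), (comp_eq a _ _ (h.mem i)).symm⟩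

lemma Cert.kinj (h : Cert a s pt circ) :
    Function.Injective fun k => LinearMap.ker (lf (a k)) := by
  intro k l e
  by_contra hne
  obtain ⟨i, j, h1, h2⟩ := h.hdist k l hne
  have := (sep_iff a _ _ _ _ (h.mem i) (h.mem j) l).2 h2
  simp only at e
  rw [← e] at this
  exact (sep_iff a _ _ _ _ (h.mem i) (h.mem j) k).1 this h1

lemma Cert.card (h : Cert a s pt circ) : (arr a).card = n := by
  classical
  unfold arr
  convert (card_image_of_injective univ h.kinj).trans (Finset.card_fin n)

lemma Cert.dist_eq (h : Cert a s pt circ) (i j : Fin N) :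
    dist (arr a) (h.ch i) (h.ch j) = ham s i j := by
  classical
  rw [ham_eq, ← card_image_of_injective _ h.kinj, dist]
  congr 1
  ext H
  simp only [arr, mem_filter, mem_image, mem_univ, true_and]
  constructor
  · rintro ⟨⟨k, rfl⟩, h2⟩
    exact ⟨k, (sep_iff a _ _ _ _ (h.mem i) (h.mem j) k).1 h2, rfl⟩
  · rintro ⟨k, h2, rfl⟩
    exact ⟨⟨k, rfl⟩, (sep_iff a _ _ _ _ (h.mem i) (h.mem j) k).2 h2⟩

lemma ham_self (i : Fin N) : ham s i i = 0 := by simp [ham]

lemma ham_comm (i j : Fin N) : ham s i j = ham s j i := by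
  rw [ham_eq, ham_eq]; simp [ne_comm]

lemma Cert.bij (h : Cert a s pt circ) : Function.Bijective h.ch := by
  constructor
  · intro i j e
    apply h.hinj
    rw [← h.dist_eq, e, h.dist_eq, ham_self]
  · rintro ⟨C, x, hx, rfl⟩
    obtain ⟨i, hi⟩ := h.cover x hx
    exact ⟨i, Subtype.ext (comp_eq a _ _ hi).symm⟩

noncomputable def Cert.equiv (h : Cert a s pt circ) : Fin N ≃ Chamber (arr a) :=
  Equiv.ofBijective _ h.bij

@[reducible] noncomputable def Cert.fin (h : Cert a s pt circ) : Fintype (Chamber (arr a)) :=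
  Fintype.ofEquiv _ h.equiv

lemma Cert.isArr (h : Cert a s pt circ) : IsArrangement (arr a) := by
  intro H hH
  simp only [arr, mem_image, mem_univ, true_and] at hH
  obtain ⟨k, rfl⟩ := hH
  have hne : lf (a k) ≠ 0 := by
    intro e
    exact (mem_compl a _).1 (region_sub a _ (h.mem ⟨0, h.hN⟩)) k (by simp [e])
  simpa using Module.Dual.finrank_ker_add_one_of_ne_zero hne

lemma rank_eq (hess : ∀ x : Fin d → ℝ, (∀ k, ∑ j, (a k j : ℝ) * x j = 0) → x = 0) :
    rank (arr a) = d := by
  have : (⨅ H ∈ arr a, H : Submodule ℝ (Fin d → ℝ)) = ⊥ := by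
    rw [eq_bot_iff]
    intro x hx
    simp only [Submodule.mem_iInf] at hx
    apply hess x
    intro k
    rw [← lf_apply]
    exact hx _ (mem_arr a k)
  rw [rank, this]; simp

lemma Cert.notVT (h : Cert a s pt circ) (i0 j0 : Fin N)
    (hdeg : (univ.filter fun j => ham s i0 j = 1).card ≠ (univ.filter fun j => ham s j0 j = 1).card) :
    ¬ VertexTransitive (tope (arr a)) := by
  intro hv
  obtain ⟨φ, hφ⟩ := hv (h.ch i0) (h.ch j0)
  have adj : ∀ i j, (tope (arr a)).Adj (h.equiv i) (h.equiv j) ↔ ham s i j = 1 := by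
    intro i j
    show (tope (arr a)).Adj (h.ch i) (h.ch j) ↔ _
    rw [tope, SimpleGraph.fromRel_adj, h.dist_eq, h.dist_eq, ham_comm j i, or_self]
    refine ⟨fun e => e.2, fun e => ⟨fun e2 => ?_, e⟩⟩
    rw [h.bij.1 e2, ham_self] at e
    exact zero_ne_one e
  apply hdeg
  let ψ : Fin N ≃ Fin N := (h.equiv.trans φ.toEquiv).trans h.equiv.symm
  apply card_bijective ψ ψ.bijective
  intro j
  simp only [mem_filter, mem_univ, true_and]
  rw [← adj, ← adj, ← φ.map_adj_iff]
  have e1 : φ (h.equiv i0) = h.equiv j0 := hφ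
  have e2 : h.equiv (ψ j) = φ (h.equiv j) := by simp [ψ]
  rw [e1, e2]

open Classical in
lemma Cert.unit (h : Cert a s pt circ) [Fintype (Chamber (arr a))] :
    IsUnit (varchenko (arr a)).det := by
  let M : Matrix (Chamber (arr a)) (Chamber (arr a)) (Polynomial ℚ) :=
    Matrix.of fun C D => Polynomial.X ^ dist (arr a) C D
  have e1 : varchenko (arr a) = (algebraMap (Polynomial ℚ) (RatFunc ℚ)).mapMatrix M := by
    ext C D; simp [varchenko, M]
  have e2 : (Polynomial.evalRingHom (0 : ℚ)).mapMatrix M = 1 := by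
    ext C D
    obtain ⟨i, rfl⟩ := h.bij.2 C
    obtain ⟨j, rfl⟩ := h.bij.2 D
    by_cases e : i = j
    · subst e; simp [M, h.dist_eq, ham_self]
    · have : ham s i j ≠ 0 := fun e2 => e (h.hinj i j e2)
      rw [Matrix.one_apply_ne (fun e2 => e (h.bij.1 e2))]
      simp [M, h.dist_eq, this]
  rw [e1, ← RingHom.map_det, isUnit_iff_ne_zero,
    map_ne_zero_iff _ (IsFractionRing.injective _ _)]
  intro e
  have := (Polynomial.evalRingHom (0 : ℚ)).map_det M
  rw [e, e2] at this
  simp at this

lemma Cert.mag_eq (h : Cert a s pt circ) [Fintype (Chamber (arr a))] (w : Fin N → List ℤ)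
    (D : List ℤ)
    (hw : ∀ i, psum ((List.finRange N).map fun j => shift (ham s i j) (w j)) = D) :
    mag (arr a) * ev RatFunc.X D = ev RatFunc.X (psum ((List.finRange N).map w)) := by
  classical
  let v : Chamber (arr a) → RatFunc ℚ := fun C => ev RatFunc.X (w (h.equiv.symm C))
  have h1 : (varchenko (arr a)).mulVec v = fun _ => ev RatFunc.X D := by
    ext C
    obtain ⟨i, rfl⟩ := h.bij.2 C
    rw [← hw i, ev_psum, List.map_map, ← Fin.sum_univ_def]
    simp only [Matrix.mulVec, dotProduct]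
    rw [← h.equiv.sum_comp]
    refine sum_congr rfl fun j _ => ?_
    have : h.equiv j = h.ch j := rfl
    simp only [v, Equiv.symm_apply_apply, Function.comp, ev_shift]
    rw [this, varchenko, Matrix.of_apply, h.dist_eq]
  have h2 : (varchenko (arr a))⁻¹.mulVec (fun _ => ev RatFunc.X D) = v := by
    rw [← h1, Matrix.mulVec_mulVec, Matrix.nonsing_inv_mul _ (by convert h.unit), Matrix.one_mulVec]
  rw [ev_psum, List.map_map, ← Fin.sum_univ_def, mag, sum_mul, ← h.equiv.sum_comp]
  refine sum_congr rfl fun i _ => ?_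
  have := congrFun h2 (h.equiv i)
  simp only [Matrix.mulVec, dotProduct, v, Equiv.symm_apply_apply] at this
  rw [sum_mul, Function.comp_apply]
  convert this

lemma Cert.indec (h : Cert a s pt circ)
    (hI : ∀ b : Fin n → Bool, (∃ k, b k = true) → (∃ k, b k = false) → ∃ c ∈ circ,
      ∃ j, ∑ k ∈ univ.filter (fun k => b k = true), c k * a k j ≠ 0) :
    Indecomposable (arr a) := by
  classical
  intro B hB ⟨H1, h1⟩ ⟨H2, h2⟩ htop
  let b : Fin n → Bool := fun k => decide (LinearMap.ker (lf (a k)) ∈ B)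
  have m1 := hB h1
  have m2 := (mem_sdiff.1 h2).1
  simp only [arr, mem_image, mem_univ, true_and] at m1 m2
  obtain ⟨k1, rfl⟩ := m1
  obtain ⟨k2, rfl⟩ := m2
  obtain ⟨c, hc, j, hj⟩ := hI b ⟨k1, by simpa [b] using h1⟩
    ⟨k2, by simpa [b] using (mem_sdiff.1 h2).2⟩
  have hx : (Pi.single j 1 : Fin d → ℝ) ∈ (⨅ H ∈ B, H : Submodule ℝ (Fin d → ℝ))
      ⊔ (⨅ H ∈ arr a \ B, H) := by
    convert Submodule.mem_top
  obtain ⟨y, hy, z, hz, e⟩ := Submodule.mem_sup.1 hx
  simp only [Submodule.mem_iInf] at hy hz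
  have s1 : ∑ k ∈ univ.filter (fun k => b k = true), (c k : ℝ) * lf (a k) y = 0 :=
    sum_eq_zero fun k hk => by
      rw [(hy _ (by simpa [b] using hk) : lf (a k) y = 0), mul_zero]
  have s2 : ∑ k ∈ univ.filter (fun k => ¬ b k = true), (c k : ℝ) * lf (a k) z = 0 :=
    sum_eq_zero fun k hk => by
      rw [(hz _ (mem_sdiff.2 ⟨mem_arr a k, by simpa [b] using hk⟩) : lf (a k) z = 0), mul_zero]
  have s3 : ∑ k, (c k : ℝ) * lf (a k) z = 0 := by
    rw [circ_sum]; simp [(h.hcirc c hc).1]
  rw [← sum_filter_add_sum_filter_not univ (fun k => b k = true), s2, add_zero] at s3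
  have s4 : ∑ k ∈ univ.filter (fun k => b k = true), (c k : ℝ) * lf (a k) (Pi.single j 1) = 0 := by
    rw [← e]; simp only [map_add, mul_add, sum_add_distrib, s1, s3, add_zero]
  rw [circ_sum] at s4
  simp only [Pi.single_apply, mul_ite, mul_one, mul_zero, sum_ite_eq', mem_univ, if_true] at s4
  exact hj (by exact_mod_cast s4)

end data

lemma not_dvd (x : RatFunc ℚ) (P Q : Polynomial ℚ) (hQ : Q ≠ 0) (m : ℕ) (hm : 0 < m)
    (h : x * algebraMap _ _ Q = algebraMap _ _ P)
    (hr : ∀ z : ℂ, IsPrimitiveRoot z m → Polynomial.aeval z Q ≠ 0) :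
    ¬ Polynomial.cyclotomic m ℚ ∣ x.denom := by
  intro hd
  have e : x = algebraMap _ _ P / algebraMap _ _ Q := by
    rw [eq_div_iff ((map_ne_zero_iff _ (IsFractionRing.injective _ _)).2 hQ), h]
  have h2 : Polynomial.cyclotomic m ℚ ∣ Q := hd.trans (e ▸ RatFunc.denom_div_dvd P Q)
  have hz := Complex.isPrimitiveRoot_exp m hm.ne'
  apply hr _ hz
  obtain ⟨c, rfl⟩ := h2
  have : Polynomial.aeval (Complex.exp (2 * Real.pi * Complex.I / m)) (Polynomial.cyclotomic m ℚ)
      = 0 := by
    rw [Polynomial.aeval_def, Polynomial.eval₂_eq_eval_map, Polynomial.map_cyclotomic]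
    exact hz.isRoot_cyclotomic hm
  rw [map_mul, this, zero_mul]

end Pool.Agent.H14.Tope
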