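import Mathlib
import Pool.Agent.H14.Tope

set_option autoImplicit false

namespace Pool.Agent.H14.Tope

open Finset

def Bd (M : ℤ) (l : List ℤ) : Prop := ∀ c ∈ l, |c| ≤ M

lemma bd_mono {M M' : ℤ} (h : M ≤ M') {l : List ℤ} (hl : Bd M l) : Bd M' l :=
  fun c hc => (hl c hc).trans h

lemma bd_padd {M M' : ℤ} (h : 0 ≤ M) (h' : 0 ≤ M') :
    ∀ l m, Bd M l → Bd M' m → Bd (M + M') (padd l m)
  | [], m => fun _ hm => by simpa [padd] using bd_mono (by omega) hm
  | a :: l, [] => fun hl _ => by simpa [padd] using bd_mono (by omega) hl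
  | a :: l, b :: m => fun hl hm => by
    intro c hc
    simp only [padd, List.mem_cons] at hc
    rcases hc with rfl | hc
    · exact (abs_add_le a b).trans (add_le_add (hl a (by simp)) (hm b (by simp)))
    · exact bd_padd h h' l m (fun c hc => hl c (by simp [hc])) (fun c hc => hm c (by simp [hc])) c hc

lemma bd_shift {M : ℤ} (h : 0 ≤ M) (l : List ℤ) (hl : Bd M l) : ∀ k, Bd M (shift k l)
  | 0 => hl
  | k + 1 => by
    intro c hc
    simp only [shift, List.mem_cons] at hc
    rcases hc with rfl | hc
    · simpa using h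
    · exact bd_shift h l hl k c hc

lemma bd_psum {M : ℤ} (h : 0 ≤ M) : ∀ L : List (List ℤ), (∀ l ∈ L, Bd M l) →
    Bd (L.length * M) (psum L)
  | [] => fun _ c hc => by simp [psum] at hc
  | l :: L => fun hL => by
    have h1 := bd_psum h L fun m hm => hL m (by simp [hm])
    have h2 := bd_padd h (by positivity) l (psum L) (hL l (by simp)) h1
    have e : ((l :: L).length : ℤ) * M = M + L.length * M := by simp; ring
    rw [e]
    exact h2

lemma kron {K : Type*} [CommRing K] (x : K) (B M : ℤ) (hM : M < B) :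
    ∀ l, Bd M l → ev B l = 0 → ev x l = 0
  | [] => fun _ _ => rfl
  | a :: l => fun hl h => by
    have ha := hl a (by simp)
    simp only [ev, Int.cast_id] at h
    have h0 : a = 0 := by
      apply Int.eq_zero_of_abs_lt_dvd (m := B) ⟨-ev B l, by linear_combination h⟩
      omega
    have hB : B ≠ 0 := by
      have := abs_nonneg a
      omega
    subst h0
    have h1 : ev B l = 0 := by simpa [hB] using h
    simp [ev, kron x B M hM l (fun c hc => hl c (by simp [hc])) h1]

lemma ev_neg {K : Type*} [CommRing K] (x : K) : ∀ l : List ℤ, ev x (l.map fun c => -c) = -ev x l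
  | [] => by simp [ev]
  | a :: l => by simp only [List.map_cons, ev, ev_neg x l]; push_cast; ring

lemma kron2 {K : Type*} [CommRing K] (x : K) (B M M' : ℤ) (h : 0 ≤ M) (h' : 0 ≤ M')
    (hM : M + M' < B) (l m : List ℤ) (hl : Bd M l) (hm : Bd M' m) (e : ev B l = ev B m) :
    ev x l = ev x m := by
  have := kron x B (M + M') hM (padd l (m.map fun c => -c)) (bd_padd h h' _ _ hl (by
    intro c hc
    obtain ⟨c', hc', rfl⟩ := List.mem_map.1 hc
    simpa using hm c' hc')) (by rw [ev_padd, ev_neg, e]; ring)
  rw [ev_padd, ev_neg] at this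
  linear_combination this

variable {d n N : ℕ} {a : Fin n → Fin d → ℤ} {s : Fin N → Fin n → Bool} {pt : Fin N → Fin d → ℤ}
  {circ : List (Fin n → ℤ)}

lemma Cert.mag_eq2 (h : Cert a s pt circ) [Fintype (Chamber (arr a))] (w : Fin N → List ℤ)
    (D : List ℤ) (B M M' : ℤ) (h0 : 0 ≤ M) (h0' : 0 ≤ M') (hB : N * M + M' < B)
    (hb : ∀ j, Bd M (w j)) (hD : Bd M' D)
    (hw : ∀ i, ∑ j, B ^ (ham s i j) * ev B (w j) = ev B D) :
    mag (arr a) * ev RatFunc.X D = ev RatFunc.X (psum ((List.finRange N).map w)) := by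
  classical
  have hw' : ∀ i, ev (RatFunc.X : RatFunc ℚ)
      (psum ((List.finRange N).map fun j => shift (ham s i j) (w j))) = ev RatFunc.X D := by
    intro i
    apply kron2 _ B (N * M) M' (by positivity) h0' hB _ _ _ hD
    · rw [← hw i, ev_psum, List.map_map, ← Fin.sum_univ_def]
      simp only [Function.comp, ev_shift]
    · have := bd_psum h0 ((List.finRange N).map fun j => shift (ham s i j) (w j)) (by
        intro l hl
        obtain ⟨j, -, rfl⟩ := List.mem_map.1 hl
        exact bd_shift h0 _ (hb j) _)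
      simpa using this
  let v : Chamber (arr a) → RatFunc ℚ := fun C => ev RatFunc.X (w (h.equiv.symm C))
  have h1 : (varchenko (arr a)).mulVec v = fun _ => ev RatFunc.X D := by
    ext C
    obtain ⟨i, rfl⟩ := h.bij.2 C
    rw [← hw' i, ev_psum, List.map_map, ← Fin.sum_univ_def]
    simp only [Matrix.mulVec, dotProduct]
    rw [← h.equiv.sum_comp]
    refine sum_congr rfl fun j _ => ?_
    have : h.equiv j = h.ch j := rfl
    simp only [v, Equiv.symm_apply_apply, Function.comp, ev_shift]
    rw [this, varchenko, Matrix.of_apply, h.dist_eq]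
  have h2 : (varchenko (arr a))⁻¹.mulVec (fun _ => ev RatFunc.X D) = v := by
    rw [← h1, Matrix.mulVec_mulVec, Matrix.nonsing_inv_mul _ (by convert h.unit), Matrix.one_mulVec]
  rw [ev_psum, List.map_map, ← Fin.sum_univ_def, mag, sum_mul, ← h.equiv.sum_comp]
  refine sum_congr rfl fun i _ => ?_
  have := congrFun h2 (h.equiv i)
  simp only [Matrix.mulVec, dotProduct, v, Equiv.symm_apply_apply] at this
  rw [sum_mul, Function.comp_apply]
  convert this

end Pool.Agent.H14.Tope
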