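import Pool.Agent.H14.MagDefs

set_option autoImplicit false

namespace Pool.Agent.H14.Mag

open Matrix
open scoped ComplexOrder

variable {V : Type} [Fintype V] [DecidableEq V]

theorem psd_shift (A : Matrix V V ℂ) (hA : A.IsHermitian) (c : ℝ)
    (h : ∀ t : ℝ, ∀ f : V → ℂ, f ≠ 0 → A *ᵥ f = (t : ℂ) • f → c ≤ t) :
    (A - (c : ℂ) • (1 : Matrix V V ℂ)).PosSemidef := by
  have hB : (A - (c : ℂ) • (1 : Matrix V V ℂ)).IsHermitian := by
    refine hA.sub ?_
    unfold IsHermitian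
    simp
  rw [hB.posSemidef_iff_eigenvalues_nonneg]
  intro i
  have h1 := hB.mulVec_eigenvectorBasis i
  have h2 : (⇑(hB.eigenvectorBasis i) : V → ℂ) ≠ 0 := by
    intro h
    apply hB.eigenvectorBasis.orthonormal.ne_zero i
    ext j
    exact congrFun h j
  have h3 := h (hB.eigenvalues i + c) _ h2 (by
    rw [sub_mulVec, smul_mulVec, one_mulVec, sub_eq_iff_eq_add] at h1
    rw [h1]
    ext j
    simp [add_mul])
  simp only [Pi.zero_apply]
  linarith

theorem le_of_psd (A : Matrix V V ℂ) (c : ℝ) (h : (A - (c : ℂ) • (1 : Matrix V V ℂ)).PosSemidef)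
    (t : ℝ) (f : V → ℂ) (hf : f ≠ 0) (ht : A *ᵥ f = (t : ℂ) • f) : c ≤ t := by
  have h1 := h.dotProduct_mulVec_nonneg f
  rw [sub_mulVec, smul_mulVec, one_mulVec, ht, ← sub_smul, dotProduct_smul, smul_eq_mul] at h1
  have h2 : 0 < star f ⬝ᵥ f := dotProduct_star_self_pos_iff.mpr hf
  by_contra hlt
  have h4 : (0 : ℂ) < ((c - t : ℝ) : ℂ) := Complex.zero_lt_real.mpr (by linarith)
  have h5 := mul_pos h4 h2
  have h6 : ((c - t : ℝ) : ℂ) * (star f ⬝ᵥ f) = -(((t : ℂ) - c) * (star f ⬝ᵥ f)) := by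
    push_cast; ring
  rw [h6, neg_pos] at h5
  exact absurd h1 (not_le_of_gt h5)

theorem eig_bdd (A : Matrix V V ℂ) :
    BddBelow {t : ℝ | ∃ f : V → ℂ, f ≠ 0 ∧ A *ᵥ f = (t : ℂ) • f} := by
  apply Set.Finite.bddBelow
  refine Set.Finite.of_finite_image (f := fun t : ℝ => (t : ℂ)) ?_ Complex.ofReal_injective.injOn
  refine (Module.End.finite_hasEigenvalue (Matrix.toLin' A)).subset ?_
  rintro _ ⟨t, ⟨f, hf, ht⟩, rfl⟩
  exact Module.End.hasEigenvalue_of_hasEigenvector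
    ⟨Module.End.mem_eigenspace_iff.mpr (by simpa using ht), hf⟩

theorem psd_lam1 (A : Matrix V V ℂ) (hA : A.IsHermitian) :
    (A - (lam1 A : ℂ) • (1 : Matrix V V ℂ)).PosSemidef :=
  psd_shift A hA _ fun _ f hf ht => csInf_le (eig_bdd A) ⟨f, hf, ht⟩

theorem le_lam1' [Nonempty V] (A : Matrix V V ℂ) (hA : A.IsHermitian) (c : ℝ)
    (h : ∀ t : ℝ, ∀ f : V → ℂ, f ≠ 0 → A *ᵥ f = (t : ℂ) • f → c ≤ t) : c ≤ lam1 A := by
  refine le_csInf ?_ fun t ⟨f, hf, ht⟩ => h t f hf ht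
  obtain ⟨i⟩ := ‹Nonempty V›
  refine ⟨hA.eigenvalues i, hA.eigenvectorBasis i, ?_, ?_⟩
  · intro h
    apply hA.eigenvectorBasis.orthonormal.ne_zero i
    ext j
    exact congrFun h j
  · rw [hA.mulVec_eigenvectorBasis i]
    ext j
    simp

theorem le_lam1 [Nonempty V] (A : Matrix V V ℂ) (hA : A.IsHermitian) (c : ℝ)
    (h : (A - (c : ℂ) • (1 : Matrix V V ℂ)).PosSemidef) : c ≤ lam1 A :=
  le_lam1' A hA c (le_of_psd A c h)

theorem psd_of_le (A : Matrix V V ℂ) (hA : A.IsHermitian) (c : ℝ) (h : c ≤ lam1 A) :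
    (A - (c : ℂ) • (1 : Matrix V V ℂ)).PosSemidef :=
  psd_shift A hA _ fun _ f hf ht => h.trans (csInf_le (eig_bdd A) ⟨f, hf, ht⟩)

variable (G : SimpleGraph V) [DecidableRel G.Adj]

theorem herm (σ : V → V → ℂ) (h : IsPot G σ) : (magLap G σ).IsHermitian := by
  ext x y
  simp only [conjTranspose_apply, magLap]
  by_cases e : x = y
  · subst e; simp
  · rw [if_neg e, if_neg (Ne.symm e)]
    by_cases a : G.Adj x y
    · rw [if_pos a, if_pos a.symm, (h x y a).2]; simp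
    · rw [if_neg a, if_neg (fun b => a b.symm)]; simp

theorem lam1_le_deg (σ : V → V → ℂ) (h : IsPot G σ) (x : V) : lam1 (magLap G σ) ≤ G.degree x := by
  have := (psd_lam1 _ (herm G σ h)).diag_nonneg (i := x)
  simp only [Matrix.sub_apply, magLap, if_true, Matrix.smul_apply, one_apply_eq, smul_eq_mul, mul_one] at this
  have h4 : (0 : ℂ) ≤ (((G.degree x : ℝ) - lam1 (magLap G σ) : ℝ) : ℂ) := by push_cast; exact this
  have := Complex.zero_le_real.mp h4
  linarith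

theorem le_nu [Nonempty V] (σ : V → V → ℂ) (h : IsPot G σ) : lam1 (magLap G σ) ≤ nu G := by
  obtain ⟨x⟩ := ‹Nonempty V›
  exact le_csSup ⟨G.degree x, by rintro _ ⟨τ, hτ, rfl⟩; exact lam1_le_deg G τ hτ x⟩ ⟨σ, h, rfl⟩

theorem pot_one : IsPot G (fun _ _ => 1) := fun _ _ _ => by simp

theorem nu_le (c : ℝ) (h : ∀ σ, IsPot G σ → lam1 (magLap G σ) ≤ c) : nu G ≤ c :=
  csSup_le ⟨_, _, pot_one G, rfl⟩ (by rintro _ ⟨τ, hτ, rfl⟩; exact h τ hτ)

theorem exists_opt :
    ∃ σ, IsPot G σ ∧ (magLap G σ - (nu G : ℂ) • (1 : Matrix V V ℂ)).PosSemidef := by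
  let F : ℕ → Set (V → V → ℂ) := fun k =>
    {τ | (∀ x y, ‖τ x y‖ ≤ 1) ∧ IsPot G τ ∧
      (magLap G τ - ((nu G - 1 / (k + 1) : ℝ) : ℂ) • (1 : Matrix V V ℂ)).PosSemidef}
  have hcont : ∀ x y, Continuous fun τ : V → V → ℂ => magLap G τ x y := by
    intro x y
    unfold magLap
    split_ifs <;> fun_prop
  have hcl : ∀ k, IsClosed (F k) := by
    intro k
    have : F k = (⋂ x, ⋂ y, {τ : V → V → ℂ | ‖τ x y‖ ≤ 1}) ∩
        ((⋂ x, ⋂ y, ⋂ (_ : G.Adj x y), ({τ : V → V → ℂ | ‖τ x y‖ = 1} ∩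
          {τ : V → V → ℂ | τ y x = starRingEnd ℂ (τ x y)})) ∩
        ⋂ f : V → ℂ, {τ : V → V → ℂ | 0 ≤ star f ⬝ᵥ ((magLap G τ -
          ((nu G - 1 / (k + 1) : ℝ) : ℂ) • (1 : Matrix V V ℂ)) *ᵥ f)}) := by
      ext τ
      simp only [F, Set.mem_setOf_eq, Set.mem_inter_iff, Set.mem_iInter,
        posSemidef_iff_dotProduct_mulVec]
      refine and_congr Iff.rfl ⟨fun h => ⟨h.1, h.2.2⟩, fun h => ⟨h.1, ?_, h.2⟩⟩
      refine (herm G τ h.1).sub ?_
      unfold IsHermitian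
      simp
    rw [this]
    refine IsClosed.inter ?_ (IsClosed.inter ?_ ?_)
    · exact isClosed_iInter fun x => isClosed_iInter fun y => isClosed_le (by fun_prop) (by fun_prop)
    · exact isClosed_iInter fun x => isClosed_iInter fun y => isClosed_iInter fun _ =>
        (isClosed_eq (by fun_prop) (by fun_prop)).inter (isClosed_eq (by fun_prop) (by fun_prop))
    · refine isClosed_iInter fun f => isClosed_le continuous_const ?_
      simp only [dotProduct, mulVec, Matrix.sub_apply]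
      fun_prop
  have hanti : ∀ k, F (k + 1) ⊆ F k := by
    intro k τ h
    refine ⟨h.1, h.2.1, psd_shift _ (herm G τ h.2.1) _ fun t f hf ht => ?_⟩
    have := le_of_psd _ _ h.2.2 t f hf ht
    have h2 : (1 : ℝ) / (((k + 1 : ℕ) : ℝ) + 1) ≤ 1 / ((k : ℝ) + 1) :=
      one_div_le_one_div_of_le (by positivity) (by push_cast; linarith)
    linarith
  have hne : ∀ k, (F k).Nonempty := by
    intro k
    have : nu G - 1 / ((k : ℝ) + 1) < nu G := by
      have : (0 : ℝ) < 1 / ((k : ℝ) + 1) := by positivity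
      linarith
    obtain ⟨_, ⟨σ, hσ, rfl⟩, h⟩ := exists_lt_of_lt_csSup
      (s := {t : ℝ | ∃ σ : V → V → ℂ, IsPot G σ ∧ t = lam1 (magLap G σ)})
      ⟨_, _, pot_one G, rfl⟩ this
    refine ⟨fun x y => if G.Adj x y then σ x y else 0, ?_, ?_, ?_⟩
    · intro x y
      dsimp only
      split_ifs with a
      · exact (hσ x y a).1.le
      · simp
    · intro x y a
      simp only [if_pos a, if_pos a.symm]
      exact hσ x y a
    · have : magLap G (fun x y => if G.Adj x y then σ x y else 0) = magLap G σ := by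
        ext x y
        unfold magLap
        dsimp only
        split_ifs <;> rfl
      rw [this]
      exact psd_of_le _ (herm G σ hσ) _ h.le
  have hc : IsCompact (F 0) := by
    have hc : IsCompact (Set.pi Set.univ (fun _ : V => Set.pi Set.univ
        (fun _ : V => Metric.closedBall (0 : ℂ) 1))) :=
      isCompact_univ_pi fun _ => isCompact_univ_pi fun _ => isCompact_closedBall _ _
    refine IsCompact.of_isClosed_subset hc (hcl 0) ?_
    intro τ h x _ y _
    simpa using h.1 x y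
  obtain ⟨τ, hτ⟩ := IsCompact.nonempty_iInter_of_sequence_nonempty_isCompact_isClosed F hanti hne
    hc hcl
  rw [Set.mem_iInter] at hτ
  refine ⟨τ, (hτ 0).2.1, psd_shift _ (herm G τ (hτ 0).2.1) _ fun t f hf ht => ?_⟩
  by_contra hlt
  obtain ⟨k, hk⟩ := exists_nat_one_div_lt (sub_pos.mpr (not_le.mp hlt))
  have := le_of_psd _ _ (hτ k).2.2 t f hf ht
  linarith

end Pool.Agent.H14.Mag
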