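import Pool.Agent.H14.Mag

set_option autoImplicit false

namespace Pool.Agent.H14.Mag

open Matrix
open scoped ComplexOrder

theorem add_self2 {n : ℕ} (x : Fin n → ZMod 2) : x + x = 0 := by
  ext i
  have : ∀ a : ZMod 2, a + a = 0 := by decide
  exact this _

variable {n : ℕ} (s : Fin 9 → Fin n → ZMod 2)

def cay (h0 : ∀ i, s i ≠ 0) : SimpleGraph (Fin n → ZMod 2) where
  Adj x y := ∃ i, y = x + s i
  symm := ⟨fun x y ⟨i, h⟩ => ⟨i, by rw [h, add_assoc, add_self2, add_zero]⟩⟩
  loopless := ⟨fun x ⟨i, h⟩ => h0 i (by simpa using h)⟩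

instance (h0 : ∀ i, s i ≠ 0) : DecidableRel (cay s h0).Adj := fun x y =>
  inferInstanceAs (Decidable (∃ i, y = x + s i))

def T (σ : (Fin n → ZMod 2) → (Fin n → ZMod 2) → ℂ) (i : Fin 9) :
    Matrix (Fin n → ZMod 2) (Fin n → ZMod 2) ℂ :=
  fun x y => if y = x + s i then σ x (x + s i) else 0

theorem TT (σ : (Fin n → ZMod 2) → (Fin n → ZMod 2) → ℂ) (i j : Fin 9) (x y : Fin n → ZMod 2) :
    (T s σ i * T s σ j) x y =
      if y = x + s i + s j then σ x (x + s i) * σ (x + s i) (x + s i + s j) else 0 := by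
  simp only [Matrix.mul_apply, T, ite_mul, zero_mul, Finset.sum_ite_eq', Finset.mem_univ, if_true,
    mul_ite, mul_zero]
  rw [Finset.sum_eq_single (x + s i)]
  · simp
  · intro z _ hz
    simp [hz]
  · simp

theorem cay_deg (h0 : ∀ i, s i ≠ 0) (hs : Function.Injective s) (x : Fin n → ZMod 2) :
    (cay s h0).degree x = 9 := by
  have : (cay s h0).neighborFinset x = Finset.univ.image (fun i => x + s i) := by
    ext y
    simp [cay, eq_comm]
  rw [← SimpleGraph.card_neighborFinset_eq_degree, this, Finset.card_image_of_injective]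
  · simp
  · intro i j h
    exact hs (add_left_cancel h)

theorem lap_eq (h0 : ∀ i, s i ≠ 0) (hs : Function.Injective s)
    (σ : (Fin n → ZMod 2) → (Fin n → ZMod 2) → ℂ) :
    magLap (cay s h0) σ - ((6 : ℝ) : ℂ) • (1 : Matrix _ _ ℂ) = (3 : ℂ) • 1 - ∑ i, T s σ i := by
  ext x y
  simp only [Matrix.sub_apply, magLap, cay_deg s h0 hs, Matrix.smul_apply, Matrix.sum_apply, T,
    one_apply]
  by_cases e : x = y
  · subst e
    have : ∀ i, ¬ x = x + s i := fun i h => h0 i (by simpa using h)
    simp [this]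
    norm_num
  · simp only [if_neg e]
    by_cases a : (cay s h0).Adj x y
    · obtain ⟨i, rfl⟩ := id a
      have : ∀ j, x + s i = x + s j ↔ j = i := fun j =>
        ⟨fun h => (hs (add_left_cancel h)).symm, fun h => by rw [h]⟩
      simp only [if_pos a, this, Finset.sum_ite_eq', Finset.mem_univ, if_true]
      simp
    · have : ∀ i, ¬ y = x + s i := fun i h => a ⟨i, h⟩
      simp [a, this]

theorem T_sq (h0 : ∀ i, s i ≠ 0) (σ : (Fin n → ZMod 2) → (Fin n → ZMod 2) → ℂ)
    (h : IsPot (cay s h0) σ) (i : Fin 9) : T s σ i * T s σ i = 1 := by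
  ext x y
  rw [TT, add_assoc, add_self2, add_zero, one_apply]
  obtain ⟨h1, h2⟩ := h x (x + s i) ⟨i, rfl⟩
  rw [h2, Complex.mul_conj, Complex.normSq_eq_norm_sq, h1]
  simp [eq_comm]

theorem sum_sq (h0 : ∀ i, s i ≠ 0) (σ : (Fin n → ZMod 2) → (Fin n → ZMod 2) → ℂ)
    (h : IsPot (cay s h0) σ) (ha : ∀ i j, i ≠ j → T s σ i * T s σ j = -(T s σ j * T s σ i)) :
    (∑ i, T s σ i) * (∑ i, T s σ i) = (9 : ℂ) • 1 := by
  have h1 : (∑ i, T s σ i) * (∑ i, T s σ i) = ∑ i, ∑ j, T s σ i * T s σ j := Finset.sum_mul_sum ..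
  have h2 : (∑ i, T s σ i) * (∑ i, T s σ i) = ∑ i, ∑ j, T s σ j * T s σ i := by
    rw [h1, Finset.sum_comm]
  have h3 : (2 : ℂ) • ((∑ i, T s σ i) * (∑ i, T s σ i)) = (2 : ℂ) • ((9 : ℂ) • 1) := by
    rw [two_smul]
    nth_rewrite 1 [h1]
    rw [h2, ← Finset.sum_add_distrib]
    have : ∀ i, ∑ j, T s σ i * T s σ j + ∑ j, T s σ j * T s σ i = (2 : ℂ) • 1 := by
      intro i
      rw [← Finset.sum_add_distrib, Finset.sum_eq_single i]
      · rw [T_sq s h0 σ h, two_smul]
      · intro j _ hj
        rw [ha j i hj, add_neg_cancel]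
      · simp
    simp only [this, Finset.sum_const, Finset.card_univ, Fintype.card_fin]
    rw [smul_comm, ← Nat.cast_smul_eq_nsmul ℂ]
    norm_num
  exact smul_right_injective _ two_ne_zero h3

theorem herm_sum (h0 : ∀ i, s i ≠ 0) (hs : Function.Injective s)
    (σ : (Fin n → ZMod 2) → (Fin n → ZMod 2) → ℂ) (h : IsPot (cay s h0) σ) :
    (∑ i, T s σ i)ᴴ = ∑ i, T s σ i := by
  have h1 := congrArg conjTranspose (lap_eq s h0 hs σ)
  rw [conjTranspose_sub, conjTranspose_sub, (herm _ σ h).eq] at h1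
  simp only [conjTranspose_smul, conjTranspose_one, Complex.star_def, Complex.conj_ofReal,
    map_ofNat] at h1
  rw [lap_eq s h0 hs σ] at h1
  exact (sub_right_injective h1).symm

theorem six_le (h0 : ∀ i, s i ≠ 0) (hs : Function.Injective s)
    (σ : (Fin n → ZMod 2) → (Fin n → ZMod 2) → ℂ) (h : IsPot (cay s h0) σ)
    (ha : ∀ i j, i ≠ j → T s σ i * T s σ j = -(T s σ j * T s σ i)) : (6 : ℝ) ≤ nu (cay s h0) := by
  refine le_trans (le_lam1 _ (herm _ _ h) _ ?_) (le_nu _ _ h)
  rw [lap_eq s h0 hs]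
  have h1 := sum_sq s h0 σ h ha
  have h2 := herm_sum s h0 hs σ h
  generalize ∑ i, T s σ i = A at h1 h2
  have e : (3 : ℂ) • (1 : Matrix _ _ ℂ) - A =
      (1 / 6 : ℂ) • (((3 : ℂ) • 1 - A)ᴴ * ((3 : ℂ) • 1 - A)) := by
    simp only [conjTranspose_sub, conjTranspose_smul, conjTranspose_one, h2, Complex.star_def,
      map_ofNat, sub_mul, mul_sub, h1, Matrix.smul_mul, Matrix.mul_smul, Matrix.one_mul,
      Matrix.mul_one]
    module
  rw [e]
  refine (posSemidef_conjTranspose_mul_self _).smul ?_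
  have : (1 / 6 : ℂ) = ((1 / 6 : ℝ) : ℂ) := by push_cast; rfl
  rw [this]
  exact Complex.zero_le_real.mpr (by norm_num)

def chi (a : ZMod 2) : ℂ := if a = 0 then 1 else -1

theorem chi_add (a b : ZMod 2) : chi (a + b) = chi a * chi b := by
  have : ∀ a : ZMod 2, a = 0 ∨ a = 1 := by decide
  have h2 : (1 + 1 : ZMod 2) = 0 := by decide
  rcases this a with rfl | rfl <;> rcases this b with rfl | rfl <;> simp [chi, h2]

theorem chi_sq (a : ZMod 2) : chi a * chi a = 1 := by
  unfold chi; split_ifs <;> simp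

theorem chi_star (a : ZMod 2) : starRingEnd ℂ (chi a) = chi a := by
  unfold chi; split_ifs <;> simp

theorem anti_of_psd (h0 : ∀ i, s i ≠ 0) (hs : Function.Injective s)
    (hodd : ∀ i, ∑ k, s i k = 1)
    (hsid : ∀ i j k l, i ≠ j → s i + s j = s k + s l → (k = i ∧ l = j) ∨ (k = j ∧ l = i))
    (σ : (Fin n → ZMod 2) → (Fin n → ZMod 2) → ℂ) (h : IsPot (cay s h0) σ)
    (hp : ((3 : ℂ) • (1 : Matrix _ _ ℂ) - ∑ i, T s σ i).PosSemidef) (i j : Fin 9) (hij : i ≠ j) :
    T s σ i * T s σ j = -(T s σ j * T s σ i) := by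
  have h2 := herm_sum s h0 hs σ h
  have hq : ((3 : ℂ) • (1 : Matrix _ _ ℂ) + ∑ i, T s σ i).PosSemidef := by
    have := hp.conjTranspose_mul_mul_same (diagonal fun x : Fin n → ZMod 2 => chi (∑ k, x k))
    refine (congrArg PosSemidef ?_).mp this
    ext x y
    simp only [diagonal_conjTranspose, mul_diagonal, diagonal_mul, Pi.star_apply, Complex.star_def,
      chi_star, Matrix.sub_apply, Matrix.add_apply, Matrix.sum_apply, Matrix.smul_apply, one_apply,
      mul_sub, sub_mul, Finset.mul_sum, Finset.sum_mul, sub_eq_add_neg, ← Finset.sum_neg_distrib,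
      mul_add, add_mul]
    congr 1
    · split_ifs with e
      · subst e
        have := chi_sq (∑ k, x k)
        simp only [smul_eq_mul]
        linear_combination 3 * this
      · simp
    · refine Finset.sum_congr rfl fun k _ => ?_
      rw [Matrix.neg_apply]
      unfold T
      split_ifs with e
      · subst e
        have := chi_sq (∑ k, x k)
        have h3 : chi 1 = -1 := by simp [chi]
        simp only [Pi.add_apply, Finset.sum_add_distrib, chi_add, hodd, h3]
        linear_combination σ x (x + s k) * this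
      · simp
  have hAA : ∀ x y, ((∑ i, T s σ i) * (∑ i, T s σ i)) x y = ∑ k, ∑ l,
      if y = x + s k + s l then σ x (x + s k) * σ (x + s k) (x + s k + s l) else 0 := by
    intro x y
    rw [Finset.sum_mul_sum]
    simp only [Matrix.sum_apply, TT]
  have hB : ((9 : ℂ) • (1 : Matrix _ _ ℂ) - (∑ i, T s σ i) * (∑ i, T s σ i)).PosSemidef := by
    have k1 := hp.conjTranspose_mul_mul_same ((3 : ℂ) • (1 : Matrix _ _ ℂ) + ∑ i, T s σ i)
    have k2 := hq.conjTranspose_mul_mul_same ((3 : ℂ) • (1 : Matrix _ _ ℂ) - ∑ i, T s σ i)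
    have k3 := (k1.add k2).smul (a := (1 / 6 : ℂ)) (by
      have : (1 / 6 : ℂ) = ((1 / 6 : ℝ) : ℂ) := by push_cast; rfl
      rw [this]
      exact Complex.zero_le_real.mpr (by norm_num))
    refine (congrArg PosSemidef ?_).mp k3
    generalize ∑ i, T s σ i = A at h2
    simp only [conjTranspose_sub, conjTranspose_add, conjTranspose_smul, conjTranspose_one, h2,
      Complex.star_def, map_ofNat, sub_mul, mul_sub, add_mul, mul_add, Matrix.smul_mul,
      Matrix.mul_smul, Matrix.one_mul, Matrix.mul_one, Matrix.mul_assoc]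
    module
  have hz := hB.trace_eq_zero_iff.mp (by
    refine Finset.sum_eq_zero fun x _ => ?_
    have e : ∀ k, T s σ k * T s σ k = 1 := T_sq s h0 σ h
    rw [diag_apply, Matrix.sub_apply, hAA]
    have : ∀ k, (∑ l, if x = x + s k + s l then σ x (x + s k) * σ (x + s k) (x + s k + s l) else 0)
        = 1 := by
      intro k
      rw [Finset.sum_eq_single k, ← TT, e, one_apply_eq]
      · intro l _ hl
        rw [if_neg]
        intro hh
        apply hl
        apply hs
        have : s k + s l = 0 := by simpa [add_assoc] using hh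
        rw [← add_zero (s l), ← add_self2 (s k), ← add_assoc, add_comm (s l), this, zero_add]
      · simp
    simp [this])
  ext x y
  rw [Matrix.neg_apply, TT, TT, add_right_comm x (s j) (s i)]
  split_ifs with e
  · have h5 := congrFun (congrFun hz x) (x + s i + s j)
    have hne : x ≠ x + s i + s j := by
      intro hh
      apply hij
      apply hs
      have : s i + s j = 0 := by simpa [add_assoc] using hh
      rw [← add_zero (s i), ← add_self2 (s j), ← add_assoc, this, zero_add]
    rw [Matrix.sub_apply, hAA, Matrix.smul_apply, one_apply_ne hne, ← Finset.sum_product',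
      Finset.sum_eq_add (i, j) (j, i) (by simp [hij])] at h5
    · simp only [add_right_comm x (s j) (s i), if_true, Matrix.zero_apply] at h5
      linear_combination -h5
    · rintro ⟨k, l⟩ _ hkl
      rw [if_neg]
      intro hh
      rw [add_assoc, add_assoc, add_left_cancel_iff] at hh
      rcases hsid i j k l hij hh with h | h
      · exact hkl.1 (Prod.ext h.1 h.2)
      · exact hkl.2 (Prod.ext h.1 h.2)
    · simp
    · simp
  · simp

end Pool.Agent.H14.Mag
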