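import Mathlib

set_option autoImplicit false

namespace Pool.Agent.H14.Mag

open Matrix

variable {V : Type} [Fintype V] [DecidableEq V]

/-- A magnetic potential: unit complex numbers on oriented edges, conjugated under reversal. -/
def IsPot (G : SimpleGraph V) (σ : V → V → ℂ) : Prop :=
  ∀ x y, G.Adj x y → ‖σ x y‖ = 1 ∧ σ y x = starRingEnd ℂ (σ x y)

/-- The magnetic Laplacian. -/
def magLap (G : SimpleGraph V) [DecidableRel G.Adj] (σ : V → V → ℂ) : Matrix V V ℂ :=
  fun x y => if x = y then (G.degree x : ℂ) else if G.Adj x y then -σ x y else 0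

/-- The smallest real eigenvalue of a complex square matrix. -/
noncomputable def lam1 (A : Matrix V V ℂ) : ℝ :=
  sInf {t : ℝ | ∃ f : V → ℂ, f ≠ 0 ∧ A *ᵥ f = (t : ℂ) • f}

/-- The magneto-spectral height. -/
noncomputable def nu (G : SimpleGraph V) [DecidableRel G.Adj] : ℝ :=
  sSup {t : ℝ | ∃ σ : V → V → ℂ, IsPot G σ ∧ t = lam1 (magLap G σ)}

/-- The suspension: a new vertex `none` adjacent to every old vertex. -/
def susp (G : SimpleGraph V) : SimpleGraph (Option V) where
  Adj
    | some a, some b => G.Adj a b
    | some _, none => True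
    | none, some _ => True
    | none, none => False
  symm := ⟨by
    rintro (_ | a) (_ | b) h
    · exact h
    · exact h
    · exact h
    · exact h.symm⟩
  loopless := ⟨by
    rintro (_ | a) h
    · exact h
    · exact h.ne rfl⟩

instance suspDec (G : SimpleGraph V) [DecidableRel G.Adj] : DecidableRel (susp G).Adj
  | some a, some b => inferInstanceAs (Decidable (G.Adj a b))
  | some _, none => inferInstanceAs (Decidable True)
  | none, some _ => inferInstanceAs (Decidable True)
  | none, none => inferInstanceAs (Decidable False)

end Pool.Agent.H14.Mag
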