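import Mathlib

set_option autoImplicit false

namespace Pool.Agent.H14.Match

open MvPolynomial

/-- the matchings of G, the empty one included -/
def Matching {V : Type} (G : SimpleGraph V) : Type :=
  {M : Finset (Sym2 V) // (∀ e ∈ M, e ∈ G.edgeSet) ∧
    ∀ e ∈ M, ∀ f ∈ M, e ≠ f → ∀ v : V, v ∈ e → v ∉ f}

/-- the toric ideal of the matching polytope of G over K -/
noncomputable def toricIdeal (K : Type) [Field K] {V : Type} (G : SimpleGraph V) :
    Ideal (MvPolynomial (Matching G) K) :=
  RingHom.ker (aeval fun M : Matching G =>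
    (X none * ∏ e ∈ M.1, X (some e) : MvPolynomial (Option (Sym2 V)) K))

end Pool.Agent.H14.Match
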