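import Mathlib

set_option autoImplicit false

namespace Pool.Agent.H14.ToricKey

open MvPolynomial

variable {F V K : Type*} [Field K]

noncomputable def ex (r : F → (V →₀ ℕ)) (m : F →₀ ℕ) : V →₀ ℕ := m.sum fun f k => k • r f

lemma ex_apply (r : F → (V →₀ ℕ)) (m : F →₀ ℕ) (x : V) :
    ex r m x = ∑ f ∈ m.support, m f * r f x := by
  simp [ex, Finsupp.sum, Finsupp.finset_sum_apply]

lemma aeval_mono (r : F → (V →₀ ℕ)) (m : F →₀ ℕ) (c : K) :
    aeval (fun f => (monomial (r f) (1:K) : MvPolynomial V K)) (monomial m c)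
      = monomial (ex r m) c := by
  rw [aeval_monomial, ex]
  have h : (m.prod fun i k => (monomial (r i) (1:K) : MvPolynomial V K) ^ k)
      = monomial (m.sum fun f k => k • r f) 1 := by
    rw [Finsupp.prod, Finsupp.sum, monomial_sum_one]
    refine Finset.prod_congr rfl fun i _ => ?_
    rw [monomial_pow, one_pow]
  rw [h, algebraMap_eq, C_mul_monomial, mul_one]

lemma key (r : F → (V →₀ ℕ)) (p : F → K) (P : (F →₀ ℕ) → Prop)
    (h : ∀ m m', P m → P m' → ex r m = ex r m' →
      (m.prod fun f k => p f ^ k) = m'.prod fun f k => p f ^ k)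
    (q : MvPolynomial F K)
    (hq : aeval (fun f => (monomial (r f) (1:K) : MvPolynomial V K)) q = 0)
    (hP : ∀ m ∈ q.support, P m) : eval p q = 0 := by
  classical
  let G : (V →₀ ℕ) → K := fun e =>
    if he : ∃ m, P m ∧ ex r m = e then (he.choose.prod fun f k => p f ^ k) else 0
  let L : MvPolynomial V K →ₗ[K] K := (basisMonomials V K).constr K G
  have hL : ∀ m c, P m → L (monomial (ex r m) c) = c * m.prod fun f k => p f ^ k := by
    intro m c hm
    have h1 : (monomial (ex r m) c : MvPolynomial V K) = c • basisMonomials V K (ex r m) := by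
      simp [smul_monomial]
    have he : ∃ m', P m' ∧ ex r m' = ex r m := ⟨m, hm, rfl⟩
    rw [h1, map_smul, Module.Basis.constr_basis, smul_eq_mul]
    simp only [G, dif_pos he]
    rw [h _ _ he.choose_spec.1 hm he.choose_spec.2]
  have h2 : L (aeval (fun f => (monomial (r f) (1:K) : MvPolynomial V K)) q) = eval p q := by
    conv_lhs => rw [q.as_sum]
    conv_rhs => rw [q.as_sum]
    rw [map_sum, map_sum, map_sum]
    refine Finset.sum_congr rfl fun m hm => ?_
    rw [aeval_mono, hL m _ (hP m hm), eval_monomial]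
  rw [← h2, hq, map_zero]

open Classical in
lemma prod_ind (U : F → Prop) (m : F →₀ ℕ) :
    (m.prod fun f k => (if U f then (1 : K) else 0) ^ k) =
      if ∀ f ∈ m.support, U f then 1 else 0 := by
  split_ifs with h
  · exact Finset.prod_eq_one fun f hf => by simp [h f hf]
  · push Not at h
    obtain ⟨f, hf, hU⟩ := h
    exact Finset.prod_eq_zero hf (by simp [hU, Finsupp.mem_support_iff.1 hf])

/-- If no fibre of degree at most D leaves the support condition U, while u and v lie in one
fibre with u inside U and v not, the toric ideal is not generated in degree at most D. -/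
theorem not_gen (r : F → (V →₀ ℕ)) (U : F → Prop) (D : ℕ)
    (h : ∀ m m' : F →₀ ℕ, (m.sum fun _ k => k) ≤ D → (m'.sum fun _ k => k) ≤ D →
      ex r m = ex r m' → (∀ f ∈ m.support, U f) → ∀ f ∈ m'.support, U f)
    (u v : F →₀ ℕ) (huv : ex r u = ex r v) (hu : ∀ f ∈ u.support, U f)
    (hv : ¬ ∀ f ∈ v.support, U f) (I : Ideal (MvPolynomial F K))
    (hI : I = RingHom.ker (aeval (fun f => (monomial (r f) (1:K) : MvPolynomial V K)) :
      MvPolynomial F K →ₐ[K] MvPolynomial V K)) :
    I ≠ Ideal.span {q | q ∈ I ∧ q.totalDegree ≤ D} := by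
  classical
  intro e
  have h1 : Ideal.span {q | q ∈ I ∧ q.totalDegree ≤ D} ≤
      RingHom.ker (eval fun f => if U f then (1 : K) else 0) := by
    rw [Ideal.span_le]
    rintro q ⟨hq, hd⟩
    rw [hI] at hq
    refine key r _ (fun m => (m.sum fun _ k => k) ≤ D) ?_ q hq
      fun m hm => (le_totalDegree hm).trans hd
    intro m m' hm hm' hex
    rw [prod_ind, prod_ind]
    exact if_congr ⟨h m m' hm hm' hex, h m' m hm' hm hex.symm⟩ rfl rfl
  have h2 : (monomial u 1 - monomial v 1 : MvPolynomial F K) ∈ I := by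
    rw [hI, RingHom.mem_ker, map_sub, aeval_mono, aeval_mono, huv, sub_self]
  rw [e] at h2
  have h3 := h1 h2
  rw [RingHom.mem_ker, map_sub, eval_monomial, eval_monomial, prod_ind, prod_ind, if_pos hu,
    if_neg hv] at h3
  simp at h3

end Pool.Agent.H14.ToricKey
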