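import Mathlib
import Pool.Agent.H14.MatchDefs
import Pool.Agent.H14.ToricKey

set_option autoImplicit false

namespace Pool.Agent.H14.Match

open MvPolynomial ToricKey

def f : Fin 16 → Sym2 (Fin 10) :=
  ![s(0, 1), s(1, 2), s(2, 3), s(3, 4), s(0, 4), s(0, 5), s(1, 6), s(2, 7), s(3, 8), s(4, 9),
    s(5, 7), s(6, 8), s(7, 9), s(5, 8), s(6, 9), s(0, 2)]

def G : SimpleGraph (Fin 10) := SimpleGraph.fromEdgeSet (Set.range f)

theorem f_nd : ∀ i, ¬ (f i).IsDiag := by decide

theorem f_inj : Function.Injective f := by decide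

theorem mem_G (e : Sym2 (Fin 10)) : e ∈ G.edgeSet ↔ ∃ i, f i = e := by
  simp only [G, SimpleGraph.edgeSet_fromEdgeSet, Set.mem_diff, Set.mem_range, Sym2.mem_diagSet]
  constructor
  · exact fun h => h.1
  · rintro ⟨i, rfl⟩
    exact ⟨⟨i, rfl⟩, f_nd i⟩

def pb : Fin 8 → Finset (Fin 16) :=
  ![{0, 2, 9, 10, 11}, {0, 3, 7, 13, 14}, {1, 3, 5, 11, 12}, {1, 4, 8, 10, 14}, {2, 4, 6, 12, 13},
    {3, 6, 12, 13, 15}, {5, 6, 7, 8, 9}, {6, 8, 9, 10, 15}]

theorem pb_inj : Function.Injective pb := by decide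

theorem pb_match : ∀ j, ∀ a ∈ pb j, ∀ b ∈ pb j, a ≠ b → ∀ v : Fin 10, v ∈ f a → v ∉ f b := by
  decide +kernel

def PM (j : Fin 8) : Matching G :=
  ⟨(pb j).image f, by
    constructor
    · intro e he
      obtain ⟨i, -, rfl⟩ := Finset.mem_image.1 he
      exact (mem_G _).2 ⟨i, rfl⟩
    · intro e he e' he' hne
      obtain ⟨i, hi, rfl⟩ := Finset.mem_image.1 he
      obtain ⟨i', hi', rfl⟩ := Finset.mem_image.1 he'
      exact pb_match j i hi i' hi' fun h => hne (congrArg f h)⟩

theorem mem_PM (j : Fin 8) (i : Fin 16) : f i ∈ (PM j).1 ↔ i ∈ pb j :=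
  Function.Injective.mem_finset_image f_inj

theorem PM_inj : Function.Injective PM := fun _ _ h =>
  pb_inj (Finset.image_injective f_inj (congrArg Subtype.val h))

noncomputable def r (M : Matching G) : Option (Sym2 (Fin 10)) →₀ ℕ :=
  Finsupp.single none 1 + ∑ e ∈ M.1, Finsupp.single (some e) 1

theorem r_none (M : Matching G) : r M none = 1 := by
  simp [r, Finsupp.finset_sum_apply]

theorem r_some (M : Matching G) (e : Sym2 (Fin 10)) : r M (some e) = if e ∈ M.1 then 1 else 0 := by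
  simp [r, Finsupp.finset_sum_apply, Finsupp.single_apply]

theorem r_mono (K : Type) [Field K] (M : Matching G) :
    (X none * ∏ e ∈ M.1, X (some e) : MvPolynomial (Option (Sym2 (Fin 10))) K) =
      monomial (r M) 1 := by
  rw [r, ← mul_one (1 : K), ← monomial_mul, monomial_sum_one]
  rfl

/-- number of edges of M at v -/
def cov (M : Matching G) (v : Fin 10) : ℕ :=
  ∑ i : Fin 16, if v ∈ f i then (if f i ∈ M.1 then 1 else 0) else 0

theorem cov_le (M : Matching G) (v : Fin 10) : cov M v ≤ 1 := by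
  have : cov M v = (Finset.univ.filter fun i => v ∈ f i ∧ f i ∈ M.1).card := by
    rw [cov, Finset.card_filter]
    exact Finset.sum_congr rfl fun i _ => by split_ifs <;> simp_all
  rw [this, Finset.card_le_one]
  intro a ha b hb
  simp only [Finset.mem_filter, Finset.mem_univ, true_and] at ha hb
  by_contra hne
  exact M.2.2 _ ha.2 _ hb.2 (fun h => hne (f_inj h)) v ha.1 hb.1

theorem cov_PM (j : Fin 8) (v : Fin 10) : cov (PM j) v = 1 := by
  simp only [cov, mem_PM]
  revert j v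
  decide +kernel

theorem cls : ∀ b0 b4 b5 b15 : Bool, b0.toNat + b4.toNat + b5.toNat + b15.toNat = 1 →
    ∀ b1 b6 : Bool, b0.toNat + b1.toNat + b6.toNat = 1 →
    ∀ b2 b7 : Bool, b1.toNat + b2.toNat + b7.toNat + b15.toNat = 1 →
    ∀ b3 b8 : Bool, b2.toNat + b3.toNat + b8.toNat = 1 →
    ∀ b9 : Bool, b3.toNat + b4.toNat + b9.toNat = 1 →
    ∀ b10 b13 : Bool, b5.toNat + b10.toNat + b13.toNat = 1 →
    ∀ b11 b14 : Bool, b6.toNat + b11.toNat + b14.toNat = 1 →
    ∀ b12 : Bool, b7.toNat + b10.toNat + b12.toNat = 1 →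
    b8.toNat + b11.toNat + b13.toNat = 1 → b9.toNat + b12.toNat + b14.toNat = 1 →
    ∃ j : Fin 8, ∀ i : Fin 16, ![b0, b1, b2, b3, b4, b5, b6, b7, b8, b9, b10, b11, b12, b13, b14,
      b15] i = decide (i ∈ pb j) := by
  decide +kernel

def inc : Fin 10 → List (Fin 16) :=
  ![[0, 4, 5, 15], [0, 1, 6], [1, 2, 7, 15], [2, 3, 8], [3, 4, 9], [5, 10, 13], [6, 11, 14],
    [7, 10, 12], [8, 11, 13], [9, 12, 14]]

theorem inc_iff : ∀ v i, v ∈ f i ↔ i ∈ inc v := by decide +kernel

theorem classify (M : Matching G) (h : ∀ v, cov M v = 1) : ∃ j, M = PM j := by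
  obtain ⟨b, hb⟩ : ∃ b : Fin 16 → Bool, ∀ i, b i = decide (f i ∈ M.1) := ⟨_, fun _ => rfl⟩
  have hv : ∀ v, ∑ i : Fin 16, (if i ∈ inc v then (b i).toNat else 0) = 1 := by
    intro v
    rw [← h v, cov]
    refine Finset.sum_congr rfl fun i _ => ?_
    simp only [inc_iff, hb]
    split_ifs <;> simp_all
  have h0 := hv 0
  have h1 := hv 1
  have h2 := hv 2
  have h3 := hv 3
  have h4 := hv 4
  have h5 := hv 5
  have h6 := hv 6
  have h7 := hv 7
  have h8 := hv 8
  have h9 := hv 9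
  simp [inc, Fin.sum_univ_succ] at h0 h1 h2 h3 h4 h5 h6 h7 h8 h9
  obtain ⟨j, hj⟩ := cls (b 0) (b 4) (b 5) (b 15) (by omega) (b 1) (b 6) (by omega) (b 2) (b 7)
    (by omega) (b 3) (b 8) (by omega) (b 9) (by omega) (b 10) (b 13) (by omega) (b 11) (b 14)
    (by omega) (b 12) (by omega) (by omega) (by omega)
  have hj' : ∀ i, b i = decide (i ∈ pb j) := by
    intro i
    rw [← hj i]
    fin_cases i <;> rfl
  refine ⟨j, Subtype.ext ?_⟩
  ext e
  constructor
  · intro he
    obtain ⟨i, rfl⟩ := (mem_G e).1 (M.2.1 e he)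
    rw [mem_PM]
    have := hj' i
    rw [hb] at this
    simpa [he] using this
  · intro he
    obtain ⟨i, rfl⟩ := (mem_G e).1 ((PM j).2.1 e he)
    rw [mem_PM] at he
    have := hj' i
    rw [hb] at this
    simpa [he] using this

theorem sum_PM (m : Matching G →₀ ℕ) (h : ∀ M ∈ m.support, ∃ j, M = PM j) (g : Matching G → ℕ) :
    ∑ M ∈ m.support, m M * g M = ∑ j : Fin 8, m (PM j) * g (PM j) := by
  classical
  rw [← Finset.sum_image (s := Finset.univ) (g := PM) (f := fun M => m M * g M)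
    fun _ _ _ _ e => PM_inj e]
  refine Finset.sum_subset ?_ ?_
  · intro M hM
    obtain ⟨j, rfl⟩ := h M hM
    exact Finset.mem_image_of_mem _ (Finset.mem_univ j)
  · intro M _ hM
    rw [Finsupp.notMem_support_iff.1 hM, zero_mul]

theorem ex_cov (m : Matching G →₀ ℕ) (v : Fin 10) :
    ∑ i : Fin 16, (if v ∈ f i then ex r m (some (f i)) else 0) =
      ∑ M ∈ m.support, m M * cov M v := by
  simp only [cov, Finset.mul_sum]
  rw [Finset.sum_comm]
  refine Finset.sum_congr rfl fun i _ => ?_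
  by_cases hv : v ∈ f i
  · simp only [hv, if_true, ex_apply, r_some]
  · simp [hv]

def U (M : Matching G) : Prop := M = PM 0 ∨ M = PM 3 ∨ M = PM 5 ∨ M = PM 6

theorem U_PM (j : Fin 8) : U (PM j) ↔ j = 0 ∨ j = 3 ∨ j = 5 ∨ j = 6 := by
  simp only [U, PM_inj.eq_iff]

theorem low (m m' : Matching G →₀ ℕ) (hd : (m'.sum fun _ k => k) ≤ 4) (hex : ex r m = ex r m')
    (hU : ∀ M ∈ m.support, U M) : ∀ M ∈ m'.support, U M := by
  have hm : ∀ M ∈ m.support, ∃ j, M = PM j := by
    intro M hM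
    rcases hU M hM with h | h | h | h <;> exact ⟨_, h⟩
  have hm' : ∀ M ∈ m'.support, ∃ j, M = PM j := by
    intro M hM
    apply classify
    intro v
    have e1 : ∑ M ∈ m'.support, m' M * cov M v = ∑ M ∈ m'.support, m' M * 1 := by
      rw [← ex_cov, ← hex, ex_cov]
      have e2 := ex_apply r m none
      have e3 := ex_apply r m' none
      simp only [r_none] at e2 e3
      rw [← e3, ← hex, e2]
      refine Finset.sum_congr rfl fun M hM => ?_
      obtain ⟨j, rfl⟩ := hm M hM
      rw [cov_PM]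
    have e4 := (Finset.sum_eq_sum_iff_of_le fun M _ =>
      Nat.mul_le_mul_left (m' M) (cov_le M v)).1 e1 M hM
    exact Nat.eq_of_mul_eq_mul_left (Nat.pos_of_ne_zero (Finsupp.mem_support_iff.1 hM)) e4
  have hz : ∀ j, ¬ U (PM j) → m (PM j) = 0 := fun j hj =>
    Finsupp.notMem_support_iff.1 fun h => hj (hU _ h)
  have z1 := hz 1 (by rw [U_PM]; decide)
  have z2 := hz 2 (by rw [U_PM]; decide)
  have z4 := hz 4 (by rw [U_PM]; decide)
  have z7 := hz 7 (by rw [U_PM]; decide)
  have he : ∀ i : Fin 16, ∑ j : Fin 8, m (PM j) * (if i ∈ pb j then 1 else 0) =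
      ∑ j : Fin 8, m' (PM j) * (if i ∈ pb j then 1 else 0) := by
    intro i
    have e2 := ex_apply r m (some (f i))
    have e3 := ex_apply r m' (some (f i))
    rw [sum_PM m hm] at e2
    rw [sum_PM m' hm'] at e3
    simp only [r_some, mem_PM] at e2 e3
    rw [← e2, ← e3, hex]
  have hd' : ∑ j : Fin 8, m' (PM j) * 1 ≤ 4 := by
    rw [← sum_PM m' hm' fun _ => 1]
    simpa [Finsupp.sum] using hd
  have a0 := he 0
  have a1 := he 1
  have a2 := he 2
  have a3 := he 3
  have a4 := he 4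
  have a5 := he 5
  have a7 := he 7
  have a11 := he 11
  have a12 := he 12
  have a13 := he 13
  have a14 := he 14
  have a15 := he 15
  simp [pb, Fin.sum_univ_succ, z1, z2, z4, z7] at a0 a1 a2 a3 a4 a5 a7 a11 a12 a13 a14 a15 hd'
  intro M hM
  obtain ⟨j, rfl⟩ := hm' M hM
  have hne := Finsupp.mem_support_iff.1 hM
  rw [U_PM]
  fin_cases j <;> simp at hne ⊢ <;> omega

theorem main (K : Type) [Field K] :
    toricIdeal K G ≠ Ideal.span {q | q ∈ toricIdeal K G ∧ q.totalDegree ≤ 4} := by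
  classical
  refine not_gen r U 4 (fun m m' _ h => low m m' h)
    (Finsupp.single (PM 0) 1 + Finsupp.single (PM 3) 1 + Finsupp.single (PM 5) 2 +
      Finsupp.single (PM 6) 1)
    (Finsupp.single (PM 1) 1 + Finsupp.single (PM 2) 1 + Finsupp.single (PM 4) 1 +
      Finsupp.single (PM 7) 2) ?_ ?_ ?_ _ ?_
  · have hadd : ∀ a b : Matching G →₀ ℕ, ex r (a + b) = ex r a + ex r b := fun a b =>
      Finsupp.sum_add_index' (fun _ => zero_smul _ _) fun _ _ _ => add_smul _ _ _
    have hs : ∀ (M : Matching G) (k : ℕ), ex r (Finsupp.single M k) = k • r M := fun M k =>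
      Finsupp.sum_single_index (zero_smul _ _)
    simp only [hadd, hs]
    ext x
    rcases x with _ | e
    · simp [r_none]
    · simp only [Finsupp.add_apply, Finsupp.smul_apply, r_some, smul_eq_mul]
      by_cases he : ∃ i, f i = e
      · obtain ⟨i, rfl⟩ := he
        simp only [mem_PM]
        revert i
        decide +kernel
      · have : ∀ j, e ∉ (PM j).1 := fun j h => he ((mem_G e).1 ((PM j).2.1 e h))
        simp [this]
  · intro M hM
    by_contra hc
    simp only [U, not_or] at hc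
    apply Finsupp.mem_support_iff.1 hM
    simp [Finsupp.single_apply, Ne.symm hc.1, Ne.symm hc.2.1, Ne.symm hc.2.2.1, Ne.symm hc.2.2.2]
  · intro h
    have := h (PM 1) (Finsupp.mem_support_iff.2 (by simp))
    rw [U_PM] at this
    revert this
    decide
  · unfold toricIdeal
    simp only [r_mono]

end Pool.Agent.H14.Match
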