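import Pool.Agent.H14.Spec

set_option autoImplicit false

namespace Pool.Agent.H14.Median

open Matrix

/-- The ten 2-subsets of a 5-set. -/
def pr (i : ℕ) : ℕ × ℕ :=
  ([(0,1),(0,2),(0,3),(0,4),(1,2),(1,3),(1,4),(2,3),(2,4),(3,4)] : List (ℕ × ℕ)).getD i (0,0)

/-- Petersen graph on 0..9 and the 4 by 4 rook graph on 10..25. -/
def adj (i j : Fin 26) : Bool :=
  if i.val < 10 then
    (j.val < 10 && (pr i).1 != (pr j).1 && (pr i).1 != (pr j).2 && (pr i).2 != (pr j).1 &&
      (pr i).2 != (pr j).2)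
  else (10 ≤ j.val && i != j &&
    ((i.val - 10) / 4 == (j.val - 10) / 4 || (i.val - 10) % 4 == (j.val - 10) % 4))

def G : SimpleGraph (Fin 26) where
  Adj i j := adj i j = true
  symm := ⟨by decide +kernel⟩
  loopless := ⟨by decide +kernel⟩

instance : DecidableRel G.Adj := fun i j => inferInstanceAs (Decidable (adj i j = true))

def sg (a x : ℕ) : ℤ := if x = a then 1 else if x = 3 then -1 else 0

def S : Matrix (Fin 26) (Fin 13) ℤ := fun i k =>
  if k.val < 4 then
    (if i.val < 10 then
      (if (pr i).1 = k.val ∨ (pr i).2 = k.val then 1 else 0) - (if (pr i).2 = 4 then 1 else 0)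
    else 0)
  else
    (if i.val < 10 then 0 else
      sg ((k.val - 4) / 3) ((i.val - 10) / 4) * sg ((k.val - 4) % 3) ((i.val - 10) % 4))

def L : Matrix (Fin 13) (Fin 26) ℤ := fun k i =>
  if k.val = 0 then (if i.val = 0 ∨ i.val = 1 then 1 else if i.val = 4 then -1 else 0)
  else if k.val = 1 then (if i.val = 0 ∨ i.val = 4 then 1 else if i.val = 1 then -1 else 0)
  else if k.val = 2 then (if i.val = 1 ∨ i.val = 4 then 1 else if i.val = 0 then -1 else 0)
  else if k.val = 3 then (if i.val = 2 ∨ i.val = 5 then 1 else if i.val = 0 then -1 else 0)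
  else if i.val = 10 + 4 * ((k.val - 4) / 3) + (k.val - 4) % 3 then 2 else 0

lemma AS : G.adjMatrix ℤ * S = (-2 : ℤ) • S := by decide +kernel
lemma LS : L * S = (2 : ℤ) • (1 : Matrix (Fin 13) (Fin 13) ℤ) := by decide +kernel
lemma edges : G.edgeFinset.card = 63 := by
  have h := G.sum_degrees_eq_twice_card_edges
  have h2 : ∑ v, G.degree v = 126 := by decide +kernel
  omega

lemma adjR : G.adjMatrix ℝ = (G.adjMatrix ℤ).map (Int.castRingHom ℝ) := by
  ext i j
  simp only [SimpleGraph.adjMatrix_apply, Matrix.map_apply]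
  split_ifs <;> simp

lemma many (hA : (G.adjMatrix ℝ).IsHermitian) :
    13 ≤ (Finset.univ.filter (fun i => hA.eigenvalues i < -1.97)).card := by
  have h := Spec.card_lt hA (S.map (Int.castRingHom ℝ)) (-1.97) (by
    intro y hy
    have h1 : G.adjMatrix ℝ * S.map (Int.castRingHom ℝ) = (-2 : ℝ) • S.map (Int.castRingHom ℝ) := by
      rw [adjR, ← Matrix.map_mul, AS]
      ext i j
      simp
    have h2 : L.map (Int.castRingHom ℝ) * S.map (Int.castRingHom ℝ) = (2 : ℝ) • 1 := by
      rw [← Matrix.map_mul, LS]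
      ext i j
      simp only [Matrix.map_apply, Matrix.smul_apply, Matrix.one_apply]
      split_ifs <;> simp
    have h3 : S.map (Int.castRingHom ℝ) *ᵥ y ≠ 0 := by
      intro h0
      apply hy
      have : L.map (Int.castRingHom ℝ) *ᵥ (S.map (Int.castRingHom ℝ) *ᵥ y) = 0 := by
        rw [h0, mulVec_zero]
      rw [mulVec_mulVec, h2, smul_mulVec, one_mulVec] at this
      simpa using this
    have h4 : 0 < (S.map (Int.castRingHom ℝ) *ᵥ y) ⬝ᵥ (S.map (Int.castRingHom ℝ) *ᵥ y) := by
      apply lt_of_le_of_ne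
      · exact Finset.sum_nonneg fun i _ => mul_self_nonneg _
      · intro h0
        exact h3 (dotProduct_self_eq_zero.mp h0.symm)
    rw [mulVec_mulVec, h1, smul_mulVec, dotProduct_smul, smul_eq_mul]
    linarith)
  simpa using h

end Pool.Agent.H14.Median
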