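import Mathlib

set_option autoImplicit false

namespace Pool.Agent.H14.MinorGap

open SimpleGraph Finset

variable {V W : Type}

/-- `H` is a minor of `G` (branch-set model). -/
def IsMinor (H : SimpleGraph W) (G : SimpleGraph V) : Prop :=
  ∃ B : W → Set V, (∀ w, (G.induce (B w)).Connected) ∧ Pairwise (fun a b => Disjoint (B a) (B b)) ∧
    ∀ a b, H.Adj a b → ∃ x ∈ B a, ∃ y ∈ B b, G.Adj x y

/-- `G` has no minor in the family `ℋ`. -/
def Free (ℋ : Set (Σ m, SimpleGraph (Fin m))) (G : SimpleGraph V) : Prop :=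
  ∀ H ∈ ℋ, ¬ IsMinor H.2 G

/-- `G` is edge-maximal `ℋ`-free. -/
def EdgeMax (ℋ : Set (Σ m, SimpleGraph (Fin m))) (G : SimpleGraph V) : Prop :=
  Free ℋ G ∧ ∀ u v, u ≠ v → ¬ G.Adj u v → ¬ Free ℋ (G ⊔ edge u v)

/-- `E_ℋ(n)`. -/
def Eset (ℋ : Set (Σ m, SimpleGraph (Fin m))) (n : ℕ) : Set ℕ :=
  {e | ∃ (V : Type) (_ : Finite V) (G : SimpleGraph V),
    Nat.card V = n ∧ EdgeMax ℋ G ∧ G.edgeSet.ncard = e}

/-- `gap_ℋ(n)`. -/
noncomputable def gap (ℋ : Set (Σ m, SimpleGraph (Fin m))) (n : ℕ) : ℕ :=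
  sSup (Eset ℋ n) - sInf (Eset ℋ n)

/-- `ℋ` is non-empty and each member has an edge. -/
def Suitable (ℋ : Set (Σ m, SimpleGraph (Fin m))) : Prop := ℋ.Nonempty ∧ ∀ H ∈ ℋ, H.2 ≠ ⊥

def H0 : Set (Σ m, SimpleGraph (Fin m)) := {H | 4 ≤ H.1 ∧ H.2.Connected}

theorem suit : Suitable H0 := by
  refine ⟨⟨⟨4, ⊤⟩, le_rfl, connected_top⟩, ?_⟩
  rintro ⟨m, H⟩ ⟨h1, h2⟩ e
  dsimp only at *
  have := reachable_bot.1 (e ▸ h2 ⟨0, by omega⟩ ⟨1, by omega⟩)
  simp at this

def cp (G : SimpleGraph V) (v : V) : Set V := {w | G.Reachable v w}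

theorem free_iff [Finite V] (G : SimpleGraph V) : Free H0 G ↔ ∀ v, (cp G v).ncard ≤ 3 := by
  constructor
  · intro h v
    by_contra c
    have e := (Finite.equivFin (G.connectedComponentMk v).supp).symm
    have hc : Nat.card (G.connectedComponentMk v).supp = (cp G v).ncard := by
      rw [Nat.card_coe_set_eq]
      congr 1
      ext w
      simp [cp, reachable_comm]
    refine h ⟨_, (G.connectedComponentMk v).toSimpleGraph.comap e⟩ ⟨by simp only; omega,
      (Iso.comap e _).connected_iff.2 (ConnectedComponent.connected_toSimpleGraph _)⟩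
      ⟨fun a => {(e a).1}, fun a => ?_, fun a b n => ?_, fun a b k => ⟨_, rfl, _, rfl, k⟩⟩
    · exact induce_singleton_eq_top G _ ▸ connected_top
    · simpa [Subtype.val_inj] using e.injective.ne n
  · rintro h ⟨m, H⟩ ⟨h1, h2⟩ ⟨B, k1, k2, k3⟩
    dsimp only at *
    choose x hx using fun a => Set.nonempty_coe_sort.1 (k1 a).nonempty
    have r : ∀ a, ∀ y ∈ B a, ∀ z ∈ B a, G.Reachable y z := fun a y hy z hz =>
      (k1 a ⟨y, hy⟩ ⟨z, hz⟩).map (Embedding.induce _).toHom
    have t : ∀ a b, H.Reachable a b → G.Reachable (x a) (x b) := fun a b q => by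
      obtain ⟨p⟩ := q
      induction p with
      | nil => rfl
      | cons e _ ih =>
        obtain ⟨y, hy, z, hz, e⟩ := k3 _ _ e
        exact (r _ _ (hx _) _ hy).trans (e.reachable.trans ((r _ _ hz _ (hx _)).trans ih))
    have := Set.ncard_le_ncard_of_injOn (s := Set.univ) (t := cp G (x ⟨0, by omega⟩)) x
      (fun a _ => t _ _ (h2 _ _)) (fun a _ b _ e => by
        by_contra n
        exact Set.disjoint_left.1 (k2 n) (hx a) (e ▸ hx b))
    have := h (x ⟨0, by omega⟩)
    simp only [Set.ncard_univ, Nat.card_fin] at *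
    omega

theorem cp_sup (G : SimpleGraph V) (u v x : V) :
    cp (G ⊔ edge u v) x ⊆ cp G x ∨ cp (G ⊔ edge u v) x ⊆ cp G u ∪ cp G v := by
  by_cases h : x ∈ cp G u ∪ cp G v
  · refine .inr fun y hy => ?_
    induction (reachable_iff_reflTransGen _ _).1 hy with
    | refl => exact h
    | tail a b ih =>
      rcases b with b | b
      · exact (ih ((reachable_iff_reflTransGen _ _).2 a)).imp (·.trans b.reachable)
          (·.trans b.reachable)
      · rcases (edge_adj ..).1 b with ⟨⟨-, rfl⟩ | ⟨-, rfl⟩, -⟩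
        exacts [.inr .rfl, .inl .rfl]
  · refine .inl fun y hy => ?_
    induction (reachable_iff_reflTransGen _ _).1 hy with
    | refl => exact .rfl
    | tail a b ih =>
      have := ih ((reachable_iff_reflTransGen _ _).2 a)
      rcases b with b | b
      · exact this.trans b.reachable
      · rcases (edge_adj ..).1 b with ⟨⟨rfl, -⟩ | ⟨rfl, -⟩, -⟩
        exacts [absurd (.inl this.symm) h, absurd (.inr this.symm) h]

theorem dvd3 {n e : ℕ} (hn : 3 ∣ n) (h : e ∈ Eset H0 n) : 3 ∣ e ∧ n ≤ 2 * e ∧ e ≤ n := by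
  classical
  obtain ⟨V, _, G, rfl, ⟨h1, h2⟩, rfl⟩ := h
  have := Fintype.ofFinite V
  simp only [free_iff] at h1 h2
  have a : ∀ u v, u ≠ v → ¬ G.Adj u v → 3 < (cp G u ∪ cp G v).ncard := fun u v n c => by
    by_contra k
    refine h2 u v n c fun x => ?_
    rcases cp_sup G u v x with s | s
    · exact (Set.ncard_le_ncard s).trans (h1 x)
    · exact (Set.ncard_le_ncard s).trans (not_lt.1 k)
  have ce : ∀ u v, G.Reachable u v → cp G u = cp G v := fun u v r =>
    Set.ext fun w => ⟨r.symm.trans, r.trans⟩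
  have d : ∀ v, G.degree v + 1 = (cp G v).ncard := fun v => by
    rw [← card_neighborFinset_eq_degree, ← Set.ncard_coe_finset, coe_neighborFinset,
      ← Set.ncard_insert_of_notMem (G.notMem_neighborSet_self)]
    congr 1
    ext w
    refine ⟨?_, fun r => ?_⟩
    · rintro (rfl | k)
      exacts [.rfl, k.reachable]
    · by_contra k
      have := a v w (fun e => k (.inl e.symm)) fun e => k (.inr e)
      rw [← ce v w r, Set.union_self] at this
      exact absurd (h1 v) (not_le.2 this)
  have t : 3 ∣ #{v | (cp G v).ncard = 3} := by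
    rw [card_eq_sum_card_fiberwise (f := G.connectedComponentMk) (t := univ) fun _ _ => by simp]
    refine dvd_sum fun K _ => ?_
    rcases eq_empty_or_nonempty {v ∈ ({v | (cp G v).ncard = 3} : Finset V) |
      G.connectedComponentMk v = K} with c | ⟨v, c⟩
    · simp [c]
    · simp only [mem_filter, mem_univ, true_and] at c
      rw [← c.1, ← Set.ncard_coe_finset]
      refine dvd_of_eq (congrArg _ (Set.ext fun w => ?_))
      simp only [coe_filter, mem_filter, mem_univ, true_and, Set.mem_ofPred_eq, ← c.2,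
        ConnectedComponent.eq]
      exact ⟨fun r => ⟨ce v w r ▸ rfl, Reachable.symm r⟩, fun r => r.2.symm⟩
  rw [Nat.card_eq_fintype_card] at hn ⊢
  have p : ∀ v, 2 ≤ (cp G v).ncard := fun v => by
    by_contra c
    have := d v
    have s : ({u | (cp G u).ncard = 3} : Finset V) = univ.erase v := by
      ext u
      simp only [mem_filter, mem_univ, true_and, mem_erase, and_true]
      refine ⟨fun e k => by subst k; omega, fun k => ?_⟩
      have t1 := a u v k fun e => by have := e.symm.degree_pos_left; omega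
      have t2 := Set.ncard_union_le (cp G u) (cp G v)
      have := h1 u
      omega
    rw [s, card_erase_of_mem (mem_univ _), card_univ] at t
    have := Fintype.card_pos_iff.2 ⟨v⟩
    omega
  have s := G.sum_degrees_eq_twice_card_edges
  rw [sum_congr rfl fun v _ => show G.degree v = 1 + if (cp G v).ncard = 3 then 1 else 0 by
    have := d v; have := p v; have := h1 v; split_ifs <;> omega, sum_add_distrib, ← card_filter,
    ← card_eq_sum_ones, card_univ] at s
  have := card_le_univ ({v | (cp G v).ncard = 3} : Finset V)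
  rw [← coe_edgeFinset, Set.ncard_coe_finset]
  omega

theorem mem_of (V : Type) [Fintype V] [DecidableEq V] (c : V → V) (e : ℕ)
    (h1 : ∀ v, 2 ≤ #{w | c w = c v} ∧ #{w | c w = c v} ≤ 3)
    (h2 : ∑ v, #{w | c w = c v} = 2 * e + Fintype.card V) : e ∈ Eset H0 (Fintype.card V) := by
  classical
  let G : SimpleGraph V := ⟨fun u v => u ≠ v ∧ c u = c v, ⟨fun u v h => ⟨h.1.symm, h.2.symm⟩⟩,
    ⟨fun u h => h.1 rfl⟩⟩
  have r : ∀ u v, c u = c v → G.Reachable u v := fun u v h => by
    by_cases k : u = v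
    exacts [k ▸ .rfl, Adj.reachable ⟨k, h⟩]
  refine ⟨V, inferInstance, G, Nat.card_eq_fintype_card, ⟨(free_iff _).2 fun v => ?_,
    fun u v n k f => ?_⟩, ?_⟩
  · refine (Set.ncard_le_ncard (t := ({w | c w = c v} : Finset V)) fun w q => ?_).trans
      ((Set.ncard_coe_finset _).trans_le (h1 v).2)
    obtain ⟨p⟩ := q
    simp only [coe_filter, mem_univ, true_and, Set.mem_ofPred_eq]
    induction p with
    | nil => rfl
    | cons a _ ih => exact ih.trans a.2.symm
  · have t := Set.ncard_le_ncard (t := cp (G ⊔ edge u v) u)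
      (s := (((univ.filter fun w => c w = c u) ∪ univ.filter fun w => c w = c v : Finset V) : Set V)) fun w hw => by
        simp only [coe_union, coe_filter, mem_univ, true_and, Set.mem_union,
          Set.mem_ofPred_eq] at hw
        rcases hw with hw | hw
        · exact (r _ _ hw.symm).mono le_sup_left
        · exact (Adj.reachable (Or.inr ((edge_adj ..).2 ⟨.inl ⟨rfl, rfl⟩, n⟩) : (G ⊔ edge u v).Adj u v)).trans
            ((r _ _ hw.symm).mono le_sup_left)
    rw [Set.ncard_coe_finset, card_union_of_disjoint (disjoint_filter.2 fun w _ a b =>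
      k ⟨n, a.symm.trans b⟩)] at t
    have := (free_iff _).1 f u
    have := h1 u
    have := h1 v
    omega
  · have s := G.sum_degrees_eq_twice_card_edges
    have d : ∀ v, #{w | c w = c v} = G.degree v + 1 := fun v => by
      rw [← card_neighborFinset_eq_degree, ← card_insert_of_notMem (G.notMem_neighborFinset_self v)]
      congr 1
      ext w
      by_cases k : v = w <;> simp [G, k, eq_comm]
    simp only [d, sum_add_distrib, ← card_eq_sum_ones, card_univ] at h2
    rw [← coe_edgeFinset, Set.ncard_coe_finset]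
    omega

theorem mem_ab (a b : ℕ) : 3 * a + b ∈ Eset H0 (3 * a + 2 * b) := by
  let c : (Fin a × Fin 3) ⊕ (Fin b × Fin 2) → (Fin a × Fin 3) ⊕ (Fin b × Fin 2) :=
    Sum.map (fun x => (x.1, 0)) fun x => (x.1, 0)
  have h : ∀ v, #{w | c w = c v} = v.elim (fun _ => 3) fun _ => 2 := by
    rintro (⟨i, j⟩ | ⟨i, j⟩) <;> rw [card_filter] <;> simp [c, Fintype.sum_prod_type, sum_add_distrib, Fin.sum_univ_three, -sum_boole]
  have := mem_of _ c (3 * a + b) (by rintro (v | v) <;> simp [h]) (by simp [h]; ring)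
  simpa [mul_comm] using this

theorem bdd (n : ℕ) : BddAbove (Eset H0 n) := by
  classical
  refine ⟨n.choose 2, ?_⟩
  rintro _ ⟨V, _, G, rfl, -, rfl⟩
  have := Fintype.ofFinite V
  rw [← coe_edgeFinset, Set.ncard_coe_finset, Nat.card_eq_fintype_card]
  exact card_edgeFinset_le_card_choose_two

theorem gap_ge (n : ℕ) : n ≤ 2 * gap H0 n + 8 := by
  rcases le_or_gt n 8 with h | h
  · omega
  have h1 := le_csSup (bdd n) (by
    convert mem_ab ((n - 2 * (2 * n % 3)) / 3) (2 * n % 3) using 2
    omega : _ ∈ Eset H0 n)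
  have h2 := Nat.sInf_le (by
    convert mem_ab (n % 2) ((n - 3 * (n % 2)) / 2) using 2
    omega : _ ∈ Eset H0 n)
  unfold gap
  omega

theorem six (m : ℕ) : (Eset H0 (6 * m)).ncard ≤ m + 1 ∧ 3 * m ≤ gap H0 (6 * m) := by
  constructor
  · refine (Set.ncard_le_ncard (t := ((Icc m (2 * m)).image (3 * ·) : Finset ℕ)) fun e he => ?_).trans
      ((Set.ncard_coe_finset _).trans_le (card_image_le.trans (by simp; omega)))
    obtain ⟨⟨k, rfl⟩, h⟩ := dvd3 (by omega) he
    exact mem_coe.2 (mem_image.2 ⟨k, mem_Icc.2 (by omega), rfl⟩)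
  · have h1 := le_csSup (bdd (6 * m)) (by
      convert mem_ab (2 * m) 0 using 2
      omega : _ ∈ Eset H0 (6 * m))
    have h2 := Nat.sInf_le (by
      convert mem_ab 0 (3 * m) using 2
      omega : _ ∈ Eset H0 (6 * m))
    unfold gap
    omega

end Pool.Agent.H14.MinorGap
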