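import Mathlib

set_option autoImplicit false

namespace Pool.Agent.H14.Mss

open Matrix

theorem hl_step (A B C D : ℂ) (c : ℝ) (hc : 0 ≤ c)
    (h : ∀ a b : ℂ, 0 < a.im → 0 < b.im → A + B * a + C * b + D * (a * b) ≠ 0)
    (a b : ℂ) (ha : 0 < a.im) (hb : 0 < b.im) : A + B * a + C * b + D * (a * b) - c * D ≠ 0 := by
  by_cases hD : D = 0
  · simpa [hD] using h a b ha hb
  have h1 : 0 ≤ (C / D).im := by
    by_contra hn
    have hn : 0 < (-(C / D)).im := by simpa using not_le.mp hn
    set a0 := -(C / D) with ha0
    set E := A + B * a0 with hE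
    set T : ℝ := ‖E / D‖ / a0.im + ‖B / D‖ + 1 with hT
    have hT1 : 0 ≤ ‖E / D‖ / a0.im := by positivity
    have hT0 : 0 < T := by positivity
    have hTc : (T : ℂ) ≠ 0 := by exact_mod_cast hT0.ne'
    refine h (a0 + (E / D) * Complex.I / T) (T * Complex.I - B / D) ?_ ?_ ?_
    · have h2 := Complex.abs_im_le_norm ((E / D) * Complex.I / T)
      rw [norm_div, norm_mul, Complex.norm_I, mul_one, Complex.norm_real,
        Real.norm_of_nonneg hT0.le] at h2
      have h3 : ‖E / D‖ / T < a0.im := by
        rw [div_lt_iff₀ hT0, hT, mul_add, mul_add, mul_div_cancel₀ _ hn.ne']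
        have : 0 ≤ a0.im * ‖B / D‖ := by positivity
        linarith
      have := neg_abs_le ((E / D) * Complex.I / T).im
      rw [Complex.add_im]
      linarith
    · have h2 := Complex.abs_im_le_norm (B / D)
      have := le_abs_self (B / D).im
      simp only [Complex.sub_im, Complex.mul_im, Complex.ofReal_re, Complex.I_im, mul_one,
        Complex.ofReal_im, Complex.I_re, mul_zero, add_zero]
      linarith
    · have e1 : A = E - B * a0 := by rw [hE]; ring
      have e2 : C = -(D * a0) := by rw [ha0]; field_simp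
      clear_value E a0 T
      subst e1 e2
      field_simp
      ring_nf
      simp
  intro h0
  have hα : 0 < (a + C / D).im := by rw [Complex.add_im]; linarith
  have hα0 : a + C / D ≠ 0 := by intro e; rw [e] at hα; simp at hα
  refine h a (b - c / (a + C / D)) ha ?_ ?_
  · have : (c / (a + C / D) : ℂ).im ≤ 0 := by
      rw [Complex.div_im]
      simp only [Complex.ofReal_im, zero_mul, zero_div, Complex.ofReal_re, zero_sub, neg_nonpos]
      have := Complex.normSq_nonneg (a + C / D)
      positivity
    rw [Complex.sub_im]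
    linarith
  · have e2 : C = D * (a + C / D) - D * a := by field_simp; ring
    set α := a + C / D
    clear_value α
    rw [← h0, e2]
    field_simp
    ring

variable {V : Type} [Fintype V] [DecidableEq V]

def S (e : V × V) : Matrix V V ℝ := single e.1 e.2 1 + single e.2 e.1 1

noncomputable def avg {M : Type} [AddCommGroup M] [Module ℝ M] (F : Matrix V V ℝ → M) :
    List (V × V) → Matrix V V ℝ → M
  | [], N => F N
  | e :: L, N => (1 / 2 : ℝ) • (avg F L (N + S e) + avg F L (N - S e))

theorem avg_map {M M' : Type} [AddCommGroup M] [Module ℝ M] [AddCommGroup M'] [Module ℝ M']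
    (φ : M →ₗ[ℝ] M') (F : Matrix V V ℝ → M) (L : List (V × V)) :
    ∀ N, φ (avg F L N) = avg (fun N => φ (F N)) L N := by
  induction L with
  | nil => intro N; rfl
  | cons e L ih => intro N; simp only [avg, map_smul, map_add, ih]

noncomputable def dd (y : V → ℂ) (N : Matrix V V ℝ) : ℂ :=
  (diagonal y - N.map Complex.ofReal).det

theorem dd_shape (u v : V) (huv : u ≠ v) (y : V → ℂ) (N : Matrix V V ℝ) :
    ∃ A B C E D : ℂ, ∀ (a b : ℂ) (s : ℝ),
      dd (Function.update (Function.update y u a) v b) (N + s • S (u, v)) =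
        A + B * a + C * b + E * s + D * (a * b - s ^ 2) := by
  let M0 : Matrix V V ℂ :=
    diagonal (Function.update (Function.update y u 0) v 0) - N.map Complex.ofReal
  let Δ : (V → ℂ) → (V → ℂ) → ℂ := fun p q => (updateRow (updateRow M0 u p) v q).det
  have l2 : ∀ p q q' (c : ℂ), Δ p (q + c • q') = Δ p q + c * Δ p q' := by
    intro p q q' c
    simp only [Δ, det_updateRow_add, det_updateRow_smul]
  have l1 : ∀ p p' q (c : ℂ), Δ (p + c • p') q = Δ p q + c * Δ p' q := by
    intro p p' q c
    simp only [Δ, updateRow_comm _ huv, det_updateRow_add, det_updateRow_smul]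
  have z : ∀ p, Δ p p = 0 := fun p =>
    det_zero_of_row_eq huv (by rw [updateRow_self, updateRow_ne huv, updateRow_self])
  have sw : Δ (Pi.single v 1) (Pi.single u 1) = -Δ (Pi.single u 1) (Pi.single v 1) := by
    have := z (Pi.single u 1 + (1 : ℂ) • Pi.single v 1)
    rw [l1, l2, l2, z, z] at this
    linear_combination this
  refine ⟨Δ (M0 u) (M0 v), Δ (Pi.single u 1) (M0 v), Δ (M0 u) (Pi.single v 1),
    -Δ (Pi.single v 1) (M0 v) - Δ (M0 u) (Pi.single u 1), Δ (Pi.single u 1) (Pi.single v 1), ?_⟩
  intro a b s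
  have e : dd (Function.update (Function.update y u a) v b) (N + s • S (u, v)) =
      Δ (M0 u + a • Pi.single u 1 + (-s : ℂ) • Pi.single v 1)
        (M0 v + b • Pi.single v 1 + (-s : ℂ) • Pi.single u 1) := by
    unfold dd
    congr 1
    ext i j
    by_cases hi : i = v
    · subst hi
      rw [updateRow_self]
      by_cases h1 : j = i
      · subst h1; simp [M0, S, huv, huv.symm]; ring
      · by_cases h2 : j = u
        · subst h2; simp [M0, S, huv, huv.symm]; ring
        · simp [M0, S, h1, h2, Ne.symm h1, Ne.symm h2, huv]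
    · rw [updateRow_ne hi]
      by_cases hu : i = u
      · subst hu
        rw [updateRow_self]
        by_cases h1 : j = i
        · subst h1; simp [M0, S, huv, huv.symm]; ring
        · by_cases h2 : j = v
          · subst h2; simp [M0, S, huv, huv.symm]; ring
          · simp [M0, S, h1, h2, Ne.symm h1, Ne.symm h2, huv.symm]
      · rw [updateRow_ne hu]
        simp [M0, S, diagonal_apply, hi, hu, Ne.symm hi, Ne.symm hu]
  rw [e]
  simp only [l1, l2, z, sw]
  ring

theorem avg_shape (u v : V) (huv : u ≠ v) (y : V → ℂ) (L : List (V × V)) : ∀ N : Matrix V V ℝ,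
    ∃ A B C E D : ℂ, ∀ (a b : ℂ) (s : ℝ),
      avg (dd (Function.update (Function.update y u a) v b)) L (N + s • S (u, v)) =
        A + B * a + C * b + E * s + D * (a * b - s ^ 2) := by
  induction L with
  | nil => exact dd_shape u v huv y
  | cons e L ih =>
    intro N
    obtain ⟨A, B, C, E, D, h⟩ := ih (N + S e)
    obtain ⟨A', B', C', E', D', h'⟩ := ih (N - S e)
    refine ⟨(A + A') / 2, (B + B') / 2, (C + C') / 2, (E + E') / 2, (D + D') / 2, fun a b s => ?_⟩
    rw [avg, add_right_comm N, h, add_sub_right_comm N, h', Complex.real_smul]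
    push_cast
    ring

theorem S_symm (e : V × V) : (S e)ᵀ = S e := by
  simp [S, transpose_add, add_comm]

theorem dd_ne (y : V → ℂ) (hy : ∀ v, 0 < (y v).im) (N : Matrix V V ℝ) (hN : Nᵀ = N) :
    dd y N ≠ 0 := by
  intro h
  obtain ⟨f, hf, h0⟩ := Matrix.exists_mulVec_eq_zero_iff.mpr h
  have hH : (N.map Complex.ofReal).IsHermitian := by
    ext i j
    have := congrFun (congrFun hN i) j
    simp only [transpose_apply] at this
    simp [this]
  have h1 : (star f ⬝ᵥ ((N.map Complex.ofReal) *ᵥ f)).im = 0 := by
    have := hH.im_star_dotProduct_mulVec_self f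
    simpa using this
  have h2 : (star f ⬝ᵥ (diagonal y *ᵥ f)).im = ∑ v, (y v).im * Complex.normSq (f v) := by
    simp only [dotProduct, mulVec_diagonal, Complex.im_sum, Pi.star_apply]
    refine Finset.sum_congr rfl fun v _ => ?_
    simp [Complex.normSq_apply]
    ring
  rw [sub_mulVec, sub_eq_zero] at h0
  rw [← h0, h2] at h1
  apply hf
  funext v
  have := (Finset.sum_eq_zero_iff_of_nonneg
    (fun v _ => mul_nonneg (hy v).le (Complex.normSq_nonneg _))).mp h1 v (Finset.mem_univ _)
  exact Complex.normSq_eq_zero.mp ((mul_eq_zero.mp this).resolve_left (hy v).ne')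

theorem biased (L : List (V × V))
    (hL : ∀ N : Matrix V V ℝ, Nᵀ = N → ∀ y : V → ℂ, (∀ v, 0 < (y v).im) → avg (dd y) L N ≠ 0)
    (e : V × V) (he : e.1 ≠ e.2) (N : Matrix V V ℝ) (hN : Nᵀ = N) (t : ℝ) (ht : t ^ 2 ≤ 1)
    (y : V → ℂ) (hy : ∀ v, 0 < (y v).im) :
    ((1 + t) / 2 : ℝ) • avg (dd y) L (N + S e) + ((1 - t) / 2 : ℝ) • avg (dd y) L (N - S e) ≠ 0 := by
  obtain ⟨u, v⟩ := e
  obtain ⟨A, B, C, E, D, h⟩ := avg_shape u v he y L N
  have h1 := h (y u) (y v) 1
  have h2 := h (y u) (y v) (-1)
  simp only [Function.update_eq_self, one_smul, neg_smul, ← sub_eq_add_neg] at h1 h2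
  have key := hl_step (A + E * t - D * t ^ 2) B C D (1 - t ^ 2) (by linarith) (by
    intro a b ha hb
    have := hL (N + t • S (u, v)) (by rw [transpose_add, transpose_smul, hN, S_symm])
      (Function.update (Function.update y u a) v b) (by
        intro w
        simp only [Function.update_apply]
        split_ifs
        · exact hb
        · exact ha
        · exact hy w)
    rw [h] at this
    intro h0
    apply this
    linear_combination h0) (y u) (y v) (hy u) (hy v)
  intro h0
  apply key
  rw [h1, h2, Complex.real_smul, Complex.real_smul] at h0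
  push_cast at h0 ⊢
  linear_combination h0

theorem stable (L : List (V × V)) (hL : ∀ e ∈ L, e.1 ≠ e.2) :
    ∀ N : Matrix V V ℝ, Nᵀ = N → ∀ y : V → ℂ, (∀ v, 0 < (y v).im) → avg (dd y) L N ≠ 0 := by
  induction L with
  | nil => exact fun N hN y hy => dd_ne y hy N hN
  | cons e L ih =>
    intro N hN y hy
    have := biased L (ih fun e he => hL e (List.mem_cons_of_mem _ he)) e (hL e List.mem_cons_self)
      N hN 0 (by norm_num) y hy
    rw [avg, smul_add]
    simpa using this

end Pool.Agent.H14.Mss
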