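import Pool.Agent.H14.MssA

set_option autoImplicit false

namespace Pool.Agent.H14.Mss

open Matrix Polynomial

theorem mono_of_stable (p : ℝ[X]) (hm : p.Monic) (hs : ∀ z : ℂ, 0 < z.im → aeval z p ≠ 0) (r : ℝ)
    (hp : ∀ x, r ≤ x → 0 < p.eval x) (x : ℝ) (hx : r ≤ x) : p.eval r ≤ p.eval x := by
  have hq := hm.map (algebraMap ℝ ℂ)
  have key : ∀ y : ℝ, r ≤ y → p.eval y =
      (((p.map (algebraMap ℝ ℂ)).roots.map (fun ρ => ‖(y : ℂ) - ρ‖)).prod) := by
    intro y hy
    have h1 := (IsAlgClosed.splits (p.map (algebraMap ℝ ℂ))).eval_eq_prod_roots_of_monic hq (y : ℂ)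
    have h2 : (p.map (algebraMap ℝ ℂ)).eval (y : ℂ) = ((p.eval y : ℝ) : ℂ) :=
      eval_map_algebraMap p (y : ℂ) ▸ (aeval_algebraMap_apply_eq_algebraMap_eval y p)
    have h3 := congrArg (normHom : ℂ →*₀ ℝ) h1
    rw [map_multiset_prod, Multiset.map_map, h2] at h3
    simp only [normHom_apply, Complex.norm_real, Real.norm_of_nonneg (hp y hy).le] at h3
    exact h3
  rw [key r le_rfl, key x hx]
  refine Multiset.prod_map_le_prod_map₀ _ _ (fun _ _ => norm_nonneg _) fun ρ hρ => ?_
  have h0 : aeval ρ p = 0 := by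
    have := (mem_roots hq.ne_zero).mp hρ
    rwa [IsRoot, eval_map_algebraMap] at this
  have h1 : ρ.im = 0 := by
    rcases lt_trichotomy ρ.im 0 with h | h | h
    · exfalso
      refine hs (starRingEnd ℂ ρ) (by simpa using h) ?_
      rw [aeval_conj, h0, map_zero]
    · exact h
    · exact absurd h0 (hs ρ h)
  have h2 : ρ = (ρ.re : ℂ) := Complex.ext (by simp) (by simp [h1])
  have h3 : ρ.re < r := by
    by_contra hc
    have h4 := hp _ (not_lt.mp hc)
    rw [h2] at h0
    have h5 : aeval ((ρ.re : ℝ) : ℂ) p = ((p.eval ρ.re : ℝ) : ℂ) :=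
      aeval_algebraMap_apply_eq_algebraMap_eval ρ.re p
    rw [h5] at h0
    exact h4.ne' (by exact_mod_cast h0)
  rw [h2, ← Complex.ofReal_sub, ← Complex.ofReal_sub, Complex.norm_real, Complex.norm_real,
    Real.norm_of_nonneg (by linarith), Real.norm_of_nonneg (by linarith)]
  linarith

theorem ev_pos (p : ℝ[X]) (hm : p.Monic) : ∀ᶠ x in Filter.atTop, 0 < p.eval x := by
  by_cases h : 0 < p.degree
  · exact (p.tendsto_atTop_of_leadingCoeff_nonneg h (by simp [hm])).eventually_gt_atTop 0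
  · have : p = 1 := hm.degree_le_zero_iff_eq_one.mp (not_lt.mp h)
    simp [this]

def Mon (n : ℕ) (p : ℝ[X]) : Prop := p.natDegree ≤ n ∧ p.coeff n = 1

theorem Mon.monic {n : ℕ} {p : ℝ[X]} (h : Mon n p) : p.Monic :=
  monic_of_natDegree_le_of_coeff_eq_one n h.1 h.2

theorem Mon.comb {n : ℕ} {p q : ℝ[X]} (h : Mon n p) (h' : Mon n q) (a b : ℝ) (hab : a + b = 1) :
    Mon n (a • p + b • q) :=
  ⟨(natDegree_add_le _ _).trans (max_le ((natDegree_smul_le _ _).trans h.1)
    ((natDegree_smul_le _ _).trans h'.1)), by simp [h.2, h'.2, hab]⟩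

theorem pick_aux (n : ℕ) (p q : ℝ[X]) (hp : Mon n p) (hq : Mon n q)
    (hs : ∀ t : ℝ, t ^ 2 ≤ 1 → ∀ z : ℂ, 0 < z.im →
      aeval z (((1 + t) / 2) • p + ((1 - t) / 2) • q) ≠ 0)
    (h0 : ∀ x, 0 ≤ x → 0 < p.eval x + q.eval x) (r r' : ℝ) (hr : 0 ≤ r) (hrr : r ≤ r')
    (h1 : q.eval r ≤ 0) (h2 : p.eval r' ≤ 0) : False := by
  obtain ⟨R, hR⟩ := Filter.eventually_atTop.mp ((ev_pos p hp.monic).and (ev_pos q hq.monic))
  have hcont : ContinuousOn (fun x => p.eval x / (p.eval x + q.eval x)) (Set.Icc r (max R r')) :=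
    ContinuousOn.div (by fun_prop) (by fun_prop) fun x hx => (h0 x (hr.trans hx.1)).ne'
  obtain ⟨m, hm, hmin⟩ := isCompact_Icc.exists_isMinOn ⟨r', hrr, le_max_right _ _⟩ hcont
  set h := p.eval m / (p.eval m + q.eval m) with hh
  have hm0 := h0 m (hr.trans hm.1)
  have hh0 : h ≤ 0 := (hmin ⟨hrr, le_max_right _ _⟩).trans
    (div_nonpos_of_nonpos_of_nonneg h2 (h0 r' (hr.trans hrr)).le)
  have hpm : p.eval m = h * (p.eval m + q.eval m) := by rw [hh, div_mul_cancel₀ _ hm0.ne']
  have hr0 := h0 r hr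
  set η := (p.eval r + q.eval r) / (2 * (p.eval m + q.eval m) + (p.eval r + q.eval r)) with hη
  have hη0 : 0 < η := by positivity
  have hη1 : η * (2 * (p.eval m + q.eval m) + (p.eval r + q.eval r)) = p.eval r + q.eval r := by
    rw [hη, div_mul_cancel₀ _ (by positivity)]
  have hη2 : η ≤ 1 := by rw [hη, div_le_one (by positivity)]; linarith
  set t := (1 - η) / (1 - 2 * h) with ht
  have ht0 : 0 ≤ t := div_nonneg (by linarith) (by linarith)
  have ht1 : t * (1 - 2 * h) = 1 - η := by rw [ht, div_mul_cancel₀ _ (by linarith)]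
  have ht2 : t ≤ 1 := by nlinarith
  have hmin' : ∀ x, r ≤ x → x ≤ max R r' → h ≤ p.eval x / (p.eval x + q.eval x) :=
    fun x a b => hmin ⟨a, b⟩
  clear_value t η h
  have ev : ∀ x, (((1 + t) / 2) • p + ((1 - t) / 2) • q).eval x =
      (1 + t) / 2 * p.eval x + (1 - t) / 2 * q.eval x := by intro x; simp
  have := mono_of_stable _ (hp.comb hq ((1 + t) / 2) ((1 - t) / 2) (by ring)).monic
    (hs t (by nlinarith)) r (by
      intro x hx
      rw [ev]
      by_cases hxR : x ≤ max R r'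
      · have h3 : h ≤ p.eval x / (p.eval x + q.eval x) := hmin' x hx hxR
        have h4 := h0 x (hr.trans hx)
        rw [le_div_iff₀ h4] at h3
        have h5 := mul_le_mul_of_nonneg_left h3 ht0
        have h6 := mul_pos hη0 h4
        have h7 : η * (p.eval x + q.eval x) = (1 - t * (1 - 2 * h)) * (p.eval x + q.eval x) := by
          rw [ht1]; ring
        nlinarith
      · obtain ⟨h3, h4⟩ := hR x ((le_max_left _ _).trans (not_le.mp hxR).le)
        have : 0 ≤ (1 - t) / 2 * q.eval x := by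
          apply mul_nonneg <;> linarith
        have : 0 < (1 + t) / 2 * p.eval x := by positivity
        linarith) m hm.1
  rw [ev, ev] at this
  have h8 : (1 + t) / 2 * p.eval m + (1 - t) / 2 * q.eval m = η * (p.eval m + q.eval m) / 2 := by
    have : η = 1 - t * (1 - 2 * h) := by linarith
    rw [this]
    linear_combination t * hpm
  have h9 : 0 ≤ t * (p.eval r - q.eval r) := mul_nonneg ht0 (by linarith)
  have h10 := mul_pos hη0 hr0
  have h11 := mul_pos hη0 hm0
  nlinarith

theorem pick (n : ℕ) (p q : ℝ[X]) (hp : Mon n p) (hq : Mon n q)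
    (hs : ∀ t : ℝ, t ^ 2 ≤ 1 → ∀ z : ℂ, 0 < z.im →
      aeval z (((1 + t) / 2) • p + ((1 - t) / 2) • q) ≠ 0)
    (h0 : ∀ x, 0 ≤ x → 0 < p.eval x + q.eval x) :
    (∀ x, 0 ≤ x → 0 < p.eval x) ∨ (∀ x, 0 ≤ x → 0 < q.eval x) := by
  by_contra hc
  push Not at hc
  obtain ⟨⟨a, ha, ha'⟩, ⟨b, hb, hb'⟩⟩ := hc
  rcases le_total a b with h | h
  · refine pick_aux n q p hq hp (fun t ht z hz => ?_) (fun x hx => by rw [add_comm]; exact h0 x hx)
      a b ha h ha' hb'
    have := hs (-t) (by simpa using ht) z hz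
    rwa [add_comm (_ • p), sub_neg_eq_add, ← sub_eq_add_neg] at this
  · exact pick_aux n p q hp hq hs h0 b a hb h hb' ha'

variable {V : Type} [Fintype V] [DecidableEq V]

theorem avg_mon (L : List (V × V)) :
    ∀ N : Matrix V V ℝ, Mon (Fintype.card V) (avg Matrix.charpoly L N) := by
  induction L with
  | nil =>
    intro N
    refine ⟨(charpoly_natDegree_eq_dim N).le, ?_⟩
    have := (charpoly_monic N).coeff_natDegree
    rwa [charpoly_natDegree_eq_dim] at this
  | cons e L ih =>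
    intro N
    rw [avg, smul_add]
    exact (ih _).comb (ih _) _ _ (by norm_num)

theorem aeval_avg (z : ℂ) (L : List (V × V)) (N : Matrix V V ℝ) :
    aeval z (avg Matrix.charpoly L N) = avg (dd fun _ => z) L N := by
  have := avg_map (aeval z : ℝ[X] →ₐ[ℝ] ℂ).toLinearMap Matrix.charpoly L N
  simp only [AlgHom.toLinearMap_apply] at this
  rw [this]
  congr 1
  funext N
  rw [← eval_map_algebraMap, ← charpoly_map, eval_charpoly]
  rfl

/-- signed sum of the edge matrices -/
def signed : List ((V × V) × Bool) → Matrix V V ℝ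
  | [] => 0
  | e :: L => (if e.2 then S e.1 else -S e.1) + signed L

theorem sign_exists (L : List (V × V)) (hL : ∀ e ∈ L, e.1 ≠ e.2) :
    ∀ N : Matrix V V ℝ, Nᵀ = N → (∀ x, 0 ≤ x → 0 < (avg Matrix.charpoly L N).eval x) →
      ∃ L' : List ((V × V) × Bool), L'.map Prod.fst = L ∧
        ∀ x, 0 ≤ x → 0 < (N + signed L').charpoly.eval x := by
  induction L with
  | nil => exact fun N _ h => ⟨[], rfl, by simpa [signed, avg] using h⟩
  | cons e L ih =>
    intro N hN h
    have hL' : ∀ e ∈ L, e.1 ≠ e.2 := fun e he => hL e (List.mem_cons_of_mem _ he)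
    have := pick _ _ _ (avg_mon L (N + S e)) (avg_mon L (N - S e)) (by
      intro t ht z hz
      rw [map_add, map_smul, map_smul, aeval_avg, aeval_avg]
      exact biased L (stable L hL') e (hL e List.mem_cons_self) N hN t ht _ fun _ => hz) (by
      intro x hx
      have := h x hx
      rw [avg, eval_smul, eval_add, smul_eq_mul] at this
      linarith)
    rcases this with h1 | h1
    · obtain ⟨L', e1, e2⟩ := ih hL' (N + S e) (by rw [transpose_add, hN, S_symm]) h1
      exact ⟨(e, true) :: L', by simp [e1], by simpa [signed, add_assoc] using e2⟩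
    · obtain ⟨L', e1, e2⟩ := ih hL' (N - S e) (by rw [transpose_sub, hN, S_symm]) h1
      exact ⟨(e, false) :: L', by simp [e1], by simpa [signed, add_assoc, sub_eq_add_neg] using e2⟩

end Pool.Agent.H14.Mss
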