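import Pool.Agent.H14.MssB

set_option autoImplicit false

namespace Pool.Agent.H14.Mss

open Matrix Polynomial

variable {V : Type} [DecidableEq V]

def mp {R : Type} [CommRing R] (y : V → R) : List (V × V) → Finset V → R
  | [], T => ∏ v ∈ T, y v
  | e :: L, T => mp y L T - if e.1 ∈ T ∧ e.2 ∈ T then mp y L ((T.erase e.1).erase e.2) else 0

def wt : List (V × V) → V → V → ℕ
  | [], _, _ => 0
  | e :: L, v, u => (if e = (v, u) ∨ e = (u, v) then 1 else 0) + wt L v u

theorem mp_congr {R : Type} [CommRing R] (y y' : V → R) (L : List (V × V)) :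
    ∀ T : Finset V, (∀ v ∈ T, y v = y' v) → mp y L T = mp y' L T := by
  induction L with
  | nil => exact fun T h => Finset.prod_congr rfl h
  | cons e L ih =>
    intro T h
    rw [mp, mp, ih T h, ih _ fun v hv => h v (Finset.mem_of_mem_erase (Finset.mem_of_mem_erase hv))]

theorem mp_cast (y : V → ℝ) (L : List (V × V)) :
    ∀ T : Finset V, mp (fun v => (y v : ℂ)) L T = ((mp y L T : ℝ) : ℂ) := by
  induction L with
  | nil => intro T; simp [mp]
  | cons e L ih =>
    intro T
    rw [mp, mp, ih, ih]
    split_ifs <;> simp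

theorem mp_empty {R : Type} [CommRing R] (y : V → R) (L : List (V × V)) : mp y L ∅ = 1 := by
  induction L with
  | nil => simp [mp]
  | cons e L ih => simp [mp, ih]

theorem mp_vertex {R : Type} [CommRing R] (y : V → R) (v : V) (L : List (V × V))
    (hL : ∀ e ∈ L, e.1 ≠ e.2) : ∀ T : Finset V, v ∈ T →
      mp y L T = y v * mp y L (T.erase v) -
        ∑ u ∈ T.erase v, (wt L v u : R) * mp y L ((T.erase v).erase u) := by
  induction L with
  | nil =>
    intro T hv
    simp [mp, wt, Finset.mul_prod_erase T y hv]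
  | cons e L ih =>
    intro T hv
    obtain ⟨a, b⟩ := e
    have hab : a ≠ b := hL (a, b) List.mem_cons_self
    have ih := ih fun e he => hL e (List.mem_cons_of_mem _ he)
    by_cases h1 : v = a
    · subst h1
      simp only [mp, wt, Finset.mem_erase, ne_eq, not_true_eq_false, false_and, and_false, if_false,
        sub_zero, Prod.mk.injEq, true_and, hab.symm, or_false, hv, Nat.cast_add, Nat.cast_ite,
        Nat.cast_one, Nat.cast_zero, add_mul, Finset.sum_add_distrib, ite_mul, one_mul, zero_mul,
        Finset.sum_ite_eq, not_false_eq_true]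
      rw [ih T hv]
      ring
    by_cases h2 : v = b
    · subst h2
      simp only [mp, wt, Finset.mem_erase, ne_eq, not_true_eq_false, false_and, and_false, if_false,
        sub_zero, Prod.mk.injEq, and_true, hab, false_or, hv, Nat.cast_add, Nat.cast_ite,
        Nat.cast_one, Nat.cast_zero, add_mul, Finset.sum_add_distrib, ite_mul, one_mul, zero_mul,
        Finset.sum_ite_eq, not_false_eq_true, true_and]
      rw [ih T hv, Finset.erase_right_comm (a := a)]
      ring
    have h1' : ¬ a = v := Ne.symm h1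
    have h2' : ¬ b = v := Ne.symm h2
    simp only [mp, wt, Finset.mem_erase, ne_eq, Prod.mk.injEq, h1', h2', false_and, and_false,
      or_false, if_false, zero_add, not_false_eq_true, true_and, mul_sub, Finset.sum_sub_distrib]
    rw [ih T hv]
    by_cases h3 : a ∈ T ∧ b ∈ T
    · rw [if_pos h3, if_pos h3, ih ((T.erase a).erase b) (by simp [h1, h2, hv])]
      have e1 : ((T.erase a).erase b).erase v = ((T.erase v).erase a).erase b := by
        ext x; simp only [Finset.mem_erase]; tauto
      have e2 : ∑ u ∈ T.erase v, (wt L v u : R) * (if (¬a = u ∧ a ∈ T) ∧ ¬b = u ∧ b ∈ T then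
          mp y L ((((T.erase v).erase u).erase a).erase b) else 0) =
          ∑ u ∈ ((T.erase v).erase a).erase b,
            (wt L v u : R) * mp y L ((((T.erase v).erase a).erase b).erase u) := by
        simp only [mul_ite, mul_zero]
        rw [← Finset.sum_filter]
        refine Finset.sum_congr ?_ fun u _ => ?_
        · ext x
          simp only [Finset.mem_erase, Finset.mem_filter, h3, and_true, ne_eq, eq_comm (a := x)]
          tauto
        · congr 2
          ext x; simp only [Finset.mem_erase]; tauto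
      rw [e2, e1]
      ring
    · rw [if_neg h3, if_neg h3]
      have : ∀ u, ¬ ((¬a = u ∧ a ∈ T) ∧ ¬b = u ∧ b ∈ T) := fun u h => h3 ⟨h.1.2, h.2.2⟩
      simp [this]

theorem mp_update {R : Type} [CommRing R] (y : V → R) (v : V) (L : List (V × V))
    (hL : ∀ e ∈ L, e.1 ≠ e.2) (T : Finset V) (hv : v ∈ T) :
    mp (Function.update y v 1) L T - mp (Function.update y v 0) L T = mp y L (T.erase v) := by
  have k : ∀ (c : R) (T' : Finset V), v ∉ T' → mp (Function.update y v c) L T' = mp y L T' :=
    fun c T' h => mp_congr _ _ L T' fun w hw => Function.update_of_ne (by rintro rfl; exact h hw) _ _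
  have k2 : ∀ c : R, ∑ u ∈ T.erase v, (wt L v u : R) *
      mp (Function.update y v c) L ((T.erase v).erase u) =
      ∑ u ∈ T.erase v, (wt L v u : R) * mp y L ((T.erase v).erase u) :=
    fun c => Finset.sum_congr rfl fun u _ => by rw [k c _ (by simp)]
  rw [mp_vertex _ v L hL T hv, mp_vertex _ v L hL T hv, k2, k2, k _ _ (by simp), k _ _ (by simp)]
  simp

theorem avg_eq_mp [Fintype V] (L : List (V × V)) (hL : ∀ e ∈ L, e.1 ≠ e.2) :
    ∀ y : V → ℂ, avg (dd y) L 0 = mp y L Finset.univ := by
  induction L with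
  | nil => intro y; simp [avg, dd, mp]
  | cons e L ih =>
    intro y
    obtain ⟨u, v⟩ := e
    have huv : u ≠ v := hL (u, v) List.mem_cons_self
    have hL' : ∀ e ∈ L, e.1 ≠ e.2 := fun e he => hL e (List.mem_cons_of_mem _ he)
    obtain ⟨A, B, C, E, D, h⟩ := avg_shape u v huv y L 0
    have h1 := h (y u) (y v) 1
    have h2 := h (y u) (y v) (-1)
    have h0 := fun a b => h a b 0
    simp only [zero_smul, add_zero, ih hL'] at h0
    have h3 := h0 (y u) (y v)
    simp only [Function.update_eq_self, one_smul, neg_smul, ← sub_eq_add_neg] at h1 h2 h3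
    have k1 := mp_update (Function.update y u 1) v L hL' Finset.univ (Finset.mem_univ _)
    have k0 := mp_update (Function.update y u 0) v L hL' Finset.univ (Finset.mem_univ _)
    have k2 := mp_update y u L hL' (Finset.univ.erase v) (by simp [huv])
    rw [h0, h0] at k1 k0
    rw [avg, h1, h2, mp, if_pos (by simp), h3, Finset.erase_right_comm, ← k2, ← k1, ← k0,
      Complex.real_smul]
    push_cast
    ring

theorem avg_diag [Fintype V] (n : V → ℝ) (y : V → ℂ) (L : List (V × V)) : ∀ N : Matrix V V ℝ,
    avg (dd y) L (N + diagonal n) = avg (dd fun v => y v - n v) L N := by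
  induction L with
  | nil =>
    intro N
    simp only [avg, dd]
    congr 1
    ext i j
    by_cases h : i = j
    · subst h; simp; ring
    · simp [h]
  | cons e L ih => intro N; rw [avg, avg, add_right_comm, ih, add_sub_right_comm, ih]

theorem eval_avg [Fintype V] (n : V → ℝ) (x : ℝ) (L : List (V × V)) (hL : ∀ e ∈ L, e.1 ≠ e.2) :
    (avg Matrix.charpoly L (diagonal n)).eval x = mp (fun v => x - n v) L Finset.univ := by
  have h1 := aeval_avg (x : ℂ) L (diagonal n)
  have h2 : aeval ((x : ℝ) : ℂ) (avg Matrix.charpoly L (diagonal n)) =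
      (((avg Matrix.charpoly L (diagonal n)).eval x : ℝ) : ℂ) :=
    aeval_algebraMap_apply_eq_algebraMap_eval x _
  have h3 := avg_diag n (fun _ => (x : ℂ)) L 0
  rw [zero_add] at h3
  rw [h2, h3, avg_eq_mp L hL] at h1
  have h4 := mp_cast (fun v => x - n v) L Finset.univ
  push_cast at h4
  exact_mod_cast h1.trans h4

/-- Heilmann–Lieb type positivity from messages, for vertex sets inside `U`. -/
theorem mp_pos [Fintype V] (G : SimpleGraph V) [DecidableRel G.Adj] (L : List (V × V))
    (hL : ∀ e ∈ L, e.1 ≠ e.2) (hw : ∀ v u, wt L v u = if G.Adj v u then 1 else 0)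
    (y : V → ℝ) (β : V → V → ℝ) (hβ : ∀ v u, 0 < β v u) (U : Finset V)
    (h1 : ∀ v ∈ U, ∀ u, G.Adj v u →
      β v u ≤ y v - ∑ w ∈ ((G.neighborFinset v).erase u).filter (· ∈ U), 1 / β w v)
    (h2 : ∀ v, 0 < y v - ∑ w ∈ G.neighborFinset v, 1 / β w v) :
    ∀ k, ∀ T : Finset V, T.card = k → ((∀ v ∈ T, T.erase v ⊆ U → 0 < mp y L T) ∧
      (T ⊆ U → 0 < mp y L T ∧
        ∀ v ∈ T, ∀ u, G.Adj v u → u ∉ T → β v u * mp y L (T.erase v) ≤ mp y L T)) := by
  intro k
  induction k with
  | zero =>
    intro T hT
    rw [Finset.card_eq_zero.mp hT]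
    simp [mp_empty]
  | succ k ih =>
    intro T hT
    have key : ∀ v ∈ T, T.erase v ⊆ U → 0 < mp y L (T.erase v) ∧
        (y v - ∑ w ∈ (T.erase v).filter (G.Adj v), 1 / β w v) * mp y L (T.erase v) ≤ mp y L T := by
      intro v hv hU
      obtain ⟨p1, p2⟩ := (ih (T.erase v) (by rw [Finset.card_erase_of_mem hv]; omega)).2 hU
      refine ⟨p1, ?_⟩
      rw [mp_vertex y v L hL T hv, sub_mul, Finset.sum_mul, Finset.sum_filter]
      refine sub_le_sub_left (Finset.sum_le_sum fun u hu => ?_) _
      rw [hw]
      split_ifs with a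
      · have := p2 u hu v a.symm (by simp)
        rw [one_div, inv_mul_eq_div, le_div_iff₀ (hβ u v)]
        simp only [Nat.cast_one, one_mul]
        linarith
      · simp
    have pos : ∀ v ∈ T, T.erase v ⊆ U → 0 < mp y L T := by
      intro v hv hU
      obtain ⟨p1, p2⟩ := key v hv hU
      refine lt_of_lt_of_le (mul_pos (lt_of_lt_of_le (h2 v) (sub_le_sub_left ?_ _)) p1) p2
      refine Finset.sum_le_sum_of_subset_of_nonneg ?_ fun w _ _ => (one_div_pos.mpr (hβ w v)).le
      intro w hw
      simp only [Finset.mem_filter] at hw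
      simpa using hw.2
    refine ⟨pos, fun hU => ⟨?_, fun v hv u a hu => ?_⟩⟩
    · obtain ⟨v, hv⟩ := Finset.card_pos.mp (by omega : 0 < T.card)
      exact pos v hv ((Finset.erase_subset _ _).trans hU)
    · obtain ⟨p1, p2⟩ := key v hv ((Finset.erase_subset _ _).trans hU)
      refine le_trans (mul_le_mul_of_nonneg_right ((h1 v (hU hv) u a).trans
        (sub_le_sub_left ?_ _)) p1.le) p2
      refine Finset.sum_le_sum_of_subset_of_nonneg ?_ fun w _ _ => (one_div_pos.mpr (hβ w v)).le
      intro w hw
      simp only [Finset.mem_filter, Finset.mem_erase] at hw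
      simp only [Finset.mem_filter, Finset.mem_erase, SimpleGraph.mem_neighborFinset]
      exact ⟨⟨fun e => hu (e ▸ hw.1.2), hw.2⟩, hU hw.1.2⟩

end Pool.Agent.H14.Mss
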