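import Pool.Agent.H14.MssC
import Pool.Agent.H14.Mag

set_option autoImplicit false

namespace Pool.Agent.H14.Mss

open Matrix Polynomial Pool.Agent.H14.Mag

variable {V : Type} [Fintype V] [DecidableEq V]

omit [Fintype V] in
theorem wt_count (L : List (V × V)) (hL : ∀ e ∈ L, e.1 ≠ e.2) (v u : V) :
    wt L v u = L.count (v, u) + L.count (u, v) := by
  induction L with
  | nil => simp [wt]
  | cons e L ih =>
    have h := hL e List.mem_cons_self
    rw [wt, ih fun e he => hL e (List.mem_cons_of_mem _ he), List.count_cons, List.count_cons]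
    by_cases h1 : e = (v, u)
    · subst h1
      have : ¬ (v = u) := h
      simp [this]
      omega
    · by_cases h2 : e = (u, v)
      · simp [h1, h2]
        subst h2
        have : ¬ (u = v) := h
        simp [this]
        omega
      · simp [h1, h2]

theorem exists_list (G : SimpleGraph V) [DecidableRel G.Adj] :
    ∃ L : List (V × V), (∀ e ∈ L, e.1 ≠ e.2) ∧ ∀ v u, wt L v u = if G.Adj v u then 1 else 0 := by
  let o := Fintype.equivFin V
  let F := Finset.univ.filter (fun e : V × V => G.Adj e.1 e.2 ∧ o e.1 < o e.2)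
  have h1 : ∀ e ∈ F.toList, e.1 ≠ e.2 := by
    intro e he
    simp only [F, Finset.mem_toList, Finset.mem_filter] at he
    exact he.2.1.ne
  refine ⟨F.toList, h1, fun v u => ?_⟩
  rw [wt_count _ h1, F.nodup_toList.count, F.nodup_toList.count]
  simp only [F, Finset.mem_toList, Finset.mem_filter, Finset.mem_univ, true_and]
  by_cases a : G.Adj v u
  · have : o v ≠ o u := fun h => a.ne (o.injective h)
    rcases lt_or_gt_of_ne this with h | h
    · simp [a, h, not_lt.mpr h.le]
    · simp [a, a.symm, h, not_lt.mpr h.le]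
  · have : ¬ G.Adj u v := fun h => a h.symm
    simp [a, this]

omit [Fintype V] in
theorem signed_entry (L : List ((V × V) × Bool)) (hL : ∀ e ∈ L.map Prod.fst, e.1 ≠ e.2) (v u : V) :
    signed L u v = signed L v u ∧ (wt (L.map Prod.fst) v u = 0 → signed L v u = 0) ∧
      (wt (L.map Prod.fst) v u = 1 → signed L v u = 1 ∨ signed L v u = -1) := by
  induction L with
  | nil => simp [signed, wt]
  | cons e L ih =>
    obtain ⟨⟨a, b⟩, s⟩ := e
    have hab : a ≠ b := hL (a, b) (by simp)
    obtain ⟨i1, i2, i3⟩ := ih fun e he => hL e (by simp only [List.map_cons]; exact List.mem_cons_of_mem _ he)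
    have hS : ∀ v u, S (a, b) v u = if (a, b) = (v, u) ∨ (a, b) = (u, v) then 1 else 0 := by
      intro v u
      simp only [S, Matrix.add_apply, single_apply, Prod.mk.injEq]
      by_cases h1 : a = v ∧ b = u
      · have : ¬ (b = v ∧ a = u) := fun h => hab (h1.1.trans h.1.symm)
        rw [if_pos h1, if_neg this, if_pos (Or.inl h1)]; simp
      · by_cases h2 : b = v ∧ a = u
        · rw [if_neg h1, if_pos h2, if_pos (Or.inr ⟨h2.2, h2.1⟩)]; simp
        · rw [if_neg h1, if_neg h2, if_neg (by tauto)]; simp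
    have hE : ∀ v u, (if s = true then S (a, b) else -S (a, b)) v u =
        if (a, b) = (v, u) ∨ (a, b) = (u, v) then (if s = true then 1 else -1) else 0 := by
      intro v u
      cases s
      · simp only [Bool.false_eq_true, if_false, Matrix.neg_apply, hS]; split_ifs <;> simp
      · simp only [if_true, hS]
    simp only [signed, Matrix.add_apply, List.map_cons, wt, hE]
    refine ⟨by rw [i1]; simp only [or_comm], ?_, ?_⟩
    · intro h
      split_ifs at h ⊢ with h1
      · omega
      · omega
      · rw [i2 (by omega)]; simp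
    · intro h
      split_ifs at h ⊢ with h1
      · rw [i2 (by omega)]; simp
      · rw [i2 (by omega)]; simp
      · simpa using i3 (by omega)

theorem le_nu_of_mp [Nonempty V] (G : SimpleGraph V) [DecidableRel G.Adj] (c : ℝ)
    (h : ∀ L : List (V × V), (∀ e ∈ L, e.1 ≠ e.2) →
      (∀ v u, wt L v u = if G.Adj v u then 1 else 0) →
      ∀ x : ℝ, 0 ≤ x → 0 < mp (fun v => x - (c - G.degree v)) L Finset.univ) : c ≤ nu G := by
  obtain ⟨L, hL, hw⟩ := exists_list G
  obtain ⟨L', rfl, h2⟩ := sign_exists L hL (diagonal fun v => c - G.degree v) (diagonal_transpose _)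
    (fun x hx => by rw [eval_avg _ _ _ hL]; exact h L hL hw x hx)
  have hp : IsPot G (fun x y => (signed L' x y : ℂ)) := by
    intro x y a
    obtain ⟨i1, -, i3⟩ := signed_entry L' hL x y
    refine ⟨?_, by simp [i1]⟩
    rcases i3 (by rw [hw, if_pos a]) with h | h <;> simp [h]
  refine le_trans (le_lam1' _ (herm G _ hp) c fun t f hf ht => ?_) (le_nu G _ hp)
  by_contra hc
  have h3 := h2 (c - t) (by linarith)
  rw [eval_charpoly] at h3
  have h4 : Complex.ofRealHom.mapMatrix (Matrix.scalar V (c - t) -
      (diagonal (fun v => c - (G.degree v : ℝ)) + signed L')) =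
      magLap G (fun x y => (signed L' x y : ℂ)) - (t : ℂ) • (1 : Matrix V V ℂ) := by
    ext x y
    obtain ⟨-, i2, -⟩ := signed_entry L' hL x y
    rw [hw] at i2
    by_cases e : x = y
    · subst e
      simp [magLap, i2 (by simp)]
    · by_cases a : G.Adj x y
      · simp [magLap, e, a]
      · simp [magLap, e, a, i2 (by simp [a])]
  have h5 := Matrix.exists_mulVec_eq_zero_iff.mp ⟨f, hf, (by
    rw [sub_mulVec, ht, smul_mulVec, one_mulVec, sub_self] :
      (magLap G (fun x y => (signed L' x y : ℂ)) - (t : ℂ) • (1 : Matrix V V ℂ)) *ᵥ f = 0)⟩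
  rw [← h4, ← RingHom.map_det] at h5
  exact h3.ne' (by simpa using h5)

theorem le_nu_of_msg [Nonempty V] (G : SimpleGraph V) [DecidableRel G.Adj] (c : ℝ)
    (β : V → V → ℝ) (hβ : ∀ v u, 0 < β v u) (b : V)
    (h1 : ∀ v, v ≠ b → ∀ u, G.Adj v u →
      β v u ≤ G.degree v - c - ∑ w ∈ ((G.neighborFinset v).erase u).filter (· ≠ b), 1 / β w v)
    (h2 : ∀ v, 0 < G.degree v - c - ∑ w ∈ G.neighborFinset v, 1 / β w v) : c ≤ nu G := by
  refine le_nu_of_mp G c fun L hL hw x hx => ?_
  refine (mp_pos G L hL hw _ β hβ (Finset.univ.erase b) ?_ ?_ _ Finset.univ rfl).1 b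
    (Finset.mem_univ _) subset_rfl
  · intro v hv u a
    have := h1 v (by simpa using hv) u a
    simp only [Finset.mem_erase, Finset.mem_univ, and_true]
    linarith
  · intro v
    have := h2 v
    linarith

theorem ramanujan [Nonempty V] (G : SimpleGraph V) [DecidableRel G.Adj] (d : ℕ) (hd : 3 ≤ d)
    (h : ∀ v, d ≤ G.degree v) : (d : ℝ) - 2 * Real.sqrt (d - 1) ≤ nu G := by
  obtain ⟨b⟩ := id ‹Nonempty V›
  have hd' : (3 : ℝ) ≤ d := by exact_mod_cast hd
  set s := Real.sqrt ((d : ℝ) - 1) with hs
  have hs2 : s * s = d - 1 := Real.mul_self_sqrt (by linarith)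
  have hs1 : 1 < s := by
    rw [hs, Real.lt_sqrt (by norm_num)]; linarith
  have hi : s * (1 / s) = 1 := by field_simp
  have hi0 : 0 < 1 / s := by positivity
  have hi1 : 1 / s < 1 := by rw [div_lt_one (by linarith)]; exact hs1
  refine le_nu_of_msg G _ (fun _ _ => s) (fun _ _ => by linarith) b ?_ ?_
  · intro v _ u a
    have h3 : ∑ w ∈ ((G.neighborFinset v).erase u).filter (· ≠ b), 1 / s ≤
        ∑ w ∈ (G.neighborFinset v).erase u, 1 / s :=
      Finset.sum_le_sum_of_subset_of_nonneg (Finset.filter_subset _ _) fun _ _ _ => hi0.le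
    rw [Finset.sum_const (s := (G.neighborFinset v).erase u),
      Finset.card_erase_of_mem (by simpa using a),
      SimpleGraph.card_neighborFinset_eq_degree, nsmul_eq_mul,
      Nat.cast_sub (by have := h v; omega)] at h3
    have h4 : (d : ℝ) ≤ G.degree v := by exact_mod_cast h v
    have h5 : (d - 1) * (1 / s) = s := by rw [← hs2, mul_assoc, hi, mul_one]
    push_cast at h3
    nlinarith
  · intro v
    rw [Finset.sum_const, SimpleGraph.card_neighborFinset_eq_degree, nsmul_eq_mul]
    have h4 : (d : ℝ) ≤ G.degree v := by exact_mod_cast h v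
    have h5 : (d - 1) * (1 / s) = s := by rw [← hs2, mul_assoc, hi, mul_one]
    nlinarith

end Pool.Agent.H14.Mss
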