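import Pool.Agent.H14.MssD
import Pool.Agent.H14.Spec

set_option autoImplicit false

namespace Pool.Agent.H14.Mss

open Matrix Pool.Agent.H14.Mag

variable {V : Type} [Fintype V] [DecidableEq V]

theorem lam2_lt (G : SimpleGraph V) [DecidableRel G.Adj] (hL : (G.lapMatrix ℝ).IsHermitian)
    (f : V → ℝ) (t : ℝ)
    (h : ∀ α β : ℝ, (α ≠ 0 ∨ β ≠ 0) →
      β ^ 2 * (f ⬝ᵥ (G.lapMatrix ℝ *ᵥ f)) < t * ∑ v, (α + β * f v) ^ 2)
    (i : Fin (Fintype.card V)) (hi : i.val + 2 = Fintype.card V) : hL.eigenvalues₀ i < t := by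
  refine Spec.sorted_lt hL t 2 ?_ i hi.ge
  have := Spec.card_lt hL (k := Fin 2) (Matrix.of fun v j => if j = 0 then 1 else f v) t (by
    intro y hy
    have e : (Matrix.of fun v (j : Fin 2) => if j = 0 then (1 : ℝ) else f v) *ᵥ y =
        y 0 • (fun _ => 1) + y 1 • f := by
      ext v; simp [mulVec, dotProduct, Fin.sum_univ_two, mul_comm]
    have h1 : G.lapMatrix ℝ *ᵥ (fun _ => 1) = 0 := G.lapMatrix_mulVec_const_eq_zero
    have h2 : (fun _ => (1 : ℝ)) ⬝ᵥ (G.lapMatrix ℝ *ᵥ f) = 0 := by
      rw [dotProduct_mulVec, ← mulVec_transpose, (G.isSymm_lapMatrix ℝ).eq, h1, zero_dotProduct]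
    have := h (y 0) (y 1) (by
      by_contra hc
      push Not at hc
      apply hy
      ext j
      fin_cases j
      · exact hc.1
      · exact hc.2)
    rw [e, mulVec_add, mulVec_smul, mulVec_smul, h1, smul_zero, zero_add, dotProduct_smul,
      add_dotProduct, smul_dotProduct, smul_dotProduct, h2]
    simp only [dotProduct, Pi.add_apply, Pi.smul_apply, smul_eq_mul, mul_one, mul_zero, zero_add,
      ← sq] at this ⊢
    linarith)
  simpa using this

theorem lam2_deg (G : SimpleGraph V) [DecidableRel G.Adj] (hL : (G.lapMatrix ℝ).IsHermitian)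
    (x : V) (i : Fin (Fintype.card V)) (hi : i.val + 2 = Fintype.card V) :
    hL.eigenvalues₀ i < 2 * G.degree x + 1 := by
  refine lam2_lt G hL (Pi.single x 1) _ (fun α β h => ?_) i hi
  obtain ⟨y, hy⟩ := Fintype.exists_ne_of_one_lt_card (by omega) x
  have h1 : ∑ v ∈ {x, y}, (α + β * (Pi.single x (1 : ℝ) : V → ℝ) v) ^ 2 ≤
      ∑ v, (α + β * (Pi.single x (1 : ℝ) : V → ℝ) v) ^ 2 :=
    Finset.sum_le_sum_of_subset_of_nonneg (Finset.subset_univ _) fun _ _ _ => sq_nonneg _
  rw [Finset.sum_pair hy.symm] at h1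
  simp only [Pi.single_eq_same, mul_one, Pi.single_eq_of_ne hy, mul_zero, add_zero] at h1
  have h2 : (Pi.single x (1 : ℝ) : V → ℝ) ⬝ᵥ (G.lapMatrix ℝ *ᵥ Pi.single x 1) = G.degree x := by
    simp [SimpleGraph.lapMatrix, SimpleGraph.degMatrix]
  rw [h2]
  have h3 : 0 < (α + β) ^ 2 + α ^ 2 := by
    rcases h with h | h
    · positivity
    · by_cases e : α = 0
      · rw [e]; simp; positivity
      · positivity
  have h4 : (0 : ℝ) ≤ G.degree x := by positivity
  have h5 : β ^ 2 ≤ 2 * ((α + β) ^ 2 + α ^ 2) := by nlinarith [sq_nonneg (2 * α + β)]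
  nlinarith [mul_le_mul_of_nonneg_left h5 h4, mul_le_mul_of_nonneg_left h1 h4]

theorem lam2_path (G : SimpleGraph V) [DecidableRel G.Adj] (hL : (G.lapMatrix ℝ).IsHermitian)
    (R : ℕ) (hR : 3 ≤ R) (p : ℕ → V) (hinj : ∀ i ≤ R, ∀ j ≤ R, p i = p j → i = j)
    (hn : ∀ i, i + 2 ≤ R → G.neighborFinset (p (i + 1)) = {p i, p (i + 2)})
    (i : Fin (Fintype.card V)) (hi : i.val + 2 = Fintype.card V) :
    hL.eigenvalues₀ i < 41 / (R : ℝ) ^ 2 := by
  have hR' : (3 : ℝ) ≤ R := by exact_mod_cast hR
  set θ : ℝ := 2 * Real.pi / R with hθ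
  have hθR : θ * R = 2 * Real.pi := by rw [hθ]; field_simp
  let a : ℕ → ℝ := fun k => Real.sin (θ * k)
  let f : V → ℝ := fun v => ∑ k ∈ Finset.range (R + 1), if v = p k then a k else 0
  have fp : ∀ k ≤ R, f (p k) = a k := by
    intro k hk
    simp only [f]
    rw [Finset.sum_eq_single k]
    · simp
    · intro j hj hne
      rw [if_neg fun e => hne (hinj k hk j (by simpa [Nat.lt_succ_iff] using hj) e).symm]
    · intro h; exact absurd (Finset.mem_range.mpr (by omega)) h
  have fs : ∀ g : V → ℝ, ∑ v, f v * g v = ∑ k ∈ Finset.range (R + 1), a k * g (p k) := by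
    intro g
    simp only [f, Finset.sum_mul]
    rw [Finset.sum_comm]
    simp
  have s0 : ∑ v, f v = 0 := by
    have h1 := fs (fun _ => 1)
    simp only [mul_one] at h1
    have h2 := Finset.sum_range_reflect a (R + 1)
    have h3 : ∑ j ∈ Finset.range (R + 1), a (R + 1 - 1 - j) =
        ∑ j ∈ Finset.range (R + 1), -a j := by
      refine Finset.sum_congr rfl fun j hj => ?_
      have : j ≤ R := by simpa [Nat.lt_succ_iff] using hj
      simp only [a, Nat.add_sub_cancel, Nat.cast_sub this, mul_sub, hθR, Real.sin_two_pi_sub]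
    rw [h3, Finset.sum_neg_distrib] at h2
    linarith
  have s1 : ∑ v, f v * f v = ∑ k ∈ Finset.range (R + 1), a k * a k := by
    rw [fs]
    exact Finset.sum_congr rfl fun j hj => by rw [fp j (by simpa [Nat.lt_succ_iff] using hj)]
  have s2 : f ⬝ᵥ (G.lapMatrix ℝ *ᵥ f) = (2 - 2 * Real.cos θ) * ∑ v, f v * f v := by
    rw [s1, dotProduct, fs, Finset.mul_sum]
    refine Finset.sum_congr rfl fun j hj => ?_
    have hj : j ≤ R := by simpa [Nat.lt_succ_iff] using hj
    rcases Nat.eq_zero_or_pos j with rfl | h0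
    · simp [a]
    rcases hj.eq_or_lt with rfl | h1
    · simp [a, hθR]
    obtain ⟨k, rfl⟩ : ∃ k, j = k + 1 := ⟨j - 1, by omega⟩
    have hne : p k ≠ p (k + 2) := fun e => by have := hinj k (by omega) (k + 2) (by omega) e; omega
    rw [SimpleGraph.lapMatrix_mulVec_apply, ← SimpleGraph.card_neighborFinset_eq_degree,
      hn k (by omega), Finset.sum_pair hne, Finset.card_pair hne, fp _ (by omega), fp _ (by omega),
      fp _ (by omega)]
    have e1 : a k = Real.sin (θ * (k + 1 : ℕ) - θ) := by simp only [a]; push_cast; ring_nf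
    have e2 : a (k + 2) = Real.sin (θ * (k + 1 : ℕ) + θ) := by simp only [a]; push_cast; ring_nf
    rw [e1, e2, Real.sin_sub, Real.sin_add]
    simp only [a]
    push_cast
    ring
  have s3 : 0 < ∑ v, f v * f v := by
    rw [s1]
    refine Finset.sum_pos' (fun _ _ => mul_self_nonneg _) ⟨1, by simp; omega, ?_⟩
    have : 0 < a 1 := by
      simp only [a, Nat.cast_one, mul_one]
      refine Real.sin_pos_of_pos_of_lt_pi (by have := Real.pi_pos; positivity) ?_
      rw [hθ, div_lt_iff₀ (by linarith)]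
      nlinarith [Real.pi_pos]
    positivity
  have hμ : 2 - 2 * Real.cos θ < 41 / (R : ℝ) ^ 2 := by
    have h1 := Real.one_sub_sq_div_two_le_cos (x := θ)
    have h2 : θ ^ 2 < 41 / (R : ℝ) ^ 2 := by
      rw [hθ, div_pow, div_lt_div_iff_of_pos_right (by positivity)]
      nlinarith [Real.pi_lt_d2, Real.pi_pos]
    linarith
  refine lam2_lt G hL f _ (fun α β h => ?_) i hi
  have e : ∑ v, (α + β * f v) ^ 2 = Fintype.card V * α ^ 2 + β ^ 2 * ∑ v, f v * f v := by
    have : ∀ v, (α + β * f v) ^ 2 = α ^ 2 + 2 * α * β * f v + β ^ 2 * (f v * f v) := by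
      intro v; ring
    simp only [this, Finset.sum_add_distrib, ← Finset.mul_sum, s0]
    simp
  rw [e, s2]
  have hn0 : (0 : ℝ) < Fintype.card V := by exact_mod_cast (by omega : 0 < Fintype.card V)
  have ht : (0 : ℝ) < 41 / (R : ℝ) ^ 2 := by positivity
  generalize 41 / (R : ℝ) ^ 2 = t at *
  generalize ∑ v, f v * f v = m at *
  rcases h with h | h
  · have h1 : 0 < t * (Fintype.card V * α ^ 2) := by positivity
    have h2 : 0 ≤ β ^ 2 * m * (t - (2 - 2 * Real.cos θ)) :=
      mul_nonneg (by positivity) (by linarith)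
    nlinarith
  · have h1 : 0 ≤ t * (Fintype.card V * α ^ 2) := by positivity
    have h2 : 0 < β ^ 2 * m * (t - (2 - 2 * Real.cos θ)) :=
      mul_pos (by positivity) (by linarith)
    nlinarith

theorem exists_layers (G : SimpleGraph V) (hc : G.Connected) (B : V → Prop) (b : V) (hb : B b) :
    ∃ D : V → ℕ, (∀ v, D v = 0 ↔ B v) ∧ (∀ v u, G.Adj v u → D v ≤ D u + 1) ∧
      ∀ v, D v ≠ 0 → ∃ u, G.Adj v u ∧ D u + 1 = D v := by
  let A : V → Set ℕ := fun v => {k | ∃ z, B z ∧ ∃ w : G.Walk v z, w.length = k}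
  have hne : ∀ v, (A v).Nonempty := fun v => by
    obtain ⟨w⟩ := hc v b
    exact ⟨_, b, hb, w, rfl⟩
  have h2 : ∀ v u, G.Adj v u → sInf (A v) ≤ sInf (A u) + 1 := by
    intro v u a
    obtain ⟨z, hz, w, hw⟩ := Nat.sInf_mem (hne u)
    exact Nat.sInf_le ⟨z, hz, SimpleGraph.Walk.cons a w, by simp [hw]⟩
  refine ⟨fun v => sInf (A v), fun v => ⟨fun h => ?_, fun h => ?_⟩, h2, fun v h => ?_⟩
  · obtain ⟨z, hz, w, hw⟩ := Nat.sInf_mem (hne v)
    have : w.length = 0 := hw.trans h
    rwa [SimpleGraph.Walk.eq_of_length_eq_zero this]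
  · exact Nat.le_zero.mp (Nat.sInf_le ⟨v, h, SimpleGraph.Walk.nil, rfl⟩)
  · obtain ⟨z, hz, w, hw⟩ := Nat.sInf_mem (hne v)
    cases w with
    | nil => exact absurd hw.symm h
    | cons a w =>
      rename_i u
      refine ⟨u, a, ?_⟩
      have h3 := h2 v u a
      have h4 : sInf (A u) ≤ w.length := Nat.sInf_le ⟨z, hz, w, rfl⟩
      simp only [SimpleGraph.Walk.length_cons] at hw
      show sInf (A u) + 1 = sInf (A v)
      omega

theorem inv_le (η ε : ℝ) (h0 : 0 ≤ ε) (h : ε ≤ η) : 1 / (1 + η) ≤ 1 - ε + ε ^ 2 := by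
  rw [div_le_iff₀ (by linarith)]
  have : 0 ≤ 1 - ε + ε ^ 2 := by nlinarith [sq_nonneg (ε - 1 / 2)]
  nlinarith [mul_le_mul_of_nonneg_left h this, pow_nonneg h0 3]

theorem nu_layers [Nonempty V] (G : SimpleGraph V) [DecidableRel G.Adj] (hd : ∀ v, 2 ≤ G.degree v)
    (b : V) (D : V → ℕ) (h0 : ∀ v, D v = 0 ↔ (3 ≤ G.degree v ∨ v = b))
    (h1 : ∀ v u, G.Adj v u → D v ≤ D u + 1) (h2 : ∀ v, D v ≠ 0 → ∃ u, G.Adj v u ∧ D u + 1 = D v)
    (R : ℕ) (hR : ∀ v, D v ≤ R) : 1 / (40 * (2 * R + 1 : ℝ) ^ 2) ≤ nu G := by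
  set K : ℝ := 2 * R + 1 with hK
  have hK1 : 1 ≤ K := by have : (0 : ℝ) ≤ R := by positivity
                         linarith
  set κ : ℝ := 1 / K with hκ
  have hκ0 : 0 < κ := by positivity
  have hκ1 : κ ≤ 1 := by rw [hκ, div_le_one (by linarith)]; exact hK1
  have hκK : κ * K = 1 := by rw [hκ]; field_simp
  have hc : 1 / (40 * K ^ 2) = κ ^ 2 / 40 := by rw [hκ]; field_simp
  let rem : V → V → ℕ := fun v u => if D v ≤ D u then D v else 2 * R + 1 - D v
  have rK : ∀ v u, (rem v u : ℝ) ≤ K := by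
    intro v u
    have : rem v u ≤ 2 * R + 1 := by
      have := hR v
      simp only [rem]; split_ifs <;> omega
    rw [hK]; exact_mod_cast this
  let η : V → V → ℝ := fun v u => 3 / 20 * κ - κ ^ 2 / 20 * rem v u
  have η1 : ∀ v u, κ / 10 ≤ η v u := by
    intro v u
    have := mul_le_mul_of_nonneg_left (rK v u) (sq_nonneg κ)
    have h3 : κ ^ 2 * K = κ := by rw [sq, mul_assoc, hκK, mul_one]
    simp only [η]
    linarith
  have η2 : ∀ v u, η v u ≤ 3 / 20 * κ := by
    intro v u
    have : 0 ≤ κ ^ 2 / 20 * rem v u := by positivity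
    simp only [η]
    linarith
  have bnd : ∀ (v : V) (T : Finset V), ∑ w ∈ T, 1 / (1 + η w v) ≤
      T.card * (1 - κ / 10 + (κ / 10) ^ 2) := by
    intro v T
    rw [← nsmul_eq_mul]
    exact Finset.sum_le_card_nsmul _ _ _ fun w _ => inv_le _ _ (by positivity) (η1 w v)
  have sub : ∀ v u, ∑ w ∈ ((G.neighborFinset v).erase u).filter (· ≠ b), 1 / (1 + η w v) ≤
      ∑ w ∈ (G.neighborFinset v).erase u, 1 / (1 + η w v) := fun v u =>
    Finset.sum_le_sum_of_subset_of_nonneg (Finset.filter_subset _ _) fun w _ _ => by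
      have := η1 w v
      have : 0 < 1 + η w v := by linarith
      positivity
  rw [hc]
  refine le_nu_of_msg G _ (fun v u => 1 + η v u) (fun v u => by have := η1 v u; linarith) b ?_ ?_
  · intro v hv u a
    refine le_trans ?_ (sub_le_sub_left (sub v u) _)
    have hcard : ((G.neighborFinset v).erase u).card = G.degree v - 1 := by
      rw [Finset.card_erase_of_mem (by simpa using a), SimpleGraph.card_neighborFinset_eq_degree]
    by_cases h3 : 3 ≤ G.degree v
    · have h4 := bnd v ((G.neighborFinset v).erase u)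
      rw [hcard, Nat.cast_sub (by omega)] at h4
      have h5 : (3 : ℝ) ≤ G.degree v := by exact_mod_cast h3
      have h6 := η2 v u
      have h7 : 0 ≤ ((G.degree v : ℝ) - 3) * (κ / 10 - (κ / 10) ^ 2) :=
        mul_nonneg (by linarith) (by nlinarith)
      push_cast at h4
      nlinarith
    · have h4 : G.degree v = 2 := by have := hd v; omega
      obtain ⟨w, hw⟩ := Finset.card_eq_one.mp (hcard.trans (by rw [h4]))
      have hDv : D v ≠ 0 := fun e => by
        rcases (h0 v).mp e with h | h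
        · exact h3 h
        · exact hv h
      have hwm : w ∈ (G.neighborFinset v).erase u := by rw [hw]; simp
      have aw : G.Adj v w := by simpa using Finset.mem_of_mem_erase hwm
      have hr : rem w v + 1 ≤ rem v u := by
        obtain ⟨z, az, hz⟩ := h2 v hDv
        have hz' : z = u ∨ z = w := by
          by_cases e : z = u
          · exact Or.inl e
          · have : z ∈ (G.neighborFinset v).erase u := by simp [e, az]
            rw [hw] at this
            exact Or.inr (by simpa using this)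
        have k1 := h1 w v aw.symm
        have k2 := hR v
        have k3 := hR w
        simp only [rem]
        rcases hz' with rfl | rfl <;> split_ifs <;> omega
      have hr' : (rem w v : ℝ) + 1 ≤ rem v u := by exact_mod_cast hr
      rw [hw, Finset.sum_singleton, h4]
      have k1 := inv_le (η w v) (η w v) (by have := η1 w v; linarith) le_rfl
      have k2 : η v u + κ ^ 2 / 20 ≤ η w v := by
        have := mul_le_mul_of_nonneg_left hr' (sq_nonneg κ)
        simp only [η]
        linarith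
      have k3 : η w v ^ 2 ≤ (3 / 20 * κ) ^ 2 :=
        pow_le_pow_left₀ (by have := η1 w v; linarith) (η2 w v) 2
      push_cast
      nlinarith
  · intro v
    have h4 := bnd v (G.neighborFinset v)
    rw [SimpleGraph.card_neighborFinset_eq_degree] at h4
    have h5 : (2 : ℝ) ≤ G.degree v := by exact_mod_cast hd v
    have h7 : 0 ≤ ((G.degree v : ℝ) - 2) * (κ / 10 - (κ / 10) ^ 2) :=
      mul_nonneg (by linarith) (by nlinarith)
    nlinarith

theorem gap_le (G : SimpleGraph V) [DecidableRel G.Adj] (hc : G.Connected)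
    (hd : ∀ v, 2 ≤ G.degree v) (hL : (G.lapMatrix ℝ).IsHermitian)
    (i : Fin (Fintype.card V)) (hi : i.val + 2 = Fintype.card V) :
    hL.eigenvalues₀ i ≤ 10000 * nu G := by
  have hne : Nonempty V := hc.nonempty
  obtain ⟨b, -, hb⟩ := Finset.exists_min_image Finset.univ (fun v => G.degree v) Finset.univ_nonempty
  have l1 := lam2_deg G hL b i hi
  by_cases h3 : 3 ≤ G.degree b
  · have h4 := ramanujan G _ h3 fun v => hb v (Finset.mem_univ _)
    have h5 : (3 : ℝ) ≤ G.degree b := by exact_mod_cast h3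
    have h6 : Real.sqrt ((G.degree b : ℝ) - 1) ≤ 19 / 40 * G.degree b := by
      rw [Real.sqrt_le_left (by linarith)]
      nlinarith
    linarith
  have h4 : G.degree b = 2 := by have := hd b; omega
  obtain ⟨D, d0, d1, d2⟩ := exists_layers G hc (fun v => 3 ≤ G.degree v ∨ v = b) b (Or.inr rfl)
  obtain ⟨x, -, hx⟩ := Finset.exists_max_image Finset.univ D Finset.univ_nonempty
  have n1 := nu_layers G hd b D d0 d1 d2 (D x) fun v => hx v (Finset.mem_univ _)
  rw [div_le_iff₀ (by positivity)] at n1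
  have n0 : 0 ≤ nu G := by
    by_contra h
    have : nu G * (40 * (2 * (D x : ℝ) + 1) ^ 2) ≤ 0 :=
      mul_nonpos_of_nonpos_of_nonneg (not_le.mp h).le (by positivity)
    linarith
  by_cases hR : 3 ≤ D x
  · have d3 : ∀ v, ∃ u, D v ≠ 0 → G.Adj v u ∧ D u + 1 = D v := fun v => by
      by_cases e : D v = 0
      · exact ⟨v, fun h => absurd e h⟩
      · obtain ⟨u, hu⟩ := d2 v e
        exact ⟨u, fun _ => hu⟩
    choose nx hnx using d3
    have pD : ∀ k ≤ D x, D (nx^[k] x) + k = D x := by
      intro k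
      induction k with
      | zero => simp
      | succ k ih =>
        intro hk
        have := ih (by omega)
        have h5 := (hnx (nx^[k] x) (by omega)).2
        rw [Function.iterate_succ_apply']
        omega
    have pA : ∀ k < D x, G.Adj (nx^[k] x) (nx^[k + 1] x) := by
      intro k hk
      have := pD k hk.le
      rw [Function.iterate_succ_apply']
      exact (hnx _ (by omega)).1
    have pI : ∀ i ≤ D x, ∀ j ≤ D x, nx^[i] x = nx^[j] x → i = j := by
      intro i hi j hj e
      have k1 := pD i hi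
      have k2 := pD j hj
      rw [e] at k1
      omega
    have l2 := lam2_path G hL (D x) hR (fun k => nx^[k] x) pI (by
      intro k hk
      symm
      refine Finset.eq_of_subset_of_card_le ?_ ?_
      · intro z hz
        simp only [Finset.mem_insert, Finset.mem_singleton] at hz
        rcases hz with rfl | rfl
        · simpa only [SimpleGraph.mem_neighborFinset] using (pA k (by omega)).symm
        · simpa only [SimpleGraph.mem_neighborFinset] using pA (k + 1) (by omega)
      · rw [Finset.card_pair (fun e => by have := pI k (by omega) (k + 2) (by omega) e; omega),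
          SimpleGraph.card_neighborFinset_eq_degree]
        by_contra h
        have k1 := (d0 (nx^[k + 1] x)).mpr (Or.inl (by omega))
        have k2 := pD (k + 1) (by omega)
        omega) i hi
    have hR' : (3 : ℝ) ≤ D x := by exact_mod_cast hR
    refine l2.le.trans ?_
    rw [div_le_iff₀ (by positivity)]
    have k1 : (2 * (D x : ℝ) + 1) ^ 2 ≤ 6 * (D x : ℝ) ^ 2 := by nlinarith
    nlinarith [mul_le_mul_of_nonneg_left k1 n0, mul_nonneg n0 (sq_nonneg (D x : ℝ))]
  · have hR' : (D x : ℝ) ≤ 2 := by exact_mod_cast (by omega : D x ≤ 2)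
    have k0 : (0 : ℝ) ≤ D x := by positivity
    have k1 : (2 * (D x : ℝ) + 1) ^ 2 ≤ 25 := by nlinarith
    rw [h4] at l1
    push_cast at l1
    nlinarith [mul_le_mul_of_nonneg_left k1 n0]

end Pool.Agent.H14.Mss
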