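import Mathlib

set_option autoImplicit false

namespace Pool.Agent.H14.Multicone

/-- The join of the complete graph on `w` vertices with `m` disjoint copies of the `n`-cycle. -/
def multicone (w m n : ℕ) : SimpleGraph (Fin w ⊕ Fin m × Fin n) where
  Adj
    | Sum.inl a, Sum.inl b => a ≠ b
    | Sum.inl _, Sum.inr _ => True
    | Sum.inr _, Sum.inl _ => True
    | Sum.inr x, Sum.inr y => x.1 = y.1 ∧ (SimpleGraph.cycleGraph n).Adj x.2 y.2
  symm := ⟨by
    rintro (a | x) (b | y) h
    · exact fun e => h e.symm
    · trivial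
    · trivial
    · exact ⟨h.1.symm, h.2.symm⟩⟩
  loopless := ⟨by
    rintro (a | x) h
    · exact h rfl
    · exact h.2.ne rfl⟩

end Pool.Agent.H14.Multicone
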