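import Mathlib

set_option autoImplicit false

namespace Pool.Agent.H14.Multinom

open Finset Filter

/-- distinct values of multinomial coefficients with upper entry `n`. -/
def M (n : ℕ) : Finset ℕ :=
  (univ : Finset (Nat.Partition n)).image fun p =>
    n.factorial / (p.parts.map Nat.factorial).prod

/-- unordered representations of `t` as a sum of two elements of `M n`. -/
def r (n t : ℕ) : ℕ := ((M n ×ˢ M n).filter fun q => q.1 ≤ q.2 ∧ q.1 + q.2 = t).card

/-- the sumset `M n + M n` (outside it `r n t = 0`). -/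
def sums (n : ℕ) : Finset ℕ := (M n ×ˢ M n).image fun q => q.1 + q.2

def C (n : ℕ) : ℕ := ∑ t ∈ sums n, (r n t - 1)

def D (n : ℕ) : ℕ := ((sums n).filter fun t => 2 ≤ r n t).card

def mu (n : ℕ) : ℕ := (sums n).sup (r n)

theorem prod_dvd (s : Multiset ℕ) : (s.map Nat.factorial).prod ∣ s.sum.factorial := by
  induction s using Multiset.induction_on with
  | empty => simp
  | cons a s ih =>
    rw [Multiset.map_cons, Multiset.prod_cons, Multiset.sum_cons]
    exact (Nat.mul_dvd_mul_left _ ih).trans (Nat.factorial_mul_factorial_dvd_factorial_add _ _)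

theorem prod_filter (s : Multiset ℕ) :
    ((s.filter (· ≠ 0)).map Nat.factorial).prod = (s.map Nat.factorial).prod := by
  induction s using Multiset.induction_on with
  | empty => simp
  | cons a s ih =>
    by_cases h : a = 0
    · subst h
      rw [Multiset.filter_cons_of_neg _ (by simp), ih]; simp
    · rw [Multiset.filter_cons_of_pos (p := (· ≠ 0)) _ h]; simp only [Multiset.map_cons, Multiset.prod_cons, ih]

theorem ex_mem (n : ℕ) (s : Multiset ℕ) (h : s.sum ≤ n) :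
    ∃ x ∈ M n, (s.map Nat.factorial).prod * x = n.factorial := by
  refine ⟨n.factorial / (s.map Nat.factorial).prod, ?_,
    Nat.mul_div_cancel' ((prod_dvd s).trans (Nat.factorial_dvd_factorial h))⟩
  refine mem_image.2 ⟨Nat.Partition.ofSums n (s + Multiset.replicate (n - s.sum) 1)
    (by simp; omega), mem_univ _, ?_⟩
  rw [Nat.Partition.ofSums_parts, prod_filter]
  simp

theorem pow_inj {a b c a' b' c' : ℕ} (h : 2 ^ a * 3 ^ b * 5 ^ c = 2 ^ a' * 3 ^ b' * 5 ^ c') :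
    a = a' ∧ b = b' ∧ c = c' := by
  have key : ∀ a b c : ℕ, (2 ^ a * 3 ^ b * 5 ^ c).factorization =
      Finsupp.single 2 a + Finsupp.single 3 b + Finsupp.single 5 c := by
    intro a b c
    rw [Nat.factorization_mul (by positivity) (by positivity),
      Nat.factorization_mul (by positivity) (by positivity),
      Nat.prime_two.factorization_pow, Nat.prime_three.factorization_pow,
      Nat.prime_five.factorization_pow]
  have e := congrArg Nat.factorization h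
  rw [key, key] at e
  have e2 := DFunLike.congr_fun e 2
  have e3 := DFunLike.congr_fun e 3
  have e5 := DFunLike.congr_fun e 5
  simp at e2 e3 e5
  exact ⟨e2, e3, e5⟩

theorem D_ge (n q : ℕ) (h : 10 * q + 5 ≤ n) : q ^ 3 ≤ D n := by
  have hf := Nat.factorial_pos n
  have key : ∀ v : ℕ × ℕ × ℕ, ∃ V, v ∈ range q ×ˢ range q ×ˢ range q →
      2 ^ (v.1 + v.2.1 + 3 * v.2.2) * 3 ^ (v.2.1 + v.2.2) * 5 ^ v.2.2 * 12 * V = n.factorial ∧
      V ∈ M n ∧ 2 * V ∈ M n ∧ 3 * V ∈ M n := by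
    rintro ⟨i, j, l⟩
    by_cases hv : (i, j, l) ∈ range q ×ˢ range q ×ˢ range q
    swap
    · exact ⟨0, fun h => absurd h hv⟩
    simp only [mem_product, mem_range] at hv
    set s := Multiset.replicate i 2 + Multiset.replicate j 3 + Multiset.replicate l 5 with hs
    have hsum : s.sum ≤ 10 * q := by simp [hs]; omega
    have hprod : (s.map Nat.factorial).prod = 2 ^ (i + j + 3 * l) * 3 ^ (j + l) * 5 ^ l := by
      simp only [hs, Multiset.map_add, Multiset.map_replicate, Multiset.prod_add,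
        Multiset.prod_replicate]
      rw [show Nat.factorial 2 = 2 from rfl, show Nat.factorial 3 = 2 * 3 from rfl,
        show Nat.factorial 5 = 2 ^ 3 * 3 * 5 from rfl, mul_pow, mul_pow, mul_pow, ← pow_mul]
      ring
    obtain ⟨x, hx, ex⟩ := ex_mem n (2 ::ₘ 3 ::ₘ s) (by simp only [Multiset.sum_cons]; omega)
    obtain ⟨y, hy, ey⟩ := ex_mem n (3 ::ₘ s) (by simp only [Multiset.sum_cons]; omega)
    obtain ⟨z, hz, ez⟩ := ex_mem n (2 ::ₘ 2 ::ₘ s) (by simp only [Multiset.sum_cons]; omega)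
    simp only [Multiset.map_cons, Multiset.prod_cons, hprod, show Nat.factorial 2 = 2 from rfl,
      show Nat.factorial 3 = 6 from rfl] at ex ey ez
    have hP : 0 < 2 ^ (i + j + 3 * l) * 3 ^ (j + l) * 5 ^ l := by positivity
    generalize 2 ^ (i + j + 3 * l) * 3 ^ (j + l) * 5 ^ l = P at *
    have e1 : y = 2 * x := by
      apply Nat.eq_of_mul_eq_mul_left (show 0 < 6 * P by omega)
      rw [ey, ← ex]; ring
    have e2 : z = 3 * x := by
      apply Nat.eq_of_mul_eq_mul_left (show 0 < 2 * (2 * P) by omega)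
      rw [ez, ← ex]; ring
    exact ⟨x, fun _ => ⟨by rw [← ex]; ring, hx, e1 ▸ hy, e2 ▸ hz⟩⟩
  choose V hV using key
  have : (range q ×ˢ range q ×ˢ range q).card = q ^ 3 := by simp; ring
  rw [← this]
  apply Finset.card_le_card_of_injOn (fun v => 4 * V v)
  · intro v hv
    obtain ⟨h1, h2, h3, h4⟩ := hV v hv
    have hpos : 0 < V v := Nat.pos_of_ne_zero fun h0 => by rw [h0] at h1; omega
    refine mem_coe.2 (mem_filter.2 ⟨mem_image.2 ⟨(V v, 3 * V v), mem_product.2 ⟨h2, h4⟩,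
      by simp only; ring⟩, ?_⟩)
    refine Finset.one_lt_card.2 ⟨(V v, 3 * V v), ?_, (2 * V v, 2 * V v), ?_, ?_⟩
    · exact mem_filter.2 ⟨mem_product.2 ⟨h2, h4⟩, by simp only; omega, by simp only; omega⟩
    · exact mem_filter.2 ⟨mem_product.2 ⟨h3, h3⟩, le_rfl, by simp only; omega⟩
    · intro e
      have := (Prod.mk.inj e).1
      omega
  · rintro ⟨i, j, l⟩ hv ⟨i', j', l'⟩ hw e
    obtain ⟨h1, -⟩ := hV _ hv
    obtain ⟨h2, -⟩ := hV _ hw
    have e' : V (i, j, l) = V (i', j', l') := by simp only at e; omega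
    have hpos : 0 < V (i, j, l) := Nat.pos_of_ne_zero fun h0 => by rw [h0] at h1; omega
    rw [← e', ← h1] at h2
    have := pow_inj (Nat.eq_of_mul_eq_mul_right (by norm_num) (Nat.eq_of_mul_eq_mul_right hpos h2))
    simp only at this
    simp only [Prod.mk.injEq]
    omega

theorem D_le_C (n : ℕ) : D n ≤ C n := by
  rw [D, Finset.card_filter]
  apply Finset.sum_le_sum
  intro t _
  split_ifs <;> omega

theorem coprime_count (z : ℕ) : (z : ℝ) ^ 2 ≤
    4 * ((Ioc 0 z ×ˢ Ioc 0 z).filter fun q : ℕ × ℕ => q.1.Coprime q.2).card := by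
  have h1 := Finset.card_filter_add_card_filter_not (s := Ioc 0 z ×ˢ Ioc 0 z)
    (fun q : ℕ × ℕ => q.1.Coprime q.2)
  have h2 : ((Ioc 0 z ×ˢ Ioc 0 z).filter fun q : ℕ × ℕ => ¬ q.1.Coprime q.2) ⊆
      (insert 2 (Ioc 2 (z + 2))).biUnion fun d =>
        ((Ioc 0 z).filter (d ∣ ·)) ×ˢ ((Ioc 0 z).filter (d ∣ ·)) := by
    rintro ⟨a, b⟩ h
    simp only [mem_filter, mem_product, mem_Ioc, mem_biUnion, mem_insert] at h ⊢
    have g1 := Nat.gcd_pos_of_pos_left b h.1.1.1
    have g2 := Nat.gcd_le_left b h.1.1.1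
    have g3 : a.gcd b ≠ 1 := h.2
    exact ⟨a.gcd b, by omega, ⟨h.1.1, Nat.gcd_dvd_left _ _⟩, h.1.2, Nat.gcd_dvd_right _ _⟩
  have h3 := (Finset.card_le_card h2).trans Finset.card_biUnion_le
  simp only [card_product, Nat.Ioc_filter_dvd_card_eq_div, Nat.card_Ioc, Nat.sub_zero] at h1 h3
  have h4 : ((∑ d ∈ insert 2 (Ioc 2 (z + 2)), z / d * (z / d) : ℕ) : ℝ) ≤
      ∑ d ∈ insert 2 (Ioc 2 (z + 2)), (z : ℝ) ^ 2 * ((d : ℝ) ^ 2)⁻¹ := by
    push_cast
    apply Finset.sum_le_sum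
    intro d _
    have : ((z / d : ℕ) : ℝ) ≤ z / d := Nat.cast_div_le
    calc _ ≤ ((z : ℝ) / d) * (z / d) := mul_self_le_mul_self (by positivity) this
      _ = _ := by ring
  rw [← Finset.mul_sum, Finset.sum_insert (f := fun d : ℕ => ((d : ℝ) ^ 2)⁻¹) (by simp)] at h4
  have h5 := sum_Ioc_inv_sq_le_sub (α := ℝ) (k := 2) (n := z + 2) (by norm_num) (by omega)
  have h6 : (0 : ℝ) ≤ (((z + 2 : ℕ) : ℝ))⁻¹ := by positivity
  have h7 : (((2 : ℕ) : ℝ) ^ 2)⁻¹ + ∑ d ∈ Ioc 2 (z + 2), ((d : ℝ) ^ 2)⁻¹ ≤ 3 / 4 := by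
    have e1 : (((2 : ℕ) : ℝ) ^ 2)⁻¹ = 1 / 4 := by norm_num
    have e2 : (((2 : ℕ) : ℝ))⁻¹ = 1 / 2 := by norm_num
    linarith
  have h8 := mul_le_mul_of_nonneg_left h7 (sq_nonneg (z : ℝ))
  have h1' := congrArg (Nat.cast (R := ℝ)) h1
  have h3' := (Nat.cast_le (α := ℝ)).2 h3
  push_cast at h1' h3' h4 h8
  nlinarith

theorem mu_ge (n z : ℕ) (hz : 1 ≤ z) (h : 2 * z * (2 * z + 1) ≤ n) : (z : ℝ) ^ 2 ≤ 8 * mu n := by
  have hf := Nat.factorial_pos n
  set R := Multiset.range (2 * z + 1) with hR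
  set Q := (R.map Nat.factorial).prod with hQ
  have hQpos : 0 < Q := Multiset.prod_pos fun a ha => by
    obtain ⟨b, -, rfl⟩ := Multiset.mem_map.1 ha
    exact Nat.factorial_pos b
  have hRs : 2 * R.sum = 2 * z * (2 * z + 1) := by
    have := Finset.sum_range_id_mul_two (2 * z + 1)
    rw [Finset.sum, Multiset.map_id'] at this
    simp only [Nat.add_sub_cancel] at this
    rw [mul_comm 2, mul_comm (2 * z)]
    exact this
  have key : ∀ a s : ℕ, ∃ x, 1 ≤ a → a ≤ 2 * z → 1 ≤ s → s ≤ 2 * z →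
      x ∈ M n ∧ Q * Q * s * x = a * n.factorial := by
    intro a s
    by_cases hc : 1 ≤ a ∧ a ≤ 2 * z ∧ 1 ≤ s ∧ s ≤ 2 * z
    swap
    · exact ⟨0, fun a1 a2 a3 a4 => absurd ⟨a1, a2, a3, a4⟩ hc⟩
    obtain ⟨a1, a2, a3, a4⟩ := hc
    obtain ⟨a, rfl⟩ : ∃ b, a = b + 1 := ⟨a - 1, by omega⟩
    obtain ⟨s, rfl⟩ : ∃ b, s = b + 1 := ⟨s - 1, by omega⟩
    obtain ⟨R1, e1⟩ := Multiset.exists_cons_of_mem (s := R) (a := a + 1)
      (Multiset.mem_range.2 (by omega))
    obtain ⟨R2, e2⟩ := Multiset.exists_cons_of_mem (s := R) (a := s)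
      (Multiset.mem_range.2 (by omega))
    have s1 := congrArg Multiset.sum e1
    have s2 := congrArg Multiset.sum e2
    have p1 : Q = (a + 1) * a.factorial * (R1.map Nat.factorial).prod := by
      rw [hQ, e1, Multiset.map_cons, Multiset.prod_cons, Nat.factorial_succ]
    have p2 : Q = s.factorial * (R2.map Nat.factorial).prod := by
      rw [hQ, e2, Multiset.map_cons, Multiset.prod_cons]
    rw [Multiset.sum_cons] at s1 s2
    obtain ⟨x, hx, ex⟩ := ex_mem n ((a ::ₘ R1) + ((s + 1) ::ₘ R2))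
      (by rw [Multiset.sum_add, Multiset.sum_cons, Multiset.sum_cons]; omega)
    refine ⟨x, fun _ _ _ _ => ⟨hx, ?_⟩⟩
    rw [Multiset.map_add, Multiset.prod_add, Multiset.map_cons, Multiset.map_cons,
      Multiset.prod_cons, Multiset.prod_cons, Nat.factorial_succ] at ex
    rw [← ex]
    nth_rewrite 1 [p1]
    rw [p2]
    ring
  choose X hX using key
  obtain ⟨t1, ht⟩ := hX 1 1 le_rfl (by omega) le_rfl (by omega)
  set t := X 1 1
  have hsum : ∀ a b, 0 < a → a ≤ z → 0 < b → b ≤ z → X a (a + b) + X b (a + b) = t := by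
    intro a b a1 a2 b1 b2
    obtain ⟨-, e1⟩ := hX a (a + b) a1 (by omega) (by omega) (by omega)
    obtain ⟨-, e2⟩ := hX b (a + b) b1 (by omega) (by omega) (by omega)
    apply Nat.eq_of_mul_eq_mul_left (show 0 < Q * Q * (a + b) by positivity)
    rw [mul_add, e1, e2]
    zify at ht ⊢
    linear_combination (-((a : ℤ) + b)) * ht
  have hc : ((Ioc 0 z ×ˢ Ioc 0 z).filter fun q : ℕ × ℕ => q.1.Coprime q.2).card ≤
      ((M n ×ˢ M n).filter fun q => q.1 + q.2 = t).card := by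
    apply Finset.card_le_card_of_injOn (fun q => (X q.1 (q.1 + q.2), X q.2 (q.1 + q.2)))
    · rintro ⟨a, b⟩ hq
      simp only [coe_filter, mem_product, mem_Ioc, Set.mem_ofPred_eq] at hq ⊢
      obtain ⟨⟨⟨a1, a2⟩, b1, b2⟩, -⟩ := hq
      exact ⟨⟨(hX a (a + b) a1 (by omega) (by omega) (by omega)).1,
        (hX b (a + b) b1 (by omega) (by omega) (by omega)).1⟩, hsum a b a1 a2 b1 b2⟩
    · rintro ⟨a, b⟩ hq ⟨a', b'⟩ hq' e
      simp only [coe_filter, mem_product, mem_Ioc, Set.mem_ofPred_eq] at hq hq'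
      obtain ⟨⟨⟨a1, a2⟩, b1, b2⟩, c⟩ := hq
      obtain ⟨⟨⟨a1', a2'⟩, b1', b2'⟩, c'⟩ := hq'
      obtain ⟨-, e1⟩ := hX a (a + b) a1 (by omega) (by omega) (by omega)
      obtain ⟨-, e2⟩ := hX a' (a' + b') a1' (by omega) (by omega) (by omega)
      have e3 : X a (a + b) = X a' (a' + b') := (Prod.mk.inj e).1
      rw [← e3] at e2
      have e4 : a * b' = a' * b := by
        apply Nat.eq_of_mul_eq_mul_right hf
        zify at e1 e2 ⊢
        linear_combination (a + b) * e2 - (a' + b') * e1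
      have d1 : a ∣ a' := c.dvd_of_dvd_mul_right ⟨b', e4.symm⟩
      have d2 : a' ∣ a := c'.dvd_of_dvd_mul_right ⟨b, e4⟩
      have := Nat.dvd_antisymm d1 d2
      subst this
      rw [Nat.eq_of_mul_eq_mul_left a1 e4]
  have hd : ((M n ×ˢ M n).filter fun q => q.1 + q.2 = t).card ≤ 2 * r n t := by
    have : ((M n ×ˢ M n).filter fun q => q.1 + q.2 = t) ⊆
        ((M n ×ˢ M n).filter fun q => q.1 ≤ q.2 ∧ q.1 + q.2 = t) ∪
        ((M n ×ˢ M n).filter fun q => q.1 ≤ q.2 ∧ q.1 + q.2 = t).image Prod.swap := by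
      rintro ⟨a, b⟩ hq
      simp only [mem_filter, mem_product, mem_union, mem_image] at hq ⊢
      rcases le_total a b with h1 | h1
      · exact Or.inl ⟨hq.1, h1, hq.2⟩
      · exact Or.inr ⟨(b, a), ⟨hq.1.symm, h1, by simp only; omega⟩, rfl⟩
    have h1 := (Finset.card_le_card this).trans (Finset.card_union_le _ _)
    have h2 := Finset.card_image_le (f := Prod.swap)
      (s := (M n ×ˢ M n).filter fun q => q.1 ≤ q.2 ∧ q.1 + q.2 = t)
    unfold r
    omega
  have hm : r n t ≤ mu n := by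
    apply Finset.le_sup (f := r n)
    have := (hX 1 (1 + 1) le_rfl (by omega) (by omega) (by omega)).1
    exact mem_image.2 ⟨(_, _), mem_product.2 ⟨this, this⟩, hsum 1 1 one_pos hz one_pos hz⟩
  have h1 := coprime_count z
  have h2 := (Nat.cast_le (α := ℝ)).2 (hc.trans (hd.trans (Nat.mul_le_mul_left 2 hm)))
  push_cast at h2
  linarith

theorem D_ge' (n : ℕ) (hn : 30 ≤ n) : (n : ℝ) ^ 3 ≤ 8000 * D n := by
  have h1 := D_ge n ((n - 5) / 10) (by omega)
  have h2 : n ^ 3 ≤ (20 * ((n - 5) / 10)) ^ 3 := Nat.pow_le_pow_left (by omega) 3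
  rw [mul_pow] at h2
  have : n ^ 3 ≤ 8000 * D n := by omega
  exact_mod_cast this

theorem mu_ge' (n : ℕ) (hn : 30 ≤ n) : (n : ℝ) ≤ 288 * mu n := by
  have h1 := Nat.sqrt_le n
  have h2 := Nat.lt_succ_sqrt n
  have h3 : 3 ≤ n.sqrt := Nat.le_sqrt.2 (by omega)
  generalize n.sqrt = w at *
  obtain ⟨z, hz1, hz2, hz3⟩ : ∃ z, 1 ≤ z ∧ 3 * z ≤ w ∧ w + 1 ≤ 6 * z := ⟨w / 3, by omega, by omega,
    by omega⟩
  have h4 := mu_ge n z hz1 (by nlinarith)
  have h5 : n ≤ 36 * z ^ 2 := by rw [Nat.succ_eq_add_one] at h2; nlinarith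
  have h6 := (Nat.cast_le (α := ℝ)).2 h5
  push_cast at h6
  linarith

theorem root_tendsto : Tendsto (fun n : ℕ => √(√(n : ℝ))) atTop atTop :=
  Real.tendsto_sqrt_atTop.comp (Real.tendsto_sqrt_atTop.comp tendsto_natCast_atTop_atTop)

theorem root_facts (n : ℕ) (hn : 30 ≤ n) : ∃ u : ℝ, u = √(√(n : ℝ)) ∧ 1 ≤ u ∧ (n : ℝ) = u ^ 4 ∧
    1 ≤ Real.log n ∧ Real.log n ≤ 4 * u := by
  have h0 : (30 : ℝ) ≤ n := by exact_mod_cast hn
  have h1 : 1 ≤ √(√(n : ℝ)) := Real.one_le_sqrt.2 (Real.one_le_sqrt.2 (by linarith))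
  have h2 : (n : ℝ) = √(√(n : ℝ)) ^ 4 := by
    rw [show 4 = 2 * 2 from rfl, pow_mul, Real.sq_sqrt (Real.sqrt_nonneg _),
      Real.sq_sqrt (by linarith)]
  refine ⟨_, rfl, h1, h2, ?_, ?_⟩
  · rw [Real.le_log_iff_exp_le (by linarith)]
    have := Real.exp_one_lt_d9
    linarith
  · nth_rewrite 1 [h2]
    rw [Real.log_pow]
    have := Real.log_le_sub_one_of_pos (show 0 < √(√(n : ℝ)) by linarith)
    push_cast
    linarith

theorem tendsto_of (f g : ℕ → ℝ) (c : ℝ) (hc : 0 < c)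
    (h : ∀ n : ℕ, 30 ≤ n → 0 < g n ∧ √(√(n : ℝ)) * g n ≤ c * f n) :
    Tendsto (fun n => f n / g n) atTop atTop := by
  refine tendsto_atTop_mono' _ ?_ (root_tendsto.atTop_div_const hc)
  filter_upwards [eventually_ge_atTop 30] with n hn
  obtain ⟨h1, h2⟩ := h n hn
  rw [div_le_div_iff₀ hc h1]
  linarith

theorem D_big (n : ℕ) (hn : 30 ≤ n) :
    √(√(n : ℝ)) * ((n : ℝ) ^ 2 * Real.log n) ≤ 32000 * D n := by
  obtain ⟨u, hu, h1, h2, h3, h4⟩ := root_facts n hn
  have h5 := D_ge' n hn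
  rw [← hu]
  have h6 : u * Real.log n ≤ 4 * n := by
    rw [h2] at *
    have : u ^ 2 ≤ u ^ 4 := pow_le_pow_right₀ h1 (by norm_num)
    nlinarith
  have : (0 : ℝ) ≤ (n : ℝ) ^ 2 := by positivity
  nlinarith

theorem tendC : Tendsto (fun n : ℕ => (C n : ℝ) / ((n : ℝ) ^ 2 * Real.log n)) atTop atTop := by
  refine tendsto_of _ _ 32000 (by norm_num) fun n hn => ?_
  obtain ⟨u, hu, h1, h2, h3, h4⟩ := root_facts n hn
  have h0 : (30 : ℝ) ≤ n := by exact_mod_cast hn
  have := (Nat.cast_le (α := ℝ)).2 (D_le_C n)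
  exact ⟨by positivity, by linarith [D_big n hn]⟩

theorem tendD : Tendsto (fun n : ℕ => (D n : ℝ) / ((n : ℝ) ^ (3 / 2 : ℝ) * √(Real.log n)))
    atTop atTop := by
  refine tendsto_of _ _ 32000 (by norm_num) fun n hn => ?_
  obtain ⟨u, hu, h1, h2, h3, h4⟩ := root_facts n hn
  have h0 : (30 : ℝ) ≤ n := by exact_mod_cast hn
  refine ⟨by positivity, le_trans ?_ (D_big n hn)⟩
  apply mul_le_mul_of_nonneg_left _ (Real.sqrt_nonneg _)
  apply mul_le_mul _ _ (Real.sqrt_nonneg _) (by positivity)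
  · rw [← Real.rpow_natCast]
    exact Real.rpow_le_rpow_of_exponent_le (by linarith) (by norm_num)
  · rw [Real.sqrt_le_left (by linarith)]
    nlinarith

theorem tendMu : Tendsto (fun n : ℕ => (mu n : ℝ) / √(n * Real.log n)) atTop atTop := by
  refine tendsto_of _ _ 576 (by norm_num) fun n hn => ?_
  obtain ⟨u, hu, h1, h2, h3, h4⟩ := root_facts n hn
  have h0 : (30 : ℝ) ≤ n := by exact_mod_cast hn
  refine ⟨by positivity, ?_⟩
  have h5 := mu_ge' n hn
  have h6 : √(n * Real.log n) ≤ 2 * u ^ 3 := by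
    rw [Real.sqrt_le_left (by positivity)]
    calc (n : ℝ) * Real.log n ≤ u ^ 4 * (4 * u) := by
          rw [← h2]; exact mul_le_mul_of_nonneg_left h4 (by linarith)
      _ = 4 * u ^ 5 := by ring
      _ ≤ 4 * u ^ 6 := by
          have : u ^ 5 ≤ u ^ 6 := pow_le_pow_right₀ h1 (by norm_num)
          linarith
      _ = _ := by ring
  rw [← hu]
  have := mul_le_mul_of_nonneg_left h6 (show 0 ≤ u by linarith)
  nlinarith

end Pool.Agent.H14.Multinom
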