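import Mathlib

set_option autoImplicit false

namespace Pool.Agent.H14.NilSemi

/-- `A^h`: the set of products `a₁ a₂ ⋯ a_h` (`h ≥ 1` factors, all in `A`). -/
def ppow {S : Type*} [Semigroup S] (A : Set S) (h : ℕ) : Set S :=
  {x | ∃ (a : S) (l : List S), l.length + 1 = h ∧ a ∈ A ∧ (∀ b ∈ l, b ∈ A) ∧
    x = l.foldl (· * ·) a}

/-- the product intersection set of a family. -/
def H {S : Type*} [Semigroup S] {Q : Type*} (A : Q → Set S) : Set ℕ :=
  {h | 1 ≤ h ∧ ppow (⋂ q, A q) h = ⋂ q, ppow (A q) h}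

/-- decreasing, and strictly decreasing infinitely often. -/
def AsympStrict {S : Type*} (A : ℕ → Set S) : Prop :=
  (∀ q, A (q + 1) ⊆ A q) ∧ {q | A q ≠ A (q + 1)}.Infinite

/-- `(h, r, j)` stands for the power `a_{h,r}^{j+1}`; `T.z` is the zero. -/
inductive T : Type
  | z : T
  | e (h r j : ℕ) : T

def mul : T → T → T
  | T.e h r j, T.e h' r' j' =>
      if h = h' ∧ r = r' ∧ j + j' + 2 < h then T.e h r (j + j' + 1)
      else if h = h' ∧ r = r' ∧ j + j' + 2 = h then T.e h 0 (j + j' + 1) else T.z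
  | _, _ => T.z

theorem mul_none (x : T) : mul x T.z = T.z := by
  rcases x with _ | ⟨h, r, j⟩ <;> rfl

theorem none_mul (x : T) : mul T.z x = T.z := rfl

theorem mul_some (h r j h' r' j' : ℕ) : mul (T.e h r j) (T.e h' r' j') =
    if h = h' ∧ r = r' ∧ j + j' + 2 < h then T.e h r (j + j' + 1)
      else if h = h' ∧ r = r' ∧ j + j' + 2 = h then T.e h 0 (j + j' + 1) else T.z := rfl

theorem mul3 (h r j h' r' j' h'' r'' j'' : ℕ) :
    mul (mul (T.e h r j) (T.e h' r' j')) (T.e h'' r'' j'') =
    if h = h' ∧ r = r' ∧ h = h'' ∧ r = r'' ∧ j + j' + j'' + 3 < h then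
      T.e h r (j + j' + j'' + 2)
    else if h = h' ∧ r = r' ∧ h = h'' ∧ r = r'' ∧ j + j' + j'' + 3 = h then
      T.e h 0 (j + j' + j'' + 2) else T.z := by
  rw [mul_some]
  split_ifs <;> (try rw [mul_some]) <;> (try split_ifs) <;>
    first | rfl | omega | (congr 1; omega)

theorem mul3' (h r j h' r' j' h'' r'' j'' : ℕ) :
    mul (T.e h r j) (mul (T.e h' r' j') (T.e h'' r'' j'')) =
    if h = h' ∧ r = r' ∧ h = h'' ∧ r = r'' ∧ j + j' + j'' + 3 < h then
      T.e h r (j + j' + j'' + 2)
    else if h = h' ∧ r = r' ∧ h = h'' ∧ r = r'' ∧ j + j' + j'' + 3 = h then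
      T.e h 0 (j + j' + j'' + 2) else T.z := by
  rw [mul_some]
  split_ifs <;> (try rw [mul_some]) <;> (try split_ifs) <;>
    first | rfl | omega | (congr 1; omega)

instance : Semigroup T where
  mul := mul
  mul_assoc := by
    rintro (_ | ⟨h, r, j⟩) (_ | ⟨h', r', j'⟩) (_ | ⟨h'', r'', j''⟩) <;> try rfl
    · exact mul_none _
    · exact (mul3 ..).trans (mul3' ..).symm

def fam (X : Set ℕ) (q : ℕ) : Set T :=
  {x | x = T.z ∨ ∃ h r, x = T.e h r 0 ∧ q ≤ r ∧ (h = 1 ∨ h ∉ X)}

theorem foldl_none (l : List T) : l.foldl (· * ·) (T.z : T) = T.z := by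
  induction l with
  | nil => rfl
  | cons a l ih => exact ih

/-- shape of a product of generators. -/
theorem foldl_shape (X : Set ℕ) (q : ℕ) (l : List T) (hl : ∀ b ∈ l, b ∈ fam X q) (h r j : ℕ) :
    l.foldl (· * ·) (T.e h r j : T) = T.z ∨
    l.foldl (· * ·) (T.e h r j : T) = T.e h r (j + l.length) ∨
    (l.foldl (· * ·) (T.e h r j : T) = T.e h 0 (j + l.length) ∧ j + l.length + 1 = h ∧
      l ≠ []) := by
  induction l generalizing j r with
  | nil => exact Or.inr (Or.inl rfl)
  | cons a l ih =>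
    have ha := hl a (List.mem_cons_self ..)
    have hl' : ∀ b ∈ l, b ∈ fam X q := fun b hb => hl b (List.mem_cons_of_mem _ hb)
    rcases ha with rfl | ⟨h', r', rfl, -⟩
    · exact Or.inl (foldl_none l)
    · have e : List.foldl (· * ·) (T.e h r j : T) (T.e h' r' 0 :: l)
          = List.foldl (· * ·) (mul (T.e h r j) (T.e h' r' 0)) l := rfl
      rw [e, mul_some, List.length_cons]
      split_ifs with c1 c2
      · rcases ih hl' r (j + 0 + 1) with h1 | h1 | ⟨h1, h2, -⟩
        · exact Or.inl h1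
        · right; left; rw [h1]; congr 1; omega
        · right; right; refine ⟨?_, by omega, by simp⟩; rw [h1]; congr 1; omega
      · cases l with
        | nil => right; right; exact ⟨rfl, by simp; omega, by simp⟩
        | cons b l =>
          left
          rcases hl' b (List.mem_cons_self ..) with rfl | ⟨h'', r'', rfl, -⟩
          · exact foldl_none l
          · have e2 : List.foldl (· * ·) (T.e h 0 (j + 0 + 1) : T) (T.e h'' r'' 0 :: l)
                = List.foldl (· * ·) (mul (T.e h 0 (j + 0 + 1)) (T.e h'' r'' 0)) l := rfl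
            rw [e2, mul_some, if_neg (by omega), if_neg (by omega)]
            exact foldl_none l
      · exact Or.inl (foldl_none l)

theorem foldl_rep (h r : ℕ) (m j : ℕ) (e : j + (m + 1) + 1 = h) :
    (List.replicate (m + 1) (T.e h r 0 : T)).foldl (· * ·) (T.e h r j : T)
      = T.e h 0 (h - 1) := by
  induction m generalizing j with
  | zero =>
    show mul (T.e h r j) (T.e h r 0) = _
    rw [mul_some, if_neg (by omega), if_pos ⟨rfl, rfl, by omega⟩]
    congr 1; omega
  | succ m ih =>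
    rw [List.replicate_succ]
    show List.foldl _ (mul (T.e h r j) (T.e h r 0)) _ = _
    rw [mul_some, if_pos ⟨rfl, rfl, by omega⟩]
    exact ih _ (by omega)

theorem fam_anti (X : Set ℕ) {q q' : ℕ} (h : q ≤ q') : fam X q' ⊆ fam X q := by
  rintro x (rfl | ⟨a, r, rfl, h1, h2⟩)
  · exact Or.inl rfl
  · exact Or.inr ⟨a, r, rfl, h.trans h1, h2⟩

theorem fam_mem (X : Set ℕ) (q r : ℕ) : (T.e 1 r 0 : T) ∈ fam X q ↔ q ≤ r := by
  constructor
  · rintro (h | ⟨a, r', h, h1, -⟩)
    · cases h
    · cases h; exact h1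
  · intro h
    exact Or.inr ⟨1, r, rfl, h, Or.inl rfl⟩

theorem fam_inj (X : Set ℕ) : Function.Injective (fam X) := by
  intro q q' h
  have h1 := (fam_mem X q' q).1 (h ▸ (fam_mem X q q).2 le_rfl)
  have h2 := (fam_mem X q q').1 (h ▸ (fam_mem X q' q').2 le_rfl)
  omega

theorem H_fam {Q : Type*} (X : Set ℕ) (h1 : 1 ∈ X) (h0 : ∀ h ∈ X, 1 ≤ h) (φ : Q → ℕ)
    (hφ : Function.Surjective φ) : H (fun q => fam X (φ q)) = X := by
  have hI : (⋂ q, fam X (φ q)) = {T.z} := by
    ext x
    simp only [Set.mem_iInter, Set.mem_singleton_iff]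
    constructor
    · intro hx
      obtain ⟨q0, -⟩ := hφ 0
      rcases hx q0 with h | ⟨a, r, rfl, -⟩
      · exact h
      · obtain ⟨q, hq⟩ := hφ (r + 1)
        rcases hx q with h | ⟨a', r', h, h2, -⟩
        · exact h
        · cases h; omega
    · rintro rfl q
      exact Or.inl rfl
  have hP : ∀ h, 1 ≤ h → ppow ({T.z} : Set T) h = {T.z} := by
    intro h hh
    ext x
    constructor
    · rintro ⟨a, l, -, rfl, -, rfl⟩
      exact foldl_none l
    · rintro rfl
      refine ⟨T.z, List.replicate (h - 1) T.z, by simp; omega, rfl, ?_, (foldl_none _).symm⟩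
      intro b hb
      exact List.eq_of_mem_replicate hb
  ext h
  simp only [H, Set.mem_ofPred_eq, hI]
  constructor
  · rintro ⟨hh, e⟩
    by_contra hX
    have h2 : 2 ≤ h := by
      by_contra hc
      exact hX ((show h = 1 by omega) ▸ h1)
    have : (T.e h 0 (h - 1) : T) ∈ ⋂ q, ppow (fam X (φ q)) h := by
      refine Set.mem_iInter.2 fun q => ?_
      have hm : (T.e h (φ q) 0 : T) ∈ fam X (φ q) := Or.inr ⟨h, φ q, rfl, le_rfl, Or.inr hX⟩
      refine ⟨T.e h (φ q) 0, List.replicate (h - 2 + 1) (T.e h (φ q) 0), by simp; omega,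
        hm, fun b hb => List.eq_of_mem_replicate hb ▸ hm, (foldl_rep h (φ q) (h - 2) 0 (by omega)).symm⟩
    rw [← e, hP h hh] at this
    cases this
  · intro hX
    refine ⟨h0 h hX, ?_⟩
    rw [hP h (h0 h hX)]
    ext x
    simp only [Set.mem_iInter, Set.mem_singleton_iff]
    constructor
    · rintro rfl q
      refine ⟨T.z, List.replicate (h - 1) T.z, by have := h0 h hX; simp; omega, Or.inl rfl, ?_,
        (foldl_none _).symm⟩
      intro b hb
      exact Or.inl (List.eq_of_mem_replicate hb)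
    · intro hx
      rcases x with _ | ⟨a, r, j⟩
      · rfl
      · exfalso
        obtain ⟨q, hq⟩ := hφ (r + 1)
        obtain ⟨b, l, hl, hb, hl2, e⟩ := hx q
        rcases hb with rfl | ⟨a', r', rfl, c1, c2⟩
        · rw [foldl_none] at e; cases e
        · rcases foldl_shape X _ l hl2 a' r' 0 with c | c | ⟨c, c3, c4⟩
          · rw [c] at e; cases e
          · rw [c] at e; cases e; omega
          · have : l.length ≠ 0 := by simpa using c4
            rcases c2 with c2 | c2
            · omega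
            · exact c2 ((show a' = h by omega) ▸ hX)

theorem seq_real (X : Set ℕ) (h1 : 1 ∈ X) (h0 : ∀ h ∈ X, 1 ≤ h) :
    AsympStrict (fam X) ∧ H (fam X) = X := by
  refine ⟨⟨fun q => fam_anti X (Nat.le_succ q), ?_⟩, H_fam X h1 h0 id Function.surjective_id⟩
  have : {q | fam X q ≠ fam X (q + 1)} = Set.univ := by
    ext q
    simp only [Set.mem_ofPred_eq, Set.mem_univ, iff_true]
    intro h
    have := fam_inj X h
    omega
  rw [this]
  exact Set.infinite_univ

theorem fam_real (Q : Type*) [Infinite Q] (X : Set ℕ) (h1 : 1 ∈ X) (h0 : ∀ h ∈ X, 1 ≤ h) :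
    ∃ A : Q → Set T, (Set.range A).Infinite ∧ H A = X := by
  have hφ : Function.Surjective (Function.invFun (Infinite.natEmbedding Q)) :=
    Function.invFun_surjective (Infinite.natEmbedding Q).injective
  refine ⟨_, ?_, H_fam X h1 h0 _ hφ⟩
  refine Set.infinite_of_injective_forall_mem (fam_inj X) fun n => ?_
  obtain ⟨q, rfl⟩ := hφ n
  exact ⟨q, rfl⟩

theorem one_mem_H {S : Type*} [Semigroup S] {Q : Type*} (A : Q → Set S) : 1 ∈ H A := by
  have : ∀ B : Set S, ppow B 1 = B := by
    intro B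
    ext x
    constructor
    · rintro ⟨a, l, hl, ha, -, rfl⟩
      have : l = [] := List.length_eq_zero_iff.1 (by omega)
      subst this
      exact ha
    · intro hx
      exact ⟨x, [], rfl, hx, by simp, rfl⟩
  exact ⟨le_rfl, by simp only [this]⟩

end Pool.Agent.H14.NilSemi
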