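import Mathlib

set_option autoImplicit false

namespace Pool.Agent.H14.NormDefs

/-- `G` is a triangle graph: for every maximal stable set `S` and every edge `uv` of `G - S`,
some `w ∈ S` is adjacent to both `u` and `v`. -/
def Triangle {V : Type} (G : SimpleGraph V) : Prop :=
  ∀ S : Set V, Maximal G.IsIndepSet S → ∀ u v : V, u ∉ S → v ∉ S → G.Adj u v →
    ∃ w ∈ S, G.Adj w u ∧ G.Adj w v

/-- `G` is normal: there are a family of cliques and a family of stable sets, each covering the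
vertex set, such that every clique of the first family meets every stable set of the second. -/
def Normal {V : Type} (G : SimpleGraph V) : Prop :=
  ∃ 𝒞 𝒮 : Set (Set V), (∀ C ∈ 𝒞, G.IsClique C) ∧ (∀ S ∈ 𝒮, G.IsIndepSet S) ∧
    (∀ v, ∃ C ∈ 𝒞, v ∈ C) ∧ (∀ v, ∃ S ∈ 𝒮, v ∈ S) ∧ ∀ C ∈ 𝒞, ∀ S ∈ 𝒮, (C ∩ S).Nonempty

end Pool.Agent.H14.NormDefs
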