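import Mathlib
import Pool.Agent.H14.ApnDefs

set_option autoImplicit false

namespace Pool.Agent.H14.OrthoDefs

open Finset Pool.Agent.H14.ApnDefs

/-- `F` has algebraic degree exactly 2: `A i` is the set of monomials of the algebraic normal form
of the `i`-th coordinate. -/
def Quadratic {n : ℕ} (F : V n → V n) : Prop :=
  ∃ A : Fin n → Finset (Finset (Fin n)), (∀ x i, F x i = ∑ I ∈ A i, ∏ j ∈ I, x j) ∧
    (∀ i, ∀ I ∈ A i, I.card ≤ 2) ∧ ∃ i, ∃ I ∈ A i, I.card = 2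

/-- `p` is the ortho-derivative of `F`. -/
def IsOrtho {n : ℕ} (F p : V n → V n) : Prop :=
  p 0 = 0 ∧ ∀ a, a ≠ 0 → p a ≠ 0 ∧ ∀ x, p a ⬝ᵥ ((F (x + a) + F x) + (F (0 + a) + F 0)) = 0

/-- Nonlinearity zero: some nonzero component of `G` is affine. -/
def NLZero {n : ℕ} (G : V n → V n) : Prop :=
  ∃ b, b ≠ 0 ∧ ∃ (u : V n) (c : ZMod 2), ∀ x, b ⬝ᵥ G x = u ⬝ᵥ x + c

end Pool.Agent.H14.OrthoDefs
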