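import Mathlib

set_option autoImplicit false

namespace Pool.Agent.H14.PaintDefs

/-- `c` is a `d`-distinguishing colouring. -/
def Distinguishing {V : Type} (G : SimpleGraph V) {d : ℕ} (c : V → Fin d) : Prop :=
  ∀ φ : G ≃g G, (∀ v, c (φ v) = c v) → ∀ v, φ v = v

/-- The distinguishing number. -/
noncomputable def distNum {V : Type} (G : SimpleGraph V) : ℕ :=
  sInf {d | ∃ c : V → Fin d, Distinguishing G c}

/-- The fixing number. -/
noncomputable def fixNum {V : Type} (G : SimpleGraph V) : ℕ :=
  sInf {k | ∃ S : Finset V, S.card = k ∧ ∀ φ : G ≃g G, (∀ v ∈ S, φ v = v) → ∀ v, φ v = v}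

/-- The paint cost `ρ^d`: least number of vertices outside a colour class of a
`d`-distinguishing colouring. -/
noncomputable def paintCost {V : Type} [Fintype V] (G : SimpleGraph V) (d : ℕ) : ℕ :=
  sInf {k | ∃ c : V → Fin d, Distinguishing G c ∧
    ∃ v₀ : V, k = (Finset.univ.filter fun v => c v ≠ c v₀).card}

/-- The frugal distinguishing number. -/
noncomputable def frugal {V : Type} [Fintype V] (G : SimpleGraph V) : ℕ :=
  sInf {d | distNum G ≤ d ∧ paintCost G d = fixNum G}

end Pool.Agent.H14.PaintDefs
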