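import Mathlib

set_option autoImplicit false

namespace Pool.Agent.H14.PatDefs

/-- A permutation of length `n` is written as a list of the numbers `0, …, n-1`. -/
def IsPerm (l : List ℕ) : Prop := l.Perm (List.range l.length)

/-- Pattern containment `σ ≤ π`: a subsequence of `π` is in the same relative order as `σ`. -/
def Cont (σ π : List ℕ) : Prop :=
  ∃ s ∈ π.sublists, s.length = σ.length ∧
    ∀ i < σ.length, ∀ j < σ.length, (σ.getD i 0 < σ.getD j 0 ↔ s.getD i 0 < s.getD j 0)

instance (σ π : List ℕ) : Decidable (Cont σ π) := by unfold Cont; infer_instance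

/-- All permutations of length less than `n`, each listed once. -/
def shorter (n : ℕ) : List (List ℕ) := (List.range n).flatMap fun m => (List.range m).permutations'

/-- The Möbius function: `μ(σ,σ) = 1` and `μ(σ,π) = -∑_{σ ≤ τ < π} μ(σ,τ)`; a permutation `τ ≤ π`
differs from `π` exactly when it is shorter. -/
def mu (σ π : List ℕ) : ℤ :=
  if π = σ then 1 else
    -((shorter π.length).map fun τ =>
      if _h : τ.length < π.length ∧ Cont σ τ ∧ Cont τ π then mu σ τ else 0).sum
termination_by π.length
decreasing_by exact _h.1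

/-- The open interval `(σ, π)`. -/
def InOpen (σ π τ : List ℕ) : Prop := IsPerm τ ∧ Cont σ τ ∧ Cont τ π ∧ τ ≠ σ ∧ τ ≠ π

/-- `C` is a chain all of whose elements satisfy `Z`. -/
def Face (Z : List ℕ → Prop) (C : Finset (List ℕ)) : Prop :=
  (∀ τ ∈ C, Z τ) ∧ ∀ a ∈ C, ∀ b ∈ C, Cont a b ∨ Cont b a

/-- The complex of chains with elements in `Z` is pure. -/
def Pure (Z : List ℕ → Prop) : Prop :=
  ∀ C D, Maximal (Face Z) C → Maximal (Face Z) D → C.card = D.card

end Pool.Agent.H14.PatDefs
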