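import Mathlib

set_option autoImplicit false

namespace Pool.Agent.H14.Predist

open Polynomial

/-- `p 0, …, p d` are predistance polynomials for the matrix `A` with top eigenvalue `lam`. -/
def IsPredistance {V : Type} [Fintype V] [DecidableEq V] (A : Matrix V V ℝ) (lam : ℝ) (d : ℕ)
    (p : ℕ → ℝ[X]) : Prop :=
  (∀ i ≤ d, (p i).degree = (i : WithBot ℕ)) ∧
  (∀ i ≤ d, ∀ j ≤ d, i ≠ j →
    Matrix.trace (aeval A (p i) * aeval A (p j)) / (Fintype.card V : ℝ) = 0) ∧
  (∀ i ≤ d, Matrix.trace (aeval A (p i) * aeval A (p i)) / (Fintype.card V : ℝ) = (p i).eval lam)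

end Pool.Agent.H14.Predist
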