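import Pool.Agent.H14.Cospec
import Pool.Agent.H14.PredistDefs

set_option autoImplicit false

namespace Pool.Agent.H14.Predist

open Polynomial Matrix

variable {n : Type} [Fintype n] [DecidableEq n]

theorem diag_facts (A : Matrix n n ℝ) (A' : Matrix n n ℤ)
    (hA : A = A'.map (Int.castRingHom ℝ)) (d : n → ℤ)
    (P Q : Matrix n n ℤ) (c : ℤ) (hc : c ≠ 0)
    (h1 : A' * P = P * diagonal d) (h2 : P * Q = diagonal (fun _ => c))
    (h3 : Q * P = diagonal (fun _ => c)) :
    (∀ f g : ℝ[X], trace (aeval A f * aeval A g) = ∑ i, f.eval (d i : ℝ) * g.eval (d i : ℝ)) ∧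
      A.charpoly.roots.toFinset = Finset.univ.image (fun i => (d i : ℝ)) := by
  have hD : (diagonal (fun i => (d i : ℝ)) : Matrix n n ℝ) = (diagonal d).map (Int.castRingHom ℝ) := by
    ext i j
    by_cases h : i = j
    · subst h; simp
    · simp [h]
  constructor
  · have hc' : (c : ℝ) ≠ 0 := by exact_mod_cast hc
    set P' : Matrix n n ℝ := P.map (Int.castRingHom ℝ) with hP'
    set Q' : Matrix n n ℝ := (c : ℝ)⁻¹ • Q.map (Int.castRingHom ℝ) with hQ'
    have e1 : A * P' = P' * diagonal (fun i => (d i : ℝ)) := by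
      rw [hA, hD, hP', ← Matrix.map_mul, ← Matrix.map_mul, h1]
    have e2 : P' * Q' = 1 := by
      rw [hP', hQ', Matrix.mul_smul, ← Matrix.map_mul, h2]
      ext i j
      by_cases h : i = j
      · subst h; simp [hc']
      · simp [h]
    have e3 : Q' * P' = 1 := by
      rw [hP', hQ', Matrix.smul_mul, ← Matrix.map_mul, h3]
      ext i j
      by_cases h : i = j
      · subst h; simp [hc']
      · simp [h]
    have e4 : ∀ k : ℕ, A ^ k * P' = P' * diagonal (fun i => (d i : ℝ) ^ k) := by
      intro k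
      induction k with
      | zero => simp
      | succ k ih =>
        rw [pow_succ', Matrix.mul_assoc, ih, ← Matrix.mul_assoc, e1, Matrix.mul_assoc,
          diagonal_mul_diagonal]
        congr 2
        funext i
        ring
    have e5 : ∀ f : ℝ[X], trace (aeval A f) = ∑ i, f.eval (d i : ℝ) := by
      intro f
      induction f using Polynomial.induction_on' with
      | add p q hp hq => simp [trace_add, hp, hq, Finset.sum_add_distrib]
      | monomial k a =>
        have : trace (A ^ k) = ∑ i, (d i : ℝ) ^ k := by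
          have : A ^ k = (P' * diagonal (fun i => (d i : ℝ) ^ k)) * Q' := by
            rw [← e4, Matrix.mul_assoc, e2, Matrix.mul_one]
          rw [this, trace_mul_comm, ← Matrix.mul_assoc, e3, Matrix.one_mul, trace_diagonal]
        rw [aeval_monomial, ← Algebra.smul_def, trace_smul, this]
        simp [Finset.mul_sum]
    intro f g
    rw [← map_mul, e5]
    simp
  · have := Cospec.charpoly_eq A (diagonal (fun i => (d i : ℝ))) A' (diagonal d) hA hD P Q c hc
      h1 h2 h3 rfl
    rw [this, charpoly_diagonal]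
    ext x
    simp only [Multiset.mem_toFinset, Finset.mem_image, Finset.mem_univ, true_and]
    rw [mem_roots (Finset.prod_ne_zero_iff.mpr fun i _ => X_sub_C_ne_zero _), IsRoot, eval_prod,
      Finset.prod_eq_zero_iff]
    simp only [Finset.mem_univ, true_and, eval_sub, eval_X, eval_C, sub_eq_zero]
    exact ⟨fun ⟨i, h⟩ => ⟨i, h.symm⟩, fun ⟨i, h⟩ => ⟨i, h.symm⟩⟩

/-- A labelling by breadth-first layers gives the graph distance from a vertex. -/
theorem dist_eq_of_layers {V : Type} (G : SimpleGraph V) (x : V) (l : V → ℕ) (h0 : l x = 0)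
    (h1 : ∀ a b, G.Adj a b → l b ≤ l a + 1)
    (h2 : ∀ b, b = x ∨ ∃ a, G.Adj a b ∧ l a + 1 = l b) (y : V) :
    G.Reachable x y ∧ G.dist x y = l y := by
  have hw : ∀ k, ∀ b, l b = k → ∃ w : G.Walk x b, w.length ≤ k := by
    intro k
    induction k with
    | zero =>
      intro b hb
      rcases h2 b with rfl | ⟨a, _, h⟩
      · exact ⟨SimpleGraph.Walk.nil, by simp⟩
      · omega
    | succ k ih =>
      intro b hb
      rcases h2 b with rfl | ⟨a, hab, h⟩
      · exact ⟨SimpleGraph.Walk.nil, by simp⟩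
      · obtain ⟨w, hw⟩ := ih a (by omega)
        exact ⟨w.concat hab, by simp; omega⟩
  have hl : ∀ a b (w : G.Walk a b), l b ≤ l a + w.length := by
    intro a b w
    induction w with
    | nil => simp
    | cons h w ih =>
      have := h1 _ _ h
      simp only [SimpleGraph.Walk.length_cons]
      omega
  obtain ⟨w, hw'⟩ := hw _ y rfl
  refine ⟨⟨w⟩, le_antisymm ((G.dist_le w).trans hw') ?_⟩
  obtain ⟨w', hw''⟩ := (SimpleGraph.Reachable.exists_walk_length_eq_dist ⟨w⟩)
  have := hl _ _ w'
  omega

end Pool.Agent.H14.Predist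

namespace Pool.Agent.H14.Predist

theorem diam_eq_of_table {V : Type} [Fintype V] [Nonempty V] (G : SimpleGraph V) (l : V → V → ℕ)
    (h0 : ∀ x, l x x = 0) (h1 : ∀ x a b, G.Adj a b → l x b ≤ l x a + 1)
    (h2 : ∀ x b, b = x ∨ ∃ a, G.Adj a b ∧ l x a + 1 = l x b) (D : ℕ)
    (h3 : ∀ x y, l x y ≤ D) (h4 : ∃ x y, l x y = D) :
    G.Connected ∧ G.diam = D ∧ ∀ x y, G.dist x y = l x y := by
  have k := fun x y => dist_eq_of_layers G x (l x) (h0 x) (h1 x) (h2 x) y
  have hc : G.Connected := ⟨fun x y => (k x y).1⟩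
  refine ⟨hc, ?_, fun x y => (k x y).2⟩
  obtain ⟨u, v, huv⟩ := G.exists_dist_eq_diam
  obtain ⟨x, y, hxy⟩ := h4
  have := SimpleGraph.dist_le_diam (SimpleGraph.connected_iff_ediam_ne_top.mp hc) (u := x) (v := y)
  have := (k x y).2
  have := (k u v).2
  have := h3 u v
  omega

end Pool.Agent.H14.Predist
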