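import Mathlib

set_option autoImplicit false

namespace Pool.Agent.H14.Psd

open Matrix Finset

def ent {n : ℕ} (C : List (ℚ × List ℚ)) (i j : Fin n) : ℚ :=
  (C.map fun p => p.1 * (p.2.getD i 0 * p.2.getD j 0)).sum

theorem ent_nonneg {n : ℕ} (C : List (ℚ × List ℚ)) (hd : ∀ p ∈ C, 0 ≤ p.1) (x : Fin n → ℝ) :
    0 ≤ ∑ i, x i * ∑ j, (ent C i j : ℝ) * x j := by
  induction C with
  | nil => simp [ent]
  | cons p C ih =>
    have h1 := ih fun q hq => hd q (List.mem_cons_of_mem _ hq)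
    have h2 : (0 : ℝ) ≤ p.1 := by exact_mod_cast hd p List.mem_cons_self
    have e : ∑ i, x i * ∑ j, (ent (p :: C) i j : ℝ) * x j =
        p.1 * (∑ i : Fin n, (p.2.getD i 0 : ℝ) * x i) ^ 2 + ∑ i, x i * ∑ j, (ent C i j : ℝ) * x j := by
      rw [sq, sum_mul_sum, mul_sum, ← sum_add_distrib]
      refine sum_congr rfl fun i _ => ?_
      rw [mul_sum, mul_sum, mul_sum, ← sum_add_distrib]
      refine sum_congr rfl fun j _ => ?_
      simp only [ent, List.map_cons, List.sum_cons]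
      push_cast; ring
    rw [e]; positivity

theorem psd {n : ℕ} (M : Matrix (Fin n) (Fin n) ℤ) (C : List (ℚ × List ℚ)) (hd : ∀ p ∈ C, 0 ≤ p.1)
    (h : ∀ i j, (M i j : ℚ) = ent C i j) (x : Fin n → ℝ) :
    0 ≤ x ⬝ᵥ (M.map (Int.cast : ℤ → ℝ)) *ᵥ x := by
  have := ent_nonneg C hd x
  simp only [← h] at this
  simpa [dotProduct, mulVec] using this

end Pool.Agent.H14.Psd
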