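import Mathlib

set_option autoImplicit false

namespace Pool.Agent.H14.Q

open Matrix

variable {n : ℕ}

/-- `A` lies in `S(G)`: real symmetric with off-diagonal zero pattern given by `G`. -/
def InS (G : SimpleGraph (Fin n)) (A : Matrix (Fin n) (Fin n) ℝ) : Prop :=
  A.IsSymm ∧ ∀ i j, i ≠ j → (A i j ≠ 0 ↔ G.Adj i j)

/-- The numbers of distinct eigenvalues of matrices in `S(G)`; `q(G)` is its least element. -/
def counts (G : SimpleGraph (Fin n)) : Set ℕ :=
  {k | ∃ A, InS G A ∧ (spectrum ℝ A).ncard = k}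

end Pool.Agent.H14.Q
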