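import Pool.Agent.H14.QDefs

set_option autoImplicit false

namespace Pool.Agent.H14.Q

open Matrix Polynomial

variable {n : ℕ}

/-- `G` achieves the multiplicity bipartition `[n - k, k]`. -/
def Achieves (G : SimpleGraph (Fin n)) (k : ℕ) : Prop :=
  ∃ A, InS G A ∧ ∃ a b : ℝ, a ≠ b ∧ A.charpoly = (X - C a) ^ (n - k) * (X - C b) ^ k

/-- The admissible `k` achieved by `G`; `MB(G)` is its least element. -/
def mbSet (G : SimpleGraph (Fin n)) : Set ℕ := {k | 1 ≤ k ∧ k ≤ n / 2 ∧ Achieves G k}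

/-- Ranks of positive semidefinite matrices in `S(G)`; `mr+(G)` is its least element. -/
def psdRanks (G : SimpleGraph (Fin n)) : Set ℕ := {r | ∃ A, InS G A ∧ A.PosSemidef ∧ A.rank = r}

end Pool.Agent.H14.Q
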