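import Mathlib

set_option autoImplicit false

namespace Pool.Agent.H14.QDiff

open Finset

/-- `(a;q)_n = ∏_{k<n} (1 - a q^k)` in a commutative ring. -/
def poch {A : Type*} [CommRing A] (a q : A) (n : ℕ) : A := ∏ k ∈ range n, (1 - a * q ^ k)

lemma poch_succ {A : Type*} [CommRing A] (a q : A) (n : ℕ) :
    poch a q (n + 1) = poch a q n * (1 - a * q ^ n) := by
  simp [poch, prod_range_succ]

lemma poch_zero {A : Type*} [CommRing A] (a q : A) : poch a q 0 = 1 := by simp [poch]

lemma poch_succ' {A : Type*} [CommRing A] (a q : A) (n : ℕ) :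
    poch a q (n + 1) = (1 - a) * poch (q * a) q n := by
  unfold poch
  rw [prod_range_succ', mul_comm]
  congr 1
  · simp
  · refine prod_congr rfl fun k _ => by ring

lemma map_poch {A B : Type*} [CommRing A] [CommRing B] (f : A →+* B) (a q : A) (n : ℕ) :
    f (poch a q n) = poch (f a) (f q) n := by
  simp [poch, map_prod]

/-- partial sums of the right-hand side, `r = 1/q` -/
def RR {A : Type*} [CommRing A] (r x : A) (N : ℕ) : A :=
  ∑ n ∈ range N, (x * r) ^ (n + 1) * poch r r n

/-- partial sums of the left-hand side of (2) -/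
def LL {A : Type*} [CommRing A] (q x : A) (N : ℕ) : A :=
  ∑ n ∈ range N, x * q ^ n * poch x q n * poch q q n

lemma map_RR {A B : Type*} [CommRing A] [CommRing B] (f : A →+* B) (r x : A) (n : ℕ) :
    f (RR r x n) = RR (f r) (f x) n := by
  simp [RR, map_sum, map_poch]

lemma map_LL {A B : Type*} [CommRing A] [CommRing B] (f : A →+* B) (r x : A) (n : ℕ) :
    f (LL r x n) = LL (f r) (f x) n := by
  simp [LL, map_sum, map_poch]

lemma RR_eq {A : Type*} [CommRing A] (q r x : A) (h : q * r = 1) (N : ℕ) :
    x * RR r x N + (1 - x) * RR r (q * x) N = x - x ^ (N + 1) * poch r r N := by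
  induction N with
  | zero => simp [RR, poch]
  | succ N ih =>
    have e : q * x * r = x := by rw [mul_right_comm, h, one_mul]
    unfold RR at *
    rw [sum_range_succ, sum_range_succ, e, poch_succ]
    rw [e] at ih
    linear_combination ih

lemma LL_eq {A : Type*} [CommRing A] (q x : A) (N : ℕ) :
    x * LL q x N + (1 - x) * LL q (q * x) N = x - x * poch x q N * poch q q N := by
  induction N with
  | zero => simp [LL, poch]
  | succ N ih =>
    unfold LL at *
    rw [sum_range_succ, sum_range_succ]
    have h1 := poch_succ' x q N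
    have h2 := poch_succ x q N
    rw [poch_succ q q N]
    linear_combination ih - (x * q ^ (N + 1) * poch q q N) * h1 + (x * poch q q N) * h2
      - (x * q ^ (N+1) * poch q q N) * h2 + (x * q ^ (N+1) * poch q q N) * h2

lemma uniq {A : Type*} [CommRing A] (q r : A) (h : q * r = 1) (D : Polynomial A)
    (hD : Polynomial.X * D + (1 - Polynomial.X) * D.comp (Polynomial.C q * Polynomial.X) = 0) :
    D = 0 := by
  have key : ∀ n, D.coeff n = 0 := by
    intro n
    induction n with
    | zero =>
      have := congrArg (fun P => Polynomial.coeff P 0) hD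
      simpa [sub_mul, Polynomial.comp_C_mul_X_coeff] using this
    | succ n ih =>
      have := congrArg (fun P => Polynomial.coeff P (n + 1)) hD
      simp only [sub_mul, one_mul, Polynomial.coeff_add, Polynomial.coeff_sub,
        Polynomial.coeff_X_mul, Polynomial.comp_C_mul_X_coeff, ih, Polynomial.coeff_zero] at this
      have h2 : q ^ (n + 1) * r ^ (n + 1) = 1 := by rw [← mul_pow, h, one_pow]
      linear_combination r ^ (n + 1) * this - D.coeff (n + 1) * h2
  ext n; simp [key]

lemma LL_eq_RR {A : Type*} [CommRing A] (q r : A) (h : q * r = 1) (N : ℕ)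
    (h1 : poch q q N = 0) (h2 : poch r r N = 0) (p : A) : LL q p N = RR r p N := by
  open Polynomial in
  have hC : (C q : A[X]) * C r = 1 := by rw [← C_mul, h, C_1]
  open Polynomial in
  have hD : LL (C q : A[X]) X N - RR (C r : A[X]) X N = 0 := by
    apply uniq q r h
    have e1 := LL_eq (C q : A[X]) X N
    have e2 := RR_eq (C q : A[X]) (C r) X hC N
    rw [← map_poch C q q N, h1] at e1
    rw [← map_poch C r r N, h2] at e2
    have c1 : (LL (C q : A[X]) X N - RR (C r : A[X]) X N).comp (C q * X)
        = LL (C q : A[X]) (C q * X) N - RR (C r : A[X]) (C q * X) N := by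
      have : ∀ P : A[X], P.comp (C q * X) = eval₂RingHom C (C q * X) P := fun P => rfl
      rw [this, map_sub, map_LL, map_RR]
      simp
    rw [c1]
    simp only [map_zero, mul_zero, sub_zero] at e1 e2
    linear_combination e1 - e2
  have := congrArg (Polynomial.evalRingHom p) hD
  rw [map_sub, map_LL, map_RR] at this
  simpa [sub_eq_zero] using this

/-- iterating the functional equation -/
lemma RR_iter {A : Type*} [CommRing A] (q r x y : A) (h : q * r = 1) (hx : x * y = 1) (N M : ℕ) :
    ∃ W : A, RR r x N = ∑ n ∈ range M, poch y r n + poch y r M * RR r (q ^ M * x) N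
      + poch r r N * W := by
  induction M with
  | zero => exact ⟨0, by simp [poch]⟩
  | succ M ih =>
    obtain ⟨W, hW⟩ := ih
    have e := RR_eq q r (q ^ M * x) h N
    have hq : (q ^ M * x) * (y * r ^ M) = 1 := by
      have : q ^ M * r ^ M = 1 := by rw [← mul_pow, h, one_pow]
      linear_combination (x * y) * this + hx
    refine ⟨W - poch y r M * (y * r ^ M) * (q ^ M * x) ^ (N + 1), ?_⟩
    rw [sum_range_succ, poch_succ, hW, show q ^ (M + 1) * x = q * (q ^ M * x) by ring]
    set z := q ^ M * x
    set w := y * r ^ M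
    linear_combination (poch y r M * w) * e
      - (poch y r M * (RR r z N - RR r (q * z) N - 1)) * hq

lemma poch_dvd {A : Type*} [CommRing A] (a q : A) {m n : ℕ} (h : m ≤ n) :
    poch a q m ∣ poch a q n :=
  prod_dvd_prod_of_subset _ _ _ (range_subset_range.2 h)

lemma X_pow_dvd_poch {A : Type*} [CommRing A] (s : PowerSeries A) (k : ℕ) (hk : 1 ≤ k)
    (hs : (PowerSeries.constantCoeff s) ^ k = 1) (j : ℕ) :
    (PowerSeries.X : PowerSeries A) ^ j ∣ poch s s (j * k) := by
  induction j with
  | zero => simp
  | succ j ih =>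
    obtain ⟨k', rfl⟩ : ∃ k', k = k' + 1 := ⟨k - 1, by omega⟩
    rw [show (j + 1) * (k' + 1) = (j * (k' + 1) + k') + 1 by ring, poch_succ, pow_succ]
    apply mul_dvd_mul
    · exact ih.trans (poch_dvd _ _ (by omega))
    · rw [PowerSeries.X_dvd_iff]
      have : s * s ^ (j * (k' + 1) + k') = (s ^ (k' + 1)) ^ (j + 1) := by ring
      rw [this]
      simp [hs]

end Pool.Agent.H14.QDiff
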