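import Pool.Agent.H14.QDefs

set_option autoImplicit false

namespace Pool.Agent.H14.Q

open Matrix

variable {n : ℕ}

theorem two_le (G : SimpleGraph (Fin n)) (i j : Fin n) (h : G.Adj i j) (A : Matrix (Fin n) (Fin n) ℝ)
    (hA : InS G A) : 2 ≤ (spectrum ℝ A).ncard := by
  have hH : A.IsHermitian := by
    rw [IsHermitian, conjTranspose_eq_transpose_of_trivial]; exact hA.1
  by_contra hc
  have hs : (spectrum ℝ A).Subsingleton := by
    have : Finite (spectrum ℝ A) := by
      rw [hH.spectrum_real_eq_range_eigenvalues]; exact Set.finite_range _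
    rw [← Set.ncard_le_one_iff_subsingleton]
    omega
  have he : hH.eigenvalues = fun _ => hH.eigenvalues i :=
    funext fun k => hs (hH.eigenvalues_mem_spectrum_real k) (hH.eigenvalues_mem_spectrum_real i)
  let V : Matrix (Fin n) (Fin n) ℝ := hH.eigenvectorUnitary
  have hV : V * Vᵀ = 1 := by
    have := (hH.eigenvectorUnitary).2.2
    simpa [star_eq_conjTranspose, conjTranspose_eq_transpose_of_trivial] using this
  have hS : A = V * diagonal hH.eigenvalues * Vᵀ := by
    have := hH.spectral_theorem
    simpa [Unitary.conjStarAlgAut_apply, star_eq_conjTranspose,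
      conjTranspose_eq_transpose_of_trivial, Function.comp_def] using this
  rw [he, ← smul_one_eq_diagonal, Matrix.mul_smul, Matrix.mul_one, Matrix.smul_mul, hV] at hS
  have := (hA.2 i j h.ne).mpr h
  rw [hS] at this
  simp [h.ne] at this

theorem isLeast_two (G : SimpleGraph (Fin n)) (i j : Fin n) (h : G.Adj i j)
    (M : Matrix (Fin n) (Fin n) ℤ) (hs : Mᵀ = M) (hp : ∀ i j, i ≠ j → (M i j ≠ 0 ↔ G.Adj i j))
    (a b : ℤ) (hq : M * M = (a + b) • M - (a * b) • 1) : IsLeast (counts G) 2 := by
  refine ⟨⟨(Int.castRingHom ℝ).mapMatrix M, ?_, le_antisymm ?_ (two_le G i j h _ ?_)⟩, ?_⟩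
  rotate_left 3
  · rintro k ⟨A, hA, rfl⟩; exact two_le G i j h A hA
  any_goals
    refine ⟨?_, fun i j hij => by simpa using hp i j hij⟩
    exact (congrArg (Int.castRingHom ℝ).mapMatrix hs :)
  set A := (Int.castRingHom ℝ).mapMatrix M
  have hH : A.IsHermitian := by
    rw [IsHermitian, conjTranspose_eq_transpose_of_trivial]
    exact (congrArg (Int.castRingHom ℝ).mapMatrix hs :)
  have h2 : A * A = (a + b) • A - (a * b) • 1 := by
    have := congrArg (Int.castRingHom ℝ).mapMatrix hq
    simpa only [map_mul, map_sub, map_zsmul, map_one] using this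
  refine (Set.ncard_le_ncard (t := {(a : ℝ), (b : ℝ)}) ?_).trans ?_
  · rw [hH.spectrum_real_eq_range_eigenvalues]
    rintro _ ⟨k, rfl⟩
    set u : Fin n → ℝ := (hH.eigenvectorBasis k).ofLp
    have hu : A *ᵥ u = hH.eigenvalues k • u := hH.mulVec_eigenvectorBasis k
    have u0 : u ≠ 0 := fun h => hH.eigenvectorBasis.orthonormal.ne_zero k (by ext j; exact congrFun h j)
    have h3 := congrArg (· *ᵥ u) h2
    simp only [← mulVec_mulVec, hu, mulVec_smul, sub_mulVec, smul_mulVec, one_mulVec] at h3
    have h4 : ((hH.eigenvalues k - a) * (hH.eigenvalues k - b)) • u = 0 := by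
      funext l
      have := congrFun h3 l
      simp only [Pi.smul_apply, Pi.sub_apply] at this
      simp only [smul_eq_mul, zsmul_eq_mul] at this
      push_cast at this
      simp only [Pi.smul_apply, smul_eq_mul, Pi.zero_apply]
      linear_combination this
    rcases mul_eq_zero.mp ((smul_eq_zero.mp h4).resolve_right u0) with h5 | h5
    · left; linarith
    · right; simp only [Set.mem_singleton_iff]; linarith
  · exact (Set.ncard_insert_le _ _).trans (by simp)

end Pool.Agent.H14.Q
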