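import Pool.Agent.H14.QDefs2
import Pool.Agent.H14.QTwo

set_option autoImplicit false

namespace Pool.Agent.H14.Q

open Matrix Polynomial Finset

variable {n : ℕ}

theorem herm {A : Matrix (Fin n) (Fin n) ℝ} (h : A.IsSymm) : A.IsHermitian := by
  rw [IsHermitian, conjTranspose_eq_transpose_of_trivial]; exact h

theorem quad_of_charpoly {A : Matrix (Fin n) (Fin n) ℝ} (h : A.IsSymm) (a b : ℝ) (p q : ℕ)
    (hc : A.charpoly = (X - C a) ^ p * (X - C b) ^ q) :
    A * A = (a + b) • A - (a * b) • 1 ∧ A.trace = p * a + q * b := by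
  have hH := herm h
  have hr := hH.roots_charpoly_eq_eigenvalues
  rw [hc, roots_mul (mul_ne_zero (pow_ne_zero _ (X_sub_C_ne_zero a)) (pow_ne_zero _ (X_sub_C_ne_zero b))),
    roots_pow, roots_pow, roots_X_sub_C, roots_X_sub_C] at hr
  constructor
  · have he : ∀ k, hH.eigenvalues k = a ∨ hH.eigenvalues k = b := by
      intro k
      have : hH.eigenvalues k ∈ p • ({a} : Multiset ℝ) + q • {b} := by
        rw [hr]; simp
      rcases Multiset.mem_add.mp this with h | h
      · exact Or.inl (Multiset.mem_singleton.mp (Multiset.mem_of_mem_nsmul h))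
      · exact Or.inr (Multiset.mem_singleton.mp (Multiset.mem_of_mem_nsmul h))
    let V : Matrix (Fin n) (Fin n) ℝ := hH.eigenvectorUnitary
    have hV : V * Vᵀ = 1 := by
      have := (hH.eigenvectorUnitary).2.2
      simpa [star_eq_conjTranspose, conjTranspose_eq_transpose_of_trivial] using this
    have hV' : Vᵀ * V = 1 := mul_eq_one_comm.mp hV
    have hS : A = V * diagonal hH.eigenvalues * Vᵀ := by
      have := hH.spectral_theorem
      simpa [Unitary.conjStarAlgAut_apply, star_eq_conjTranspose,
        conjTranspose_eq_transpose_of_trivial, Function.comp_def] using this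
    have hD : diagonal hH.eigenvalues * diagonal hH.eigenvalues =
        (a + b) • diagonal hH.eigenvalues - (a * b) • 1 := by
      ext i j
      by_cases hij : i = j
      · subst hij
        rcases he i with h | h <;> simp [h] <;> ring
      · simp [hij]
    generalize diagonal hH.eigenvalues = D at hS hD
    rw [hS]
    calc V * D * Vᵀ * (V * D * Vᵀ) = V * (D * (Vᵀ * V) * D) * Vᵀ := by simp only [Matrix.mul_assoc]
      _ = _ := by
        rw [hV', Matrix.mul_one, hD, Matrix.mul_sub, Matrix.sub_mul, Matrix.mul_smul, Matrix.smul_mul,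
          Matrix.mul_smul, Matrix.smul_mul, Matrix.mul_one, hV]
  · have := congrArg Multiset.sum hr
    rw [hH.trace_eq_sum_eigenvalues]
    simpa [Finset.sum, Multiset.sum_nsmul] using this.symm

theorem eig_of_quad {A : Matrix (Fin n) (Fin n) ℝ} (hH : A.IsHermitian) (a b : ℝ)
    (h2 : A * A = (a + b) • A - (a * b) • 1) (k : Fin n) :
    hH.eigenvalues k = a ∨ hH.eigenvalues k = b := by
  set u : Fin n → ℝ := (hH.eigenvectorBasis k).ofLp
  have hu : A *ᵥ u = hH.eigenvalues k • u := hH.mulVec_eigenvectorBasis k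
  have u0 : u ≠ 0 := fun h => hH.eigenvectorBasis.orthonormal.ne_zero k (by ext j; exact congrFun h j)
  have h3 := congrArg (· *ᵥ u) h2
  simp only [← mulVec_mulVec, hu, mulVec_smul, sub_mulVec, smul_mulVec, one_mulVec] at h3
  have h4 : ((hH.eigenvalues k - a) * (hH.eigenvalues k - b)) • u = 0 := by
    funext l
    have := congrFun h3 l
    simp only [Pi.smul_apply, Pi.sub_apply, smul_eq_mul, Pi.zero_apply] at this ⊢
    linear_combination this
  rcases mul_eq_zero.mp ((smul_eq_zero.mp h4).resolve_right u0) with h5 | h5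
  · left; linarith
  · right; linarith

theorem charpoly_of_quad {A : Matrix (Fin n) (Fin n) ℝ} (h : A.IsSymm) (a b : ℝ) (hab : a ≠ b)
    (h2 : A * A = (a + b) • A - (a * b) • 1) (k : ℕ) (hk : k ≤ n)
    (ht : A.trace = (n - k : ℝ) * a + k * b) : A.charpoly = (X - C a) ^ (n - k) * (X - C b) ^ k := by
  have hH := herm h
  have he := eig_of_quad hH a b h2
  set s := univ.filter fun i => hH.eigenvalues i = b
  have hc := card_filter_add_card_filter_not (s := univ) fun i => hH.eigenvalues i = b
  simp only [card_univ, Fintype.card_fin] at hc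
  change s.card + _ = _ at hc
  have e : A.charpoly = (X - C a) ^ (n - s.card) * (X - C b) ^ s.card := by
    rw [hH.charpoly_eq, ← prod_filter_mul_prod_filter_not univ fun i => hH.eigenvalues i = b, mul_comm]
    congr 1
    · rw [prod_congr rfl (g := fun _ => X - C a), prod_const]
      · congr 1; omega
      · intro i hi
        simp [(he i).resolve_right (mem_filter.mp hi).2]
    · rw [prod_congr rfl (g := fun _ => X - C b), prod_const]
      intro i hi
      simp [(mem_filter.mp hi).2]
  have h3 := (quad_of_charpoly h a b _ _ e).2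
  rw [ht, Nat.cast_sub (by omega)] at h3
  have : (s.card - k : ℝ) * (a - b) = 0 := by linear_combination h3
  have h4 : (s.card : ℝ) = k := by
    rcases mul_eq_zero.mp this with h | h
    · linarith
    · exact absurd (sub_eq_zero.mp h) hab
  have h5 : s.card = k := by exact_mod_cast h4
  rw [e, h5]

theorem isLeast_of_quad (G : SimpleGraph (Fin n)) (i j : Fin n) (h : G.Adj i j)
    {A : Matrix (Fin n) (Fin n) ℝ} (hA : InS G A) (a b : ℝ)
    (h2 : A * A = (a + b) • A - (a * b) • 1) : IsLeast (counts G) 2 := by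
  refine ⟨⟨A, hA, le_antisymm ?_ (two_le G i j h _ hA)⟩, ?_⟩
  · refine (Set.ncard_le_ncard (t := {a, b}) ?_).trans ?_
    · rw [(herm hA.1).spectrum_real_eq_range_eigenvalues]
      rintro _ ⟨k, rfl⟩
      exact eig_of_quad _ a b h2 k
    · exact (Set.ncard_insert_le _ _).trans (by simp)
  · rintro k ⟨A, hA, rfl⟩; exact two_le G i j h A hA

theorem inS_cast (G : SimpleGraph (Fin n)) (M : Matrix (Fin n) (Fin n) ℤ) (hs : Mᵀ = M)
    (hp : ∀ i j, i ≠ j → (M i j ≠ 0 ↔ G.Adj i j)) : InS G ((Int.castRingHom ℝ).mapMatrix M) :=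
  ⟨(congrArg (Int.castRingHom ℝ).mapMatrix hs :), fun i j hij => by simpa using hp i j hij⟩

theorem diag_sum (G : SimpleGraph (Fin n)) {A : Matrix (Fin n) (Fin n) ℝ} (hA : InS G A) (s t : ℝ)
    (h2 : A * A = s • A - t • 1) (u v : Fin n) (huv : G.Adj u v)
    (hc : ∀ w, ¬ (G.Adj u w ∧ G.Adj w v)) : A u u + A v v = s := by
  have h3 := congrFun (congrFun h2 u) v
  have h0 := (hA.2 u v huv.ne).mpr huv
  rw [Matrix.mul_apply, Finset.sum_eq_add u v huv.ne] at h3
  · simp [huv.ne] at h3
    have : (A u u + A v v - s) * A u v = 0 := by linear_combination h3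
    linarith [(mul_eq_zero.mp this).resolve_right h0]
  · intro w _ hw
    by_contra hne
    exact hc w ⟨(hA.2 u w hw.1.symm).mp (left_ne_zero_of_mul hne),
      (hA.2 w v hw.2).mp (right_ne_zero_of_mul hne)⟩
  · simp
  · simp

end Pool.Agent.H14.Q
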