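import Mathlib
import Pool.Agent.H14.QDiff

set_option autoImplicit false

namespace Pool.Agent.H14.QRatio

open Finset Pool.Agent.H14.QDiff PowerSeries

/-- `₂φ₁(a,b;c;q,z)` as a formal power series in `z` -/
noncomputable def phi {K : Type*} [Field K] (a b c q : K) : K⟦X⟧ :=
  PowerSeries.mk fun n => poch a q n * poch b q n / (poch q q n * poch c q n)

/-- `D_n = ∏_{k=0}^n (1 - c q^k)^{⌊(n+1)/(k+1)⌋}` -/
def Dn {K : Type*} [CommRing K] (c q : K) (n : ℕ) : K :=
  ∏ k ∈ range (n + 1), (1 - c * q ^ k) ^ ((n + 1) / (k + 1))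

section
variable {K : Type*} [Field K] (a b c q : K) (hq : ∀ n, 1 - q * q ^ n ≠ 0)
  (hc : ∀ n, 1 - c * q ^ n ≠ 0)

lemma poch_ne (x : K) (h : ∀ n, 1 - x * q ^ n ≠ 0) (n : ℕ) : poch x q n ≠ 0 :=
  prod_ne_zero_iff.2 fun k _ => h k

lemma ps (x : K) (n : ℕ) : poch x q (n + 1) = (1 - x) * poch (x * q) q n := by
  rw [poch_succ', mul_comm q x]

include hc in
lemma hc' : ∀ n, 1 - c * q * q ^ n ≠ 0 := fun n => by
  have := hc (n + 1); rwa [pow_succ', ← mul_assoc] at this

include hc in
lemma hc0 : 1 - c ≠ 0 := by simpa using hc 0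

include hq hc in
lemma rel1 : phi a b c q - rescale q (phi a b c q)
    = C ((1 - a) * (1 - b)) * X * (C (1 - c)⁻¹ * phi (a * q) (b * q) (c * q) q) := by
  ext n
  rw [mul_assoc, coeff_C_mul]
  cases n with
  | zero =>
    simp only [map_sub, coeff_rescale, phi, coeff_mk, poch_zero, coeff_zero_X_mul]
    simp
  | succ n =>
    rw [coeff_succ_X_mul, coeff_C_mul]
    simp only [map_sub, coeff_rescale, phi, coeff_mk]
    rw [ps q a, ps q b, ps q c, poch_succ q]
    have := hq n
    have := hc0 c q hc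
    have := poch_ne q q hq n
    have := poch_ne q (c * q) (hc' c q hc) n
    field_simp
    ring

include hq hc in
lemma rel2 : (C (1 - c)⁻¹ * phi (a * q) (b * q) (c * q) q)
      - C c * rescale q (C (1 - c)⁻¹ * phi (a * q) (b * q) (c * q) q)
    = phi a b c q + X * (C (a + b - a * b) * (C (1 - c)⁻¹ * phi (a * q) (b * q) (c * q) q)
      - C (a * b * q) * rescale q (C (1 - c)⁻¹ * phi (a * q) (b * q) (c * q) q)) := by
  ext n
  have h0 := hc0 c q hc
  cases n with
  | zero =>
    simp only [map_sub, map_add, coeff_C_mul, coeff_rescale, phi, coeff_mk, poch_zero,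
      coeff_zero_X_mul]
    field_simp; ring
  | succ n =>
    rw [map_add, coeff_succ_X_mul, map_sub (coeff n), coeff_C_mul (a := a + b - a * b)]
    simp only [map_sub, coeff_C_mul, coeff_rescale, phi, coeff_mk]
    rw [ps q a, ps q b, ps q c, poch_succ q, poch_succ (a * q), poch_succ (b * q),
      poch_succ (c * q)]
    have := hq n
    have := hc' c q hc n
    have := poch_ne q q hq n
    have := poch_ne q (c * q) (hc' c q hc) n
    field_simp
    ring

include hq hc in
lemma rel3 : (C (1 - c)⁻¹ * phi (a * q) b (c * q) q)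
      - C c * rescale q (C (1 - c)⁻¹ * phi (a * q) b (c * q) q)
    = phi a b c q + X * (C (a * (1 - b)) * (C (1 - c)⁻¹ * phi (a * q) (b * q) (c * q) q)) := by
  ext n
  have h0 := hc0 c q hc
  cases n with
  | zero =>
    simp only [map_sub, map_add, coeff_C_mul, coeff_rescale, phi, coeff_mk, poch_zero,
      coeff_zero_X_mul]
    field_simp; ring
  | succ n =>
    rw [map_add, coeff_succ_X_mul]
    simp only [map_sub, coeff_C_mul, coeff_rescale, phi, coeff_mk]
    rw [ps q a, ps q b, ps q c, poch_succ q, poch_succ (a * q), poch_succ (c * q)]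
    have := hq n
    have := hc' c q hc n
    have := poch_ne q q hq n
    have := poch_ne q (c * q) (hc' c q hc) n
    field_simp
    ring

/-- `γ/(1-c)` -/
noncomputable def hh : K⟦X⟧ := C (1 - c)⁻¹ * (phi (a * q) (b * q) (c * q) q * (phi a b c q)⁻¹)
/-- `γ'/(1-c)` -/
noncomputable def hh' : K⟦X⟧ := C (1 - c)⁻¹ * (phi (a * q) b (c * q) q * (phi a b c q)⁻¹)

lemma phi_inv : (phi a b c q)⁻¹ * phi a b c q = 1 :=
  PowerSeries.inv_mul_cancel _ (by simp [phi, ← coeff_zero_eq_constantCoeff_apply, poch_zero])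

lemma phi_ne : phi a b c q ≠ 0 := by
  intro h; have := phi_inv a b c q; rw [h, mul_zero] at this; exact zero_ne_one this

lemma u_eq : C (1 - c)⁻¹ * phi (a * q) (b * q) (c * q) q = hh a b c q * phi a b c q := by
  unfold hh; rw [mul_assoc, mul_assoc, phi_inv, mul_one]

lemma w_eq : C (1 - c)⁻¹ * phi (a * q) b (c * q) q = hh' a b c q * phi a b c q := by
  unfold hh'; rw [mul_assoc, mul_assoc, phi_inv, mul_one]

include hq hc in
lemma ric : hh a b c q - C c * rescale q (hh a b c q)
    = 1 + X * (C (a + b - a * b) * hh a b c q - C (a * b * q) * rescale q (hh a b c q)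
      - C (c * ((1 - a) * (1 - b))) * (hh a b c q * rescale q (hh a b c q))
      + C (a * b * q * ((1 - a) * (1 - b))) * (X * (hh a b c q * rescale q (hh a b c q)))) := by
  have r1 := rel1 a b c q hq hc
  have r2 := rel2 a b c q hq hc
  rw [u_eq] at r1 r2
  rw [map_mul (rescale q)] at r2
  apply mul_right_cancel₀ (phi_ne a b c q)
  simp only [map_mul] at *
  linear_combination r2 - (C c - X * (C a * C b * C q)) * rescale q (hh a b c q) * r1

include hq hc in
lemma ric' : hh' a b c q - C c * rescale q (hh' a b c q)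
    = 1 + X * (C (a * (1 - b)) * hh a b c q
      - C (c * ((1 - a) * (1 - b))) * (hh a b c q * rescale q (hh' a b c q))) := by
  have r1 := rel1 a b c q hq hc
  have r2 := rel3 a b c q hq hc
  rw [u_eq] at r1 r2
  rw [w_eq, map_mul (rescale q)] at r2
  apply mul_right_cancel₀ (phi_ne a b c q)
  simp only [map_mul] at *
  linear_combination r2 - C c * rescale q (hh' a b c q) * r1

/-- `D_n / (1 - c q^n)` -/
def En (n : ℕ) : K := ∏ k ∈ range n, (1 - c * q ^ k) ^ ((n + 1) / (k + 1))

lemma Dn_eq (n : ℕ) : Dn c q n = En c q n * (1 - c * q ^ n) := by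
  rw [Dn, prod_range_succ, Nat.div_self (by omega), pow_one, En]

lemma Dn_ext (i n : ℕ) (h : i + 1 ≤ n) :
    Dn c q i = ∏ k ∈ range n, (1 - c * q ^ k) ^ ((i + 1) / (k + 1)) := by
  unfold Dn
  apply prod_subset (range_subset_range.2 h)
  intro k _ hk
  rw [Nat.div_eq_of_lt (by simp at hk; omega), pow_zero]

variable (S : Subring K) (ha : a ∈ S) (hb : b ∈ S) (hcS : c ∈ S) (hqS : q ∈ S)

include hcS hqS in
lemma prod_in (n : ℕ) (e : ℕ → ℕ) : ∏ k ∈ range n, (1 - c * q ^ k) ^ (e k) ∈ S :=
  prod_mem fun _ _ => pow_mem (sub_mem (one_mem _) (mul_mem hcS (pow_mem hqS _))) _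

include hcS hqS in
lemma two (n i j : ℕ) (h : i + j + 1 ≤ n) (x y : K) (hx : Dn c q i * x ∈ S)
    (hy : Dn c q j * y ∈ S) : En c q n * (x * y) ∈ S := by
  have : En c q n = (∏ k ∈ range n, (1 - c * q ^ k) ^
      ((n + 1) / (k + 1) - ((i + 1) / (k + 1) + (j + 1) / (k + 1)))) * (Dn c q i * Dn c q j) := by
    rw [Dn_ext c q i n (by omega), Dn_ext c q j n (by omega), ← prod_mul_distrib,
      ← prod_mul_distrib, En]
    refine prod_congr rfl fun k _ => ?_
    rw [← pow_add, ← pow_add, Nat.sub_add_cancel]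
    exact Nat.div_add_div_le_add_div.trans (Nat.div_le_div_right (by omega))
  rw [this, mul_assoc, mul_mul_mul_comm]
  exact mul_mem (prod_in c q S hcS hqS n _) (mul_mem hx hy)

include hcS hqS in
lemma one (n i : ℕ) (h : i + 1 ≤ n) (x : K) (hx : Dn c q i * x ∈ S) : En c q n * x ∈ S := by
  have : En c q n = (∏ k ∈ range n, (1 - c * q ^ k) ^
      ((n + 1) / (k + 1) - (i + 1) / (k + 1))) * Dn c q i := by
    rw [Dn_ext c q i n (by omega), ← prod_mul_distrib, En]
    refine prod_congr rfl fun k _ => ?_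
    rw [← pow_add, Nat.sub_add_cancel]
    exact Nat.div_le_div_right (by omega)
  rw [this, mul_assoc]
  exact mul_mem (prod_in c q S hcS hqS n _) hx

include hcS hqS in
lemma conv (n m : ℕ) (h : m + 1 ≤ n) (f g : K⟦X⟧) (hf : ∀ i ≤ m, Dn c q i * coeff i f ∈ S)
    (hg : ∀ i ≤ m, Dn c q i * coeff i g ∈ S) : En c q n * coeff m (f * rescale q g) ∈ S := by
  rw [coeff_mul, mul_sum]
  refine sum_mem fun p hp => ?_
  rw [Finset.HasAntidiagonal.mem_antidiagonal] at hp
  apply two c q S hcS hqS n p.1 p.2 (by omega) _ _ (hf _ (by omega))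
  rw [coeff_rescale, mul_left_comm]
  exact mul_mem (pow_mem hqS _) (hg _ (by omega))

lemma lhs_coeff (f : K⟦X⟧) (n : ℕ) :
    Dn c q n * coeff n f = En c q n * coeff n (f - C c * rescale q f) := by
  rw [Dn_eq, map_sub, coeff_C_mul, coeff_rescale]; ring

include hq hc ha hb hcS hqS in
lemma main (n : ℕ) : Dn c q n * coeff n (hh a b c q) ∈ S := by
  induction n using Nat.strong_induction_on with
  | _ n ih =>
    rw [lhs_coeff, ric a b c q hq hc]
    cases n with
    | zero => simp [En]
    | succ n =>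
      have h1 : (1 : K) ∈ S := one_mem _
      have e1 := one c q S hcS hqS (n + 1) n le_rfl _ (ih n (by omega))
      have e2 := conv c q S hcS hqS (n + 1) n le_rfl _ _ (fun i hi => ih i (by omega))
        (fun i hi => ih i (by omega))
      have e3 : En c q (n + 1) * coeff n (X * (hh a b c q * rescale q (hh a b c q))) ∈ S := by
        cases n with
        | zero => simp
        | succ n =>
          rw [coeff_succ_X_mul]
          exact conv c q S hcS hqS (n + 2) n (by omega) _ _ (fun i hi => ih i (by omega))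
            (fun i hi => ih i (by omega))
      rw [map_add, coeff_succ_X_mul, coeff_one, if_neg (by omega), zero_add, map_add, map_sub,
        map_sub, coeff_C_mul, coeff_C_mul, coeff_C_mul, coeff_C_mul, coeff_rescale]
      have m1 : a + b - a * b - a * b * q * q ^ n ∈ S :=
        sub_mem (sub_mem (add_mem ha hb) (mul_mem ha hb))
          (mul_mem (mul_mem (mul_mem ha hb) hqS) (pow_mem hqS _))
      have m2 : (1 - a) * (1 - b) ∈ S := mul_mem (sub_mem h1 ha) (sub_mem h1 hb)
      convert add_mem (sub_mem (mul_mem m1 e1) (mul_mem (mul_mem hcS m2) e2))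
        (mul_mem (mul_mem (mul_mem (mul_mem ha hb) hqS) m2) e3) using 1
      ring

include hq hc ha hb hcS hqS in
lemma main' (n : ℕ) : Dn c q n * coeff n (hh' a b c q) ∈ S := by
  induction n using Nat.strong_induction_on with
  | _ n ih =>
    rw [lhs_coeff, ric' a b c q hq hc]
    cases n with
    | zero => simp [En]
    | succ n =>
      have h1 : (1 : K) ∈ S := one_mem _
      have M := main a b c q hq hc S ha hb hcS hqS
      have e1 := one c q S hcS hqS (n + 1) n le_rfl _ (M n)
      have e2 := conv c q S hcS hqS (n + 1) n le_rfl _ _ (fun i _ => M i)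
        (fun i hi => ih i (by omega))
      rw [map_add, coeff_succ_X_mul, coeff_one, if_neg (by omega), zero_add, map_sub,
        coeff_C_mul, coeff_C_mul]
      have m2 : (1 - a) * (1 - b) ∈ S := mul_mem (sub_mem h1 ha) (sub_mem h1 hb)
      convert sub_mem (mul_mem (mul_mem ha (sub_mem h1 hb)) e1)
        (mul_mem (mul_mem hcS m2) e2) using 1
      ring

end

/-- `ℚ(a,b,c,q)` -/
abbrev KK := FractionRing (MvPolynomial (Fin 4) ℚ)

/-- the indeterminates `a = v 0`, `b = v 1`, `c = v 2`, `q = v 3` -/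
noncomputable def v (i : Fin 4) : KK := algebraMap (MvPolynomial (Fin 4) ℚ) KK (MvPolynomial.X i)

lemma v_ne (i : Fin 4) (n : ℕ) : 1 - v i * v 3 ^ n ≠ 0 := by
  intro h
  have h2 : algebraMap (MvPolynomial (Fin 4) ℚ) KK
      (1 - MvPolynomial.X i * MvPolynomial.X 3 ^ n) = 0 := by
    simpa [v] using h
  rw [map_eq_zero_iff _ (IsFractionRing.injective _ _)] at h2
  have := congrArg (MvPolynomial.constantCoeff) h2
  simp at this

/-- the image of `ℤ[a,b,c,q]` -/
noncomputable def SS : Subring KK := (MvPolynomial.aeval (R := ℤ) v).toRingHom.range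

lemma v_mem (i : Fin 4) : v i ∈ SS := ⟨MvPolynomial.X i, by simp⟩

end Pool.Agent.H14.QRatio
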