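import Mathlib

set_option autoImplicit false

namespace Pool.Agent.H14.RcgDefs

/-- `G` has no induced cycle of length at least four. -/
def Chordal {V : Type} (G : SimpleGraph V) : Prop :=
  ∀ k : ℕ, 4 ≤ k → IsEmpty (SimpleGraph.cycleGraph k ↪g G)

/-- `K, K'` meet, and every path from `K \ K'` to `K' \ K` meets `K ∩ K'`. -/
def Separating {V : Type} (G : SimpleGraph V) (K K' : Set V) : Prop :=
  (K ∩ K').Nonempty ∧ ∀ u ∈ K \ K', ∀ v ∈ K' \ K, ∀ p : G.Walk u v, p.IsPath →
    ∃ w ∈ p.support, w ∈ K ∩ K'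

/-- The reduced clique graph: vertices are the maximal cliques, distinct ones being adjacent when
they form a separating pair. -/
def reducedCliqueGraph {V : Type} (G : SimpleGraph V) :
    SimpleGraph {K : Set V // Maximal G.IsClique K} where
  Adj K K' := K ≠ K' ∧ Separating G K.1 K'.1
  symm := ⟨by
    rintro K K' ⟨h1, h2, h3⟩
    refine ⟨h1.symm, by rwa [Set.inter_comm], fun u hu v hv p hp => ?_⟩
    obtain ⟨w, hw1, hw2⟩ := h3 v hv u hu p.reverse hp.reverse
    exact ⟨w, by simpa using hw1, by rwa [Set.inter_comm]⟩⟩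
  loopless := ⟨fun _ h => h.1 rfl⟩

end Pool.Agent.H14.RcgDefs
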