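import Mathlib
import Pool.Agent.H14.Spec

set_option autoImplicit false

namespace Pool.Agent.H14.Rho

open Matrix

open Classical in
/-- largest eigenvalue of the adjacency matrix -/
noncomputable def rho {n : ℕ} (G : SimpleGraph (Fin n)) : ℝ :=
  sSup {t : ℝ | ∃ x : Fin n → ℝ, x ≠ 0 ∧ G.adjMatrix ℝ *ᵥ x = t • x}

theorem ray {m : Type*} [Fintype m] [DecidableEq m] (A : Matrix m m ℝ) (hA : A.IsHermitian)
    (y : m → ℝ) :
    y ⬝ᵥ (A *ᵥ y) ≤ sSup {t : ℝ | ∃ x : m → ℝ, x ≠ 0 ∧ A *ᵥ x = t • x} * (y ⬝ᵥ y) := by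
  apply Spec.rayleigh_le hA
  intro i
  apply le_csSup
  · obtain ⟨M, hM⟩ := (Set.finite_range hA.eigenvalues).bddAbove
    refine ⟨M, ?_⟩
    rintro t ⟨x, hx, ht⟩
    have h1 := Spec.rayleigh_le hA M (fun j => hM ⟨j, rfl⟩) x
    rw [ht, dotProduct_smul, smul_eq_mul] at h1
    have h2 : 0 < x ⬝ᵥ x := by
      rcases (Finset.sum_nonneg fun j _ => mul_self_nonneg (x j) : 0 ≤ x ⬝ᵥ x).lt_or_eq with h | h
      · exact h
      · exact absurd (dotProduct_self_eq_zero.1 h.symm) hx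
    exact le_of_mul_le_mul_right h1 h2
  · refine ⟨_, ?_, hA.mulVec_eigenvectorBasis i⟩
    intro h
    have := hA.eigenvectorBasis.orthonormal.ne_zero i
    apply this
    ext j
    exact congrFun h j

end Pool.Agent.H14.Rho
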