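import Pool.Agent.H14.RicciDefs
import Pool.Agent.H14.Rho

set_option autoImplicit false

namespace Pool.Agent.H14.Ricci

open Matrix

theorem lamMax_le {m : Type} [Fintype m] [DecidableEq m] (A : Matrix m m ℝ) (h : m → ℝ) (μ : ℝ)
    (hμ : 0 ≤ μ) (hpos : ∀ i, 0 < h i) (hoff : ∀ i j, i ≠ j → 0 ≤ A i j)
    (hle : ∀ i, (A *ᵥ h) i ≤ μ * h i) : lamMax A ≤ μ := by
  apply Real.sSup_le _ hμ
  rintro t ⟨x, hx, ht⟩
  have key : ∀ x : m → ℝ, A *ᵥ x = t • x → (∃ i, 0 < x i) → t ≤ μ := by
    intro x ht ⟨i0, hi0⟩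
    obtain ⟨i, -, hi⟩ := Finset.exists_max_image Finset.univ (fun i => x i / h i) ⟨i0, Finset.mem_univ _⟩
    set c := x i / h i with hc
    have hc0 : 0 < c := lt_of_lt_of_le (div_pos hi0 (hpos i0)) (hi i0 (Finset.mem_univ _))
    have hxi : x i = c * h i := by rw [hc, div_mul_cancel₀ _ (hpos i).ne']
    have h1 : (A *ᵥ x) i ≤ c * (A *ᵥ h) i := by
      simp only [mulVec, dotProduct, Finset.mul_sum]
      refine Finset.sum_le_sum fun j _ => ?_
      by_cases hij : i = j
      · subst hij; rw [hxi]; ring_nf; rfl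
      · have := (div_le_iff₀ (hpos j)).mp (hi j (Finset.mem_univ _))
        nlinarith [hoff i j hij]
    rw [ht] at h1
    simp only [Pi.smul_apply, smul_eq_mul] at h1
    have h2 := mul_le_mul_of_nonneg_left (hle i) hc0.le
    have h3 : 0 < c * h i := mul_pos hc0 (hpos i)
    rw [hxi] at h1
    nlinarith
  by_cases hp : ∃ i, 0 < x i
  · exact key x ht hp
  · apply key (-x) (by rw [mulVec_neg, ht, smul_neg])
    by_contra hn
    apply hx
    funext i
    have h1 := not_lt.mp (fun h => hp ⟨i, h⟩)
    have h2 := not_lt.mp (fun h => hn ⟨i, h⟩)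
    simp only [Pi.neg_apply] at h2
    simp only [Pi.zero_apply]
    linarith

theorem le_lamMax {m : Type} [Fintype m] [DecidableEq m] [Nonempty m] (A : Matrix m m ℝ)
    (hA : A.IsHermitian) (h : m → ℝ) (μ : ℝ) (hpos : ∀ i, 0 < h i)
    (hle : ∀ i, μ * h i ≤ (A *ᵥ h) i) : μ ≤ lamMax A := by
  have h1 := Rho.ray A hA h
  have h2 : μ * (h ⬝ᵥ h) ≤ h ⬝ᵥ (A *ᵥ h) := by
    simp only [dotProduct, Finset.mul_sum]
    refine Finset.sum_le_sum fun i _ => ?_
    have := mul_le_mul_of_nonneg_left (hle i) (hpos i).le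
    nlinarith
  have h3 : 0 < h ⬝ᵥ h := Finset.sum_pos (fun i _ => mul_pos (hpos i) (hpos i)) Finset.univ_nonempty
  exact le_of_mul_le_mul_right (h2.trans h1) h3

variable {V : Type} [Fintype V] [DecidableEq V]

theorem ricci_herm (G : SimpleGraph V) [DecidableRel G.Adj] : (ricci G).IsHermitian := by
  ext e e'
  simp only [conjTranspose_apply, star_trivial, ricci]
  by_cases h : e = e'
  · subst h; rfl
  · rw [if_neg h, if_neg (Ne.symm h)]
    simp only [and_comm]

theorem ricci_off (G : SimpleGraph V) [DecidableRel G.Adj] (e e' : G.edgeSet) (h : e ≠ e') :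
    0 ≤ ricci G e e' := by
  rw [ricci, if_neg h]
  exact Finset.sum_nonneg fun x _ => by positivity

/-- edge weights given by vertex potentials -/
def pot (G : SimpleGraph V) (φ : V → ℝ) : G.edgeSet → ℝ :=
  fun e => Sym2.lift ⟨fun x y => φ x + φ y, fun _ _ => add_comm _ _⟩ e.1

theorem sum_inc (G : SimpleGraph V) [DecidableRel G.Adj] (φ : V → ℝ) (x : V) :
    ∑ e : G.edgeSet, (if x ∈ e.1 then pot G φ e else 0) =
      (G.degree x : ℝ) * φ x + ∑ z ∈ G.neighborFinset x, φ z := by
  rw [← Finset.sum_filter, ← SimpleGraph.card_neighborFinset_eq_degree, ← nsmul_eq_mul,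
    ← Finset.sum_const, ← Finset.sum_add_distrib]
  symm
  refine Finset.sum_bij (fun z hz => ⟨s(x, z), by simpa using hz⟩) ?_ ?_ ?_ ?_
  · intro z hz; simp
  · intro z hz z' hz' h
    have := congrArg Subtype.val h
    exact Sym2.congr_right.mp this
  · rintro ⟨e, he⟩ hx
    simp only [Finset.mem_filter, Finset.mem_univ, true_and] at hx
    obtain ⟨z, rfl⟩ := Sym2.mem_iff_exists.mp hx
    exact ⟨z, by simpa using he, rfl⟩
  · intro z hz; rfl

theorem ricci_pot (G : SimpleGraph V) [DecidableRel G.Adj] (φ : V → ℝ) (x y : V) (h : G.Adj x y) :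
    (ricci G *ᵥ pot G φ) ⟨s(x, y), h⟩ =
      ((G.degree x : ℝ) * φ x + ∑ z ∈ G.neighborFinset x, φ z - 2 * (φ x + φ y)) / G.degree x +
      ((G.degree y : ℝ) * φ y + ∑ z ∈ G.neighborFinset y, φ z - 2 * (φ x + φ y)) / G.degree y := by
  have hf : Finset.univ.filter (fun z => z ∈ s(x, y)) = {x, y} := by
    ext z; simp
  have e1 : ∀ e' : G.edgeSet, ricci G ⟨s(x, y), h⟩ e' =
      ((if x ∈ e'.1 then 1 else 0) - (if e' = ⟨s(x, y), h⟩ then 2 else 0)) / (G.degree x : ℝ) +
      ((if y ∈ e'.1 then 1 else 0) - (if e' = ⟨s(x, y), h⟩ then 2 else 0)) / (G.degree y : ℝ) := by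
    intro e'
    unfold ricci
    by_cases he : e' = ⟨s(x, y), h⟩
    · subst he
      simp only [if_true, hf, Finset.sum_pair h.ne, Sym2.mem_mk_left, Sym2.mem_mk_right]
      ring
    · rw [if_neg (Ne.symm he), if_neg he, ← Finset.filter_filter, hf, Finset.sum_filter,
        Finset.sum_pair h.ne]
      split_ifs <;> simp
  rw [← sum_inc, ← sum_inc]
  have e2 : ∑ e' : G.edgeSet, (if e' = ⟨s(x, y), h⟩ then 2 else 0) * pot G φ e' =
      2 * (φ x + φ y) := by
    simp only [ite_mul, zero_mul, Finset.sum_ite_eq', Finset.mem_univ, if_true]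
    rfl
  rw [← e2, ← Finset.sum_sub_distrib, ← Finset.sum_sub_distrib, Finset.sum_div, Finset.sum_div,
    ← Finset.sum_add_distrib]
  simp only [mulVec, dotProduct, e1]
  refine Finset.sum_congr rfl fun e' _ => ?_
  split_ifs <;> ring

/-- rooted tree from a parent map -/
def ptree (r : V) (par : V → V) (lev : V → ℕ) (hl : ∀ x, x ≠ r → lev (par x) + 1 = lev x) :
    SimpleGraph V where
  Adj x y := (x ≠ r ∧ par x = y) ∨ (y ≠ r ∧ par y = x)
  symm := ⟨fun _ _ h => h.symm⟩
  loopless := ⟨fun x h => by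
    have h' : x ≠ r ∧ par x = x := by rcases h with h | h <;> exact h
    have := hl x h'.1
    rw [h'.2] at this
    omega⟩

instance (r : V) (par : V → V) (lev : V → ℕ) (hl : ∀ x, x ≠ r → lev (par x) + 1 = lev x) :
    DecidableRel (ptree r par lev hl).Adj := fun x y =>
  inferInstanceAs (Decidable ((x ≠ r ∧ par x = y) ∨ (y ≠ r ∧ par y = x)))

theorem ptree_tree (r : V) (par : V → V) (lev : V → ℕ)
    (hl : ∀ x, x ≠ r → lev (par x) + 1 = lev x) : (ptree r par lev hl).IsTree := by
  rw [SimpleGraph.isTree_iff_connected_and_card]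
  constructor
  · have : ∀ k x, lev x = k → (ptree r par lev hl).Reachable x r := by
      intro k
      induction k with
      | zero =>
        intro x hx
        by_cases h : x = r
        · rw [h]
        · have := hl x h; omega
      | succ k ih =>
        intro x hx
        by_cases h : x = r
        · rw [h]
        · have h1 : (ptree r par lev hl).Adj x (par x) := Or.inl ⟨h, rfl⟩
          exact h1.reachable.trans (ih _ (by have := hl x h; omega))
    have hne : Nonempty V := ⟨r⟩
    exact ⟨fun x y => (this _ x rfl).trans (this _ y rfl).symm⟩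
  · have : Nat.card {x // x ≠ r} = Nat.card (ptree r par lev hl).edgeSet := by
      refine Nat.card_eq_of_bijective
        (fun x => ⟨s(x.1, par x.1), (Or.inl ⟨x.2, rfl⟩ : (ptree r par lev hl).Adj _ _)⟩) ⟨?_, ?_⟩
      · rintro ⟨x, hx⟩ ⟨y, hy⟩ h
        have h := congrArg Subtype.val h
        rcases Sym2.eq_iff.mp h with h | h
        · exact Subtype.ext h.1
        · have h1 := hl x hx
          have h2 := hl y hy
          dsimp only at h
          rw [h.2] at h1
          rw [← h.1] at h2
          omega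
      · rintro ⟨e, he⟩
        induction e using Sym2.ind with
        | _ x y =>
          rcases he with h | h
          · exact ⟨⟨x, h.1⟩, Subtype.ext (by simp [h.2])⟩
          · exact ⟨⟨y, h.1⟩, Subtype.ext (by simp [h.2])⟩
    rw [← this, Nat.card_eq_fintype_card, Nat.card_eq_fintype_card, Fintype.card_subtype_compl,
      Fintype.card_subtype_eq]
    have : 0 < Fintype.card V := Fintype.card_pos_iff.mpr ⟨r⟩
    omega

theorem ptree_sum (r : V) (par : V → V) (lev : V → ℕ)
    (hl : ∀ x, x ≠ r → lev (par x) + 1 = lev x) (f : ℕ → ℝ) (x : V) :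
    ∑ z ∈ (ptree r par lev hl).neighborFinset x, f (lev z) =
      (if x = r then 0 else f (lev x - 1)) +
        ((Finset.univ.filter (fun z => z ≠ r ∧ par z = x)).card : ℝ) * f (lev x + 1) := by
  have hc : ∑ z ∈ Finset.univ.filter (fun z => z ≠ r ∧ par z = x), f (lev z) =
      ((Finset.univ.filter (fun z => z ≠ r ∧ par z = x)).card : ℝ) * f (lev x + 1) := by
    rw [← nsmul_eq_mul, ← Finset.sum_const]
    refine Finset.sum_congr rfl fun z hz => ?_
    simp only [Finset.mem_filter, Finset.mem_univ, true_and] at hz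
    rw [← hl z hz.1, hz.2]
  by_cases h : x = r
  · rw [if_pos h, zero_add, ← hc]
    refine Finset.sum_congr ?_ fun _ _ => rfl
    ext z
    simp [ptree, h]
  · rw [if_neg h, ← hc]
    have : (ptree r par lev hl).neighborFinset x =
        insert (par x) (Finset.univ.filter (fun z => z ≠ r ∧ par z = x)) := by
      ext z
      simp [ptree, h, eq_comm]
    rw [this, Finset.sum_insert]
    · have := hl x h
      congr 2
      omega
    · simp only [Finset.mem_filter, Finset.mem_univ, true_and, not_and]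
      intro h1 h2
      have h3 := hl x h
      have h4 := hl _ h1
      rw [h2] at h4
      omega

theorem attach_some (G : SimpleGraph V) [DecidableRel G.Adj] (v x : V) (φ : Option V → ℝ) :
    ∑ z ∈ (attach G v).neighborFinset (some x), φ z =
      (if x = v then φ none else 0) + ∑ z ∈ G.neighborFinset x, φ (some z) := by
  rw [SimpleGraph.neighborFinset_eq_filter, SimpleGraph.neighborFinset_eq_filter,
    Finset.sum_filter, Finset.sum_filter, Fintype.sum_option]
  rfl

theorem attach_none (G : SimpleGraph V) [DecidableRel G.Adj] (v : V) (φ : Option V → ℝ) :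
    ∑ z ∈ (attach G v).neighborFinset none, φ z = φ (some v) := by
  rw [SimpleGraph.neighborFinset_eq_filter, Finset.sum_filter, Fintype.sum_option]
  have : ∀ z, (attach G v).Adj none (some z) ↔ z = v := fun z => Iff.rfl
  have h2 : ¬ (attach G v).Adj none none := fun h => h
  simp [this, h2]

theorem degree_eq_sum (G : SimpleGraph V) [DecidableRel G.Adj] (x : V) :
    (G.degree x : ℝ) = ∑ _z ∈ G.neighborFinset x, (1 : ℝ) := by
  simp

end Pool.Agent.H14.Ricci
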