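import Mathlib

set_option autoImplicit false

namespace Pool.Agent.H14.Ricci

open Matrix

variable {V : Type} [Fintype V] [DecidableEq V]

/-- The Ricci matrix, indexed by edges. -/
noncomputable def ricci (G : SimpleGraph V) [DecidableRel G.Adj] : Matrix G.edgeSet G.edgeSet ℝ :=
  fun e e' =>
    if e = e' then -∑ x ∈ Finset.univ.filter (fun x => x ∈ e.1), 1 / (G.degree x : ℝ)
    else ∑ x ∈ Finset.univ.filter (fun x => x ∈ e.1 ∧ x ∈ e'.1), 1 / (G.degree x : ℝ)

/-- The largest eigenvalue of a real square matrix. -/
noncomputable def lamMax {m : Type} [Fintype m] (A : Matrix m m ℝ) : ℝ :=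
  sSup {t : ℝ | ∃ x : m → ℝ, x ≠ 0 ∧ A *ᵥ x = t • x}

/-- Attach a new leaf `none` at the vertex `v`. -/
def attach (G : SimpleGraph V) (v : V) : SimpleGraph (Option V) where
  Adj
    | some a, some b => G.Adj a b
    | some a, none => a = v
    | none, some b => b = v
    | none, none => False
  symm := ⟨by
    rintro (_ | a) (_ | b) h
    · exact h
    · exact h
    · exact h
    · exact h.symm⟩
  loopless := ⟨by
    rintro (_ | a) h
    · exact h
    · exact h.ne rfl⟩

instance attachDec (G : SimpleGraph V) [DecidableRel G.Adj] (v : V) : DecidableRel (attach G v).Adj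
  | some a, some b => inferInstanceAs (Decidable (G.Adj a b))
  | some a, none => inferInstanceAs (Decidable (a = v))
  | none, some b => inferInstanceAs (Decidable (b = v))
  | none, none => inferInstanceAs (Decidable False)

end Pool.Agent.H14.Ricci
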