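import Mathlib

set_option autoImplicit false

namespace Pool.Agent.H14.Sap

variable {n : ℕ}

/-- `A` is a realization of the sign pattern `S`. -/
def Realizes (S : Matrix (Fin n) (Fin n) SignType) (A : Matrix (Fin n) (Fin n) ℝ) : Prop :=
  ∀ i j, SignType.sign (A i j) = S i j

/-- Spectrally arbitrary sign pattern. -/
def SAP (S : Matrix (Fin n) (Fin n) SignType) : Prop :=
  ∀ p : Polynomial ℝ, p.Monic → p.natDegree = n → ∃ A, Realizes S A ∧ A.charpoly = p

/-- `T` is a superpattern of `S`. -/
def Super (S T : Matrix (Fin n) (Fin n) SignType) : Prop := ∀ i j, S i j ≠ 0 → T i j = S i j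

end Pool.Agent.H14.Sap
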