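import Pool.Agent.H14.SapDefs

set_option autoImplicit false

namespace Pool.Agent.H14.Sap

open Matrix Polynomial

def m4 (a b c d e f g h k w : ℝ) : Matrix (Fin 4) (Fin 4) ℝ :=
  !![a, b, -c, w; -d, -e, f, 0; 0, 0, 0, -g; h, k, 0, 0]

def t2 (a b c d : ℝ) : Matrix (Fin 2) (Fin 2) ℝ := !![a, b; -c, -d]

theorem cp4 (a b c d e f g h k w : ℝ) : (m4 a b c d e f g h k w).charpoly =
    X ^ 4 + C (e - a) * X ^ 3 + C (b * d - a * e - w * h) * X ^ 2 +
      C (g * (f * k - c * h) + w * (d * k - e * h)) * X +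
      C (g * (b * f * h + d * c * k - c * h * e - f * k * a)) := by
  apply Polynomial.funext
  intro x
  rw [eval_charpoly]
  have : scalar (Fin 4) x - m4 a b c d e f g h k w =
      !![x - a, -b, c, -w; d, x + e, -f, 0; 0, 0, x, g; -h, -k, 0, x] := by
    ext i j; fin_cases i <;> fin_cases j <;> simp [m4]
  rw [this]
  simp [det_succ_row_zero, Fin.sum_univ_succ, Fin.succAbove]
  ring

theorem real_t2 (u v : ℝ) : ∃ a b c d : ℝ, 0 < a ∧ 0 < b ∧ 0 < c ∧ 0 < d ∧
    (t2 a b c d).charpoly = X ^ 2 + C u * X + C v := by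
  have h1 := abs_nonneg u
  have h2 := abs_nonneg v
  have h3 := neg_abs_le u
  have h4 := neg_abs_le v
  refine ⟨|u| + |v| + 1, 1, v + (|u| + |v| + 1) * (|u| + |v| + 1 + u), |u| + |v| + 1 + u,
    by positivity, one_pos, by nlinarith, by linarith, ?_⟩
  rw [charpoly_fin_two, trace_fin_two, det_fin_two]
  simp only [t2, of_apply, cons_val', cons_val_zero, cons_val_one, cons_val_fin_one]
  rw [sub_eq_add_neg, ← neg_mul, ← C_neg]
  congr 2 <;> ring_nf

theorem real_m4 (b3 b2 b1 b0 : ℝ)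
    (h : 0 < b0 ∨ (b0 = 0 ∧ b1 ≠ 0) ∨ (b0 = 0 ∧ b1 = 0 ∧ 4 * b2 ≤ b3 ^ 2)) :
    ∃ a b c d e f g h k : ℝ, 0 < a ∧ 0 < b ∧ 0 < c ∧ 0 < d ∧ 0 < e ∧ 0 < f ∧ 0 < g ∧ 0 < h ∧ 0 < k ∧
      (m4 a b c d e f g h k 0).charpoly = X ^ 4 + C b3 * X ^ 3 + C b2 * X ^ 2 + C b1 * X + C b0 := by
  obtain ⟨s1, s2, h1, h2, h3, h4⟩ : ∃ s1 s2 : ℝ, 0 < s1 ∧ 0 < s2 ∧ s2 - s1 = b1 ∧
      (b1 = 0 → s1 = 1) := ⟨|b1| + 1, |b1| + 1 + b1, by positivity, by linarith [neg_abs_le b1],
        by ring, fun h => by simp [h]⟩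
  have h0 : 0 ≤ b0 := by rcases h with h | h | h; exacts [h.le, h.1.ge, h.1.ge]
  have ev : ∀ᶠ a in Filter.atTop, 0 ≤ ((a + b3) * s1 - a * s2) ^ 2 +
      2 * b0 * ((a + b3) * s1 + a * s2) + b0 ^ 2 - 4 * b2 * s1 * s2 := by
    rcases h with h | h | h
    · filter_upwards [Filter.eventually_ge_atTop (-b3),
        Filter.eventually_ge_atTop (2 * b2 * s1 / b0)] with a a1 a2
      rw [div_le_iff₀ h] at a2
      have := mul_nonneg h.le (mul_nonneg (by linarith : 0 ≤ a + b3) h1.le)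
      nlinarith [sq_nonneg ((a + b3) * s1 - a * s2), sq_nonneg b0, mul_le_mul_of_nonneg_right a2 h2.le]
    · have hb := abs_pos.mpr h.2
      filter_upwards [Filter.eventually_ge_atTop ((|b3 * s1| + |4 * b2 * s1 * s2| + 1) / |b1|),
        Filter.eventually_ge_atTop 0] with a a1 a2
      rw [div_le_iff₀ hb] at a1
      have e : (a + b3) * s1 - a * s2 = b3 * s1 - a * b1 := by rw [← h3]; ring
      have e2 : |4 * b2 * s1 * s2| + 1 ≤ |b3 * s1 - a * b1| := by
        have := abs_sub_abs_le_abs_sub (a * b1) (b3 * s1)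
        rw [abs_mul, abs_of_nonneg a2, abs_sub_comm] at this
        linarith
      rw [e, h.1, ← sq_abs]
      nlinarith [le_abs_self (4 * b2 * s1 * s2), abs_nonneg (4 * b2 * s1 * s2)]
    · have e1 := h4 h.2.1
      have e2 : s2 = 1 := by linarith [h.2.1]
      filter_upwards with a
      rw [e1, e2, h.1]; nlinarith [h.2.2]
  obtain ⟨a, a1, a2⟩ := (ev.and (Filter.eventually_ge_atTop (|b3| + |b2| + 1))).exists
  have p1 := abs_nonneg b3
  have p2 := abs_nonneg b2
  have p3 := neg_abs_le b3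
  have p4 := neg_abs_le b2
  have ha : 0 < a := by linarith
  have he : 0 < a + b3 := by linarith
  have hD : 0 < a * (a + b3) + b2 := by nlinarith
  set T := b0 + (a + b3) * s1 + a * s2 with hT
  have hT0 : 0 < T := by positivity
  have hr := Real.mul_self_sqrt a1
  have hr0 := Real.sqrt_nonneg (((a + b3) * s1 - a * s2) ^ 2 +
      2 * b0 * ((a + b3) * s1 + a * s2) + b0 ^ 2 - 4 * b2 * s1 * s2)
  generalize Real.sqrt _ = r at hr hr0
  have hp : (T + r) / 2 * ((T - r) / 2) = (a * (a + b3) + b2) * s1 * s2 := by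
    rw [hT]; linear_combination (-1 / 4) * hr
  have t1 : 0 < (T + r) / 2 := by positivity
  have t2 : 0 < (T - r) / 2 := (mul_pos_iff_of_pos_left t1).mp (by rw [hp]; positivity)
  refine ⟨a, (T + r) / 2 / s1, 1, (T - r) / 2 / s2, a + b3, 1, 1, s1, s2, ha, by positivity, one_pos,
    by positivity, he, one_pos, one_pos, h1, h2, ?_⟩
  rw [cp4]
  congr 5
  · ring
  · field_simp; linear_combination 4 * hp
  · linarith
  · field_simp; rw [hT]; ring

theorem not_nil (a b c d e f g h k w : ℝ) (ha : 0 < a) (hc : 0 < c) (hf : 0 < f) (hg : 0 < g)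
    (hh : 0 < h) (hk : 0 < k) (hw : 0 < w) : (m4 a b c d e f g h k w).charpoly ≠ X ^ 4 := by
  intro H
  rw [cp4] at H
  have c3 := congrArg (coeff · 3) H
  have c2 := congrArg (coeff · 2) H
  have c1 := congrArg (coeff · 1) H
  have c0 := congrArg (coeff · 0) H
  simp only [coeff_add, coeff_C_mul, coeff_X_pow, coeff_X, coeff_C] at c3 c2 c1 c0
  norm_num at c3 c2 c1 c0
  have e1 : e = a := by linarith
  subst e1
  have c0' := c0.resolve_left hg.ne'
  have k1 : g * (w * h * (c * h) * (f * k)) + c * e * w * (d * k - e * h) ^ 2 +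
      g * (c * (d * k - e * h)) ^ 2 = 0 := by
    linear_combination (-(g * c * h * f * k)) * c2 + (g * d * c * k) * c0' + c * e * (d * k - e * h) * c1
  have : 0 < g * (w * h * (c * h) * (f * k)) := by positivity
  nlinarith [mul_nonneg (by positivity : 0 ≤ c * e * w) (sq_nonneg (d * k - e * h)),
    mul_nonneg hg.le (sq_nonneg (c * (d * k - e * h)))]

end Pool.Agent.H14.Sap
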