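import Mathlib

set_option autoImplicit false

namespace Pool.Agent.H14.ShatDefs

/-- `𝒮` shatters `Y`. -/
def Shatters {X : Type} (𝒮 : Set (Set X)) (Y : Finset X) : Prop :=
  ∀ Z : Set X, Z ⊆ Y → ∃ S ∈ 𝒮, S ∩ Y = Z

/-- The VC-dimension is finite. -/
def FinVC {X : Type} (𝒮 : Set (Set X)) : Prop := ∃ N : ℕ, ∀ Y, Shatters 𝒮 Y → Y.card ≤ N

/-- The VC-dimension (when finite). -/
noncomputable def vc {X : Type} (𝒮 : Set (Set X)) : ℕ := sSup {d | ∃ Y, Shatters 𝒮 Y ∧ Y.card = d}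

/-- The `k`-fold union family. -/
def unions {X : Type} (𝒮 : Set (Set X)) (k : ℕ) : Set (Set X) :=
  {U | ∃ f : Fin k → Set X, (∀ i, f i ∈ 𝒮) ∧ U = ⋃ i, f i}

/-- The trace family of `𝒮` on `Y`. -/
def trace {X : Type} (𝒮 : Set (Set X)) (Y : Finset X) : Set (Set Y) :=
  {T | ∃ S ∈ 𝒮, T = {y : Y | y.1 ∈ S}}

/-- Shatter-isomorphism: a bijection carrying the trace family onto the trace family. -/
def ShIso {X : Type} (𝒮 : Set (Set X)) (Y Y' : Finset X) : Prop :=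
  ∃ f : Y ≃ Y', (fun T => f '' T) '' trace 𝒮 Y = trace 𝒮 Y'

/-- The sets of size `d_k` shattered by the `k`-fold union family. -/
def Top {X : Type} (𝒮 : Set (Set X)) (k : ℕ) : Set (Finset X) :=
  {Y | Shatters (unions 𝒮 k) Y ∧ Y.card = vc (unions 𝒮 k)}

/-- `s_k`: the number of shatter-isomorphism classes of such sets. -/
noncomputable def seq {X : Type} (𝒮 : Set (Set X)) (k : ℕ) : ℕ :=
  ((fun Y => {Y' ∈ Top 𝒮 k | ShIso 𝒮 Y Y'}) '' Top 𝒮 k).ncard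

end Pool.Agent.H14.ShatDefs
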