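import Mathlib

set_option autoImplicit false

namespace Pool.Agent.H14.Shift

open Finset Pointwise

theorem exists_A : ∀ k : ℕ, ∃ A : Finset ℕ, A.card = k ∧ (∀ a ∈ A, 0 < a) ∧
    ∀ x ∈ A * A, ∀ y ∈ A * A, x ≠ y → Nat.Coprime (x + 1) (y + 1)
  | 0 => ⟨∅, by simp⟩
  | k + 1 => by
    obtain ⟨A, hk, hp, hc⟩ := exists_A k
    obtain ⟨m, hm⟩ := A.bddAbove
    have hm' : ∀ b ∈ A, b ≤ m := fun b hb => hm hb
    set a := (m * m + m + 1).factorial with ha
    have hlt : ∀ b ∈ A, b < a := fun b hb =>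
      lt_of_lt_of_le (by have := hm' b hb; omega) (Nat.self_le_factorial _)
    have hs : ∀ p u b : ℕ, p.Prime → 0 < u → u ≤ m * m + m + 1 → p ∣ u → ¬ p ∣ a * b + 1 := by
      intro p u b hp h0 hu hd h
      have h1 : p ∣ a * b := Dvd.dvd.mul_right (hd.trans (Nat.dvd_factorial h0 hu)) b
      exact hp.one_lt.ne' (Nat.dvd_one.1 ((Nat.dvd_add_right h1).1 h))
    have hold : ∀ b ∈ A, ∀ c ∈ A, b * c + 1 ≤ m * m + m + 1 := fun b hb c hc => by
      have := Nat.mul_le_mul (hm' b hb) (hm' c hc)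
      omega
    have h1 : ∀ b c d : ℕ, c ∈ A → d ∈ A → Nat.Coprime (a * b + 1) (c * d + 1) :=
      fun b c d hc hd => Nat.coprime_of_dvd fun p hp h1 h2 =>
        hs p _ b hp (by omega) (hold c hc d hd) h2 h1
    have h2 : ∀ b ∈ A, Nat.Coprime (a * a + 1) (a * b + 1) := fun b hb =>
      Nat.coprime_of_dvd fun p hp h1 h2 => by
        refine hs p (b * b + 1) b hp (by omega) (hold b hb b hb) ?_ h2
        have e : ((b * b + 1 : ℕ) : ℤ) =
            ((a * a + 1 : ℕ) : ℤ) * (b * b) - ((a * b + 1 : ℕ) : ℤ) * (a * b - 1) := by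
          push_cast; ring
        rw [← Int.natCast_dvd_natCast] at h1 h2 ⊢
        rw [e]
        exact dvd_sub (h1.mul_right _) (h2.mul_right _)
    have h3 : ∀ b ∈ A, ∀ c ∈ A, b < c → Nat.Coprime (a * b + 1) (a * c + 1) := fun b hb c hc hbc =>
      Nat.coprime_of_dvd fun p hp h1 h2 => by
        refine hs p (c - b) b hp (by omega) (by have := hm' c hc; omega) ?_ h1
        have e : ((c - b : ℕ) : ℤ) = ((a * b + 1 : ℕ) : ℤ) * c - ((a * c + 1 : ℕ) : ℤ) * b := by
          push_cast [hbc.le]; ring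
        rw [← Int.natCast_dvd_natCast] at h1 h2 ⊢
        rw [e]
        exact dvd_sub (h1.mul_right _) (h2.mul_right _)
    have h4 : ∀ b ∈ insert a A, ∀ c ∈ insert a A, a * b ≠ a * c →
        Nat.Coprime (a * b + 1) (a * c + 1) := by
      intro b hb c hc hne
      rcases mem_insert.1 hb with rfl | hb <;> rcases mem_insert.1 hc with rfl | hc
      · exact absurd rfl hne
      · exact h2 c hc
      · exact (h2 b hb).symm
      · rcases lt_trichotomy b c with h | h | h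
        · exact h3 b hb c hc h
        · exact absurd (h ▸ rfl) hne
        · exact (h3 c hc b hb h).symm
    have hcase : ∀ x ∈ insert a A * insert a A, (∃ b ∈ insert a A, x = a * b) ∨
        ∃ c ∈ A, ∃ d ∈ A, x = c * d := by
      intro x hx
      obtain ⟨u, hu, v, hv, rfl⟩ := mem_mul.1 hx
      rcases mem_insert.1 hu with rfl | hu'
      · exact Or.inl ⟨v, hv, rfl⟩
      · rcases mem_insert.1 hv with rfl | hv'
        · exact Or.inl ⟨u, hu, mul_comm _ _⟩
        · exact Or.inr ⟨u, hu', v, hv', rfl⟩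
    refine ⟨insert a A, ?_, ?_, ?_⟩
    · rw [card_insert_of_notMem fun h => lt_irrefl _ (hlt a h), hk]
    · intro b hb
      rcases mem_insert.1 hb with rfl | hb
      · exact Nat.factorial_pos _
      · exact hp b hb
    · intro x hx y hy hne
      rcases hcase x hx with ⟨b, hb, rfl⟩ | ⟨c, hc', d, hd, rfl⟩ <;>
        rcases hcase y hy with ⟨b', hb', rfl⟩ | ⟨c', hc'', d', hd', rfl⟩
      · exact h4 b hb b' hb' hne
      · exact h1 b c' d' hc'' hd'
      · exact (h1 b' c d hc' hd).symm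
      · exact hc _ (mul_mem_mul hc' hd) _ (mul_mem_mul hc'' hd') hne

theorem big (E F P : Finset ℕ) (hPE : P ⊆ E) (h1 : ∀ e ∈ P, 1 < e)
    (hc : ∀ e ∈ P, ∀ e' ∈ P, e ≠ e' → Nat.Coprime e e') (t : ℕ) (ht : t + 1 ≤ F.card) :
    P.card * t ≤ (E * F).card + t * t * t := by
  obtain ⟨G, hG, hGc⟩ := exists_subset_card_eq (s := F.erase 0) (n := t)
    (by have := pred_card_le_card_erase (s := F) (a := 0); omega)
  have hG0 : ∀ f ∈ G, 0 < f := fun f hf => Nat.pos_of_ne_zero (mem_erase.1 (hG hf)).1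
  let B : Finset ℕ := P.filter fun e => ∃ f ∈ G, ∃ f' ∈ G, f ≠ f' ∧ ∃ e' ∈ P, e * f = e' * f'
  have hB : B.card ≤ t * t := by
    have : B ⊆ (G ×ˢ G).biUnion fun q =>
        P.filter fun e => q.1 ≠ q.2 ∧ ∃ e' ∈ P, e * q.1 = e' * q.2 := by
      intro e he
      obtain ⟨heP, f, hf, f', hf', hne, h⟩ := mem_filter.1 he
      exact mem_biUnion.2 ⟨(f, f'), mem_product.2 ⟨hf, hf'⟩, mem_filter.2 ⟨heP, hne, h⟩⟩
    refine (card_le_card this).trans ((card_biUnion_le_card_mul _ _ 1 ?_).trans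
      (by simp [hGc]))
    rintro ⟨f, f'⟩ hq
    obtain ⟨hf, hf'⟩ := mem_product.1 hq
    rw [card_le_one]
    intro e he e1 he1
    obtain ⟨heP, hne, e', he', h⟩ := mem_filter.1 he
    obtain ⟨heP1, -, e1', -, h'⟩ := mem_filter.1 he1
    by_contra hne1
    simp only at hne h h' hf hf'
    have hee' : e ≠ e' := by
      rintro rfl
      exact hne (Nat.eq_of_mul_eq_mul_left (by have := h1 e heP; omega) h)
    have e2 : e * e1' = e' * e1 := by
      apply Nat.eq_of_mul_eq_mul_right (hG0 f hf)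
      calc e * e1' * f = e1' * (e * f) := by ring
        _ = e' * (e1' * f') := by rw [h]; ring
        _ = e' * e1 * f := by rw [← h']; ring
    have := (Nat.Coprime.mul_right (hc e heP e' he' hee') (hc e heP e1 heP1 hne1)).eq_one_of_dvd
      ⟨e1', e2.symm⟩
    have := h1 e heP
    omega
  have hinj : ((P \ B) ×ˢ G).card ≤ (E * F).card := by
    refine card_le_card_of_injOn (fun q => q.1 * q.2) ?_ ?_
    · rintro ⟨e, f⟩ hq
      obtain ⟨he, hf⟩ := mem_product.1 (mem_coe.1 hq)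
      exact mem_coe.2 (mul_mem_mul (hPE (mem_sdiff.1 he).1) (mem_erase.1 (hG hf)).2)
    · rintro ⟨e, f⟩ hq ⟨e', f'⟩ hq' h
      obtain ⟨he, hf⟩ := mem_product.1 (mem_coe.1 hq)
      obtain ⟨he', hf'⟩ := mem_product.1 (mem_coe.1 hq')
      simp only at h he hf he' hf'
      by_cases hff : f = f'
      · subst hff
        rw [Nat.eq_of_mul_eq_mul_right (hG0 f hf) h]
      · exact absurd (mem_filter.2 ⟨(mem_sdiff.1 he).1, f, hf, f', hf', hff, e',
          (mem_sdiff.1 he').1, h⟩) (mem_sdiff.1 he).2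
  rw [card_product, hGc] at hinj
  have h2 : P.card ≤ (P \ B).card + t * t := by
    have := le_card_sdiff B P
    omega
  nlinarith

theorem half (S E F : Finset ℕ) (hc : ∀ x ∈ S, ∀ y ∈ S, x ≠ y → Nat.Coprime x y)
    (t : ℕ) (ht : t + 1 ≤ F.card) :
    (S.filter fun s => ∃ e ∈ E, 1 < e ∧ e ∣ s).card * t ≤ (E * F).card + t * t * t := by
  have h : ∀ s : ℕ, ∃ e : ℕ, (∃ e ∈ E, 1 < e ∧ e ∣ s) → e ∈ E ∧ 1 < e ∧ e ∣ s := fun s => by
    by_cases hs : ∃ e ∈ E, 1 < e ∧ e ∣ s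
    · exact ⟨hs.choose, fun _ => hs.choose_spec⟩
    · exact ⟨0, fun h => absurd h hs⟩
  choose g hg using h
  set T := S.filter fun s => ∃ e ∈ E, 1 < e ∧ e ∣ s with hT
  have hcop : ∀ x ∈ T, ∀ y ∈ T, x ≠ y → Nat.Coprime (g x) (g y) := fun x hx y hy hne =>
    Nat.Coprime.coprime_dvd_left (hg x (mem_filter.1 hx).2).2.2
      (Nat.Coprime.coprime_dvd_right (hg y (mem_filter.1 hy).2).2.2
        (hc x (mem_filter.1 hx).1 y (mem_filter.1 hy).1 hne))
  have hinj : Set.InjOn g T := fun x hx y hy e => by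
    by_contra hne
    have h1 := hcop x hx y hy hne
    rw [e, Nat.coprime_self] at h1
    have := (hg y (mem_filter.1 hy).2).2.1
    omega
  rw [← card_image_of_injOn hinj]
  refine big E F _ ?_ ?_ ?_ t ht
  · intro e he
    obtain ⟨x, hx, rfl⟩ := mem_image.1 he
    exact (hg x (mem_filter.1 hx).2).1
  · intro e he
    obtain ⟨x, hx, rfl⟩ := mem_image.1 he
    exact (hg x (mem_filter.1 hx).2).2.1
  · intro e he e' he' hne
    obtain ⟨x, hx, rfl⟩ := mem_image.1 he
    obtain ⟨y, hy, rfl⟩ := mem_image.1 he'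
    exact hcop x hx y hy fun h => hne (h ▸ rfl)

theorem both (S E F : Finset ℕ) (h1 : ∀ x ∈ S, 1 < x)
    (hc : ∀ x ∈ S, ∀ y ∈ S, x ≠ y → Nat.Coprime x y)
    (t : ℕ) (hE : t + 1 ≤ E.card) (hF : t + 1 ≤ F.card) :
    (S ∩ (E * F)).card * t ≤ 2 * ((E * F).card + t * t * t) := by
  have a1 := half S E F hc t hF
  have a2 := half S F E hc t hE
  rw [mul_comm F E] at a2
  have : S ∩ (E * F) ⊆ (S.filter fun s => ∃ e ∈ E, 1 < e ∧ e ∣ s) ∪
      S.filter fun s => ∃ e ∈ F, 1 < e ∧ e ∣ s := by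
    intro s hs
    obtain ⟨hS, hm⟩ := mem_inter.1 hs
    obtain ⟨e, he, f, hf, rfl⟩ := mem_mul.1 hm
    have := h1 _ hS
    by_cases h : 1 < e
    · exact mem_union_left _ (mem_filter.2 ⟨hS, e, he, h, dvd_mul_right _ _⟩)
    · refine mem_union_right _ (mem_filter.2 ⟨hS, f, hf, ?_, dvd_mul_left _ _⟩)
      by_contra h'
      have := Nat.mul_le_mul (not_lt.1 h) (not_lt.1 h')
      omega
  have h2 := (card_le_card this).trans (card_union_le _ _)
  nlinarith

end Pool.Agent.H14.Shift
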