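import Mathlib

set_option autoImplicit false

namespace Pool.Agent.H14.Spars

open Matrix

variable {V : Type} [Fintype V] [DecidableEq V]

/-- The largest eigenvalue of a real square matrix. -/
noncomputable def lam1 (A : Matrix V V ℝ) : ℝ :=
  sSup {t : ℝ | ∃ x : V → ℝ, x ≠ 0 ∧ A *ᵥ x = t • x}

/-- Laplacian of the weighted graph with weighted adjacency matrix `W`. -/
def wlap (W : Matrix V V ℝ) : Matrix V V ℝ := diagonal (fun u => ∑ v, W u v) - W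

/-- `W` is the weighted adjacency matrix of an edge-deleting `(1 ± ε)` Laplacian sparsifier of `G`. -/
def IsDelSparsifier (G : SimpleGraph V) [DecidableRel G.Adj] (ε : ℝ) (W : Matrix V V ℝ) : Prop :=
  (∀ u v, W u v = W v u) ∧ (∀ u v, 0 ≤ W u v) ∧ (∀ u v, W u v ≠ 0 → G.Adj u v) ∧
  (∃ u v, G.Adj u v ∧ W u v = 0) ∧
  ∀ x : V → ℝ, (1 - ε) * (x ⬝ᵥ G.lapMatrix ℝ *ᵥ x) ≤ x ⬝ᵥ wlap W *ᵥ x ∧
    x ⬝ᵥ wlap W *ᵥ x ≤ (1 + ε) * (x ⬝ᵥ G.lapMatrix ℝ *ᵥ x)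

end Pool.Agent.H14.Spars
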