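import Pool.Agent.H14.SspDefs

set_option autoImplicit false

namespace Pool.Agent.H14.Q

open Matrix

variable {n : ℕ}

theorem canc {x y : ℝ} (hy : y ≠ 0) (h : x * y = 0) : x = 0 := (mul_eq_zero.mp h).resolve_right hy

theorem unpack (G : SimpleGraph (Fin n)) (A : Matrix (Fin n) (Fin n) ℝ) (hA : InS G A)
    (X : Matrix (Fin n) (Fin n) ℝ) (h1 : A.hadamard X = 0)
    (h2 : (1 : Matrix (Fin n) (Fin n) ℝ).hadamard X = 0) (h3 : A * X - X * A = 0) :
    (∀ i j, i ≠ j → ¬ G.Adj i j → A i j = 0) ∧ (∀ i j, G.Adj i j → A i j ≠ 0) ∧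
    (∀ i j, i = j ∨ G.Adj i j → X i j = 0) ∧
    ∀ i j, ∑ k, A i k * X k j - ∑ k, X i k * A k j = 0 := by
  have hn : ∀ i j, G.Adj i j → A i j ≠ 0 := fun i j h => (hA.2 i j h.ne).mpr h
  refine ⟨fun i j a b => ?_, hn, fun i j h => ?_, fun i j => ?_⟩
  · by_contra h; exact b ((hA.2 i j a).mp h)
  · rcases h with rfl | h
    · simpa using congrFun (congrFun h2 i) i
    · have := congrFun (congrFun h1 i) j
      exact (mul_eq_zero.mp this).resolve_left (hn i j h)
  · simpa [Matrix.mul_apply] using congrFun (congrFun h3 i) j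

end Pool.Agent.H14.Q
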