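import Pool.Agent.H14.QDefs

set_option autoImplicit false

namespace Pool.Agent.H14.Q

open Matrix

variable {n : ℕ}

/-- The strong spectral property of a real symmetric matrix. -/
def SSP (A : Matrix (Fin n) (Fin n) ℝ) : Prop :=
  ∀ X : Matrix (Fin n) (Fin n) ℝ, X.IsSymm → A.hadamard X = 0 →
    (1 : Matrix (Fin n) (Fin n) ℝ).hadamard X = 0 → A * X - X * A = 0 → X = 0

/-- Every matrix in `S(G)` has the strong spectral property. -/
def SSPGraph (G : SimpleGraph (Fin n)) : Prop := ∀ A, InS G A → SSP A

/-- Connected with exactly one cycle, which has length `g`. -/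
def Unicyclic (G : SimpleGraph (Fin n)) (g : ℕ) : Prop :=
  G.Connected ∧ ∃ (v : Fin n) (c : G.Walk v v), c.IsCycle ∧ c.length = g ∧
    ∀ (w : Fin n) (d : G.Walk w w), d.IsCycle → d.edges.toFinset = c.edges.toFinset

end Pool.Agent.H14.Q
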