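import Pool.Agent.H14.SspDefs

set_option autoImplicit false

namespace Pool.Agent.H14.Q

/-- The cycle on `0, …, m - 1` with the path `m, …, m + k - 1` joined to `0`
(the cycle itself when `k = 0`). -/
def tadpole (m k : ℕ) : SimpleGraph (Fin (m + k)) :=
  SimpleGraph.fromRel fun i j => (j.1 = i.1 + 1 ∧ j.1 ≠ m) ∨ (i.1 = 0 ∧ (j.1 + 1 = m ∨ j.1 = m))

/-- Add a new vertex `Fin.last n` adjacent only to `v`. -/
def pend {n : ℕ} (G : SimpleGraph (Fin n)) (v : Fin n) : SimpleGraph (Fin (n + 1)) :=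
  SimpleGraph.fromRel fun i j =>
    (∃ a b, G.Adj a b ∧ i = a.castSucc ∧ j = b.castSucc) ∨ (i = v.castSucc ∧ j = Fin.last n)

end Pool.Agent.H14.Q
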