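import Pool.Agent.H14.SspBase

set_option autoImplicit false
set_option maxRecDepth 100000

namespace Pool.Agent.H14.SspG31

open Matrix Pool.Agent.H14.Q

def el : List (Fin 8 × Fin 8) := [(0, 1), (0, 3), (0, 4), (1, 2), (1, 7), (2, 3), (4, 5), (5, 6)]

def G : SimpleGraph (Fin 8) where
  Adj a b := (a, b) ∈ el ∨ (b, a) ∈ el
  symm := ⟨fun _ _ h => h.symm⟩
  loopless := ⟨by decide⟩

instance : DecidableRel G.Adj := fun a b => by unfold G; infer_instance

theorem alg (a00 a11 a22 a33 a44 a55 a66 a77 a01 a03 a04 a12 a17 a23 a45 a56 x02 x05 x06 x07 x13 x14 x15 x16 x24 x25 x26 x27 x34 x35 x36 x37 x46 x47 x57 x67 : ℝ)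
    (e01 : a03 * x13 + a04 * x14 - a12 * x02 - a17 * x07 = 0)
    (e02 : a00 * x02 + a04 * x24 - a22 * x02 = 0)
    (e03 : a01 * x13 + a04 * x34 - a23 * x02 = 0)
    (e04 : a01 * x14 + a03 * x34 - a45 * x05 = 0)
    (e05 : a00 * x05 + a01 * x15 + a03 * x35 - a55 * x05 - a56 * x06 = 0)
    (e06 : a00 * x06 + a01 * x16 + a03 * x36 + a04 * x46 - a56 * x05 - a66 * x06 = 0)
    (e07 : a00 * x07 + a03 * x37 + a04 * x47 - a77 * x07 = 0)
    (e12 : a01 * x02 + a17 * x27 - a23 * x13 = 0)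
    (e13 : a11 * x13 + a17 * x37 - a33 * x13 = 0)
    (e14 : a11 * x14 + a12 * x24 + a17 * x47 - a44 * x14 - a45 * x15 = 0)
    (e15 : a01 * x05 + a11 * x15 + a12 * x25 + a17 * x57 - a45 * x14 - a55 * x15 - a56 * x16 = 0)
    (e16 : a01 * x06 + a11 * x16 + a12 * x26 + a17 * x67 - a56 * x15 - a66 * x16 = 0)
    (e17 : a01 * x07 + a12 * x27 = 0)
    (e23 : -a03 * x02 + a12 * x13 = 0)
    (e24 : -a04 * x02 + a12 * x14 + a22 * x24 + a23 * x34 - a44 * x24 - a45 * x25 = 0)
    (e25 : a12 * x15 + a22 * x25 + a23 * x35 - a45 * x24 - a55 * x25 - a56 * x26 = 0)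
    (e26 : a12 * x16 + a22 * x26 + a23 * x36 - a56 * x25 - a66 * x26 = 0)
    (e27 : a22 * x27 + a23 * x37 - a77 * x27 = 0)
    (e34 : a23 * x24 + a33 * x34 - a44 * x34 - a45 * x35 = 0)
    (e35 : a03 * x05 + a23 * x25 + a33 * x35 - a45 * x34 - a55 * x35 - a56 * x36 = 0)
    (e36 : a03 * x06 + a23 * x26 + a33 * x36 - a56 * x35 - a66 * x36 = 0)
    (e37 : a03 * x07 - a17 * x13 + a23 * x27 + a33 * x37 - a77 * x37 = 0)
    (e45 : a04 * x05 - a56 * x46 = 0)
    (e46 : a04 * x06 + a44 * x46 - a66 * x46 = 0)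
    (e47 : a04 * x07 - a17 * x14 + a44 * x47 + a45 * x57 - a77 * x47 = 0)
    (e56 : a45 * x46 = 0)
    (e57 : -a17 * x15 + a45 * x47 + a55 * x57 + a56 * x67 - a77 * x57 = 0)
    (e67 : -a17 * x16 + a56 * x57 + a66 * x67 - a77 * x67 = 0)
    (n01 : a01 ≠ 0) (n03 : a03 ≠ 0) (n04 : a04 ≠ 0) (n12 : a12 ≠ 0) (n17 : a17 ≠ 0) (n23 : a23 ≠ 0) (n45 : a45 ≠ 0) (n56 : a56 ≠ 0) :
    x02 = 0 ∧ x05 = 0 ∧ x06 = 0 ∧ x07 = 0 ∧ x13 = 0 ∧ x14 = 0 ∧ x15 = 0 ∧ x16 = 0 ∧ x24 = 0 ∧ x25 = 0 ∧ x26 = 0 ∧ x27 = 0 ∧ x34 = 0 ∧ x35 = 0 ∧ x36 = 0 ∧ x37 = 0 ∧ x46 = 0 ∧ x47 = 0 ∧ x57 = 0 ∧ x67 = 0 := by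
  have hx46 : x46 = 0 := canc (n45) (by linear_combination (1) * ((1) * e56))
  subst hx46
  have hx05 : x05 = 0 := canc (n04) (by linear_combination (1) * ((1) * e45))
  subst hx05
  have hx06 : x06 = 0 := canc (n04) (by linear_combination (1) * ((1) * e46))
  subst hx06
  have w01 : a01 * x14 + a03 * x34 = 0 := by linear_combination (1) * e04
  have w02 : a01 * x15 + a03 * x35 = 0 := by linear_combination (1) * e05
  have w03 : a01 * x16 + a03 * x36 = 0 := by linear_combination (1) * e06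
  have w11 : a01 * a11 * x14 + a01 * a12 * x24 + a01 * a17 * x47 + a03 * a23 * x24 + a03 * a33 * x34 = 0 := by linear_combination (a01) * e14 + (a03) * e34 + (a44) * w01 + (a45) * w02
  have w12 : a01 * a11 * x15 + a01 * a12 * x25 + a01 * a17 * x57 + a03 * a23 * x25 + a03 * a33 * x35 = 0 := by linear_combination (a01) * e15 + (a03) * e35 + (a55) * w02 + (a56) * w03 + (a45) * w01
  have w13 : a01 * a11 * x16 + a01 * a12 * x26 + a01 * a17 * x67 + a03 * a23 * x26 + a03 * a33 * x36 = 0 := by linear_combination (a01) * e16 + (a03) * e36 + (a66) * w03 + (a56) * w02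
  have w22 : a01 * a11 * a11 * x15 + a01 * a11 * a12 * x25 + a01 * a11 * a17 * x57 + a01 * a12 * a12 * x15 + a01 * a12 * a22 * x25 + a01 * a12 * a23 * x35 + a01 * a17 * a17 * x15 + a01 * a17 * a77 * x57 + a03 * a12 * a23 * x15 + a03 * a22 * a23 * x25 + a03 * a23 * a23 * x35 + a03 * a23 * a33 * x25 + a03 * a33 * a33 * x35 = 0 := by linear_combination (-a01 * a17) * e57 + (a01 * a11) * e15 + (a01 * a12 + a03 * a23) * e25 + (a03 * a33) * e35 + (a55) * w12 + (a56) * w13 + (a45) * w11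
  have w23 : a01 * a11 * a11 * x16 + a01 * a11 * a12 * x26 + a01 * a11 * a17 * x67 + a01 * a12 * a12 * x16 + a01 * a12 * a22 * x26 + a01 * a12 * a23 * x36 + a01 * a17 * a17 * x16 + a01 * a17 * a77 * x67 + a03 * a12 * a23 * x16 + a03 * a22 * a23 * x26 + a03 * a23 * a23 * x36 + a03 * a23 * a33 * x26 + a03 * a33 * a33 * x36 = 0 := by linear_combination (-a01 * a17) * e67 + (a01 * a11) * e16 + (a01 * a12 + a03 * a23) * e26 + (a03 * a33) * e36 + (a66) * w13 + (a56) * w12
  have w33 : a01 * a11 * a11 * a11 * x16 + a01 * a11 * a11 * a12 * x26 + a01 * a11 * a11 * a17 * x67 + 2 * a01 * a11 * a12 * a12 * x16 + a01 * a11 * a12 * a22 * x26 + a01 * a11 * a12 * a23 * x36 + 2 * a01 * a11 * a17 * a17 * x16 + a01 * a11 * a17 * a77 * x67 + a01 * a12 * a12 * a12 * x26 + a01 * a12 * a12 * a17 * x67 + a01 * a12 * a12 * a22 * x16 + a01 * a12 * a17 * a17 * x26 + a01 * a12 * a22 * a22 * x26 + a01 * a12 * a22 * a23 * x36 + a01 * a12 * a23 * a23 * x26 + a01 * a12 * a23 *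 a33 * x36 + a01 * a17 * a17 * a17 * x67 + a01 * a17 * a17 * a77 * x16 + a01 * a17 * a77 * a77 * x67 + a03 * a11 * a12 * a23 * x16 + a03 * a12 * a12 * a23 * x26 + a03 * a12 * a17 * a23 * x67 + a03 * a12 * a22 * a23 * x16 + a03 * a12 * a23 * a33 * x16 + a03 * a22 * a22 * a23 * x26 + a03 * a22 * a23 * a23 * x36 + a03 * a22 * a23 * a33 * x26 + a03 * a23 * a23 * a23 * x26 + 2 * a03 * a23 * a23 * a33 * x36 + a03 * a23 * a33 * a33 * x26 + a03 * a33 * a33 * a33 * x36 = 0 := by linear_combination (-a01 * a11 * a17 - a01 * a17 * a77) * e67 + (a01 * a11 * a11 + a01 * a12 * a12 + a01 * a17 * a17 + a03 * a12 * a23) * e16 + (a01 * a11 * a12 + a01 * a12 * a22 + a03 * a22 * a23 + a03 * a23 * a33) * e26 + (a01 * a12 * a23 + a03 * a23 * a23 + a03 * a33 * a33) * e36 + (a66) * w23 + (a56) * w22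
  have w43 : a01 * a11 * a11 * a11 * a11 * x16 + a01 * a11 * a11 * a11 * a12 * x26 + a01 * a11 * a11 * a11 * a17 * x67 + 3 * a01 * a11 * a11 * a12 * a12 * x16 + a01 * a11 * a11 * a12 * a22 * x26 + a01 * a11 * a11 * a12 * a23 * x36 + 3 * a01 * a11 * a11 * a17 * a17 * x16 + a01 * a11 * a11 * a17 * a77 * x67 + 2 * a01 * a11 * a12 * a12 * a12 * x26 + 2 * a01 * a11 * a12 * a12 * a17 * x67 + 2 * a01 * a11 * a12 * a12 * a22 * x16 + 2 * a01 * a11 * a12 * a17 * a17 * x26 + a01 * a11 * a12 * a22 * a22 * x26 + a01 * a11 * a12 * a22 * a23 * x36 + a01 * a11 * a12 * a23 * a23 * x26 + a01 * a11 * a12 * a23 * a33 * x36 + 2 * a01 * a11 * a17 * a17 * a17 * x67 + 2 * a01 * a11 * a17 * a17 * a77 * x16 + a01 * a11 * a17 * a77 * a77 * x67 + a01 * a12 * a12 * a12 * a12 * x16 + 2 * a01 * a12 * a12 * a12 * a22 * x26 + a01 * a12 * a12 * a12 * a23 * x36 + 2 * a01 * a12 * a12 * a17 * a17 * x16 + a01 * a12 * a12 * a17 * a22 * x67 + a01 * a12 * a12 * a17 * a77 * x67 + a01 * a12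 * a12 * a22 * a22 * x16 + a01 * a12 * a12 * a23 * a23 * x16 + a01 * a12 * a17 * a17 * a22 * x26 + a01 * a12 * a17 * a17 * a23 * x36 + a01 * a12 * a17 * a17 * a77 * x26 + a01 * a12 * a22 * a22 * a22 * x26 + a01 * a12 * a22 * a22 * a23 * x36 + 2 * a01 * a12 * a22 * a23 * a23 * x26 + a01 * a12 * a22 * a23 * a33 * x36 + a01 * a12 * a23 * a23 * a23 * x36 + a01 * a12 * a23 * a23 * a33 * x26 + a01 * a12 * a23 * a33 * a33 * x36 + a01 * a17 * a17 * a17 * a17 * x16 + 2 * a01 * a17 * a17 * a17 * a77 * x67 + a01 * a17 * a17 * a77 * a77 * x16 + a01 * a17 * a77 * a77 * a77 * x67 + a03 * a11 * a11 * a12 * a23 * x16 + a03 * a11 * a12 * a12 * a23 * x26 + a03 * a11 * a12 * a17 * a23 * x67 + a03 * a11 * a12 * a22 * a23 * x16 + a03 * a11 * a12 * a23 * a33 * x16 + a03 * a12 * a12 * a12 * a23 * x16 + 2 * a03 * a12 * a12 * a22 * a23 * x26 + a03 * a12 * a12 * a23 * a23 * x36 + a03 * a12 * a12 * a23 * a33 * x26 + a03 * a12 * a17 * a17 * a23 * x16 + a03 * a12 * a17 * a22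 * a23 * x67 + a03 * a12 * a17 * a23 * a33 * x67 + a03 * a12 * a17 * a23 * a77 * x67 + a03 * a12 * a22 * a22 * a23 * x16 + a03 * a12 * a22 * a23 * a33 * x16 + a03 * a12 * a23 * a23 * a23 * x16 + a03 * a12 * a23 * a33 * a33 * x16 + a03 * a22 * a22 * a22 * a23 * x26 + a03 * a22 * a22 * a23 * a23 * x36 + a03 * a22 * a22 * a23 * a33 * x26 + 2 * a03 * a22 * a23 * a23 * a23 * x26 + 2 * a03 * a22 * a23 * a23 * a33 * x36 + a03 * a22 * a23 * a33 * a33 * x26 + a03 * a23 * a23 * a23 * a23 * x36 + 2 * a03 * a23 * a23 * a23 * a33 * x26 + 3 * a03 * a23 * a23 * a33 * a33 * x36 + a03 * a23 * a33 * a33 * a33 * x26 + a03 * a33 * a33 * a33 * a33 * x36 = 0 := by linear_combination (-a11 * a22 * a33 * a77 + a11 * a23 * a23 * a77 + a12 * a12 * a33 * a77 + a17 * a17 * a22 * a33 - a17 * a17 * a23 * a23) * w03 + (a11 * a22 * a33 + a11 * a22 * a77 - a11 * a23 * a23 + a11 * a33 * a77 - a12 * a12 * a33 - a12 * a12 * a77 - a17 * a17 * a22 - a17 * a17 * a33 + a22 * a33 * a77 -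 a23 * a23 * a77) * w13 + (-a11 * a22 - a11 * a33 - a11 * a77 + a12 * a12 + a17 * a17 - a22 * a33 - a22 * a77 + a23 * a23 - a33 * a77) * w23 + (a11 + a22 + a33 + a77) * w33
  have w32 : a01 * a11 * a11 * a11 * x15 + a01 * a11 * a11 * a12 * x25 + a01 * a11 * a11 * a17 * x57 + 2 * a01 * a11 * a12 * a12 * x15 + a01 * a11 * a12 * a22 * x25 + a01 * a11 * a12 * a23 * x35 + 2 * a01 * a11 * a17 * a17 * x15 + a01 * a11 * a17 * a77 * x57 + a01 * a12 * a12 * a12 * x25 + a01 * a12 * a12 * a17 * x57 + a01 * a12 * a12 * a22 * x15 + a01 * a12 * a17 * a17 * x25 + a01 * a12 * a22 * a22 * x25 + a01 * a12 * a22 * a23 * x35 + a01 * a12 * a23 * a23 * x25 + a01 * a12 * a23 * a33 * x35 + a01 * a17 * a17 * a17 * x57 + a01 * a17 * a17 * a77 * x15 + a01 * a17 * a77 * a77 * x57 + a03 * a11 * a12 * a23 * x15 + a03 * a12 * a12 * a23 * x25 + a03 * a12 * a17 * a23 * x57 + a03 * a12 * a22 * a23 * x15 + a03 * a12 * a23 * a33 * x15 + a03 * a22 * a22 * a23 * x25 + a03 * a22 * a23 *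 a23 * x35 + a03 * a22 * a23 * a33 * x25 + a03 * a23 * a23 * a23 * x25 + 2 * a03 * a23 * a23 * a33 * x35 + a03 * a23 * a33 * a33 * x25 + a03 * a33 * a33 * a33 * x35 = 0 := canc (n56) (by linear_combination (a01 * a11 * a11 * a17 + a01 * a11 * a17 * a77 + a01 * a12 * a12 * a17 + a01 * a17 * a17 * a17 + a01 * a17 * a77 * a77 + a03 * a12 * a17 * a23) * e67 + (-a01 * a11 * a11 * a11 - 2 * a01 * a11 * a12 * a12 - 2 * a01 * a11 * a17 * a17 - a01 * a12 * a12 * a22 - a01 * a17 * a17 * a77 - a03 * a11 * a12 * a23 - a03 * a12 * a22 * a23 - a03 * a12 * a23 * a33) * e16 + (-a01 * a11 * a11 * a12 - a01 * a11 * a12 * a22 - a01 * a12 * a12 * a12 - a01 * a12 * a17 * a17 - a01 * a12 * a22 * a22 - a01 * a12 * a23 * a23 - a03 * a12 * a12 * a23 - a03 * a22 * a22 * a23 - a03 * a22 * a23 * a33 - a03 * a23 * a23 * a23 - a03 * a23 * a33 * a33) * e26 + (-a01 * a11 * a12 * a23 - a01 * a12 * a22 * a23 - a01 * a12 * a23 * a33 - a03 * a22 * a23 * a23 - 2 * a03 * a23 * a23 * a33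 - a03 * a33 * a33 * a33) * e36 + (1) * w43 + (-a66) * w33)
  have w21 : a01 * a11 * a11 * x14 + a01 * a11 * a12 * x24 + a01 * a11 * a17 * x47 + a01 * a12 * a12 * x14 + a01 * a12 * a22 * x24 + a01 * a12 * a23 * x34 + a01 * a17 * a17 * x14 + a01 * a17 * a77 * x47 + a03 * a12 * a23 * x14 + a03 * a22 * a23 * x24 + a03 * a23 * a23 * x34 + a03 * a23 * a33 * x24 + a03 * a33 * a33 * x34 = 0 := canc (n45) (by linear_combination (a01 * a11 * a17 + a01 * a17 * a77) * e57 + (-a01 * a11 * a11 - a01 * a12 * a12 - a01 * a17 * a17 - a03 * a12 * a23) * e15 + (-a01 * a11 * a12 - a01 * a12 * a22 - a03 * a22 * a23 - a03 * a23 * a33) * e25 + (-a01 * a12 * a23 - a03 * a23 * a23 - a03 * a33 * a33) * e35 + (1) * w32 + (-a55) * w22 + (-a56) * w23)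
  have w10 : a01 * a12 * x02 + a01 * a17 * x07 + a03 * a23 * x02 = 0 := canc (n04) (by linear_combination (a01 * a17) * e47 + (-a01 * a11) * e14 + (-a01 * a12 - a03 * a23) * e24 + (-a03 * a33) * e34 + (1) * w21 + (-a44) * w11 + (-a45) * w12)
  have hx02 : x02 = 0 := canc (mul_ne_zero (n01) n12) (by linear_combination (1/2) * ((1) * w10 + (-a17) * e17 + (a12) * e12 + (a23) * e23))
  subst hx02
  have hx24 : x24 = 0 := canc (n04) (by linear_combination (1) * ((1) * e02))
  subst hx24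
  have hx13 : x13 = 0 := canc (n12) (by linear_combination (1) * ((1) * e23))
  subst hx13
  have hx34 : x34 = 0 := canc (n04) (by linear_combination (1) * ((1) * e03))
  subst hx34
  have hx14 : x14 = 0 := canc (n01) (by linear_combination (1) * ((1) * e04))
  subst hx14
  have hx27 : x27 = 0 := canc (n17) (by linear_combination (1) * ((1) * e12))
  subst hx27
  have hx37 : x37 = 0 := canc (n17) (by linear_combination (1) * ((1) * e13))
  subst hx37
  have hx07 : x07 = 0 := canc (n01) (by linear_combination (1) * ((1) * e17))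
  subst hx07
  have hx25 : x25 = 0 := canc (n45) (by linear_combination (-1) * ((1) * e24))
  subst hx25
  have hx35 : x35 = 0 := canc (n45) (by linear_combination (-1) * ((1) * e34))
  subst hx35
  have hx36 : x36 = 0 := canc (n56) (by linear_combination (-1) * ((1) * e35))
  subst hx36
  have hx26 : x26 = 0 := canc (n23) (by linear_combination (1) * ((1) * e36))
  subst hx26
  have hx15 : x15 = 0 := canc (n01) (by linear_combination (1) * ((1) * e05))
  subst hx15
  have hx16 : x16 = 0 := canc (n01) (by linear_combination (1) * ((1) * e06))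
  subst hx16
  have hx47 : x47 = 0 := canc (n04) (by linear_combination (1) * ((1) * e07))
  subst hx47
  have hx57 : x57 = 0 := canc (n17) (by linear_combination (1) * ((1) * e15))
  subst hx57
  have hx67 : x67 = 0 := canc (n17) (by linear_combination (1) * ((1) * e16))
  subst hx67
  simp

theorem ssp : SSPGraph G := by
  intro A hA X hX h1 h2 h3
  obtain ⟨hz, hn, hx, he⟩ := unpack G A hA X h1 h2 h3
  have z02 := hz 0 2 (by decide) (by decide)
  have z20 := hz 2 0 (by decide) (by decide)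
  have t20 : X 2 0 = X 0 2 := hX.apply 0 2
  have z05 := hz 0 5 (by decide) (by decide)
  have z50 := hz 5 0 (by decide) (by decide)
  have t50 : X 5 0 = X 0 5 := hX.apply 0 5
  have z06 := hz 0 6 (by decide) (by decide)
  have z60 := hz 6 0 (by decide) (by decide)
  have t60 : X 6 0 = X 0 6 := hX.apply 0 6
  have z07 := hz 0 7 (by decide) (by decide)
  have z70 := hz 7 0 (by decide) (by decide)
  have t70 : X 7 0 = X 0 7 := hX.apply 0 7
  have z13 := hz 1 3 (by decide) (by decide)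
  have z31 := hz 3 1 (by decide) (by decide)
  have t31 : X 3 1 = X 1 3 := hX.apply 1 3
  have z14 := hz 1 4 (by decide) (by decide)
  have z41 := hz 4 1 (by decide) (by decide)
  have t41 : X 4 1 = X 1 4 := hX.apply 1 4
  have z15 := hz 1 5 (by decide) (by decide)
  have z51 := hz 5 1 (by decide) (by decide)
  have t51 : X 5 1 = X 1 5 := hX.apply 1 5
  have z16 := hz 1 6 (by decide) (by decide)
  have z61 := hz 6 1 (by decide) (by decide)
  have t61 : X 6 1 = X 1 6 := hX.apply 1 6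
  have z24 := hz 2 4 (by decide) (by decide)
  have z42 := hz 4 2 (by decide) (by decide)
  have t42 : X 4 2 = X 2 4 := hX.apply 2 4
  have z25 := hz 2 5 (by decide) (by decide)
  have z52 := hz 5 2 (by decide) (by decide)
  have t52 : X 5 2 = X 2 5 := hX.apply 2 5
  have z26 := hz 2 6 (by decide) (by decide)
  have z62 := hz 6 2 (by decide) (by decide)
  have t62 : X 6 2 = X 2 6 := hX.apply 2 6
  have z27 := hz 2 7 (by decide) (by decide)
  have z72 := hz 7 2 (by decide) (by decide)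
  have t72 : X 7 2 = X 2 7 := hX.apply 2 7
  have z34 := hz 3 4 (by decide) (by decide)
  have z43 := hz 4 3 (by decide) (by decide)
  have t43 : X 4 3 = X 3 4 := hX.apply 3 4
  have z35 := hz 3 5 (by decide) (by decide)
  have z53 := hz 5 3 (by decide) (by decide)
  have t53 : X 5 3 = X 3 5 := hX.apply 3 5
  have z36 := hz 3 6 (by decide) (by decide)
  have z63 := hz 6 3 (by decide) (by decide)
  have t63 : X 6 3 = X 3 6 := hX.apply 3 6
  have z37 := hz 3 7 (by decide) (by decide)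
  have z73 := hz 7 3 (by decide) (by decide)
  have t73 : X 7 3 = X 3 7 := hX.apply 3 7
  have z46 := hz 4 6 (by decide) (by decide)
  have z64 := hz 6 4 (by decide) (by decide)
  have t64 : X 6 4 = X 4 6 := hX.apply 4 6
  have z47 := hz 4 7 (by decide) (by decide)
  have z74 := hz 7 4 (by decide) (by decide)
  have t74 : X 7 4 = X 4 7 := hX.apply 4 7
  have z57 := hz 5 7 (by decide) (by decide)
  have z75 := hz 7 5 (by decide) (by decide)
  have t75 : X 7 5 = X 5 7 := hX.apply 5 7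
  have z67 := hz 6 7 (by decide) (by decide)
  have z76 := hz 7 6 (by decide) (by decide)
  have t76 : X 7 6 = X 6 7 := hX.apply 6 7
  have s10 : A 1 0 = A 0 1 := hA.1.apply 0 1
  have y01 := hx 0 1 (by decide)
  have y10 := hx 1 0 (by decide)
  have s30 : A 3 0 = A 0 3 := hA.1.apply 0 3
  have y03 := hx 0 3 (by decide)
  have y30 := hx 3 0 (by decide)
  have s40 : A 4 0 = A 0 4 := hA.1.apply 0 4
  have y04 := hx 0 4 (by decide)
  have y40 := hx 4 0 (by decide)
  have s21 : A 2 1 = A 1 2 := hA.1.apply 1 2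
  have y12 := hx 1 2 (by decide)
  have y21 := hx 2 1 (by decide)
  have s71 : A 7 1 = A 1 7 := hA.1.apply 1 7
  have y17 := hx 1 7 (by decide)
  have y71 := hx 7 1 (by decide)
  have s32 : A 3 2 = A 2 3 := hA.1.apply 2 3
  have y23 := hx 2 3 (by decide)
  have y32 := hx 3 2 (by decide)
  have s54 : A 5 4 = A 4 5 := hA.1.apply 4 5
  have y45 := hx 4 5 (by decide)
  have y54 := hx 5 4 (by decide)
  have s65 : A 6 5 = A 5 6 := hA.1.apply 5 6
  have y56 := hx 5 6 (by decide)
  have y65 := hx 6 5 (by decide)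
  have y00 := hx 0 0 (by decide)
  have y11 := hx 1 1 (by decide)
  have y22 := hx 2 2 (by decide)
  have y33 := hx 3 3 (by decide)
  have y44 := hx 4 4 (by decide)
  have y55 := hx 5 5 (by decide)
  have y66 := hx 6 6 (by decide)
  have y77 := hx 7 7 (by decide)
  have e01 := he 0 1
  have e02 := he 0 2
  have e03 := he 0 3
  have e04 := he 0 4
  have e05 := he 0 5
  have e06 := he 0 6
  have e07 := he 0 7
  have e12 := he 1 2
  have e13 := he 1 3
  have e14 := he 1 4
  have e15 := he 1 5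
  have e16 := he 1 6
  have e17 := he 1 7
  have e23 := he 2 3
  have e24 := he 2 4
  have e25 := he 2 5
  have e26 := he 2 6
  have e27 := he 2 7
  have e34 := he 3 4
  have e35 := he 3 5
  have e36 := he 3 6
  have e37 := he 3 7
  have e45 := he 4 5
  have e46 := he 4 6
  have e47 := he 4 7
  have e56 := he 5 6
  have e57 := he 5 7
  have e67 := he 6 7
  simp only [Fin.sum_univ_eight, z02, z20, t20, z05, z50, t50, z06, z60, t60, z07, z70, t70, z13, z31, t31, z14, z41, t41, z15, z51, t51, z16, z61, t61, z24, z42, t42, z25, z52, t52, z26, z62, t62, z27, z72, t72, z34, z43, t43, z35, z53, t53, z36, z63, t63, z37, z73, t73, z46, z64, t64, z47, z74, t74, z57, z75, t75, z67, z76, t76, s10, y01, y10, s30, y03, y30, s40, y04, y40, s21, y12, y21, s71, y17, y71, s32, y23, y32, s54, y45, y54, s65, y56, y65, y00, y11, y22, y33, y44, y55, y66, y77] at e01 e02 e03 e04 e05 e06 e07 e12 e13 e14 e15 e16 e17 e23 e24 e25 e26 e27 e34 e35 e36 e37 e45 e46 e47 e56 e57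 e67
  obtain ⟨w02, w05, w06, w07, w13, w14, w15, w16, w24, w25, w26, w27, w34, w35, w36, w37, w46, w47, w57, w67⟩ := alg (A 0 0) (A 1 1) (A 2 2) (A 3 3) (A 4 4) (A 5 5) (A 6 6) (A 7 7) (A 0 1) (A 0 3) (A 0 4) (A 1 2) (A 1 7) (A 2 3) (A 4 5) (A 5 6)
    (X 0 2) (X 0 5) (X 0 6) (X 0 7) (X 1 3) (X 1 4) (X 1 5) (X 1 6) (X 2 4) (X 2 5) (X 2 6) (X 2 7) (X 3 4) (X 3 5) (X 3 6) (X 3 7) (X 4 6) (X 4 7) (X 5 7) (X 6 7)
    (by linear_combination e01) (by linear_combination e02) (by linear_combination e03) (by linear_combination e04) (by linear_combination e05) (by linear_combination e06) (by linear_combination e07) (by linear_combination e12) (by linear_combination e13) (by linear_combination e14) (by linear_combination e15) (by linear_combination e16) (by linear_combination e17) (by linear_combination e23) (by linear_combination e24) (by linear_combination e25) (by linear_combination e26) (by linear_combination e27) (by linear_combination e34) (by linear_combination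 e35) (by linear_combination e36) (by linear_combination e37) (by linear_combination e45) (by linear_combination e46) (by linear_combination e47) (by linear_combination e56) (by linear_combination e57) (by linear_combination e67)
    (hn 0 1 (by decide)) (hn 0 3 (by decide)) (hn 0 4 (by decide)) (hn 1 2 (by decide)) (hn 1 7 (by decide)) (hn 2 3 (by decide)) (hn 4 5 (by decide)) (hn 5 6 (by decide))
  ext i j
  fin_cases i <;> fin_cases j
  exacts [y00, y01, w02, y03, y04, w05, w06, w07, y10, y11, y12, w13, w14, w15, w16, y17, t20.trans w02, y21, y22, y23, w24, w25, w26, w27, y30, t31.trans w13, y32, y33, w34, w35, w36, w37, y40, t41.trans w14, t42.trans w24, t43.trans w34, y44, y45, w46, w47, t50.trans w05, t51.trans w15, t52.trans w25, t53.trans w35, y54, y55, y56, w57, t60.trans w06, t61.trans w16, t62.trans w26, t63.trans w36, t64.trans w46, y65, y66, w67, t70.trans w07, y71, t72.trans w27, t73.trans w37, t74.trans w47, t75.trans w57, t76.trans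 w67, y77]

end Pool.Agent.H14.SspG31
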