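import Pool.Agent.H14.SspDefs

set_option autoImplicit false

namespace Pool.Agent.H14.Q

open SimpleGraph

variable {n : ℕ}

theorem cyc_sub (G : SimpleGraph (Fin n)) [DecidableRel G.Adj] (hc : G.Connected)
    (hm : G.edgeFinset.card = n) {v w : Fin n} (c : G.Walk v v) (d : G.Walk w w) (h1 : c.IsCycle)
    (h2 : d.IsCycle) : c.edges.toFinset ⊆ d.edges.toFinset := by
  intro e he
  rw [List.mem_toFinset] at he ⊢
  by_contra hn
  induction e using Sym2.ind with
  | h x y =>
    have hb : ¬ G.IsBridge s(x, y) := fun h => h.notMem_edges_of_isCycle h1 he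
    have hx : s(x, y) ∈ G.edgeSet := c.edges_subset_edgeSet he
    have ht : (G.deleteEdges {s(x, y)}).IsTree := by
      rw [isTree_iff_connected_and_card]
      refine ⟨hc.connected_delete_edge_of_not_isBridge hb, ?_⟩
      rw [edgeSet_deleteEdges, Nat.card_coe_set_eq, Set.ncard_diff_singleton_add_one hx,
        ← coe_edgeFinset, Set.ncard_coe_finset, hm]
      simp
    exact ht.isAcyclic _ (Walk.IsCycle.toDeleteEdges G {s(x, y)} h2 fun e he h => hn (Set.mem_singleton_iff.mp h ▸ he))

theorem uni (G : SimpleGraph (Fin n)) [DecidableRel G.Adj] (hc : G.Connected)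
    (hm : ∑ v, G.degree v = 2 * n) {v : Fin n} (c : G.Walk v v) (h1 : c.IsCycle) :
    Unicyclic G c.length := by
  have hm' : G.edgeFinset.card = n := by
    have := G.sum_degrees_eq_twice_card_edges; omega
  exact ⟨hc, v, c, h1, rfl, fun w d h2 =>
    Finset.Subset.antisymm (cyc_sub G hc hm' d c h2 h1) (cyc_sub G hc hm' c d h1 h2)⟩

theorem conn3 (G : SimpleGraph (Fin n)) (r : Fin n)
    (h : ∀ x, x = r ∨ G.Adj r x ∨ ∃ y, G.Adj r y ∧ (G.Adj y x ∨ ∃ z, G.Adj y z ∧ G.Adj z x)) :
    G.Connected := by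
  have k : ∀ x, G.Reachable r x := by
    intro x
    rcases h x with rfl | h | ⟨y, h1, h2 | ⟨z, h2, h3⟩⟩
    · rfl
    · exact h.reachable
    · exact h1.reachable.trans h2.reachable
    · exact (h1.reachable.trans h2.reachable).trans h3.reachable
  have : Nonempty (Fin n) := ⟨r⟩
  exact ⟨fun x y => (k x).symm.trans (k y)⟩

end Pool.Agent.H14.Q
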