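import Mathlib

set_option autoImplicit false

namespace Pool.Agent.H14.SumDiff

open Finset

variable {V : Type}

/-- The sum index `sm(G)`. -/
noncomputable def sm (G : SimpleGraph V) : ℕ :=
  sInf {k | ∃ f : V → ℤ, Function.Injective f ∧ {s | ∃ u v, G.Adj u v ∧ f u + f v = s}.ncard = k}

/-- The difference index `df(G)`. -/
noncomputable def df (G : SimpleGraph V) : ℕ :=
  sInf {k | ∃ f : V → ℤ, Function.Injective f ∧ {s | ∃ u v, G.Adj u v ∧ |f u - f v| = s}.ncard = k}

def Gr (k R : ℕ) : SimpleGraph ((Fin k → Fin R) × Bool) :=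
  SimpleGraph.fromRel fun a b => a.2 = false ∧ b.2 = true ∧
    ∃ o : Option (Fin k), ∀ j, (b.1 j : ℕ) = a.1 j + if o = some j then 1 else 0

theorem adj {k R : ℕ} (x y : Fin k → Fin R) (o : Option (Fin k))
    (h : ∀ j, (y j : ℕ) = x j + if o = some j then 1 else 0) : (Gr k R).Adj (x, false) (y, true) :=
  ⟨by simp, .inl ⟨rfl, rfl, o, h⟩⟩

theorem exists_inj [Finite V] : ∃ f : V → ℤ, Function.Injective f := by
  obtain ⟨n, ⟨e⟩⟩ := Finite.exists_equiv_fin V
  exact ⟨fun v => (e v : ℕ), fun a b h => e.injective (Fin.ext (Nat.cast_injective (R := ℤ) h))⟩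

theorem fin_im [Finite V] (G : SimpleGraph V) (φ : V → V → ℤ) :
    {s | ∃ u v, G.Adj u v ∧ φ u v = s}.Finite :=
  (Set.finite_range fun p : V × V => φ p.1 p.2).subset fun _ ⟨u, v, _, h⟩ => ⟨(u, v), h⟩

theorem sm_eq (k R : ℕ) : sm (Gr k (R + 2)) = k + 1 := by
  apply le_antisymm
  · let N : (Fin k → Fin (R + 2)) → ℕ := fun x => finFunctionFinEquiv x
    let f : (Fin k → Fin (R + 2)) × Bool → ℤ := fun a => if a.2 then N a.1 else -N a.1 - 1
    have hN : ∀ x y, N x = N y → x = y := fun x y h => finFunctionFinEquiv.injective (Fin.ext h)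
    have hf : Function.Injective f := by
      rintro ⟨x, _ | _⟩ ⟨y, _ | _⟩ h <;> simp only [f, if_true, Bool.false_eq_true, if_false] at h
      · rw [hN x y (by omega)]
      · omega
      · omega
      · rw [hN x y (by omega)]
    refine (Nat.sInf_le (m := {s | ∃ u v, (Gr k (R + 2)).Adj u v ∧
      f u + f v = s}.ncard) (by exact ⟨f, hf, rfl⟩)).trans ?_
    · let φ : Option (Fin k) → ℤ := fun o =>
        ((∑ j : Fin k, (if o = some j then 1 else 0) * (R + 2) ^ j.1 : ℕ) : ℤ) - 1
      have h : ∀ a b : (Fin k → Fin (R + 2)) × Bool, (a.2 = false ∧ b.2 = true ∧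
          ∃ o : Option (Fin k), ∀ j, (b.1 j : ℕ) = a.1 j + if o = some j then 1 else 0) →
          f a + f b ∈ Set.range φ := by
        rintro ⟨x, _⟩ ⟨y, _⟩ ⟨rfl, rfl, o, h⟩
        dsimp only at h
        have : N y = N x + ∑ j : Fin k, (if o = some j then 1 else 0) * (R + 2) ^ j.1 := by
          simp only [N, finFunctionFinEquiv_apply, h, add_mul, sum_add_distrib]
        refine ⟨o, ?_⟩
        simp only [f, φ, if_true, Bool.false_eq_true, if_false]
        omega
      refine (Set.ncard_le_ncard (t := Set.range φ) ?_ (Set.finite_range _)).trans ?_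
      · rintro s ⟨u, v, ⟨-, k1 | k1⟩, rfl⟩
        exacts [h _ _ k1, add_comm (f v) _ ▸ h _ _ k1]
      · rw [← Set.image_univ]
        exact (Set.ncard_image_le Set.finite_univ).trans (by simp [Set.ncard_univ])
  · obtain ⟨f0, h0⟩ := exists_inj (V := (Fin k → Fin (R + 2)) × Bool)
    refine le_csInf ⟨_, f0, h0, rfl⟩ ?_
    rintro _ ⟨f, hf, rfl⟩
    let y : Option (Fin k) → Fin k → Fin (R + 2) := fun o j => if o = some j then 1 else 0
    have := Set.ncard_le_ncard_of_injOn (s := Set.univ)
      (fun o => f (0, false) + f (y o, true)) (fun o _ => (⟨_, _, adj 0 (y o) o fun j => ?_, rfl⟩ :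
        _ ∈ {s | ∃ u v, (Gr k (R + 2)).Adj u v ∧ f u + f v = s})) (fun o _ o' _ h => ?_)
      (fin_im _ _)
    · simpa [Set.ncard_univ] using this
    · simp only [y]
      split_ifs <;> simp
    · have e := congrFun (congrArg Prod.fst (hf (add_left_cancel h)))
      simp only [y] at e
      rcases o with _ | j
      · rcases o' with _ | j
        · rfl
        · simpa using e j
      · have := e j
        simp only [if_true] at this
        split_ifs at this with h
        · exact h.symm
        · simp at this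

theorem df_ge (k : ℕ) : k ≤ df (Gr k ((5 * k) ^ k + 2)) := by
  classical
  generalize hR : (5 * k) ^ k + 2 = R
  have : NeZero R := ⟨by omega⟩
  have hR0 : 0 < R := by omega
  obtain ⟨f0, h0⟩ := exists_inj (V := (Fin k → Fin R) × Bool)
  refine le_csInf ⟨_, f0, h0, rfl⟩ ?_
  rintro _ ⟨f, hf, rfl⟩
  rw [Set.ncard_eq_toFinset_card _ (fin_im _ fun u v => |f u - f v|)]
  generalize hD : (fin_im (Gr k R) fun u v => |f u - f v|).toFinset = D
  have hm : ∀ u v, (Gr k R).Adj u v → |f u - f v| ∈ D := fun u v h =>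
    hD ▸ (Set.Finite.mem_toFinset _).2 ⟨u, v, h, rfl⟩
  let P : (Fin k → Fin R) × Bool → ℕ → Prop := fun v m =>
    ∃ n : D → ℤ, (∀ d, |n d| ≤ m) ∧ f v = f (0, false) + ∑ d, n d * d
  have step : ∀ u v m, (Gr k R).Adj u v → P u m → P v (m + 1) := by
    rintro u v m h ⟨n, h1, h2⟩
    obtain ⟨ε, e1, e2⟩ : ∃ ε : ℤ, |ε| ≤ 1 ∧ f v = f u + ε * |f u - f v| := by
      rcases abs_choice (f u - f v) with h | h <;> rw [h]
      exacts [⟨-1, by simp, by ring⟩, ⟨1, by simp, by ring⟩]
    refine ⟨fun d => n d + if d = ⟨_, hm u v h⟩ then ε else 0, fun d => (abs_add_le _ _).trans ?_, ?_⟩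
    · have := h1 d
      split_ifs
      · omega
      · rw [abs_zero]; omega
    · simp only [add_mul, sum_add_distrib, ite_mul, zero_mul, sum_ite_eq', mem_univ, if_true]
      omega
  have path : ∀ m (x : Fin k → Fin R), ∑ j, (x j : ℕ) = m → P (x, false) (2 * m) := by
    intro m
    induction m with
    | zero =>
      intro x hx
      obtain rfl : x = 0 := funext fun j => Fin.ext (sum_eq_zero_iff.1 hx j (mem_univ j))
      exact ⟨0, by simp, by simp⟩
    | succ m ih =>
      intro x hx
      obtain ⟨j, -, hj⟩ := exists_ne_zero_of_sum_ne_zero (hx.trans_ne m.succ_ne_zero)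
      let x' := Function.update x j ⟨x j - 1, by have := (x j).2; omega⟩
      have e : ∀ l, (x l : ℕ) = x' l + if some j = some l then 1 else 0 := fun l => by
        by_cases h : l = j
        · subst h; simp only [x', Function.update_self, if_true]; exact (Nat.sub_add_cancel (by omega)).symm
        · simp [x', h, Ne.symm h]
      refine step _ _ _ (adj x x none (by simp)).symm (step _ _ _ (adj x' x _ e) (ih x' ?_))
      simp only [e, sum_add_distrib, Option.some.injEq, sum_ite_eq, mem_univ, if_true] at hx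
      omega
  choose n n1 n2 using fun x => path _ x rfl
  have c := card_le_card_of_injOn (s := univ)
    (t := Fintype.piFinset fun _ : D => Icc (-(2 * k * R : ℕ) : ℤ) (2 * k * R : ℕ)) n
    (fun x _ => ?_) fun x _ y _ h => congrArg Prod.fst (@hf (x, false) (y, false) (by rw [n2 x, n2 y, h]))
  · by_contra hk
    simp only [card_univ, Fintype.card_pi, Fintype.card_fin, prod_const, Fintype.card_piFinset,
      Int.card_Icc, Fintype.card_coe] at c
    obtain ⟨k, rfl⟩ : ∃ l, k = l + 1 := ⟨k - 1, by omega⟩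
    have h1 : ((2 * (k + 1) * R : ℕ) + 1 - -(2 * (k + 1) * R : ℕ) : ℤ).toNat ≤ 5 * (k + 1) * R := by
      have : 0 < (k + 1) * R := by positivity
      simp only [mul_assoc] at *
      omega
    have h2 := c.trans ((Nat.pow_le_pow_left h1 _).trans
      (Nat.pow_le_pow_right (by positivity) (by omega : #D ≤ k)))
    rw [mul_pow, pow_succ', Nat.mul_le_mul_right_iff (by positivity)] at h2
    have := Nat.pow_le_pow_right (by omega : 0 < 5 * (k + 1)) k.le_succ
    simp only [Nat.succ_eq_add_one] at this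
    omega
  · refine mem_coe.2 (Fintype.mem_piFinset.2 fun d => mem_Icc.2 (abs_le.1 ((n1 x d).trans ?_)))
    have := sum_le_card_nsmul univ (fun j => (x j : ℕ)) R fun j _ => (x j).2.le
    simp only [card_univ, Fintype.card_fin, smul_eq_mul] at this
    rw [mul_assoc]
    omega

theorem main (k : ℕ) : ∃ (V : Type) (_ : Finite V) (G : SimpleGraph V), G ≠ ⊥ ∧ G.IsBipartite ∧
    sm G = k + 1 ∧ k ≤ df G := by
  refine ⟨_, inferInstance, Gr k ((5 * k) ^ k + 2), fun h => ?_, ?_, sm_eq _ _, df_ge k⟩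
  · exact (h ▸ adj (k := k) (R := (5 * k) ^ k + 2) 0 0 none (by simp) :
      (⊥ : SimpleGraph _).Adj _ _)
  · refine ⟨SimpleGraph.Coloring.mk (fun a => if a.2 then 1 else 0) ?_⟩
    rintro a b ⟨-, ⟨h1, h2, -⟩ | ⟨h1, h2, -⟩⟩ <;> simp [h1, h2]

end Pool.Agent.H14.SumDiff
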