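import Mathlib

set_option autoImplicit false

namespace Pool.Agent.H14.SymGB

open Finset MvPolynomial

/-- lattice points of `S_n` -/
def P (n : ℕ) : Type :=
  {M : Fin n → Fin n → ℕ // (∀ i j, M i j = M j i) ∧ ∀ i, ∑ j, M i j = 2}

variable {n : ℕ}

/-- number of entries equal to `2` -/
def twos (M : Fin n → Fin n → ℕ) : ℕ :=
  (univ.filter fun p : Fin n × Fin n => M p.1 p.2 = 2).card

/-- `r` is a total order in which matrices with more entries `2` are smaller -/
def IsExt (r : P n → P n → Prop) : Prop :=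
  IsStrictTotalOrder (P n) r ∧ ∀ M N : P n, twos N.1 < twos M.1 → r M N

def deg (u : P n →₀ ℕ) : ℕ := u.sum fun _ e => e

/-- the sum, with multiplicity, of the lattice points of a monomial -/
def mat (u : P n →₀ ℕ) (i j : Fin n) : ℕ := u.sum fun M e => e * M.1 i j

/-- graded reverse lexicographic order: `u ≺ v` -/
def glt (r : P n → P n → Prop) (u v : P n →₀ ℕ) : Prop :=
  deg u < deg v ∨ (deg u = deg v ∧ ∃ M, v M < u M ∧ ∀ N, r N M → u N = v N)

variable (k : Type*) [Field k]

/-- the toric ideal; the variable `none` is `z` -/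
noncomputable def toric (n : ℕ) : Ideal (MvPolynomial (P n) k) :=
  RingHom.ker (aeval fun M : P n =>
    ((∏ i, ∏ j, X (some (i, j)) ^ M.1 i j) * X none : MvPolynomial (Option (Fin n × Fin n)) k))

variable {k}

/-- `u` is the leading monomial of `f` -/
def IsLM (r : P n → P n → Prop) (f : MvPolynomial (P n) k) (u : P n →₀ ℕ) : Prop :=
  u ∈ f.support ∧ ∀ w ∈ f.support, w ≠ u → glt r w u

/-- `G` is a Groebner basis of the toric ideal -/
def IsGB (r : P n → P n → Prop) (G : Set (MvPolynomial (P n) k)) : Prop :=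
  (∀ g ∈ G, g ∈ toric k n) ∧
    ∀ f ∈ toric k n, ∀ u, IsLM r f u → ∃ g ∈ G, ∃ w, IsLM r g w ∧ w ≤ u

lemma deg_add (u v : P n →₀ ℕ) : deg (u + v) = deg u + deg v :=
  Finsupp.sum_add_index' (fun _ => rfl) fun _ _ _ => rfl

lemma mat_add (u v : P n →₀ ℕ) (i j : Fin n) : mat (u + v) i j = mat u i j + mat v i j :=
  Finsupp.sum_add_index' (fun _ => by simp) fun _ _ _ => by ring

lemma deg_single (M : P n) (e : ℕ) : deg (Finsupp.single M e) = e :=
  Finsupp.sum_single_index rfl

lemma mat_single (M : P n) (e : ℕ) (i j : Fin n) : mat (Finsupp.single M e) i j = e * M.1 i j :=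
  Finsupp.sum_single_index (by simp)

noncomputable def expo (u : P n →₀ ℕ) : Option (Fin n × Fin n) →₀ ℕ :=
  Finsupp.equivFunOnFinite.symm fun o => o.elim (deg u) fun p => mat u p.1 p.2

lemma expo_eq {u v : P n →₀ ℕ} : expo u = expo v ↔ deg u = deg v ∧ mat u = mat v := by
  constructor
  · intro h
    exact ⟨DFunLike.congr_fun h none, funext₂ fun i j => DFunLike.congr_fun h (some (i, j))⟩
  · rintro ⟨h1, h2⟩
    simp [expo, h1, h2]

lemma pi_mono (u : P n →₀ ℕ) (c : k) : aeval (fun M : P n =>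
    ((∏ i, ∏ j, X (some (i, j)) ^ M.1 i j) * X none : MvPolynomial (Option (Fin n × Fin n)) k))
    (monomial u c) = monomial (expo u) c := by
  induction u using Finsupp.induction_linear generalizing c with
  | zero =>
    have : expo (0 : P n →₀ ℕ) = 0 := by
      ext o; cases o <;> simp [expo, deg, mat]
    rw [this]; simp
  | add u v h1 h2 =>
    have : expo (u + v) = expo u + expo v := by
      ext o; cases o <;> simp [expo, deg_add, mat_add]
    rw [this, ← mul_one c, ← monomial_mul, map_mul, h1, h2, monomial_mul]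
  | single M e =>
    rw [aeval_monomial, Finsupp.prod_single_index (by simp), monomial_eq,
      Finsupp.prod_fintype _ _ (by simp), Fintype.prod_option, Fintype.prod_prod_type]
    simp [expo, deg_single, mat_single, mul_pow, ← prod_pow, ← pow_mul, mul_comm]

lemma lm_fiber {r : P n → P n → Prop} {f : MvPolynomial (P n) k} (hf : f ∈ toric k n)
    {w : P n →₀ ℕ} (h : IsLM r f w) : ∃ w', glt r w' w ∧ expo w' = expo w := by
  classical
  by_contra hn
  push Not at hn
  have h0 := congrArg (coeff (expo w)) (RingHom.mem_ker.1 hf)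
  rw [f.as_sum, map_sum, coeff_sum, coeff_zero, sum_eq_single w] at h0
  · rw [pi_mono, coeff_monomial, if_pos rfl] at h0
    exact mem_support_iff.1 h.1 h0
  · intro v hv hne
    rw [pi_mono, coeff_monomial, if_neg (hn v (h.2 v hv hne))]
  · intro hw; exact absurd h.1 hw

lemma glt_add {r : P n → P n → Prop} {u v : P n →₀ ℕ} (h : glt r u v) (c : P n →₀ ℕ) :
    glt r (u + c) (v + c) := by
  rcases h with h | ⟨h, M, h1, h2⟩
  · left; rw [deg_add, deg_add]; omega
  · right
    exact ⟨by rw [deg_add, deg_add, h], M, by simpa using h1, fun N hN => by simp [h2 N hN]⟩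

/-- `M₁ M₂` is least in its fibre -/
def Std (r : P n → P n → Prop) (A B : P n) : Prop :=
  ∀ C D : P n, (∀ i j, C.1 i j + D.1 i j = A.1 i j + B.1 i j) →
    (C = A ∧ D = B) ∨ (C = B ∧ D = A) ∨ (r A C ∧ r A D)

lemma Std.min {r : P n → P n → Prop} (hr : ∀ M, ¬ r M M) {A B : P n} (h : Std r A B)
    (w : P n →₀ ℕ) (e : expo w = expo (Finsupp.single A 1 + Finsupp.single B 1)) :
    ¬ glt r w (Finsupp.single A 1 + Finsupp.single B 1) := by
  classical
  obtain ⟨e1, e2⟩ := expo_eq.1 e
  have d2 : Multiset.card (Finsupp.toMultiset w) = 2 := by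
    rw [Finsupp.card_toMultiset]
    rw [deg_add, deg_single, deg_single] at e1
    exact e1
  obtain ⟨C, D, hw⟩ := Multiset.card_eq_two.1 d2
  have hw' : w = Finsupp.single C 1 + Finsupp.single D 1 := by
    rw [Finsupp.toMultiset_eq_iff.1 hw, Multiset.insert_eq_cons, ← Multiset.singleton_add,
      Multiset.toFinsupp_add, Multiset.toFinsupp_singleton, Multiset.toFinsupp_singleton]
  subst hw'
  rintro (g | ⟨-, M, g1, g2⟩)
  · omega
  rcases h C D (fun i j => by
    simpa [mat_add, mat_single] using congrFun₂ e2 i j) with ⟨rfl, rfl⟩ | ⟨rfl, rfl⟩ | ⟨a, b⟩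
  · exact lt_irrefl _ g1
  · rw [add_comm] at g1; exact lt_irrefl _ g1
  · have : r A M := by
      by_cases e : C = M
      · exact e ▸ a
      by_cases e' : D = M
      · exact e' ▸ b
      simp [e, e'] at g1
    have := g2 A this
    have n1 : C ≠ A := fun e => hr A (e ▸ a)
    have n2 : D ≠ A := fun e => hr A (e ▸ b)
    simp [n1, n2] at this
    omega

lemma cubic {r : P n → P n → Prop} (hr : ∀ M, ¬ r M M) (A B C : P n) (v : P n →₀ ℕ)
    (h1 : Std r A B) (h2 : Std r A C) (h3 : Std r B C)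
    (he : expo v = expo (Finsupp.single A 1 + Finsupp.single B 1 + Finsupp.single C 1))
    (hv : glt r v (Finsupp.single A 1 + Finsupp.single B 1 + Finsupp.single C 1))
    {G : Set (MvPolynomial (P n) k)} (hG : IsGB r G) :
    ∃ g ∈ G, IsLM r g (Finsupp.single A 1 + Finsupp.single B 1 + Finsupp.single C 1) := by
  classical
  set u := Finsupp.single A 1 + Finsupp.single B 1 + Finsupp.single C 1 with hu
  have hne : v ≠ u := by
    rintro rfl
    rcases hv with g | ⟨-, M, g, -⟩ <;> exact lt_irrefl _ g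
  obtain ⟨g, hg, w, hw, hle⟩ := hG.2 (monomial u 1 - monomial v 1) (by
    rw [toric, RingHom.mem_ker, map_sub, pi_mono, pi_mono, he, sub_self]) u ⟨by
      simp [mem_support_iff, coeff_monomial, hne], fun w hw hwu => by
      by_cases e : v = w
      · exact e ▸ hv
      · simp [mem_support_iff, coeff_monomial, hwu.symm, e] at hw⟩
  refine ⟨g, hg, ?_⟩
  by_cases e : w = u
  · exact e ▸ hw
  exfalso
  obtain ⟨w', g1, g2⟩ := lm_fiber (hG.1 g hg) hw
  have key : ∀ X Y : P n, Std r X Y → ¬ w ≤ Finsupp.single X 1 + Finsupp.single Y 1 := by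
    intro X Y hs hle
    obtain ⟨c, hc⟩ := exists_add_of_le hle
    apply hs.min hr (w' + c)
    · rw [hc, expo_eq]
      obtain ⟨a, b⟩ := expo_eq.1 g2
      exact ⟨by rw [deg_add, deg_add, a], funext₂ fun i j => by rw [mat_add, mat_add, b]⟩
    · rw [hc]; exact glt_add g1 c
  obtain ⟨M, hM⟩ : ∃ M, w M < u M := by
    by_contra hn
    push Not at hn
    exact e (le_antisymm hle hn)
  have drop : ∀ X Y Z : P n, u = Finsupp.single X 1 + Finsupp.single Y 1 + Finsupp.single Z 1 →
      Z = M → w ≤ Finsupp.single X 1 + Finsupp.single Y 1 := by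
    rintro X Y Z hz rfl N
    have a := hle N
    rw [hz] at a hM
    by_cases q : Z = N
    · subst q
      simp only [Finsupp.add_apply, Finsupp.single_eq_same] at hM ⊢
      omega
    · simpa [q] using a
  by_cases a : C = M
  · exact key A B h1 (drop A B C hu a)
  by_cases b : B = M
  · exact key A C h2 (drop A C B (by rw [hu]; abel) b)
  by_cases c : A = M
  · exact key B C h3 (drop B C A (by rw [hu]; abel) c)
  simp [hu, a, b, c] at hM

/-! the case `n = 5` -/

def mk (x y z w : ℕ) : Fin 5 → Fin 5 → ℕ :=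
  ![![2 - x, x, 0, 0, 0], ![x, 2 - x, 0, 0, 0], ![0, 0, 2 - y - z, y, z],
    ![0, 0, y, 2 - y - w, w], ![0, 0, z, w, 2 - z - w]]

def key (M : Fin 5 → Fin 5 → ℕ) : ℕ :=
  3 * (25 - twos M) + if M = mk 0 2 0 0 then 0 else if M = mk 0 0 0 0 then 1 else 2

def ord (M N : P 5) : Prop := key M.1 < key N.1 ∨ (key M.1 = key N.1 ∧ WellOrderingRel M N)

lemma ord_ext : IsExt ord := by
  refine ⟨?_, fun M N h => Or.inl ?_⟩
  · have : IsStrictTotalOrder (ℕ × P 5) (Prod.Lex (· < ·) WellOrderingRel) := {}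
    let f : ord ↪r Prod.Lex (· < ·) WellOrderingRel :=
      ⟨⟨fun M => (key M.1, M), fun _ _ e => congrArg Prod.snd e⟩, Prod.lex_def⟩
    exact f.isStrictTotalOrder
  · have : twos M.1 ≤ 25 := (card_filter_le _ _).trans (by simp)
    unfold key
    split_ifs <;> omega

lemma ord_irrefl (M : P 5) : ¬ ord M M := by
  have := ord_ext.1
  exact irrefl_of ord M

def pt (x y z w : ℕ) (h : (∀ i j, mk x y z w i j = mk x y z w j i) ∧ ∀ i, ∑ j, mk x y z w i j = 2) :
    P 5 := ⟨_, h⟩

lemma par (N : P 5) (h : ∀ i j : Fin 5, i.1 < 2 → 2 ≤ j.1 → N.1 i j = 0) :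
    ∃ x y z w : Fin 3, N.1 = mk x y z w := by
  obtain ⟨N, h1, h2⟩ := N
  have r0 := h2 0
  have r1 := h2 1
  have r2 := h2 2
  have r3 := h2 3
  have r4 := h2 4
  have := h 0 2 (by decide) (by decide)
  have := h 0 3 (by decide) (by decide)
  have := h 0 4 (by decide) (by decide)
  have := h 1 2 (by decide) (by decide)
  have := h 1 3 (by decide) (by decide)
  have := h 1 4 (by decide) (by decide)
  have := h1 1 0; have := h1 2 0; have := h1 3 0; have := h1 4 0; have := h1 2 1
  have := h1 3 1; have := h1 4 1; have := h1 3 2; have := h1 4 2; have := h1 4 3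
  simp only [Fin.sum_univ_five] at *
  refine ⟨⟨N 0 1, by omega⟩, ⟨N 2 3, by omega⟩, ⟨N 2 4, by omega⟩, ⟨N 3 4, by omega⟩, ?_⟩
  ext i j
  fin_cases i <;> fin_cases j <;> simp [mk] <;> omega

lemma std_of (A B : P 5) (h0 : ∀ i j : Fin 5, i.1 < 2 → 2 ≤ j.1 → A.1 i j + B.1 i j = 0)
    (h : ∀ x y z w x' y' z' w' : Fin 3, (∀ i j, mk x y z w i j + mk x' y' z' w' i j =
      A.1 i j + B.1 i j) → (mk x y z w = A.1 ∧ mk x' y' z' w' = B.1) ∨
      (mk x y z w = B.1 ∧ mk x' y' z' w' = A.1) ∨
      (key A.1 < key (mk x y z w) ∧ key A.1 < key (mk x' y' z' w'))) : Std ord A B := by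
  intro C D e
  obtain ⟨x, y, z, w, hc⟩ := par C fun i j a b => by have := h0 i j a b; have := e i j; omega
  obtain ⟨x', y', z', w', hd⟩ := par D fun i j a b => by have := h0 i j a b; have := e i j; omega
  rcases h x y z w x' y' z' w' (by rw [← hc, ← hd]; exact e) with a | a | a <;>
    rw [← hc, ← hd] at a
  · exact Or.inl ⟨Subtype.ext a.1, Subtype.ext a.2⟩
  · exact Or.inr (Or.inl ⟨Subtype.ext a.1, Subtype.ext a.2⟩)
  · exact Or.inr (Or.inr ⟨Or.inl a.1, Or.inl a.2⟩)

def ea : P 5 := pt 0 0 0 0 (by decide)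
def et (x : Fin 3) : P 5 := pt x 1 1 1 (by revert x; decide)
def b1 : P 5 := pt 0 2 0 0 (by decide)
def b2 : P 5 := pt 0 0 2 0 (by decide)
def b3 (x : Fin 3) : P 5 := pt x 0 0 2 (by revert x; decide)

lemma s1 : Std ord ea (et 0) := std_of _ _ (by decide) (by decide +kernel)
lemma s2 : Std ord ea (et 2) := std_of _ _ (by decide) (by decide +kernel)
lemma s3 : Std ord (et 0) (et 0) := std_of _ _ (by decide) (by decide +kernel)
lemma s4 : Std ord (et 0) (et 2) := std_of _ _ (by decide) (by decide +kernel)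

lemma main (x : Fin 3) (hx : x = 0 ∨ x = 2) {G : Set (MvPolynomial (P 5) k)} (hG : IsGB ord G) :
    ∃ g ∈ G, ∃ u, IsLM ord g u ∧ deg u = 3 ∧ 3 ≤ g.totalDegree ∧
      mat u = ![![6 - x.1, x.1, 0, 0, 0], ![x.1, 6 - x.1, 0, 0, 0], ![0, 0, 2, 2, 2], ![0, 0, 2, 2, 2],
        ![0, 0, 2, 2, 2]] := by
  classical
  have nb : ∀ N : P 5, ord N b1 → ∀ M : P 5, M = b1 ∨ key b1.1 < key M.1 → M ≠ N := by
    rintro N h M (rfl | h') rfl
    · exact ord_irrefl _ h
    · rcases h with h | ⟨h, -⟩ <;> omega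
  obtain ⟨g, hg, h⟩ := cubic ord_irrefl ea (et 0) (et x)
    (Finsupp.single b1 1 + Finsupp.single b2 1 + Finsupp.single (b3 x) 1) s1
    (by rcases hx with rfl | rfl; exacts [s1, s2]) (by rcases hx with rfl | rfl; exacts [s3, s4])
    (by
      rw [expo_eq]
      refine ⟨by simp [deg_add, deg_single], funext₂ fun i j => ?_⟩
      simp only [mat_add, mat_single]
      rcases hx with rfl | rfl <;> revert i j <;> decide)
    (Or.inr ⟨by simp [deg_add, deg_single], b1, by
      have a1 : ea ≠ b1 := fun e => absurd (congrArg Subtype.val e) (by decide)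
      have a2 : ∀ y, et y ≠ b1 := fun y e =>
        (by decide : ∀ y : Fin 3, (et y).1 ≠ b1.1) y (congrArg Subtype.val e)
      simp [a1, a2], fun N hN => by
      have a1 := nb N hN b1 (Or.inl rfl)
      have a2 := nb N hN b2 (Or.inr (by decide))
      have a3 := nb N hN (b3 x) (Or.inr ((by decide : ∀ y, key b1.1 < key (b3 y).1) x))
      have a4 := nb N hN ea (Or.inr (by decide))
      have a5 := nb N hN (et 0) (Or.inr (by decide))
      have a6 := nb N hN (et x) (Or.inr ((by decide : ∀ y, key b1.1 < key (et y).1) x))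
      simp [a1, a2, a3, a4, a5, a6]⟩) hG
  have hd : deg (Finsupp.single ea 1 + Finsupp.single (et 0) 1 + Finsupp.single (et x) 1) = 3 := by
    simp [deg_add, deg_single]
  refine ⟨g, hg, _, h, hd, hd ▸ le_totalDegree h.1, funext₂ fun i j => ?_⟩
  simp only [mat_add, mat_single]
  rcases hx with rfl | rfl <;> revert i j <;> decide

end Pool.Agent.H14.SymGB
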