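import Mathlib

set_option autoImplicit false

namespace Pool.Agent.H14.TriProd

open Finset Matrix

theorem ker_count {V W : Type} [AddCommGroup V] [AddCommGroup W] [Fintype V] [Fintype W]
    [DecidableEq W] (f : V →+ W) :
    Fintype.card V ≤ (∑ x : V, if f x = 0 then 1 else 0) * Fintype.card W ∧
    (Function.Surjective f →
      (∑ x : V, if f x = 0 then 1 else 0) * Fintype.card W = Fintype.card V) := by
  classical
  have h1 : (∑ x : V, if f x = 0 then 1 else 0) = Nat.card f.ker := by
    rw [← Finset.card_filter, Nat.card_eq_fintype_card, Fintype.card_subtype]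
    congr 1
    ext x
    simp [AddMonoidHom.mem_ker]
  have h2 := AddSubgroup.card_mul_index f.ker
  rw [AddSubgroup.index_ker, Nat.card_eq_fintype_card (α := V)] at h2
  rw [h1]
  constructor
  · rw [← h2]
    apply Nat.mul_le_mul_left
    rw [← Nat.card_eq_fintype_card]
    exact Nat.card_le_card_of_injective _ f.range.subtype_injective
  · intro hs
    rw [← h2]
    congr 1
    rw [AddMonoidHom.range_eq_top_of_surjective f hs, AddSubgroup.card_top,
      Nat.card_eq_fintype_card]

theorem card_mat {F A B : Type} [Fintype F] [Fintype A] [Fintype B] [DecidableEq A]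
    [DecidableEq B] :
    Fintype.card (Matrix A B F) = Fintype.card F ^ (Fintype.card A * Fintype.card B) := by
  rw [Fintype.card_congr (Matrix.of.symm : Matrix A B F ≃ (A → B → F)), Fintype.card_fun,
    Fintype.card_fun, ← pow_mul, mul_comm]

theorem dichotomy {F K : Type} [Field F] [Fintype K] [DecidableEq K] (r : ℕ)
    (hr : r ≤ Fintype.card K) (M : Matrix K K F) :
    (∃ (U : Matrix K (Fin r) F) (V : Matrix (Fin r) K F), M = U * V) ∨
    ∃ (P : Matrix (Fin r) K F) (Q : Matrix K (Fin r) F), P * M * Q = 1 := by
  classical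
  obtain ⟨V, U, e, hV, hU, h⟩ := Matrix.exists_rank_normal_form M
  set s : Finset K := univ.filter (fun i => (e i).isLeft) with hs
  have hD : V * M * U = diagonal (fun i => if i ∈ s then (1 : F) else 0) := by
    rw [h]
    ext i j
    simp only [submatrix_apply, diagonal_apply, hs, mem_filter, mem_univ, true_and]
    by_cases hij : i = j
    · subst hij
      rcases e i with a | a <;> simp
    · have : e i ≠ e j := fun h => hij (e.injective h)
      rw [if_neg hij]
      rcases h1 : e i with a | a <;> rcases h2 : e j with b | b <;> simp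
      rw [h1, h2] at this
      exact Matrix.one_apply_ne (fun h => this (by rw [h]))
  by_cases hc : r ≤ s.card
  · right
    obtain ⟨t, hts, ht⟩ := Finset.exists_subset_card_eq hc
    let g : Fin r → K := fun i => ((Finset.equivFinOfCardEq ht).symm i : K)
    have hg : Function.Injective g := fun a b hab =>
      (Finset.equivFinOfCardEq ht).symm.injective (Subtype.ext hab)
    have hgs : ∀ i, g i ∈ s := fun i => hts ((Finset.equivFinOfCardEq ht).symm i).2
    refine ⟨V.submatrix g id, U.submatrix id g, ?_⟩
    have : V.submatrix g id * M * U.submatrix id g = (V * M * U).submatrix g g := by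
      ext i j
      simp [Matrix.mul_apply]
    rw [this, hD]
    ext i j
    simp only [submatrix_apply, diagonal_apply, hgs, if_true, one_apply, hg.eq_iff]
  · left
    push Not at hc
    obtain ⟨t, hst, -, ht⟩ := Finset.exists_subsuperset_card_eq (Finset.subset_univ s) hc.le
      (by rw [Finset.card_univ]; exact hr)
    let g : Fin r → K := fun i => ((Finset.equivFinOfCardEq ht).symm i : K)
    set D : Matrix K K F := diagonal (fun i => if i ∈ s then (1 : F) else 0) with hDdef
    have hfac : D = D.submatrix id g * D.submatrix g id := by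
      ext i j
      simp only [Matrix.mul_apply, submatrix_apply, id]
      have h1 : ∑ k : Fin r, D i (g k) * D (g k) j = ∑ k ∈ t, D i k * D k j := by
        rw [← Finset.sum_coe_sort t]
        exact Equiv.sum_comp (Finset.equivFinOfCardEq ht).symm (fun k : t => D i k * D k j)
      rw [h1]
      by_cases hi : i ∈ s
      · rw [Finset.sum_eq_single i]
        · simp [hDdef, hi]
        · intro b _ hb
          simp [hDdef, Matrix.diagonal_apply_ne _ (Ne.symm hb)]
        · intro h; exact absurd (hst hi) h
      · have : ∀ k, D i k = 0 := by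
          intro k
          simp only [hDdef, diagonal_apply]
          split_ifs <;> rfl
        simp [this]
    obtain ⟨v, rfl⟩ := hV
    obtain ⟨u, rfl⟩ := hU
    refine ⟨(↑v⁻¹ : Matrix K K F) * D.submatrix id g,
      D.submatrix g id * (↑u⁻¹ : Matrix K K F), ?_⟩
    have : M = (↑v⁻¹ : Matrix K K F) * ((v : Matrix K K F) * M * u) * (↑u⁻¹ : Matrix K K F) := by
      simp [Matrix.mul_assoc]
    rw [this, hD]
    conv_lhs => rw [hfac]
    simp only [Matrix.mul_assoc]

theorem thin_count {F K : Type} [Field F] [Fintype F] [Fintype K] [DecidableEq K] (r : ℕ)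
    (hr : Fintype.card K = 4 * r)
    [DecidablePred fun M : Matrix K K F =>
      ∃ (U : Matrix K (Fin r) F) (V : Matrix (Fin r) K F), M = U * V] :
    (∑ M : Matrix K K F,
      if ∃ (U : Matrix K (Fin r) F) (V : Matrix (Fin r) K F), M = U * V then 1 else 0)
      * Fintype.card F ^ (r * r) ≤ Fintype.card (Matrix K K F) := by
  classical
  rw [← Finset.card_filter]
  have h1 : (univ.filter fun M : Matrix K K F =>
      ∃ (U : Matrix K (Fin r) F) (V : Matrix (Fin r) K F), M = U * V).card ≤
      Fintype.card (Matrix K (Fin r) F × Matrix (Fin r) K F) := by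
    rw [← Finset.card_univ]
    refine le_trans (Finset.card_le_card ?_) (Finset.card_image_le (f := fun x => x.1 * x.2))
    intro M hM
    obtain ⟨U, V, h⟩ := (Finset.mem_filter.1 hM).2
    exact Finset.mem_image.2 ⟨(U, V), Finset.mem_univ _, h.symm⟩
  refine le_trans (Nat.mul_le_mul_right _ h1) ?_
  rw [Fintype.card_prod, card_mat, card_mat, card_mat, Fintype.card_fin, hr, ← pow_add,
    ← pow_add]
  apply Nat.pow_le_pow_right Fintype.card_pos
  nlinarith [Nat.zero_le (r * r)]

theorem tri {F K : Type} [Field F] [Fintype F] [DecidableEq F] [Fintype K] [DecidableEq K] (r : ℕ)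
    (hr : Fintype.card K = 4 * r) :
    (∑ X : Matrix K K F, ∑ Y : Matrix K K F, ∑ Z : Matrix K K F,
      if Z * Xᵀ * Y = 0 then 1 else 0) * Fintype.card F ^ (r * r) ≤
      3 * Fintype.card (Matrix K K F) ^ 3 := by
  classical
  set Q := Fintype.card (Matrix K K F) with hQ
  set w := Fintype.card F ^ (r * r) with hw
  let th : Matrix K K F → ℕ := fun M =>
    if ∃ (U : Matrix K (Fin r) F) (V : Matrix (Fin r) K F), M = U * V then 1 else 0
  have hth : (∑ M, th M) * w ≤ Q := thin_count r hr
  have key : ∀ Y Z : Matrix K K F,
      (∑ X : Matrix K K F, if Z * Xᵀ * Y = 0 then 1 else 0) * w ≤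
        Q * (th Y * w) + Q * (th Z * w) + Q := by
    intro Y Z
    have triv : (∑ X : Matrix K K F, if Z * Xᵀ * Y = 0 then 1 else 0) ≤ Q := by
      rw [← Finset.card_filter, hQ, ← Finset.card_univ]
      exact Finset.card_filter_le _ _
    rcases dichotomy r (by omega) Y with hY | ⟨P, R, hY⟩
    · have : th Y = 1 := if_pos hY
      rw [this, one_mul]
      have := Nat.mul_le_mul_right w triv
      omega
    rcases dichotomy r (by omega) Z with hZ | ⟨P', R', hZ⟩
    · have : th Z = 1 := if_pos hZ
      rw [this, one_mul]
      have := Nat.mul_le_mul_right w triv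
      omega
    let f : Matrix K K F →+ Matrix (Fin r) (Fin r) F :=
      { toFun := fun X => P' * (Z * Xᵀ * Y) * R
        map_zero' := by simp
        map_add' := by
          intro a b
          simp [Matrix.transpose_add, Matrix.mul_add, Matrix.add_mul] }
    have hsurj : Function.Surjective f := by
      intro C
      refine ⟨(R' * C * P)ᵀ, ?_⟩
      show P' * (Z * (R' * C * P)ᵀᵀ * Y) * R = C
      rw [Matrix.transpose_transpose]
      have : P' * (Z * (R' * C * P) * Y) * R = (P' * Z * R') * C * (P * Y * R) := by
        simp only [Matrix.mul_assoc]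
      rw [this, hY, hZ]; simp
    have h1 := (ker_count f).2 hsurj
    have h2 : Fintype.card (Matrix (Fin r) (Fin r) F) = w := by
      rw [card_mat, Fintype.card_fin]
    rw [h2, ← hQ] at h1
    have h3 : (∑ X : Matrix K K F, if Z * Xᵀ * Y = 0 then 1 else 0) ≤
        ∑ X : Matrix K K F, if f X = 0 then 1 else 0 := by
      apply Finset.sum_le_sum
      intro X _
      by_cases h : Z * Xᵀ * Y = 0
      · have : f X = 0 := by
          show P' * (Z * Xᵀ * Y) * R = 0
          rw [h]; simp
        simp [h, this]
      · simp [h]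
    have := Nat.mul_le_mul_right w h3
    omega
  rw [Finset.sum_comm, Finset.sum_mul]
  have h4 : ∀ Y : Matrix K K F, (∑ X : Matrix K K F, ∑ Z : Matrix K K F,
      if Z * Xᵀ * Y = 0 then 1 else 0) * w ≤ Q * Q * (th Y * w) + 2 * (Q * Q) := by
    intro Y
    rw [Finset.sum_comm, Finset.sum_mul]
    refine le_trans (Finset.sum_le_sum (fun Z _ => key Y Z)) ?_
    rw [Finset.sum_add_distrib, Finset.sum_add_distrib]
    have e1 : ∑ x : Matrix K K F, Q * (th x * w) = Q * ((∑ x, th x) * w) := by
      rw [← Finset.mul_sum, ← Finset.sum_mul]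
    rw [e1]
    simp only [Finset.sum_const, Finset.card_univ, smul_eq_mul, ← hQ]
    have := Nat.mul_le_mul_left Q hth
    nlinarith
  refine le_trans (Finset.sum_le_sum (fun Y _ => h4 Y)) ?_
  rw [Finset.sum_add_distrib, ← Finset.mul_sum, ← Finset.sum_mul]
  simp only [Finset.sum_const, Finset.card_univ, smul_eq_mul, ← hQ]
  have := Nat.mul_le_mul_left (Q * Q) hth
  nlinarith

end Pool.Agent.H14.TriProd
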