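import Mathlib
import Pool.Agent.H14.TriProd

set_option autoImplicit false

namespace Pool.Agent.H14.TensorRank

open Finset

/-- The tensor `g` (a function of the index tuple) depends only on the indices in `S`. -/
def DepOn {d : ℕ} {J F : Type} (S : Finset (Fin d)) (g : (Fin d → J) → F) : Prop :=
  ∀ i i' : Fin d → J, (∀ j ∈ S, i j = i' j) → g i = g i'

/-- `A` is a sum of `r` tensors of partition rank at most one. -/
def HasPR {d : ℕ} {J F : Type} [Field F] (A : (Fin d → J) → F) (r : ℕ) : Prop :=
  ∃ (S : Fin r → Finset (Fin d)) (g h : Fin r → (Fin d → J) → F),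
    (∀ j, (S j).Nonempty ∧ S j ≠ univ ∧ DepOn (S j) (g j) ∧ DepOn (S j)ᶜ (h j)) ∧
    ∀ i, A i = ∑ j, g j i * h j i

/-- partition rank -/
noncomputable def prank {d : ℕ} {J F : Type} [Field F] (A : (Fin d → J) → F) : ℕ :=
  sInf {r | HasPR A r}

/-- the multilinear form of a tensor -/
def form {d : ℕ} {J F : Type} [Field F] [Fintype J] (A : (Fin d → J) → F)
    (X : Fin d → J → F) : F :=
  ∑ i : Fin d → J, A i * ∏ j, X j (i j)

/-- the bias of the multilinear form of a tensor over `ZMod p` -/
noncomputable def bias {d p : ℕ} {J : Type} [Fact p.Prime] [Fintype J] [DecidableEq J]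
    (A : (Fin d → J) → ZMod p) : ℝ :=
  ((∑ X : Fin d → J → ZMod p,
      Complex.exp (2 * Real.pi * Complex.I * ((form A X).val : ℂ) / (p : ℂ))) /
    (Fintype.card (Fin d → J → ZMod p) : ℂ)).re

/-- analytic rank -/
noncomputable def arank {d p : ℕ} {J : Type} [Fact p.Prime] [Fintype J] [DecidableEq J]
    (A : (Fin d → J) → ZMod p) : ℝ :=
  - Real.logb p (bias A)

/-- the identity tensor -/
def idT (d : ℕ) (J F : Type) [Field F] [DecidableEq J] : (Fin d → J) → F :=
  fun i => if ∀ j j', i j = i j' then 1 else 0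

/-- the `m`-th tensor power, with index set `Fin m → J` -/
def tpow {d : ℕ} {J F : Type} [Field F] (A : (Fin d → J) → F) (m : ℕ) :
    (Fin d → (Fin m → J)) → F :=
  fun I => ∏ k, A (fun j => I j k)

end Pool.Agent.H14.TensorRank
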