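import Mathlib
import Pool.Agent.H14.TensorRank

set_option autoImplicit false

namespace Pool.Agent.H14.TensorRank

open Finset Matrix

theorem sum4 {α M : Type} [Fintype α] [AddCommMonoid M] (g : (Fin 4 → α) → M) :
    ∑ i, g i = ∑ a, ∑ b, ∑ c, ∑ d, g ![a, b, c, d] := by
  let e : (α × α × α × α) ≃ (Fin 4 → α) :=
    { toFun := fun x => ![x.1, x.2.1, x.2.2.1, x.2.2.2]
      invFun := fun i => (i 0, i 1, i 2, i 3)
      left_inv := fun x => rfl
      right_inv := fun i => by
        ext j; fin_cases j <;> rfl }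
  rw [← Equiv.sum_comp e]
  simp only [Fintype.sum_prod_type]
  rfl

def con {J F : Type} [Field F] [Fintype J] (A : (Fin 4 → J) → F) (x y z : J → F) (l : J) : F :=
  ∑ a, ∑ b, ∑ c, A ![a, b, c, l] * (x a * y b * z c)

open Classical in
noncomputable def Zc {J F : Type} [Field F] [Fintype F] [Fintype J] [DecidableEq J]
    (A : (Fin 4 → J) → F) : ℕ :=
  ∑ x : J → F, ∑ y : J → F, ∑ z : J → F, if ∀ l, con A x y z l = 0 then 1 else 0

theorem form_eq {J F : Type} [Field F] [Fintype J] (A : (Fin 4 → J) → F) (x y z w : J → F) :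
    form A ![x, y, z, w] = ∑ l, w l * con A x y z l := by
  unfold form con
  rw [sum4]
  simp only [Fin.prod_univ_four, Finset.mul_sum]
  symm
  rw [Finset.sum_comm]
  refine Finset.sum_congr rfl (fun a _ => ?_)
  rw [Finset.sum_comm]
  refine Finset.sum_congr rfl (fun b _ => ?_)
  rw [Finset.sum_comm]
  refine Finset.sum_congr rfl (fun c _ => ?_)
  refine Finset.sum_congr rfl (fun l _ => ?_)
  simp
  ring

theorem char_sum {J R : Type} [CommRing R] (ψ : AddChar R ℂ) (s : Finset J) (f : J → R) :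
    ψ (∑ j ∈ s, f j) = ∏ j ∈ s, ψ (f j) := by
  classical
  induction s using Finset.induction_on with
  | empty => simp
  | insert a s ha ih => rw [Finset.sum_insert ha, Finset.prod_insert ha, ψ.map_add_eq_mul, ih]

theorem bias_eq {p : ℕ} {J : Type} [Fact p.Prime] [Fintype J] [DecidableEq J]
    (A : (Fin 4 → J) → ZMod p) :
    bias A = (Zc A : ℝ) / ((p : ℝ) ^ Fintype.card J) ^ 3 := by
  classical
  have hp : (p : ℝ) ≠ 0 := Nat.cast_ne_zero.2 (Fact.out : p.Prime).ne_zero
  have h1 : ∀ X : Fin 4 → J → ZMod p,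
      Complex.exp (2 * Real.pi * Complex.I * ((form A X).val : ℂ) / (p : ℂ)) =
        ZMod.stdAddChar (form A X) := by
    intro X
    rw [ZMod.stdAddChar_apply, ZMod.toCircle_apply]
  have h2 : ∀ c : J → ZMod p, ∑ w : J → ZMod p, ZMod.stdAddChar (∑ l, w l * c l) =
      (p : ℂ) ^ Fintype.card J * (if ∀ l, c l = 0 then 1 else 0) := by
    intro c
    simp only [char_sum]
    have := Finset.prod_univ_sum (fun _ : J => (univ : Finset (ZMod p)))
      (fun l t => (ZMod.stdAddChar (t * c l) : ℂ))
    rw [Fintype.piFinset_univ] at this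
    rw [← this]
    simp only [AddChar.sum_mulShift _ (ZMod.isPrimitive_stdAddChar p), ZMod.card]
    by_cases h : ∀ l, c l = 0
    · simp [h]
    · rw [if_neg h, mul_zero]
      push Not at h
      obtain ⟨l, hl⟩ := h
      exact Finset.prod_eq_zero (Finset.mem_univ l) (by simp [hl])
  have h3 : (∑ X : Fin 4 → J → ZMod p,
      Complex.exp (2 * Real.pi * Complex.I * ((form A X).val : ℂ) / (p : ℂ))) =
      (p : ℂ) ^ Fintype.card J * (Zc A : ℂ) := by
    simp only [h1]
    rw [sum4]
    simp only [form_eq, h2, Zc, Nat.cast_sum, Finset.mul_sum, Nat.cast_ite, Nat.cast_one,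
      Nat.cast_zero]
  unfold bias
  rw [h3]
  have h4 : (Fintype.card (Fin 4 → J → ZMod p) : ℂ) = ((p : ℂ) ^ Fintype.card J) ^ 4 := by
    simp [ZMod.card]
  rw [h4]
  have h5 : (p : ℂ) ^ Fintype.card J * (Zc A : ℂ) / ((p : ℂ) ^ Fintype.card J) ^ 4 =
      (((Zc A : ℝ) / ((p : ℝ) ^ Fintype.card J) ^ 3 : ℝ) : ℂ) := by
    have hp' : (p : ℂ) ≠ 0 := Nat.cast_ne_zero.2 (Fact.out : p.Prime).ne_zero
    push_cast
    field_simp
  rw [h5, Complex.ofReal_re]

theorem Zc_pos {J F : Type} [Field F] [Fintype F] [Fintype J] [DecidableEq J]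
    (A : (Fin 4 → J) → F) : 0 < Zc A := by
  classical
  unfold Zc
  refine lt_of_lt_of_le ?_ (Finset.single_le_sum (fun _ _ => Nat.zero_le _)
    (Finset.mem_univ (0 : J → F)))
  refine lt_of_lt_of_le ?_ (Finset.single_le_sum (fun _ _ => Nat.zero_le _)
    (Finset.mem_univ (0 : J → F)))
  refine lt_of_lt_of_le ?_ (Finset.single_le_sum (fun _ _ => Nat.zero_le _)
    (Finset.mem_univ (0 : J → F)))
  simp [con]

theorem Zc_le {J F : Type} [Field F] [Fintype F] [Fintype J] [DecidableEq J]
    (A : (Fin 4 → J) → F) : Zc A ≤ (Fintype.card F ^ Fintype.card J) ^ 3 := by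
  classical
  unfold Zc
  calc _ ≤ ∑ x : J → F, ∑ y : J → F, ∑ z : J → F, 1 := by
        refine Finset.sum_le_sum (fun x _ => Finset.sum_le_sum (fun y _ =>
          Finset.sum_le_sum (fun z _ => ?_)))
        split_ifs <;> simp
    _ = _ := by
        simp; ring

section fac
variable {J F : Type} [Field F] [Fintype J]

theorem facA (G : J → F) (H : J → J → F) (x y z : J → F) :
    ∑ a, ∑ b, ∑ c, (G a * H b c) * (x a * y b * z c) =
      (∑ a, G a * x a) * ∑ b, ∑ c, H b c * (y b * z c) := by
  rw [Finset.sum_mul]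
  simp only [Finset.mul_sum]
  refine Finset.sum_congr rfl (fun a _ => Finset.sum_congr rfl (fun b _ =>
    Finset.sum_congr rfl (fun c _ => by ring)))

theorem facB (G : J → F) (H : J → J → F) (x y z : J → F) :
    ∑ a, ∑ b, ∑ c, (G b * H a c) * (x a * y b * z c) =
      (∑ b, G b * y b) * ∑ a, ∑ c, H a c * (x a * z c) := by
  rw [Finset.sum_comm, ← facA G H y x z]
  refine Finset.sum_congr rfl (fun a _ => Finset.sum_congr rfl (fun b _ =>
    Finset.sum_congr rfl (fun c _ => by ring)))

theorem facC (G : J → F) (H : J → J → F) (x y z : J → F) :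
    ∑ a, ∑ b, ∑ c, (G c * H a b) * (x a * y b * z c) =
      (∑ c, G c * z c) * ∑ a, ∑ b, H a b * (x a * y b) := by
  rw [← facB G H x z y]
  refine Finset.sum_congr rfl (fun a _ => ?_)
  rw [Finset.sum_comm]
  refine Finset.sum_congr rfl (fun b _ => Finset.sum_congr rfl (fun c _ => by ring))

theorem facD (G : J → J → J → F) (t : F) (x y z : J → F) :
    ∑ a, ∑ b, ∑ c, (G a b c * t) * (x a * y b * z c) =
      (∑ a, ∑ b, ∑ c, G a b c * (x a * y b * z c)) * t := by
  simp only [Finset.sum_mul]
  refine Finset.sum_congr rfl (fun a _ => Finset.sum_congr rfl (fun b _ =>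
    Finset.sum_congr rfl (fun c _ => by ring)))

def lin1 (G : J → F) : (J → F) →+ F :=
  AddMonoidHom.mk' (fun x => ∑ a, G a * x a) (by
    intro a b; simp [mul_add, Finset.sum_add_distrib])

def lin2 (H : J → J → F) (x : J → F) : (J → F) →+ F :=
  AddMonoidHom.mk' (fun y => ∑ a, ∑ b, H a b * (x a * y b)) (by
    intro a b; simp [mul_add, Finset.sum_add_distrib])

def lin3 (H : J → J → J → F) (x y : J → F) : (J → F) →+ F :=
  AddMonoidHom.mk' (fun z => ∑ a, ∑ b, ∑ c, H a b c * (x a * y b * z c)) (by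
    intro a b; simp [mul_add, Finset.sum_add_distrib])

theorem term_aux (o : J) (S : Finset (Fin 4)) (g h : (Fin 4 → J) → F) (hS : S.Nonempty)
    (h3 : (3 : Fin 4) ∉ S) (hg : DepOn S g) (hh : DepOn Sᶜ h) :
    ∃ (l0 : (J → F) →+ F) (l1 : (J → F) → (J → F) →+ F) (l2 : (J → F) → (J → F) → (J → F) →+ F),
      ∀ x y z, l0 x = 0 → l1 x y = 0 → l2 x y z = 0 →
        ∀ l, con (fun i => g i * h i) x y z l = 0 := by
  classical
  have eg : ∀ a b c l, g ![a, b, c, l] = g ![if 0 ∈ S then a else o, if 1 ∈ S then b else o,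
      if 2 ∈ S then c else o, o] := by
    intro a b c l
    apply hg
    intro j hj
    fin_cases j
    · simp at hj; simp [hj]
    · simp at hj; simp [hj]
    · simp at hj; simp [hj]
    · exact absurd hj h3
  have eh : ∀ a b c l, h ![a, b, c, l] = h ![if 0 ∈ S then o else a, if 1 ∈ S then o else b,
      if 2 ∈ S then o else c, l] := by
    intro a b c l
    apply hh
    intro j hj
    fin_cases j
    · simp at hj; simp [hj]
    · simp at hj; simp [hj]
    · simp at hj; simp [hj]
    · simp
  have ec : ∀ x y z l, con (fun i => g i * h i) x y z l = ∑ a, ∑ b, ∑ c,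
      (g ![if 0 ∈ S then a else o, if 1 ∈ S then b else o, if 2 ∈ S then c else o, o] *
       h ![if 0 ∈ S then o else a, if 1 ∈ S then o else b, if 2 ∈ S then o else c, l]) *
        (x a * y b * z c) := by
    intro x y z l
    unfold con
    refine Finset.sum_congr rfl (fun a _ => Finset.sum_congr rfl (fun b _ =>
      Finset.sum_congr rfl (fun c _ => ?_)))
    rw [← eg a b c l, ← eh a b c l]
  by_cases h0 : (0 : Fin 4) ∈ S <;> by_cases h1 : (1 : Fin 4) ∈ S <;>
    by_cases h2 : (2 : Fin 4) ∈ S <;>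
    simp only [h0, h1, h2, if_true, if_false] at ec
  · refine ⟨0, 0, lin3 (fun a b c => g ![a, b, c, o]), fun x y z _ _ hz l => ?_⟩
    rw [ec, facD (fun a b c => g ![a, b, c, o])]
    exact mul_eq_zero_of_left hz _
  · refine ⟨0, lin2 (fun a b => g ![a, b, o, o]), 0, fun x y z _ hz _ l => ?_⟩
    rw [ec]
    simp only [mul_comm (g _) (h _)]
    rw [facC (fun c => h ![o, o, c, l]) (fun a b => g ![a, b, o, o])]
    exact mul_eq_zero_of_right _ hz
  · refine ⟨0, 0, fun x _ => lin2 (fun a c => g ![a, o, c, o]) x, fun x y z _ _ hz l => ?_⟩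
    rw [ec]
    simp only [mul_comm (g _) (h _)]
    rw [facB (fun b => h ![o, b, o, l]) (fun a c => g ![a, o, c, o])]
    exact mul_eq_zero_of_right _ hz
  · refine ⟨lin1 (fun a => g ![a, o, o, o]), 0, 0, fun x y z hz _ _ l => ?_⟩
    rw [ec, facA (fun a => g ![a, o, o, o]) (fun b c => h ![o, b, c, l])]
    exact mul_eq_zero_of_left hz _
  · refine ⟨0, 0, fun _ y => lin2 (fun b c => g ![o, b, c, o]) y, fun x y z _ _ hz l => ?_⟩
    rw [ec]
    simp only [mul_comm (g _) (h _)]
    rw [facA (fun a => h ![a, o, o, l]) (fun b c => g ![o, b, c, o])]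
    exact mul_eq_zero_of_right _ hz
  · refine ⟨0, fun _ => lin1 (fun b => g ![o, b, o, o]), 0, fun x y z _ hz _ l => ?_⟩
    rw [ec, facB (fun b => g ![o, b, o, o]) (fun a c => h ![a, o, c, l])]
    exact mul_eq_zero_of_left hz _
  · refine ⟨0, 0, fun _ _ => lin1 (fun c => g ![o, o, c, o]), fun x y z _ _ hz l => ?_⟩
    rw [ec, facC (fun c => g ![o, o, c, o]) (fun a b => h ![a, b, o, l])]
    exact mul_eq_zero_of_left hz _
  · exfalso
    obtain ⟨j, hj⟩ := hS
    fin_cases j
    · exact h0 hj
    · exact h1 hj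
    · exact h2 hj
    · exact h3 hj

theorem term (o : J) (S : Finset (Fin 4)) (g h : (Fin 4 → J) → F) (hS : S.Nonempty)
    (hS' : S ≠ univ) (hg : DepOn S g) (hh : DepOn Sᶜ h) :
    ∃ (l0 : (J → F) →+ F) (l1 : (J → F) → (J → F) →+ F) (l2 : (J → F) → (J → F) → (J → F) →+ F),
      ∀ x y z, l0 x = 0 → l1 x y = 0 → l2 x y z = 0 →
        ∀ l, con (fun i => g i * h i) x y z l = 0 := by
  by_cases h3 : (3 : Fin 4) ∈ S
  · have := term_aux o Sᶜ h g (by
      rw [Finset.nonempty_iff_ne_empty]; simpa using hS') (by simpa using h3) hh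
      (by simpa using hg)
    simpa only [mul_comm (h _) (g _)] using this
  · exact term_aux o S g h hS h3 hg hh

end fac

theorem Zc_lower {J F : Type} [Field F] [Fintype F] [Fintype J] [DecidableEq J] (o : J)
    (A : (Fin 4 → J) → F) (r : ℕ) (hA : HasPR A r) :
    (Fintype.card F ^ Fintype.card J) ^ 3 ≤ Zc A * (Fintype.card F ^ r) ^ 3 := by
  classical
  obtain ⟨S, g, h, hS, hA⟩ := hA
  choose l0 l1 l2 hl using fun j =>
    term o (S j) (g j) (h j) (hS j).1 (hS j).2.1 (hS j).2.2.1 (hS j).2.2.2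
  have cnt : ∀ l : Fin r → (J → F) →+ F, Fintype.card F ^ Fintype.card J ≤
      (∑ x : J → F, if ∀ j, l j x = 0 then 1 else 0) * Fintype.card F ^ r := by
    intro l
    let f : (J → F) →+ (Fin r → F) := AddMonoidHom.mk' (fun x j => l j x) (by
      intro a b; ext j; simp)
    have := (TriProd.ker_count f).1
    rw [Fintype.card_fun, Fintype.card_fun, Fintype.card_fin] at this
    refine this.trans (le_of_eq ?_)
    congr 1
    refine Finset.sum_congr rfl (fun x _ => ?_)
    have : f x = 0 ↔ ∀ j, l j x = 0 := funext_iff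
    simp only [this]
  set q := Fintype.card F ^ Fintype.card J
  set w := Fintype.card F ^ r
  have h1 : (∑ x : J → F, (if ∀ j, l0 j x = 0 then 1 else 0) * ∑ y : J → F,
      (if ∀ j, l1 j x y = 0 then 1 else 0) * ∑ z : J → F,
      (if ∀ j, l2 j x y z = 0 then 1 else 0)) ≤ Zc A := by
    unfold Zc
    simp only [Finset.mul_sum]
    refine Finset.sum_le_sum (fun x _ => Finset.sum_le_sum (fun y _ =>
      Finset.sum_le_sum (fun z _ => ?_)))
    by_cases c0 : ∀ j, l0 j x = 0
    swap
    · simp [c0]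
    by_cases c1 : ∀ j, l1 j x y = 0
    swap
    · simp [c1]
    by_cases c2 : ∀ j, l2 j x y z = 0
    swap
    · simp [c2]
    have : ∀ l, con A x y z l = 0 := by
      intro l
      have e : con A x y z l = ∑ j, con (fun i => g j i * h j i) x y z l := by
        unfold con
        simp only [hA, Finset.sum_mul]
        symm
        rw [Finset.sum_comm]
        refine Finset.sum_congr rfl (fun a _ => ?_)
        rw [Finset.sum_comm]
        refine Finset.sum_congr rfl (fun b _ => ?_)
        rw [Finset.sum_comm]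
      rw [e]
      exact Finset.sum_eq_zero (fun j _ => hl j x y z (c0 j) (c1 j) (c2 j) l)
    simp [c0, c1, c2, this]
  refine le_trans ?_ (Nat.mul_le_mul_right _ h1)
  have h2 : ∀ x : J → F, q * q ≤ (∑ y : J → F,
      (if ∀ j, l1 j x y = 0 then 1 else 0) * ∑ z : J → F,
      (if ∀ j, l2 j x y z = 0 then 1 else 0)) * (w * w) := by
    intro x
    calc q * q ≤ ((∑ y : J → F, if ∀ j, l1 j x y = 0 then 1 else 0) * w) * q :=
          Nat.mul_le_mul_right _ (cnt (fun j => l1 j x))
      _ = ∑ y : J → F, (if ∀ j, l1 j x y = 0 then 1 else 0) * w * q := by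
          rw [Finset.sum_mul, Finset.sum_mul]
      _ ≤ _ := by
          rw [Finset.sum_mul]
          refine Finset.sum_le_sum (fun y _ => ?_)
          have := Nat.mul_le_mul_left ((if ∀ j, l1 j x y = 0 then 1 else 0) * w)
            (cnt (fun j => l2 j x y))
          refine this.trans (le_of_eq ?_)
          ring
  calc q ^ 3 = q * (q * q) := by ring
    _ ≤ ((∑ x : J → F, if ∀ j, l0 j x = 0 then 1 else 0) * w) * (q * q) :=
          Nat.mul_le_mul_right _ (cnt l0)
    _ = ∑ x : J → F, (if ∀ j, l0 j x = 0 then 1 else 0) * w * (q * q) := by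
          rw [Finset.sum_mul, Finset.sum_mul]
    _ ≤ _ := by
          rw [Finset.sum_mul]
          refine Finset.sum_le_sum (fun x _ => ?_)
          have := Nat.mul_le_mul_left ((if ∀ j, l0 j x = 0 then 1 else 0) * w) (h2 x)
          refine this.trans (le_of_eq ?_)
          ring

theorem hasPR_card {J F : Type} [Field F] [Fintype J] [DecidableEq J]
    (A : (Fin 4 → J) → F) : HasPR A (Fintype.card J) := by
  let e := (Fintype.equivFin J).symm
  refine ⟨fun _ => {0}, fun j i => if i 0 = e j then 1 else 0,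
    fun j i => A (Function.update i 0 (e j)), fun j => ⟨by simp,
      (by decide : ({0} : Finset (Fin 4)) ≠ univ), ?_, ?_⟩, ?_⟩
  · intro i i' h
    simp only [h 0 (by simp)]
  · intro i i' h
    show A (Function.update i 0 (e j)) = A (Function.update i' 0 (e j))
    congr 1
    ext k
    by_cases hk : k = 0
    · subst hk; simp
    · rw [Function.update_of_ne hk, Function.update_of_ne hk]
      exact h k (by simpa using hk)
  · intro i
    rw [Finset.sum_eq_single (e.symm (i 0))]
    · simp
    · intro b _ hb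
      show (if i 0 = e b then 1 else 0) * A (Function.update i 0 (e b)) = 0
      rw [if_neg, zero_mul]
      intro h
      apply hb
      rw [h]; simp
    · simp

end Pool.Agent.H14.TensorRank
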