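import Mathlib
import Pool.Agent.H14.TensorRank2

set_option autoImplicit false

namespace Pool.Agent.H14.TensorRank

open Finset Matrix

section
variable {F : Type} [Field F] [Fintype F]

theorem Zc_equiv {J J' : Type} [Fintype J] [DecidableEq J] [Fintype J'] [DecidableEq J']
    (e : J ≃ J') (A : (Fin 4 → J) → F) (B : (Fin 4 → J') → F)
    (h : ∀ a b c d, A ![a, b, c, d] = B ![e a, e b, e c, e d]) : Zc A = Zc B := by
  classical
  let E : (J' → F) ≃ (J → F) := Equiv.arrowCongr e.symm (Equiv.refl F)
  have hE : ∀ (x : J' → F) (a : J), E x a = x (e a) := fun x a => rfl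
  unfold Zc
  rw [← Equiv.sum_comp E]
  refine Finset.sum_congr rfl (fun x _ => ?_)
  rw [← Equiv.sum_comp E]
  refine Finset.sum_congr rfl (fun y _ => ?_)
  rw [← Equiv.sum_comp E]
  refine Finset.sum_congr rfl (fun z _ => ?_)
  have hc : ∀ l, con A (E x) (E y) (E z) l = con B x y z (e l) := by
    intro l
    unfold con
    rw [← Equiv.sum_comp e]
    refine Finset.sum_congr rfl (fun a _ => ?_)
    rw [← Equiv.sum_comp e]
    refine Finset.sum_congr rfl (fun b _ => ?_)
    rw [← Equiv.sum_comp e]
    refine Finset.sum_congr rfl (fun c _ => ?_)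
    rw [h, hE, hE, hE]
  have : (∀ l, con A (E x) (E y) (E z) l = 0) ↔ ∀ l, con B x y z l = 0 := by
    simp only [hc]
    exact ⟨fun H l => by simpa using H (e.symm l), fun H l => H _⟩
  simp only [this]

theorem prod3 {E V : Type} [Fintype E] [DecidableEq E] [Fintype V] (P : E → V → V → V → ℕ) :
    ∏ e, ∑ a, ∑ b, ∑ c, P e a b c =
      ∑ x : E → V, ∑ y : E → V, ∑ z : E → V, ∏ e, P e (x e) (y e) (z e) := by
  have key : ∀ f : E → V → ℕ, ∏ e, ∑ a, f e a = ∑ x : E → V, ∏ e, f e (x e) := by
    intro f
    rw [Finset.prod_univ_sum, Fintype.piFinset_univ]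
  rw [key]
  refine Finset.sum_congr rfl (fun x _ => ?_)
  rw [key]
  refine Finset.sum_congr rfl (fun y _ => ?_)
  rw [key]

theorem Zc_dsum {E L : Type} [Fintype E] [DecidableEq E] [Fintype L] [DecidableEq L]
    (T : E → (Fin 4 → L) → F) (B : (Fin 4 → E × L) → F)
    (h : ∀ a b c d : E × L, B ![a, b, c, d] =
      if a.1 = d.1 ∧ b.1 = d.1 ∧ c.1 = d.1 then T d.1 ![a.2, b.2, c.2, d.2] else 0) :
    Zc B = ∏ e, Zc (T e) := by
  classical
  unfold Zc
  rw [prod3]
  let E' : (E → L → F) ≃ (E × L → F) := (Equiv.curry E L F).symm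
  have hE : ∀ (x : E → L → F) (a : E × L), E' x a = x a.1 a.2 := fun x a => rfl
  rw [← Equiv.sum_comp E']
  refine Finset.sum_congr rfl (fun x _ => ?_)
  rw [← Equiv.sum_comp E']
  refine Finset.sum_congr rfl (fun y _ => ?_)
  rw [← Equiv.sum_comp E']
  refine Finset.sum_congr rfl (fun z _ => ?_)
  have hc : ∀ l : E × L, con B (E' x) (E' y) (E' z) l =
      con (T l.1) (x l.1) (y l.1) (z l.1) l.2 := by
    intro l
    unfold con
    simp only [h, hE, Fintype.sum_prod_type]
    rw [Finset.sum_eq_single l.1]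
    · refine Finset.sum_congr rfl (fun a _ => ?_)
      rw [Finset.sum_eq_single l.1]
      · refine Finset.sum_congr rfl (fun b _ => ?_)
        rw [Finset.sum_eq_single l.1]
        · simp
        · intro t _ ht; simp [ht]
        · simp
      · intro t _ ht; simp [ht]
      · simp
    · intro t _ ht; simp [ht]
    · simp
  rw [Finset.prod_boole]
  simp only [hc, Prod.forall, Finset.mem_univ, true_implies]

theorem Zc_C4 {K : Type} [Fintype K] [DecidableEq K] (r : ℕ) (hr : Fintype.card K = 4 * r)
    (B : (Fin 4 → K × K) → F)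
    (h : ∀ a b c d : K × K, B ![a, b, c, d] =
      if a.1 = b.1 ∧ c.1 = d.1 ∧ a.2 = c.2 ∧ b.2 = d.2 then 1 else 0) :
    Zc B * Fintype.card F ^ (r * r) ≤ 3 * (Fintype.card F ^ Fintype.card (K × K)) ^ 3 := by
  classical
  have := TriProd.tri (F := F) r hr
  rw [TriProd.card_mat, ← Fintype.card_prod] at this
  refine le_trans (le_of_eq ?_) this
  congr 1
  unfold Zc
  let E' : Matrix K K F ≃ (K × K → F) := Matrix.of.symm.trans (Equiv.curry K K F).symm
  have hE : ∀ (x : Matrix K K F) (a : K × K), E' x a = x a.1 a.2 := fun x a => rfl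
  rw [← Equiv.sum_comp E']
  refine Finset.sum_congr rfl (fun x _ => ?_)
  rw [← Equiv.sum_comp E']
  refine Finset.sum_congr rfl (fun y _ => ?_)
  rw [← Equiv.sum_comp E']
  refine Finset.sum_congr rfl (fun z _ => ?_)
  have hc : ∀ l : K × K, con B (E' x) (E' y) (E' z) l = (z * xᵀ * y) l.1 l.2 := by
    intro l
    unfold con
    simp only [h, hE, Fintype.sum_prod_type, Matrix.mul_apply, Matrix.transpose_apply,
      Finset.sum_mul]
    refine Finset.sum_congr rfl (fun a _ => Finset.sum_congr rfl (fun c _ => ?_))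
    rw [Finset.sum_eq_single a]
    · rw [Finset.sum_eq_single l.2]
      · rw [Finset.sum_eq_single l.1]
        · rw [Finset.sum_eq_single c]
          · simp; ring
          · intro t _ ht; simp [Ne.symm ht]
          · simp
        · intro t _ ht; simp [ht]
        · simp
      · intro t _ ht; simp [ht]
      · simp
    · intro t _ ht; simp [Ne.symm ht]
    · simp
  have : (∀ l, con B (E' x) (E' y) (E' z) l = 0) ↔ z * xᵀ * y = 0 := by
    simp only [hc, Prod.forall]
    exact ⟨fun H => by ext i j; simpa using H i j, fun H i j => by rw [H]; rfl⟩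
  simp only [this]

theorem Zc_id : ∃ c : ℕ, c < Fintype.card F ^ 3 ∧
    ∀ (J : Type) [Fintype J] [DecidableEq J], Zc (idT 4 J F) = c ^ Fintype.card J := by
  classical
  refine ⟨Zc (fun _ : Fin 4 → Unit => (1 : F)), ?_, ?_⟩
  · unfold Zc
    calc _ < ∑ x : Unit → F, ∑ y : Unit → F, ∑ z : Unit → F, 1 := by
          refine Finset.sum_lt_sum (fun x _ => Finset.sum_le_sum (fun y _ =>
            Finset.sum_le_sum (fun z _ => by split_ifs <;> simp))) ⟨1, Finset.mem_univ _, ?_⟩
          refine Finset.sum_lt_sum (fun y _ =>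
            Finset.sum_le_sum (fun z _ => by split_ifs <;> simp)) ⟨1, Finset.mem_univ _, ?_⟩
          refine Finset.sum_lt_sum (fun z _ => by split_ifs <;> simp) ⟨1, Finset.mem_univ _, ?_⟩
          simp [con]
      _ = _ := by simp; ring
  · intro J _ _
    let B : (Fin 4 → J × Unit) → F := fun i =>
      if (i 0).1 = (i 3).1 ∧ (i 1).1 = (i 3).1 ∧ (i 2).1 = (i 3).1 then 1 else 0
    rw [Zc_equiv (Equiv.prodUnique J Unit).symm (idT 4 J F) B, Zc_dsum
      (fun _ _ => (1 : F)) B (fun a b c d => rfl)]
    · simp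
    · intro a b c d
      simp only [idT, B]
      congr 1
      apply propext
      constructor
      · intro H
        exact ⟨by simpa using H 0 3, by simpa using H 1 3, by simpa using H 2 3⟩
      · rintro ⟨h0, h1, h2⟩
        have h0 : a = d := by simpa using h0
        have h1 : b = d := by simpa using h1
        have h2 : c = d := by simpa using h2
        subst h0 h1 h2
        intro j j'
        fin_cases j <;> fin_cases j' <;> rfl

end

/-- the example: direct sum of two pairing tensors -/
def exT (N F : Type) [Field F] [DecidableEq N] : (Fin 4 → Bool × N) → F := fun i =>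
  if (i 0).1 = (i 3).1 ∧ (i 1).1 = (i 3).1 ∧ (i 2).1 = (i 3).1 ∧
    (if (i 3).1 = true then (i 0).2 = (i 1).2 ∧ (i 2).2 = (i 3).2
      else (i 0).2 = (i 2).2 ∧ (i 1).2 = (i 3).2) then 1 else 0

theorem exT_hasPR {N F J : Type} [Field F] [DecidableEq N] (e : J → Bool × N) :
    HasPR (fun i : Fin 4 → J => exT N F (fun j => e (i j))) 2 := by
  refine ⟨![{0, 1}, {0, 2}],
    ![fun i => if (e (i 0)).1 = true ∧ (e (i 1)).1 = true ∧ (e (i 0)).2 = (e (i 1)).2 then 1 else 0,
      fun i => if (e (i 0)).1 = false ∧ (e (i 2)).1 = false ∧ (e (i 0)).2 = (e (i 2)).2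
        then 1 else 0],
    ![fun i => if (e (i 2)).1 = true ∧ (e (i 3)).1 = true ∧ (e (i 2)).2 = (e (i 3)).2 then 1 else 0,
      fun i => if (e (i 1)).1 = false ∧ (e (i 3)).1 = false ∧ (e (i 1)).2 = (e (i 3)).2
        then 1 else 0], ?_, ?_⟩
  · intro j
    fin_cases j
    · refine ⟨by simp, (by decide : ({0, 1} : Finset (Fin 4)) ≠ univ), ?_, ?_⟩
      · intro i i' h
        have h0 := h 0 (by simp)
        have h1 := h 1 (by simp)
        simp [h0, h1]
      · intro i i' h
        have h0 := h 2 (by simp)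
        have h1 := h 3 (by simp)
        simp [h0, h1]
    · refine ⟨by simp, (by decide : ({0, 2} : Finset (Fin 4)) ≠ univ), ?_, ?_⟩
      · intro i i' h
        have h0 := h 0 (by simp)
        have h1 := h 2 (by simp)
        simp [h0, h1]
      · intro i i' h
        have h0 := h 1 (by simp)
        have h1 := h 3 (by simp)
        simp [h0, h1]
  · intro i
    simp only [exT, Fin.sum_univ_two, Matrix.cons_val_zero, Matrix.cons_val_one]
    generalize e (i 0) = a
    generalize e (i 1) = b
    generalize e (i 2) = c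
    generalize e (i 3) = d
    obtain ⟨a1, a2⟩ := a
    obtain ⟨b1, b2⟩ := b
    obtain ⟨c1, c2⟩ := c
    obtain ⟨d1, d2⟩ := d
    cases a1 <;> cases b1 <;> cases c1 <;> cases d1 <;> simp [ite_and] <;>
      split_ifs <;> rfl

theorem Zc_pow {N F J : Type} [Field F] [Fintype F] [Fintype N] [DecidableEq N] [Fintype J]
    [DecidableEq J] (e : J ≃ Bool × N) (h r : ℕ) (hr : Fintype.card N ^ h = 4 * r) :
    Zc (tpow (fun i : Fin 4 → J => exT N F (fun j => e (i j))) (2 * h)) *
      (Fintype.card F ^ (r * r)) ^ (Nat.centralBinom h) ≤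
    3 ^ (Nat.centralBinom h) * (Fintype.card F ^ Fintype.card (Fin (2 * h) → J)) ^ 3 := by
  classical
  let E := Fin (2 * h) → Bool
  let L := Fin (2 * h) → N
  let Φ : (Fin (2 * h) → J) ≃ E × L :=
    (Equiv.arrowCongr (Equiv.refl _) e).trans (Equiv.arrowProdEquivProdArrow _ _ _)
  have hΦ1 : ∀ a k, (Φ a).1 k = (e (a k)).1 := fun a k => rfl
  have hΦ2 : ∀ a k, (Φ a).2 k = (e (a k)).2 := fun a k => rfl
  let T : E → (Fin 4 → L) → F := fun ε i =>
    if ∀ k, (if ε k = true then i 0 k = i 1 k ∧ i 2 k = i 3 k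
      else i 0 k = i 2 k ∧ i 1 k = i 3 k) then 1 else 0
  let B : (Fin 4 → E × L) → F := fun i =>
    if (i 0).1 = (i 3).1 ∧ (i 1).1 = (i 3).1 ∧ (i 2).1 = (i 3).1 then
      T (i 3).1 ![(i 0).2, (i 1).2, (i 2).2, (i 3).2] else 0
  rw [Zc_equiv Φ _ B, Zc_dsum T B (fun a b c d => rfl)]
  swap
  · intro a b c d
    simp only [tpow, exT, B, T]
    rw [Finset.prod_boole, ← ite_and]
    congr 1
    apply propext
    simp only [Finset.mem_univ, true_implies, Matrix.cons_val_zero,
      Matrix.cons_val_one, Matrix.cons_val, hΦ1, hΦ2]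
    constructor
    · intro H
      exact ⟨⟨funext fun k => (H k).1, funext fun k => (H k).2.1, funext fun k => (H k).2.2.1⟩,
        fun k => (H k).2.2.2⟩
    · intro H k
      exact ⟨congrFun H.1.1 k, congrFun H.1.2.1 k, congrFun H.1.2.2 k, H.2 k⟩
  set Q := (Fintype.card F ^ Fintype.card L) ^ 3 with hQ
  set w := Fintype.card F ^ (r * r) with hw
  let bal : E → Prop := fun ε => (univ.filter fun k => ε k = true).card = h
  have hbal : ∀ ε, bal ε → Zc (T ε) * w ≤ 3 * Q := by
    intro ε hε
    have c1 : Fintype.card {k // ε k = true} = h := by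
      rw [Fintype.card_subtype]; exact hε
    have c2 : Fintype.card {k // ¬ ε k = true} = h := by
      rw [Fintype.card_subtype_compl, c1, Fintype.card_fin]; omega
    let s1 := Fintype.equivFinOfCardEq c1
    let s2 := Fintype.equivFinOfCardEq c2
    let K := Fin h → N
    let ψ : L ≃ K × K :=
      (Equiv.piEquivPiSubtypeProd (fun k => ε k = true) (fun _ => N)).trans
        (Equiv.prodCongr (Equiv.arrowCongr s1 (Equiv.refl N)) (Equiv.arrowCongr s2 (Equiv.refl N)))
    have p1 : ∀ (a : L) t, (ψ a).1 t = a (s1.symm t) := fun a t => rfl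
    have p2 : ∀ (a : L) t, (ψ a).2 t = a (s2.symm t) := fun a t => rfl
    have q1 : ∀ a b : L, (ψ a).1 = (ψ b).1 ↔ ∀ k, ε k = true → a k = b k := by
      intro a b
      exact ⟨fun H k hk => by simpa [p1] using congrFun H (s1 ⟨k, hk⟩),
        fun H => funext fun t => H _ (s1.symm t).2⟩
    have q2 : ∀ a b : L, (ψ a).2 = (ψ b).2 ↔ ∀ k, ¬ ε k = true → a k = b k := by
      intro a b
      exact ⟨fun H k hk => by simpa [p2] using congrFun H (s2 ⟨k, hk⟩),
        fun H => funext fun t => H _ (s2.symm t).2⟩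
    let C : (Fin 4 → K × K) → F := fun i =>
      if (i 0).1 = (i 1).1 ∧ (i 2).1 = (i 3).1 ∧ (i 0).2 = (i 2).2 ∧ (i 1).2 = (i 3).2
        then 1 else 0
    rw [Zc_equiv ψ (T ε) C, hQ, Fintype.card_congr ψ]
    · exact Zc_C4 r (by simp [K, hr]) C (fun a b c d => rfl)
    · intro a b c d
      simp only [T, C]
      congr 1
      apply propext
      simp only [Matrix.cons_val_zero, Matrix.cons_val_one, Matrix.cons_val, q1, q2]
      constructor
      · intro H
        refine ⟨fun k hk => ?_, fun k hk => ?_, fun k hk => ?_, fun k hk => ?_⟩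
        · have := H k; rw [if_pos hk] at this; exact this.1
        · have := H k; rw [if_pos hk] at this; exact this.2
        · have := H k; rw [if_neg hk] at this; exact this.1
        · have := H k; rw [if_neg hk] at this; exact this.2
      · intro H k
        split_ifs with hk
        · exact ⟨H.1 k hk, H.2.1 k hk⟩
        · exact ⟨H.2.2.1 k hk, H.2.2.2 k hk⟩
  have hcard : (univ.filter bal).card = Nat.centralBinom h := by
    rw [Nat.centralBinom_eq_two_mul_choose]
    have : (Finset.powersetCard h (univ : Finset (Fin (2 * h)))).card = (2 * h).choose h := by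
      rw [Finset.card_powersetCard, Finset.card_univ, Fintype.card_fin]
    rw [← this]
    refine Finset.card_bij (fun ε _ => univ.filter fun k => ε k = true) ?_ ?_ ?_
    · intro ε hε
      exact Finset.mem_powersetCard.2 ⟨Finset.subset_univ _, (Finset.mem_filter.1 hε).2⟩
    · intro a _ b _ hab
      funext k
      have := Finset.ext_iff.1 hab k
      simp only [Finset.mem_filter, Finset.mem_univ, true_and] at this
      exact Bool.eq_iff_iff.2 this
    · intro s hs
      have e1 : (univ.filter fun k => (fun k => decide (k ∈ s)) k = true) = s := by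
        ext k; simp
      refine ⟨fun k => decide (k ∈ s), ?_, e1⟩
      refine Finset.mem_filter.2 ⟨Finset.mem_univ _, ?_⟩
      show (univ.filter fun k => (fun k => decide (k ∈ s)) k = true).card = h
      rw [e1]; exact (Finset.mem_powersetCard.1 hs).2
  have e2 : ∀ t : ℕ, t ^ Nat.centralBinom h = ∏ ε : E, if bal ε then t else 1 := by
    intro t
    rw [Finset.prod_ite, Finset.prod_const, Finset.prod_const_one, mul_one, hcard]
  have e3 : (Fintype.card F ^ Fintype.card (Fin (2 * h) → J)) ^ 3 = ∏ _ε : E, Q := by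
    rw [Finset.prod_const, Finset.card_univ, Fintype.card_congr Φ, Fintype.card_prod, hQ,
      ← pow_mul, ← pow_mul, ← pow_mul]
    congr 1
    ring
  rw [e2, e2, e3, ← Finset.prod_mul_distrib, ← Finset.prod_mul_distrib]
  refine Finset.prod_le_prod' (fun ε _ => ?_)
  split_ifs with hε
  · exact hbal ε hε
  · rw [mul_one, one_mul]; exact Zc_le _

end Pool.Agent.H14.TensorRank
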