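import Mathlib

set_option autoImplicit false

namespace Pool.Agent.H14.Thmc

open MvPolynomial

/-- words of length T on S states with no self-loops -/
def Word (S T : ℕ) : Type :=
  {w : Fin T → Fin S // ∀ s t : Fin T, s.val + 1 = t.val → w s ≠ w t}

/-- number of transitions from i to j in w -/
def cnt {S T : ℕ} (w : Word S T) (i j : Fin S) : ℕ :=
  (Finset.univ.filter fun p : Fin T × Fin T =>
    p.1.val + 1 = p.2.val ∧ w.1 p.1 = i ∧ w.1 p.2 = j).card

/-- the toric ideal of the design matrix -/
noncomputable def toricIdeal (K : Type) [Field K] (S T : ℕ) : Ideal (MvPolynomial (Word S T) K) :=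
  RingHom.ker (aeval fun w : Word S T =>
    (∏ p : {p : Fin S × Fin S // p.1 ≠ p.2}, X p ^ cnt w p.1.1 p.1.2 :
      MvPolynomial {p : Fin S × Fin S // p.1 ≠ p.2} K))

end Pool.Agent.H14.Thmc
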