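import Mathlib
import Pool.Agent.H14.ThmcDefs
import Pool.Agent.H14.ToricKey

set_option autoImplicit false

namespace Pool.Agent.H14.Thmc

open MvPolynomial ToricKey

abbrev Arc : Type := {p : Fin 6 × Fin 6 // p.1 ≠ p.2}

noncomputable def r (w : Word 6 4) : Arc →₀ ℕ :=
  Finsupp.equivFunOnFinite.symm fun p => cnt w p.1.1 p.1.2

theorem r_apply (w : Word 6 4) (p : Arc) : r w p = cnt w p.1.1 p.1.2 := rfl

theorem r_mono (K : Type) [Field K] (w : Word 6 4) :
    (∏ p : Arc, X p ^ cnt w p.1.1 p.1.2 : MvPolynomial Arc K) = monomial (r w) 1 := by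
  rw [monomial_eq, Finsupp.prod_fintype _ _ fun _ => pow_zero _]
  simp [r_apply]

def pw : Fin 8 → Fin 4 → Fin 6 :=
  ![![0, 1, 4, 5], ![1, 2, 3, 2], ![2, 3, 2, 3], ![5, 4, 5, 4],
    ![0, 1, 2, 3], ![1, 4, 5, 4], ![3, 2, 3, 2], ![4, 5, 4, 5]]

theorem pw_ok : ∀ j, ∀ s t : Fin 4, s.val + 1 = t.val → pw j s ≠ pw j t := by decide

def P (j : Fin 8) : Word 6 4 := ⟨pw j, pw_ok j⟩

theorem P_inj : Function.Injective P := fun a b h => by
  have key : Function.Injective pw := by decide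
  exact key (congrArg Subtype.val h)

def al (a b : Fin 6) : Prop :=
  (a, b) ∈ [((0 : Fin 6), (1 : Fin 6)), (1, 2), (1, 4), (2, 3), (3, 2), (4, 5), (5, 4)]

instance : DecidableRel al := fun a b => by unfold al; infer_instance

theorem cls : ∀ a b : Fin 6, al a b → ∀ c : Fin 6, al b c → ∀ d : Fin 6, al c d →
    ∃ j, ![a, b, c, d] = pw j := by decide +kernel

theorem cnt_P : ∀ (j : Fin 8) (a b : Fin 6), ¬ al a b → cnt (P j) a b = 0 := by decide +kernel

theorem classify (w : Word 6 4) (h : ∀ p : Arc, ¬ al p.1.1 p.1.2 → r w p = 0) :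
    ∃ j, w = P j := by
  have key : ∀ s t : Fin 4, s.val + 1 = t.val → al (w.1 s) (w.1 t) := by
    intro s t hst
    by_contra hc
    have := h ⟨(w.1 s, w.1 t), w.2 s t hst⟩ hc
    rw [r_apply, cnt, Finset.card_eq_zero, Finset.filter_eq_empty_iff] at this
    exact this (Finset.mem_univ (s, t)) ⟨hst, rfl, rfl⟩
  obtain ⟨j, hj⟩ := cls _ _ (key 0 1 rfl) _ (key 1 2 rfl) _ (key 2 3 rfl)
  refine ⟨j, Subtype.ext ?_⟩
  show w.1 = pw j
  rw [← hj]
  funext i
  fin_cases i <;> rfl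

theorem sum_P (m : Word 6 4 →₀ ℕ) (h : ∀ M ∈ m.support, ∃ j, M = P j) (g : Word 6 4 → ℕ) :
    ∑ M ∈ m.support, m M * g M = ∑ j : Fin 8, m (P j) * g (P j) := by
  classical
  rw [← Finset.sum_image (s := Finset.univ) (g := P) (f := fun M => m M * g M)
    fun _ _ _ _ e => P_inj e]
  refine Finset.sum_subset ?_ ?_
  · intro M hM
    obtain ⟨j, rfl⟩ := h M hM
    exact Finset.mem_image_of_mem _ (Finset.mem_univ j)
  · intro M _ hM
    rw [Finsupp.notMem_support_iff.1 hM, zero_mul]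

def U (M : Word 6 4) : Prop := M = P 0 ∨ M = P 1 ∨ M = P 2 ∨ M = P 3

theorem U_P (j : Fin 8) : U (P j) ↔ j = 0 ∨ j = 1 ∨ j = 2 ∨ j = 3 := by
  simp only [U, P_inj.eq_iff]

def tb : Fin 7 → Arc :=
  ![⟨(0, 1), by decide⟩, ⟨(1, 2), by decide⟩, ⟨(1, 4), by decide⟩, ⟨(2, 3), by decide⟩,
    ⟨(3, 2), by decide⟩, ⟨(4, 5), by decide⟩, ⟨(5, 4), by decide⟩]

def ct : Fin 7 → Fin 8 → ℕ :=
  ![![1, 0, 0, 0, 1, 0, 0, 0], ![0, 1, 0, 0, 1, 0, 0, 0], ![1, 0, 0, 0, 0, 1, 0, 0],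
    ![0, 1, 2, 0, 1, 0, 1, 0], ![0, 1, 1, 0, 0, 0, 2, 0], ![1, 0, 0, 1, 0, 1, 0, 2],
    ![0, 0, 0, 2, 0, 1, 0, 1]]

theorem r_tb (i : Fin 7) (j : Fin 8) : r (P j) (tb i) = ct i j := by
  rw [r_apply]
  revert i j
  decide +kernel

theorem low (m m' : Word 6 4 →₀ ℕ) (hd : (m'.sum fun _ k => k) ≤ 8) (hex : ex r m = ex r m')
    (hU : ∀ M ∈ m.support, U M) : ∀ M ∈ m'.support, U M := by
  have hm : ∀ M ∈ m.support, ∃ j, M = P j := by
    intro M hM
    rcases hU M hM with h | h | h | h <;> exact ⟨_, h⟩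
  have hm' : ∀ M ∈ m'.support, ∃ j, M = P j := by
    intro M hM
    apply classify
    intro p hp
    have e1 : ∑ M ∈ m'.support, m' M * r M p = 0 := by
      rw [← ex_apply, ← hex, ex_apply]
      refine Finset.sum_eq_zero fun M hM => ?_
      obtain ⟨j, rfl⟩ := hm M hM
      rw [r_apply, cnt_P j _ _ hp, mul_zero]
    exact (mul_eq_zero.1 (Finset.sum_eq_zero_iff.1 e1 M hM)).resolve_left
      (Finsupp.mem_support_iff.1 hM)
  have hz : ∀ j, ¬ U (P j) → m (P j) = 0 := fun j hj =>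
    Finsupp.notMem_support_iff.1 fun h => hj (hU _ h)
  have z4 := hz 4 (by rw [U_P]; decide)
  have z5 := hz 5 (by rw [U_P]; decide)
  have z6 := hz 6 (by rw [U_P]; decide)
  have z7 := hz 7 (by rw [U_P]; decide)
  have he : ∀ i : Fin 7, ∑ j : Fin 8, m (P j) * ct i j = ∑ j : Fin 8, m' (P j) * ct i j := by
    intro i
    have e2 := ex_apply r m (tb i)
    have e3 := ex_apply r m' (tb i)
    rw [sum_P m hm] at e2
    rw [sum_P m' hm'] at e3
    simp only [r_tb] at e2 e3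
    rw [← e2, ← e3, hex]
  have hd' : ∑ j : Fin 8, m' (P j) * 1 ≤ 8 := by
    rw [← sum_P m' hm' fun _ => 1]
    simpa [Finsupp.sum] using hd
  have a0 := he 0
  have a1 := he 1
  have a2 := he 2
  have a3 := he 3
  have a4 := he 4
  have a5 := he 5
  have a6 := he 6
  simp [ct, Fin.sum_univ_succ, z4, z5, z6, z7] at a0 a1 a2 a3 a4 a5 a6 hd'
  intro M hM
  obtain ⟨j, rfl⟩ := hm' M hM
  have hne := Finsupp.mem_support_iff.1 hM
  rw [U_P]
  fin_cases j <;> simp at hne ⊢ <;> omega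

theorem main (K : Type) [Field K] :
    toricIdeal K 6 4 ≠ Ideal.span {q | q ∈ toricIdeal K 6 4 ∧ q.totalDegree ≤ 8} := by
  classical
  refine not_gen r U 8 (fun m m' _ h => low m m' h)
    (Finsupp.single (P 0) 3 + Finsupp.single (P 1) 3 + Finsupp.single (P 2) 1 +
      Finsupp.single (P 3) 2)
    (Finsupp.single (P 4) 3 + Finsupp.single (P 5) 3 + Finsupp.single (P 6) 2 +
      Finsupp.single (P 7) 1) ?_ ?_ ?_ _ ?_
  · have hadd : ∀ a b : Word 6 4 →₀ ℕ, ex r (a + b) = ex r a + ex r b := fun a b =>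
      Finsupp.sum_add_index' (fun _ => zero_smul _ _) fun _ _ _ => add_smul _ _ _
    have hs : ∀ (M : Word 6 4) (k : ℕ), ex r (Finsupp.single M k) = k • r M := fun M k =>
      Finsupp.sum_single_index (zero_smul _ _)
    simp only [hadd, hs]
    ext x
    simp only [Finsupp.add_apply, Finsupp.smul_apply, r_apply, smul_eq_mul]
    revert x
    decide +kernel
  · intro M hM
    by_contra hc
    simp only [U, not_or] at hc
    apply Finsupp.mem_support_iff.1 hM
    simp [Ne.symm hc.1, Ne.symm hc.2.1, Ne.symm hc.2.2.1, Ne.symm hc.2.2.2]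
  · intro h
    have := h (P 4) (Finsupp.mem_support_iff.2 (by simp))
    rw [U_P] at this
    revert this
    decide
  · unfold toricIdeal
    simp only [r_mono]

theorem span_of_gb {σ K : Type} [Field K] (m : MonomialOrder σ) (I : Ideal (MvPolynomial σ K))
    (B : Set (MvPolynomial σ K)) (hB : ∀ g ∈ B, g ∈ I)
    (h : ∀ f ∈ I, f ≠ 0 → ∃ g ∈ B, g ≠ 0 ∧ m.degree g ≤ m.degree f) : I ≤ Ideal.span B := by
  intro f hf
  obtain ⟨g, s, h1, -, h3⟩ := m.div_set (B := {g | g ∈ B ∧ g ≠ 0})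
    (fun b hb => MonomialOrder.isUnit_leadingCoeff.2 hb.2) f
  have hg : Finsupp.linearCombination (MvPolynomial σ K)
      (fun b : {g | g ∈ B ∧ g ≠ 0} => (b : MvPolynomial σ K)) g ∈ Ideal.span B := by
    rw [Finsupp.linearCombination_apply, Finsupp.sum]
    exact Ideal.sum_mem _ fun b _ => Ideal.mul_mem_left _ _ (Ideal.subset_span b.2.1)
  have hs : s = 0 := by
    by_contra hc
    have hI : s ∈ I := by
      have e : s = f - _ := eq_sub_of_add_eq' h1.symm
      rw [e]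
      exact I.sub_mem hf ((Ideal.span_le.2 hB) hg)
    obtain ⟨b, hb, hb0, hle⟩ := h s hI hc
    exact h3 _ (MonomialOrder.degree_mem_support hc) b ⟨hb, hb0⟩ hle
  rw [h1, hs, add_zero]
  exact hg

end Pool.Agent.H14.Thmc
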