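import Pool.Agent.H14.Spec

set_option autoImplicit false

namespace Pool.Agent.H14.TraceNorm

open Matrix Finset

variable {n : Type*} [Fintype n] [DecidableEq n] {A : Matrix n n ℝ}

theorem perm_le (hA : A.IsHermitian) (σ : Equiv.Perm n) :
    ∑ v, A v (σ v) ≤ ∑ i, |hA.eigenvalues i| := by
  let V : Matrix n n ℝ := hA.eigenvectorUnitary
  have hV : Vᵀ * V = 1 := by
    have := (hA.eigenvectorUnitary).2.1
    simpa [star_eq_conjTranspose, conjTranspose_eq_transpose_of_trivial] using this
  have hS : A = V * diagonal hA.eigenvalues * Vᵀ := by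
    have := hA.spectral_theorem
    simpa [Unitary.conjStarAlgAut_apply, star_eq_conjTranspose,
      conjTranspose_eq_transpose_of_trivial, Function.comp_def] using this
  have e : ∀ v w, A v w = ∑ i, hA.eigenvalues i * (V v i * V w i) := by
    intro v w
    conv_lhs => rw [hS]
    simp only [Matrix.mul_apply (M := V * diagonal hA.eigenvalues), mul_diagonal, transpose_apply]
    exact sum_congr rfl fun i _ => by ring
  have nrm : ∀ i, ∑ v, V v i * V v i = 1 := by
    intro i
    have := congrFun (congrFun hV i) i
    simpa [Matrix.mul_apply] using this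
  simp only [e]
  rw [sum_comm]
  refine sum_le_sum fun i _ => ?_
  rw [← mul_sum]
  refine (le_abs_self _).trans ?_
  rw [abs_mul]
  refine mul_le_of_le_one_right (abs_nonneg _) ?_
  have h2 : ∑ v, V (σ v) i * V (σ v) i = 1 := by
    rw [← nrm i]; exact Equiv.sum_comp σ fun v => V v i * V v i
  refine (abs_sum_le_sum_abs _ _).trans ?_
  have : ∑ v, |V v i * V (σ v) i| ≤ ∑ v, (V v i * V v i + V (σ v) i * V (σ v) i) / 2 :=
    sum_le_sum fun v _ => by
      rw [abs_le]; constructor <;> nlinarith [sq_nonneg (V v i + V (σ v) i), sq_nonneg (V v i - V (σ v) i)]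
  rw [← sum_div, sum_add_distrib, nrm, h2] at this
  linarith

end Pool.Agent.H14.TraceNorm
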