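import Pool.Agent.H14.TradeDefs

set_option autoImplicit false

namespace Pool.Agent.H14.Trade

open Finset

def ind (K : Type) [Zero K] [One K] (b : Bool) : K := if b then 1 else 0

lemma ind_not (b : Bool) : ind ℝ (!b) = 1 - ind ℝ b := by cases b <;> simp [ind]

lemma ind_inj {a b : Bool} (h : ind ℝ a = ind ℝ b) : a = b := by
  cases a <;> cases b <;> simp_all [ind]

lemma ind_cast (b : Bool) : ((ind ℤ b : ℤ) : ℝ) = ind ℝ b := by cases b <;> simp [ind]

lemma ind_mono {a b : Bool} (h : a ≤ b) : ind ℝ a ≤ ind ℝ b := by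
  cases a <;> cases b <;> simp_all [ind]
  exact absurd h (by decide)

lemma all_eq {j : ℕ} (a b : Fin j → ℝ) (c : ℝ) (ha : ∀ t, c ≤ a t) (hb : ∀ t, b t ≤ c)
    (h : ∑ t, a t = ∑ t, b t) : (∀ t, a t = c) ∧ (∀ t, b t = c) := by
  have h1 : ∀ t ∈ (univ : Finset (Fin j)), b t ≤ a t := fun t _ => (hb t).trans (ha t)
  have h2 := (sum_eq_sum_iff_of_le h1).mp h.symm
  constructor
  · intro t
    have := h2 t (mem_univ t)
    linarith [ha t, hb t]
  · intro t
    have := h2 t (mem_univ t)
    linarith [ha t, hb t]

theorem layerA {Q C : Type} [Fintype Q] [Fintype C] [Nonempty C] (m : C → Q → Bool) (N : ℕ)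
    (H1 : ∀ μ : Q → ℝ, ∑ q, μ q = 1 →
      (∀ c, ∑ q, ind ℝ (m c q) * μ q = 0 ∨ ∑ q, ind ℝ (m c q) * μ q = 1) →
      ∃ q0, ∀ c, ∑ q, ind ℝ (m c q) * μ q = ind ℝ (m c q0))
    (H2 : ∀ q q', (∀ c, m c q = m c q') → q = q')
    (lam : Q → ℝ) (H3 : ∑ q, lam q = 0) (H3' : ∀ c, ∑ q, ind ℝ (m c q) * lam q = 0)
    (H3'' : ∃ q, lam q < 0)
    (H4 : ∀ μ : Q → ℤ, (∀ c, ∑ q, ind ℤ (m c q) * μ q = 0) → μ ≠ 0 → ∃ q, (N : ℤ) ≤ |μ q|) :
    ∃ f : (C × Bool → Bool) → Bool, Monotone f ∧ ¬ Weighted f ∧
      ∀ j, 1 ≤ j → SummableAt f j → N ≤ j := by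
  classical
  let v : Q → C × Bool → Bool := fun q d => if d.2 then m d.1 q else !m d.1 q
  let toR : (C × Bool → Bool) → C × Bool → ℝ := fun x d => ind ℝ (x d)
  let size : (C × Bool → Bool) → ℝ := fun x => ∑ d, toR x d
  let U : Submodule ℝ (C × Bool → ℝ) := Submodule.span ℝ (Set.range (fun q => toR (v q)))
  obtain ⟨φ0, hφ0⟩ := Module.exists_dual_forall_apply_ne_zero (K := ℝ)
    (fun x : {x : C × Bool → Bool // toR x ∉ U} => U.mkQ (toR x.1))
    (fun x => by simpa using x.2)
  let φ : (C × Bool → ℝ) →ₗ[ℝ] ℝ := φ0.comp U.mkQ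
  have hφv : ∀ q, φ (toR (v q)) = 0 := by
    intro q
    have : U.mkQ (toR (v q)) = 0 := by
      simpa using Submodule.subset_span (Set.mem_range_self q)
    simp only [φ, LinearMap.comp_apply, this, map_zero]
  have hsz : ∀ x, size x = ∑ c, (ind ℝ (x (c, true)) + ind ℝ (x (c, false))) := by
    intro x
    simp only [size, toR, Fintype.sum_prod_type, Fintype.sum_bool]
  have hszv : ∀ q, size (v q) = Fintype.card C := by
    intro q
    rw [hsz]
    simp [v, ind_not]
  have hB : ∀ x, size x = Fintype.card C → φ (toR x) = 0 → ∃ q, x = v q := by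
    intro x hx h0
    have hU : toR x ∈ U := by
      by_contra hc
      exact hφ0 ⟨x, hc⟩ h0
    obtain ⟨μ, hμ⟩ := (Submodule.mem_span_range_iff_exists_fun ℝ).mp hU
    have e1 : ∀ c, ∑ q, ind ℝ (m c q) * μ q = ind ℝ (x (c, true)) := by
      intro c
      have := congrFun hμ (c, true)
      simpa [toR, v, Finset.sum_apply, mul_comm] using this
    have e2 : ∀ c, ∑ q, μ q - ∑ q, ind ℝ (m c q) * μ q = ind ℝ (x (c, false)) := by
      intro c
      have := congrFun hμ (c, false)
      simp only [toR, v, Finset.sum_apply, Pi.smul_apply, smul_eq_mul, Bool.false_eq_true,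
        if_false, ind_not] at this
      rw [← this, ← sum_sub_distrib]
      apply sum_congr rfl
      intro q _
      ring
    have e3 : ∑ q, μ q = 1 := by
      rw [hsz] at hx
      have : ∀ c, ind ℝ (x (c, true)) + ind ℝ (x (c, false)) = ∑ q, μ q := by
        intro c
        rw [← e1, ← e2]
        ring
      simp only [this, sum_const, card_univ, nsmul_eq_mul] at hx
      have hc : (Fintype.card C : ℝ) ≠ 0 := by exact_mod_cast Fintype.card_ne_zero
      field_simp at hx
      exact hx
    obtain ⟨q0, hq0⟩ := H1 μ e3 (by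
      intro c
      rw [e1]
      cases x (c, true) <;> simp [ind])
    refine ⟨q0, ?_⟩
    funext ⟨c, b⟩
    cases b
    · apply ind_inj
      simp only [v, Bool.false_eq_true, if_false, ind_not]
      rw [← e2, e3, hq0]
    · apply ind_inj
      simp only [v, if_true]
      rw [← e1, hq0]
  have hvinj : ∀ q q', v q = v q' → q = q' := by
    intro q q' h
    apply H2
    intro c
    simpa [v] using congrFun h (c, true)
  let f : (C × Bool → Bool) → Bool := fun x => decide ((Fintype.card C : ℝ) < size x ∨
    (size x = Fintype.card C ∧ (0 < φ (toR x) ∨ ∃ q, 0 < lam q ∧ x = v q)))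
  have ft : ∀ x, f x = true ↔ ((Fintype.card C : ℝ) < size x ∨
    (size x = Fintype.card C ∧ (0 < φ (toR x) ∨ ∃ q, 0 < lam q ∧ x = v q))) := by
    intro x
    simp only [f, decide_eq_true_eq]
  have ff : ∀ x, f x = false → ¬ ((Fintype.card C : ℝ) < size x ∨
    (size x = Fintype.card C ∧ (0 < φ (toR x) ∨ ∃ q, 0 < lam q ∧ x = v q))) := by
    intro x hx h
    rw [(ft x).mpr h] at hx
    exact absurd hx (by decide)
  refine ⟨f, ?_, ?_, ?_⟩
  · intro x y hxy
    cases hx : f x
    · exact Bool.false_le _
    · have hle : ∀ d ∈ (univ : Finset (C × Bool)), toR x d ≤ toR y d :=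
        fun d _ => ind_mono (hxy d)
      have h1 : size x ≤ size y := sum_le_sum hle
      suffices f y = true by rw [this]
      rcases h1.lt_or_eq with h2 | h2
      · rw [ft]
        left
        rcases (ft x).mp hx with h | h
        · linarith
        · linarith [h.1]
      · have : x = y := by
          funext d
          exact ind_inj ((sum_eq_sum_iff_of_le hle).mp h2 d (mem_univ d))
        rw [← this, hx]
  · rintro ⟨w, θ, hw⟩
    have h1 : ∑ q, lam q * (∑ d, w d * (if v q d then 1 else 0) - θ) = 0 := by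
      simp only [mul_sub, sum_sub_distrib, ← sum_mul, H3, zero_mul, sub_zero, mul_sum]
      rw [sum_comm]
      apply sum_eq_zero
      rintro ⟨c, b⟩ _
      have : ∑ q, lam q * ind ℝ (v q (c, b)) = 0 := by
        cases b
        · simp only [v, Bool.false_eq_true, if_false, ind_not, mul_sub, mul_one,
            sum_sub_distrib, H3]
          have := H3' c
          simp only [mul_comm] at this ⊢
          linarith
        · have := H3' c
          simpa [v, mul_comm] using this
      calc ∑ q, lam q * (w (c, b) * (if v q (c, b) then 1 else 0))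
          = w (c, b) * ∑ q, lam q * ind ℝ (v q (c, b)) := by
            rw [mul_sum]
            apply sum_congr rfl
            intro q _
            simp only [ind]
            ring
        _ = 0 := by rw [this, mul_zero]
    have neg : ∀ q, ¬ 0 < lam q → ∑ d, w d * (if v q d then 1 else 0) - θ < 0 := by
      intro q hq
      by_contra hc
      have : f (v q) = true := (hw _).mpr (by linarith)
      rcases (ft _).mp this with h | ⟨-, h | ⟨q', h, h'⟩⟩
      · rw [hszv] at h
        exact lt_irrefl _ h
      · rw [hφv] at h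
        exact lt_irrefl _ h
      · exact hq (hvinj _ _ h' ▸ h)
    have h2 : 0 < ∑ q, lam q * (∑ d, w d * (if v q d then 1 else 0) - θ) := by
      apply sum_pos'
      · intro q _
        by_cases hq : 0 < lam q
        · have : f (v q) = true := (ft _).mpr (Or.inr ⟨hszv q, Or.inr ⟨q, hq, rfl⟩⟩)
          have := (hw _).mp this
          exact mul_nonneg hq.le (by linarith)
        · exact mul_nonneg_of_nonpos_of_nonpos (not_lt.mp hq) (neg q hq).le
      · obtain ⟨q, hq⟩ := H3''
        exact ⟨q, mem_univ q, mul_pos_of_neg_of_neg hq (neg q (by linarith))⟩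
    linarith
  · rintro j hj ⟨x, y, hx, hy, hxy⟩
    have hv : ∑ t, toR (x t) = ∑ t, toR (y t) := by
      funext d
      have := congrArg (fun z : ℤ => (z : ℝ)) (hxy d)
      simpa [toR, ind, Finset.sum_apply] using this
    have s1 : ∑ t, size (x t) = ∑ t, size (y t) := by
      simp only [size]
      rw [sum_comm, sum_comm (s := univ) (t := univ) (f := fun t d => toR (y t) d)]
      apply sum_congr rfl
      intro d _
      simpa [Finset.sum_apply] using congrFun hv d
    obtain ⟨sx, sy⟩ := all_eq _ _ (Fintype.card C : ℝ)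
      (fun t => by
        rcases (ft _).mp (hx t) with h | h
        · exact h.le
        · exact h.1.ge)
      (fun t => by
        have := ff _ (hy t)
        exact not_lt.mp (fun h => this (Or.inl h))) s1
    have s2 : ∑ t, φ (toR (x t)) = ∑ t, φ (toR (y t)) := by
      rw [← map_sum, ← map_sum, hv]
    obtain ⟨px, py⟩ := all_eq _ _ 0
      (fun t => by
        rcases (ft _).mp (hx t) with h | ⟨-, h | ⟨q, -, h⟩⟩
        · rw [sx t] at h
          exact absurd h (lt_irrefl _)
        · exact h.le
        · rw [h, hφv])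
      (fun t => by
        have := ff _ (hy t)
        exact not_lt.mp (fun h => this (Or.inr ⟨sy t, Or.inl h⟩))) s2
    have ex : ∀ t, ∃ q, 0 < lam q ∧ x t = v q := by
      intro t
      rcases (ft _).mp (hx t) with h | ⟨-, h | h⟩
      · rw [sx t] at h
        exact absurd h (lt_irrefl _)
      · rw [px t] at h
        exact absurd h (lt_irrefl _)
      · exact h
    have ey : ∀ t, ∃ q, ¬ 0 < lam q ∧ y t = v q := by
      intro t
      obtain ⟨q, hq⟩ := hB _ (sy t) (py t)
      exact ⟨q, fun h => ff _ (hy t) (Or.inr ⟨sy t, Or.inr ⟨q, h, hq⟩⟩), hq⟩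
    choose qx hqx hqx' using ex
    choose qy hqy hqy' using ey
    let cnt : (Fin j → Q) → Q → ℤ := fun g q => ∑ t, if g t = q then 1 else 0
    have hcnt : ∀ (g : Fin j → Q) (c : C),
        ∑ q, ind ℤ (m c q) * cnt g q = ∑ t, ind ℤ (m c (g t)) := by
      intro g c
      simp only [cnt, mul_sum]
      rw [sum_comm]
      apply sum_congr rfl
      intro t _
      simp
    have hc0 : ∀ g q, 0 ≤ cnt g q := fun g q =>
      sum_nonneg fun t _ => by split_ifs <;> norm_num
    have hc1 : ∀ g q, cnt g q ≤ j := by
      intro g q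
      calc cnt g q ≤ ∑ _t : Fin j, (1 : ℤ) :=
            sum_le_sum fun t _ => by split_ifs <;> norm_num
        _ = j := by simp
    obtain ⟨q, hq⟩ := H4 (fun q => cnt qx q - cnt qy q)
      (by
        intro c
        simp only [mul_sub, sum_sub_distrib, hcnt]
        have := hxy (c, true)
        simp only [hqx', hqy', v, if_true] at this
        simp only [ind]
        linarith)
      (by
        intro h
        have h0 := congrFun h (qx ⟨0, hj⟩)
        have a : cnt qy (qx ⟨0, hj⟩) = 0 := by
          apply sum_eq_zero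
          intro t _
          rw [if_neg]
          intro e
          exact hqy t (e ▸ hqx _)
        have b : 1 ≤ cnt qx (qx ⟨0, hj⟩) := by
          have := single_le_sum (f := fun t => if qx t = qx ⟨0, hj⟩ then (1 : ℤ) else 0)
            (fun t _ => by split_ifs <;> norm_num) (mem_univ (⟨0, hj⟩ : Fin j))
          rw [if_pos rfl] at this
          exact this
        simp only [Pi.zero_apply] at h0
        linarith)
    have : |cnt qx q - cnt qy q| ≤ j := by
      rw [abs_le]
      constructor <;> linarith [hc0 qx q, hc0 qy q, hc1 qx q, hc1 qy q]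
    exact_mod_cast hq.trans this

theorem transfer {D : Type} [Fintype D] {n : ℕ} (hn : Fintype.card D ≤ n) (N : ℕ)
    (h : ∃ f : (D → Bool) → Bool, Monotone f ∧ ¬ Weighted f ∧
      ∀ j, 1 ≤ j → SummableAt f j → N ≤ j) :
    ∃ f : (Fin n → Bool) → Bool, Monotone f ∧ ¬ Weighted f ∧
      ∀ j, 1 ≤ j → SummableAt f j → N ≤ j := by
  classical
  obtain ⟨f, h1, h2, h3⟩ := h
  obtain ⟨e⟩ : Nonempty (D ↪ Fin n) := Function.Embedding.nonempty_of_card_le (by simpa using hn)
  refine ⟨fun x => f (x ∘ e), fun x y hxy => h1 (fun d => hxy (e d)), ?_, ?_⟩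
  · rintro ⟨w, θ, hw⟩
    apply h2
    refine ⟨w ∘ e, θ, fun x => ?_⟩
    have hx : (Function.extend e x (fun _ => false)) ∘ e = x := by
      funext d
      exact e.injective.extend_apply _ _ _
    have := hw (Function.extend e x (fun _ => false))
    simp only [hx] at this
    rw [this]
    have e2 : ∑ i, w i * (if Function.extend e x (fun _ => false) i then (1 : ℝ) else 0) =
        ∑ d, (w ∘ e) d * (if x d then 1 else 0) := by
      rw [← sum_subset (subset_univ (univ.map e))]
      · rw [sum_map]
        apply sum_congr rfl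
        intro d _
        rw [e.injective.extend_apply]
        rfl
      · intro i _ hi
        rw [Function.extend_apply']
        · simp
        · rintro ⟨d, rfl⟩
          exact hi (mem_map_of_mem e (mem_univ d))
    rw [e2]
  · rintro j hj ⟨x, y, hx, hy, hxy⟩
    exact h3 j hj ⟨fun t => x t ∘ e, fun t => y t ∘ e, hx, hy, fun d => hxy (e d)⟩

end Pool.Agent.H14.Trade
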