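import Pool.Agent.H14.TradeA

set_option autoImplicit false

namespace Pool.Agent.H14.Trade

open Finset

section B

variable {P R : Type} [Fintype P] [DecidableEq P] [Fintype R]

/-- Incidence between coordinates and points. -/
def inc (E : R → P → ℤ) :
    (P × Fin 3 × Fin 3) ⊕ (R × Bool × Fin 3) → P × Bool × Fin 3 → Bool
  | .inl (p, a, b), (p', s, c) => decide (p' = p ∧ c = if s then a else b)
  | .inr (r, σ, a), (p', s, c) => decide (c = a ∧ E r p' = if s = σ then 1 else -1)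

omit [Fintype R] in
lemma val_inl {K : Type} [CommRing K] (E : R → P → ℤ) (μ : P × Bool × Fin 3 → K) (p : P)
    (a b : Fin 3) :
    ∑ q, ind K (inc E (.inl (p, a, b)) q) * μ q = μ (p, true, a) + μ (p, false, b) := by
  simp only [Fintype.sum_prod_type, Fintype.sum_bool, inc, ind, decide_eq_true_eq, ite_mul,
    one_mul, zero_mul, if_true, Bool.false_eq_true, if_false]
  rw [sum_eq_single p]
  · simp
  · intro p' _ h
    simp [h]
  · simp

omit [Fintype R] in
lemma val_inr {K : Type} [CommRing K] (E : R → P → ℤ)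
    (hE : ∀ r p, E r p = 0 ∨ E r p = 1 ∨ E r p = -1) (μ : P × Bool × Fin 3 → K) (x : P → K)
    (h1 : ∀ p a, μ (p, true, a) = x p) (h2 : ∀ p a, μ (p, false, a) = -x p) (r : R) (σ : Bool)
    (a : Fin 3) :
    ∑ q, ind K (inc E (.inr (r, σ, a)) q) * μ q =
      (if σ then 1 else -1) * ∑ p, (E r p : K) * x p := by
  simp only [Fintype.sum_prod_type, Fintype.sum_bool, inc, ind, decide_eq_true_eq, ite_mul,
    one_mul, zero_mul, h1, h2]
  cases σ
  · simp only [Bool.false_eq_true, if_false, neg_mul, one_mul, ← sum_neg_distrib]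
    apply sum_congr rfl
    intro p _
    rcases hE r p with h | h | h <;> simp [h]
  · simp only [if_true]
    apply sum_congr rfl
    intro p _
    rcases hE r p with h | h | h <;> simp [h]

lemma bool3 : ∀ B : Fin 3 → Fin 3 → Bool,
    (∀ a b, ind ℤ (B a b) + ind ℤ (B 0 0) = ind ℤ (B a 0) + ind ℤ (B 0 b)) →
    (∀ a b, B a b = false) ∨ (∃ a0, ∀ a b, B a b = decide (a = a0)) ∨
      (∃ b0, ∀ a b, B a b = decide (b = b0)) ∨
      2 ≤ ind ℤ (B 0 0) + ind ℤ (B 1 1) + ind ℤ (B 2 2) := by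
  decide +kernel

lemma local3 (α β : Fin 3 → ℝ) (h : ∀ a b, α a + β b = 0 ∨ α a + β b = 1) :
    ((∀ a b, α a + β b = 0) ∧ ∑ a, α a + ∑ b, β b = 0) ∨
    (((∃ a0, ∀ a b, α a + β b = ind ℝ (decide (a = a0))) ∨
      (∃ b0, ∀ a b, α a + β b = ind ℝ (decide (b = b0)))) ∧ ∑ a, α a + ∑ b, β b = 1) ∨
    2 ≤ ∑ a, α a + ∑ b, β b := by
  classical
  let B : Fin 3 → Fin 3 → Bool := fun a b => decide (α a + β b = 1)
  have hB : ∀ a b, α a + β b = ind ℝ (B a b) := by
    intro a b
    rcases h a b with h | h <;> simp [B, ind, h]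
  have ht : ∑ a, α a + ∑ b, β b = ind ℝ (B 0 0) + ind ℝ (B 1 1) + ind ℝ (B 2 2) := by
    rw [← hB, ← hB, ← hB]
    simp only [Fin.sum_univ_three]
    ring
  rcases bool3 B (by
    intro a b
    have : ind ℝ (B a b) + ind ℝ (B 0 0) = ind ℝ (B a 0) + ind ℝ (B 0 b) := by
      rw [← hB, ← hB, ← hB, ← hB]
      ring
    rw [← ind_cast, ← ind_cast, ← ind_cast, ← ind_cast] at this
    exact_mod_cast this) with h | ⟨a0, h⟩ | ⟨b0, h⟩ | h
  · left
    refine ⟨fun a b => by rw [hB, h]; rfl, ?_⟩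
    rw [ht, h, h, h]
    simp [ind]
  · right; left
    refine ⟨Or.inl ⟨a0, fun a b => by rw [hB, h]⟩, ?_⟩
    rw [ht, h, h, h]
    fin_cases a0 <;> simp [ind]
  · right; left
    refine ⟨Or.inr ⟨b0, fun a b => by rw [hB, h]⟩, ?_⟩
    rw [ht, h, h, h]
    fin_cases b0 <;> simp [ind]
  · right; right
    rw [ht, ← ind_cast, ← ind_cast, ← ind_cast]
    exact_mod_cast h

omit [Fintype R] in
lemma closed (E : R → P → ℤ) (hE : ∀ r p, E r p = 0 ∨ E r p = 1 ∨ E r p = -1)
    (μ : P × Bool × Fin 3 → ℝ) (hs : ∑ q, μ q = 1)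
    (h : ∀ c, ∑ q, ind ℝ (inc E c q) * μ q = 0 ∨ ∑ q, ind ℝ (inc E c q) * μ q = 1) :
    ∃ q0, ∀ c, ∑ q, ind ℝ (inc E c q) * μ q = ind ℝ (inc E c q0) := by
  let τ : P → ℝ := fun p => ∑ a, μ (p, true, a) + ∑ b, μ (p, false, b)
  have hτ : ∑ p, τ p = 1 := by
    rw [← hs]
    simp only [τ, Fintype.sum_prod_type, Fintype.sum_bool]
  have hl := fun p => local3 (fun a => μ (p, true, a)) (fun b => μ (p, false, b))
    (fun a b => by
      have := h (.inl (p, a, b))
      rwa [val_inl] at this)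
  have h0 : ∀ p, 0 ≤ τ p := by
    intro p
    rcases hl p with h | h | h
    · exact h.2.ge
    · exact le_trans zero_le_one h.2.ge
    · exact le_trans zero_le_two h
  obtain ⟨p0, hp0⟩ : ∃ p0, τ p0 ≠ 0 := by
    by_contra hc
    push Not at hc
    simp [hc] at hτ
  have hsplit : τ p0 + ∑ p ∈ univ.erase p0, τ p = 1 := by
    rw [add_sum_erase _ _ (mem_univ p0), hτ]
  have hrest : 0 ≤ ∑ p ∈ univ.erase p0, τ p := sum_nonneg fun p _ => h0 p
  have hp1 : (∃ a0, ∀ a b, μ (p0, true, a) + μ (p0, false, b) = ind ℝ (decide (a = a0))) ∨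
      (∃ b0, ∀ a b, μ (p0, true, a) + μ (p0, false, b) = ind ℝ (decide (b = b0))) := by
    rcases hl p0 with h | h | h
    · exact absurd h.2 hp0
    · exact h.1
    · have : 2 ≤ τ p0 := h
      linarith
  have ht1 : τ p0 = 1 := by
    rcases hl p0 with h | h | h
    · exact absurd h.2 hp0
    · exact h.2
    · have : 2 ≤ τ p0 := h
      linarith
  have hoth : ∀ p, p ≠ p0 → ∀ a b, μ (p, true, a) + μ (p, false, b) = 0 := by
    intro p hp
    have : τ p ≤ ∑ p ∈ univ.erase p0, τ p :=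
      single_le_sum (fun p _ => h0 p) (mem_erase.mpr ⟨hp, mem_univ p⟩)
    rcases hl p with h | h | h
    · exact h.1
    · have : τ p = 1 := h.2
      linarith
    · have : 2 ≤ τ p := h
      linarith
  obtain ⟨q0, hq0⟩ : ∃ q0, ∀ p a b,
      μ (p, true, a) + μ (p, false, b) = ind ℝ (inc E (.inl (p, a, b)) q0) := by
    rcases hp1 with ⟨a0, h⟩ | ⟨b0, h⟩
    · refine ⟨(p0, true, a0), fun p a b => ?_⟩
      by_cases hp : p = p0
      · subst hp
        rw [h]
        simp [inc, eq_comm]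
      · rw [hoth p hp]
        simp [inc, ind, Ne.symm hp]
    · refine ⟨(p0, false, b0), fun p a b => ?_⟩
      by_cases hp : p = p0
      · subst hp
        rw [h]
        simp [inc, eq_comm]
      · rw [hoth p hp]
        simp [inc, ind, Ne.symm hp]
  let ν : P × Bool × Fin 3 → ℝ := fun q => μ q - if q = q0 then 1 else 0
  have hν : ∀ c, ∑ q, ind ℝ (inc E c q) * ν q =
      ∑ q, ind ℝ (inc E c q) * μ q - ind ℝ (inc E c q0) := by
    intro c
    simp [ν, mul_sub, sum_sub_distrib]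
  have hpair : ∀ p a b, ν (p, true, a) + ν (p, false, b) = 0 := by
    intro p a b
    rw [← val_inl E, hν, val_inl, hq0, sub_self]
  have n2 : ∀ p a, ν (p, false, a) = -ν (p, true, 0) := fun p a => by linarith [hpair p 0 a]
  have n1 : ∀ p a, ν (p, true, a) = ν (p, true, 0) := fun p a => by
    linarith [hpair p a 0, hpair p 0 0]
  have hrel := val_inr E hE ν (fun p => ν (p, true, 0)) n1 n2
  have hz : ∀ r, ∑ p, (E r p : ℝ) * ν (p, true, 0) = 0 := by
    intro r
    obtain ⟨a, ha⟩ := exists_ne q0.2.2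
    have i0 : ∀ σ, ind ℝ (inc E (.inr (r, σ, a)) q0) = 0 := by
      intro σ
      obtain ⟨p, s, c⟩ := q0
      have : c ≠ a := Ne.symm ha
      simp [inc, ind, this]
    have a1 := h (.inr (r, true, a))
    have a2 := h (.inr (r, false, a))
    have b1 := hν (.inr (r, true, a))
    have b2 := hν (.inr (r, false, a))
    rw [hrel, i0] at b1 b2
    simp only [if_true, Bool.false_eq_true, if_false] at b1 b2
    rcases a1 with a1 | a1 <;> rcases a2 with a2 | a2 <;> linarith
  refine ⟨q0, fun c => ?_⟩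
  have : ∑ q, ind ℝ (inc E c q) * ν q = 0 := by
    rcases c with ⟨p, a, b⟩ | ⟨r, σ, a⟩
    · rw [val_inl, hpair]
    · rw [hrel, hz, mul_zero]
  rw [hν] at this
  linarith

theorem layerB [Nonempty P] (E : R → P → ℤ) (hE : ∀ r p, E r p = 0 ∨ E r p = 1 ∨ E r p = -1)
    (N : ℕ) (l : P → ℤ) (hl : ∀ r, ∑ p, E r p * l p = 0) (hl0 : ∃ p, 0 < l p)
    (hk : ∀ x : P → ℤ, (∀ r, ∑ p, E r p * x p = 0) → x ≠ 0 → ∃ p, (N : ℤ) ≤ |x p|) :
    ∃ f : ((((P × Fin 3 × Fin 3) ⊕ (R × Bool × Fin 3)) × Bool) → Bool) → Bool,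
      Monotone f ∧ ¬ Weighted f ∧ ∀ j, 1 ≤ j → SummableAt f j → N ≤ j := by
  apply layerA (inc E) N (closed E hE) ?_
    (fun q => if q.2.1 then (l q.1 : ℝ) else -(l q.1 : ℝ))
  · simp [Fintype.sum_prod_type]
  · rintro (⟨p, a, b⟩ | ⟨r, σ, a⟩)
    · rw [val_inl]
      simp
    · rw [val_inr E hE _ (fun p => (l p : ℝ)) (by simp) (by simp)]
      have := congrArg (fun z : ℤ => (z : ℝ)) (hl r)
      simp only [Int.cast_sum, Int.cast_mul, Int.cast_zero] at this
      rw [this, mul_zero]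
  · obtain ⟨p, hp⟩ := hl0
    refine ⟨(p, false, 0), ?_⟩
    simpa using hp
  · intro μ h hμ
    have hpair : ∀ p a b, μ (p, true, a) + μ (p, false, b) = 0 := by
      intro p a b
      rw [← val_inl E, h]
    have n2 : ∀ p a, μ (p, false, a) = -μ (p, true, 0) := fun p a => by linarith [hpair p 0 a]
    have n1 : ∀ p a, μ (p, true, a) = μ (p, true, 0) := fun p a => by
      linarith [hpair p a 0, hpair p 0 0]
    obtain ⟨p, hp⟩ := hk (fun p => μ (p, true, 0))
      (by
        intro r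
        have := h (.inr (r, true, 0))
        rw [val_inr E hE μ (fun p => μ (p, true, 0)) n1 n2] at this
        simpa using this)
      (by
        intro h0
        apply hμ
        funext ⟨p, s, a⟩
        have := congrFun h0 p
        simp only [Pi.zero_apply] at this ⊢
        cases s
        · rw [n2, this, neg_zero]
        · rw [n1, this])
    exact ⟨_, hp⟩
  · rintro ⟨p, s, c⟩ ⟨p', s', c'⟩ h
    have h1 := h (.inl (p, c, c))
    have h2 := h (.inl (p, c, c + 1))
    have h3 := h (.inl (p, c + 1, c))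
    have hc : c ≠ c + 1 := (by decide : ∀ c : Fin 3, c ≠ c + 1) c
    clear h
    cases s <;> cases s' <;> simp_all [inc]

end B

end Pool.Agent.H14.Trade
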