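import Pool.Agent.H14.TradeB

set_option autoImplicit false

namespace Pool.Agent.H14.Trade

open Finset

def syl {t : ℕ} (x y : Fin t → Bool) : ℤ := ∏ i, if x i && y i then -1 else 1

lemma syl_pm {t : ℕ} (x y : Fin t → Bool) : syl x y = 1 ∨ syl x y = -1 := by
  unfold syl
  apply prod_induction _ (fun z : ℤ => z = 1 ∨ z = -1)
  · rintro a b (rfl | rfl) (rfl | rfl) <;> simp
  · simp
  · intro i _
    split_ifs <;> simp

lemma syl_orth {t : ℕ} (x z : Fin t → Bool) :
    ∑ y, syl x y * syl y z = if x = z then 2 ^ t else 0 := by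
  simp only [syl, ← prod_mul_distrib]
  have := prod_univ_sum (fun _ : Fin t => (univ : Finset Bool))
    (fun i b => ((if x i && b then -1 else 1) * (if b && z i then -1 else 1) : ℤ))
  rw [Fintype.piFinset_univ] at this
  rw [← this]
  split_ifs with h
  · subst h
    rw [prod_congr rfl (g := fun _ => 2)]
    · simp
    · intro i _
      cases x i <;> simp
  · obtain ⟨i, hi⟩ := Function.ne_iff.mp h
    apply prod_eq_zero (mem_univ i)
    cases hx : x i <;> cases hz : z i <;> simp_all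

lemma exists_had (t : ℕ) : ∃ H : Fin (2 ^ t) → Fin (2 ^ t) → ℤ,
    (∀ i j, H i j = 1 ∨ H i j = -1) ∧
    ∀ i k, ∑ j, H i j * H j k = if i = k then 2 ^ t else 0 := by
  let e : Fin (2 ^ t) ≃ (Fin t → Bool) := Fintype.equivOfCardEq (by simp)
  refine ⟨fun i j => syl (e i) (e j), fun i j => syl_pm _ _, fun i k => ?_⟩
  rw [Equiv.sum_comp e (fun y => syl (e i) y * syl y (e k)), syl_orth]
  simp

theorem layerC (m : ℕ) (hm : 1 ≤ m) (H : Fin m → Fin m → ℤ) (h1 : ∀ i j, H i j = 1 ∨ H i j = -1)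
    (h2 : ∀ i k, ∑ j, H i j * H j k = if i = k then (m : ℤ) else 0) (n : ℕ) (hn : 60 * m ≤ n) :
    ∃ f : (Fin n → Bool) → Bool, Monotone f ∧ ¬ Weighted f ∧
      ∀ j, 1 ≤ j → SummableAt f j → m ^ (m - 1) ≤ j := by
  haveI : Nonempty (Fin m) := ⟨⟨0, hm⟩⟩
  let E : Fin m ⊕ Fin m → Fin m ⊕ Fin m → ℤ := fun r p =>
    match r, p with
    | .inl y, .inl i => H y i
    | .inl y, .inr y' => if y' = y then -1 else 0
    | .inr i, .inl i' => if i'.val = i.val + 1 then -1 else 0
    | .inr i, .inr y => if i.val + 1 < m then H i y else 0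
  have r1 : ∀ (x : Fin m ⊕ Fin m → ℤ) (y : Fin m),
      ∑ p, E (.inl y) p * x p = ∑ i, H y i * x (.inl i) - x (.inr y) := by
    intro x y
    simp [E, Fintype.sum_sum_type, sub_eq_add_neg]
  have r2 : ∀ (x : Fin m ⊕ Fin m → ℤ) (i : Fin m) (hi : i.val + 1 < m),
      ∑ p, E (.inr i) p * x p = -x (.inl ⟨i.val + 1, hi⟩) + ∑ y, H i y * x (.inr y) := by
    intro x i hi
    simp only [E, Fintype.sum_sum_type, hi, if_true]
    congr 1
    rw [sum_eq_single ⟨i.val + 1, hi⟩]
    · simp
    · intro b _ hb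
      rw [if_neg, zero_mul]
      intro h
      exact hb (Fin.ext h)
    · simp
  have r3 : ∀ (x : Fin m ⊕ Fin m → ℤ) (i : Fin m) (_ : ¬ i.val + 1 < m),
      ∑ p, E (.inr i) p * x p = 0 := by
    intro x i hi
    simp only [E, Fintype.sum_sum_type, hi, if_false, zero_mul, sum_const_zero, add_zero]
    apply sum_eq_zero
    intro b _
    rw [if_neg, zero_mul]
    intro h
    have := b.2
    omega
  have hh : ∀ (u : Fin m → ℤ) (i : Fin m), ∑ y, H i y * ∑ k, H y k * u k = m * u i := by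
    intro u i
    simp only [mul_sum, ← mul_assoc]
    rw [sum_comm]
    simp only [← sum_mul, h2]
    simp
  refine transfer ?_ _ (layerB E ?_ (m ^ (m - 1))
    (Sum.elim (fun i => (m : ℤ) ^ i.val) (fun y => ∑ k, H y k * (m : ℤ) ^ k.val)) ?_ ?_ ?_)
  · simp only [Fintype.card_prod, Fintype.card_sum, Fintype.card_fin, Fintype.card_bool]
    omega
  · rintro (y | i) (i' | y')
    · exact Or.inr (h1 _ _)
    · simp only [E]
      split_ifs <;> simp
    · simp only [E]
      split_ifs <;> simp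
    · simp only [E]
      split_ifs
      · exact Or.inr (h1 _ _)
      · simp
  · rintro (y | i)
    · rw [r1]
      simp
    · by_cases hi : i.val + 1 < m
      · rw [r2 _ _ hi]
        simp only [Sum.elim_inl, Sum.elim_inr]
        rw [hh (fun k => (m : ℤ) ^ k.val)]
        ring
      · exact r3 _ _ hi
  · exact ⟨.inl ⟨0, hm⟩, by simp⟩
  · intro x hx hx0
    have hv : ∀ y, x (.inr y) = ∑ i, H y i * x (.inl i) := by
      intro y
      have := hx (.inl y)
      rw [r1] at this
      linarith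
    have hu : ∀ (k : ℕ) (hk : k < m), x (.inl ⟨k, hk⟩) = (m : ℤ) ^ k * x (.inl ⟨0, hm⟩) := by
      intro k
      induction k with
      | zero => intro hk; simp
      | succ k ih =>
        intro hk
        have := hx (.inr ⟨k, by omega⟩)
        rw [r2 _ _ hk] at this
        simp only [hv] at this
        rw [hh (fun i => x (.inl i)), ih (by omega)] at this
        rw [pow_succ]
        linarith
    have h0 : x (.inl ⟨0, hm⟩) ≠ 0 := by
      intro h
      apply hx0
      have hu0 : ∀ i, x (.inl i) = 0 := fun i => by rw [hu i.val i.2, h, mul_zero]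
      funext p
      rcases p with i | y
      · exact hu0 i
      · rw [hv]
        simp [hu0]
    refine ⟨.inl ⟨m - 1, by omega⟩, ?_⟩
    rw [hu, abs_mul, abs_pow, Nat.abs_cast]
    push_cast
    have := Int.one_le_abs h0
    have hp : (0 : ℤ) ≤ (m : ℤ) ^ (m - 1) := by positivity
    nlinarith

theorem main (n : ℕ) (hn : 120 ≤ n) :
    ∃ f : (Fin n → Bool) → Bool, Monotone f ∧ ¬ Weighted f ∧
      ∀ j, 1 ≤ j → SummableAt f j → (n / 120) ^ (n / 120 - 1) ≤ j := by
  let t := Nat.log 2 (n / 60)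
  have a1 : 2 ^ t ≤ n / 60 := Nat.pow_log_le_self 2 (by omega)
  have a2 : n / 60 < 2 ^ (t + 1) := Nat.lt_pow_succ_log_self (by norm_num) _
  have a3 : n / 120 ≤ 2 ^ t := by
    rw [pow_succ] at a2
    omega
  obtain ⟨H, h1, h2⟩ := exists_had t
  obtain ⟨f, f1, f2, f3⟩ := layerC (2 ^ t) Nat.one_le_two_pow H h1 (by simpa using h2) n (by omega)
  refine ⟨f, f1, f2, fun j hj hs => le_trans ?_ (f3 j hj hs)⟩
  calc (n / 120) ^ (n / 120 - 1) ≤ (2 ^ t) ^ (n / 120 - 1) := Nat.pow_le_pow_left a3 _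
    _ ≤ (2 ^ t) ^ (2 ^ t - 1) := Nat.pow_le_pow_right Nat.one_le_two_pow (by omega)

end Pool.Agent.H14.Trade
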