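import Pool.Agent.H14.TradeC

set_option autoImplicit false

namespace Pool.Agent.H14.Trade

open Finset Matrix

lemma lists {ι : Type} [Fintype ι] [DecidableEq ι] (T : Finset ι) (β : ι → ℕ) (j : ℕ)
    (hj : j = ∑ i ∈ T, β i) :
    ∃ g : Fin j → ι, (∀ t, g t ∈ T) ∧ ∀ φ : ι → ℤ, ∑ t, φ (g t) = ∑ i ∈ T, (β i : ℤ) * φ i := by
  let e : Fin j ≃ (Σ i : T, Fin (β i)) := Fintype.equivOfCardEq (by
    simp [hj, Finset.sum_attach])
  refine ⟨fun t => (e t).1.1, fun t => (e t).1.2, fun φ => ?_⟩
  rw [Equiv.sum_comp e (fun s => φ s.1.1), Fintype.sum_sigma]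
  simp only [sum_const, card_univ, Fintype.card_fin, nsmul_eq_mul]
  exact Finset.sum_coe_sort T (fun i => (β i : ℤ) * φ i)

def zI {n : ℕ} (f : (Fin n → Bool) → Bool) (x : Fin n → Bool) : Option (Fin n) → ℤ
  | none => if f x then 1 else -1
  | some i => (if f x then 1 else -1) * (if x i then 1 else 0)

lemma zI_abs {n : ℕ} (f : (Fin n → Bool) → Bool) (x : Fin n → Bool) (o : Option (Fin n)) :
    |zI f x o| ≤ 1 := by
  cases o <;> simp only [zI] <;> split_ifs <;> simp

lemma mem_hull {n : ℕ} (f : (Fin n → Bool) → Bool) (hf : ¬ Weighted f) :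
    (0 : Option (Fin n) → ℝ) ∈ convexHull ℝ (Set.range (fun x o => (zI f x o : ℝ))) := by
  by_contra h
  obtain ⟨g, u, h0, hg⟩ := geometric_hahn_banach_point_closed (convex_convexHull ℝ _)
    ((Set.finite_range _).isCompact_convexHull ℝ).isClosed h
  apply hf
  refine ⟨fun i => g (Pi.single (some i) 1), -g (Pi.single none 1), fun x => ?_⟩
  have h1 := hg _ (subset_convexHull ℝ _ (Set.mem_range_self x))
  have h2 : (fun o => (zI f x o : ℝ)) =
      ∑ o, (zI f x o : ℝ) • (Pi.single o 1 : Option (Fin n) → ℝ) := by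
    funext o
    simp [Finset.sum_apply, Pi.single_apply]
  rw [h2, map_sum, Fintype.sum_option] at h1
  simp only [map_smul, smul_eq_mul, zI, map_zero] at h1 h0
  cases hx : f x
  · simp only [hx, Bool.false_eq_true, if_false, false_iff, not_le] at h1 ⊢
    push_cast at h1
    simp only [neg_mul, one_mul, sum_neg_distrib] at h1
    simp only [mul_comm (g _)]
    linarith
  · simp only [hx, if_true, true_iff] at h1 ⊢
    push_cast at h1
    simp only [one_mul] at h1
    simp only [mul_comm (g _)]
    linarith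

theorem upper {n : ℕ} (f : (Fin n → Bool) → Bool) (hf : ¬ Weighted f) :
    ∃ j, 1 ≤ j ∧ j ≤ (n + 2) ^ (2 * n + 4) ∧ SummableAt f j := by
  classical
  obtain ⟨ι, _, z, a, hz, hind, hpos, hsum, hcomb⟩ :=
    eq_pos_convex_span_of_mem_convexHull (mem_hull f hf)
  have hx : ∀ i, ∃ x, z i = fun o => (zI f x o : ℝ) := fun i => by
    obtain ⟨x, hx⟩ := hz (Set.mem_range_self i)
    exact ⟨x, hx.symm⟩
  choose x hx using hx
  let A : Matrix (Option (Option (Fin n))) ι ℤ := fun r i =>
    match r with
    | none => 1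
    | some o => zI f (x i) o
  let c : ℤ →+* ℝ := Int.castRingHom ℝ
  have hinj : ∀ v : ι → ℝ, A.map c *ᵥ v = 0 → v = 0 := by
    intro v hv
    funext i
    apply affineIndependent_iff.mp hind univ v ?_ ?_ i (mem_univ i)
    · simpa [mulVec, dotProduct, A] using congrFun hv none
    · funext o
      have := congrFun hv (some o)
      simpa [mulVec, dotProduct, A, hx, Finset.sum_apply, mul_comm, c] using this
  have hAa : A.map c *ᵥ a = Pi.single none 1 := by
    funext r
    cases r with
    | none => simpa [mulVec, dotProduct, A] using hsum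
    | some o =>
      have := congrFun hcomb o
      simpa [mulVec, dotProduct, A, hx, Finset.sum_apply, mul_comm, c] using this
  let G : Matrix ι ι ℤ := Aᵀ * A
  have hG : G.map c = (A.map c)ᵀ * A.map c := by
    simp only [G, Matrix.map_mul, transpose_map]
  have hGinj : ∀ v : ι → ℝ, G.map c *ᵥ v = 0 → v = 0 := by
    intro v hv
    apply hinj
    rw [← dotProduct_self_eq_zero, dotProduct_mulVec, ← mulVec_transpose, mulVec_mulVec, ← hG,
      hv, zero_dotProduct]
  have hdet : G.det ≠ 0 := by
    intro h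
    have : (G.map c).det = 0 := by
      rw [← RingHom.mapMatrix_apply, ← RingHom.map_det, h, map_zero]
    obtain ⟨v, hv, hv'⟩ := exists_mulVec_eq_zero_iff.mpr this
    exact hv (hGinj v hv')
  have hGa : G.map c *ᵥ a = fun _ => 1 := by
    rw [hG, ← mulVec_mulVec, hAa]
    funext i
    simp [mulVec, dotProduct, A, Pi.single_apply]
  let b : ι → ℤ := cramer G (fun _ => 1)
  have hb : ∀ i, (b i : ℝ) = G.det * a i := by
    have h1 : G *ᵥ b = G.det • fun _ => 1 := mulVec_cramer G _
    have h2 : G.map c *ᵥ ((fun i => (b i : ℝ)) - (G.det : ℝ) • a) = 0 := by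
      rw [mulVec_sub, mulVec_smul, hGa]
      funext i
      have := congrArg (fun z : ℤ => (z : ℝ)) (congrFun h1 i)
      simp only [mulVec, dotProduct, Int.cast_sum, Int.cast_mul, Pi.smul_apply, smul_eq_mul,
        mul_one] at this
      simp [mulVec, dotProduct, c, this]
    intro i
    have := congrFun (hGinj _ h2) i
    simp only [Pi.sub_apply, Pi.smul_apply, smul_eq_mul, Pi.zero_apply] at this
    linarith
  let β : ι → ℕ := fun i => (b i).natAbs
  have hβ : ∀ i, (β i : ℝ) = |(G.det : ℝ)| * a i := by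
    intro i
    simp only [β, Nat.cast_natAbs, Int.cast_abs, hb, abs_mul, abs_of_pos (hpos i)]
  have hcard : Fintype.card ι ≤ n + 2 := by
    have := LinearMap.finrank_le_finrank_of_injective (f := mulVecLin (A.map c))
      (by
        rw [← LinearMap.ker_eq_bot, LinearMap.ker_eq_bot']
        exact hinj)
    simpa using this
  have hD : |G.det| ≤ ((n + 2) ^ (2 * n + 4) : ℕ) := by
    have h1 := Matrix.det_le (A := G) (abv := AbsoluteValue.abs) (x := ((n + 2 : ℕ) : ℤ)) (by
      intro i k
      simp only [G, Matrix.mul_apply, transpose_apply, AbsoluteValue.abs_apply]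
      refine (abs_sum_le_sum_abs _ _).trans ?_
      calc ∑ r, |A r i * A r k| ≤ ∑ _r : Option (Option (Fin n)), (1 : ℤ) := by
            apply sum_le_sum
            intro r _
            rw [abs_mul]
            cases r with
            | none => simp [A]
            | some o => exact mul_le_one₀ (zI_abs _ _ _) (abs_nonneg _) (zI_abs _ _ _)
        _ = _ := by simp; ring)
    simp only [AbsoluteValue.abs_apply, nsmul_eq_mul] at h1
    refine h1.trans ?_
    have h2 : (Fintype.card ι).factorial * (n + 2) ^ Fintype.card ι ≤ (n + 2) ^ (2 * n + 4) := by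
      calc (Fintype.card ι).factorial * (n + 2) ^ Fintype.card ι
          ≤ (n + 2) ^ (n + 2) * (n + 2) ^ (n + 2) := by
            apply Nat.mul_le_mul
            · exact (Nat.factorial_le hcard).trans (Nat.factorial_le_pow _)
            · exact Nat.pow_le_pow_right (by omega) hcard
        _ = (n + 2) ^ (2 * n + 4) := by rw [← pow_add]; congr 1; omega
    exact_mod_cast h2
  have hzero : ∀ o, ∑ i, (β i : ℤ) * zI f (x i) o = 0 := by
    intro o
    have := congrFun hcomb o
    simp only [Finset.sum_apply, Pi.smul_apply, smul_eq_mul, hx, Pi.zero_apply] at this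
    have h2 : ∑ i, (β i : ℝ) * (zI f (x i) o : ℝ) = 0 := by
      simp only [hβ, mul_assoc, ← mul_sum, this, mul_zero]
    exact_mod_cast h2
  have htot : (∑ i, β i : ℤ) = |G.det| := by
    have h2 : ∑ i, (β i : ℝ) = |(G.det : ℝ)| := by
      simp only [hβ, ← mul_sum, hsum, mul_one]
    exact_mod_cast h2
  let T : Finset ι := univ.filter (fun i => f (x i) = true)
  let F : Finset ι := univ.filter (fun i => ¬ f (x i) = true)
  have split : ∀ φ : ι → ℤ, ∑ i, (β i : ℤ) * ((if f (x i) then 1 else -1) * φ i) =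
      ∑ i ∈ T, (β i : ℤ) * φ i - ∑ i ∈ F, (β i : ℤ) * φ i := by
    intro φ
    rw [← sum_filter_add_sum_filter_not univ (fun i => f (x i) = true), sub_eq_add_neg,
      ← sum_neg_distrib]
    congr 1
    · apply sum_congr rfl
      intro i hi
      simp [(mem_filter.mp hi).2]
    · apply sum_congr rfl
      intro i hi
      simp [(mem_filter.mp hi).2]
  have hTF : ∑ i ∈ T, β i = ∑ i ∈ F, β i := by
    have h1 := split (fun _ => 1)
    have h2 := hzero none
    simp only [zI, mul_one] at h1 h2
    rw [h2] at h1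
    have : (∑ i ∈ T, β i : ℤ) = ∑ i ∈ F, (β i : ℤ) := by linarith
    exact_mod_cast this
  have hsplit : ∑ i ∈ T, β i + ∑ i ∈ F, β i = ∑ i, β i :=
    sum_filter_add_sum_filter_not univ (fun i => f (x i) = true) β
  have h1D : 1 ≤ |G.det| := Int.one_le_abs hdet
  have htot' : ((∑ i, β i : ℕ) : ℤ) = |G.det| := by exact_mod_cast htot
  obtain ⟨g, hg, hg'⟩ := lists T β _ rfl
  obtain ⟨g', hh, hh'⟩ := lists F β _ hTF
  refine ⟨∑ i ∈ T, β i, by omega, by omega, fun t => x (g t), fun t => x (g' t),
    fun t => (mem_filter.mp (hg t)).2, fun t => by simpa using (mem_filter.mp (hh t)).2,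
    fun k => ?_⟩
  rw [hg' (fun i => if x i k then 1 else 0), hh' (fun i => if x i k then 1 else 0)]
  have h1 := split (fun i => if x i k then 1 else 0)
  have h2 := hzero (some k)
  simp only [zI] at h2
  rw [h2] at h1
  linarith

end Pool.Agent.H14.Trade
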