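import Mathlib

set_option autoImplicit false

namespace Pool.Agent.H14.TropDefs

/-- The exponent vector as a real vector. -/
def ex {n : ℕ} (a : Fin n → ℕ) : Fin n → ℝ := fun i => (a i : ℝ)

/-- The function `x ↦ max_{a ∈ A} (c_a + a · x)`. -/
noncomputable def tp {n : ℕ} (A : Finset (Fin n → ℕ)) (hA : A.Nonempty) (c : (Fin n → ℕ) → ℝ)
    (x : Fin n → ℝ) : ℝ :=
  A.sup' hA fun a => c a + ex a ⬝ᵥ x

/-- `f` is a unit: `f = max_{a ∈ A} (c_a + a · x)` where one lower face of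
`conv {(a, -c_a)}`, cut out by the affine function `a ↦ t · a + s`, projects onto the whole Newton
polytope `conv A`, i.e. the regular subdivision is trivial. -/
def IsTropUnit {n : ℕ} (f : (Fin n → ℝ) → ℝ) : Prop :=
  ∃ (A : Finset (Fin n → ℕ)) (hA : A.Nonempty) (c : (Fin n → ℕ) → ℝ), f = tp A hA c ∧
    ∃ (t : Fin n → ℝ) (s : ℝ), (∀ a ∈ A, t ⬝ᵥ ex a + s ≤ -c a) ∧
      convexHull ℝ (ex '' {a | a ∈ A ∧ t ⬝ᵥ ex a + s = -c a}) = convexHull ℝ (ex '' (A : Set _))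

/-- `f ⊙ g = h` with `g`, `h` finite tropical products (pointwise sums) of units. -/
def RatFact {n : ℕ} (f : (Fin n → ℝ) → ℝ) : Prop :=
  ∃ g h : List ((Fin n → ℝ) → ℝ), (∀ u ∈ g, IsTropUnit u) ∧ (∀ u ∈ h, IsTropUnit u) ∧
    f + g.sum = h.sum

end Pool.Agent.H14.TropDefs
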