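import Mathlib

set_option autoImplicit false

namespace Pool.Agent.H14.UltraExp

/-- `E₁(p, q)` as a family of subsets of the positive integers. -/
def E1 (p q : Ultrafilter ℕ+) : Set (Set ℕ+) :=
  {A | {n : ℕ+ | {m : ℕ+ | n ^ (m : ℕ) ∈ A} ∈ q} ∈ p}

/-- `E₂(p, q)` as a family of subsets of the positive integers. -/
def E2 (p q : Ultrafilter ℕ+) : Set (Set ℕ+) :=
  {A | {n : ℕ+ | {m : ℕ+ | m ^ (n : ℕ) ∈ A} ∈ q} ∈ p}

theorem ex_colour (k : ℕ) (N : ℕ → Finset ℕ) (hN : ∀ y, (N y).card ≤ k) :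
    ∃ χ : ℕ → Fin (k + 1), ∀ y, ∀ x ∈ N y, x < y → χ x ≠ χ y := by
  have step : ∀ (y : ℕ) (f : ∀ x, x < y → Fin (k + 1)), ∃ c : Fin (k + 1),
      ∀ x ∈ N y, ∀ h : x < y, f x h ≠ c := by
    intro y f
    by_contra hc
    push Not at hc
    have h1 : (Finset.univ : Finset (Fin (k + 1))) ⊆
        (N y).image fun x => if h : x < y then f x h else 0 := by
      intro c _
      obtain ⟨x, hx, h, e⟩ := hc c
      exact Finset.mem_image.2 ⟨x, hx, by rw [dif_pos h, e]⟩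
    have h2 := (Finset.card_le_card h1).trans Finset.card_image_le
    have := hN y
    simp at h2
    omega
  choose g hg using step
  refine ⟨WellFounded.fix wellFounded_lt g, fun y x hx h => ?_⟩
  rw [WellFounded.fix_eq wellFounded_lt g y]
  exact hg y (fun x _ => WellFounded.fix wellFounded_lt g x) x hx h

theorem log_le_of {a b : ℕ} (h : a < 2 ^ (b + 1)) : Nat.log 2 a ≤ b :=
  Nat.lt_succ_iff.1 (by
    rcases Nat.eq_zero_or_pos a with rfl | h0
    · simp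
    · exact Nat.log_lt_of_lt_pow h0.ne' h)

theorem log_sq {a b : ℕ} (h : a ≤ b * b) : Nat.log 2 a ≤ 2 * Nat.log 2 b + 1 := by
  apply log_le_of
  have := Nat.lt_pow_succ_log_self (b := 2) (by norm_num) b
  calc a ≤ b * b := h
    _ < 2 ^ (Nat.log 2 b + 1) * 2 ^ (Nat.log 2 b + 1) := Nat.mul_lt_mul'' this this
    _ = _ := by ring

theorem log_lin (a b c : ℕ) (h : a + 1 ≤ 2 ^ c * (b + 1)) : Nat.log 2 a ≤ Nat.log 2 b + c := by
  apply log_le_of
  have := Nat.lt_pow_succ_log_self (b := 2) (by norm_num) b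
  calc a < 2 ^ c * (b + 1) := h
    _ ≤ 2 ^ c * 2 ^ (Nat.log 2 b + 1) := Nat.mul_le_mul_left _ this
    _ = _ := by ring

theorem log_pow_le (n m : ℕ) : Nat.log 2 (n ^ m) ≤ (Nat.log 2 n + 1) * m := by
  apply log_le_of
  have := Nat.lt_pow_succ_log_self (b := 2) (by norm_num) n
  calc n ^ m ≤ (2 ^ (Nat.log 2 n + 1)) ^ m := Nat.pow_le_pow_left this.le _
    _ = 2 ^ ((Nat.log 2 n + 1) * m) := by rw [← pow_mul]
    _ < _ := Nat.pow_lt_pow_right (by norm_num) (Nat.lt_succ_self _)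

theorem large (q : Ultrafilter ℕ+) (hq : ∀ a, q ≠ pure a) (K : ℕ) : {m : ℕ+ | K ≤ m} ∈ q := by
  rcases q.le_cofinite_or_eq_pure with h | ⟨a, h⟩
  · apply h
    rw [Filter.mem_cofinite]
    refine Set.Finite.subset ((Set.finite_lt_nat K).preimage PNat.coe_injective.injOn) ?_
    intro m hm
    simpa using hm
  · exact absurd h (hq a)

theorem main (p q : Ultrafilter ℕ+) (hp : ∀ a, p ≠ pure a) (hq : ∀ a, q ≠ pure a) :
    E1 p q ≠ E2 p q := by
  intro he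
  obtain ⟨χ, hχ⟩ := ex_colour 4 (fun y => Finset.Icc (Nat.log 2 y - 1) (Nat.log 2 y + 2))
    (fun y => by simp; omega)
  obtain ⟨c, hc⟩ := Ultrafilter.eq_pure_of_finite ((p.bind fun n : ℕ+ => q.map fun m : ℕ+ => n ^ (m : ℕ)).map
    fun x : ℕ+ => χ (Nat.log 2 (Nat.log 2 (Nat.log 2 x))))
  have h1 : {x : ℕ+ | χ (Nat.log 2 (Nat.log 2 (Nat.log 2 x))) = c} ∈ E1 p q := by
    have : ({c} : Set (Fin 5)) ∈ (pure c : Ultrafilter (Fin 5)) := rfl
    rw [← hc] at this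
    exact Filter.mem_bind'.1 this
  have h2 := he ▸ h1
  obtain ⟨n, ⟨a1, a2⟩, a3⟩ := Ultrafilter.nonempty_of_mem
    (Filter.inter_mem (Filter.inter_mem h1 h2) (large p hp 2))
  obtain ⟨m, ⟨b1, b2⟩, b3⟩ := Ultrafilter.nonempty_of_mem
    (Filter.inter_mem (Filter.inter_mem a1 a2) (large q hq (2 ^ ((n : ℕ) + 2 ^ 8))))
  simp only [Set.mem_ofPred_eq, PNat.pow_coe] at a3 b1 b2 b3
  have hn0 := n.pos
  clear a1 a2 h1 h2 hc he
  generalize (n : ℕ) = n at *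
  generalize (m : ℕ) = m at *
  have c0 : n + 2 ^ 8 ≤ Nat.log 2 m := Nat.le_log_of_pow_le (by norm_num) b3
  have c1 : Nat.log 2 m ≤ m := Nat.log_le_self _ _
  have c2 : Nat.log 2 n ≤ n := Nat.log_le_self _ _
  have c3 : 8 ≤ Nat.log 2 (Nat.log 2 m) := Nat.le_log_of_pow_le (by norm_num) (by omega)
  have d1 : m ≤ Nat.log 2 (n ^ m) := Nat.le_log_of_pow_le (by norm_num) (Nat.pow_le_pow_left a3 _)
  have d2 : Nat.log 2 (n ^ m) ≤ m * m :=
    (log_pow_le n m).trans (Nat.mul_le_mul_right _ (by omega))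
  have d3 := Nat.log_mono_right (b := 2) (Nat.log_mono_right (b := 2) d1)
  have d4 := log_lin _ (Nat.log 2 m) 1 (by have := log_sq d2; omega :
    Nat.log 2 (Nat.log 2 (n ^ m)) + 1 ≤ 2 ^ 1 * (Nat.log 2 m + 1))
  have e1 : m ≤ m ^ n := Nat.le_self_pow (by omega) _
  have e2 : Nat.log 2 (m ^ n) ≤ (Nat.log 2 m + 1) * (Nat.log 2 m + 1) :=
    (log_pow_le m n).trans (Nat.mul_le_mul_left _ (by omega))
  have e3 := Nat.log_mono_right (b := 2) (Nat.log_mono_right (b := 2)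
    (Nat.log_mono_right (b := 2) e1))
  have e4 := log_lin (Nat.log 2 m + 1) (Nat.log 2 m) 1 (by omega)
  have e5 := log_lin _ (Nat.log 2 (Nat.log 2 m)) 2 (by have := log_sq e2; omega :
    Nat.log 2 (Nat.log 2 (m ^ n)) + 1 ≤ 2 ^ 2 * (Nat.log 2 (Nat.log 2 m) + 1))
  generalize Nat.log 2 (Nat.log 2 m) = w at *
  generalize Nat.log 2 (Nat.log 2 (Nat.log 2 (n ^ m))) = y at *
  generalize Nat.log 2 (Nat.log 2 (Nat.log 2 (m ^ n))) = x at *
  have f1 := Nat.log_mono_right (b := 2) d3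
  have f2 := log_lin y w 1 (by omega)
  have f3 : Nat.log 2 w ≤ w - 3 := log_le_of (by
    obtain ⟨t, rfl⟩ : ∃ t, w = t + 8 := ⟨w - 8, by omega⟩
    have := Nat.lt_two_pow_self (n := t)
    rw [show t + 8 - 3 + 1 = t + 6 by omega, pow_add]
    omega)
  exact hχ y x (Finset.mem_Icc.2 ⟨by omega, by omega⟩) (by omega) (b2.trans b1.symm)

end Pool.Agent.H14.UltraExp
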