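import Mathlib

set_option autoImplicit false

namespace Pool.Agent.H14.ValDelta

open Finset Matrix
open scoped symmDiff

/-- `{S, T}` spans an edge of the regular subdivision induced by `p`: for some linear functional
`w`, the function `U ↦ p U + w · e_U` has a finite minimum attained exactly at `S` and `T`. -/
def IsEdge {n : ℕ} (p : Finset (Fin n) → WithTop ℝ) (S T : Finset (Fin n)) : Prop :=
  S ≠ T ∧ p S ≠ ⊤ ∧ ∃ w : Fin n → ℝ,
    p S + ((∑ i ∈ S, w i : ℝ) : WithTop ℝ) = p T + ((∑ i ∈ T, w i : ℝ) : WithTop ℝ) ∧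
    ∀ U, U ≠ S → U ≠ T →
      p S + ((∑ i ∈ S, w i : ℝ) : WithTop ℝ) < p U + ((∑ i ∈ U, w i : ℝ) : WithTop ℝ)

/-- the zero-one vector of a subset -/
def ind {n : ℕ} (S : Finset (Fin n)) : Fin n → ℝ := fun i => if i ∈ S then 1 else 0

/-- valuated Delta-matroid: every edge has direction `± e_i` or `± e_i ± e_j`. -/
def IsValDelta {n : ℕ} (p : Finset (Fin n) → WithTop ℝ) : Prop :=
  ∀ S T, IsEdge p S T →
    (∃ (i : Fin n) (a : ℝ), (a = 1 ∨ a = -1) ∧ ind S - ind T = a • Pi.single i 1) ∨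
    (∃ (i j : Fin n) (a b : ℝ), i ≠ j ∧ (a = 1 ∨ a = -1) ∧ (b = 1 ∨ b = -1) ∧
      ind S - ind T = a • Pi.single i 1 + b • Pi.single j 1)

/-- the principal minor on the rows and columns in `S` -/
def pminor {n : ℕ} {K : Type*} [CommRing K] (A : Matrix (Fin n) (Fin n) K) (S : Finset (Fin n)) :
    K :=
  (A.submatrix (Subtype.val : S → Fin n) (Subtype.val : S → Fin n)).det

end Pool.Agent.H14.ValDelta
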