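import Mathlib
import Pool.Agent.H14.ValDelta

set_option autoImplicit false

namespace Pool.Agent.H14.ValDelta

open Finset Matrix
open scoped symmDiff

variable {K : Type*} [Field K] {n : ℕ}

theorem lt_add' {a b : ℝ} {x y : WithTop ℝ} (h1 : (a : WithTop ℝ) < x) (h2 : (b : WithTop ℝ) < y) :
    ((a + b : ℝ) : WithTop ℝ) < x + y := by
  induction x using WithTop.recTopCoe with
  | top => simp
  | coe x =>
    induction y using WithTop.recTopCoe with
    | top => simp
    | coe y =>
      rw [← WithTop.coe_add]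
      exact WithTop.coe_lt_coe.2 (add_lt_add (WithTop.coe_lt_coe.1 h1) (WithTop.coe_lt_coe.1 h2))

theorem half_lt {a : ℝ} {x : WithTop ℝ} (h : ((a + a : ℝ) : WithTop ℝ) < x + x) :
    (a : WithTop ℝ) < x := by
  induction x using WithTop.recTopCoe with
  | top => simp
  | coe x =>
    rw [← WithTop.coe_add, WithTop.coe_lt_coe] at h
    exact WithTop.coe_lt_coe.2 (by linarith)

theorem prod_lt (v : AddValuation K (WithTop ℝ)) {I : Type*} (s : Finset I) (hs : s.Nonempty)
    (f : I → K) (r : I → ℝ) (h : ∀ i ∈ s, (r i : WithTop ℝ) < v (f i)) :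
    ((∑ i ∈ s, r i : ℝ) : WithTop ℝ) < v (∏ i ∈ s, f i) := by
  classical
  induction hs using Finset.Nonempty.cons_induction with
  | singleton a => simpa using h a (by simp)
  | cons a s ha hs ih =>
    rw [Finset.sum_cons, Finset.prod_cons, v.map_mul]
    exact lt_add' (h a (by simp)) (ih (fun i hi => h i (by simp [hi])))

theorem v_sign (v : AddValuation K (WithTop ℝ)) {e : K} (he : e = 1 ∨ e = -1) (x : K) :
    v (e * x) = v x := by
  rcases he with rfl | rfl
  · rw [one_mul]
  · rw [neg_one_mul, v.map_neg]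

theorem pminor_single (P : Matrix (Fin n) (Fin n) K) (i : Fin n) : pminor P {i} = P i i := by
  unfold pminor
  rw [Matrix.det_eq_elem_of_card_eq_one (by simp) ⟨i, by simp⟩]
  rfl

theorem pminor_pair (P : Matrix (Fin n) (Fin n) K) (i j : Fin n) (h : i ≠ j) :
    pminor P {i, j} = P i i * P j j - P i j * P j i := by
  unfold pminor
  let e : Fin 2 ≃ ({i, j} : Finset (Fin n)) :=
    { toFun := ![⟨i, by simp⟩, ⟨j, by simp⟩]
      invFun := fun x => if x.1 = i then 0 else 1
      left_inv := by
        intro x; fin_cases x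
        · simp
        · simp [h.symm]
      right_inv := by
        rintro ⟨x, hx⟩
        rcases Finset.mem_insert.1 hx with rfl | hx
        · simp
        · rw [Finset.mem_singleton] at hx
          subst hx
          simp [h.symm] }
  rw [← Matrix.det_submatrix_equiv_self e, Matrix.det_fin_two]
  rfl

theorem core [StarRing K] (v : AddValuation K (WithTop ℝ)) (hv : ∀ a, v (star a) = v a)
    (P : Matrix (Fin n) (Fin n) K) (s : K) (hs : s = 1 ∨ s = -1) (e : Fin n → K)
    (he : ∀ i, e i = 1 ∨ e i = -1) (a b : Fin n → K)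
    (hP : ∀ i j, e j * star (P j i) - s * (e i * P i j) = a i * b j)
    (w : Fin n → ℝ) (h1 : ∀ i, ((-w i : ℝ) : WithTop ℝ) < v (pminor P {i}))
    (h2 : ∀ i j, i ≠ j → ((-w i + -w j : ℝ) : WithTop ℝ) < v (pminor P {i, j}))
    (D : Finset (Fin n)) (hD : D.Nonempty) :
    ((∑ i ∈ D, -w i : ℝ) : WithTop ℝ) < v (pminor P D) := by
  simp only [pminor_single] at h1
  have hstar : ∀ x : K, (x = 1 ∨ x = -1) → star x = x := by
    rintro x (rfl | rfl) <;> simp
  have hss : s * s = 1 := by rcases hs with rfl | rfl <;> simp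
  have r1 : ∀ i, ((-w i : ℝ) : WithTop ℝ) < v (a i * b i) := by
    intro i
    rw [← hP, sub_eq_add_neg]
    apply v.map_lt_add
    · rw [v_sign v (he i), hv]; exact h1 i
    · rw [v.map_neg, v_sign v hs, v_sign v (he i)]; exact h1 i
  have r2 : ∀ i j, v (a j * b i) = v (a i * b j) := by
    intro i j
    have : star (a i * b j) = -(s * (a j * b i)) := by
      rw [← hP, ← hP]
      simp only [star_sub, star_mul', star_star, hstar _ (he i), hstar _ (he j), hstar _ hs]
      linear_combination (-(e j * P j i)) * hss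
    rw [← hv (a i * b j), this, v.map_neg, v_sign v hs]
  have r3 : ∀ i j, (((-w i + -w j) / 2 : ℝ) : WithTop ℝ) < v (a i * b j) := by
    intro i j
    apply half_lt
    have := lt_add' (r1 i) (r1 j)
    rw [← v.map_mul, show a i * b i * (a j * b j) = (a i * b j) * (a j * b i) by ring,
      v.map_mul, r2 i j] at this
    rwa [add_halves]
  have ent : ∀ i j, (((-w i + -w j) / 2 : ℝ) : WithTop ℝ) < v (P i j) := by
    intro i j
    by_cases hij : i = j
    · subst hij
      rw [add_self_div_two]; exact h1 i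
    by_contra hc
    push Not at hc
    have e1 : v (P j i) = v (P i j) := by
      have : e j * star (P j i) = s * (e i * P i j) + a i * b j := by
        rw [← hP]; ring
      rw [← hv (P j i), ← v_sign v (he j), this, v.map_add_eq_of_lt_left, v_sign v hs,
        v_sign v (he i)]
      rw [v_sign v hs, v_sign v (he i)]
      exact lt_of_le_of_lt hc (r3 i j)
    have e2 : ((-w i + -w j : ℝ) : WithTop ℝ) < v (P i j * P j i) := by
      have : P i j * P j i = P i i * P j j + -(pminor P {i, j}) := by
        rw [pminor_pair P i j hij]; ring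
      rw [this]
      apply v.map_lt_add
      · rw [v.map_mul]; exact lt_add' (h1 i) (h1 j)
      · rw [v.map_neg]; exact h2 i j hij
    rw [v.map_mul, e1, ← add_halves (-w i + -w j)] at e2
    exact absurd (half_lt e2) (not_lt.2 hc)
  unfold pminor
  rw [Matrix.det_apply']
  apply v.map_lt_sum (by simp)
  intro π _
  rw [v_sign v (by
    rcases Int.units_eq_one_or (Equiv.Perm.sign π) with h | h <;> simp [h])]
  have hne : (univ : Finset D).Nonempty := by
    obtain ⟨x, hx⟩ := hD
    exact ⟨⟨x, hx⟩, Finset.mem_univ _⟩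
  have := prod_lt v univ hne (fun i : D => P (π i) i) (fun i => (-w (π i) + -w i) / 2)
    (fun i _ => ent _ _)
  have e3 : ∑ i : D, (-w (π i) + -w i) / 2 = ∑ i ∈ D, -w i := by
    rw [← Finset.sum_div, Finset.sum_add_distrib,
      Equiv.sum_comp π (fun i : D => -w i), Finset.sum_coe_sort D (fun i => -w i)]
    ring
  rw [e3] at this
  exact this

theorem ppt [StarRing K] (A : Matrix (Fin n) (Fin n) K) (s : K) (hs : s = 1 ∨ s = -1)
    (a b : Fin n → K) (hA : Aᴴ - s • A = vecMulVec a b) (S : Finset (Fin n))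
    (hS : pminor A S ≠ 0) :
    ∃ (P : Matrix (Fin n) (Fin n) K) (e a' b' : Fin n → K), (∀ i, e i = 1 ∨ e i = -1) ∧
      (∀ i j, e j * star (P j i) - s * (e i * P i j) = a' i * b' j) ∧
      ∀ U, pminor P U * pminor A S = pminor A (S ∆ U) := by
  classical
  have hss : s * s = 1 := by rcases hs with rfl | rfl <;> simp
  let M : Matrix (Fin n) (Fin n) K := Matrix.of (S.piecewise A.row (1 : Matrix _ _ K).row)
  let N : Matrix (Fin n) (Fin n) K := Matrix.of (S.piecewise (1 : Matrix _ _ K).row A.row)
  have hM : M.det = pminor A S := Matrix.det_piecewise_one_eq_submatrix_det A S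
  have hMu : IsUnit M.det := by rw [hM]; exact isUnit_iff_ne_zero.2 hS
  let e : Fin n → K := fun i => if i ∈ S then -s else 1
  let P := N * M⁻¹
  have hPM : P * M = N := Matrix.nonsing_inv_mul_cancel_right M N hMu
  have key : Nᴴ * diagonal e * M - s • (Mᴴ * diagonal e * N) = vecMulVec a b := by
    rw [← hA]
    conv_rhs => rw [← Matrix.mul_one Aᴴ]
    have : s • A = s • ((1 : Matrix (Fin n) (Fin n) K)ᴴ * A) := by simp
    rw [this]
    ext i j
    simp only [Matrix.sub_apply, Matrix.smul_apply, smul_eq_mul]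
    rw [Matrix.mul_apply, Matrix.mul_apply, Matrix.mul_apply, Matrix.mul_apply]
    simp only [Matrix.mul_diagonal, Matrix.conjTranspose_apply, Finset.mul_sum,
      ← Finset.sum_sub_distrib]
    refine Finset.sum_congr rfl (fun k _ => ?_)
    by_cases hk : k ∈ S
    · simp only [M, N, e, Matrix.of_apply, Finset.piecewise_eq_of_mem _ _ _ hk, if_pos hk,
        Matrix.row_apply]
      linear_combination (star (A k i) * (1 : Matrix (Fin n) (Fin n) K) k j) * hss
    · simp only [M, N, e, Matrix.of_apply, Finset.piecewise_eq_of_notMem _ _ _ hk, if_neg hk,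
        Matrix.row_apply]
      ring
  have key2 : Pᴴ * diagonal e - s • (diagonal e * P) =
      vecMulVec ((M⁻¹)ᴴ *ᵥ a) (b ᵥ* M⁻¹) := by
    have h1 : M * M⁻¹ = 1 := Matrix.mul_nonsing_inv M hMu
    have h2 : (M⁻¹)ᴴ * Mᴴ = 1 := by rw [← Matrix.conjTranspose_mul, h1]; simp
    rw [← Matrix.vecMulVec_mul, ← Matrix.mul_vecMulVec, ← key, ← hPM]
    simp only [Matrix.mul_sub, Matrix.sub_mul, Matrix.mul_smul, Matrix.smul_mul,
      Matrix.conjTranspose_mul, Matrix.mul_assoc, h1, Matrix.mul_one]
    simp only [← Matrix.mul_assoc, h2, Matrix.one_mul]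
  refine ⟨P, e, (M⁻¹)ᴴ *ᵥ a, b ᵥ* M⁻¹, ?_, ?_, ?_⟩
  · intro i
    simp only [e]
    split_ifs
    · rcases hs with rfl | rfl <;> simp
    · simp
  · intro i j
    have := congrFun (congrFun key2 i) j
    simp only [Matrix.sub_apply, Matrix.smul_apply, smul_eq_mul, Matrix.mul_diagonal,
      Matrix.diagonal_mul, Matrix.conjTranspose_apply, vecMulVec_apply] at this
    rw [← this]; ring
  · intro U
    unfold pminor
    rw [← Matrix.det_piecewise_one_eq_submatrix_det, ← Matrix.det_piecewise_one_eq_submatrix_det,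
      ← Matrix.det_piecewise_one_eq_submatrix_det, ← Matrix.det_mul]
    congr 1
    ext i j
    by_cases hU : i ∈ U
    · have : (Matrix.of (U.piecewise P.row (1 : Matrix _ _ K).row) * M) i j = (P * M) i j := by
        simp only [Matrix.mul_apply, Matrix.of_apply, Finset.piecewise_eq_of_mem _ _ _ hU,
          Matrix.row_apply]
      refine this.trans ?_
      rw [hPM]
      by_cases hi : i ∈ S <;> simp [N, Finset.piecewise, Finset.mem_symmDiff, hi, hU]
    · have : (Matrix.of (U.piecewise P.row (1 : Matrix _ _ K).row) * M) i j =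
          ((1 : Matrix (Fin n) (Fin n) K) * M) i j := by
        simp only [Matrix.mul_apply, Matrix.of_apply, Finset.piecewise_eq_of_notMem _ _ _ hU,
          Matrix.row_apply]
      refine this.trans ?_
      rw [Matrix.one_mul]
      by_cases hi : i ∈ S <;> simp [M, Finset.piecewise, Finset.mem_symmDiff, hi, hU]

theorem sum_symmDiff (w : Fin n → ℝ) (S U : Finset (Fin n)) :
    ∑ i ∈ S ∆ U, w i = ∑ i ∈ S, w i + ∑ i ∈ U, (if i ∈ S then -w i else w i) := by
  have h : ∀ (T : Finset (Fin n)) (f : Fin n → ℝ),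
      ∑ i ∈ T, f i = ∑ i, if i ∈ T then f i else 0 := by
    intro T f; simp
  rw [h (S ∆ U), h S, h U, ← Finset.sum_add_distrib]
  refine Finset.sum_congr rfl (fun i _ => ?_)
  by_cases h1 : i ∈ S <;> by_cases h2 : i ∈ U <;> simp [Finset.mem_symmDiff, h1, h2]

theorem card_le_two [StarRing K] (v : AddValuation K (WithTop ℝ)) (hv : ∀ a, v (star a) = v a)
    (A : Matrix (Fin n) (Fin n) K) (s : K) (hs : s = 1 ∨ s = -1)
    (a b : Fin n → K) (hA : Aᴴ - s • A = vecMulVec a b) (S T : Finset (Fin n))
    (h : IsEdge (fun U => v (pminor A U)) S T) : (S ∆ T).card ≤ 2 := by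
  obtain ⟨hST, hS, w, hw1, hw2⟩ := h
  by_contra hc
  push Not at hc
  obtain ⟨P, e, a', b', he, hP, hU⟩ := ppt A s hs a b hA S (v.ne_top_iff.1 hS)
  obtain ⟨c, hcv⟩ := WithTop.ne_top_iff_exists.1 hS
  simp only [] at hcv hw1 hw2
  let w' : Fin n → ℝ := fun i => if i ∈ S then -w i else w i
  have hval : ∀ U, v (pminor A (S ∆ U)) = v (pminor P U) + (c : WithTop ℝ) := by
    intro U; rw [← hU, v.map_mul, hcv]
  have small : ∀ U : Finset (Fin n), U.Nonempty → U.card ≤ 2 →
      ((∑ i ∈ U, -w' i : ℝ) : WithTop ℝ) < v (pminor P U) := by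
    intro U hU0 hU2
    have := hw2 (S ∆ U) (by
      intro h
      rw [symmDiff_eq_left] at h
      exact hU0.ne_empty h) (by
      intro h
      have : S ∆ T = U := by rw [← h, symmDiff_symmDiff_cancel_left]
      rw [this] at hc
      omega)
    rw [hval, ← hcv, sum_symmDiff] at this
    induction hx : v (pminor P U) using WithTop.recTopCoe with
    | top => exact WithTop.coe_lt_top _
    | coe x =>
      rw [hx, ← WithTop.coe_add, ← WithTop.coe_add, ← WithTop.coe_add, WithTop.coe_lt_coe] at this
      rw [WithTop.coe_lt_coe, Finset.sum_neg_distrib]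
      simp only [w']
      linarith
  have big := core v hv P s hs e he a' b' hP w'
    (fun i => by simpa using small {i} (by simp) (by simp))
    (fun i j hij => by
      have := small {i, j} (by simp) Finset.card_le_two
      rwa [Finset.sum_pair hij] at this)
    (S ∆ T) (Finset.card_pos.1 (by omega))
  have e1 := hval (S ∆ T)
  have e2 := sum_symmDiff w S (S ∆ T)
  rw [symmDiff_symmDiff_cancel_left] at e1 e2
  rw [e1, ← hcv, e2] at hw1
  induction hx : v (pminor P (S ∆ T)) using WithTop.recTopCoe with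
  | top =>
    rw [hx, ← WithTop.coe_add] at hw1
    simp at hw1
  | coe x =>
    rw [hx, ← WithTop.coe_add, ← WithTop.coe_add, ← WithTop.coe_add, WithTop.coe_inj] at hw1
    rw [hx, WithTop.coe_lt_coe, Finset.sum_neg_distrib] at big
    simp only [w'] at big
    linarith

theorem valDelta [StarRing K] (v : AddValuation K (WithTop ℝ)) (hv : ∀ a, v (star a) = v a)
    (A : Matrix (Fin n) (Fin n) K) (s : K) (hs : s = 1 ∨ s = -1)
    (a b : Fin n → K) (hA : Aᴴ - s • A = vecMulVec a b) :
    IsValDelta (fun U => v (pminor A U)) := by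
  intro S T h
  have h2 := card_le_two v hv A s hs a b hA S T h
  have h0 : (S ∆ T).Nonempty := by
    rw [Finset.nonempty_iff_ne_empty]
    intro h'
    exact h.1 (symmDiff_eq_bot.1 h')
  have hsg : ∀ i ∈ S ∆ T, (ind S - ind T) i = 1 ∨ (ind S - ind T) i = -1 := by
    intro i hi
    rcases Finset.mem_symmDiff.1 hi with ⟨h1, h2⟩ | ⟨h1, h2⟩ <;> simp [ind, h1, h2]
  have hz : ∀ i, i ∉ S ∆ T → (ind S - ind T) i = 0 := by
    intro i hi
    by_cases h1 : i ∈ S <;> by_cases h2 : i ∈ T <;>
      simp [Finset.mem_symmDiff, h1, h2] at hi <;> simp [ind, h1, h2]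
  have hc : (S ∆ T).card = 1 ∨ (S ∆ T).card = 2 := by
    have := Finset.card_pos.2 h0
    omega
  rcases hc with hc | hc
  · obtain ⟨i, hi⟩ := Finset.card_eq_one.1 hc
    refine Or.inl ⟨i, (ind S - ind T) i, hsg i (by simp [hi]), ?_⟩
    funext k
    by_cases hk : k = i
    · subst hk; simp
    · rw [hz k (by simp [hi, hk])]; simp [hk]
  · obtain ⟨i, j, hij, hi⟩ := Finset.card_eq_two.1 hc
    refine Or.inr ⟨i, j, (ind S - ind T) i, (ind S - ind T) j,
      hij, hsg i (by simp [hi]), hsg j (by simp [hi]), ?_⟩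
    funext k
    by_cases hk : k = i
    · subst hk; simp [hij]
    · by_cases hk' : k = j
      · subst hk'; simp [hk]
      · rw [hz k (by simp [hi, hk, hk'])]; simp [hk, hk']

theorem rank_one_eq (C : Matrix (Fin n) (Fin n) K) (h : C.rank = 1) :
    ∃ a b : Fin n → K, C = vecMulVec a b := by
  obtain ⟨u, hu⟩ := finrank_le_one_iff.1 (le_of_eq h)
  choose c hc using fun j => hu ⟨C *ᵥ Pi.single j 1, ⟨Pi.single j 1, rfl⟩⟩
  refine ⟨u.1, c, ?_⟩
  ext i j
  have := congrFun (congrArg Subtype.val (hc j)) i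
  simp at this
  rw [vecMulVec_apply, ← this, mul_comm]

end Pool.Agent.H14.ValDelta
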