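import Mathlib

set_option autoImplicit false

namespace Pool.Agent.H14.WDist

/-- H is a minor of G: disjoint connected branch sets, joined by an edge of G for every edge of H. -/
def IsMinor {W V : Type} (H : SimpleGraph W) (G : SimpleGraph V) : Prop :=
  ∃ B : W → Set V, (∀ w, (G.induce (B w)).Connected) ∧
    (∀ w w', w ≠ w' → Disjoint (B w) (B w')) ∧
    ∀ w w', H.Adj w w' → ∃ u ∈ B w, ∃ v ∈ B w', G.Adj u v

/-- The part containing a vertex: one part of size 2 and n parts of size 3. -/
def partOf {n : ℕ} : Fin 2 ⊕ (Fin n × Fin 3) → Option (Fin n)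
  | .inl _ => none
  | .inr p => some p.1

/-- The complete multipartite graph with one part of size 2 and n parts of size 3. -/
def K23 (n : ℕ) : SimpleGraph (Fin 2 ⊕ (Fin n × Fin 3)) :=
  (⊤ : SimpleGraph (Option (Fin n))).comap partOf

/-- Weighted distance: least total weight of a path from u to v. -/
noncomputable def wdist {V : Type} (G : SimpleGraph V) (φ : Sym2 V → ℝ) (u v : V) : ℝ :=
  sInf {w : ℝ | ∃ p : G.Walk u v, p.IsPath ∧ w = (p.edges.map φ).sum}

/-- Number of positive eigenvalues, with multiplicity, of a real symmetric matrix. -/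
noncomputable def posCount {m : ℕ} (M : Matrix (Fin m) (Fin m) ℝ) : ℕ :=
  (M.charpoly.roots.filter (fun x => 0 < x)).card

end Pool.Agent.H14.WDist
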