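import Pool.Agent.H14.Spec
import Pool.Agent.H14.WDistDefs

set_option autoImplicit false

namespace Pool.Agent.H14.WDist

open Matrix

def T : Matrix (Fin 9) (Fin 9) ℕ :=
  !![0, 2, 1, 1, 1, 2, 1, 1, 1; 2, 0, 1, 1, 1, 4, 3, 3, 3; 1, 1, 0, 2, 2, 3, 2, 2, 2;
     1, 1, 2, 0, 2, 3, 2, 2, 2; 1, 1, 2, 2, 0, 3, 2, 2, 2; 2, 4, 3, 3, 3, 0, 1, 1, 1;
     1, 3, 2, 2, 2, 1, 0, 2, 2; 1, 3, 2, 2, 2, 1, 2, 0, 2; 1, 3, 2, 2, 2, 1, 2, 2, 0]

def G : SimpleGraph (Fin 9) where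
  Adj i j := T i j = 1
  symm := ⟨by decide +kernel⟩
  loopless := ⟨by decide +kernel⟩

instance : DecidableRel G.Adj := fun i j => inferInstanceAs (Decidable (T i j = 1))

lemma t0 : ∀ u v, T u v = 0 ↔ u = v := by decide +kernel
lemma t1 : ∀ u v, T u v ≠ 0 → ∃ w, G.Adj u w ∧ T w v + 1 = T u v := by decide +kernel
lemma t2 : ∀ u w v, G.Adj u w → T u v ≤ T w v + 1 := by decide +kernel

lemma exw (k : ℕ) : ∀ u v, T u v = k → ∃ p : G.Walk u v, p.length = k := by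
  induction k with
  | zero =>
    intro u v h
    obtain rfl := (t0 u v).mp h
    exact ⟨SimpleGraph.Walk.nil, rfl⟩
  | succ k ih =>
    intro u v h
    obtain ⟨w, hw, hw'⟩ := t1 u v (by omega)
    obtain ⟨p, hp⟩ := ih w v (by omega)
    exact ⟨SimpleGraph.Walk.cons hw p, by simp [hp]⟩

lemma low {u v : Fin 9} (p : G.Walk u v) : T u v ≤ p.length := by
  induction p with
  | nil => rw [(t0 _ _).mpr rfl]; exact Nat.zero_le _
  | cons h p ih =>
    simp only [SimpleGraph.Walk.length_cons]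
    exact le_trans (t2 _ _ _ h) (by omega)

lemma conn : G.Connected := by
  refine ⟨fun u v => ?_⟩
  obtain ⟨p, -⟩ := exw _ u v rfl
  exact ⟨p⟩

lemma wd (u v : Fin 9) : wdist G (fun _ => 1) u v = T u v := by
  apply IsLeast.csInf_eq
  constructor
  · obtain ⟨p, hp⟩ := exw _ u v rfl
    refine ⟨p.bypass, p.bypass_isPath, ?_⟩
    have h1 := low p.bypass
    have h2 := p.length_bypass_le_length
    have : p.bypass.length = T u v := by omega
    simp [this]
  · rintro w ⟨p, -, rfl⟩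
    have := low p
    simp
    exact_mod_cast this

def S : Matrix (Fin 9) (Fin 3) ℝ :=
  !![1, 3, 3; 1, 3, 0; 1, -2, 0; 1, -2, 0; 1, -2, 0; 1, 0, 3; 1, 0, -2; 1, 0, -2; 1, 0, -2]

lemma three : 3 ≤ posCount (Matrix.of (wdist G (fun _ => 1))) := by
  have e : Matrix.of (wdist G (fun _ => 1)) = T.map (fun x => (x : ℝ)) := by
    ext u v
    simp [wd]
  have hA : (T.map (fun x => (x : ℝ))).IsHermitian := by
    ext i j
    have : ∀ i j, T j i = T i j := by decide +kernel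
    simp [this i j]
  rw [e, posCount, Spec.card_roots_filter hA]
  have := Spec.card_gt hA S 0 (by
    intro y hy
    have h : (S *ᵥ y) ⬝ᵥ (T.map (fun x => (x : ℝ)) *ᵥ (S *ᵥ y)) =
        130 * y 0 ^ 2 + 9 * y 1 ^ 2 + 9 * y 2 ^ 2 + 3 * (y 0 - y 1) ^ 2 + 3 * (y 0 - y 2) ^ 2
          - 6 * y 0 * y 1 - 6 * y 0 * y 2 := by
      simp [S, T, dotProduct, mulVec, Fin.sum_univ_succ]
      ring
    rw [h, zero_mul]
    have h0 : 0 < y 0 ^ 2 + y 1 ^ 2 + y 2 ^ 2 := by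
      by_contra hc
      apply hy
      have a0 : y 0 = 0 := by nlinarith [sq_nonneg (y 0), sq_nonneg (y 1), sq_nonneg (y 2)]
      have a1 : y 1 = 0 := by nlinarith [sq_nonneg (y 0), sq_nonneg (y 1), sq_nonneg (y 2)]
      have a2 : y 2 = 0 := by nlinarith [sq_nonneg (y 0), sq_nonneg (y 1), sq_nonneg (y 2)]
      funext i
      fin_cases i <;> simp [a0, a1, a2]
    nlinarith [sq_nonneg (y 0 - y 1), sq_nonneg (y 0 - y 2), sq_nonneg (y 0), sq_nonneg (y 1),
      sq_nonneg (y 2)])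
  simpa using this

instance (n : ℕ) : DecidableRel (K23 n).Adj := fun a b =>
  inferInstanceAs (Decidable (partOf a ≠ partOf b))

lemma nominor : ¬ IsMinor (K23 2) G := by
  rintro ⟨B, -, hd, he⟩
  classical
  have : ∀ p : (Fin 2 ⊕ (Fin 2 × Fin 3)) × (Fin 2 ⊕ (Fin 2 × Fin 3)), ∃ q : Fin 9 × Fin 9,
      (K23 2).Adj p.1 p.2 → q.1 ∈ B p.1 ∧ q.2 ∈ B p.2 ∧ G.Adj q.1 q.2 := by
    intro p
    by_cases h : (K23 2).Adj p.1 p.2
    · obtain ⟨u, hu, v, hv, huv⟩ := he _ _ h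
      exact ⟨(u, v), fun _ => ⟨hu, hv, huv⟩⟩
    · exact ⟨(0, 0), fun h' => absurd h' h⟩
  choose f hf using this
  have hc : (Finset.univ.filter (fun p : (Fin 2 ⊕ (Fin 2 × Fin 3)) × (Fin 2 ⊕ (Fin 2 × Fin 3)) =>
      (K23 2).Adj p.1 p.2)).card ≤
      (Finset.univ.filter (fun q : Fin 9 × Fin 9 => G.Adj q.1 q.2)).card := by
    apply Finset.card_le_card_of_injOn f
    · intro p hp
      have hp : (K23 2).Adj p.1 p.2 := by simpa using hp
      simpa using (hf p hp).2.2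
    · intro p hp q hq e
      have hp : (K23 2).Adj p.1 p.2 := by simpa using hp
      have hq : (K23 2).Adj q.1 q.2 := by simpa using hq
      obtain ⟨a1, a2, -⟩ := hf p hp
      obtain ⟨b1, b2, -⟩ := hf q hq
      rw [e] at a1 a2
      ext
      · by_contra hne
        exact Set.disjoint_left.mp (hd _ _ hne) a1 b1
      · by_contra hne
        exact Set.disjoint_left.mp (hd _ _ hne) a2 b2
  revert hc
  decide +kernel

end Pool.Agent.H14.WDist
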