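import Mathlib
import Pool.Agent.H14.ApnDefs

set_option autoImplicit false

namespace Pool.Agent.H14.Walsh

open Finset Pool.Agent.H14.ApnDefs

def ch (t : ZMod 2) : ℤ := (-1) ^ t.val

theorem ch_add : ∀ s t, ch (s + t) = ch s * ch t := by decide
theorem ch_zero : ch 0 = 1 := rfl
theorem ch_one : ch 1 = -1 := by decide
theorem ch_sq : ∀ s, ch s * ch s = 1 := by decide
theorem z01 : ∀ s : ZMod 2, s = 0 ∨ s = 1 := by decide

variable {n : ℕ}

theorem vaa (x : V n) : x + x = 0 := by funext i; exact CharTwo.add_self_eq_zero _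
theorem veq (x y : V n) : x + y = 0 ↔ x = y :=
  ⟨fun h => by rw [← add_zero x, ← vaa y, ← add_assoc, h, zero_add], fun h => h ▸ vaa x⟩

theorem cardV : Fintype.card (V n) = 2 ^ n := by simp

theorem exd {x : V n} (h : x ≠ 0) : ∃ u : V n, u ⬝ᵥ x = 1 := by
  obtain ⟨i, hi⟩ := Function.ne_iff.1 h
  exact ⟨Pi.single i 1, by simpa using (z01 (x i)).resolve_left hi⟩

theorem orth (x : V n) : ∑ u : V n, ch (u ⬝ᵥ x) = if x = 0 then 2 ^ n else 0 := by
  split_ifs with h
  · simp [h, ch_zero]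
  · obtain ⟨e, he⟩ := exd h
    have := Equiv.sum_comp (Equiv.addRight e) fun u : V n => ch (u ⬝ᵥ x)
    simp only [Equiv.coe_addRight, add_dotProduct, he, ch_add, ch_one, mul_neg, mul_one,
      sum_neg_distrib] at this
    omega

def hat (f : V n → ℤ) (u : V n) : ℤ := ∑ x, f x * ch (u ⬝ᵥ x)
def conv (f g : V n → ℤ) (a : V n) : ℤ := ∑ x, f x * g (x + a)

theorem hat_conv (f g : V n → ℤ) (u : V n) : hat (conv f g) u = hat f u * hat g u := by
  simp only [hat, conv, sum_mul]
  rw [sum_comm]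
  refine sum_congr rfl fun x _ => ?_
  rw [mul_sum, ← Equiv.sum_comp (Equiv.addLeft x)]
  refine sum_congr rfl fun y _ => ?_
  simp only [Equiv.coe_addLeft, ← add_assoc, vaa, zero_add, dotProduct_add, ch_add]
  ring

theorem inv (f : V n → ℤ) (a : V n) : ∑ u, hat f u * ch (u ⬝ᵥ a) = 2 ^ n * f a := by
  simp only [hat, sum_mul]
  rw [sum_comm]
  have : ∀ x, ∑ u : V n, f x * ch (u ⬝ᵥ x) * ch (u ⬝ᵥ a) = if x = a then 2 ^ n * f a else 0 := by
    intro x
    simp only [mul_assoc, ← ch_add, ← dotProduct_add, ← mul_sum, orth, veq]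
    split_ifs with h
    · rw [h, mul_comm]
    · simp
  simp [this]

def cf (F : V n → V n) (v : V n) (x : V n) : ℤ := ch (v ⬝ᵥ F x)

theorem walsh_eq (F : V n → V n) (u v : V n) : walsh F u v = hat (cf F v) u :=
  sum_congr rfl fun x _ => ch_add _ _

theorem parseval (F : V n → V n) (v : V n) : ∑ u, walsh F u v ^ 2 = 2 ^ n * 2 ^ n := by
  have := inv (conv (cf F v) (cf F v)) 0
  simp only [hat_conv, dotProduct_zero, ch_zero, mul_one] at this
  simp only [walsh_eq, sq, this, conv, add_zero, cf, ch_sq]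
  simp

theorem plat {F : V n → V n} (hF : Plateaued F) (v : V n) (hv : v ≠ 0) :
    ∃ j : ℕ, n ≤ 2 * j ∧ (∀ u, walsh F u v = 0 ∨ walsh F u v = 2 ^ j ∨ walsh F u v = -2 ^ j) ∧
      (2 * j = n → ∀ u, walsh F u v ≠ 0) := by
  obtain ⟨l, hl, h⟩ := hF v hv
  have hp := parseval F v
  obtain ⟨u0, hu0⟩ : ∃ u, walsh F u v ≠ 0 := by
    by_contra hc
    push Not at hc
    simp [hc] at hp
  obtain ⟨m, hm⟩ : ∃ m : ℕ, (m : ℝ) = l := by
    refine ⟨(walsh F u0 v).natAbs, ?_⟩
    rw [Nat.cast_natAbs, Int.cast_abs]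
    rcases h u0 with e | e | e
    · exact absurd (by exact_mod_cast e) hu0
    · rw [e, abs_of_nonneg hl]
    · rw [e, abs_neg, abs_of_nonneg hl]
  subst hm
  have h' : ∀ u, walsh F u v = 0 ∨ walsh F u v = m ∨ walsh F u v = -m := fun u => by
    exact_mod_cast h u
  let S := univ.filter fun u => walsh F u v ≠ 0
  have hs : (S.card : ℤ) * m ^ 2 = 2 ^ n * 2 ^ n := by
    rw [← hp, ← sum_filter_add_sum_filter_not univ fun u => walsh F u v ≠ 0,
      sum_eq_zero (s := univ.filter fun u => ¬ walsh F u v ≠ 0) fun u hu => by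
        rw [not_not.1 (mem_filter.1 hu).2]; rfl, add_zero, ← nsmul_eq_mul, ← sum_const]
    refine sum_congr rfl fun u hu => ?_
    rcases h' u with e | e | e
    · exact absurd e (mem_filter.1 hu).2
    · rw [e]
    · rw [e, neg_sq]
  have hs' : S.card * m ^ 2 = 2 ^ n * 2 ^ n := by exact_mod_cast hs
  have hd : m ∣ 2 ^ n := by
    rw [← Nat.pow_dvd_pow_iff (n := 2) two_ne_zero, sq (2 ^ n), ← hs']
    exact Dvd.intro_left _ rfl
  obtain ⟨j, _, rfl⟩ := (Nat.dvd_prime_pow Nat.prime_two).1 hd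
  have hc : S.card ≤ 2 ^ n := (card_le_univ S).trans_eq cardV
  refine ⟨j, ?_, by simpa using h', fun e u => ?_⟩
  · have : 2 ^ n * 2 ^ n ≤ 2 ^ n * (2 ^ j) ^ 2 := hs' ▸ Nat.mul_le_mul_right _ hc
    have := Nat.le_of_mul_le_mul_left this (by positivity)
    rw [← pow_mul] at this
    have := (Nat.pow_le_pow_iff_right (by norm_num)).1 this
    omega
  · rw [← pow_mul, mul_comm j, e] at hs'
    have := Nat.eq_of_mul_eq_mul_right (by positivity) hs'
    have hS : S = univ := eq_univ_of_card _ (this.trans cardV.symm)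
    exact (mem_filter.1 (hS ▸ mem_univ u : u ∈ S)).2

def N3 (F : V n → V n) (a b : V n) : ℕ :=
  (univ.filter fun p : V n × V n => F p.2 + F (p.2 + p.1) + F (p.1 + a) = b).card

theorem cube {F : V n → V n} {v : V n} {l : ℤ}
    (h : ∀ u, walsh F u v = 0 ∨ walsh F u v = l ∨ walsh F u v = -l) (a : V n) :
    conv (conv (cf F v) (cf F v)) (cf F v) a = l ^ 2 * cf F v a := by
  have h1 := inv (conv (conv (cf F v) (cf F v)) (cf F v)) a
  have h2 := inv (cf F v) a
  have : ∑ u, hat (conv (conv (cf F v) (cf F v)) (cf F v)) u * ch (u ⬝ᵥ a) =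
      l ^ 2 * ∑ u, hat (cf F v) u * ch (u ⬝ᵥ a) := by
    rw [mul_sum]
    refine sum_congr rfl fun u _ => ?_
    simp only [hat_conv, ← walsh_eq]
    rcases h u with e | e | e <;> rw [e] <;> ring
  rw [h1, h2] at this
  exact mul_left_cancel₀ (a := 2 ^ n) (by positivity) (by rw [this]; ring)

theorem N3_eq (F : V n → V n) (a b : V n) :
    (2 ^ n * N3 F a b : ℤ) = ∑ v, ch (v ⬝ᵥ b) * conv (conv (cf F v) (cf F v)) (cf F v) a := by
  have : ∀ v, ch (v ⬝ᵥ b) * conv (conv (cf F v) (cf F v)) (cf F v) a =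
      ∑ p : V n × V n, ch (v ⬝ᵥ (F p.2 + F (p.2 + p.1) + F (p.1 + a) + b)) := by
    intro v
    simp only [conv, cf, sum_mul, mul_sum, Fintype.sum_prod_type, dotProduct_add, ch_add]
    exact sum_congr rfl fun _ _ => sum_congr rfl fun _ _ => by ring
  simp only [this]
  rw [sum_comm]
  simp only [orth, veq, N3, card_filter]
  push_cast
  rw [mul_sum]
  exact sum_congr rfl fun _ _ => by split_ifs <;> simp

theorem N3_self {F : V n → V n} (hF : APN F) (a : V n) : (N3 F a (F a) : ℤ) = 3 * 2 ^ n - 2 := by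
  have : ∀ z : V n, ((univ.filter fun x => F x + F (x + z) + F (z + a) = F a).card : ℤ) =
      2 + if z = 0 then 2 ^ n - 2 else 0 := by
    intro z
    split_ifs with h
    · subst h; simp [vaa]
    · have e : (univ.filter fun x => F x + F (x + z) + F (z + a) = F a) =
          univ.filter fun x => F x + F (x + z) = F a + F (a + z) := by
        refine filter_congr fun x _ => ?_
        rw [← veq, ← veq (F x + _), add_comm z a, add_assoc, add_comm (F (a + z))]
      have h2 : ({a, a + z} : Finset (V n)) ⊆ univ.filter fun x => F x + F (x + z) = F a + F (a + z) := by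
        intro x hx
        rcases mem_insert.1 hx with rfl | hx
        · simp
        · rw [mem_singleton.1 hx, mem_filter, add_assoc a, vaa, add_zero]
          exact ⟨mem_univ _, add_comm _ _⟩
      have h3 := card_le_card h2
      rw [card_pair (by simpa using h)] at h3
      have := hF z h (F a + F (a + z))
      rw [e, add_zero]
      exact_mod_cast le_antisymm this h3
  rw [N3, card_filter, Fintype.sum_prod_type]
  simp only [← card_filter]
  push_cast
  simp only [this, sum_add_distrib]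
  simp
  ring

theorem six {α : Type} [DecidableEq α] (S : Finset α) (P : Finset α → Prop) [DecidablePred P] :
    ((S ×ˢ S ×ˢ S).filter fun t => t.1 ≠ t.2.1 ∧ t.1 ≠ t.2.2 ∧ t.2.1 ≠ t.2.2 ∧
      P {t.1, t.2.1, t.2.2}).card = 6 * ((S.powersetCard 3).filter P).card := by
  rw [card_eq_sum_card_fiberwise (f := fun t : α × α × α => ({t.1, t.2.1, t.2.2} : Finset α))
    (t := (S.powersetCard 3).filter P), mul_comm, ← smul_eq_mul, ← sum_const]
  · refine sum_congr rfl fun T hT => ?_
    obtain ⟨h1, h2⟩ := mem_filter.1 hT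
    obtain ⟨h3, h4⟩ := mem_powersetCard.1 h1
    obtain ⟨p, q, r, hpq, hpr, hqr, rfl⟩ := card_eq_three.1 h4
    have hp : p ∈ S := h3 (by simp)
    have hq : q ∈ S := h3 (by simp)
    have hr : r ∈ S := h3 (by simp)
    have : (((S ×ˢ S ×ˢ S).filter fun t => t.1 ≠ t.2.1 ∧ t.1 ≠ t.2.2 ∧ t.2.1 ≠ t.2.2 ∧
        P {t.1, t.2.1, t.2.2}).filter fun t => ({t.1, t.2.1, t.2.2} : Finset α) = {p, q, r}) =
        {(p, q, r), (p, r, q), (q, p, r), (q, r, p), (r, p, q), (r, q, p)} := by
      ext ⟨x, y, z⟩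
      simp only [mem_filter, mem_product, mem_insert, mem_singleton, Prod.mk.injEq]
      constructor
      · rintro ⟨⟨_, a1, a2, a3, _⟩, e⟩
        have hx : x ∈ ({p, q, r} : Finset α) := e ▸ by simp
        have hy : y ∈ ({p, q, r} : Finset α) := e ▸ by simp
        have hz : z ∈ ({p, q, r} : Finset α) := e ▸ by simp
        simp only [mem_insert, mem_singleton] at hx hy hz
        rcases hx with rfl | rfl | rfl <;> rcases hy with rfl | rfl | rfl <;>
          rcases hz with rfl | rfl | rfl <;> simp_all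
      · intro h
        have e : ({x, y, z} : Finset α) = {p, q, r} := by
          rcases h with ⟨rfl, rfl, rfl⟩ | ⟨rfl, rfl, rfl⟩ | ⟨rfl, rfl, rfl⟩ | ⟨rfl, rfl, rfl⟩ |
            ⟨rfl, rfl, rfl⟩ | ⟨rfl, rfl, rfl⟩ <;> ext <;> simp only [mem_insert, mem_singleton] <;> tauto
        rw [e]
        rcases h with ⟨rfl, rfl, rfl⟩ | ⟨rfl, rfl, rfl⟩ | ⟨rfl, rfl, rfl⟩ | ⟨rfl, rfl, rfl⟩ |
          ⟨rfl, rfl, rfl⟩ | ⟨rfl, rfl, rfl⟩ <;> simp [*, hpq.symm, hpr.symm, hqr.symm]
    rw [this]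
    simp [card_insert_of_notMem, hpq, hpr, hqr, hpq.symm, hpr.symm, hqr.symm]
  · rintro ⟨x, y, z⟩ h
    simp only [coe_filter, mem_product, Set.mem_ofPred_eq, mem_powersetCard] at h ⊢
    obtain ⟨⟨a, b, c⟩, d, e, f, g⟩ := h
    refine ⟨⟨?_, card_eq_three.2 ⟨x, y, z, d, e, f, rfl⟩⟩, g⟩
    intro w hw
    simp only [mem_insert, mem_singleton] at hw
    rcases hw with rfl | rfl | rfl <;> assumption

theorem N3_mult (F : V n → V n) (a b : V n) (h : b ≠ F a) : N3 F a b = 6 * mult F (a, b) := by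
  rw [mult, ← six, N3]
  refine card_bij (fun p _ => ((p.2, F p.2), (p.2 + p.1, F (p.2 + p.1)), (p.1 + a, F (p.1 + a)))) ?_ ?_ ?_
  · rintro ⟨z, x⟩ hp
    have e : F x + F (x + z) + F (z + a) = b := by simpa using hp
    have d1 : x ≠ x + z := by
      intro h'; have : z = 0 := by simpa using h'
      subst this; exact h (by rw [← e]; simp [vaa])
    have d2 : x ≠ z + a := by
      rintro rfl; refine h ?_
      rw [← e, add_right_comm, vaa, zero_add, add_right_comm, vaa, zero_add]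
    have d3 : x + z ≠ z + a := by
      intro h'; have : x = a := by rw [add_comm] at h'; simpa using h'
      subst this; refine h ?_
      rw [← e, add_comm z, add_assoc, vaa, add_zero]
    simp only [mem_filter, mem_product, graph, mem_image, mem_univ, true_and, ne_eq, Prod.mk.injEq,
      d1, d2, d3, false_and, not_false_eq_true]
    refine ⟨⟨⟨_, rfl, rfl⟩, ⟨_, rfl, rfl⟩, ⟨_, rfl, rfl⟩⟩, ?_⟩
    rw [sum_insert (by simp [d1, d2]), sum_pair (by simp [d3])]
    refine Prod.ext ?_ (by simpa [add_assoc] using e)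
    show x + (x + z + (z + a)) = a
    rw [add_assoc x z, ← add_assoc z, vaa, zero_add, ← add_assoc, vaa, zero_add]
  · rintro ⟨z, x⟩ _ ⟨z', x'⟩ _ e
    simp only [Prod.mk.injEq] at e ⊢
    obtain ⟨⟨rfl, _⟩, _, e, _⟩ := e
    exact ⟨by simpa using e, rfl⟩
  · rintro ⟨p, q, r⟩ ht
    simp only [mem_filter, mem_product, graph, mem_image, mem_univ, true_and] at ht
    obtain ⟨⟨⟨x, rfl⟩, ⟨y, rfl⟩, ⟨z, rfl⟩⟩, d1, d2, d3, e⟩ := ht
    rw [sum_insert (by simp only [mem_insert, mem_singleton]; tauto), sum_pair d3] at e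
    have e1 : x + (y + z) = a := congrArg Prod.fst e
    have e2 : F x + (F y + F z) = b := congrArg Prod.snd e
    have f1 : x + (x + y) = y := by rw [← add_assoc, vaa, zero_add]
    have f2 : x + y + a = z := by rw [← e1, ← add_assoc x, ← add_assoc, vaa, zero_add]
    refine ⟨(x + y, x), ?_, by simp only [f1, f2]⟩
    simp only [mem_filter, mem_univ, true_and, f1, f2]
    rw [add_assoc]; exact e2

end Pool.Agent.H14.Walsh
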