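import Mathlib
import Pool.Agent.H14.Walsh

set_option autoImplicit false

namespace Pool.Agent.H14.Walsh

open Finset Pool.Agent.H14.ApnDefs

variable {n : ℕ}

/-- amplitude data of a plateaued function, extended to `v = 0` -/
structure Amp (F : V n → V n) (j : V n → ℕ) : Prop where
  le : ∀ v, n ≤ 2 * j v
  val : ∀ v u, walsh F u v = 0 ∨ walsh F u v = 2 ^ j v ∨ walsh F u v = -2 ^ j v
  bent : ∀ v, 2 * j v = n → ∀ u, walsh F u v ≠ 0
  zero : j 0 = n

theorem amp {F : V n → V n} (hn : 0 < n) (hF : Plateaued F) : ∃ j, Amp F j := by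
  have : ∀ v : V n, ∃ j : ℕ, n ≤ 2 * j ∧
      (∀ u, walsh F u v = 0 ∨ walsh F u v = 2 ^ j ∨ walsh F u v = -2 ^ j) ∧
      (2 * j = n → ∀ u, walsh F u v ≠ 0) ∧ (v = 0 → j = n) := by
    intro v
    by_cases hv : v = 0
    · subst hv
      refine ⟨n, by omega, fun u => ?_, fun h => by omega, fun _ => rfl⟩
      have := orth u
      have e : walsh F u 0 = ∑ x : V n, ch (x ⬝ᵥ u) := by simp [walsh, ch, dotProduct_comm]
      rw [e, orth]
      split_ifs <;> simp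
    · obtain ⟨j, a, b, c⟩ := plat hF v hv
      exact ⟨j, a, b, c, fun h => absurd h hv⟩
  choose j a b c d using this
  exact ⟨j, a, b, c, d 0 rfl⟩

def mu (j : V n → ℕ) (v : V n) : ℤ := 2 ^ (2 * j v - n)

theorem N3_mu {F : V n → V n} {j : V n → ℕ} (h : Amp F j) (a b : V n) :
    (N3 F a b : ℤ) = ∑ v, mu j v * ch (v ⬝ᵥ (F a + b)) := by
  refine mul_left_cancel₀ (a := 2 ^ n) (by positivity) ?_
  rw [N3_eq, mul_sum]
  refine sum_congr rfl fun v _ => ?_
  rw [cube (h.val v), ← pow_mul, show j v * 2 = n + (2 * j v - n) by have := h.le v; omega, pow_add]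
  simp only [mu, cf, dotProduct_add, ch_add]
  ring

theorem half (f : V n → ℤ) (c : V n) :
    ∑ v, f v - ∑ v, f v * ch (v ⬝ᵥ c) = 2 * ∑ v ∈ univ.filter fun v => v ⬝ᵥ c = 1, f v := by
  rw [← sum_sub_distrib, sum_filter, mul_sum]
  refine sum_congr rfl fun v _ => ?_
  rcases z01 (v ⬝ᵥ c) with e | e <;> simp [e, ch_zero, ch_one]
  ring

theorem half0 (f : V n → ℤ) (c : V n) :
    ∑ v, f v + ∑ v, f v * ch (v ⬝ᵥ c) = 2 * ∑ v ∈ univ.filter fun v => ¬ v ⬝ᵥ c = 1, f v := by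
  rw [← sum_add_distrib, sum_filter, mul_sum]
  refine sum_congr rfl fun v _ => ?_
  rcases z01 (v ⬝ᵥ c) with e | e <;> simp [e, ch_zero, ch_one]
  ring

theorem mu_tot {F : V n → V n} {j : V n → ℕ} (h : Amp F j) (hF : APN F) :
    ∑ v, mu j v = 3 * 2 ^ n - 2 := by
  rw [← N3_self hF 0, N3_mu h]; simp [vaa, ch_zero]

theorem T_eq {F : V n → V n} {j : V n → ℕ} (h : Amp F j) (hF : APN F) (a b : V n) (hb : b ≠ F a) :
    3 * 2 ^ n - 2 - 6 * (mult F (a, b) : ℤ) =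
      2 * ∑ v ∈ univ.filter fun v => v ⬝ᵥ (F a + b) = 1, mu j v := by
  rw [← half, mu_tot h hF, ← N3_mu h, N3_mult F a b hb]; push_cast; ring

theorem card_half {c : V n} (hc : c ≠ 0) :
    2 * ((univ.filter fun v : V n => v ⬝ᵥ c = 1).card : ℤ) = 2 ^ n := by
  have := half (fun _ => 1) c
  simp only [one_mul, orth, if_neg hc] at this
  simpa using this.symm

/-- normalised Walsh coefficients at `u = 0` for even `n = 2h` -/
theorem exw {F : V n → V n} {j : V n → ℕ} (h : Amp F j) {k : ℕ} (hk : n = 2 * k) :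
    ∃ w : V n → ℤ, (∀ v, walsh F 0 v = 2 ^ k * w v) ∧
      ∀ v, (mu j v = 1 ∧ (w v = 1 ∨ w v = -1)) ∨ (4 ∣ mu j v ∧ 2 ∣ w v) := by
  have : ∀ v, ∃ w : ℤ, walsh F 0 v = 2 ^ k * w ∧
      ((mu j v = 1 ∧ (w = 1 ∨ w = -1)) ∨ (4 ∣ mu j v ∧ 2 ∣ w)) := by
    intro v
    obtain ⟨d, hd⟩ : ∃ d, j v = k + d := ⟨j v - k, by have := h.le v; omega⟩
    have hm : mu j v = 4 ^ d := by
      rw [mu, show 2 * j v - n = 2 * d by omega, pow_mul]; norm_num
    rcases d with _ | d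
    · rcases h.val v 0 with e | e | e
      · exact absurd e (h.bent v (by omega) 0)
      · exact ⟨1, by rw [e, hd]; simp, Or.inl ⟨hm, Or.inl rfl⟩⟩
      · exact ⟨-1, by rw [e, hd]; simp, Or.inl ⟨hm, Or.inr rfl⟩⟩
    · have h4 : 4 ∣ mu j v := by rw [hm, pow_succ]; exact Dvd.intro_left _ rfl
      rcases h.val v 0 with e | e | e
      · exact ⟨0, by simp [e], Or.inr ⟨h4, by simp⟩⟩
      · exact ⟨2 ^ (d + 1), by rw [e, hd, pow_add], Or.inr ⟨h4, by rw [pow_succ]; simp⟩⟩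
      · exact ⟨-2 ^ (d + 1), by rw [e, hd, pow_add]; ring, Or.inr ⟨h4, by rw [pow_succ]; simp⟩⟩
  choose w a b using this
  exact ⟨w, a, b⟩

theorem walsh0 (F : V n → V n) (v : V n) : walsh F 0 v = ∑ x, ch (v ⬝ᵥ F x) := by
  simp [walsh, ch]

theorem sum_walsh (F : V n → V n) (c : V n) : ∃ t : ℤ, ∑ v, walsh F 0 v * ch (v ⬝ᵥ c) = 2 ^ n * t := by
  refine ⟨∑ x, if F x + c = 0 then 1 else 0, ?_⟩
  simp only [walsh0, sum_mul, ← ch_add, ← dotProduct_add]
  rw [sum_comm, mul_sum]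
  exact sum_congr rfl fun x _ => by rw [orth]; split_ifs <;> simp

theorem odd_mult {F : V n → V n} (hn : 3 ≤ n) (hF : APN F) (hP : Plateaued F) (a b : V n)
    (hb : b ≠ F a) : Odd (mult F (a, b)) := by
  obtain ⟨j, h⟩ := amp (by omega) hP
  have hT := T_eq h hF a b hb
  have ev : 2 ∣ ∑ v ∈ univ.filter fun v => v ⬝ᵥ (F a + b) = 1, mu j v := by
    rcases Nat.even_or_odd' n with ⟨k, hk | hk⟩
    · obtain ⟨w, w1, w2⟩ := exw h hk
      obtain ⟨t1, e1⟩ := sum_walsh F 0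
      obtain ⟨t2, e2⟩ := sum_walsh F (F a + b)
      have e3 := half (walsh F 0) (F a + b)
      simp only [dotProduct_zero, ch_zero, mul_one] at e1
      rw [e1, e2] at e3
      simp only [w1, ← mul_sum] at e3
      obtain ⟨i, rfl⟩ : ∃ i, k = i + 2 := ⟨k - 2, by omega⟩
      have e4 : ∑ v ∈ univ.filter fun v => v ⬝ᵥ (F a + b) = 1, w v = 2 * (2 ^ i * (t1 - t2)) := by
        refine mul_left_cancel₀ (a := 2 * 2 ^ (i + 2)) (by positivity) ?_
        rw [mul_assoc, ← e3, hk]; ring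
      have e5 : 2 ∣ ∑ v ∈ univ.filter fun v => v ⬝ᵥ (F a + b) = 1, (mu j v - w v) :=
        dvd_sum fun v _ => by have := w2 v; omega
      rw [sum_sub_distrib, e4] at e5
      omega
    · refine dvd_sum fun v _ => ?_
      rw [mu, show 2 * j v - n = (2 * j v - n - 1) + 1 by have := h.le v; omega, pow_succ]
      simp
  obtain ⟨i, rfl⟩ : ∃ i, n = i + 2 := ⟨n - 2, by omega⟩
  rw [pow_add] at hT
  rw [Nat.odd_iff]
  omega

theorem sym2 {α : Type} [DecidableEq α] (s : α → α → ℤ) (hs : ∀ x y, s x y = s y x) (S : Finset α) :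
    2 ∣ ∑ x ∈ S, ∑ y ∈ S, s x y - ∑ x ∈ S, s x x := by
  induction S using Finset.induction_on with
  | empty => simp
  | insert a S ha ih =>
    simp only [sum_insert ha, sum_add_distrib]
    have : ∑ x ∈ S, s x a = ∑ x ∈ S, s a x := sum_congr rfl fun x _ => hs x a
    rw [this]
    omega

theorem not_max {F : V n → V n} {k : ℕ} (hk : n = 2 * k) (hk2 : 2 ≤ k) (hF : APN F)
    (hP : Plateaued F) (a b : V n) (hb : b ≠ F a) : 3 * mult F (a, b) + 1 < 2 ^ n := by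
  obtain ⟨j, h⟩ := amp (by omega) hP
  have hT := T_eq h hF a b hb
  set c := F a + b with hc
  have hc0 : c ≠ 0 := fun e => hb ((veq _ _).1 e).symm
  have hh := card_half hc0
  set S := univ.filter fun v : V n => v ⬝ᵥ c = 1 with hS
  have pos : ∀ v ∈ S, (1 : ℤ) ≤ mu j v := fun v _ => one_le_pow₀ (by norm_num)
  have ge : (S.card : ℤ) ≤ ∑ v ∈ S, mu j v := by simpa using sum_le_sum pos
  obtain ⟨w, w1, w2⟩ := exw h hk
  by_contra hlt
  have hlt' : (2 : ℤ) ^ n ≤ 3 * mult F (a, b) + 1 := by exact_mod_cast not_lt.1 hlt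
  have eq : ∑ v ∈ S, (1 : ℤ) = ∑ v ∈ S, mu j v := by
    simp only [sum_const, nsmul_eq_mul, mul_one]; linarith
  have one : ∀ v ∈ S, w v = 1 ∨ w v = -1 := fun v hv => by
    have := (sum_eq_sum_iff_of_le pos).1 eq v hv
    have := w2 v
    omega
  obtain ⟨v0, hv0⟩ := exd hc0
  set H := univ.filter fun v : V n => ¬ v ⬝ᵥ c = 1 with hH
  obtain ⟨i, rfl⟩ : ∃ i, k = i + 2 := ⟨k - 2, by omega⟩
  have hn : (2 : ℤ) ^ n = 16 * (2 ^ i * 2 ^ i) := by rw [hk]; ring
  have tot := mu_tot h hF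
  rw [← sum_filter_add_sum_filter_not univ fun v => v ⬝ᵥ c = 1, ← hS, ← hH, ← eq] at tot
  have cH : (S.card : ℤ) + H.card = 2 ^ n := by
    have := card_filter_add_card_filter_not (s := (univ : Finset (V n))) fun v => v ⬝ᵥ c = 1
    rw [card_univ, cardV] at this
    exact_mod_cast this
  have d4 : 4 ∣ ∑ v ∈ H, ((w v + w (v + v0)) ^ 2 + mu j v - 1) := by
    refine dvd_sum fun v hv => ?_
    have h1 : v ⬝ᵥ c = 0 := (z01 _).resolve_right (mem_filter.1 hv).2
    have h2 := one (v + v0) (mem_filter.2 ⟨mem_univ _, by rw [add_dotProduct, h1, hv0, zero_add]⟩)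
    rcases w2 v with ⟨e1, e2⟩ | ⟨⟨p, e1⟩, ⟨q, e2⟩⟩
    · rw [e1]; rcases e2 with e2 | e2 <;> rcases h2 with h2 | h2 <;> rw [e2, h2] <;> norm_num
    · rw [e1, e2]
      rcases h2 with h2 | h2 <;> rw [h2]
      · exact ⟨q ^ 2 + q + p, by ring⟩
      · exact ⟨q ^ 2 - q + p, by ring⟩
  let g : V n → ℤ := fun x => if v0 ⬝ᵥ F x = 1 then 0 else 1
  have hg : ∀ x, 1 + ch (v0 ⬝ᵥ F x) = 2 * g x := fun x => by
    rcases z01 (v0 ⬝ᵥ F x) with e | e <;> simp [g, e, ch_zero, ch_one]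
  have y : ∀ v, 2 ^ (i + 2) * (w v + w (v + v0)) = 2 * ∑ x, g x * ch (v ⬝ᵥ F x) := fun v => by
    rw [mul_add, ← w1, ← w1, walsh0, walsh0, ← sum_add_distrib, mul_sum]
    refine sum_congr rfl fun x _ => ?_
    rw [add_dotProduct, ch_add, ← mul_assoc, ← hg]; ring
  let s : V n → V n → ℤ := fun x x' => if F x = F x' then g x * g x' else 0
  have q : ∀ d : V n, ∑ v, (∑ x, g x * ch (v ⬝ᵥ F x)) ^ 2 * ch (v ⬝ᵥ d) =
      ∑ x, ∑ x', g x * g x' * if F x + F x' + d = 0 then 2 ^ n else 0 := by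
    intro d
    simp only [sq, sum_mul_sum, sum_mul, ← orth, mul_sum]
    rw [sum_comm]
    refine sum_congr rfl fun x _ => ?_
    rw [sum_comm]
    refine sum_congr rfl fun x' _ => sum_congr rfl fun v _ => ?_
    simp only [dotProduct_add, ch_add]; ring
  have q0 := q 0
  have qc := q c
  have z2 : ∑ x, ∑ x', g x * g x' * (if F x + F x' + c = 0 then (2 : ℤ) ^ n else 0) = 0 := by
    refine sum_eq_zero fun x _ => sum_eq_zero fun x' _ => ?_
    split_ifs with e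
    · have := congrArg (v0 ⬝ᵥ ·) e
      simp only [dotProduct_add, hv0, dotProduct_zero] at this
      rcases z01 (v0 ⬝ᵥ F x) with e1 | e1 <;> rcases z01 (v0 ⬝ᵥ F x') with e2 | e2 <;>
        simp [g, e1, e2] at this ⊢
    · simp
  have z1 : ∑ x, ∑ x', g x * g x' * (if F x + F x' + 0 = 0 then (2 : ℤ) ^ n else 0) =
      2 ^ n * ∑ x, ∑ x', s x x' := by
    simp only [mul_sum, add_zero, veq, s]
    exact sum_congr rfl fun x _ => sum_congr rfl fun x' _ => by split_ifs <;> ring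
  have hf := half0 (fun v => (∑ x, g x * ch (v ⬝ᵥ F x)) ^ 2) c
  simp only [dotProduct_zero, ch_zero, mul_one] at q0
  rw [q0, qc, z2, z1, add_zero, ← hH] at hf
  have ys : ∑ v ∈ H, (w v + w (v + v0)) ^ 2 = 2 * ∑ x, ∑ x', s x x' := by
    refine mul_left_cancel₀ (a := 2 ^ n) (by positivity) ?_
    have : 2 ^ n * ∑ v ∈ H, (w v + w (v + v0)) ^ 2 = 4 * ∑ v ∈ H, (∑ x, g x * ch (v ⬝ᵥ F x)) ^ 2 := by
      rw [mul_sum, mul_sum]
      refine sum_congr rfl fun v _ => ?_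
      have := congrArg (· ^ 2) (y v)
      simp only [mul_pow] at this
      rw [hn]; linear_combination this
    rw [this]; linarith
  have par := sym2 s (fun x x' => by simp only [s, eq_comm, mul_comm]) univ
  have dg : 2 * ∑ x, s x x = 2 ^ n + 2 ^ (i + 2) * w v0 := by
    rw [← w1, walsh0, mul_sum]
    have : ∀ x, 2 * s x x = 1 + ch (v0 ⬝ᵥ F x) := fun x => by
      rw [hg]; simp only [s, g, if_true]; split_ifs <;> simp
    simp [this, sum_add_distrib]
  have h0 := one v0 (mem_filter.2 ⟨mem_univ _, hv0⟩)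
  rw [pow_add] at dg
  simp only [sum_sub_distrib, sum_add_distrib, ys, sum_const, nsmul_eq_mul, mul_one] at d4 tot
  rw [hn] at tot cH hh dg
  generalize (2 : ℤ) ^ i * 2 ^ i = Q at tot cH hh dg
  generalize (2 : ℤ) ^ i = Q' at dg
  obtain ⟨r, hr⟩ := d4
  obtain ⟨r', hr'⟩ := par
  generalize ∑ x, ∑ x', s x x' = A at hr hr'
  generalize ∑ x, s x x = B at hr' dg
  generalize ∑ v ∈ H, mu j v = C at hr tot
  generalize (S.card : ℤ) = D at tot cH hh
  generalize (H.card : ℤ) = E at hr cH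
  rcases h0 with h0 | h0 <;> rw [h0] at dg <;> clear * - hr hr' dg tot cH hh <;> omega

end Pool.Agent.H14.Walsh
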