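import Mathlib

set_option autoImplicit false

namespace Pool.Agent.H14.ZsCyc

/-- every colouring of the edges of K_{N,N} by Z_2^d has a zero-sum cycle C_{2k}, 2 ≤ k ≤ m -/
def Forced (m d N : ℕ) : Prop :=
  ∀ c : Fin N → Fin N → (Fin d → ZMod 2), ∃ k : ℕ, 2 ≤ k ∧ k ≤ m ∧
    ∃ x y : Fin k → Fin N, Function.Injective x ∧ Function.Injective y ∧
      ∑ i, (c (x i) (y i) + c (x (finRotate k i)) (y i)) = 0

/-- the zero-sum bipartite Ramsey number -/
noncomputable def B (m d : ℕ) : ℕ := sInf {N | Forced m d N}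

end Pool.Agent.H14.ZsCyc
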