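import Mathlib
import Pool.Agent.H14.CycWalk

set_option autoImplicit false

namespace Pool.Agent.H14.ZsCyc

open Matrix Finset CycWalk

def sg (t : ZMod 2) : ℝ := if t = 0 then 1 else -1

theorem sg_add (s t : ZMod 2) : sg (s + t) = sg s * sg t := by
  have h : ∀ u : ZMod 2, u = 0 ∨ u = 1 := by decide
  have h2 : (1 + 1 : ZMod 2) = 0 := by decide
  rcases h s with rfl | rfl <;> rcases h t with rfl | rfl <;> simp [sg, h2]

theorem sg_sq (s : ZMod 2) : sg s ^ 2 = 1 := by
  unfold sg; split_ifs <;> simp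

theorem sg_sum (g : ZMod 2) : ∑ t : ZMod 2, sg (t * g) = if g = 0 then 2 else 0 := by
  have : (univ : Finset (ZMod 2)) = {0, 1} := by decide
  rw [this, sum_pair (by decide)]
  by_cases h : g = 0 <;> simp [sg, h]
  norm_num

variable {d : ℕ}

def ch (a g : Fin d → ZMod 2) : ℝ := ∏ i, sg (a i * g i)

theorem ch_add (a g h : Fin d → ZMod 2) : ch a (g + h) = ch a g * ch a h := by
  simp [ch, mul_add, sg_add, prod_mul_distrib]

theorem ch_zero (a : Fin d → ZMod 2) : ch a 0 = 1 := by simp [ch, sg]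

theorem zero_ch (g : Fin d → ZMod 2) : ch 0 g = 1 := by simp [ch, sg]

theorem ch_sq (a g : Fin d → ZMod 2) : ch a g ^ 2 = 1 := by
  simp [ch, ← prod_pow, sg_sq]

theorem ch_sum {ι : Type} (s : Finset ι) (a : Fin d → ZMod 2) (g : ι → Fin d → ZMod 2) :
    ch a (∑ k ∈ s, g k) = ∏ k ∈ s, ch a (g k) := by
  classical
  induction s using Finset.induction_on with
  | empty => simp [ch_zero]
  | insert k s hk ih => rw [sum_insert hk, prod_insert hk, ch_add, ih]

theorem sum_ch (g : Fin d → ZMod 2) : ∑ a, ch a g = if g = 0 then (2 : ℝ) ^ d else 0 := by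
  unfold ch
  rw [← Fintype.piFinset_univ, ← prod_univ_sum (fun _ => univ) fun i t => sg (t * g i)]
  simp only [sg_sum]
  split_ifs with h
  · simp [h]
  · obtain ⟨i, hi⟩ := Function.ne_iff.1 h
    exact prod_eq_zero (mem_univ i) (if_neg hi)

variable {V : Type} [Fintype V] [DecidableEq V]

omit [DecidableEq V] in
theorem sum_y (M : Matrix V V ℝ) (n : ℕ) (x : Fin (n + 1) → V) :
    ∑ y : Fin (n + 1) → V, ∏ k, (M (x k) (y k) * M (x (k + 1)) (y k)) =
      ∏ k, (M * Mᵀ) (x k) (x (k + 1)) := by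
  rw [← Fintype.piFinset_univ,
    ← prod_univ_sum (fun _ => univ) fun k t => M (x k) t * M (x (k + 1)) t]
  simp [mul_apply]

omit [DecidableEq V] in
theorem sum_x (M : Matrix V V ℝ) (n : ℕ) (y : Fin (n + 1) → V) :
    ∑ x : Fin (n + 1) → V, ∏ k, (M (x k) (y k) * M (x (k + 1)) (y k)) =
      ∏ k, (Mᵀ * Mᵀᵀ) (y k) (y (k + 1)) := by
  have e : ∀ x : Fin (n + 1) → V, ∏ k, (M (x k) (y k) * M (x (k + 1)) (y k)) =
      ∏ k, (M (x k) (y (k - 1)) * M (x k) (y k)) := by
    intro x
    rw [prod_mul_distrib, prod_mul_distrib, mul_comm,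
      ← Equiv.prod_comp (Equiv.addRight 1) fun k => M (x k) (y (k - 1))]
    simp
  simp only [e]
  rw [← Fintype.piFinset_univ,
    ← prod_univ_sum (fun _ => univ) fun k t => M t (y (k - 1)) * M t (y k),
    ← Equiv.prod_comp (Equiv.addRight 1)]
  simp [mul_apply]

theorem upper [Nonempty V] (n : ℕ) (c : V → V → Fin d → ZMod 2)
    (h : ∀ x y : Fin (n + 1) → V, Function.Injective x → Function.Injective y →
      ∑ k, (c (x k) (y k) + c (x (k + 1)) (y k)) ≠ 0) :
    (Fintype.card V : ℝ) ^ n ≤ (4 * (n + 1) ^ 2) ^ (n + 1) * 2 ^ d := by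
  set K : ℝ := 4 * (n + 1) ^ 2 with hK
  set N : ℝ := (Fintype.card V : ℝ) with hN
  have hK0 : 0 < K := by positivity
  have hN0 : 0 < N := by rw [hN]; exact_mod_cast Fintype.card_pos
  let M : (Fin d → ZMod 2) → Matrix V V ℝ := fun a => Matrix.of fun u v => ch a (c u v)
  let w : (Fin d → ZMod 2) → (Fin (n + 1) → V) → (Fin (n + 1) → V) → ℝ := fun a x y =>
    ∏ k, (M a (x k) (y k) * M a (x (k + 1)) (y k))
  have hw : ∀ x y, ∑ a, w a x y =
      if ∑ k, (c (x k) (y k) + c (x (k + 1)) (y k)) = 0 then (2 : ℝ) ^ d else 0 := by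
    intro x y
    rw [← sum_ch]
    refine sum_congr rfl fun a _ => ?_
    simp only [w, M, ch_sum, ch_add, Matrix.of_apply]
  let T : (Fin d → ZMod 2) → ℝ := fun a => ∑ x, ∑ y, w a x y
  have T1 : ∀ a, T a = ∑ x : Fin (n + 1) → V, ∏ k, (M a * (M a)ᵀ) (x k) (x (k + 1)) :=
    fun a => sum_congr rfl fun x _ => sum_y (M a) n x
  have T2 : ∀ a, T a = ∑ y : Fin (n + 1) → V, ∏ k, ((M a)ᵀ * (M a)ᵀᵀ) (y k) (y (k + 1)) :=
    fun a => sum_comm.trans (sum_congr rfl fun y _ => sum_x (M a) n y)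
  have T0 : ∀ a, 0 ≤ T a := fun a => by
    rw [T1, sum_cyc]
    exact sum_nonneg fun z _ => (logconv (M a) z _).1
  have Tz : T 0 = N ^ (n + 1) * N ^ (n + 1) := by
    simp [T, w, M, zero_ch, hN]
  have hlow : N ^ (n + 1) * N ^ (n + 1) ≤ ∑ a, T a :=
    Tz ▸ single_le_sum (fun a _ => T0 a) (mem_univ 0)
  let P : Finset (Fin (n + 1) × Fin (n + 1)) := univ.filter fun p => p.1 ≠ p.2
  have hpt : ∀ x y, ∑ a, w a x y ≤ ∑ p ∈ P, ((if x p.1 = x p.2 then ∑ a, w a x y else 0) +
      if y p.1 = y p.2 then ∑ a, w a x y else 0) := by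
    intro x y
    have h0 : 0 ≤ ∑ a, w a x y := by rw [hw]; split_ifs <;> positivity
    have hn : ∀ p ∈ P, 0 ≤ (if x p.1 = x p.2 then ∑ a, w a x y else 0) +
        if y p.1 = y p.2 then ∑ a, w a x y else 0 := fun p _ => by
      split_ifs <;> linarith
    by_cases hx : Function.Injective x
    · by_cases hy : Function.Injective y
      · rw [hw, if_neg (h x y hx hy)]
        simp
      · obtain ⟨i, j, e, hij⟩ := Function.not_injective_iff.1 hy
        refine le_trans ?_ (single_le_sum hn (show (i, j) ∈ P by simp [P, hij]))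
        simp only [e, if_true]
        split_ifs <;> linarith
    · obtain ⟨i, j, e, hij⟩ := Function.not_injective_iff.1 hx
      refine le_trans ?_ (single_le_sum hn (show (i, j) ∈ P by simp [P, hij]))
      simp only [e, if_true]
      split_ifs <;> linarith
  have hX : ∀ p ∈ P, ∑ x, ∑ y, (if x p.1 = x p.2 then ∑ a, w a x y else 0) ≤
      (∑ a, T a) / K + 2 ^ d * (K ^ n * N ^ (n + 2)) := by
    intro p hp
    have e : ∑ x, ∑ y, (if x p.1 = x p.2 then ∑ a, w a x y else 0) = ∑ a, ∑ x : Fin (n + 1) → V,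
        (if x p.1 = x p.2 then ∏ k, (M a * (M a)ᵀ) (x k) (x (k + 1)) else 0) := by
      rw [sum_comm (s := (univ : Finset (Fin d → ZMod 2)))]
      refine sum_congr rfl fun x _ => ?_
      split_ifs
      · rw [sum_comm]
        exact sum_congr rfl fun a _ => sum_y (M a) n x
      · simp
    rw [e, sum_div]
    refine (sum_le_sum fun a _ => deg_bound (M a) (fun u v => ch_sq _ _) K hK0 n p.1 p.2
      (mem_filter.1 hp).2).trans (le_of_eq ?_)
    simp only [T1, sum_add_distrib]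
    simp [hN]
  have hY : ∀ p ∈ P, ∑ x, ∑ y, (if y p.1 = y p.2 then ∑ a, w a x y else 0) ≤
      (∑ a, T a) / K + 2 ^ d * (K ^ n * N ^ (n + 2)) := by
    intro p hp
    have e : ∑ x, ∑ y, (if y p.1 = y p.2 then ∑ a, w a x y else 0) = ∑ a, ∑ y : Fin (n + 1) → V,
        (if y p.1 = y p.2 then ∏ k, ((M a)ᵀ * (M a)ᵀᵀ) (y k) (y (k + 1)) else 0) := by
      rw [sum_comm, sum_comm (s := (univ : Finset (Fin d → ZMod 2)))]
      refine sum_congr rfl fun y _ => ?_
      split_ifs
      · rw [sum_comm]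
        exact sum_congr rfl fun a _ => sum_x (M a) n y
      · simp
    rw [e, sum_div]
    refine (sum_le_sum fun a _ => deg_bound (M a)ᵀ (fun u v => ch_sq _ _) K hK0 n p.1 p.2
      (mem_filter.1 hp).2).trans (le_of_eq ?_)
    simp only [T2, sum_add_distrib]
    simp [hN]
  set S := ∑ a, T a with hS
  set R := 2 ^ d * (K ^ n * N ^ (n + 2)) with hR
  have hS0 : 0 ≤ S := sum_nonneg fun a _ => T0 a
  have hR0 : 0 ≤ R := by positivity
  have hup : S ≤ ∑ _p ∈ P, (S / K + R + (S / K + R)) := by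
    calc S = ∑ x, ∑ y, ∑ a, w a x y := by
          rw [hS]
          simp only [T]
          rw [sum_comm]
          exact sum_congr rfl fun x _ => sum_comm
      _ ≤ ∑ x, ∑ y, ∑ p ∈ P, ((if x p.1 = x p.2 then ∑ a, w a x y else 0) +
          if y p.1 = y p.2 then ∑ a, w a x y else 0) :=
          sum_le_sum fun x _ => sum_le_sum fun y _ => hpt x y
      _ = ∑ p ∈ P, ∑ x, ∑ y, ((if x p.1 = x p.2 then ∑ a, w a x y else 0) +
          if y p.1 = y p.2 then ∑ a, w a x y else 0) := by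
          rw [sum_comm (s := P)]
          exact sum_congr rfl fun x _ => sum_comm
      _ ≤ _ := sum_le_sum fun p hp => by
          simp only [sum_add_distrib]
          exact add_le_add (hX p hp) (hY p hp)
  have hP : (P.card : ℝ) ≤ (n + 1) ^ 2 := by
    have : P.card ≤ (n + 1) ^ 2 := (card_filter_le _ _).trans (by simp [sq])
    exact_mod_cast this
  rw [sum_const, nsmul_eq_mul] at hup
  clear hX hY hpt hS
  clear_value S R P
  have hSK : 0 ≤ S / K := div_nonneg hS0 hK0.le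
  have h2 : S ≤ (n + 1) ^ 2 * (S / K + R + (S / K + R)) :=
    hup.trans (mul_le_mul_of_nonneg_right hP (by linarith))
  have h3 : (n + 1) ^ 2 * (S / K + R + (S / K + R)) = S / 2 + K / 2 * R := by
    rw [hK]; field_simp; ring
  have h4 : N ^ n * N ^ (n + 2) ≤ K ^ (n + 1) * 2 ^ d * N ^ (n + 2) := by
    calc N ^ n * N ^ (n + 2) = N ^ (n + 1) * N ^ (n + 1) := by ring
      _ ≤ S := hlow
      _ ≤ K * R := by linarith
      _ = _ := by rw [hR]; ring
  exact le_of_mul_le_mul_right h4 (by positivity)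

end Pool.Agent.H14.ZsCyc
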