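import Mathlib
import Pool.Agent.H14.ZsCycDefs
import Pool.Agent.H14.ZsCycUp

set_option autoImplicit false

namespace Pool.Agent.H14.ZsCyc

open Finset

theorem forced_of_big (n d N : ℕ) (hn : 1 ≤ n)
    (h : (4 * ((n : ℝ) + 1) ^ 2) ^ (n + 1) * 2 ^ d < (N : ℝ) ^ n) : Forced (n + 1) d N := by
  intro c
  by_contra hc
  push Not at hc
  have hN : 0 < N := by
    rcases Nat.eq_zero_or_pos N with rfl | h0
    · rw [Nat.cast_zero, zero_pow (by omega)] at h
      exact absurd h (not_lt.2 (by positivity))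
    · exact h0
  have : Nonempty (Fin N) := ⟨⟨0, hN⟩⟩
  have := upper n c fun x y hx hy => by
    simpa [finRotate_apply] using hc (n + 1) (by omega) le_rfl x y hx hy
  rw [Fintype.card_fin] at this
  linarith

theorem not_forced (n d t N : ℕ) (ht : t ≠ 0) (hd : n * t ≤ d) (hN : N ≤ 2 ^ t) :
    ¬ Forced (n + 1) d N := by
  classical
  intro h
  let F := GaloisField 2 t
  have : Fintype F := Fintype.ofFinite F
  have hc : Fintype.card F = 2 ^ t := by
    rw [← Nat.card_eq_fintype_card]; exact GaloisField.card 2 t ht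
  obtain ⟨ι⟩ : Nonempty (Fin N ↪ F) := Function.Embedding.nonempty_of_card_le (by simpa [hc])
  obtain ⟨L, hL⟩ := (finrank_le_iff_exists_linearMap (R := ZMod 2) (M := Fin n → F)
    (M' := Fin d → ZMod 2)).1 (by
      rw [Module.finrank_pi_fintype, Module.finrank_fin_fun]
      simpa [F, GaloisField.finrank 2 ht] using hd)
  obtain ⟨k, hk2, hkm, x, y, hx, hy, hs⟩ := h fun u v => L fun j => ι u * ι v ^ (j.val + 1)
  simp only [← map_add, ← map_sum] at hs
  have h0 := hL (hs.trans (map_zero L).symm)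
  have hz := Matrix.eq_zero_of_forall_pow_sum_mul_pow_eq_zero (f := fun i => ι (y i))
    (v := fun i => ι (x i) + ι (x (finRotate k i))) (ι.injective.comp hy) (by
      intro i
      rcases Nat.eq_zero_or_pos i.val with hi | hi
      · simp only [hi, pow_zero, mul_one, sum_add_distrib]
        rw [Equiv.sum_comp (finRotate k) fun j => ι (x j)]
        exact CharTwo.add_self_eq_zero _
      · have := congrFun h0 ⟨i.val - 1, by have := i.2; omega⟩
        simp only [Finset.sum_apply, Pi.add_apply, Pi.zero_apply, Nat.sub_add_cancel hi] at this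
        simpa [add_mul] using this)
  obtain ⟨k, rfl⟩ : ∃ l, k = l + 2 := ⟨k - 2, by omega⟩
  have h1 := congrFun hz 0
  simp only [Pi.zero_apply, CharTwo.add_eq_zero] at h1
  have h2 := hx (ι.injective h1)
  simp [finRotate_apply] at h2

theorem main (m : ℕ) (hm : 2 ≤ m) : ∃ c C : ℝ, 0 < c ∧ c ≤ C ∧ ∃ d₀ : ℕ, ∀ d ≥ d₀,
    c * (2 : ℝ) ^ ((d : ℝ) / (m - 1)) ≤ B m d ∧ (B m d : ℝ) ≤ C * (2 : ℝ) ^ ((d : ℝ) / (m - 1)) := by
  obtain ⟨n, rfl⟩ : ∃ n, m = n + 1 := ⟨m - 1, by omega⟩
  have hn : 1 ≤ n := by omega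
  have hn' : (0 : ℝ) < n := by exact_mod_cast hn
  set Q : ℝ := (4 * ((n : ℝ) + 1) ^ 2) ^ (n + 1) with hQ
  have hQ1 : 1 ≤ Q := one_le_pow₀ (by nlinarith)
  refine ⟨1 / 2, Q + 1, by norm_num, by linarith, n, fun d hd => ?_⟩
  have e : ((n + 1 : ℕ) : ℝ) - 1 = n := by push_cast; ring
  rw [e]
  set X : ℝ := (2 : ℝ) ^ ((d : ℝ) / n) with hX
  have hX1 : 1 ≤ X := Real.one_le_rpow (by norm_num) (by positivity)
  have hXn : X ^ n = 2 ^ d := by
    rw [hX, ← Real.rpow_natCast, ← Real.rpow_mul (by norm_num), div_mul_cancel₀ _ hn'.ne',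
      Real.rpow_natCast]
  have hF : Forced (n + 1) d (⌊Q * X⌋₊ + 1) := by
    apply forced_of_big n d _ hn
    calc Q * 2 ^ d ≤ Q ^ n * X ^ n := by
          rw [hXn]
          exact mul_le_mul_of_nonneg_right (le_self_pow₀ hQ1 (by omega)) (by positivity)
      _ = (Q * X) ^ n := (mul_pow _ _ _).symm
      _ < _ := by
          refine pow_lt_pow_left₀ ?_ (by positivity) (by omega)
          push_cast
          exact Nat.lt_floor_add_one _
  constructor
  · have hmem : Forced (n + 1) d (B (n + 1) d) := Nat.sInf_mem (s := {N | Forced (n + 1) d N}) ⟨_, hF⟩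
    have ht : d / n ≠ 0 := (Nat.div_pos hd hn).ne'
    have h1 : 2 ^ (d / n) < B (n + 1) d := by
      by_contra hc
      exact not_forced n d (d / n) _ ht (Nat.mul_div_le d n) (not_lt.1 hc) hmem
    have h2 : X ≤ 2 ^ (d / n + 1) := by
      rw [hX, ← Real.rpow_natCast]
      refine Real.rpow_le_rpow_of_exponent_le (by norm_num) ?_
      rw [div_le_iff₀ hn']
      have := Nat.lt_mul_div_succ d hn
      have h3 : (d : ℝ) < n * ((d / n + 1 : ℕ) : ℝ) := by exact_mod_cast this
      linarith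
    have h3 : (2 : ℝ) ^ (d / n) < B (n + 1) d := by exact_mod_cast h1
    rw [pow_succ] at h2
    linarith
  · have h1 : B (n + 1) d ≤ ⌊Q * X⌋₊ + 1 := Nat.sInf_le hF
    have h2 : (B (n + 1) d : ℝ) ≤ ⌊Q * X⌋₊ + 1 := by exact_mod_cast h1
    have h3 := Nat.floor_le (show 0 ≤ Q * X by positivity)
    linarith

end Pool.Agent.H14.ZsCyc
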